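import Mathlib

/-! Krull separation and closedness of finite-dimensional extensions. -/

namespace Pool.Agent.Lib.MP_038c09_al

variable {F : Type} [Field F] {P : Type} [AddCommGroup P] [Module F P]

theorem krull_fin_quot (A : Type) [CommRing A] [Algebra F A] [Algebra.FiniteType F A]
    (m : Ideal A) (hm : m.IsMaximal) (i : ℕ) : Module.Finite F (A ⧸ m ^ i) := by
  rw [Module.finite_iff_krullDimLE_zero F, Ring.krullDimLE_zero_iff]
  intro J hJ
  have h1 : m ≤ J.comap (Ideal.Quotient.mk (m ^ i)) := Ideal.IsPrime.le_of_pow_le (n := i) (by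
    rw [← Ideal.map_le_iff_le_comap, Ideal.map_quotient_self]; exact bot_le)
  have h2 : (J.comap (Ideal.Quotient.mk (m ^ i))).IsMaximal :=
    hm.eq_of_le (Ideal.comap_ne_top _ hJ.ne_top) h1 ▸ hm
  have := Ideal.map_eq_top_or_isMaximal_of_surjective (Ideal.Quotient.mk (m ^ i))
    Ideal.Quotient.mk_surjective h2
  rw [Ideal.map_comap_of_surjective _ Ideal.Quotient.mk_surjective] at this
  exact this.resolve_left hJ.ne_top

theorem krull_abs (A Q : Type) [CommRing A] [Algebra F A] [Algebra.FiniteType F A]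
    [AddCommGroup Q] [Module F Q] [Module A Q] [IsScalarTower F A Q] [Module.Finite A Q]
    (q : Q) (hq : q ≠ 0) : ∃ I : Ideal A, q ∉ (I • ⊤ : Submodule A Q) ∧
      ((I • ⊤ : Submodule A Q).restrictScalars F).CoFG := by
  have := Algebra.FiniteType.isNoetherianRing F A
  obtain ⟨m, hm, h⟩ := Ideal.exists_le_maximal (Ideal.torsionOf A Q q)
    fun h => hq ((Ideal.torsionOf_eq_top_iff A q).1 h)
  have h1 : q ∉ (⨅ i : ℕ, m ^ i • ⊤ : Submodule A Q) := fun h' => by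
    obtain ⟨r, hr⟩ := (m.mem_iInf_smul_pow_eq_bot_iff q).1 h'
    have : 1 - (r : A) ∈ m := h (by rw [Ideal.mem_torsionOf_iff, sub_smul, one_smul, hr, sub_self])
    exact hm.ne_top ((Ideal.eq_top_iff_one m).2 (by simpa using m.add_mem this r.2))
  obtain ⟨i, hi⟩ := not_forall.1 fun h' => h1 (Submodule.mem_iInf _ |>.2 h')
  refine ⟨m ^ i, hi, ?_⟩
  have := krull_fin_quot (F := F) A m hm i
  have : Module.Finite (A ⧸ m ^ i) (Q ⧸ (m ^ i • ⊤ : Submodule A Q)) :=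
    Module.Finite.of_restrictScalars_finite A _ _
  have : IsScalarTower F (A ⧸ m ^ i) (Q ⧸ (m ^ i • ⊤ : Submodule A Q)) := ⟨fun c x y => by
    obtain ⟨x, rfl⟩ := Ideal.Quotient.mk_surjective x
    exact smul_assoc c x y⟩
  have : Module.Finite F (Q ⧸ (m ^ i • ⊤ : Submodule A Q)) := Module.Finite.trans (A ⧸ m ^ i) _
  exact Module.Finite.equiv (Submodule.Quotient.restrictScalarsEquiv F _).symm

/-- The operator induced on `N / K`. -/
def krullInd (K N : Submodule F P) (f : P →ₗ[F] P) (hK : ∀ x ∈ K, f x ∈ K)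
    (hN : ∀ x ∈ N, f x ∈ N) : Module.End F (N ⧸ K.comap N.subtype) :=
  Submodule.mapQ _ _ (f.restrict hN) fun x hx => hK x hx

theorem krullInd_comm (K N : Submodule F P) (f g : P →ₗ[F] P) (hK : ∀ x ∈ K, f x ∈ K)
    (hN : ∀ x ∈ N, f x ∈ N) (hK' : ∀ x ∈ K, g x ∈ K) (hN' : ∀ x ∈ N, g x ∈ N)
    (h : ∀ x ∈ N, f (g x) - g (f x) ∈ K) :
    krullInd K N f hK hN * krullInd K N g hK' hN' =
      krullInd K N g hK' hN' * krullInd K N f hK hN :=
  LinearMap.ext fun q => by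
    obtain ⟨x, rfl⟩ := Submodule.Quotient.mk_surjective _ q
    exact (Submodule.Quotient.eq _).2 (h x x.2)

open scoped IsMulCommutative in
/-- Krull separation: `N / K` is a finitely generated module over finitely many commuting
operators `θ i`; a point outside `K` is avoided by a subspace of finite codimension in `N` that is
stable under every operator commuting with the `θ i` modulo `K`. -/
theorem krull_sep {ι : Type} [Fintype ι] (θ : ι → P →ₗ[F] P) (K N : Submodule F P) (hKN : K ≤ N)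
    (hK : ∀ i, ∀ x ∈ K, θ i x ∈ K) (hN : ∀ i, ∀ x ∈ N, θ i x ∈ N)
    (hc : ∀ i j, ∀ x ∈ N, θ i (θ j x) - θ j (θ i x) ∈ K)
    (S : Set P) (hS : S.Finite) (hSN : S ⊆ N)
    (hgen : ∀ W : Submodule F P, K ≤ W → S ⊆ W → (∀ i, ∀ x ∈ W, θ i x ∈ W) → N ≤ W)
    (a : P) (ha : a ∉ K) :
    ∃ N' : Submodule F P, K ≤ N' ∧ N' ≤ N ∧ a ∉ N' ∧
      (∃ U : Submodule F P, U.FG ∧ N ≤ N' ⊔ U) ∧
      ∀ ψ : P →ₗ[F] P, (∀ x ∈ K, ψ x ∈ K) → (∀ x ∈ N, ψ x ∈ N) →
        (∀ i, ∀ x ∈ N, ψ (θ i x) - θ i (ψ x) ∈ K) → ∀ x ∈ N', ψ x ∈ N' := by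
  by_cases haN : a ∈ N
  swap
  · exact ⟨N, hKN, le_rfl, haN, ⟨⊥, Submodule.fg_bot, le_sup_left⟩, fun ψ _ h _ => h⟩
  set K' := K.comap N.subtype with hK'
  set t : ι → Module.End F (N ⧸ K') := fun i => krullInd K N (θ i) (hK i) (hN i) with ht
  set A := Algebra.adjoin F (Set.range t) with hA
  have : IsMulCommutative A := Algebra.isMulCommutative_adjoin F (by
    rintro _ ⟨i, rfl⟩ _ ⟨j, rfl⟩
    exact krullInd_comm K N _ _ _ _ _ _ (hc i j))
  have : Algebra.FiniteType F A := 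
    ⟨(Subalgebra.fg_top _).2 (Subalgebra.fg_def.2 ⟨_, Set.finite_range t, rfl⟩)⟩
  have lift : ∀ M : Submodule A (N ⧸ K'), ∃ W : Submodule F P, K ≤ W ∧ W ≤ N ∧
      ∀ x : N, (x : P) ∈ W ↔ K'.mkQ x ∈ M := fun M =>
    ⟨((M.restrictScalars F).comap K'.mkQ).map N.subtype,
      fun x hx => ⟨⟨x, hKN hx⟩, by
        have : K'.mkQ ⟨x, hKN hx⟩ = 0 := (Submodule.Quotient.mk_eq_zero _).2 hx
        simp [this], rfl⟩, Submodule.map_subtype_le _ _, fun x => by simp⟩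
  have : Module.Finite A (N ⧸ K') := by
    refine ⟨Submodule.fg_def.2 ⟨K'.mkQ '' (Subtype.val ⁻¹' S),
      (hS.preimage Subtype.val_injective.injOn).image _, ?_⟩⟩
    obtain ⟨W, h1, h2, h3⟩ := lift (Submodule.span A (K'.mkQ '' (Subtype.val ⁻¹' S)))
    have := hgen W h1 (fun x hx => (h3 ⟨x, hSN hx⟩).2 (Submodule.subset_span ⟨_, hx, rfl⟩))
      fun i x hx => (h3 ⟨_, hN i x (h2 hx)⟩).2 (Submodule.smul_mem _
        (⟨t i, Algebra.subset_adjoin ⟨i, rfl⟩⟩ : A) ((h3 ⟨x, h2 hx⟩).1 hx))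
    refine eq_top_iff.2 fun q _ => ?_
    obtain ⟨x, rfl⟩ := Submodule.Quotient.mk_surjective _ q
    exact (h3 x).1 (this x.2)
  obtain ⟨I, h1, h2⟩ := krull_abs (F := F) A (N ⧸ K') (K'.mkQ ⟨a, haN⟩)
    fun h => ha ((Submodule.Quotient.mk_eq_zero K').1 h)
  obtain ⟨W, h3, h4, h5⟩ := lift (I • ⊤)
  refine ⟨W, h3, h4, fun h => h1 ((h5 ⟨a, haN⟩).1 h), ?_, fun ψ a1 a2 a3 x hx => ?_⟩
  · set π := ((I • ⊤ : Submodule A (N ⧸ K')).restrictScalars F).mkQ ∘ₗ K'.mkQ with hπ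
    obtain ⟨U, hU⟩ := (LinearMap.ker π).exists_isCompl
    refine ⟨U.map N.subtype, ((Submodule.CoFG.ker π).fg_of_isCompl hU).map _, fun x hx => ?_⟩
    obtain ⟨y, hy, z, hz, e⟩ := Submodule.mem_sup.1
      (hU.sup_eq_top.ge (Submodule.mem_top (x := (⟨x, hx⟩ : N))))
    exact Submodule.mem_sup.2 ⟨y, (h5 y).2 ((Submodule.Quotient.mk_eq_zero
      ((I • ⊤ : Submodule A (N ⧸ K')).restrictScalars F)).1 hy), z,
      ⟨z, hz, rfl⟩, congrArg Subtype.val e⟩
  · have b1 : ∀ r : A, ∀ q, krullInd K N ψ a1 a2 (r • q) = r • krullInd K N ψ a1 a2 q :=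
      fun r q => LinearMap.congr_fun (Algebra.commute_of_mem_adjoin_of_forall_mem_commute r.2 (by
        rintro _ ⟨i, rfl⟩
        exact krullInd_comm K N _ _ a1 a2 _ _ (a3 i))).eq q
    have b2 : ∀ q ∈ (I • ⊤ : Submodule A (N ⧸ K')),
        krullInd K N ψ a1 a2 q ∈ (I • ⊤ : Submodule A (N ⧸ K')) := fun q hq => by
      refine Submodule.smul_induction_on hq (fun r hr q _ => ?_) fun q q' h h' => ?_
      · rw [b1]; exact Submodule.smul_mem_smul hr Submodule.mem_top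
      · rw [map_add]; exact Submodule.add_mem _ h h'
    exact (h5 ⟨_, a2 x (h4 hx)⟩).2 (b2 _ ((h5 ⟨x, h4 hx⟩).1 hx))

/-- If `K1` is closed for the cofinite stable subspaces, so is every stable `K'` that is
finite-dimensional over `K1`. -/
theorem closed_of_fd {κ : Type} (ρ : κ → P →ₗ[F] P) (K1 K' : Submodule F P) (h1 : K1 ≤ K')
    (U : Submodule F P) (hU : U.FG) (h2 : K' ≤ K1 ⊔ U) (hK' : ∀ t, ∀ x ∈ K', ρ t x ∈ K')
    (hcl : ∀ a, a ∉ K1 → ∃ J : Submodule F P, K1 ≤ J ∧ (∀ t, ∀ x ∈ J, ρ t x ∈ J) ∧ J.CoFG ∧ a ∉ J)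
    (a : P) (ha : a ∉ K') :
    ∃ J : Submodule F P, K' ≤ J ∧ (∀ t, ∀ x ∈ J, ρ t x ∈ J) ∧ J.CoFG ∧ a ∉ J := by
  set V := U ⊔ Submodule.span F {a} with hV
  have : FiniteDimensional F V := Module.Finite.iff_fg.2 (hU.sup (Submodule.fg_span_singleton a))
  obtain ⟨J, ⟨a1, a2, a3⟩, hmin⟩ := (measure fun J : Submodule F P =>
    Module.finrank F (J.comap V.subtype)).wf.has_min
    {J | K1 ≤ J ∧ (∀ t, ∀ x ∈ J, ρ t x ∈ J) ∧ J.CoFG} ⟨⊤, le_top, fun _ _ _ => trivial, .top⟩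
  have key : ∀ b ∈ J, b ∈ V → b ∈ K1 := fun b hb hb' => by
    by_contra h
    obtain ⟨J', b1, b2, b3, b4⟩ := hcl b h
    refine hmin (J ⊓ J') ⟨le_inf a1 b1, fun t x hx => ⟨a2 t x hx.1, b2 t x hx.2⟩, a3.inf b3⟩
      (Submodule.finrank_lt_finrank_of_lt (lt_of_le_of_ne (Submodule.comap_mono inf_le_left)
        fun h' => b4 ?_))
    exact (h'.ge (show (⟨b, hb'⟩ : V) ∈ J.comap V.subtype from hb)).2
  refine ⟨J ⊔ K', le_sup_right, fun t x hx => ?_, a3.of_le le_sup_left, fun h => ha ?_⟩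
  · obtain ⟨y, hy, z, hz, rfl⟩ := Submodule.mem_sup.1 hx
    rw [map_add]
    exact Submodule.add_mem_sup (a2 t y hy) (hK' t z hz)
  · obtain ⟨y, hy, z, hz, e⟩ := Submodule.mem_sup.1 h
    obtain ⟨k, hk, u, hu, e'⟩ := Submodule.mem_sup.1 (h2 hz)
    have b1 : y + k ∈ K1 := key _ (J.add_mem hy (a1 hk)) (by
      rw [show y + k = a - u by rw [← e, ← e']; abel]
      exact V.sub_mem (Submodule.mem_sup_right (Submodule.mem_span_singleton_self a))
        (Submodule.mem_sup_left hu))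
    rw [← e]
    exact K'.add_mem (h1 (by simpa using K1.sub_mem b1 hk)) hz

end Pool.Agent.Lib.MP_038c09_al
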