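import Pool.Agent.Lib.MP_038c09_al.Transfer
import Pool.Agent.Lib.MP_038c09_al.Krull

-- part Pool.Agent.Lib.MP_038c09_al.Words
section

/-!
Consequences of the relations for single words.
-/

set_option linter.unusedSectionVars false

namespace Pool.Agent.Lib.MP_038c09_al

open List

variable {F : Type} [Field F] {X : Type} {Γ : Type}

/-- class of a word -/
noncomputable def cl (J : Submodule F (PP F X)) (g : X × X) (w : List (Bool × X)) : PP F X ⧸ J :=
  J.mkQ (bw F g w)

theorem cl_eq_zero {J : Submodule F (PP F X)} {g : X × X} {w : List (Bool × X)} :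
    cl J g w = 0 ↔ bw F g w ∈ J := by simp [cl]

theorem cl_eq_iff {J : Submodule F (PP F X)} {g : X × X} {w w' : List (Bool × X)} :
    cl J g w = cl J g w' ↔ bw F g w - bw F g w' ∈ J := by
  simp [cl, Submodule.Quotient.eq]

/-- left letters -/
abbrev Ls (xs : List X) : List (Bool × X) := xs.map fun x => (false, x)

/-- right letters -/
abbrev Rs (xs : List X) : List (Bool × X) := xs.map fun x => (true, x)

theorem eq_Ls {w : List (Bool × X)} {n : ℕ} (h : shp w = replicate n false) : w = Ls (arg w) := by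
  rw [Ls, arg, map_map]
  conv_lhs => rw [← map_id w]
  refine map_congr_left fun p hp => ?_
  have : p.1 ∈ replicate n false := h ▸ mem_map_of_mem hp
  exact Prod.ext (mem_replicate.1 this).2 rfl

theorem eq_Rs {w : List (Bool × X)} {n : ℕ} (h : shp w = replicate n true) : w = Rs (arg w) := by
  rw [Rs, arg, map_map]
  conv_lhs => rw [← map_id w]
  refine map_congr_left fun p hp => ?_
  have : p.1 ∈ replicate n true := h ▸ mem_map_of_mem hp
  exact Prod.ext (mem_replicate.1 this).2 rfl

section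

variable {s : Sys Γ} {J : Submodule F (PP F X)} (hJ : Rel F X s ≤ J) (g : X × X)
include hJ

theorem cl_rl {w w' : List (Bool × X)} {e : ℤ} (h : Rl s w e w') (p t : List (Bool × X)) :
    cl J g (p ++ (w ++ t)) = (e : F) • cl J g (p ++ (w' ++ t)) := by
  have := hJ (rel_mem h g p t)
  rwa [← Submodule.Quotient.mk_eq_zero, ← Submodule.mkQ_apply, map_sub, map_smul,
    sub_eq_zero] at this

theorem cl_kill {w : List (Bool × X)} {Z : List Bool} (h : s.KillShape Z) (hZ : Z <:+: shp w) :
    cl J g w = 0 := by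
  obtain ⟨A, B, e⟩ := hZ
  obtain ⟨w1, t, rfl, h1, -⟩ := map_eq_append_iff.1 e.symm
  obtain ⟨p, w0, rfl, -, h2⟩ := map_eq_append_iff.1 h1
  subst h2
  rw [append_assoc, cl_rl hJ g (Rl.kill w0 h)]
  simp

theorem cl_nokill {w : List (Bool × X)} (h : cl J g w ≠ 0) : s.NoKill (shp w) := by
  intro Z hZ hl
  by_contra hf
  exact h (cl_kill hJ g (Or.inl ⟨hl, hf⟩) hZ)

theorem cl_rrrl {w : List (Bool × X)} (h : [true, true, true, false] <:+: shp w) : cl J g w = 0 :=
  cl_kill hJ g (Or.inl ⟨by simp [Cd.W], Cd.not_fac_rrrl⟩) h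

theorem cl_rl_run {w : List (Bool × X)} (h : (true :: replicate (s.K + 1) false) <:+: shp w) :
    cl J g w = 0 :=
  cl_kill hJ g (Or.inl ⟨by simp [Cd.W]; omega, Cd.not_fac_rl⟩) h

theorem cl_dead {P : List Γ} (h : Dead s.mv s.kl P) (p t : List (Bool × X)) :
    ∀ w : List (Bool × X), shp w = s.κ P → cl J g (p ++ (w ++ t)) = 0 := by
  induction h with
  | kill h =>
    intro w hw
    obtain ⟨z, hz, A, B, rfl⟩ := h
    refine cl_kill hJ g (Or.inr ⟨z, hz, rfl⟩) ⟨shp p ++ s.κ A, s.κ B ++ shp t, ?_⟩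
    simp [hw]
  | step h _ ih =>
    intro w hw
    obtain ⟨A, B, u, u', hu, rfl, rfl⟩ := h
    rw [Cd.κ_append, Cd.κ_append] at hw
    obtain ⟨w1, w3, rfl, h1, h3⟩ := map_eq_append_iff.1 hw
    obtain ⟨w1, w2, rfl, h1, h2⟩ := map_eq_append_iff.1 h1
    have hl : (s.κ u').length = (arg w2).length := by
      rw [← s.κ_len hu, ← h2]; simp
    have h4 := cl_rl hJ g (Rl.move u u' w2 ((s.κ u').zip (arg w2)) hu h2
      (map_fst_zip hl.le) (map_snd_zip hl.ge).symm) (p ++ w1) (w3 ++ t)
    have h5 := ih (w1 ++ (s.κ u').zip (arg w2) ++ w3) (by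
      rw [shp, map_append, map_append, h1, h3, map_fst_zip hl.le, Cd.κ_append, Cd.κ_append])
    simp only [append_assoc] at h4 h5 ⊢
    rw [h4, h5, smul_zero]

theorem cl_swap {b1 b2 : Bool} {w1 w2 : List (Bool × X)} {e : ℤ}
    (h : SwapShape s.toCd b1 (shp w1) b2 (shp w2) e) (x y : X) (p t : List (Bool × X)) :
    cl J g (p ++ (b1, x) :: (w1 ++ (b2, y) :: (w2 ++ t))) =
      (e : F) • cl J g (p ++ (b1, y) :: (w1 ++ (b2, x) :: (w2 ++ t))) := by
  simpa using cl_rl hJ g (Rl.swap b1 x w1 b2 y w2 e h) p t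

theorem cl_perm_R {xs ys : List X} (h : xs ~ ys) (p t : List (Bool × X)) :
    cl J g (p ++ (Rs xs ++ t)) = cl J g (p ++ (Rs ys ++ t)) := by
  induction h generalizing p with
  | nil => rfl
  | cons x _ ih => simpa using ih (p ++ [(true, x)])
  | swap x y l => simpa using cl_swap hJ g (w1 := []) (w2 := []) SwapShape.rr y x p (Rs l ++ t)
  | trans _ _ ih1 ih2 => rw [ih1, ih2]

theorem cl_perm_L {xs ys : List X} (h : xs ~ ys) (p : List (Bool × X)) (z : X)
    (t : List (Bool × X)) :
    cl J g (p ++ (Ls xs ++ (false, z) :: t)) = cl J g (p ++ (Ls ys ++ (false, z) :: t)) := by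
  induction h generalizing p with
  | nil => rfl
  | cons x _ ih => simpa using ih (p ++ [(false, x)])
  | swap x y l =>
    cases l with
    | nil => simpa using cl_swap hJ g (w1 := []) (w2 := [(false, z)]) SwapShape.lll y x p t
    | cons a l =>
      simpa using cl_swap hJ g (w1 := []) (w2 := [(false, a)]) SwapShape.lll y x p
        (Ls l ++ (false, z) :: t)
  | trans _ _ ih1 ih2 => rw [ih1, ih2]

end

/-- blocks given by bodies and last arguments -/
def tl (L : List (List (Bool × X) × X)) : List (Bool × X) :=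
  L.flatMap fun q => q.1 ++ [(false, q.2)]

@[simp] theorem tl_nil : tl ([] : List (List (Bool × X) × X)) = [] := rfl

@[simp] theorem tl_cons (q : List (Bool × X) × X) (L : List (List (Bool × X) × X)) :
    tl (q :: L) = q.1 ++ (false, q.2) :: tl L := by simp [tl]

theorem exists_tl (c : Cd Γ) (P : List Γ) : ∀ w : List (Bool × X), shp w = c.κ P →
    ∃ L : List (List (Bool × X) × X), L.length = P.length ∧
      (∀ q ∈ L, ∃ γ, shp q.1 = c.bd γ) ∧ w = tl L := by
  induction P with
  | nil => intro w hw; exact ⟨[], rfl, by simp, by simpa using hw⟩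
  | cons γ P ih =>
    intro w hw
    rw [Cd.κ_cons, Cd.cd, append_assoc, singleton_append] at hw
    obtain ⟨b, w', rfl, h1, h2⟩ := map_eq_append_iff.1 hw
    obtain ⟨⟨b', x⟩, w'', rfl, h3, h4⟩ := map_eq_cons_iff.1 h2
    obtain rfl : b' = false := h3
    obtain ⟨L, h5, h6, rfl⟩ := ih w'' h4
    refine ⟨(b, x) :: L, by simp [h5], ?_, by simp⟩
    intro q hq
    rcases mem_cons.1 hq with rfl | hq
    · exact ⟨γ, h1⟩
    · exact h6 q hq

theorem tl_rr (c : Cd Γ) {L : List (List (Bool × X) × X)} (hL : ∀ q ∈ L, ∃ γ, shp q.1 = c.bd γ)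
    {t : List (Bool × X)} (ht : [true, true] <+: shp t) :
    ∃ x y r, tl L ++ t = (true, x) :: (true, y) :: r := by
  have : [true, true] <+: shp (tl L ++ t) := by
    cases L with
    | nil => simpa using ht
    | cons q L =>
      obtain ⟨γ, h⟩ := hL q (by simp)
      simp only [tl_cons, shp, map_append] at h ⊢
      rw [h, Cd.bd]
      exact ⟨_, rfl⟩
  obtain ⟨r, hr⟩ := this
  obtain ⟨⟨b, x⟩, w, e, h1, h2⟩ := map_eq_cons_iff.1 hr.symm
  obtain ⟨⟨b', y⟩, w', rfl, h3, -⟩ := map_eq_cons_iff.1 h2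
  obtain rfl : b = true := h1
  obtain rfl : b' = true := h3
  exact ⟨x, y, w', e⟩

section

variable [CharZero F] {s : Sys Γ} {J : Submodule F (PP F X)} (hJ : Rel F X s ≤ J) (g : X × X)
include hJ

theorem cl_dup {t : List (Bool × X)} (ht : [true, true] <+: shp t)
    (L : List (List (Bool × X) × X)) (hL : ∀ q ∈ L, ∃ γ, shp q.1 = s.bd γ) (p : List (Bool × X))
    (x0 : X) (hx : x0 ∈ L.map Prod.snd) : cl J g (p ++ (false, x0) :: (tl L ++ t)) = 0 := by
  induction L generalizing p with
  | nil => simp at hx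
  | cons q L ih =>
    obtain ⟨b, x⟩ := q
    have hL' : ∀ q ∈ L, ∃ γ, shp q.1 = s.bd γ := fun q hq => hL q (mem_cons_of_mem _ hq)
    obtain ⟨γ, hγ⟩ := hL (b, x) (by simp)
    obtain ⟨u, v, r, e⟩ := tl_rr s.toCd hL' ht
    have h1 := cl_swap hJ g (w1 := b) (w2 := [(true, u), (true, v)])
      (hγ ▸ SwapShape.skew (c := s.toCd) γ) x0 x p r
    simp only [cons_append, nil_append, ← e] at h1
    simp only [tl_cons, append_assoc, cons_append]
    by_cases hxx : x0 = x
    · subst hxx
      have h2 : (2 : F) • cl J g (p ++ (false, x0) :: (b ++ (false, x0) :: (tl L ++ t))) = 0 := by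
        rw [two_smul]
        nth_rewrite 1 [h1]
        simp
      exact (smul_eq_zero.1 h2).resolve_left two_ne_zero
    · have h2 := ih hL' (p ++ (false, x) :: b) (by simpa [hxx] using hx)
      simp only [append_assoc, cons_append] at h2
      rw [h1, h2, smul_zero]

theorem cl_not_nodup {t : List (Bool × X)} (ht : [true, true] <+: shp t)
    (L : List (List (Bool × X) × X)) (hL : ∀ q ∈ L, ∃ γ, shp q.1 = s.bd γ) (p : List (Bool × X))
    (x0 : X) (hx : ¬ (x0 :: L.map Prod.snd).Nodup) :
    cl J g (p ++ (false, x0) :: (tl L ++ t)) = 0 := by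
  induction L generalizing p x0 with
  | nil => simp at hx
  | cons q L ih =>
    by_cases h : x0 ∈ (q :: L).map Prod.snd
    · exact cl_dup hJ g ht _ hL p x0 h
    · have := ih (fun q hq => hL q (mem_cons_of_mem _ hq)) (p ++ (false, x0) :: q.1) q.2
        (fun h' => hx (nodup_cons.2 ⟨h, h'⟩))
      simpa using this

theorem cl_many [Fintype X] {P : List Γ} (hP : Fintype.card X + 2 ≤ P.length)
    {w : List (Bool × X)} (hw : shp w = s.κ P) (p t : List (Bool × X)) :
    cl J g (p ++ (w ++ t)) = 0 := by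
  obtain ⟨γ, P, rfl⟩ := exists_cons_of_ne_nil (show P ≠ [] by rintro rfl; simp at hP)
  obtain ⟨P, δ, rfl⟩ := (eq_nil_or_concat' P).resolve_left (by rintro rfl; simp at hP)
  rw [Cd.κ_cons, Cd.κ_append, Cd.cd, append_assoc, singleton_append] at hw
  obtain ⟨b, w', rfl, -, h2⟩ := map_eq_append_iff.1 hw
  obtain ⟨⟨b', x⟩, w'', rfl, h3, h4⟩ := map_eq_cons_iff.1 h2
  obtain rfl : b' = false := h3
  obtain ⟨w1, w2, rfl, h5, h6⟩ := map_eq_append_iff.1 h4
  obtain ⟨L, h7, h8, rfl⟩ := exists_tl s.toCd P w1 h5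
  have := cl_not_nodup hJ g (t := w2 ++ t) (by
    obtain ⟨r, hr⟩ := s.κ_rr (z := [δ]) (by simp) (shp t)
    rw [shp, map_append, h6, hr]
    exact ⟨_, rfl⟩) L h8 (p ++ b) x (fun h => by
      have := h.length_le_card
      simp at this hP
      omega)
  simpa using this

variable [Fintype X]

/-- bound for the middle part of a nonzero word -/
def Sys.C2 (s : Sys Γ) (k : ℕ) : ℕ := s.K + (k + 3) * s.ℓ

theorem cl_z2 (hd : AllDead s.mv s.kl s.lb s.rb) {w : List (Bool × X)}
    (h : replicate (s.K + 1) false <+: shp w) (h0 : cl J g w ≠ 0) :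
    ∃ m u, shp w = replicate m false ++ u ∧ u.length ≤ s.C2 (Fintype.card X) := by
  obtain ⟨m, P, t, e, ht⟩ := Cd.parse_a (cl_nokill hJ g h0) h
  obtain ⟨w1, w2, rfl, -, h2⟩ := map_eq_append_iff.1 e
  obtain ⟨w2, w3, rfl, h3, -⟩ := map_eq_append_iff.1 h2
  rcases ht with ht | ht
  · refine ⟨m, _, e, ?_⟩
    have : P.length < Fintype.card X + 2 := by
      by_contra hP
      exact h0 (cl_many hJ g (by omega) h3 _ _)
    rw [length_append, Cd.length_κ, Sys.C2]
    nlinarith
  · exact absurd (cl_dead hJ g (hd P ht) _ _ _ h3) h0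

theorem cl_z3 {w : List (Bool × X)}
    (h : ¬ replicate (s.K + 1) false <+: shp w) (h0 : cl J g w ≠ 0) :
    ∃ u n, shp w = u ++ replicate n true ∧ u.length ≤ s.C2 (Fintype.card X) := by
  obtain ⟨q, P, t, e, hq, ht⟩ := Cd.parse_b (cl_nokill hJ g h0) h
  obtain ⟨w1, w2, rfl, -, h2⟩ := map_eq_append_iff.1 e
  obtain ⟨w2, w3, rfl, h3, -⟩ := map_eq_append_iff.1 h2
  have : P.length < Fintype.card X + 2 := by
    by_contra hP
    exact h0 (cl_many hJ g (by omega) h3 _ _)
  rcases ht with ht | ⟨n, rfl⟩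
  · refine ⟨q ++ (s.κ P ++ t), 0, by simpa using e, ?_⟩
    rw [length_append, length_append, Cd.length_κ, Sys.C2]
    nlinarith
  · refine ⟨q ++ s.κ P, n, by simpa using e, ?_⟩
    rw [length_append, Cd.length_κ, Sys.C2]
    nlinarith

end

end Pool.Agent.Lib.MP_038c09_al
end

-- part Pool.Agent.Lib.MP_038c09_al.Closed
section

/-!
If every complete word is dead, finitely presented algebras are residually finite-dimensional.
-/

set_option linter.unusedSectionVars false

namespace Pool.Agent.Lib.MP_038c09_al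

open List

variable {F : Type} [Field F] {X : Type} {Γ : Type}

theorem run_true_iff {n : ℕ} {A B : List Bool} :
    replicate n false <+: A ++ true :: B ↔ replicate n false <+: A := by
  refine ⟨fun h => ?_, fun h => h.trans (prefix_append _ _)⟩
  by_cases hn : n ≤ A.length
  · exact prefix_of_prefix_length_le h (prefix_append _ _) (by simpa using hn)
  · have h1 : A ++ [true] <+: replicate n false :=
      prefix_of_prefix_length_le (l₃ := A ++ true :: B) ⟨B, by simp⟩ h (by simp; omega)
    have := h1.subset (show true ∈ A ++ [true] by simp)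
    simp at this

theorem run_cons {n : ℕ} {B : List Bool} (h : replicate n false <+: B) :
    replicate n false <+: false :: B := by
  obtain ⟨r, rfl⟩ := h
  exact ⟨false :: r, by rw [← cons_append, ← replicate_succ, replicate_succ']; simp⟩

theorem run_rep {n m : ℕ} {B : List Bool} (h : replicate n false <+: B) :
    replicate n false <+: replicate m false ++ B := by
  induction m with
  | zero => exact h
  | succ m ih => exact run_cons ih

theorem has_run {n : ℕ} (A : List Bool) : true ∈ A → ∀ B, replicate n false <+: B →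
    (true :: replicate n false) <:+: A ++ B := by
  induction A using List.reverseRecOn with
  | nil => simp
  | append_singleton A b ih =>
    intro hA B hB
    cases b with
    | true =>
      obtain ⟨r, rfl⟩ := hB
      exact ⟨A, r, by simp⟩
    | false => simpa using ih (by simpa using hA) _ (run_cons hB)

theorem pure_or (A : List Bool) : true ∈ A ∨ A = replicate A.length false := by
  by_cases h : true ∈ A
  · exact Or.inl h
  · refine Or.inr (eq_replicate_iff.2 ⟨rfl, fun b hb => ?_⟩)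
    cases b
    · rfl
    · exact absurd hb h

theorem run_of_suffix {A B u : List Bool} {m c : ℕ} (h : A ++ B = replicate m false ++ u)
    (hl : u.length + c ≤ B.length) : replicate c false <+: B := by
  rcases suf_rep _ h with ⟨a, -, rfl, -⟩ | ⟨t2, h1, -, rfl⟩
  · obtain ⟨k, rfl⟩ := Nat.exists_eq_add_of_le (show c ≤ a by simp at hl; omega)
    rw [replicate_add, append_assoc]; exact prefix_append _ _
  · have := length_pos_iff.2 h1
    simp at hl; omega

theorem rrr_of {u : List Bool} {n : ℕ} (hn : 3 ≤ n) :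
    [true, true, true] <:+ u ++ replicate n true := by
  obtain ⟨k, rfl⟩ := Nat.exists_eq_add_of_le' hn
  exact ⟨u ++ replicate k true, by rw [replicate_add, append_assoc]; rfl⟩

/-- the word starts with a long left run -/
def Sys.St (s : Sys Γ) (w : List (Bool × X)) : Prop := replicate (s.K + 1) false <+: shp w

theorem Sys.st_append (s : Sys Γ) {w : List (Bool × X)} (h : s.K + 1 ≤ w.length)
    (ε : List (Bool × X)) : s.St (w ++ ε) ↔ s.St w := by
  unfold Sys.St
  rw [shp, map_append]
  exact ⟨fun h' => prefix_of_prefix_length_le h' (prefix_append _ _) (by simpa using h),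
    fun h' => h'.trans (prefix_append _ _)⟩

theorem Sys.st_rl (s : Sys Γ) {w w' : List (Bool × X)} {e : ℤ} (h : Rl s w e w')
    (p t : List (Bool × X)) : s.St (p ++ (w ++ t)) ↔ s.St (p ++ (w' ++ t)) := by
  unfold Sys.St
  cases h with
  | kill => rfl
  | move u u' _ _ h h1 h2 _ =>
    have h3 := s.hmv _ h
    obtain ⟨r, hr⟩ := s.κ_rr h3.2 (shp t)
    obtain ⟨r', hr'⟩ := s.κ_rr (z := u') (by
      rintro rfl; exact h3.2 (length_eq_zero_iff.1 h3.1)) (shp t)
    simp only [shp, map_append] at h1 h2 hr hr' ⊢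
    rw [h1, h2, hr, hr', run_true_iff, run_true_iff]
  | swap => simp

open Classical in
/-- projection onto the words with a long left run -/
noncomputable def πA (s : Sys Γ) : PP F X →ₗ[F] PP F X :=
  Finsupp.linearCombination F fun gw => if s.St gw.2 then bw F gw.1 gw.2 else 0

open Classical in
theorem πA_bw (s : Sys Γ) (g : X × X) (w : List (Bool × X)) :
    πA s (bw F g w) = if s.St w then bw F g w else 0 := by
  simp [πA, bw]

/-- insertion of a left letter in front -/
noncomputable def θ (z : X) : PP F X →ₗ[F] PP F X :=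
  Finsupp.lmapDomain F F fun gw => (gw.1, (false, z) :: gw.2)

theorem θ_bw (z : X) (g : X × X) (w : List (Bool × X)) :
    θ z (bw F g w) = bw F g ((false, z) :: w) := by
  simp [θ, bw, Finsupp.mapDomain_single]

theorem θ_ρ (z : X) (ε : List (Bool × X)) (m : PP F X) : θ z (ρ ε m) = ρ ε (θ z m) :=
  PP_ext (f := θ z ∘ₗ ρ ε) (f' := ρ ε ∘ₗ θ z) (fun g w => by simp [θ_bw]) m

theorem span_map {M : Type} [AddCommGroup M] [Module F M] {S : Set (PP F X)} (f : PP F X →ₗ[F] M)
    {N : Submodule F M} (h : ∀ x ∈ S, f x ∈ N) : ∀ x ∈ Submodule.span F S, f x ∈ N :=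
  fun _ hx => (Submodule.span_le.2 h : Submodule.span F S ≤ N.comap f) hx

theorem sup_map {M : Type} [AddCommGroup M] [Module F M] {A B : Submodule F (PP F X)}
    (f : PP F X →ₗ[F] M) {N : Submodule F M} (h : ∀ x ∈ A, f x ∈ N) (h' : ∀ x ∈ B, f x ∈ N) :
    ∀ x ∈ A ⊔ B, f x ∈ N :=
  fun _ hx => (sup_le h h' : A ⊔ B ≤ N.comap f) hx

variable [Fintype X] [DecidableEq X]

theorem finite_short (c : ℕ) : {f : PP F X | ∃ g w, w.length ≤ c ∧ f = bw F g w}.Finite := by
  refine (((Set.finite_univ (α := X × X)).prod (List.finite_length_le (Bool × X) c)).image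
    (fun q => bw F q.1 q.2)).subset ?_
  rintro _ ⟨g, w, h, rfl⟩
  exact ⟨(g, w), ⟨trivial, h⟩, rfl⟩

theorem cofg_of_long (c : ℕ) (N : Submodule F (PP F X)) (f : PP F X →ₗ[F] PP F X)
    (U : Submodule F (PP F X)) (hU : U.FG) (h : ∀ g w, c ≤ w.length → f (bw F g w) ∈ N ⊔ U) :
    (N.comap f).CoFG := by
  have e : N.comap f = LinearMap.ker (N.mkQ ∘ₗ f) := by rw [LinearMap.ker_comp, Submodule.ker_mkQ]
  rw [e, ← Submodule.range_fg_iff_ker_cofg]
  let V := U ⊔ (Submodule.span F {f : PP F X | ∃ g w, w.length ≤ c ∧ f = bw F g w}).map f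
  have hV : (V.map N.mkQ).FG := (hU.sup ((Submodule.fg_span (finite_short c)).map _)).map _
  refine hV.of_le ?_
  rintro _ ⟨m, rfl⟩
  refine PP_mem (f := N.mkQ ∘ₗ f) (fun g w => ?_) m
  by_cases hw : c ≤ w.length
  · obtain ⟨y, hy, z, hz, e⟩ := Submodule.mem_sup.1 (h g w hw)
    refine ⟨z, Submodule.mem_sup_left hz, ?_⟩
    rw [LinearMap.comp_apply, ← e, map_add, Submodule.mkQ_apply _ y,
      (Submodule.Quotient.mk_eq_zero _).2 hy, zero_add]
  · exact ⟨f (bw F g w), Submodule.mem_sup_right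
      ⟨_, Submodule.subset_span ⟨g, w, by omega, rfl⟩, rfl⟩, rfl⟩

theorem sep_of_proj (c : ℕ) (π : PP F X →ₗ[F] PP F X) (K1 N' U : Submodule F (PP F X))
    (hπK : ∀ x ∈ K1, π x ∈ N') (hK1 : Stable K1) (hN' : Stable N')
    (hπρ : ∀ g w ε, c ≤ w.length → π (bw F g (w ++ ε)) = ρ ε (π (bw F g w)))
    (hU : U.FG) (hlong : ∀ g w, c ≤ w.length → π (bw F g w) ∈ N' ⊔ U) (a : PP F X)
    (ha : π a ∉ N') : ∃ J : Submodule F (PP F X), K1 ≤ J ∧ Stable J ∧ J.CoFG ∧ a ∉ J := by
  let J : Submodule F (PP F X) := ⨅ ε, N'.comap (π ∘ₗ ρ ε)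
  have hJ : ∀ x, x ∈ J ↔ ∀ ε, π (ρ ε x) ∈ N' := fun x => by simp [J, Submodule.mem_iInf]
  refine ⟨J, fun x hx => (hJ x).2 fun ε => hπK _ (hK1.ρ_mem ε hx), fun t x hx => (hJ _).2 fun ε => ?_,
    ?_, fun h => ha (by simpa [ρ_nil] using (hJ a).1 h [])⟩
  · rw [← ρ_append]; exact (hJ x).1 hx _
  · let L := Submodule.span F {f : PP F X | ∃ g w, c ≤ w.length ∧ f = bw F g w}
    have h1 : L.CoFG := by
      have := cofg_of_long c L LinearMap.id ⊥ Submodule.fg_bot fun g w hw =>
        Submodule.mem_sup_left (Submodule.subset_span ⟨g, w, hw, rfl⟩)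
      simpa using this
    refine Submodule.CoFG.of_le ?_ (h1.inf (cofg_of_long c N' π U hU hlong))
    rintro x ⟨hx1, hx2⟩
    refine (hJ x).2 fun ε => ?_
    have : π (ρ ε x) - ρ ε (π x) ∈ (⊥ : Submodule F (PP F X)) :=
      span_map (π ∘ₗ ρ ε - ρ ε ∘ₗ π) (by
        rintro _ ⟨g, w, hw, rfl⟩
        simp [hπρ g w ε hw]) x hx1
    rw [Submodule.mem_bot, sub_eq_zero] at this
    rw [this]
    exact hN'.ρ_mem ε hx2

theorem πA_relL (s : Sys Γ) (Λ : Set (X → F)) : ∀ x ∈ RelL s Λ, πA s x ∈ RelL s Λ := by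
  refine sup_map _ (fun x hx => rel_le _ _ (fun g p w e w' t hr => ?_) hx) (span_map _ ?_)
  · rw [πA_bw, πA_bw]
    by_cases h : s.St (p ++ (w ++ t))
    · rw [if_pos h, if_pos ((s.st_rl hr p t).1 h)]
      exact Submodule.mem_sup_left (rel_mem hr g p t)
    · rw [if_neg h, if_neg fun h' => h ((s.st_rl hr p t).2 h')]
      simp
  · rintro _ ⟨l, hl, b, g, p, t, rfl⟩
    by_cases h : replicate (s.K + 1) false <+: shp p ++ b :: shp t
    · have : πA s (ρ t (ρh b l (bw F g p))) = ρ t (ρh b l (bw F g p)) := by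
        simp only [ρh_apply, map_sum, map_smul, ρ_bw, πA_bw]
        refine Finset.sum_congr rfl fun x _ => ?_
        rw [if_pos (by simpa [Sys.St] using h)]
      rw [this]
      exact Submodule.mem_sup_right (Submodule.subset_span ⟨l, hl, b, g, p, t, rfl⟩)
    · have : πA s (ρ t (ρh b l (bw F g p))) = 0 := by
        simp only [ρh_apply, map_sum, map_smul, ρ_bw, πA_bw]
        refine Finset.sum_eq_zero fun x _ => ?_
        rw [if_neg (by simpa [Sys.St] using h), smul_zero]
      rw [this]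
      exact zero_mem _

theorem θ_relL (s : Sys Γ) (Λ : Set (X → F)) (z : X) : ∀ x ∈ RelL s Λ, θ z x ∈ RelL s Λ := by
  refine sup_map _ (fun x hx => rel_le _ _ (fun g p w e w' t hr => ?_) hx) (span_map _ ?_)
  · rw [θ_bw, θ_bw]
    exact Submodule.mem_sup_left (rel_mem hr g ((false, z) :: p) t)
  · rintro _ ⟨l, hl, b, g, p, t, rfl⟩
    refine Submodule.mem_sup_right (Submodule.subset_span ⟨l, hl, b, g, (false, z) :: p, t, ?_⟩)
    simp only [ρh_apply, map_sum, map_smul, ρ_bw, θ_bw, cons_append]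

end Pool.Agent.Lib.MP_038c09_al
end

-- part Pool.Agent.Lib.MP_038c09_al.Closed2
section

/-!
If every complete word is dead, the variety is an RFD-variety.
-/

set_option linter.unusedSectionVars false

namespace Pool.Agent.Lib.MP_038c09_al

open List

variable {F : Type} [Field F] [CharZero F] {X : Type} [Fintype X] [DecidableEq X] {Γ : Type}

/-- length threshold -/
def Sys.c1 (s : Sys Γ) (X : Type) [Fintype X] : ℕ := s.C2 (Fintype.card X) + s.K + 4

/-- relations and long multiples of the generators -/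
noncomputable def K1 (s : Sys Γ) (Λ : Set (X → F)) (G : Set (PP F X)) : Submodule F (PP F X) :=
  RelL s Λ ⊔ Submodule.span F {f | ∃ γ ∈ G, ∃ ε, s.c1 X ≤ ε.length ∧ f = ρ ε γ}

/-- relations and long multiples starting with a left run -/
noncomputable def KA (s : Sys Γ) (Λ : Set (X → F)) (G : Set (PP F X)) : Submodule F (PP F X) :=
  RelL s Λ ⊔ Submodule.span F {f | ∃ γ ∈ G, ∃ ε, s.c1 X ≤ ε.length ∧ s.St ε ∧ f = ρ ε γ}

variable (s : Sys Γ) (Λ : Set (X → F)) (G : Set (PP F X))

theorem rel_KA : Rel F X s ≤ KA s Λ G := le_sup_left.trans le_sup_left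

theorem KA_le : KA s Λ G ≤ K1 s Λ G := by
  refine sup_le_sup_left (Submodule.span_mono ?_) _
  rintro _ ⟨γ, h, ε, h1, -, h2⟩
  exact ⟨γ, h, ε, h1, h2⟩

theorem stable_K1 : Stable (K1 s Λ G) := fun t =>
  sup_map _ (fun x hx => Submodule.mem_sup_left (stable_relL s Λ t x hx)) (span_map _ (by
    rintro _ ⟨γ, h, ε, h1, rfl⟩
    exact Submodule.mem_sup_right (Submodule.subset_span
      ⟨γ, h, ε ++ [t], by simp; omega, (ρ_append _ _ _).symm⟩)))

theorem stable_KA : Stable (KA s Λ G) := fun t =>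
  sup_map _ (fun x hx => Submodule.mem_sup_left (stable_relL s Λ t x hx)) (span_map _ (by
    rintro _ ⟨γ, h, ε, h1, h2, rfl⟩
    exact Submodule.mem_sup_right (Submodule.subset_span
      ⟨γ, h, ε ++ [t], by simp; omega, (s.st_append (by simp [Sys.c1] at h1; omega) _).2 h2,
        (ρ_append _ _ _).symm⟩)))

theorem st_cons {ε : List (Bool × X)} (h : s.St ε) : ∃ y r, ε = (false, y) :: r := by
  obtain ⟨r, hr⟩ := h
  obtain ⟨⟨b, y⟩, r', rfl, h1, -⟩ := map_eq_cons_iff.1 (hr.symm.trans (by rw [replicate_succ]; rfl))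
  obtain rfl : b = false := h1
  exact ⟨y, r', rfl⟩

theorem θ_KA (z : X) : ∀ x ∈ KA s Λ G, θ z x ∈ KA s Λ G := by
  refine sup_map _ (fun x hx => Submodule.mem_sup_left (θ_relL s Λ z x hx)) (span_map _ ?_)
  rintro _ ⟨γ, h, ε, h1, h2, rfl⟩
  have h3 : θ z (ρ ε γ) - ρ ((false, z) :: ε) γ ∈ Rel F X s := by
    refine PP_mem (f := θ z ∘ₗ ρ ε - ρ ((false, z) :: ε)) (fun g u => ?_) γ
    rw [LinearMap.sub_apply, LinearMap.comp_apply, ρ_bw, ρ_bw, θ_bw, ← cl_eq_iff]
    rcases pure_or (shp u) with hu | hu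
    · rw [cl_rl_run le_rfl g (by
        simpa using has_run (false :: shp u) (mem_cons_of_mem _ hu) _ h2),
        cl_rl_run le_rfl g (by simpa using has_run (shp u) hu _ (run_cons h2))]
    · obtain ⟨y, r, rfl⟩ := st_cons s h2
      rw [eq_Ls hu]
      simpa using cl_perm_L le_rfl g (perm_append_singleton z (arg u)).symm [] y r
  have h4 : ρ ((false, z) :: ε) γ ∈ KA s Λ G := Submodule.mem_sup_right (Submodule.subset_span
    ⟨γ, h, (false, z) :: ε, by simp; omega, run_cons h2, rfl⟩)
  simpa using add_mem (rel_KA s Λ G h3) h4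

theorem πA_K1 (hd : AllDead s.mv s.kl s.lb s.rb) : ∀ x ∈ K1 s Λ G, πA s x ∈ KA s Λ G := by
  refine sup_map _ (fun x hx => Submodule.mem_sup_left (πA_relL s Λ x hx)) (span_map _ ?_)
  rintro _ ⟨γ, h, ε, h1, rfl⟩
  by_cases h2 : s.St ε
  · have h3 : πA s (ρ ε γ) - ρ ε γ ∈ Rel F X s := by
      refine PP_mem (f := πA s ∘ₗ ρ ε - ρ ε) (fun g u => ?_) γ
      rw [LinearMap.sub_apply, LinearMap.comp_apply, ρ_bw, πA_bw]
      split_ifs with h4
      · simp
      · rw [zero_sub, neg_mem_iff, ← cl_eq_zero]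
        rcases pure_or (shp u) with hu | hu
        · exact cl_rl_run le_rfl g (by simpa using has_run (shp u) hu _ h2)
        · exact absurd (by
            unfold Sys.St
            rw [shp, map_append, ← shp, hu]
            exact run_rep h2) h4
    have h4 : ρ ε γ ∈ KA s Λ G :=
      Submodule.mem_sup_right (Submodule.subset_span ⟨γ, h, _, h1, h2, rfl⟩)
    simpa using add_mem (rel_KA s Λ G h3) h4
  · refine rel_KA s Λ G (PP_mem (f := πA s ∘ₗ ρ ε) (fun g u => ?_) γ)
    rw [LinearMap.comp_apply, ρ_bw, πA_bw]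
    split_ifs with h4
    · rw [← cl_eq_zero]
      by_contra h0
      obtain ⟨m, v, e, hv⟩ := cl_z2 le_rfl g hd h4 h0
      rw [shp, map_append] at e
      exact h2 (run_of_suffix e (by simp [Sys.c1] at h1 ⊢; omega))
    · exact zero_mem _

theorem sep_A (hd : AllDead s.mv s.kl s.lb s.rb) (a : PP F X) (ha : πA s a ∉ KA s Λ G) :
    ∃ J : Submodule F (PP F X), K1 s Λ G ≤ J ∧ Stable J ∧ J.CoFG ∧ a ∉ J := by
  let FA' := Submodule.span F {f : PP F X | ∃ g w, s.St w ∧ f = bw F g w}
  have hθ : ∀ z, ∀ x ∈ FA' ⊔ KA s Λ G, θ z x ∈ FA' ⊔ KA s Λ G := fun z =>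
    sup_map _ (span_map _ (by
      rintro _ ⟨g, w, h, rfl⟩
      exact Submodule.mem_sup_left (Submodule.subset_span ⟨g, (false, z) :: w, run_cons h, θ_bw _ _ _⟩)))
      fun x hx => Submodule.mem_sup_right (θ_KA s Λ G z x hx)
  obtain ⟨N', h1, h2, h3, ⟨U, hU, h4⟩, h5⟩ := krull_sep (F := F) θ (KA s Λ G) (FA' ⊔ KA s Λ G)
    le_sup_right (θ_KA s Λ G) hθ
    (fun i j => sup_map (θ i ∘ₗ θ j - θ j ∘ₗ θ i) (span_map _ (by
      rintro _ ⟨g, w, h, rfl⟩
      obtain ⟨y, r, rfl⟩ := st_cons s h
      refine rel_KA s Λ G ?_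
      rw [LinearMap.sub_apply, LinearMap.comp_apply, LinearMap.comp_apply, θ_bw, θ_bw, θ_bw, θ_bw,
        ← cl_eq_iff]
      simpa using cl_perm_L le_rfl g (Perm.swap j i []) [] y r))
      fun x hx => sub_mem (θ_KA s Λ G _ _ (θ_KA s Λ G _ _ hx)) (θ_KA s Λ G _ _ (θ_KA s Λ G _ _ hx)))
    {f : PP F X | ∃ g w, s.St w ∧ w.length ≤ s.c1 X ∧ f = bw F g w}
    ((finite_short (s.c1 X)).subset fun _ ⟨g, w, _, h, e⟩ => ⟨g, w, h, e⟩)
    (fun _ ⟨g, w, h, _, e⟩ => Submodule.mem_sup_left (Submodule.subset_span ⟨g, w, h, e⟩))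
    (fun W hW hS hst => by
      refine sup_le (Submodule.span_le.2 ?_) hW
      rintro _ ⟨g, w, h, rfl⟩
      induction w with
      | nil => exact hS ⟨g, [], h, by simp, rfl⟩
      | cons p w ih =>
        by_cases hl : (p :: w).length ≤ s.c1 X
        · exact hS ⟨g, _, h, hl, rfl⟩
        by_cases h0 : cl (Rel F X s) g (p :: w) = 0
        · exact hW (rel_KA s Λ G (cl_eq_zero.1 h0))
        obtain ⟨m, v, e, hv⟩ := cl_z2 le_rfl g hd h h0
        obtain ⟨y, r, e'⟩ := st_cons s h
        obtain ⟨rfl, rfl⟩ := cons.inj e'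
        have : s.St w := run_of_suffix (A := [false]) e (by simp [Sys.c1] at hl ⊢; omega)
        rw [← θ_bw]
        exact hst _ _ (ih this))
    _ ha
  refine sep_of_proj (s.c1 X) (πA s) _ N' U (fun x hx => h1 (πA_K1 s Λ G hd x hx))
    (stable_K1 s Λ G) (fun t => h5 _ (stable_KA s Λ G t) ?_ ?_) ?_ hU ?_ a h3
  · refine sup_map _ (span_map _ ?_) fun x hx => Submodule.mem_sup_right (stable_KA s Λ G t x hx)
    rintro _ ⟨g, w, h, rfl⟩
    refine Submodule.mem_sup_left (Submodule.subset_span ⟨g, _, ?_, ρ_bw _ _ _⟩)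
    unfold Sys.St
    rw [shp, map_append]
    exact h.trans (prefix_append _ _)
  · intro i x _
    rw [θ_ρ, sub_self]; exact zero_mem _
  · intro g w ε hw
    rw [πA_bw, πA_bw, s.st_append (by simp [Sys.c1] at hw; omega)]
    split_ifs <;> simp
  · intro g w _
    refine h4 ?_
    rw [πA_bw]
    split_ifs with h
    · exact Submodule.mem_sup_left (Submodule.subset_span ⟨g, w, h, rfl⟩)
    · exact zero_mem _

theorem sep_B (hd : AllDead s.mv s.kl s.lb s.rb) (a : PP F X) (ha : a - πA s a ∉ K1 s Λ G) :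
    ∃ J : Submodule F (PP F X), K1 s Λ G ≤ J ∧ Stable J ∧ J.CoFG ∧ a ∉ J := by
  have hR : Rel F X s ≤ K1 s Λ G := (rel_KA s Λ G).trans (KA_le s Λ G)
  have hK := stable_K1 s Λ G
  let FB := Submodule.span F
    {f : PP F X | ∃ g w, ¬ s.St w ∧ [true, true, true] <:+ shp w ∧ f = bw F g w}
  have hθ : ∀ z, ∀ x ∈ FB ⊔ K1 s Λ G, ρ [(true, z)] x ∈ FB ⊔ K1 s Λ G := fun z =>
    sup_map _ (span_map _ (by
      rintro _ ⟨g, w, h, ⟨r, h'⟩, rfl⟩
      refine Submodule.mem_sup_left (Submodule.subset_span ⟨g, _, fun h1 => h ?_, ?_, ρ_bw _ _ _⟩)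
      · unfold Sys.St at h1
        rw [shp, map_append] at h1
        exact run_true_iff.1 h1
      · exact ⟨r ++ [true], by rw [shp, map_append, ← shp, ← h']; simp⟩))
      fun x hx => Submodule.mem_sup_right (hK _ x hx)
  have hL : ∀ z, ∀ x ∈ FB ⊔ K1 s Λ G, ρ [(false, z)] x ∈ K1 s Λ G := fun z =>
    sup_map _ (span_map _ (by
      rintro _ ⟨g, w, -, ⟨r, h'⟩, rfl⟩
      refine hR ?_
      rw [ρ_bw, ← cl_eq_zero]
      exact cl_rrrl le_rfl g ⟨r, [], by rw [shp, map_append, ← shp, ← h']; simp⟩))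
      fun x hx => hK _ x hx
  have hc : ∀ i j, ∀ x : PP F X,
      ρ [(true, i)] (ρ [(true, j)] x) - ρ [(true, j)] (ρ [(true, i)] x) ∈ K1 s Λ G := fun i j x =>
    hR (PP_mem (f := ρ [(true, i)] ∘ₗ ρ [(true, j)] - ρ [(true, j)] ∘ₗ ρ [(true, i)])
      (fun g w => by
        rw [LinearMap.sub_apply, LinearMap.comp_apply, LinearMap.comp_apply, ρ_bw, ρ_bw, ρ_bw, ρ_bw,
          ← cl_eq_iff]
        simpa using cl_perm_R le_rfl g (Perm.swap i j []) w []) x)
  obtain ⟨N', h1, h2, h3, ⟨U, hU, h4⟩, h5⟩ := krull_sep (F := F) (fun z => ρ [(true, z)])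
    (K1 s Λ G) (FB ⊔ K1 s Λ G) le_sup_right (fun z => hK _) hθ (fun i j x _ => hc i j x)
    {f : PP F X | ∃ g w, ¬ s.St w ∧ [true, true, true] <:+ shp w ∧ w.length ≤ s.c1 X ∧
      f = bw F g w}
    ((finite_short (s.c1 X)).subset fun _ ⟨g, w, _, _, h, e⟩ => ⟨g, w, h, e⟩)
    (fun _ ⟨g, w, h, h', _, e⟩ => Submodule.mem_sup_left (Submodule.subset_span ⟨g, w, h, h', e⟩))
    (fun W hW hS hst => by
      refine sup_le (Submodule.span_le.2 ?_) hW
      rintro _ ⟨g, w, h, h', rfl⟩
      induction w using List.reverseRecOn with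
      | nil => exact hS ⟨g, [], h, h', by simp, rfl⟩
      | append_singleton w p ih =>
        by_cases hl : (w ++ [p]).length ≤ s.c1 X
        · exact hS ⟨g, _, h, h', hl, rfl⟩
        by_cases h0 : cl (Rel F X s) g (w ++ [p]) = 0
        · exact hW (hR (cl_eq_zero.1 h0))
        obtain ⟨u, n, e, hv⟩ := cl_z3 le_rfl g h h0
        have hn : 4 ≤ n := by
          have := congrArg length e
          simp [Sys.c1] at hl this; omega
        obtain ⟨n, rfl⟩ := Nat.exists_eq_add_of_le' (show 1 ≤ n by omega)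
        rw [shp, map_append, replicate_succ', ← append_assoc] at e
        obtain ⟨e1, e2⟩ := append_inj' e rfl
        obtain ⟨b, y⟩ := p
        obtain rfl : b = true := by simpa using e2
        rw [← ρ_bw]
        refine hst _ _ (ih (fun h1 => h ?_) (by rw [shp, e1]; exact rrr_of (by omega)))
        unfold Sys.St
        rw [shp, map_append]
        exact h1.trans (prefix_append _ _))
    _ ha
  refine sep_of_proj (s.c1 X) (LinearMap.id - πA s) _ N' U
    (fun x hx => h1 (sub_mem hx (KA_le s Λ G (πA_K1 s Λ G hd x hx)))) hK ?_ ?_ hU ?_ a h3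
  · rintro ⟨b, z⟩
    cases b
    · exact h5 _ (hK _) (fun x hx => Submodule.mem_sup_right (hL z x hx))
        fun i x hx => sub_mem (hL z _ (hθ i x hx)) (hK _ _ (hL z x hx))
    · exact h5 _ (hK _) (hθ z) fun i x _ => hc z i x
  · intro g w ε hw
    rw [LinearMap.sub_apply, LinearMap.sub_apply, πA_bw, πA_bw,
      s.st_append (by simp [Sys.c1] at hw; omega)]
    split_ifs <;> simp
  · intro g w hw
    refine h4 ?_
    rw [LinearMap.sub_apply, πA_bw]
    split_ifs with h
    · simp
    · rw [sub_zero, LinearMap.id_apply]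
      by_cases h0 : cl (Rel F X s) g w = 0
      · exact Submodule.mem_sup_right (hR (cl_eq_zero.1 h0))
      obtain ⟨u, n, e, hv⟩ := cl_z3 le_rfl g h h0
      have hn : 3 ≤ n := by
        have := congrArg length e
        simp [Sys.c1] at hw this; omega
      exact Submodule.mem_sup_left (Submodule.subset_span ⟨g, w, h, e ▸ rrr_of hn, rfl⟩)

theorem closedP (hd : AllDead s.mv s.kl s.lb s.rb) : ClosedP F X s := by
  rintro Λ G hG K' hK' h1 ⟨U, hU, h2⟩ a ha
  have hfin : {f : PP F X | ∃ γ ∈ G, ∃ ε, ε.length ≤ s.c1 X ∧ f = ρ ε γ}.Finite := by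
    refine ((hG.prod (List.finite_length_le (Bool × X) (s.c1 X))).image
      (fun q => ρ q.2 q.1)).subset ?_
    rintro _ ⟨γ, h, ε, h', rfl⟩
    exact ⟨(γ, ε), ⟨h, h'⟩, rfl⟩
  have h0 : K1 s Λ G ≤ RelL s Λ ⊔ genS G := by
    refine sup_le_sup_left (Submodule.span_mono ?_) _
    rintro _ ⟨γ, h, ε, -, e⟩
    exact ⟨γ, h, ε, e⟩
  refine closed_of_fd (fun t : Bool × X => (ρ [t] : PP F X →ₗ[F] PP F X)) (K1 s Λ G) K'
    (h0.trans h1) (Submodule.span F _ ⊔ U) ((Submodule.fg_span hfin).sup hU) (h2.trans ?_) hK'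
    (fun b hb => ?_) a ha
  · rw [← sup_assoc]
    refine sup_le_sup_right (sup_le (le_sup_left.trans le_sup_left) (Submodule.span_le.2 ?_)) _
    rintro _ ⟨γ, h, ε, rfl⟩
    by_cases hε : s.c1 X ≤ ε.length
    · exact Submodule.mem_sup_left
        (Submodule.mem_sup_right (Submodule.subset_span ⟨γ, h, ε, hε, rfl⟩))
    · exact Submodule.mem_sup_right (Submodule.subset_span ⟨γ, h, ε, by omega, rfl⟩)
  · by_cases h : πA s b ∈ KA s Λ G
    · exact sep_B s Λ G hd b fun h' => hb (by simpa using add_mem h' (KA_le s Λ G h))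
    · exact sep_A s Λ G hd b h

theorem rfd_of_dead (hd : AllDead s.mv s.kl s.lb s.rb) : IsRFDVariety (s.polys F) :=
  rfd_of_closed s fun _ => closedP s hd

end Pool.Agent.Lib.MP_038c09_al
end

-- part Pool.Agent.Lib.MP_038c09_al.Alive
section

/-!
A linear functional compatible with the relations, for a system with a surviving class.
-/

set_option linter.unusedSectionVars false

namespace Pool.Agent.Lib.MP_038c09_al

open List

variable {F : Type} [Field F] {X : Type} {Γ : Type}

/-- arguments at the skew-symmetric places -/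
def des : List (Bool × X) → List X
  | [] => []
  | t :: w => if t.1 = false ∧ (shp w).take 2 = [true, true] then t.2 :: des w else des w

/-- Vandermonde product -/
def vdm : List F → F
  | [] => 1
  | x :: l => (l.map fun y => y - x).prod * vdm l

theorem vdm_swap (A : List F) (x y : F) (B : List F) :
    vdm (A ++ x :: y :: B) = -vdm (A ++ y :: x :: B) := by
  induction A with
  | nil => simp only [nil_append, vdm, map_cons, prod_cons]; ring
  | cons a A ih =>
    simp only [cons_append, vdm, ih, map_append, map_cons, prod_append, prod_cons]; ring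

theorem vdm_ne_zero {l : List F} (h : l.Nodup) : vdm l ≠ 0 := by
  induction l with
  | nil => simp [vdm]
  | cons x l ih =>
    rw [nodup_cons] at h
    refine mul_ne_zero (List.prod_ne_zero ?_) (ih h.2)
    intro h0
    obtain ⟨y, hy, e⟩ := mem_map.1 h0
    exact h.1 (sub_eq_zero.1 e ▸ hy)

theorem take2_append {A B B' : List Bool} (h : B.take 2 = B'.take 2) :
    (A ++ B).take 2 = (A ++ B').take 2 := by
  match A with
  | [] => exact h
  | [x] =>
    have := congrArg (take 1) h
    simpa [take_take] using this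
  | x :: y :: A => simp

theorem des_ctx (p : List (Bool × X)) {w w' : List (Bool × X)}
    (h : (shp w).take 2 = (shp w').take 2) :
    ∃ D, des (p ++ w) = D ++ des w ∧ des (p ++ w') = D ++ des w' := by
  induction p with
  | nil => exact ⟨[], rfl, rfl⟩
  | cons t p ih =>
    obtain ⟨D, h1, h2⟩ := ih
    have h3 : (shp (p ++ w)).take 2 = (shp (p ++ w')).take 2 := by
      simp only [shp, map_append]; exact take2_append h
    simp only [cons_append, des, h3, h1, h2]
    split_ifs
    · exact ⟨t.2 :: D, rfl, rfl⟩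
    · exact ⟨D, rfl, rfl⟩

theorem des_congr (p : List (Bool × X)) {w w' : List (Bool × X)}
    (h : (shp w).take 2 = (shp w').take 2) (h' : des w = des w') : des (p ++ w) = des (p ++ w') := by
  obtain ⟨D, h1, h2⟩ := des_ctx p h
  rw [h1, h2, h']

@[simp] theorem des_R (x : X) (w : List (Bool × X)) : des ((true, x) :: w) = des w := by
  simp [des]

@[simp] theorem des_LL (x y : X) (w : List (Bool × X)) :
    des ((false, x) :: (false, y) :: w) = des ((false, y) :: w) := by
  rw [des, if_neg (by simp)]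

theorem des_Ls (xs : List X) (y : X) (t : List (Bool × X)) :
    des (Ls xs ++ (false, y) :: t) = des ((false, y) :: t) := by
  induction xs with
  | nil => rfl
  | cons x xs ih =>
    cases xs with
    | nil => simp
    | cons x' xs => rw [← ih]; simp

theorem des_Rs (xs : List X) : des (Rs xs) = [] := by
  induction xs with
  | nil => rfl
  | cons x xs ih => simpa using ih

theorem des_bd (c : Cd Γ) {γ : Γ} {b : List (Bool × X)} (h : shp b = c.bd γ) (y : X)
    (t : List (Bool × X)) : des (b ++ (false, y) :: t) = des ((false, y) :: t) := by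
  rw [Cd.bd] at h
  obtain ⟨⟨_, x1⟩, b', rfl, rfl, k1⟩ := map_eq_cons_iff.1 h
  obtain ⟨⟨_, x2⟩, b'', rfl, rfl, k2⟩ := map_eq_cons_iff.1 k1
  obtain ⟨b0, b4, rfl, k3, k4⟩ := map_eq_append_iff.1 k2
  obtain ⟨⟨_, x3⟩, b2, rfl, rfl, h2⟩ := map_eq_cons_iff.1 k4
  rw [replicate_succ'] at k3
  obtain ⟨b1, b3, rfl, h1, h3⟩ := map_eq_append_iff.1 k3
  obtain ⟨⟨_, x4⟩, _, rfl, rfl, h4⟩ := map_eq_cons_iff.1 h3
  obtain rfl := map_eq_nil_iff.1 h4
  rw [eq_Ls h1, eq_Ls h2]
  simp only [cons_append, des_R, append_assoc, nil_append, des_Ls]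
  rw [des, if_neg, des_R, des_Ls]
  cases arg b2 <;> simp

theorem des_move (c : Cd Γ) (t : List (Bool × X)) (u : List Γ) :
    ∀ (u' : List Γ) (w w' : List (Bool × X)), u.length = u'.length → shp w = c.κ u →
      shp w' = c.κ u' → arg w = arg w' →
      (shp (w ++ t)).take 2 = (shp (w' ++ t)).take 2 ∧ des (w ++ t) = des (w' ++ t) := by
  induction u with
  | nil =>
    intro u' w w' h1 h2 h3 _
    obtain rfl := length_eq_zero_iff.1 h1.symm
    obtain rfl := map_eq_nil_iff.1 h2
    obtain rfl := map_eq_nil_iff.1 h3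
    exact ⟨rfl, rfl⟩
  | cons γ u ih =>
    intro u' w w' h1 h2 h3 h4
    obtain ⟨γ', u', rfl⟩ := exists_cons_of_length_eq_add_one h1.symm
    rw [Cd.κ_cons, Cd.cd, append_assoc, singleton_append] at h2 h3
    obtain ⟨b, w0, rfl, h5, k2⟩ := map_eq_append_iff.1 h2
    obtain ⟨⟨_, x⟩, w, rfl, rfl, k3⟩ := map_eq_cons_iff.1 k2
    obtain ⟨b', w1, rfl, h5', k4⟩ := map_eq_append_iff.1 h3
    obtain ⟨⟨_, x'⟩, w', rfl, rfl, k5⟩ := map_eq_cons_iff.1 k4
    simp only [arg, map_append, map_cons] at h4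
    have hl : b.length = b'.length := by
      have e1 := congrArg length h5
      have e2 := congrArg length h5'
      rw [length_map, c.length_bd] at e1 e2
      omega
    obtain ⟨-, h6⟩ := append_inj h4 (by simpa using hl)
    obtain ⟨rfl, h7⟩ := cons.inj h6
    obtain ⟨h8, h9⟩ := ih u' w w' (by simpa using h1) k3 k5 h7
    constructor
    · simp only [shp, map_append, h5, h5', Cd.bd]; rfl
    · simp only [append_assoc, cons_append]
      rw [des_bd c h5, des_bd c h5', des, des, h8, h9]

section functional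

variable [DecidableEq X] (s : Sys Γ) (A : Set (List Γ)) (a : X) (val : X → F)

/-- the words on which the functional may be nonzero -/
def Ok (w : List (Bool × X)) : Prop :=
  ∃ m n P, P ∈ A ∧ shp w = replicate m false ++ (s.κ P ++ replicate n true) ∧ (arg w).count a = n

open Classical in
/-- the functional on words -/
noncomputable def Φw (w : List (Bool × X)) : F :=
  if Ok s A a w then vdm ((des w).map val) else 0

theorem Φw_congr {w w' : List (Bool × X)} {e : F} (h : Ok s A a w ↔ Ok s A a w')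
    (h' : vdm ((des w).map val) = e * vdm ((des w').map val)) :
    Φw s A a val w = e * Φw s A a val w' := by
  unfold Φw
  by_cases h1 : Ok s A a w
  · rw [if_pos h1, if_pos (h.1 h1), h']
  · rw [if_neg h1, if_neg fun h2 => h1 (h.2 h2), mul_zero]

variable {s A}

theorem ok_move (hS : ∀ P P', Step s.mv P P' → (P ∈ A ↔ P' ∈ A)) {u u' : List Γ}
    (hu : (u, u') ∈ s.mv ∨ (u', u) ∈ s.mv) (hne : u ≠ []) {w w' : List (Bool × X)}
    (h1 : shp w = s.κ u) (h2 : shp w' = s.κ u') (h3 : arg w = arg w') (p t : List (Bool × X))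
    (h : Ok s A a (p ++ (w ++ t))) : Ok s A a (p ++ (w' ++ t)) := by
  obtain ⟨m, n, P, hP, e, hc⟩ := h
  simp only [shp, map_append] at e h1 h2
  rw [h1] at e
  obtain ⟨P1, P3, rfl, e1, e2⟩ := s.sync_κ hne e
  refine ⟨m, n, P1 ++ u' ++ P3, ?_, ?_, ?_⟩
  · rcases hu with hu | hu
    · exact (hS _ _ ⟨P1, P3, u, u', hu, rfl, rfl⟩).1 hP
    · exact (hS _ _ ⟨P1, P3, u', u, hu, rfl, rfl⟩).2 hP
  · simp only [shp, map_append, e1, e2, h2, Cd.κ_append, append_assoc]
  · simp only [arg, map_append] at h3 hc ⊢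
    rw [← h3, hc]

theorem Φw_rl (hA : ∀ P ∈ A, Complete s.lb s.rb P ∧ ¬ Killed s.kl P)
    (hS : ∀ P P', Step s.mv P P' → (P ∈ A ↔ P' ∈ A)) {w w' : List (Bool × X)} {e : ℤ}
    (h : Rl s w e w') (p t : List (Bool × X)) :
    Φw s A a val (p ++ (w ++ t)) = (e : F) * Φw s A a val (p ++ (w' ++ t)) := by
  cases h with
  | kill _ h =>
    rw [Int.cast_zero, zero_mul, Φw, if_neg]
    rintro ⟨m, n, P, hP, e, -⟩
    simp only [shp, map_append] at e
    rcases h with ⟨-, h⟩ | ⟨z, hz, h⟩
    · exact h ⟨m, n, P, (hA P hP).1, shp p, shp t, by rw [← e, append_assoc]⟩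
    · rw [shp] at h
      rw [h] at e
      obtain ⟨P1, P3, rfl, -⟩ := s.sync_κ (s.hkl z hz) e
      exact (hA _ hP).2 ⟨z, hz, P1, P3, rfl⟩
  | move u u' _ _ hu h1 h2 h3 =>
    have h4 := s.hmv _ hu
    obtain ⟨h5, h6⟩ := des_move s.toCd t u u' w w' h4.1 h1 h2 h3
    refine Φw_congr s A a val ⟨ok_move a hS (Or.inl hu) h4.2 h1 h2 h3 p t,
      ok_move a hS (Or.inr hu) ?_ h2 h1 h3.symm p t⟩ ?_
    · rintro rfl; exact h4.2 (length_eq_zero_iff.1 h4.1)
    · rw [des_congr p h5 h6]; simp
  | swap b1 x w1 b2 y w2 _ h =>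
    refine Φw_congr s A a val ?_ ?_
    · unfold Ok
      have : (arg (p ++ ((b1, x) :: (w1 ++ (b2, y) :: w2) ++ t))).count a =
          (arg (p ++ ((b1, y) :: (w1 ++ (b2, x) :: w2) ++ t))).count a := by
        simp only [arg, map_append, map_cons, count_append, count_cons]; omega
      rw [this]
      simp only [shp, map_append, map_cons]
    obtain ⟨D, e1, e2⟩ := des_ctx p (w := (b1, x) :: (w1 ++ (b2, y) :: w2) ++ t)
      (w' := (b1, y) :: (w1 ++ (b2, x) :: w2) ++ t) (by simp)
    rw [e1, e2]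
    generalize h1 : shp w1 = Z1 at h
    generalize h2 : shp w2 = Z2 at h
    cases h with
    | rr =>
      obtain rfl := map_eq_nil_iff.1 h1
      simp
    | lll =>
      obtain rfl := map_eq_nil_iff.1 h1
      obtain ⟨⟨_, v⟩, w2, rfl, rfl, -⟩ := map_eq_cons_iff.1 h2
      simp
    | llr =>
      obtain ⟨⟨_, v⟩, w1, rfl, rfl, h3⟩ := map_eq_cons_iff.1 h1
      obtain rfl := map_eq_nil_iff.1 h3
      have := des_congr [(false, v)] (w := (true, y) :: (w2 ++ t)) (w' := (true, x) :: (w2 ++ t))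
        (by simp) (by simp)
      simp only [cons_append, nil_append] at this
      simp [this]
    | blk γ =>
      have := des_congr w1 (w := (true, y) :: (w2 ++ t)) (w' := (true, x) :: (w2 ++ t))
        (by simp) (by simp)
      simp [this]
    | skew γ =>
      obtain ⟨⟨_, v⟩, w2, rfl, rfl, h3⟩ := map_eq_cons_iff.1 h2
      obtain ⟨⟨_, v'⟩, w2, rfl, rfl, h4⟩ := map_eq_cons_iff.1 h3
      have key : ∀ x y : X, des ((false, x) :: (w1 ++ (false, y) :: (true, v) :: (true, v') :: w2)
          ++ t) = x :: y :: des (w2 ++ t) := by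
        intro x y
        simp only [cons_append, append_assoc]
        rw [des, if_pos ⟨rfl, by simp only [shp, map_append] at h1 ⊢; rw [h1, Cd.bd]; rfl⟩,
          des_bd s.toCd h1, des, if_pos ⟨rfl, by simp⟩, des_R, des_R]
      rw [key, key]
      simp only [map_append, map_cons]
      rw [vdm_swap]; simp

end functional

end Pool.Agent.Lib.MP_038c09_al
end

-- part Pool.Agent.Lib.MP_038c09_al.Alive2
section

/-!
A system with a surviving class does not give an RFD-variety.
-/

set_option linter.unusedSectionVars false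

namespace Pool.Agent.Lib.MP_038c09_al

open List

variable {F : Type} [Field F] {X : Type} {Γ : Type}

/-- blocks with filler argument `z` and last arguments `xs` -/
def blk (c : Cd Γ) (z : X) : List Γ → List X → List (Bool × X)
  | γ :: P, x :: xs => (c.bd γ).map (fun b => (b, z)) ++ (false, x) :: blk c z P xs
  | _, _ => []

theorem shp_fill (Z : List Bool) (z : X) : shp (Z.map fun b => (b, z)) = Z := by
  simp [Function.comp_def]

theorem shp_blk (c : Cd Γ) (z : X) (P : List Γ) :
    ∀ xs : List X, xs.length = P.length → shp (blk c z P xs) = c.κ P := by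
  induction P with
  | nil => intro xs _; cases xs <;> rfl
  | cons γ P ih =>
    intro xs h
    obtain ⟨x, xs, rfl⟩ := exists_cons_of_length_eq_add_one h
    have := ih xs (by simpa using h)
    simp only [shp] at this
    simp [blk, this, Cd.cd, Function.comp_def]

theorem count_blk [DecidableEq X] (c : Cd Γ) {z a : X} (hz : z ≠ a) (P : List Γ) :
    ∀ xs : List X, a ∉ xs → (arg (blk c z P xs)).count a = 0 := by
  induction P with
  | nil => intro xs _; cases xs <;> rfl
  | cons γ P ih =>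
    intro xs h
    cases xs with
    | nil => rfl
    | cons x xs =>
      have := ih xs (fun h' => h (mem_cons_of_mem _ h'))
      have hx : x ≠ a := fun e => h (e ▸ mem_cons_self)
      simp only [arg] at this
      simp [blk, this, Function.comp_def, hx, count_replicate, hz]

theorem rr_blk (c : Cd Γ) (z : X) (P : List Γ) (xs : List X) {t : List (Bool × X)}
    (ht : (shp t).take 2 = [true, true]) : (shp (blk c z P xs ++ t)).take 2 = [true, true] := by
  match P, xs with
  | [], _ => simpa [blk] using ht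
  | _ :: _, [] => simpa [blk] using ht
  | γ :: P, x :: xs => simp [blk, Cd.bd]

theorem des_blk (c : Cd Γ) (z : X) {t : List (Bool × X)} (ht : (shp t).take 2 = [true, true])
    (P : List Γ) : ∀ xs : List X, xs.length = P.length → des (blk c z P xs ++ t) = xs ++ des t := by
  induction P with
  | nil => intro xs h; obtain rfl := length_eq_zero_iff.1 h; rfl
  | cons γ P ih =>
    intro xs h
    obtain ⟨x, xs, rfl⟩ := exists_cons_of_length_eq_add_one h
    rw [blk, append_assoc, cons_append, des_bd c (shp_fill _ z), des,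
      if_pos ⟨rfl, rr_blk c z P xs ht⟩, ih xs (by simpa using h)]
    rfl

/-- the test word -/
def n0 (c : Cd Γ) (a z g0 : X) (P : List Γ) (gs : List X) : List (Bool × X) :=
  (false, z) :: (false, g0) :: (blk c z P gs ++ [(true, a), (true, a)])

section collapse

variable {s : Sys Γ} {J : Submodule F (PP F X)} (hJ : Rel F X s ≤ J) (g : X × X)
include hJ

theorem cl_carry (a z : X) (t : List (Bool × X)) (P : List Γ) : ∀ (xs : List X) (p rest : List (Bool × X)),
    blk s.toCd z P xs ++ (true, z) :: t = (true, z) :: rest →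
      cl J g (p ++ (true, a) :: rest) = cl J g (p ++ (blk s.toCd z P xs ++ (true, a) :: t)) := by
  induction P with
  | nil =>
    intro xs p rest h
    have : blk s.toCd z [] xs = [] := by cases xs <;> rfl
    rw [this] at h ⊢
    obtain ⟨-, rfl⟩ := cons.inj h
    rfl
  | cons γ P ih =>
    intro xs p rest h
    cases xs with
    | nil =>
      obtain ⟨-, rfl⟩ := cons.inj h
      rfl
    | cons x xs =>
      obtain ⟨rest', h'⟩ : ∃ rest', blk s.toCd z P xs ++ (true, z) :: t = (true, z) :: rest' := by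
        match P, xs with
        | [], _ => exact ⟨t, by simp [blk]⟩
        | _ :: _, [] => exact ⟨t, by simp [blk]⟩
        | δ :: P, y :: xs => exact ⟨_, by simp only [blk, Cd.bd, map_cons, cons_append]; rfl⟩
      let w1 : List (Bool × X) := (s.bd γ).tail.map (fun b => (b, z)) ++ [(false, x)]
      have e1 : blk s.toCd z (γ :: P) (x :: xs) = (true, z) :: (w1 ++ blk s.toCd z P xs) := by
        simp [blk, w1, Cd.bd]
      rw [e1, cons_append, append_assoc, h'] at h
      obtain ⟨-, rfl⟩ := cons.inj h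
      have h1 := cl_swap hJ g (w1 := w1) (w2 := []) (by
        have : shp w1 = (s.cd γ).tail := by
          simp only [w1, shp, map_append, map_map, Cd.cd, Cd.bd]; simp [Function.comp_def]
        rw [this]; exact SwapShape.blk γ) a z p rest'
      have h2 := ih xs (p ++ (true, z) :: w1) rest' h'
      simp only [nil_append, Int.cast_one, one_smul, append_assoc, cons_append] at h1 h2
      rw [h1, h2, e1]
      simp

theorem collapse_n0 (hst : Stable J) (hfin : J.CoFG) (a z g0 : X) (P : List Γ) (gs : List X)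
    (r1 : bw F g [(false, z), (false, z)] - bw F g [(false, z)] ∈ J)
    (r2 : bw F g (n0 s.toCd a z g0 P gs ++ [(true, a)]) - bw F g (n0 s.toCd a z g0 P gs) ∈ J)
    (r3 : bw F g (n0 s.toCd a z g0 P gs ++ [(true, z)]) ∈ J) :
    bw F g (n0 s.toCd a z g0 P gs) ∈ J := by
  have h1 : ∀ ε, cl J g ((false, z) :: (false, z) :: ε) = cl J g ((false, z) :: ε) := fun ε =>
    cl_eq_iff.2 (by simpa using hst.ρ_mem ε r1)
  have h2 : ∀ ε, cl J g (n0 s.toCd a z g0 P gs ++ (true, a) :: ε) =
      cl J g (n0 s.toCd a z g0 P gs ++ ε) := fun ε =>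
    cl_eq_iff.2 (by simpa using hst.ρ_mem ε r2)
  have h3 : ∀ ε, cl J g (n0 s.toCd a z g0 P gs ++ (true, z) :: ε) = 0 := fun ε =>
    cl_eq_zero.2 (by simpa using hst.ρ_mem ε r3)
  let W : ℕ → ℕ → ℕ → PP F X ⧸ J := fun i p q => cl J g ((false, z) :: (Ls (replicate i a) ++
    (false, g0) :: (blk s.toCd z P gs ++ Rs (a :: a :: (replicate p a ++ replicate q z)))))
  have step : ∀ i p q, W (i + 1) p (q + 1) = W i (p + 1) q := by
    intro i p q
    obtain ⟨rest, h'⟩ : ∃ rest, blk s.toCd z P gs ++ (true, z) ::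
        Rs (a :: a :: (replicate p a ++ replicate q z)) = (true, z) :: rest := by
      match P, gs with
      | [], _ => exact ⟨_, by simp only [blk, nil_append]; rfl⟩
      | _ :: _, [] => exact ⟨_, by simp only [blk, nil_append]; rfl⟩
      | δ :: P, y :: xs => exact ⟨_, by simp only [blk, Cd.bd, map_cons, cons_append]; rfl⟩
    have e1 := cl_perm_R hJ g (xs := a :: a :: (replicate p a ++ replicate (q + 1) z))
      (ys := z :: a :: a :: (replicate p a ++ replicate q z))
      (by rw [replicate_succ]; exact perm_middle (l₁ := a :: a :: replicate p a))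
      ((false, z) :: (Ls (replicate (i + 1) a) ++ (false, g0) :: blk s.toCd z P gs)) []
    have e2 := cl_swap hJ g (w1 := [(false, g0)]) (w2 := []) SwapShape.llr a z
      ((false, z) :: Ls (replicate i a)) rest
    have e3 := cl_carry hJ g a z _ P gs
      ((false, z) :: (Ls (replicate i a) ++ [(false, z), (false, g0)])) rest h'
    have e4 := cl_perm_L hJ g (xs := z :: (replicate i a ++ [z])) (ys := z :: z :: replicate i a)
      ((perm_append_singleton _ _).cons _) [] g0
      (blk s.toCd z P gs ++ (true, a) :: Rs (a :: a :: (replicate p a ++ replicate q z)))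
    simp only [W]
    rw [replicate_succ' (n := i)] at e1 ⊢
    simp only [append_nil, append_assoc, cons_append, nil_append, map_cons, map_append, map_nil,
      Int.cast_one, one_smul, replicate_succ] at h' e1 e2 e3 e4 ⊢
    rw [e1, h', e2, e3, e4, h1]
  have base : ∀ p q, W 0 p q = cl J g (n0 s.toCd a z g0 P gs ++ Rs (replicate q z)) := by
    intro p q
    induction p with
    | zero => simp [W, n0]
    | succ p ih =>
      rw [← ih]
      have := h2 (Rs (replicate p a ++ replicate q z))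
      simpa [W, n0, replicate_succ] using this
  have all : ∀ i p q, W i p (q + i) = cl J g (n0 s.toCd a z g0 P gs ++ Rs (replicate q z)) := by
    intro i
    induction i with
    | zero => exact base
    | succ i ih => intro p q; rw [← add_assoc, step, ih]
  let u : ℕ → PP F X ⧸ J := fun i => cl J g ((false, z) :: Ls (replicate i a))
  obtain ⟨D, hD⟩ := monotone_stabilizes_iff_noetherian.2 (inferInstance : IsNoetherian F (PP F X ⧸ J))
    ⟨fun D => Submodule.span F (u '' Set.Iio D), fun m n h =>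
      Submodule.span_mono (Set.image_mono (Set.Iio_subset_Iio h))⟩
  have hu : u D ∈ Submodule.span F (u '' Set.Iio D) := by
    have := hD (D + 1) (by omega)
    simp only [OrderHom.coe_mk] at this
    rw [this]
    exact Submodule.subset_span ⟨D, by simp, rfl⟩
  let ε := (false, g0) :: (blk s.toCd z P gs ++ Rs (a :: a :: (replicate 0 a ++ replicate D z)))
  let f : (PP F X ⧸ J) →ₗ[F] (PP F X ⧸ J) := J.mapQ J (ρ ε) fun x hx => hst.ρ_mem ε hx
  have hf : ∀ i, f (u i) = W i 0 D := fun i => by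
    simp only [f, u, cl, Submodule.mkQ_apply, Submodule.mapQ_apply, ρ_bw, W, ε, cons_append]
  have h0 : f (u D) = 0 := by
    have : Submodule.span F (u '' Set.Iio D) ≤ LinearMap.ker f := by
      refine Submodule.span_le.2 ?_
      rintro _ ⟨i, hi, rfl⟩
      obtain ⟨q, rfl⟩ := Nat.exists_eq_add_of_lt (Set.mem_Iio.1 hi)
      rw [SetLike.mem_coe, LinearMap.mem_ker, hf, show i + q + 1 = (q + 1) + i by omega, all]
      exact h3 _
    exact this hu
  rw [hf] at h0
  have := all D 0 0
  rw [zero_add, h0] at this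
  exact cl_eq_zero.1 (by simpa using this.symm)

end collapse

section survive

variable [DecidableEq X] {s : Sys Γ} {A : Set (List Γ)} {N : ℕ}
  (hA : ∀ P ∈ A, P.length = N ∧ Complete s.lb s.rb P ∧ ¬ Killed s.kl P)
include hA

theorem ok_n0 {a z g0 : X} (hz : z ≠ a) (hg : g0 ≠ a) {P : List Γ} (hP : P ∈ A) {gs : List X}
    (hl : gs.length = P.length) (ha : a ∉ gs) (t : List (Bool × X)) :
    Ok s A a (n0 s.toCd a z g0 P gs ++ t) ↔
      ∃ j, shp t = replicate j true ∧ (arg t).count a = j := by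
  have e1 : shp (n0 s.toCd a z g0 P gs ++ t) =
      replicate 2 false ++ (s.κ P ++ true :: true :: shp t) := by
    have := shp_blk s.toCd z P gs hl
    simp only [shp] at this
    simp [n0, this]
  have e2 : (arg (n0 s.toCd a z g0 P gs ++ t)).count a = (arg t).count a + 2 := by
    have := count_blk s.toCd hz P gs ha
    simp only [arg] at this
    simp [n0, this, hz, hg]
  unfold Ok
  rw [e1, e2]
  constructor
  · rintro ⟨m, n, P', hP', e, hc⟩
    obtain ⟨r, hr⟩ := s.κ_rr (Cd.complete_ne_nil (hA P hP).2.1) (true :: true :: shp t)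
    obtain ⟨r', hr'⟩ := s.κ_rr (Cd.complete_ne_nil (hA P' hP').2.1) (replicate n true)
    have e3 : s.κ P ++ true :: true :: shp t = s.κ P' ++ replicate n true := by
      rw [hr, hr'] at e ⊢
      have := (Cd.rep_cancel (a := 2) (b := m) (r := true :: false :: r) (r' := true :: false :: r')
        (s := []) (by rw [append_nil]; exact e)).2
      simpa using this
    obtain ⟨P3, e4, e5⟩ := s.κ_prefix P e3
    have : P3 = [] := by
      have h1 := (hA P hP).1
      have h2 := (hA P' hP').1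
      rw [e4, length_append] at h2
      exact length_eq_zero_iff.1 (by omega)
    subst this
    subst hc
    exact ⟨_, by simpa [replicate_succ] using e5, rfl⟩
  · rintro ⟨j, h1, h2⟩
    exact ⟨2, j + 2, P, hP, by rw [h1]; rfl, by rw [h2]⟩

theorem ok_LL {a z : X} (hz : z ≠ a) (ε : List (Bool × X)) :
    Ok s A a ((false, z) :: (false, z) :: ε) ↔ Ok s A a ((false, z) :: ε) := by
  constructor
  · rintro ⟨m, n, P, hP, e, hc⟩
    obtain ⟨r, hr⟩ := s.κ_rr (Cd.complete_ne_nil (hA P hP).2.1) (replicate n true)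
    cases m with
    | zero => rw [hr] at e; simp at e
    | succ m =>
      exact ⟨m, n, P, hP, by simpa [replicate_succ] using e, by simpa [hz] using hc⟩
  · rintro ⟨m, n, P, hP, e, hc⟩
    exact ⟨m + 1, n, P, hP, by simpa [replicate_succ] using e, by simpa [hz] using hc⟩

end survive

theorem des_n0 (c : Cd Γ) (a z g0 : X) {P : List Γ} {gs : List X} (hl : gs.length = P.length)
    {t : List (Bool × X)} {j : ℕ} (ht : shp t = replicate j true) :
    des (n0 c a z g0 P gs ++ t) = g0 :: gs := by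
  have h2 : (shp ((true, a) :: (true, a) :: t)).take 2 = [true, true] := by simp
  simp only [n0, cons_append, append_assoc, nil_append, des_LL]
  rw [des, if_pos ⟨rfl, rr_blk c z P gs h2⟩, des_blk c z h2 P gs hl, des_R, des_R, eq_Rs ht, des_Rs,
    append_nil]

theorem not_rfd_of_alive [CharZero F] (s : Sys Γ) (h : Alive s.mv s.kl s.lb s.rb) :
    ¬ IsRFDVariety (s.polys F) := by
  classical
  obtain ⟨A, N, ⟨P, hP⟩, hA, hS⟩ := h
  let a : Fin (N + 3) := ⟨0, by omega⟩
  let z : Fin (N + 3) := ⟨1, by omega⟩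
  let g0 : Fin (N + 3) := ⟨2, by omega⟩
  let gs : List (Fin (N + 3)) := List.ofFn fun i : Fin N => ⟨i + 3, by omega⟩
  let val : Fin (N + 3) → F := fun x => (x : ℕ)
  have hz : z ≠ a := by simp [z, a]
  have hg : g0 ≠ a := by simp [g0, a, Fin.ext_iff]
  have hl : gs.length = P.length := by simp [gs, (hA P hP).1]
  have ha : a ∉ gs := by simp [gs, a, Fin.ext_iff]
  have hnd : ((g0 :: gs).map val).Nodup := by
    refine Nodup.map (fun x y e => Fin.ext (Nat.cast_injective (R := F) e)) (nodup_cons.2 ⟨?_, ?_⟩)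
    · simp [gs, g0, Fin.ext_iff]
    · exact nodup_ofFn.2 fun i j e => Fin.ext (by simpa [Fin.ext_iff] using e)
  let Φ : PP F (Fin (N + 3)) →ₗ[F] F := Finsupp.linearCombination F fun gw => Φw s A a val gw.2
  have hΦ : ∀ g w, Φ (bw F g w) = Φw s A a val w := fun g w => by simp [Φ, bw]
  let J0 : Submodule F (PP F (Fin (N + 3))) := ⨅ ε, LinearMap.ker (Φ ∘ₗ ρ ε)
  have hJ : ∀ x, x ∈ J0 ↔ ∀ ε, Φ (ρ ε x) = 0 := fun x => by simp [J0, Submodule.mem_iInf]
  let w0 := n0 s.toCd a z g0 P gs
  have hw : ∀ t, Φw s A a val (w0 ++ t) = if ∃ j, shp t = replicate j true ∧ (arg t).count a = j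
      then vdm ((g0 :: gs).map val) else 0 := by
    intro t
    rw [Φw, ok_n0 hA hz hg hP hl ha]
    split_ifs with h
    · obtain ⟨j, h, -⟩ := h
      rw [des_n0 _ _ _ _ hl h]
    · rfl
  refine not_rfd_of s {bw F (z, z) [(false, z), (false, z)] - bw F (z, z) [(false, z)],
    bw F (z, z) (w0 ++ [(true, a)]) - bw F (z, z) w0, bw F (z, z) (w0 ++ [(true, z)])}
    (bw F (z, z) w0) J0 (fun t x hx => (hJ _).2 fun ε => ?_) (fun x hx => (hJ _).2 fun ε => ?_)
    ?_ ?_ ?_
  · rw [← ρ_append]; exact (hJ x).1 hx _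
  · refine rel_le LinearMap.id (LinearMap.ker (Φ ∘ₗ ρ ε)) (fun g p w e w' t hr => ?_) hx
    have := Φw_rl a val (fun P hP => (hA P hP).2) hS hr p (t ++ ε)
    simp [hΦ, this]
  · intro x hx
    simp only [Finset.coe_insert, Finset.coe_singleton, Set.mem_insert_iff,
      Set.mem_singleton_iff] at hx
    rcases hx with rfl | rfl | rfl <;> refine (hJ _).2 fun ε => ?_
    · have := Φw_congr s A a val (e := 1) (ok_LL hA hz ε) (by simp)
      simp [hΦ, this]
    · rw [map_sub, map_sub, ρ_bw, ρ_bw, hΦ, hΦ, append_assoc, hw, hw, sub_eq_zero]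
      refine if_congr ⟨?_, ?_⟩ rfl rfl
      · rintro ⟨j, h1, h2⟩
        cases j with
        | zero => simp at h1
        | succ j => exact ⟨j, by simpa [replicate_succ] using h1, by simpa using h2⟩
      · rintro ⟨j, h1, h2⟩
        exact ⟨j + 1, by simpa [replicate_succ] using h1, by simpa using h2⟩
    · rw [ρ_bw, hΦ, append_assoc, hw, if_neg]
      rintro ⟨j, h1, h2⟩
      have h3 := congrArg length h1
      have h4 := count_le_length (a := a) (l := arg ε)
      simp only [arg, map_cons, cons_append, nil_append, length_cons,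
        length_map, length_replicate, count_cons_of_ne hz] at h2 h3 h4
      omega
  · intro h
    have := (hJ _).1 h []
    rw [ρ_bw, hΦ, hw, if_pos ⟨0, rfl, rfl⟩] at this
    exact vdm_ne_zero hnd this
  · intro J h1 h2 h3 h4
    exact collapse_n0 h2 (z, z) h1 h4 a z g0 P gs (h3 (by simp [w0])) (h3 (by simp [w0]))
      (h3 (by simp [w0]))

end Pool.Agent.Lib.MP_038c09_al
end
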