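import Pool.Agent.Lib.MP_038c09_al.Defs

/-! Definitions for the classification of associative RFD-varieties. -/

namespace Pool.Agent.Lib.MP_038c09_al

/-- The associator `(x_0 x_1) x_2 - x_0 (x_1 x_2)`. -/
noncomputable def asc (F : Type) [Field F] : FA F ℕ :=
  mon F (.of 0 * .of 1 * .of 2) - mon F (.of 0 * (.of 1 * .of 2))

/-- Every polynomial of `I` vanishes when its variables take values in the subset `S` of the
associative algebra `A`. -/
def Sat {F : Type} [Field F] (I : Set (FA F ℕ)) {A : Type} [Ring A] [Algebra F A] (S : Set A) :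
    Prop :=
  ∀ f ∈ I, ∀ φ : ℕ → A, (∀ i, φ i ∈ S) → FreeNonUnitalNonAssocAlgebra.lift F φ f = 0

/-- Upper triangular matrices whose diagonal follows the pattern `d`: the entry `(i, i)` is zero
when `d i = 0`, and the entries `(i, i)`, `(j, j)` are equal when `d i = d j`. -/
def Pat (C : Type) [CommRing C] {n : ℕ} (d : Fin n → ℕ) : Set (Matrix (Fin n) (Fin n) C) :=
  {M | (∀ i j, j < i → M i j = 0) ∧ (∀ i, d i = 0 → M i i = 0) ∧ ∀ i j, d i = d j → M i i = M j j}

end Pool.Agent.Lib.MP_038c09_al
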