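import Pool.Agent.Lib.MP_038c09_al.Defs

/-!
Evaluation of polynomials with respect to a bilinear product.
-/

namespace Pool.Agent.Lib.MP_038c09_al

variable {F : Type} [Field F] {A : Type} [AddCommGroup A] [Module F A] {X : Type}

/-- value of a monomial -/
def evm (μ : A →ₗ[F] A →ₗ[F] A) (v : X → A) : FreeMagma X → A
  | .of x => v x
  | .mul s t => μ (evm μ v s) (evm μ v t)

/-- value of a polynomial -/
noncomputable def evL (μ : A →ₗ[F] A →ₗ[F] A) (v : X → A) : FA F X →ₗ[F] A :=
  (MonoidAlgebra.basis (FreeMagma X) F).constr F (evm μ v)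

theorem mon_eq (w : FreeMagma X) : mon F w = MonoidAlgebra.single w 1 := rfl

theorem mon_mul (s t : FreeMagma X) : mon F (s * t) = mon F s * mon F t := map_mul _ s t

theorem mon_of (x : X) : mon F (.of x) = FreeNonUnitalNonAssocAlgebra.of F x := rfl

theorem single_eq (w : FreeMagma X) (c : F) :
    (MonoidAlgebra.single w c : FA F X) = c • mon F w := by
  rw [mon_eq]; simp

theorem evL_mon (μ : A →ₗ[F] A →ₗ[F] A) (v : X → A) (w : FreeMagma X) :
    evL μ v (mon F w) = evm μ v w := by
  rw [mon_eq, ← MonoidAlgebra.basis_apply, evL, Module.Basis.constr_basis]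

theorem evm_mul (μ : A →ₗ[F] A →ₗ[F] A) (v : X → A) (s t : FreeMagma X) :
    evm μ v (s * t) = μ (evm μ v s) (evm μ v t) := rfl

theorem evL_mul (μ : A →ₗ[F] A →ₗ[F] A) (v : X → A) (f g : FA F X) :
    evL μ v (f * g) = μ (evL μ v f) (evL μ v g) := by
  induction f using MonoidAlgebra.induction_linear with
  | zero => simp
  | add f f' h h' => simp [add_mul, h, h']
  | single s a =>
    induction g using MonoidAlgebra.induction_linear with
    | zero => simp
    | add g g' h h' => simp [mul_add, h, h']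
    | single t b =>
      rw [single_eq, single_eq, smul_mul_assoc, mul_smul_comm, ← mon_mul]
      simp only [map_smul, evL_mon, evm_mul, LinearMap.smul_apply]
      rw [smul_comm]

/-- A linear map compatible with the products computes substitution instances. -/
theorem hom_lift_mon {Y : Type} (μ : A →ₗ[F] A →ₗ[F] A) (h : FA F X →ₗ[F] A)
    (hmul : ∀ f g, h (f * g) = μ (h f) (h g)) (φ : Y → FA F X) (w : FreeMagma Y) :
    h (FreeNonUnitalNonAssocAlgebra.lift F φ (mon F w)) = evm μ (fun i => h (φ i)) w := by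
  induction w with
  | ih1 x => rw [mon_of, FreeNonUnitalNonAssocAlgebra.lift_of_apply]; rfl
  | ih2 s t hs ht => rw [mon_mul, map_mul, hmul, hs, ht, evm_mul]

theorem evm_congr (μ : A →ₗ[F] A →ₗ[F] A) {φ ψ : X → A} (w : FreeMagma X)
    (h : ∀ i ∈ leaves w, φ i = ψ i) : evm μ φ w = evm μ ψ w := by
  induction w using FreeMagma.rec with
  | of x => exact h x (by simp [leaves])
  | mul s t hs ht =>
    simp only [evm]
    rw [hs (fun i hi => h i (by simp [leaves, hi])), ht (fun i hi => h i (by simp [leaves, hi]))]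

/-- span of the values of a monomial -/
def val (μ : A →ₗ[F] A →ₗ[F] A) (w : FreeMagma X) : Submodule F A :=
  Submodule.span F (Set.range fun φ : X → A => evm μ φ w)

theorem evm_mem_val (μ : A →ₗ[F] A →ₗ[F] A) (φ : X → A) (w : FreeMagma X) :
    evm μ φ w ∈ val μ w := Submodule.subset_span ⟨φ, rfl⟩

theorem bilin_ext (μ B : A →ₗ[F] A →ₗ[F] A) (W : Submodule F A) {s t : FreeMagma X}
    (hd : ∀ i ∈ leaves s, i ∉ leaves t) (h : ∀ φ : X → A, B (evm μ φ s) (evm μ φ t) ∈ W)
    {u v : A} (hu : u ∈ val μ s) (hv : v ∈ val μ t) : B u v ∈ W := by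
  classical
  have : Submodule.map₂ B (val μ s) (val μ t) ≤ W := by
    rw [val, val, Submodule.map₂_span_span, Submodule.span_le]
    rintro _ ⟨_, ⟨φ, rfl⟩, _, ⟨ψ, rfl⟩, rfl⟩
    have := h (fun i => if i ∈ leaves s then φ i else ψ i)
    rwa [evm_congr μ (ψ := φ) s (fun i hi => by simp [hi]),
      evm_congr μ (ψ := ψ) t (fun i hi => by
        have : i ∉ leaves s := fun h' => hd i h' hi
        simp [this])] at this
  exact this (Submodule.apply_mem_map₂ B hu hv)

theorem disj_of_multilinear {s t : FreeMagma X} (h : Multilinear (s * t)) :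
    Multilinear s ∧ Multilinear t ∧ ∀ i ∈ leaves s, i ∉ leaves t := by
  have h' : (leaves s ++ leaves t).Nodup := h
  rw [List.nodup_append] at h'
  exact ⟨h'.1, h'.2.1, fun i hi hi' => h'.2.2 i hi i hi' rfl⟩

theorem mul_mem_val (μ : A →ₗ[F] A →ₗ[F] A) {s t : FreeMagma X} (h : Multilinear (s * t))
    {u v : A} (hu : u ∈ val μ s) (hv : v ∈ val μ t) : μ u v ∈ val μ (s * t) :=
  bilin_ext μ μ _ (disj_of_multilinear h).2.2 (fun φ => evm_mem_val μ φ (s * t)) hu hv

theorem mem_val_of (μ : A →ₗ[F] A →ₗ[F] A) (x : X) (u : A) : u ∈ val μ (FreeMagma.of x) :=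
  evm_mem_val μ (fun _ => u) (.of x)

/-- values for the modified product stay in the old value spaces -/
theorem evm_comp_mem (μ : A →ₗ[F] A →ₗ[F] A) (π : A →ₗ[F] A) (φ : X → A) (w : FreeMagma X)
    (hw : Multilinear w) (hπ : ∀ s ∈ subterms w, ∀ x ∈ val μ s, π x ∈ val μ s) :
    evm (μ.compr₂ π) φ w ∈ val μ w := by
  induction w using FreeMagma.rec with
  | of x => exact mem_val_of μ x _
  | mul s t hs ht =>
    obtain ⟨h1, h2, -⟩ := disj_of_multilinear (s := s) (t := t) hw
    simp only [evm, LinearMap.compr₂_apply]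
    refine hπ _ (by simp [subterms]) _ (mul_mem_val μ (s := s) (t := t) hw
      (hs h1 fun r hr => hπ r (by simp [subterms, hr]))
      (ht h2 fun r hr => hπ r (by simp [subterms, hr])))

/-- `Ref s t`: the shape of `t` refines the shape of `s`. -/
def Ref : FreeMagma X → FreeMagma X → Bool
  | .of _, _ => true
  | .mul _ _, .of _ => false
  | .mul s s', .mul t t' => Ref s t && Ref s' t'

theorem val_le_of_ref (μ : A →ₗ[F] A →ₗ[F] A) (s : FreeMagma X) (hs : Multilinear s) :
    ∀ t : FreeMagma X, Ref s t = true → val μ t ≤ val μ s := by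
  induction s using FreeMagma.rec with
  | of x => exact fun t _ u _ => mem_val_of μ x u
  | mul s s' h h' =>
    obtain ⟨h1, h2, -⟩ := disj_of_multilinear (s := s) (t := s') hs
    intro t ht
    cases t with
    | of y => simp [Ref] at ht
    | mul t t' =>
      simp only [Ref, Bool.and_eq_true] at ht
      rw [val, Submodule.span_le]
      rintro _ ⟨φ, rfl⟩
      exact mul_mem_val μ (s := s) (t := s') hs (h h1 t ht.1 (evm_mem_val μ φ t))
        (h' h2 t' ht.2 (evm_mem_val μ φ t'))

theorem isIdeal_idealGen (S : Set (FA F X)) : IsIdeal (idealGen S) := by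
  intro x y hy
  simp only [idealGen, Submodule.mem_sInf] at hy ⊢
  exact ⟨fun J hJ => (hJ.1 x y (hy J hJ)).1, fun J hJ => (hJ.1 x y (hy J hJ)).2⟩

theorem subset_idealGen (S : Set (FA F X)) : S ⊆ idealGen S := by
  intro x hx
  simp only [idealGen, SetLike.mem_coe, Submodule.mem_sInf]
  exact fun J hJ => hJ.2 hx

theorem idealGen_le {S : Set (FA F X)} {J : Submodule F (FA F X)} (h : IsIdeal J) (hS : S ⊆ J) :
    idealGen S ≤ J := sInf_le ⟨h, hS⟩

theorem isIdeal_ker (μ : A →ₗ[F] A →ₗ[F] A) (h : FA F X →ₗ[F] A)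
    (hmul : ∀ f g, h (f * g) = μ (h f) (h g)) : IsIdeal (LinearMap.ker h) := by
  intro x y hy
  rw [LinearMap.mem_ker] at hy
  simp [LinearMap.mem_ker, hmul, hy]

/-- the product on the quotient by an ideal -/
noncomputable def quotMul (K : Submodule F (FA F X)) (hK : IsIdeal K) :
    (FA F X ⧸ K) →ₗ[F] (FA F X ⧸ K) →ₗ[F] (FA F X ⧸ K) :=
  LinearMap.liftQ₂ K K ((LinearMap.mul F (FA F X)).compr₂ K.mkQ)
    (fun x hx => by
      ext y
      simpa using (hK _ x hx).2)
    (fun x hx => by
      ext y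
      simpa using (hK _ x hx).1)

theorem mkQ_mul (K : Submodule F (FA F X)) (hK : IsIdeal K) (f g : FA F X) :
    K.mkQ (f * g) = quotMul K hK (K.mkQ f) (K.mkQ g) := rfl

end Pool.Agent.Lib.MP_038c09_al
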