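import Pool.Agent.Lib.MP_038c09_al.AsVis
import Pool.Agent.Lib.MP_038c09_al.AsDefs
import Pool.Agent.Lib.MP_038c09_al.Eval

-- part Pool.Agent.Lib.MP_038c09_al.AsMain
section

/-! The positive direction for a relatively free algebra. -/

namespace Pool.Agent.Lib.MP_038c09_al.As

open MvPolynomial

variable {F : Type} [Field F] {Λ : Type} [Ring Λ] [Algebra F Λ]

theorem monic2 {A : Type} [CommRing A] [Algebra F A] (A0 : Subalgebra F A) {z m l : A}
    (hm : m ∈ A0) (e : ℕ) (h : z * (l * (l - m)) ^ e = 0) :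
    ∃ p : Polynomial A0, p.Monic ∧ z * Polynomial.aeval l p = 0 :=
  ⟨(Polynomial.X * (Polynomial.X - Polynomial.C ⟨_, hm⟩)) ^ e, (Polynomial.monic_X.mul
    (Polynomial.monic_X_sub_C _)).pow _, by
    simp only [map_pow, map_mul, map_sub, Polynomial.aeval_X, Polynomial.aeval_C]; exact h⟩

theorem hint_ex [CharZero F] {ε : Λ →ₐ[F] F} {n : ℕ} (H : Ids ε n) {σ : Type} [Finite σ]
    {xs : σ → Λ} (hG : Gen ε xs) {x : Λ} (hx : ε x = 0) (K : ℕ) :
    ∃ N, ∀ e, N ≤ e → ∀ k < K, Hint F xs x e k := by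
  choose N0 h0 using fun p : Fin K × σ =>
    nil_pattern H p.1 (s := 0) (by simp) (hG.h0 p.2) hx (xs p.2) x
  choose N2 h2 using fun p : Fin K × σ =>
    nil_pattern H p.1 (s := 2) (by simp) (hG.h0 p.2) hx x (xs p.2)
  obtain ⟨N, hN⟩ := Finite.exists_le (N0 + N2)
  refine ⟨N, fun e he k hk j hj s => ?_⟩
  have hj' : j = 0 ∨ j = 2 := by revert j; decide
  have h3 := hN (⟨k, hk⟩, s)
  have h4 := h0 (⟨k, hk⟩, s)
  have h5 := h2 (⟨k, hk⟩, s)
  simp only [Pi.add_apply] at h3 h4 h5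
  refine monic2 _ (mem_A0 k xs (i := 1) (Set.mem_singleton _) s) e ?_
  rw [vA, ← mul_pow]
  rcases hj' with rfl | rfl
  · refine pow_eq_zero_of_le (m := N0 (⟨k, hk⟩, s)) (by omega) (eq_zero_of_zero_dvd ?_)
    rw [← h4]
    exact pow_dvd_pow_of_dvd ⟨lam F k 1 x - lam F k 0 x, by ring⟩ _
  · refine pow_eq_zero_of_le (m := N2 (⟨k, hk⟩, s)) (by omega) (eq_zero_of_zero_dvd ?_)
    rw [← h5]
    exact pow_dvd_pow_of_dvd ⟨lam F k 1 x - lam F k 2 x, by ring⟩ _

theorem rad_mem (q0 p : Polynomial F) (e d M : ℕ) :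
    ∃ N, Polynomial.aeval (X 1 : MvPolynomial ℕ F)
      (Polynomial.X * (q0 * p.comp (Polynomial.X ^ (3 * e * d)))) ^ N ∈ Ideal.span
      {Polynomial.aeval (X 0) (Polynomial.X * (q0 * p.comp (Polynomial.X ^ (3 * e * d)))) ^ M,
        Polynomial.aeval (X 2) (Polynomial.X * (q0 * p.comp (Polynomial.X ^ (3 * e * d)))) ^ M,
        vP F e 1 2 * Polynomial.aeval (vP F e 1 2 ^ d) p, X 0 ^ e * vP F e 1 2,
        X 2 ^ e * vP F e 1 2} := by
  set q := Polynomial.X * (q0 * p.comp (Polynomial.X ^ (3 * e * d))) with hq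
  refine Ideal.mem_radical_iff.1 ?_
  rw [Ideal.radical_eq_sInf, Submodule.mem_sInf]
  rintro J ⟨h1, hJ⟩
  rw [Ideal.span_le] at h1
  simp only [Set.insert_subset_iff, Set.singleton_subset_iff, SetLike.mem_coe,
    ← Ideal.Quotient.eq_zero_iff_mem (I := J), ← Ideal.Quotient.mkₐ_eq_mk F, map_mul, map_pow,
    ← Polynomial.aeval_algHom_apply, vP, map_sub] at h1 ⊢
  generalize Ideal.Quotient.mkₐ F J (X 0) = a at h1
  generalize Ideal.Quotient.mkₐ F J (X 1) = m at h1 ⊢
  generalize Ideal.Quotient.mkₐ F J (X 2) = b at h1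
  obtain ⟨a1, a2, a3, a4, a5⟩ := h1
  replace a1 := eq_zero_of_pow_eq_zero a1
  replace a2 := eq_zero_of_pow_eq_zero a2
  by_cases hv : ((a - m) * (b - m) * m) ^ e = 0
  · rcases mul_eq_zero.1 (eq_zero_of_pow_eq_zero hv) with h | h
    · rcases mul_eq_zero.1 h with h | h <;> rwa [← sub_eq_zero.1 h]
    · simp [h, hq]
  · obtain rfl := eq_zero_of_pow_eq_zero ((mul_eq_zero.1 a4).resolve_right hv)
    obtain rfl := eq_zero_of_pow_eq_zero ((mul_eq_zero.1 a5).resolve_right hv)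
    have := (mul_eq_zero.1 a3).resolve_left hv
    rw [show (0 - m) * (0 - m) * m = m ^ 3 by ring, ← pow_mul, ← pow_mul, ← mul_assoc] at this
    simp [hq, Polynomial.aeval_comp, this]

theorem POp.aeval {x : Λ} {g : MvPolynomial ℕ F} {θ : Module.End F (Λ → Λ)} (h : POp x g θ)
    (p : Polynomial F) : POp x (Polynomial.aeval g p) (Polynomial.aeval θ p) := fun t1 t2 u => by
  induction p using Polynomial.induction_on' with
  | add p q hp hq => simp [add_mul, hp, hq]
  | monomial i c =>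
    simp only [Polynomial.aeval_monomial, ← Algebra.smul_def, smul_mul_assoc, map_smul,
      LinearMap.smul_apply, h.pow i t1 t2 u]

theorem aeval_op (x : Λ) (p : Polynomial F) (φ : Λ → Λ) (z : Λ) :
    Polynomial.aeval (op F 0 x) p φ z = Polynomial.aeval x p * φ z ∧
    Polynomial.aeval (op F 2 x) p φ z = φ z * Polynomial.aeval x p := by
  induction p using Polynomial.induction_on' with
  | add p q hp hq => simp [add_mul, mul_add, hp, hq]
  | monomial i c =>
    simp [Polynomial.aeval_monomial, ← Algebra.smul_def, op0_pow, op2_pow]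

theorem Ev_aeval1 (x t1 t2 : Λ) (p : Polynomial F) :
    Ev x (pc t1 t2) 2 (Polynomial.aeval (X 1 : MvPolynomial ℕ F) p) =
      t1 * Polynomial.aeval x p * t2 := by
  induction p using Polynomial.induction_on' with
  | add p q hp hq => simp [add_mul, mul_add, hp, hq]
  | monomial i c =>
    rw [Polynomial.aeval_monomial, Polynomial.aeval_monomial, ← Algebra.smul_def,
      ← Algebra.smul_def, map_smul, ← mul_one (X 1 ^ i), Ev_X1_l, Ev_one]
    simp [pr, pc]

variable {ε : Λ →ₐ[F] F} {n : ℕ} {x : Λ} {e L : ℕ} {θ : Module.End F Λ}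
  {θ' : Λ → Module.End F Λ}

theorem Ctx.alg [CharZero F] (C : Ctx ε n x e L θ θ') {σ : Type} [Finite σ] {xs : σ → Λ}
    (hG : Gen ε xs) {K : ℕ} (hK : Tf F Λ K = ⊥) (hint : ∀ k < K, Hint F xs x e k) {R : Set Λ}
    (hR : R.Finite) (hB : R ⊆ Bk ε) {f : Λ} (hf : f ∉ biSpan F R) {q0 : Polynomial F}
    (h0 : q0 ≠ 0) (h1 : ∀ b, LR F b (Polynomial.aeval x q0) f ∈ biSpan F R) :
    ∃ r : Polynomial F, r ≠ 0 ∧
      f ∉ biSpan F (insert (Polynomial.aeval x (Polynomial.X * r)) R) := by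
  by_contra hn
  push Not at hn
  refine hf (C.closed hG hK hint hR hB fun p hp => ?_)
  have hI := isId_biSpan (F := F) R
  have he0 : e ≠ 0 := by have := C.he; omega
  set q1 := q0 * p.comp (Polynomial.X ^ (3 * e * (L + 1 + (L + 1)))) with hq1
  have hq : q1 ≠ 0 := mul_ne_zero h0 fun h => by
    rcases Polynomial.comp_eq_zero_iff.1 h with h | ⟨-, h⟩
    · exact hp h
    · have := congrArg Polynomial.natDegree h
      simp [he0] at this
  set y := Polynomial.aeval x (Polynomial.X * q1) with hy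
  have hy0 : ε y = 0 := by simp [hy, C.hx]
  obtain ⟨M, hM⟩ := (PR_top C.H hG hK hy0 hI).sep (LR_comm y) (hI.st _ _)
  obtain ⟨N, hN⟩ := rad_mem q0 p e (L + 1 + (L + 1)) M
  set P := (Fk F Λ 0).map (piQ F x e ∘ₗ Polynomial.aeval (Wop F x e L) p)
  set Z := LinearMap.range (LR F true y ^ M) ⊔ LinearMap.range (LR F false y ^ M) ⊔ P
  have key : ∀ t1 t2 h, Ev x (pc t1 t2) 2
      (Polynomial.aeval (X 1 : MvPolynomial ℕ F) (Polynomial.X * q1) ^ N * h) ∈ Z :=
    fun t1 t2 => Submodule.span_induction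
      (p := fun g _ => ∀ h, Ev x (pc t1 t2) 2 (g * h) ∈ Z)
      (fun g hg h => by
        have b0 := Psi_mem (fun i => op_Fk 0 i x) (ph_mem0 (F := F) t1 t2) h
        rw [← one_mul t2, ← Psi_apply]
        rcases hg with rfl | rfl | rfl | rfl | rfl
        · rw [← map_pow, (pOp0 x).aeval, (aeval_op _ _ _ _).1, map_pow]
          exact Submodule.mem_sup_left (Submodule.mem_sup_left ⟨_, by rw [LR_pow]; rfl⟩)
        · rw [← map_pow, (pOp2 x).aeval, (aeval_op _ _ _ _).2, map_pow]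
          exact Submodule.mem_sup_left (Submodule.mem_sup_right ⟨_, by rw [LR_pow]; rfl⟩)
        · rw [(pOpV x e).mul (((pOpV x e).pow _).aeval p)]
          exact Submodule.mem_sup_right ⟨_, b0, rfl⟩
        · rw [((pOp0 x).pow e).mul (pOpV x e), Module.End.mul_apply, op0_pow,
            (V_kill C.H C.hx C.hn b0 1).1]
          exact zero_mem _
        · rw [((pOp2 x).pow e).mul (pOpV x e), Module.End.mul_apply, op2_pow,
            (V_kill C.H C.hx C.hn b0 1).2]
          exact zero_mem _)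
      (by simp) (fun a b _ _ ha hb h => by rw [add_mul, map_add]; exact add_mem (ha h) (hb h))
      (fun a b _ hb h => by rw [smul_eq_mul, mul_comm a, mul_assoc]; exact hb _) hN
  have h2 : f ∈ Z ⊔ biSpan F R := biSpan_ind LinearMap.id _ (fun t1 t2 u hu => by
    rcases hu with rfl | hu
    · rw [LinearMap.id_apply, ← Ev_aeval1, mul_left_comm, map_mul, map_pow]
      exact Submodule.mem_sup_left (key t1 t2 _)
    · exact Submodule.mem_sup_right (hI _ _ (hI _ _ (subset_biSpan hu)).1).2)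
    (hn ((Polynomial.X * q1) ^ N * q1)
      (mul_ne_zero (pow_ne_zero _ (mul_ne_zero Polynomial.X_ne_zero hq)) hq))
  obtain ⟨z, hz, i, hi, e1⟩ := Submodule.mem_sup.1 h2
  obtain ⟨z', hz', g, hg, rfl⟩ := Submodule.mem_sup.1 hz
  obtain ⟨_, ⟨a, rfl⟩, _, ⟨a', rfl⟩, rfl⟩ := Submodule.mem_sup.1 hz'
  have h3 : ∀ b, (LR F b y ^ e) ((LR F true y ^ M) a + (LR F false y ^ M) a') ∈ biSpan F R :=
    fun b => by
    obtain ⟨ψ, hψ, rfl⟩ := hg
    have b0 := V_kill C.H C.hx C.hn ((stW (fun i => op_Fk 0 i x) e L).aeval p _ hψ) 1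
    have b1 : (LR F b x ^ e) (piQ F x e (Polynomial.aeval (Wop F x e L) p ψ)) = 0 := by
      rw [LR_pow]; cases b; exacts [b0.2, b0.1]
    obtain ⟨d, rfl⟩ := Nat.exists_eq_succ_of_ne_zero he0
    rw [eq_sub_of_add_eq (eq_sub_of_add_eq e1), map_sub, map_sub, hy, ← LR_aeval, ← map_pow]
    refine sub_mem (sub_mem ?_ ((hI.st _ _).aeval _ _ hi)) ?_
    · rw [show (Polynomial.X * q1) ^ d.succ = (Polynomial.X * q1) ^ d * Polynomial.X *
        p.comp (Polynomial.X ^ (3 * d.succ * (L + 1 + (L + 1)))) * q0 by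
          rw [pow_succ, hq1]; ring, aeval_mul_apply]
      exact (hI.st _ _).aeval _ _ (LR_aeval b x q0 ▸ h1 b)
    · rw [mul_pow, mul_comm, aeval_mul_apply, Polynomial.aeval_X_pow, LinearMap.comp_apply, b1,
        map_zero]
      exact zero_mem _
  rw [← e1, add_comm _ g, add_assoc]
  exact Submodule.add_mem_sup hg (add_mem (hM a a' e (h3 true) (h3 false)) hi)

theorem reduce {K : ℕ} (hK : Tf F Λ K = ⊥) {I : Submodule F Λ} {f : Λ}
    (hf : f ∉ I) : ∃ g ∈ biSpan F {f}, g ∉ I ∧ Cen (biSpan F {g}) I := by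
  classical
  have hex : ∃ k, ∀ g ∈ biSpan F {f} ⊓ Tf F Λ k, g ∈ I :=
    ⟨K, fun g hg => by have := hg.2; rw [hK] at this; rw [show g = 0 from this]; exact zero_mem _⟩
  have h0 : Nat.find hex ≠ 0 := fun h => hf (Nat.find_spec hex f ⟨subset_biSpan rfl, by
    rw [h]; trivial⟩)
  obtain ⟨k, hk⟩ := Nat.exists_eq_succ_of_ne_zero h0
  have h1 := Nat.find_min hex (m := k) (by omega)
  push Not at h1
  obtain ⟨g, h2, h3⟩ := h1
  have h4 := Nat.find_spec hex
  rw [hk] at h4
  have h5 : biSpan F {g} ≤ biSpan F {f} := biSpan_le (isId_biSpan _) (by simpa using h2.1)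
  have h6 : biSpan F {g} ≤ Tf F Λ k := biSpan_le (isId_Tf _) (by simpa using h2.2)
  exact ⟨g, h2.1, h3, fun t ht w hw =>
    ⟨h4 _ ⟨(isId_biSpan _ _ _ (h5 hw)).1, (cen_Tf k t ht w (h6 hw)).1⟩,
      h4 _ ⟨(isId_biSpan _ _ _ (h5 hw)).2, (cen_Tf k t ht w (h6 hw)).2⟩⟩⟩

theorem rfd_pos [CharZero F] (H : Ids ε n) {σ : Type} [Finite σ] {xs : σ → Λ} (hG : Gen ε xs)
    (hend : ∀ y : σ → Λ, (∀ s, ε (y s) = 0) → ∃ φ : Λ →ₐ[F] Λ, ∀ s, φ (xs s) = y s)
    {h h' : ℕ} (hZ : ∀ x, ε x = 0 → pL F h h ∈ kI x (h + 1) (Bk ε) (isId_Bk ε) ∧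
      pR F h' h' ∈ kI x (h' + 2) (Bk ε) (isId_Bk ε))
    {R : Set Λ} (hR : R.Finite) (hB : R ⊆ Bk ε) {f : Λ} (hf : f ∉ biSpan F R) :
    ∃ J : Submodule F Λ, IsId J ∧ R ⊆ J ∧ f ∉ J ∧ Module.Finite F (Λ ⧸ J) := by
  obtain ⟨K, hK⟩ := T_nil H hG
  obtain ⟨g, g1, g2, g3⟩ := reduce hK hf
  have key : ∀ S : Set σ, S.Finite → ∃ R' : Set Λ, R'.Finite ∧ R' ⊆ Bk ε ∧ R ⊆ R' ∧
      g ∉ biSpan F R' ∧ ∀ s ∈ S, ∃ p : Polynomial F, p ≠ 0 ∧
      Polynomial.aeval (xs s) p ∈ biSpan F R' := fun S hS => by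
    induction S, hS using Set.Finite.induction_on with
    | empty => exact ⟨R, hR, hB, le_rfl, g2, by simp⟩
    | @insert s S _ _ ih =>
      obtain ⟨R1, a1, a2, a3, a4, a5⟩ := ih
      have hx := hG.h0 s
      have hBk : ∀ b (p : Polynomial F), LR F b (Polynomial.aeval (xs s) (Polynomial.X * p)) g ∈ Bk ε :=
        fun b p => by
          rw [map_mul, Polynomial.aeval_X]; cases b <;> simp [mem_Bk, hx]
      obtain ⟨p1, b1, b2⟩ := add_rel hG a4 (g3.mono le_rfl (biSpan_mono a3)) true s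
      obtain ⟨p2, b3, b4⟩ := add_rel hG b2 (g3.mono le_rfl
        (biSpan_mono (a3.trans (Set.subset_insert _ _)))) false s
      obtain ⟨N, hN⟩ := hint_ex H hG hx K
      set e := N + (n + h + h' + 2)
      obtain ⟨θ, t0⟩ := exists_theta H hG hend hx (hZ _ hx).1 (hZ _ hx).2 (e := e) (by omega)
      have hx' : ∀ c, ε (xs s ^ e * c * xs s ^ e) = 0 := fun c => by
        simp [hx, show e ≠ 0 by omega]
      choose θ' t1 using fun c =>
        exists_theta H hG hend (hx' c) (hZ _ (hx' c)).1 (hZ _ (hx' c)).2 (e := e) (by omega)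
      have C : Ctx ε n (xs s) e (h + h') θ θ' := ⟨H, hx, by omega, by omega, t0, t1⟩
      obtain ⟨r, c1, c2⟩ := C.alg hG hK (hN e (by omega)) ((a1.insert _).insert _)
        (Set.insert_subset (hBk _ _) (Set.insert_subset (hBk _ _) a2)) b4
        (q0 := Polynomial.X * p1 * (Polynomial.X * p2)) (mul_ne_zero
          (mul_ne_zero Polynomial.X_ne_zero b1) (mul_ne_zero Polynomial.X_ne_zero b3)) fun b => by
        cases b
        · rw [mul_comm (Polynomial.X * p1), map_mul (Polynomial.aeval _) (Polynomial.X * p2),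
            LR_f (_ * _), ← mul_assoc]
          refine (isId_biSpan _ _ (g * _) (subset_biSpan ?_)).2
          exact Set.mem_insert _ _
        · rw [mul_comm (Polynomial.X * p1), map_mul (Polynomial.aeval _) (Polynomial.X * p2),
            LR_t (_ * _), mul_assoc]
          refine (isId_biSpan _ _ (_ * g) (subset_biSpan ?_)).1
          exact Or.inr (Set.mem_insert _ _)
      have l1 : R1 ⊆ _ := (Set.subset_insert _ _).trans ((Set.subset_insert _ _).trans
        (Set.subset_insert (Polynomial.aeval (xs s) (Polynomial.X * r)) (insert (LR F false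
        (Polynomial.aeval (xs s) (Polynomial.X * p2)) g) (insert (LR F true
        (Polynomial.aeval (xs s) (Polynomial.X * p1)) g) R1))))
      refine ⟨_, ((a1.insert _).insert _).insert _, Set.insert_subset (by simp [mem_Bk, hx])
        (Set.insert_subset (hBk _ _) (Set.insert_subset (hBk _ _) a2)), a3.trans l1, c2, ?_⟩
      rintro t (rfl | ht)
      · exact ⟨_, mul_ne_zero Polynomial.X_ne_zero c1, subset_biSpan (Set.mem_insert _ _)⟩
      · obtain ⟨p, h1, h2⟩ := a5 t ht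
        exact ⟨p, h1, biSpan_mono l1 h2⟩
  obtain ⟨R', -, -, a3, a4, a5⟩ := key Set.univ Set.finite_univ
  exact ⟨_, isId_biSpan R', fun r hr => subset_biSpan (a3 hr), fun h => a4 (biSpan_le
    (isId_biSpan _) (by simpa using h) g1), cofinite hG hK (isId_biSpan _) fun s => a5 s trivial⟩

end Pool.Agent.Lib.MP_038c09_al.As
end

-- part Pool.Agent.Lib.MP_038c09_al.AsFree
section

/-! The relatively free algebra and the transfer to the free non-associative algebra. -/

namespace Pool.Agent.Lib.MP_038c09_al.As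

variable {F : Type} [Field F]

noncomputable abbrev evf {X A : Type} [NonUnitalNonAssocSemiring A] [Module F A]
    [IsScalarTower F A A] [SMulCommClass F A A] (φ : X → A) : FA F X →ₙₐ[F] A :=
  FreeNonUnitalNonAssocAlgebra.lift F φ

def nl {A A' : Type} [NonUnitalNonAssocSemiring A] [Module F A] [NonUnitalNonAssocSemiring A']
    [Module F A'] (ψ : A →ₙₐ[F] A') : A →ₗ[F] A' := ⟨⟨ψ, map_add ψ⟩, map_smul ψ⟩

@[simp] theorem nl_apply {A A' : Type} [NonUnitalNonAssocSemiring A] [Module F A]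
    [NonUnitalNonAssocSemiring A'] [Module F A'] (ψ : A →ₙₐ[F] A') (a : A) : nl ψ a = ψ a := rfl

theorem map_evf' {X A A' : Type} [NonUnitalNonAssocSemiring A] [Module F A]
    [IsScalarTower F A A] [SMulCommClass F A A] [NonUnitalNonAssocSemiring A'] [Module F A']
    [IsScalarTower F A' A'] [SMulCommClass F A' A'] (ψ : A →ₙₐ[F] A') (φ : X → A) (f : FA F X) :
    ψ (evf φ f) = evf (fun i => ψ (φ i)) f :=
  NonUnitalAlgHom.congr_fun (FreeNonUnitalNonAssocAlgebra.hom_ext F (F₁ := ψ.comp (evf φ))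
    (F₂ := evf fun i => ψ (φ i)) (fun _ => by simp)) f

theorem map_evf {X A A' : Type} [Ring A] [Algebra F A] [Ring A'] [Algebra F A'] (ψ : A →ₐ[F] A')
    (φ : X → A) (f : FA F X) : ψ (evf φ f) = evf (fun i => ψ (φ i)) f :=
  map_evf' (ψ : A →ₙₐ[F] A') φ f

theorem FA_ind {X : Type} {P : FA F X → Prop} (h0 : P 0)
    (h1 : ∀ x, P (FreeNonUnitalNonAssocAlgebra.of F x)) (h2 : ∀ a b, P a → P b → P (a + b))
    (h3 : ∀ (c : F) a, P a → P (c • a)) (h4 : ∀ a b, P a → P b → P (a * b)) (g : FA F X) : P g := by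
  induction g using MonoidAlgebra.induction_linear with
  | zero => exact h0
  | add f g h h' => exact h2 _ _ h h'
  | single w c =>
    rw [single_eq]
    refine h3 _ _ ?_
    induction w with
    | ih1 x => exact h1 x
    | ih2 s t hs ht => rw [mon_mul]; exact h4 _ _ hs ht

theorem evf_mem {X A : Type} [Ring A] [Algebra F A] {S : Submodule F A}
    (hS : ∀ a ∈ S, ∀ b ∈ S, a * b ∈ S) {φ : X → A} (h : ∀ i, φ i ∈ S) (g : FA F X) :
    evf φ g ∈ S := by
  induction g using FA_ind with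
  | h0 => simp
  | h1 x => simpa using h x
  | h2 a b ha hb => rw [map_add]; exact S.add_mem ha hb
  | h3 c a ha => rw [map_smul]; exact S.smul_mem c ha
  | h4 a b ha hb => rw [map_mul]; exact hS _ ha _ hb

noncomputable def aug (F : Type) [Field F] (σ : Type) : FreeAlgebra F σ →ₐ[F] F :=
  FreeAlgebra.lift F fun _ => 0

theorem gen_free (σ : Type) : Gen (aug F σ) (FreeAlgebra.ι F) :=
  ⟨fun s => by simp [aug], FreeAlgebra.adjoin_range_ι F σ⟩

theorem Gen.map_B {Λ : Type} [Ring Λ] [Algebra F Λ] {ε : Λ →ₐ[F] F} {σ : Type} {xs : σ → Λ}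
    (hG : Gen ε xs) {A : Type} [Ring A] [Algebra F A] {S : Submodule F A}
    (hS : ∀ a ∈ S, ∀ b ∈ S, a * b ∈ S) (ψ : Λ →ₐ[F] A) (h : ∀ s, ψ (xs s) ∈ S) {a : Λ}
    (ha : ε a = 0) : ψ a ∈ S := by
  refine span_ind ψ.toLinearMap S ?_ (hG.words_B ha)
  rintro _ ⟨l, hl, rfl⟩
  induction l with
  | nil => exact absurd rfl hl
  | cons s l ih =>
    rcases l with _ | ⟨t, l⟩
    · simpa using h s
    · simpa using hS _ (h s) _ (ih (by simp))

variable (I : Set (FA F ℕ)) (σ : Type)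

def RRel (a b : FreeAlgebra F σ) : Prop :=
  b = 0 ∧ ∃ f ∈ I, ∃ φ : ℕ → FreeAlgebra F σ, (∀ i, aug F σ (φ i) = 0) ∧ a = evf φ f

abbrev RF := RingQuot (RRel I σ)

noncomputable def mkR : FreeAlgebra F σ →ₐ[F] RF I σ := RingQuot.mkAlgHom F (RRel I σ)

noncomputable def xR (s : σ) : RF I σ := mkR I σ (FreeAlgebra.ι F s)

variable {I σ}

theorem mkR_evf {f : FA F ℕ} (hf : f ∈ I) {φ : ℕ → FreeAlgebra F σ} (h : ∀ i, aug F σ (φ i) = 0) :
    mkR I σ (evf φ f) = 0 :=
  (RingQuot.mkAlgHom_rel F (s := RRel I σ) ⟨rfl, f, hf, φ, h, rfl⟩).trans (map_zero _)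

theorem univ {A : Type} [Ring A] [Algebra F A] {S : Submodule F A}
    (hS : ∀ a ∈ S, ∀ b ∈ S, a * b ∈ S) (hI : Sat I (S : Set A)) (y : σ → A) (hy : ∀ s, y s ∈ S) :
    ∃ ψ : RF I σ →ₐ[F] A, ∀ h, ψ (mkR I σ h) = FreeAlgebra.lift F y h :=
  ⟨RingQuot.liftAlgHom F ⟨FreeAlgebra.lift F y, by
    rintro _ _ ⟨rfl, f, hf, φ, h, rfl⟩
    rw [map_evf, map_zero]
    exact hI f hf _ fun i => (gen_free σ).map_B hS _ (by simpa using hy) (h i)⟩,
    fun h => RingQuot.liftAlgHom_mkAlgHom_apply _ _ _ _⟩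

theorem sat_bot {A : Type} [Ring A] [Algebra F A] : Sat I ((⊥ : Submodule F A) : Set A) :=
  fun f _ φ h => evf_mem (S := ⊥) (by simp) h f

variable (I σ) in
noncomputable def epsR : RF I σ →ₐ[F] F :=
  (univ (S := ⊥) (by simp) (sat_bot (I := I)) (fun _ : σ => (0 : F)) (by simp)).choose

theorem epsR_mk (h : FreeAlgebra F σ) : epsR I σ (mkR I σ h) = aug F σ h :=
  (univ (S := ⊥) (by simp) (sat_bot (I := I)) (fun _ : σ => (0 : F)) (by simp)).choose_spec h

theorem mkR_surj : Function.Surjective (mkR I σ) := RingQuot.mkAlgHom_surjective F _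

theorem gen_RF : Gen (epsR I σ) (xR I σ) :=
  ⟨fun s => by rw [xR, epsR_mk]; exact (gen_free σ).h0 s, by
    have := congrArg (Subalgebra.map (mkR I σ)) (gen_free (F := F) σ).top
    rwa [AlgHom.map_adjoin, ← Set.range_comp, Algebra.map_top,
      (AlgHom.range_eq_top _).2 mkR_surj] at this⟩

theorem sat_RF : Sat I (Bk (epsR I σ) : Set (RF I σ)) := fun f hf φ h => by
  choose ψ hψ using fun i => mkR_surj (φ i)
  have := mkR_evf hf (φ := ψ) fun i => by rw [← epsR_mk (I := I), hψ]; exact h i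
  rw [map_evf] at this
  simpa [hψ] using this

theorem univ_RF {τ : Type} (y : τ → RF I σ) (hy : ∀ s, epsR I σ (y s) = 0) :
    ∃ ψ : RF I τ →ₐ[F] RF I σ, (∀ h, ψ (mkR I τ h) = FreeAlgebra.lift F y h) ∧
      ∀ s, ψ (xR I τ s) = y s := by
  obtain ⟨ψ, h⟩ := univ (fun a _ b hb => (isId_Bk _ a b hb).1) sat_RF y hy
  exact ⟨ψ, h, fun s => by rw [xR, h, FreeAlgebra.lift_ι_apply]⟩

theorem Z_unif [CharZero F] [Finite σ] {n : ℕ} (H : Ids (epsR I (Option σ)) n) :
    ∃ h h', ∀ x, epsR I σ x = 0 → pL F h h ∈ kI x (h + 1) (Bk (epsR I σ)) (isId_Bk _) ∧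
      pR F h' h' ∈ kI x (h' + 2) (Bk (epsR I σ)) (isId_Bk _) := by
  obtain ⟨K, hK⟩ := T_nil H gen_RF
  obtain ⟨h, h', h1, h2⟩ := Z_kI H gen_RF hK (gen_RF.h0 none)
  refine ⟨h, h', fun x hx => ?_⟩
  obtain ⟨ψ, -, a1⟩ := univ_RF (I := I) (fun o : Option σ => o.elim x (xR I σ)) (by
    rintro (_ | s); exacts [hx, gen_RF.h0 s])
  obtain ⟨χ, -, a2⟩ := univ_RF (I := I) (fun s : σ => xR I (Option σ) (some s))
    fun s => gen_RF.h0 _
  have a3 : ∀ a, ψ (χ a) = a := AlgHom.congr_fun (AlgHom.ext_of_adjoin_eq_top gen_RF.top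
    (φ₁ := ψ.comp χ) (φ₂ := AlgHom.id F _) (by rintro _ ⟨s, rfl⟩; simp [a1, a2]))
  have key : ∀ D p, p ∈ kI (xR I (Option σ) none) D (Bk (epsR I _)) (isId_Bk _) →
      p ∈ kI x D (Bk (epsR I σ)) (isId_Bk _) := fun D p hp w hw => by
    have := congrArg ψ (hp (fun i => χ (w i)) fun i => gen_RF.map_B
      (fun a _ b hb => (isId_Bk _ a b hb).1) χ (fun s => a2 s ▸ gen_RF.h0 _) (hw i))
    simpa [map_Ev, a1, a3] using this
  exact ⟨key _ _ h1, key _ _ h2⟩

theorem evf_idealGen {τ : Type} (φ : τ → FA F σ) {g : FA F τ} (h : g ∈ idealGen (TVal I τ)) :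
    evf φ g ∈ idealGen (TVal I σ) := by
  refine idealGen_le (J := (idealGen (TVal I σ)).comap (nl (evf φ)))
    (fun a b hb => ?_) ?_ h
  · simpa using isIdeal_idealGen _ (evf φ a) _ hb
  · rintro _ ⟨f, hf, ψ, rfl⟩
    exact subset_idealGen _ ⟨f, hf, _, map_evf' (evf φ) ψ f⟩

theorem assoc_mem (hA : asc F ∈ idealGen (TVal I ℕ)) (a b c : FA F σ) :
    a * b * c - a * (b * c) ∈ idealGen (TVal I σ) := by
  have := evf_idealGen (fun i : ℕ => if i = 0 then a else if i = 1 then b else c) hA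
  simpa [asc, mon_mul, mon_of] using this

/-- the left regular representation of an associative quotient. -/
noncomputable def Lrep (K : Submodule F (FA F σ)) (hK : IsIdeal K)
    (h : ∀ a b c : FA F σ, a * b * c - a * (b * c) ∈ K) :
    FA F σ →ₙₐ[F] Module.End F (F × (FA F σ ⧸ K)) where
  toFun := fun g => LinearMap.inr F _ _ ∘ₗ ((LinearMap.fst F _ _).smulRight (K.mkQ g) +
    quotMul K hK (K.mkQ g) ∘ₗ LinearMap.snd F _ _)
  map_smul' := fun c g => LinearMap.ext fun v => by simp [smul_comm c]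
  map_zero' := LinearMap.ext fun v => by simp
  map_add' := fun a b => LinearMap.ext fun v => by simp; abel
  map_mul' := fun a b => LinearMap.ext fun ⟨c, v⟩ => by
    obtain ⟨v, rfl⟩ := K.mkQ_surjective v
    have := (Submodule.Quotient.eq K).2 (h a b v)
    simp only [← Submodule.mkQ_apply] at this
    simp [-Submodule.mkQ_apply, ← mkQ_mul, this]

theorem Lrep_eq_zero {K : Submodule F (FA F σ)} {hK : IsIdeal K} {h} {g : FA F σ} :
    Lrep K hK h g = 0 ↔ g ∈ K :=
  ⟨fun e => by simpa [Lrep] using LinearMap.congr_fun e (1, 0), fun e => by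
    have := (Submodule.Quotient.mk_eq_zero K).2 e
    exact LinearMap.ext fun v => by simp [Lrep, this]⟩

theorem TVal_le (R : Set (FA F σ)) : idealGen (TVal I σ) ≤ idealGen (TVal I σ ∪ R) :=
  idealGen_le (isIdeal_idealGen _) (Set.subset_union_left.trans (subset_idealGen _))

theorem rfd_of_ids [CharZero F] (hA : asc F ∈ idealGen (TVal I ℕ))
    (H : ∀ σ : Type, ∃ n, Ids (epsR I σ) n) : IsRFDVariety I := fun m R a ha => by
  set K := idealGen (TVal I (Fin m) ∪ ↑R)
  have hK : IsIdeal K := isIdeal_idealGen _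
  let L := Lrep K hK fun a b c => TVal_le _ (assoc_mem hA a b c)
  let ν : FA F (Fin m) →ₙₐ[F] RF I (Fin m) := evf (xR I _)
  have hν : ∀ g, ν g ∈ Bk (epsR I _) := evf_mem (fun a _ b hb => (isId_Bk _ a b hb).1) gen_RF.h0
  obtain ⟨ψ, hψ⟩ := univ (I := I) (S := LinearMap.range (nl L)) (by
      rintro _ ⟨a, rfl⟩ _ ⟨b, rfl⟩; exact ⟨a * b, map_mul L a b⟩) (fun f hf φ h => by
      choose φ' h' using h
      obtain rfl : φ = fun i => L (φ' i) := funext fun i => (h' i).symm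
      exact (map_evf' L φ' f).symm.trans (Lrep_eq_zero.2 (subset_idealGen _
        (Or.inl ⟨f, hf, φ', rfl⟩))))
    (fun s => L (FreeNonUnitalNonAssocAlgebra.of F s)) fun s => ⟨_, rfl⟩
  have h1 : ∀ g, ψ (ν g) = L g := fun g => by
    rw [map_evf]
    simp only [xR, hψ, FreeAlgebra.lift_ι_apply]
    exact NonUnitalAlgHom.congr_fun (FreeNonUnitalNonAssocAlgebra.lift_comp_of F L) g
  obtain ⟨n, Hn⟩ := H (Fin m)
  obtain ⟨n', Hn'⟩ := H (Option (Fin m))
  obtain ⟨h, h', hZ⟩ := Z_unif Hn'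
  obtain ⟨J, j1, j2, j3, j4⟩ := rfd_pos Hn gen_RF (fun y hy => let ⟨ψ, _, h⟩ := univ_RF y hy; ⟨ψ, h⟩)
    hZ (R.finite_toSet.image ν) (by rintro _ ⟨g, -, rfl⟩; exact hν g) (f := ν a) fun h => ha (by
      have := biSpan_ind ψ.toLinearMap ⊥ (by
        rintro p q _ ⟨r, hr, rfl⟩
        have : L r = 0 := Lrep_eq_zero.2 (subset_idealGen _ (Or.inr hr))
        simp [h1, this]) h
      exact Lrep_eq_zero.1 ((h1 a).symm.trans this))
  have hJ : IsIdeal (J.comap (nl ν)) := fun a b hb => by simpa using j1 (ν a) _ hb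
  refine ⟨_, hJ, idealGen_le hJ (Set.union_subset ?_ fun r hr => j2 ⟨r, hr, rfl⟩), ?_, j3⟩
  · rintro _ ⟨f, hf, φ, rfl⟩
    exact (congrArg (· ∈ J) ((map_evf' ν φ f).trans (sat_RF f hf _ fun i => hν _))).mpr
      J.zero_mem
  · exact Module.Finite.of_injective (Submodule.mapQ _ J (nl ν) le_rfl)
      (by rw [← LinearMap.ker_eq_bot, Submodule.ker_mapQ]; simp)

theorem not_rfd (hA : asc F ∈ idealGen (TVal I ℕ)) {m : ℕ} {A : Type} [Ring A] [Algebra F A]
    {V : Type} [AddCommGroup V] [Module F V] (act : A →ₐ[F] Module.End F V)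
    {S : Submodule F A} (hS : ∀ a ∈ S, ∀ b ∈ S, a * b ∈ S)
    (hI : Sat I (S : Set A)) (y : Fin m → A) (hy : ∀ s, y s ∈ S) (W0 W1 : Submodule F V)
    (h0 : ∀ s, St (act (y s)) W0) (h1 : ∀ s, St (act (y s)) W1)
    (R : Finset (FA F (Fin m))) (a : FA F (Fin m))
    (hR : ∀ r ∈ R, ∀ v ∈ W0, act (evf y r) v ∈ W1) (ha : ∃ v ∈ W0, act (evf y a) v ∉ W1)
    (fd : ∀ (A : Type) [Ring A] [Algebra F A] [Module.Finite F A] (z : Fin m → A),
      (∀ r ∈ R, evf z r = 0) → evf z a = 0) : ¬ IsRFDVariety I := fun h => by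
  have st : ∀ W : Submodule F V, (∀ s, St (act (y s)) W) →
      ∀ g : FA F (Fin m), St (act (evf y g)) W := fun W h g => by
    induction g using FA_ind with
    | h0 => intro v _; simp
    | h1 x => simpa using h x
    | h2 a b ha hb => intro v hv; rw [map_add, map_add]; exact add_mem (ha v hv) (hb v hv)
    | h3 c a ha => intro v hv; rw [map_smul, map_smul]; exact W.smul_mem c (ha v hv)
    | h4 a b ha hb => rw [map_mul, map_mul]; exact ha.mul hb
  let J0 : Submodule F (FA F (Fin m)) :=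
    { carrier := {g | ∀ v ∈ W0, act (evf y g) v ∈ W1}
      add_mem' := fun ha hb v hv => by
        rw [map_add, map_add]; exact add_mem (ha v hv) (hb v hv)
      zero_mem' := fun v _ => by simp
      smul_mem' := fun c g hg v hv => by
        rw [map_smul, map_smul]; exact W1.smul_mem c (hg v hv) }
  have l0 : idealGen (TVal I (Fin m) ∪ ↑R) ≤ J0 := idealGen_le (fun a b hb => ⟨fun v hv => by
      rw [map_mul, map_mul]; exact st W1 h1 a _ (hb v hv), fun v hv => by
      rw [map_mul, map_mul]; exact hb _ (st W0 h0 a v hv)⟩)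
    (Set.union_subset (by
      rintro _ ⟨f, hf, φ, rfl⟩ v _
      have := (map_evf' (evf y) φ f).trans (hI f hf _ fun i => evf_mem hS hy _)
      rw [this]
      simp) hR)
  obtain ⟨v, hv, hv'⟩ := ha
  obtain ⟨J, j1, j2, j3, j4⟩ := h m R a fun h => hv' (l0 h v hv)
  let L := Lrep J j1 fun a b c => j2 (TVal_le _ (assoc_mem hA a b c))
  have e : ∀ g, evf (fun s => L (FreeNonUnitalNonAssocAlgebra.of F s)) g = L g :=
    NonUnitalAlgHom.congr_fun (FreeNonUnitalNonAssocAlgebra.lift_comp_of F L)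
  exact j4 (Lrep_eq_zero.1 ((e a).symm.trans (fd (Module.End F (F × (FA F (Fin m) ⧸ J))) _
    fun r hr => (e r).trans (Lrep_eq_zero.2 (j2 (subset_idealGen _ (Or.inr hr)))))))

end Pool.Agent.Lib.MP_038c09_al.As
end

-- part Pool.Agent.Lib.MP_038c09_al.AsScal
section

/-! Extension of scalars for identities. -/

namespace Pool.Agent.Lib.MP_038c09_al.As

open Finset

variable {F : Type} [Field F]

noncomputable def mw {C τ : Type} [CommRing C] (g : τ → C) (d : τ →₀ ℕ) : C :=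
  d.prod fun i k => g i ^ k

theorem mw_add {C τ : Type} [CommRing C] (g : τ → C) (d d' : τ →₀ ℕ) :
    mw g (d + d') = mw g d * mw g d' := Finsupp.prod_add_index' (by simp) (by simp [pow_add])

theorem vanish [CharZero F] {M τ : Type} [AddCommGroup M] [Module F M] (S : Finset (τ →₀ ℕ))
    (v : (τ →₀ ℕ) → M) (h : ∀ l : τ → F, ∑ d ∈ S, mw l d • v d = 0) {d : τ →₀ ℕ} (hd : d ∈ S) :
    v d = 0 := by
  classical
  refine (Module.forall_dual_apply_eq_zero_iff F _).1 fun ψ => ?_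
  have : Infinite F := Infinite.of_injective _ Nat.cast_injective
  have h1 : ∑ d ∈ S, MvPolynomial.monomial d (ψ (v d)) = 0 := MvPolynomial.funext fun l => by
    have := congrArg ψ (h l)
    simpa [MvPolynomial.eval_monomial, mul_comm, mw] using this
  have := congrArg (MvPolynomial.coeff d) h1
  simpa [MvPolynomial.coeff_sum, MvPolynomial.coeff_monomial, hd] using this

section
variable {C A τ : Type} [CommRing C] [Algebra F C] [Ring A] [Algebra F A] [Algebra C A]

variable (F) in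
noncomputable def evW (g : τ → C) : AddMonoidAlgebra A (τ →₀ ℕ) →ₐ[F] A :=
  AddMonoidAlgebra.liftNCAlgHom (AlgHom.id F A)
    { toFun := fun d => algebraMap C A (mw g d.toAdd)
      map_one' := by simp [mw]
      map_mul' := fun a b => by simp [mw_add] } fun x y => (Algebra.commutes _ x).symm

theorem evW_single (g : τ → C) (d : τ →₀ ℕ) (a : A) :
    evW F g (AddMonoidAlgebra.single d a) = mw g d • a := by
  simp [evW, Algebra.smul_def, Algebra.commutes]

theorem evW_apply (g : τ → C) (u : AddMonoidAlgebra A (τ →₀ ℕ)) :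
    evW F g u = ∑ d ∈ u.coeff.support, mw g d • u.coeff d := by
  conv_lhs => rw [← AddMonoidAlgebra.sum_coeff_single u]
  simp [Finsupp.sum, evW_single]

theorem SE [CharZero F] [IsScalarTower F C A] (f : FA F ℕ) (S : Submodule F A) (ℓ : A →ₗ[C] C)
    (h : ∀ φ : ℕ → A, (∀ i, φ i ∈ S) → ℓ (evf φ f) = 0) (φ : ℕ → A)
    (hφ : ∀ i, φ i ∈ Submodule.span C (S : Set A)) : ℓ (evf φ f) = 0 := by
  choose c hc hc' using fun i => Submodule.mem_span_set.1 (hφ i)
  let G : ℕ → AddMonoidAlgebra A (ℕ × A →₀ ℕ) := fun i =>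
    ∑ m ∈ (c i).support, AddMonoidAlgebra.single (Finsupp.single (i, m) 1) m
  have key : ∀ g : ℕ × A → C, ℓ (evf (fun i => ∑ m ∈ (c i).support, g (i, m) • m) f) =
      ∑ d ∈ (evf G f).coeff.support, mw g d • ℓ ((evf G f).coeff d) := fun g => by
    have := map_evf (evW F g) G f
    rw [evW_apply] at this
    simp only [G, map_sum, evW_single, mw, Finsupp.prod_single_index, pow_zero, pow_one] at this
    rw [← this]; simp [G, mw]
  have h1 := fun d => vanish (F := F) (evf G f).coeff.support (fun d => ℓ ((evf G f).coeff d))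
    (d := d) fun l => by
      have := key fun p => algebraMap F C (l p)
      rw [h _ fun i => S.sum_mem fun m hm => by simpa using S.smul_mem _ (hc i hm)] at this
      rw [this]
      exact sum_congr rfl fun d _ => by
        rw [← algebraMap_smul C]; simp [mw, Finsupp.prod]
  have := key fun p => c p.1 p.2
  rw [sum_eq_zero fun d hd => by rw [h1 d hd, smul_zero]] at this
  rw [← this]
  congr 3
  exact funext fun i => (hc' i).symm

end

variable {C : Type} [CommRing C] [Algebra F C] {n : ℕ}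

def PatS (F C : Type) [Field F] [CommRing C] [Algebra F C] {n : ℕ} (d : Fin n → ℕ) :
    Submodule F (Matrix (Fin n) (Fin n) C) where
  carrier := Pat C d
  add_mem' := fun ha hb => ⟨fun i j h => by simp [ha.1 i j h, hb.1 i j h],
    fun i h => by simp [ha.2.1 i h, hb.2.1 i h], fun i j h => by simp [ha.2.2 i j h, hb.2.2 i j h]⟩
  zero_mem' := ⟨fun _ _ _ => rfl, fun _ _ => rfl, fun _ _ _ => rfl⟩
  smul_mem' := fun c a ha => ⟨fun i j h => by simp [ha.1 i j h],
    fun i h => by simp [ha.2.1 i h], fun i j h => by simp [ha.2.2 i j h]⟩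

theorem PatS_mul (d : Fin n → ℕ) : ∀ a ∈ PatS F C d, ∀ b ∈ PatS F C d, a * b ∈ PatS F C d :=
  fun a ha b hb => by
  have key : ∀ i j k, k ≠ i → j ≤ i → a i k * b k j = 0 := fun i j k h1 h2 => by
    rcases lt_or_gt_of_ne h1 with h | h
    · rw [ha.1 i k h, zero_mul]
    · rw [hb.1 k j (h2.trans_lt h), mul_zero]
  have e : ∀ i j, j ≤ i → (a * b) i j = a i i * b i j := fun i j h => by
    rw [Matrix.mul_apply, sum_eq_single i (fun k _ hk => key i j k hk h) (by simp)]
  exact ⟨fun i j h => by rw [e i j h.le, hb.1 i j h, mul_zero],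
    fun i h => by rw [e i i le_rfl, ha.2.1 i h, zero_mul],
    fun i j h => by rw [e i i le_rfl, e j j le_rfl, ha.2.2 i j h, hb.2.2 i j h]⟩

noncomputable def mM (F C : Type) [Field F] [CommRing C] [Algebra F C] (n : ℕ) :
    Matrix (Fin n) (Fin n) F →ₐ[F] Matrix (Fin n) (Fin n) C := (Algebra.ofId F C).mapMatrix

theorem mM_apply (M : Matrix (Fin n) (Fin n) F) (i j : Fin n) :
    mM F C n M i j = algebraMap F C (M i j) := rfl

variable {I : Set (FA F ℕ)}

theorem sat_ext [CharZero F] {d : Fin n → ℕ} (h : Sat I (Pat F d)) : Sat I (Pat C d) :=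
  fun f hf φ hφ => Matrix.ext fun i j => by
  refine SE f ((PatS F F d).map (mM F C n).toLinearMap) (Matrix.entryLinearMap C C i j)
    (fun ψ hψ => ?_) φ fun s => ?_
  · choose χ h1 h2 using hψ
    obtain rfl : ψ = fun i => mM F C n (χ i) := funext fun i => (h2 i).symm
    have := (map_evf (mM F C n) χ f).symm.trans (congrArg _ (h f hf χ h1))
    rw [this, map_zero, map_zero]
  · classical
    let b := Module.Basis.ofVectorSpace F C
    let T := (Finset.univ : Finset (Fin n × Fin n)).biUnion fun p => (b.repr (φ s p.1 p.2)).support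
    have : φ s = ∑ k ∈ T, b k • mM F C n ((φ s).map (b.coord k)) := Matrix.ext fun i j => by
      rw [Matrix.sum_apply]
      conv_lhs => rw [← b.linearCombination_repr (φ s i j), Finsupp.linearCombination_apply,
        Finsupp.sum_of_support_subset _ (s := T) (subset_biUnion_of_mem
          (fun p : Fin n × Fin n => (b.repr (φ s p.1 p.2)).support) (mem_univ (i, j))) _ (by simp)]
      exact sum_congr rfl fun k _ => by simp [mM_apply, Algebra.smul_def, mul_comm]
    rw [this]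
    exact Submodule.sum_mem _ fun k _ => Submodule.smul_mem _ _ (Submodule.subset_span
      ⟨_, ⟨fun i j h => by simp [(hφ s).1 i j h], fun i h => by simp [(hφ s).2.1 i h],
        fun i j h => by simp [(hφ s).2.2 i j h]⟩, rfl⟩)

theorem sat_scaled [CharZero F] {K : Type} [Field K] [Algebra F K] {d : Fin n → ℕ} {c : K}
    (hc : c ≠ 0) (h : ∀ f ∈ I, ∀ φ : ℕ → Matrix (Fin n) (Fin n) F, (∀ i, φ i ∈ Pat F d) →
      evf (fun i => c • mM F K n (φ i)) f = 0) : Sat I (Pat F d) :=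
  fun f hf φ hφ => Matrix.ext fun i j => by
  have := SE f ((PatS F F d).map ((LinearMap.lsmul K _ c).restrictScalars F ∘ₗ
    (mM F K n).toLinearMap)) (Matrix.entryLinearMap K K i j) (fun ψ hψ => by
      choose χ h1 h2 using hψ
      obtain rfl : ψ = fun i => c • mM F K n (χ i) := funext fun i => (h2 i).symm
      rw [h f hf χ h1, map_zero]) (fun i => mM F K n (φ i)) fun s => by
      rw [← inv_smul_smul₀ hc (mM F K n (φ s))]
      exact Submodule.smul_mem _ _ (Submodule.subset_span ⟨φ s, hφ s, rfl⟩)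
  rw [← map_evf] at this
  exact (algebraMap F K).injective (this.trans (map_zero _).symm)

end Pool.Agent.Lib.MP_038c09_al.As
end

-- part Pool.Agent.Lib.MP_038c09_al.AsNeg
section

/-! The four obstructions. -/

namespace Pool.Agent.Lib.MP_038c09_al.As

open Polynomial

variable {F : Type} [Field F] {I : Set (FA F ℕ)}

def actM (F C : Type) [Field F] [CommRing C] [Algebra F C] (n : ℕ) :
    Matrix (Fin n) (Fin n) C →ₐ[F] Module.End F (Fin n → C) :=
  AlgHom.ofLinearMap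
    { toFun := fun M => (Matrix.mulVecLin M).restrictScalars F
      map_add' := fun a b => LinearMap.ext fun v => Matrix.add_mulVec a b v
      map_smul' := fun c a => LinearMap.ext fun v => Matrix.smul_mulVec c a v }
    (LinearMap.ext fun v => Matrix.one_mulVec v)
    fun a b => LinearMap.ext fun v => (Matrix.mulVec_mulVec v a b).symm

theorem actM_apply {C : Type} [CommRing C] [Algebra F C] {n : ℕ} (M : Matrix (Fin n) (Fin n) C)
    (v : Fin n → C) : actM F C n M v = M.mulVec v := rfl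

theorem pi_reg {A : Type} [Ring A] [Algebra F A] [Module.Finite F A] (a : A) :
    ∃ k c, a ^ k = c * a ^ (k + 1) ∧ a ^ k = a ^ (k + 1) * c := by
  obtain ⟨p, h1, h2⟩ := (IsIntegral.of_finite F a).isAlgebraic
  obtain ⟨q, h3, h4⟩ := p.exists_eq_pow_rootMultiplicity_mul_and_not_dvd h1 0
  simp only [map_zero, sub_zero, X_dvd_iff] at h3 h4
  have h5 : (X ^ p.rootMultiplicity 0 : F[X]) = C (q.coeff 0)⁻¹ * p +
      -(C (q.coeff 0)⁻¹ * q.divX) * X ^ (p.rootMultiplicity 0 + 1) := by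
    have h6 : C (q.coeff 0)⁻¹ * C (q.coeff 0) = 1 := by rw [← map_mul, inv_mul_cancel₀ h4, map_one]
    generalize p.rootMultiplicity 0 = k at h3
    linear_combination -(C (q.coeff 0)⁻¹) * h3 + X ^ k * C (q.coeff 0)⁻¹ * X_mul_divX_add q -
      X ^ k * h6
  refine ⟨p.rootMultiplicity 0, aeval a (-(C (q.coeff 0)⁻¹ * q.divX)), ?_, ?_⟩
  · simpa [h2] using congrArg (aeval a) h5
  · rw [mul_comm (-_)] at h5
    simpa [h2] using congrArg (aeval a) h5

theorem iter_eq {A : Type} [Ring A] {a v b : A} (h : a * v * b = v) (k : ℕ) :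
    a ^ k * v * b ^ k = v := by
  induction k with
  | zero => simp
  | succ k ih => rw [pow_succ, pow_succ', mul_assoc _ a, mul_assoc, ← mul_assoc _ b, h,
                  ← mul_assoc, ih]

theorem exists_model (F : Type) [Field F] : ∃ (x x' : RatFunc F) (P : Submodule F (RatFunc F)),
    x * x' = 1 ∧ 1 ∈ P ∧ (∀ a ∈ P, x * a ∈ P) ∧ ∀ a ∈ P, x * a ≠ 1 := by
  refine ⟨RatFunc.X, RatFunc.X⁻¹, LinearMap.range
    (IsScalarTower.toAlgHom F F[X] (RatFunc F)).toLinearMap, mul_inv_cancel₀ RatFunc.X_ne_zero,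
    ⟨1, by simp⟩, ?_, ?_⟩
  · rintro _ ⟨p, rfl⟩; exact ⟨X * p, by simp⟩
  · rintro _ ⟨p, rfl⟩ h
    have : X * p = 1 := RatFunc.algebraMap_injective F (by simpa using h)
    simpa using congrArg (coeff · 0) this

noncomputable abbrev gn (F : Type) [Field F] (i : Fin 4) : FA F (Fin 4) :=
  FreeNonUnitalNonAssocAlgebra.of F i

def W0a {C : Type} [CommRing C] [Algebra F C] (P : Submodule F C) : Submodule F (Fin 3 → C) :=
  P.comap (LinearMap.proj 2)

def W1a {C : Type} [CommRing C] [Algebra F C] (P : Submodule F C) (x : C) :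
    Submodule F (Fin 3 → C) :=
  (P.map (LinearMap.mulLeft F x)).comap (LinearMap.proj 0) ⊓ LinearMap.ker (LinearMap.proj 1) ⊓
    LinearMap.ker (LinearMap.proj 2)

theorem mem_W1a {C : Type} [CommRing C] [Algebra F C] {P : Submodule F C} {x : C} {v : Fin 3 → C} :
    v ∈ W1a P x ↔ (∃ a ∈ P, x * a = v 0) ∧ v 1 = 0 ∧ v 2 = 0 := by
  simp [W1a, and_assoc]

theorem neg13 [CharZero F] (hA : asc F ∈ idealGen (TVal I ℕ)) {t : ℕ} (ht : t = 0 ∨ t = 1)
    (h : Sat I (Pat F ![1, 2, t])) : ¬ IsRFDVariety I := by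
  classical
  obtain ⟨x, x', P, h1, h2, h3, h4⟩ := exists_model F
  let y : Fin 4 → Matrix (Fin 3) (Fin 3) (RatFunc F) :=
    ![!![x, 0, 0; 0, 0, 0; 0, 0, if t = 0 then 0 else x], !![0, 1, 0; 0, 0, 0; 0, 0, 0],
      !![0, 0, 0; 0, x', 0; 0, 0, 0], !![0, 0, 0; 0, 0, 1; 0, 0, 0]]
  have e0 : ∀ v, actM F _ 3 (y 0) v = ![x * v 0, 0, (if t = 0 then 0 else x) * v 2] := fun v => by
    ext i; fin_cases i <;> simp [actM_apply, y, Matrix.mulVec, dotProduct, Fin.sum_univ_succ]
  have e1 : ∀ v, actM F _ 3 (y 1) v = ![v 1, 0, 0] := fun v => by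
    ext i; fin_cases i <;> simp [actM_apply, y, Matrix.mulVec, dotProduct, Fin.sum_univ_succ]
  have e2 : ∀ v, actM F _ 3 (y 2) v = ![0, x' * v 1, 0] := fun v => by
    ext i; fin_cases i <;> simp [actM_apply, y, Matrix.mulVec, dotProduct, Fin.sum_univ_succ]
  have e3 : ∀ v, actM F _ 3 (y 3) v = ![0, v 2, 0] := fun v => by
    ext i; fin_cases i <;> simp [actM_apply, y, Matrix.mulVec, dotProduct, Fin.sum_univ_succ]
  refine not_rfd hA (actM F _ 3) (PatS_mul ![1, 2, t]) (sat_ext h) y (fun s => ?_) (W0a P)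
    (W1a P x) (fun s v hv => ?_) (fun s v hv => ?_)
    {gn F 0 * gn F 1 * gn F 2 - gn F 1, gn F 0 * gn F 1 * gn F 3} (gn F 1 * gn F 3)
    (fun r hr v hv => ?_) ⟨![0, 0, 1], h2, fun h => ?_⟩ fun A _ _ _ z hz => ?_
  · refine ⟨fun i j h => ?_, fun i h => ?_, fun i j h => ?_⟩
    · fin_cases i <;> fin_cases j <;> first | exact absurd h (by decide) | (fin_cases s <;> rfl)
    · rcases ht with rfl | rfl <;> fin_cases i <;>
        first | exact absurd h (by decide) | (fin_cases s <;> rfl)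
    · rcases ht with rfl | rfl <;> fin_cases i <;> fin_cases j <;>
        first | exact absurd h (by decide) | (fin_cases s <;> rfl)
  · change actM F _ 3 (y s) v 2 ∈ P
    fin_cases s <;> simp [e0, e1, e2, e3]
    split_ifs
    exacts [zero_mem _, h3 _ hv]
  · obtain ⟨⟨a, a1, a2⟩, a3, a4⟩ := mem_W1a.1 hv
    fin_cases s <;> simp only [mem_W1a, Fin.zero_eta, Fin.mk_one, Fin.reduceFinMk, e0, e1, e2, e3]
    · exact ⟨⟨_, h3 a a1, by simp [a2]⟩, by simp, by simp [a4]⟩
    all_goals exact ⟨⟨0, zero_mem _, by simp [a3]⟩, by simp [a3, a4], by simp⟩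
  · simp only [Finset.mem_insert, Finset.mem_singleton] at hr
    rcases hr with rfl | rfl <;> simp only [mem_W1a, map_sub, map_mul,
      FreeNonUnitalNonAssocAlgebra.lift_of_apply, LinearMap.sub_apply, Module.End.mul_apply, e0,
      e1, e2, e3]
    · exact ⟨⟨0, zero_mem _, by simp [← mul_assoc, h1]⟩, by simp, by simp⟩
    · exact ⟨⟨v 2, hv, by simp⟩, by simp, by simp⟩
  · simp only [mem_W1a, map_mul, FreeNonUnitalNonAssocAlgebra.lift_of_apply, Module.End.mul_apply,
      e1, e3] at h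
    obtain ⟨⟨a, a1, a2⟩, -⟩ := h
    exact h4 a a1 (by simpa using a2)
  · have a1 := hz _ (Finset.mem_insert_self _ _)
    have a2 := hz _ (Finset.mem_insert_of_mem (Finset.mem_singleton_self _))
    simp only [map_sub, map_mul, FreeNonUnitalNonAssocAlgebra.lift_of_apply, sub_eq_zero] at a1 a2 ⊢
    obtain ⟨k, c, a3, -⟩ := pi_reg (F := F) (z 0)
    have a4 := iter_eq a1 k
    have : z 1 = c * z 0 * z 1 := by
      conv_lhs => rw [← a4, a3, pow_succ']
      conv_rhs => rw [← a4]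
      simp only [mul_assoc]
    rw [this, mul_assoc c, mul_assoc c, a2, mul_zero]

theorem neg2 [CharZero F] (hA : asc F ∈ idealGen (TVal I ℕ))
    (h : Sat I (Pat F ![0, 1, 2])) : ¬ IsRFDVariety I := by
  classical
  obtain ⟨x, x', P, h1, h2, h3, h4⟩ := exists_model F
  let y : Fin 4 → Matrix (Fin 3) (Fin 3) (RatFunc F) :=
    ![!![0, 0, 0; 0, 0, 0; 0, 0, x], !![0, 0, 0; 0, 0, 1; 0, 0, 0],
      !![0, 0, 0; 0, x', 0; 0, 0, 0], !![0, 1, 0; 0, 0, 0; 0, 0, 0]]
  have e0 : ∀ v, actM F _ 3 (y 0) v = ![0, 0, x * v 2] := fun v => by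
    ext i; fin_cases i <;> simp [actM_apply, y, Matrix.mulVec, dotProduct, Fin.sum_univ_succ]
  have e1 : ∀ v, actM F _ 3 (y 1) v = ![0, v 2, 0] := fun v => by
    ext i; fin_cases i <;> simp [actM_apply, y, Matrix.mulVec, dotProduct, Fin.sum_univ_succ]
  have e2 : ∀ v, actM F _ 3 (y 2) v = ![0, x' * v 1, 0] := fun v => by
    ext i; fin_cases i <;> simp [actM_apply, y, Matrix.mulVec, dotProduct, Fin.sum_univ_succ]
  have e3 : ∀ v, actM F _ 3 (y 3) v = ![v 1, 0, 0] := fun v => by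
    ext i; fin_cases i <;> simp [actM_apply, y, Matrix.mulVec, dotProduct, Fin.sum_univ_succ]
  refine not_rfd hA (actM F _ 3) (PatS_mul ![0, 1, 2]) (sat_ext h) y (fun s => ?_) (W0a P)
    (W1a P x) (fun s v hv => ?_) (fun s v hv => ?_)
    {gn F 2 * gn F 1 * gn F 0 - gn F 1, gn F 3 * (gn F 1 * gn F 0)} (gn F 3 * gn F 1)
    (fun r hr v hv => ?_) ⟨![0, 0, 1], h2, fun h => ?_⟩ fun A _ _ _ z hz => ?_
  · refine ⟨fun i j h => ?_, fun i h => ?_, fun i j h => ?_⟩
    · fin_cases i <;> fin_cases j <;> first | exact absurd h (by decide) | (fin_cases s <;> rfl)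
    · fin_cases i <;> first | exact absurd h (by decide) | (fin_cases s <;> rfl)
    · fin_cases i <;> fin_cases j <;> first | exact absurd h (by decide) | (fin_cases s <;> rfl)
  · change actM F _ 3 (y s) v 2 ∈ P
    fin_cases s <;> simp [e0, e1, e2, e3]
    exact h3 _ hv
  · obtain ⟨-, a3, a4⟩ := mem_W1a.1 hv
    fin_cases s <;> simp only [mem_W1a, Fin.zero_eta, Fin.mk_one, Fin.reduceFinMk, e0, e1, e2, e3]
    all_goals exact ⟨⟨0, zero_mem _, by simp [a3]⟩, by simp [a3, a4], by simp [a4]⟩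
  · simp only [Finset.mem_insert, Finset.mem_singleton] at hr
    rcases hr with rfl | rfl <;> simp only [mem_W1a, map_sub, map_mul,
      FreeNonUnitalNonAssocAlgebra.lift_of_apply, LinearMap.sub_apply, Module.End.mul_apply, e0,
      e1, e2, e3]
    · exact ⟨⟨0, zero_mem _, by simp⟩, by simp [← mul_assoc, mul_comm x' x, h1], by simp⟩
    · exact ⟨⟨v 2, hv, by simp⟩, by simp, by simp⟩
  · simp only [mem_W1a, map_mul, FreeNonUnitalNonAssocAlgebra.lift_of_apply, Module.End.mul_apply,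
      e1, e3] at h
    obtain ⟨⟨a, a1, a2⟩, -⟩ := h
    exact h4 a a1 (by simpa using a2)
  · have a1 := hz _ (Finset.mem_insert_self _ _)
    have a2 := hz _ (Finset.mem_insert_of_mem (Finset.mem_singleton_self _))
    simp only [map_sub, map_mul, FreeNonUnitalNonAssocAlgebra.lift_of_apply, sub_eq_zero] at a1 a2 ⊢
    obtain ⟨k, c, -, a3⟩ := pi_reg (F := F) (z 0)
    have a4 := iter_eq a1 k
    have : z 1 = z 1 * z 0 * c := by
      conv_lhs => rw [← a4, a3, pow_succ]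
      conv_rhs => rw [← a4]
      simp only [mul_assoc]
    rw [this, ← mul_assoc, a2, zero_mul]

theorem fd4 [CharZero F] {A : Type} [Ring A] [Algebra F A] [Module.Finite F A] {u x y w z : A}
    (hz : z = x * y - y * x) (h1 : z * x = x * z) (h2 : y * w = 0) (h3 : u * (y + z * x) = 0) :
    u * (z * w) = 0 := by
  have a1 : ∀ f : F[X], z * aeval x f = aeval x f * z ∧
      y * aeval x f = aeval x f * y - z * aeval x (derivative f) := fun f => by
    induction f using Polynomial.induction_on with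
    | C a => simp [Algebra.commutes]
    | add p q hp hq =>
      simp only [map_add, mul_add, add_mul, hp.1, hq.1, hp.2, hq.2, true_and]; abel
    | monomial n a ih =>
      rw [pow_succ, ← mul_assoc, derivative_mul (g := X), derivative_X, mul_one]
      generalize C a * X ^ n = g at ih
      simp only [map_mul, map_add, aeval_X]
      refine ⟨by rw [← mul_assoc, ih.1, mul_assoc, h1, mul_assoc], ?_⟩
      rw [← mul_assoc, ih.2, mul_add, ih.1, sub_mul, mul_assoc _ y, show y * x = x * y - z by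
        rw [hz]; abel]
      noncomm_ring
  let Φ : F[X] →ₗ[F] A := LinearMap.mulLeft F (u * z) ∘ₗ LinearMap.mulRight F w ∘ₗ
    (aeval x).toLinearMap
  have a2 : ∀ f, Φ (X * f) = Φ (derivative f) := fun f => by
    have b1 : u * z * x = -(u * y) := by
      rw [mul_add] at h3; rw [mul_assoc]; exact eq_neg_of_add_eq_zero_right h3
    simp only [Φ, LinearMap.comp_apply, LinearMap.mulLeft_apply, LinearMap.mulRight_apply,
      AlgHom.toLinearMap_apply, map_mul, aeval_X]
    rw [← mul_assoc, ← mul_assoc, b1, neg_mul, mul_assoc u, (a1 f).2, neg_mul, mul_assoc u,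
      sub_mul, mul_assoc _ y, h2]
    noncomm_ring
  have a3 : ∀ n (p : F[X]), p.natDegree = n → p ≠ 0 → (∀ g, Φ (p * g) = 0) → Φ 1 = 0 :=
    fun n => Nat.strong_induction_on n fun n ih p hn hp h => by
      by_cases h0 : p.natDegree = 0
      · rw [eq_C_of_natDegree_eq_zero h0] at hp h
        have := h (C (p.coeff 0)⁻¹)
        rwa [← map_mul, mul_inv_cancel₀ (by simpa using hp), map_one] at this
      · refine ih _ (hn ▸ natDegree_derivative_lt h0) _ rfl (derivative_ne_zero.2 h0) fun g => ?_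
        have := a2 (p * g)
        rw [mul_left_comm, h, derivative_mul, map_add, h, add_zero] at this
        exact this.symm
  obtain ⟨p, h4, h5⟩ := (IsIntegral.of_finite F x).isAlgebraic
  simpa [Φ, mul_assoc] using a3 _ p rfl h4 fun g => by simp [Φ, h5]

def gmo (F : Type) [Field F] : ℕ → F
  | 0 => 1
  | 1 => 0
  | n + 2 => (n + 1) * gmo F n

theorem exists_gauss (F : Type) [Field F] :
    ∃ γ : F[X] →ₗ[F] F, γ 1 = 1 ∧ ∀ f, γ (X * f - derivative f) = 0 := by
  have e : ∀ n, (basisMonomials F).constr F (gmo F) (X ^ n) = gmo F n := fun n => by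
    rw [show (X ^ n : F[X]) = basisMonomials F n by simp [X_pow_eq_monomial],
      Module.Basis.constr_basis]
  refine ⟨(basisMonomials F).constr F (gmo F), by simpa [gmo] using e 0, fun f => ?_⟩
  induction f using Polynomial.induction_on' with
  | add p q hp hq => rw [mul_add, map_add, add_sub_add_comm, map_add, hp, hq, add_zero]
  | monomial n a =>
    rw [← C_mul_X_pow_eq_monomial, ← smul_eq_C_mul, map_smul, mul_smul_comm, ← smul_sub, map_smul,
      ← pow_succ', map_sub, e, derivative_X_pow, ← smul_eq_C_mul, map_smul, e]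
    rcases n with _ | n <;> simp [gmo]

end Pool.Agent.Lib.MP_038c09_al.As
end

-- part Pool.Agent.Lib.MP_038c09_al.AsNeg4
section

/-! The fourth obstruction. -/

namespace Pool.Agent.Lib.MP_038c09_al.As

open Polynomial

variable {F : Type} [Field F] {I : Set (FA F ℕ)} {C : Type} [CommRing C] [Algebra F C]

/-- coefficient functionals of a ring of polynomials in `y`, `s` over `F[x]`. -/
structure Co (x y s : C) (c0 c1 c2 c3 : C →ₗ[F] F[X]) : Prop where
  hx : ∀ t, c0 (x * t) = X * c0 t ∧ c1 (x * t) = X * c1 t ∧ c2 (x * t) = X * c2 t ∧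
    c3 (x * t) = X * c3 t
  hy : ∀ t, c0 (y * t) = 0 ∧ c1 (y * t) = c0 t ∧ c2 (y * t) = 0 ∧ c3 (y * t) = c2 t
  hs : ∀ t, c0 (s * t) = 0 ∧ c1 (s * t) = 0 ∧ c2 (s * t) = c0 t ∧ c3 (s * t) = c1 t
  h1 : c0 1 = 1 ∧ c1 1 = 0 ∧ c2 1 = 0 ∧ c3 1 = 0

theorem exists_co (F : Type) [Field F] : ∃ (x y s : F[X][X][X]) (c0 c1 c2 c3 : _ →ₗ[F] F[X]),
    Co x y s c0 c1 c2 c3 := by
  let c : ℕ → ℕ → F[X][X][X] →ₗ[F] F[X] := fun a b =>
    (lcoeff _ a).restrictScalars F ∘ₗ (lcoeff _ b).restrictScalars F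
  exact ⟨Polynomial.C (Polynomial.C X), Polynomial.C X, X, c 0 0, c 1 0, c 0 1, c 1 1,
    fun t => by simp [c], fun t => by simp [c], fun t => by simp [c], by simp [c, coeff_one]⟩

variable (c0 c1 c2 c3 : C →ₗ[F] F[X])

def Wm : Submodule F (Fin 5 → C) where
  carrier := {v | c2 (v 1) = c0 (v 3) ∧ c3 (v 1) = c1 (v 3) ∧ c0 (v 2) = c1 (v 3) ∧
    c2 (v 2) = 0 ∧ c3 (v 2) = 0 ∧ c2 (v 3) = 0 ∧ c3 (v 3) = 0}
  add_mem' := fun ⟨a1, a2, a3, a4, a5, a6, a7⟩ ⟨b1, b2, b3, b4, b5, b6, b7⟩ => by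
    simp [a1, a2, a3, a4, a5, a6, a7, b1, b2, b3, b4, b5, b6, b7]
  zero_mem' := by simp
  smul_mem' := fun c v ⟨a1, a2, a3, a4, a5, a6, a7⟩ => by simp [a1, a2, a3, a4, a5, a6, a7]

def W0b : Submodule F (Fin 5 → C) where
  carrier := {v | v ∈ Wm c0 c1 c2 c3 ∧ c1 (v 4) = 0 ∧ c2 (v 4) = 0 ∧ c3 (v 4) = 0 ∧
    derivative (c0 (v 4)) = 0}
  add_mem' := fun ⟨a1, a2, a3, a4, a5⟩ ⟨b1, b2, b3, b4, b5⟩ =>
    ⟨add_mem a1 b1, by simp [a2, a3, a4, a5, b2, b3, b4, b5]⟩
  zero_mem' := ⟨zero_mem _, by simp⟩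
  smul_mem' := fun c v ⟨a1, a2, a3, a4, a5⟩ =>
    ⟨Submodule.smul_mem _ c a1, by simp [a2, a3, a4, a5]⟩

def W1b (γ : F[X] →ₗ[F] F) : Submodule F (Fin 5 → C) where
  carrier := {v | v ∈ Wm c0 c1 c2 c3 ∧ v 4 = 0 ∧ c0 (v 3) = 0 ∧
    c0 (v 1) = derivative (c1 (v 3)) ∧ γ (c0 (v 0) - derivative (c3 (v 0))) = 0}
  add_mem' := fun ⟨a1, a2, a3, a4, a5⟩ ⟨b1, b2, b3, b4, b5⟩ =>
    ⟨add_mem a1 b1, by simp [a2, b2], by simp [a3, b3], by simp [a4, b4], by
      simp only [Pi.add_apply, map_add, add_sub_add_comm, a5, b5, add_zero]⟩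
  zero_mem' := ⟨zero_mem _, by simp⟩
  smul_mem' := fun c v ⟨a1, a2, a3, a4, a5⟩ => ⟨Submodule.smul_mem _ c a1, by simp [a2],
    by simp [a3], by simp [a4], by
      simp only [Pi.smul_apply, map_smul, ← smul_sub, a5, smul_zero]⟩

variable {c0 c1 c2 c3}

theorem mem_Wm {v : Fin 5 → C} : v ∈ Wm c0 c1 c2 c3 ↔ c2 (v 1) = c0 (v 3) ∧ c3 (v 1) = c1 (v 3) ∧
    c0 (v 2) = c1 (v 3) ∧ c2 (v 2) = 0 ∧ c3 (v 2) = 0 ∧ c2 (v 3) = 0 ∧ c3 (v 3) = 0 := Iff.rfl

theorem mem_W0b {v : Fin 5 → C} : v ∈ W0b c0 c1 c2 c3 ↔ v ∈ Wm c0 c1 c2 c3 ∧ c1 (v 4) = 0 ∧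
    c2 (v 4) = 0 ∧ c3 (v 4) = 0 ∧ derivative (c0 (v 4)) = 0 := Iff.rfl

theorem mem_W1b {γ : F[X] →ₗ[F] F} {v : Fin 5 → C} : v ∈ W1b c0 c1 c2 c3 γ ↔
    v ∈ Wm c0 c1 c2 c3 ∧ v 4 = 0 ∧ c0 (v 3) = 0 ∧ c0 (v 1) = derivative (c1 (v 3)) ∧
    γ (c0 (v 0) - derivative (c3 (v 0))) = 0 := Iff.rfl

def yb (x y s : C) : Fin 4 → Matrix (Fin 5) (Fin 5) C :=
  ![!![0, 1, 0, 0, 0; 0, 0, 0, 0, 0; 0, 0, 0, 0, 0; 0, 0, 0, 0, 0; 0, 0, 0, 0, 0],
    !![0, 0, 0, 0, 0; 0, x, 1, 0, 0; 0, 0, x, 0, 0; 0, 0, 0, x, 0; 0, 0, 0, 0, 0],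
    !![0, 0, 0, 0, 0; 0, y, 0, 0, 0; 0, 0, y, 1, 0; 0, 0, 0, y, 0; 0, 0, 0, 0, 0],
    !![0, 0, 0, 0, 0; 0, 0, 0, 0, s; 0, 0, 0, 0, 0; 0, 0, 0, 0, 1; 0, 0, 0, 0, 0]]

theorem yb_mem (x y s : C) (t : Fin 4) : yb x y s t ∈ PatS F C ![0, 1, 1, 1, 0] := by
  refine ⟨fun i j h => ?_, fun i h => ?_, fun i j h => ?_⟩
  · fin_cases i <;> fin_cases j <;> first | exact absurd h (by decide) | (fin_cases t <;> rfl)
  · fin_cases i <;> first | exact absurd h (by decide) | (fin_cases t <;> rfl)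
  · fin_cases i <;> fin_cases j <;> first | exact absurd h (by decide) | (fin_cases t <;> rfl)

variable {x y s : C}

theorem eD0 (v : Fin 5 → C) : actM F C 5 (yb x y s 0) v = ![v 1, 0, 0, 0, 0] := by
  ext i; fin_cases i <;> simp [actM_apply, yb, Matrix.mulVec, dotProduct, Fin.sum_univ_succ]
theorem eD1 (v : Fin 5 → C) :
    actM F C 5 (yb x y s 1) v = ![0, x * v 1 + v 2, x * v 2, x * v 3, 0] := by
  ext i; fin_cases i <;> simp [actM_apply, yb, Matrix.mulVec, dotProduct, Fin.sum_univ_succ]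
theorem eD2 (v : Fin 5 → C) :
    actM F C 5 (yb x y s 2) v = ![0, y * v 1, y * v 2 + v 3, y * v 3, 0] := by
  ext i; fin_cases i <;> simp [actM_apply, yb, Matrix.mulVec, dotProduct, Fin.sum_univ_succ]
theorem eD3 (v : Fin 5 → C) : actM F C 5 (yb x y s 3) v = ![0, s * v 4, 0, v 4, 0] := by
  ext i; fin_cases i <;> simp [actM_apply, yb, Matrix.mulVec, dotProduct, Fin.sum_univ_succ]

theorem stD0 (h : Co x y s c0 c1 c2 c3) (t : Fin 4) :
    St (actM F C 5 (yb x y s t)) (W0b c0 c1 c2 c3) := fun v hv => by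
  obtain ⟨a0, a8, a9, a10, a11⟩ := mem_W0b.1 hv
  obtain ⟨a1, a2, a3, a4, a5, a6, a7⟩ := mem_Wm.1 a0
  rw [mem_W0b, mem_Wm]
  fin_cases t <;> simp [eD0, eD1, eD2, eD3, h.hx, h.hy, h.hs, *]

theorem stD1 (h : Co x y s c0 c1 c2 c3) (γ : F[X] →ₗ[F] F) (t : Fin 4) :
    St (actM F C 5 (yb x y s t)) (W1b c0 c1 c2 c3 γ) := fun v hv => by
  obtain ⟨a0, a8, a9, a10, a11⟩ := mem_W1b.1 hv
  obtain ⟨a1, a2, a3, a4, a5, a6, a7⟩ := mem_Wm.1 a0
  rw [mem_W1b, mem_Wm]
  fin_cases t <;> simp [eD0, eD1, eD2, eD3, h.hx, h.hy, add_comm, *]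

theorem eDz (v : Fin 5 → C) :
    actM F C 5 (yb x y s 1 * yb x y s 2 - yb x y s 2 * yb x y s 1) v = ![0, v 3, 0, 0, 0] := by
  simp only [map_sub, map_mul, LinearMap.sub_apply, Module.End.mul_apply, eD1, eD2]
  ext i : 1; fin_cases i <;> simp <;> ring

theorem neg4' [CharZero F] (hc : Co x y s c0 c1 c2 c3) (hA : asc F ∈ idealGen (TVal I ℕ))
    (h : Sat I (Pat F ![0, 1, 1, 1, 0])) : ¬ IsRFDVariety I := by
  classical
  obtain ⟨γ, g1, g2⟩ := exists_gauss F
  have ez : evf (yb x y s) (gn F 1 * gn F 2 - gn F 2 * gn F 1) =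
    yb x y s 1 * yb x y s 2 - yb x y s 2 * yb x y s 1 := by simp
  refine not_rfd hA (actM F C 5) (PatS_mul ![0, 1, 1, 1, 0]) (sat_ext h) (yb x y s) (yb_mem _ _ _)
    _ _ (stD0 hc) (stD1 hc γ)
    {(gn F 1 * gn F 2 - gn F 2 * gn F 1) * gn F 1 - gn F 1 * (gn F 1 * gn F 2 - gn F 2 * gn F 1),
      gn F 2 * gn F 3, gn F 0 * (gn F 2 + (gn F 1 * gn F 2 - gn F 2 * gn F 1) * gn F 1)}
    (gn F 0 * ((gn F 1 * gn F 2 - gn F 2 * gn F 1) * gn F 3))
    (fun r hr v hv => ?_) ⟨![0, 0, 0, 0, 1], by simp [mem_W0b, mem_Wm, hc.h1], fun h => ?_⟩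
    fun A _ _ _ z hz => ?_
  · obtain ⟨a0, a8, a9, a10, a11⟩ := mem_W0b.1 hv
    obtain ⟨a1, a2, a3, a4, a5, a6, a7⟩ := mem_Wm.1 a0
    simp only [Finset.mem_insert, Finset.mem_singleton] at hr
    generalize gn F 1 * gn F 2 - gn F 2 * gn F 1 = g at ez hr
    have ez' := eDz (F := F) (x := x) (y := y) (s := s)
    rw [← ez] at ez'
    rw [mem_W1b, mem_Wm]
    rcases hr with rfl | rfl | rfl <;> simp only [map_sub, map_mul, map_add,
      FreeNonUnitalNonAssocAlgebra.lift_of_apply, LinearMap.sub_apply, LinearMap.add_apply,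
      Module.End.mul_apply, eD1, eD2, eD3, ez']
    · simp
    · simp [hc.hy, hc.hs, a9, a10, a11]
    · simp only [eD0]
      simpa [hc.hx, hc.hy, a1, a7] using g2 (c0 (v 3))
  · rw [map_mul, map_mul (evf _), ez, map_mul, map_mul] at h
    simp only [FreeNonUnitalNonAssocAlgebra.lift_of_apply, Module.End.mul_apply, eD0, eDz,
      eD3] at h
    have := (mem_W1b.1 h).2.2.2.2
    simp [g1, hc.h1] at this
  · have a1 := hz _ (Finset.mem_insert_self _ _)
    have a2 := hz _ (Finset.mem_insert_of_mem (Finset.mem_insert_self _ _))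
    have a3 := hz _ (Finset.mem_insert_of_mem (Finset.mem_insert_of_mem
      (Finset.mem_singleton_self _)))
    simp only [map_sub, map_mul, map_add, FreeNonUnitalNonAssocAlgebra.lift_of_apply,
      sub_eq_zero] at a1 a2 a3 ⊢
    exact fd4 (F := F) rfl a1 a2 a3

theorem neg4 [CharZero F] (hA : asc F ∈ idealGen (TVal I ℕ))
    (h : Sat I (Pat F ![0, 1, 1, 1, 0])) : ¬ IsRFDVariety I :=
  let ⟨_, _, _, _, _, _, _, hc⟩ := exists_co F
  neg4' hc hA h

end Pool.Agent.Lib.MP_038c09_al.As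
end

-- part Pool.Agent.Lib.MP_038c09_al.As54
section

/-! A five-dimensional representation inside a four-dimensional one over dual numbers. -/

namespace Pool.Agent.Lib.MP_038c09_al.As

open Polynomial Finset

variable {F : Type} [Field F]
variable {Q : Type} [CommRing Q] [Algebra F Q]

noncomputable def m4 (c : Q) (n : Matrix (Fin 5) (Fin 5) Q) : Matrix (Fin 4) (Fin 4) Q[X] :=
  !![0, C (n 0 1) + X * C (c * n 0 2), X * C (c * n 0 3), X * C (c * n 0 4);
    0, C (n 1 1) + X * C (c * n 1 2), C (n 2 3) + X * C (c * n 1 3), C (n 2 4) + X * C (c * n 1 4);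
    0, 0, C (n 3 3), C (n 3 4); 0, 0, 0, 0]

variable (F) in
def R54 (c : Q) : Submodule F ((Fin 5 → Q) × (Fin 4 → Q[X])) where
  carrier := {v | v.2 3 = C (v.1 4) ∧ v.2 2 = C (v.1 3) ∧ (v.2 1).coeff 0 = v.1 2 ∧
    (v.2 1).coeff 1 = c * v.1 1 ∧ (v.2 0).coeff 1 = c * v.1 0}
  add_mem' := fun ⟨a1, a2, a3, a4, a5⟩ ⟨b1, b2, b3, b4, b5⟩ => by
    simp [a1, a2, a3, a4, a5, b1, b2, b3, b4, b5, mul_add]
  zero_mem' := by simp
  smul_mem' := fun r v ⟨a1, a2, a3, a4, a5⟩ => by simp [a1, a2, a3, a4, a5, smul_C]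

theorem st_pair {A A' V V' : Type} [Ring A] [Algebra F A] [Ring A'] [Algebra F A'] [AddCommGroup V]
    [Module F V] [AddCommGroup V'] [Module F V'] (α : A →ₐ[F] Module.End F V)
    (α' : A' →ₐ[F] Module.End F V') (y : ℕ → A) (y' : ℕ → A') (R : Submodule F (V × V'))
    (h : ∀ s, ∀ v ∈ R, (α (y s) v.1, α' (y' s) v.2) ∈ R) (g : FA F ℕ) :
    ∀ v ∈ R, (α (evf y g) v.1, α' (evf y' g) v.2) ∈ R := by
  induction g using FA_ind with
  | h0 => intro v _; simp only [map_zero]; exact zero_mem _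
  | h1 s => simpa using h s
  | h2 a b ha hb => intro v hv; simp only [map_add]; exact add_mem (ha v hv) (hb v hv)
  | h3 r a ha => intro v hv; simp only [map_smul]; exact Submodule.smul_mem _ r (ha v hv)
  | h4 a b ha hb => intro v hv; simp only [map_mul]; exact ha _ (hb v hv)

theorem lift54 (c κ : Q) (n : ℕ → Matrix (Fin 5) (Fin 5) Q) (h1 : ∀ s i j, j < i → n s i j = 0)
    (h2 : ∀ s, n s 0 0 = 0) (h3 : ∀ s, n s 4 4 = 0) (h4 : ∀ s, n s 2 2 = n s 1 1) (f : FA F ℕ)
    (h : ∀ i j, C κ * evf (fun s => m4 c (n s)) f i j = 0) (i j : Fin 5) :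
    κ * c * evf n f i j = 0 := by
  have key : ∀ g : FA F ℕ, ∀ v ∈ R54 F c,
      (actM F Q 5 (evf n g) v.1, actM F _ 4 (evf (fun s => m4 c (n s)) g) v.2) ∈ R54 F c :=
    st_pair _ _ _ _ _ fun s => by
      rintro v ⟨a1, a2, a3, a4, a5⟩
      have z := fun i j (h : j < i) => h1 s i j h
      refine ⟨?_, ?_, ?_, ?_, ?_⟩ <;> simp [actM_apply, m4, Matrix.mulVec, dotProduct,
        Fin.sum_univ_succ, add_mul, mul_assoc, a1, a2, a3, a4, h2, h3, h4, z 1 0, z 2 0, z 2 1,
        z 3 0, z 3 1, z 3 2, z 4 0, z 4 1, z 4 2, z 4 3, coeff_X_mul, coeff_C] <;> ring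
  let u : Fin 5 → Q := Pi.single j 1
  obtain ⟨a1, a2, a3, a4, a5⟩ := key f
    (u, ![X * C (c * u 0), C (u 2) + X * C (c * u 1), C (u 3), C (u 4)]) (by
      refine ⟨rfl, rfl, ?_, ?_, ?_⟩ <;> simp [-map_mul])
  generalize hv : actM F _ 4 (evf (fun s => m4 c (n s)) f) _ = v at a1 a2 a3 a4 a5
  have b : ∀ i k, κ * (v i).coeff k = 0 := fun i k => by
    rw [← coeff_C_mul, ← hv, actM_apply, Matrix.mulVec, dotProduct, mul_sum,
      sum_eq_zero fun j _ => by rw [← mul_assoc, h, zero_mul], coeff_zero]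
  have e : ∀ i, actM F Q 5 (evf n f) u i = evf n f i j := fun i => by simp [actM_apply, u]
  simp only [e] at a1 a2 a3 a4 a5
  have b3 := b 3 0
  have b2 := b 2 0
  rw [a1, coeff_C_zero] at b3
  rw [a2, coeff_C_zero] at b2
  fin_cases i
  · exact (mul_assoc _ _ _).trans (a5 ▸ b 0 1)
  · exact (mul_assoc _ _ _).trans (a4 ▸ b 1 1)
  · exact (mul_right_comm _ _ _).trans (by rw [show κ * _ = 0 from a3 ▸ b 1 0, zero_mul])
  · exact (mul_right_comm _ _ _).trans (mul_eq_zero_of_left b2 _)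
  · exact (mul_right_comm _ _ _).trans (mul_eq_zero_of_left b3 _)


end Pool.Agent.Lib.MP_038c09_al.As
end

-- part Pool.Agent.Lib.MP_038c09_al.AsCorner
section

/-! The corner entry of an identity in the universal triangular representation. -/

namespace Pool.Agent.Lib.MP_038c09_al.As

open MvPolynomial Finset

variable {F : Type} [Field F] {Λ : Type} [Ring Λ] [Algebra F Λ]

abbrev Fr (F : Type) [Field F] := FreeAlgebra F (Option ℕ)

theorem parse (h : Fr F) : h ∈ Submodule.span F {v | ∃ (w : ℕ → ℕ) (β : ℕ →₀ ℕ) (k : ℕ),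
    (∀ i, k < i → β i = 0) ∧
      v = val (FreeAlgebra.ι F none) (fun j => FreeAlgebra.ι F (some (w j))) β k} := by
  refine Submodule.span_mono ?_ ((gen_free (F := F) (Option ℕ)).words h)
  rintro _ ⟨l, rfl⟩
  induction l using List.reverseRecOn with
  | nil => exact ⟨id, 0, 0, by simp, by simp [val]⟩
  | append_singleton l o ih =>
    obtain ⟨w, β, k, h1, h2⟩ := ih
    simp only [List.map_append, List.prod_append, List.map_singleton, List.prod_singleton] at h2 ⊢
    cases o with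
    | none => exact ⟨w, β + Finsupp.single k 1, k, fun i hi => by simp [h1 i hi, hi.ne'], by
        rw [val_Xtop, h2]⟩
    | some i =>
      refine ⟨Function.update w k i, β, k + 1, fun j hj => h1 j (by omega), ?_⟩
      rw [val, h1 _ (Nat.lt_succ_self k), h2, val_congr _ (w := fun j => FreeAlgebra.ι F
        (some (Function.update w k i j))) (w' := fun j => FreeAlgebra.ι F
        (some (w j))) (β' := β) k (fun j hj => by rw [Function.update_of_ne hj.ne]) fun _ _ => rfl]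
      simp

theorem mon_eq_prod {β : ℕ →₀ ℕ} {k : ℕ} (h : ∀ i, k < i → β i = 0) :
    (monomial β 1 : MvPolynomial ℕ F) = ∏ i ∈ range (k + 1), X i ^ β i := by
  rw [monomial_eq, C_1, one_mul, Finsupp.prod_of_support_subset _ (s := range (k + 1))
    (fun i hi => mem_range.2 (by
      by_contra h'
      exact Finsupp.mem_support_iff.1 hi (h i (by omega)))) _ (by simp)]

section
variable {C : Type} [CommRing C] [Algebra F C]

def Ee (C : Type) [CommRing C] (D i : ℕ) : Matrix (Fin (D + 1)) (Fin (D + 1)) C :=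
  Matrix.of fun a b => if a.val = i ∧ b.val = i + 1 then 1 else 0

theorem mul_Ee {D : ℕ} (N : Matrix (Fin (D + 1)) (Fin (D + 1)) C) (i : ℕ) (a b : Fin (D + 1)) :
    (N * Ee C D i) a b = if h : b.val = i + 1 then N a ⟨i, by omega⟩ else 0 := by
  rw [Matrix.mul_apply]
  split_ifs with h
  · rw [sum_eq_single ⟨i, by omega⟩ (fun c _ hc => by
      have : ¬ c.val = i := fun e => hc (Fin.ext e)
      simp [Ee, this]) (by simp)]
    simp [Ee, h]
  · simp [Ee, h]

variable (F) in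
noncomputable def rhoM (μ : ℕ → C) (D : ℕ) : Fr F →ₐ[F] Matrix (Fin (D + 1)) (Fin (D + 1)) C :=
  FreeAlgebra.lift F fun o => o.elim (Matrix.diagonal fun i => μ i) (Ee C D)

theorem rho_val (μ : ℕ → C) (D : ℕ) (w β : ℕ → ℕ) (k : ℕ) (b : Fin (D + 1)) :
    val (Matrix.diagonal fun i : Fin (D + 1) => μ i) (fun j => Ee C D (w j)) β k 0 b =
      if b.val = k ∧ ∀ j < k, w j = j then ∏ i ∈ range (k + 1), μ i ^ β i else 0 := by
  induction k generalizing b with
  | zero =>
    rw [val, Matrix.diagonal_pow, Matrix.diagonal_apply]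
    by_cases h : b = 0
    · simp [h]
    · rw [if_neg (Ne.symm h), if_neg fun e => h (Fin.ext e.1)]
  | succ k ih =>
    rw [val, ← mul_assoc, Matrix.diagonal_pow, Matrix.mul_diagonal, mul_Ee, prod_range_succ]
    by_cases h1 : b.val = w k + 1
    · rw [dif_pos h1, ih]
      by_cases h2 : w k = k ∧ ∀ j < k, w j = j
      · rw [if_pos h2, if_pos ⟨by omega, fun j hj => by
          rcases (Nat.lt_succ_iff.1 hj).eq_or_lt with rfl | h
          exacts [h2.1, h2.2 j h]⟩]
        simp [h1, h2.1]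
      · rw [if_neg h2, if_neg fun h => h2 ⟨h.2 k (by omega), fun j hj => h.2 j (by omega)⟩,
          zero_mul]
    · rw [dif_neg h1, if_neg fun h => h1 (by rw [h.1, h.2 k (by omega)]), zero_mul]

theorem rho_pr (μ : ℕ → C) (D i m : ℕ) (a b : Fin (D + 1)) :
    rhoM F μ D (pr (fun j => FreeAlgebra.ι F (some j)) i m) a b =
      if b.val = a.val + m ∧ (m = 0 ∨ a.val = i) then 1 else 0 := by
  induction m generalizing b with
  | zero => simp [pr, Matrix.one_apply, Fin.ext_iff, eq_comm]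
  | succ m ih =>
    rw [pr, map_mul, show rhoM F μ D (FreeAlgebra.ι F (some (i + m))) = Ee C D (i + m) by
      simp [rhoM], mul_Ee]
    split_ifs with h1 h2 h2
    · rw [ih, if_pos (by simp only; omega)]
    · rw [ih, if_neg (by simp only; omega)]
    · exact absurd (by have := h2.2.resolve_left (by simp); omega) h1
    · rfl

end

noncomputable def Xi (x : Λ) (y : ℕ → Λ) : Fr F →ₐ[F] AddMonoidAlgebra Λ (ℕ →₀ ℕ) :=
  FreeAlgebra.lift F fun o => o.elim (AddMonoidAlgebra.single 0 x)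
    fun i => AddMonoidAlgebra.single (Finsupp.single i 1) (y i)

theorem val_single (x : Λ) (y : ℕ → Λ) (d : ℕ → ℕ →₀ ℕ) (β : ℕ → ℕ) (k : ℕ) :
    val (AddMonoidAlgebra.single 0 x) (fun j => AddMonoidAlgebra.single (d j) (y j)) β k =
      AddMonoidAlgebra.single (∑ j ∈ range k, d j) (val x y β k) := by
  induction k with
  | zero => simp [val, AddMonoidAlgebra.single_pow]
  | succ k ih => simp [val, ih, AddMonoidAlgebra.single_pow, sum_range_succ]

noncomputable def ML (x : Λ) (D : ℕ) : Fr F →ₗ[F] ((ℕ → Λ) → Λ) where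
  toFun := fun h y => (Xi x y h).coeff (∑ i ∈ range D, Finsupp.single i 1)
  map_add' := fun a b => by ext; simp
  map_smul' := fun c a => by ext; simp

def Van (ε : Λ →ₐ[F] F) : Submodule F ((ℕ → Λ) → Λ) where
  carrier := {G | ∀ y, (∀ i, y i ∈ Bk ε) → G y = 0}
  add_mem' := fun ha hb y hy => by simp [ha y hy, hb y hy]
  zero_mem' := fun _ _ => rfl
  smul_mem' := fun c G h y hy => by simp [h y hy]

theorem ML_van [CharZero F] {ε : Λ →ₐ[F] F} (x : Λ) (D : ℕ) {h : Fr F}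
    (hh : ∀ y : ℕ → Λ, (∀ i, y i ∈ Bk ε) → FreeAlgebra.lift F (fun o => Option.elim o x y) h = 0) :
    ML x D h ∈ Van ε := fun y hy => by
  by_contra hne
  refine hne (vanish (F := F) (Xi x y h).coeff.support (fun d => (Xi x y h).coeff d) (fun l => ?_)
    (Finsupp.mem_support_iff.2 hne))
  rw [← evW_apply (F := F), ← hh (fun i => l i • y i) fun i => Submodule.smul_mem _ _ (hy i)]
  exact AlgHom.congr_fun (FreeAlgebra.hom_ext (f := (evW F l).comp (Xi x y)) (by
    ext o; cases o <;> simp [Xi, evW_single, mw])) h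

noncomputable def EvF (x : Λ) (w : ℕ → ℕ) (D : ℕ) : MvPolynomial ℕ F →ₗ[F] ((ℕ → Λ) → Λ) :=
  LinearMap.pi fun y => Ev x (fun j => y (w j)) D

def Good (D : ℕ) (w : ℕ → ℕ) : Prop :=
  (∀ i < D, ∃ j < D, w j = i) ∧ (∀ j < D, ∀ j' < D, w j = w j' → j = j') ∧ ∀ j < D, w j < D

theorem good_of {k D : ℕ} {w : ℕ → ℕ} (h : ∑ j ∈ range k, Finsupp.single (w j) 1 =
    ∑ i ∈ range D, Finsupp.single i 1) : k = D ∧ Good D w := by
  have h1 : (range k).val.map w = (range D).val := by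
    have := congrArg Finsupp.toMultiset h
    simp only [map_sum, Finsupp.toMultiset_single, one_nsmul, sum_multiset_singleton] at this
    rw [← this, ← Multiset.sum_map_singleton (Multiset.map w _), Multiset.map_map]; rfl
  obtain rfl : k = D := by simpa using congrArg Multiset.card h1
  refine ⟨rfl, fun i hi => ?_, fun j hj j' hj' => ?_, fun j hj => ?_⟩
  · simpa using Multiset.mem_map.1 (by rw [h1]; exact mem_range.2 hi : i ∈ (range k).val.map w)
  · exact (Multiset.nodup_map_iff_inj_on (range k).nodup).1 (by rw [h1]; exact (range k).nodup) j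
      (mem_range.2 hj) j' (mem_range.2 hj')
  · exact mem_range.1 (h1 ▸ Multiset.mem_map_of_mem w (mem_range.2 hj) : w j ∈ (range k).val)

theorem corner [CharZero F] {ε : Λ →ₐ[F] F} (x : Λ) {D : ℕ} {Ω : Module.End F ((ℕ → Λ) → Λ)}
    (hΩ : St Ω (Van ε)) {κ : MvPolynomial ℕ F} (hκ : ∀ w, Good D w → ∀ p, Ω (EvF x w D p) =
      if ∀ i < D, w i = i then EvF x id D (κ * p) else 0) {h : Fr F}
    (hh : ∀ y : ℕ → Λ, (∀ i, y i ∈ Bk ε) → FreeAlgebra.lift F (fun o => Option.elim o x y) h = 0) :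
    κ * rhoM F X D h 0 (Fin.last D) ∈ kI x D (Bk ε) (isId_Bk ε) := by
  have key := span_ind (Ω ∘ₗ ML x D - EvF x id D ∘ₗ LinearMap.mulLeft F κ ∘ₗ
    Matrix.entryLinearMap F _ 0 (Fin.last D) ∘ₗ (rhoM F X D).toLinearMap) ⊥ (by
      rintro _ ⟨w, β, k, h1, rfl⟩
      refine sub_eq_zero.2 ?_
      simp only [LinearMap.comp_apply, AlgHom.toLinearMap_apply, Matrix.entryLinearMap_apply,
        LinearMap.mulLeft_apply, map_val, rhoM, FreeAlgebra.lift_ι_apply, Option.elim, rho_val,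
        Fin.val_last]
      have e : ∀ y, ML x D (val (FreeAlgebra.ι F none) (fun j => FreeAlgebra.ι F (some (w j))) β k)
          y = if ∑ j ∈ range k, Finsupp.single (w j) 1 = ∑ i ∈ range D, Finsupp.single i 1 then
          val x (fun j => y (w j)) β k else 0 := fun y => by
        simp [ML, Xi, map_val, val_single, Finsupp.single_apply]
      by_cases h2 : ∑ j ∈ range k, Finsupp.single (w j) 1 = ∑ i ∈ range D, Finsupp.single i 1
      · obtain ⟨rfl, h3⟩ := good_of h2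
        rw [show ML x k _ = EvF x w k (monomial β (1 : F)) from funext fun y => by
          rw [e, if_pos h2]; simp [EvF, Ev_mon], hκ w h3, mon_eq_prod h1]
        split_ifs <;> simp_all
      · rw [show ML x D _ = 0 from funext fun y => by rw [e, if_neg h2]; rfl, if_neg]
        · simp
        · rintro ⟨rfl, h3⟩
          exact h2 (sum_congr rfl fun j hj => by rw [h3 j (mem_range.1 hj)])) (parse h)
  intro y hy
  have := hΩ _ (ML_van x D hh) y hy
  rwa [show Ω (ML x D h) = _ from sub_eq_zero.1 key] at this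

variable (F) in
def oLR (b : Bool) (x : Λ) : Module.End F ((ℕ → Λ) → Λ) := (LR F b x).compLeft _

variable (F) in
def olr (b : Bool) (x : Λ) (i : ℕ) : Module.End F ((ℕ → Λ) → Λ) :=
  LinearMap.funLeft F Λ fun y => Function.update y i (LR F b x (y i))

theorem st_oLR (ε : Λ →ₐ[F] F) (b : Bool) (x : Λ) : St (oLR F b x) (Van ε) :=
  fun G h y hy => by simp [oLR, h y hy]

theorem st_olr (ε : Λ →ₐ[F] F) (b : Bool) (x : Λ) (i : ℕ) : St (olr F b x i) (Van ε) :=
  fun G h y hy => h _ fun j => by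
    by_cases hj : j = i
    · subst hj; simpa using (isId_Bk ε).st b x _ (hy j)
    · simpa [Function.update_of_ne hj] using hy j

theorem oL_Ev (x : Λ) (w : ℕ → ℕ) (D : ℕ) (p : MvPolynomial ℕ F) :
    oLR F true x (EvF x w D p) = EvF x w D (X 0 * p) := funext fun _ => (Ev_X0 _ _ _ _).symm

theorem oR_Ev (x : Λ) (w : ℕ → ℕ) (D : ℕ) (p : MvPolynomial ℕ F) :
    oLR F false x (EvF x w D p) = EvF x w D (X D * p) := funext fun _ => (Ev_Xtop _ _ _ _).symm

theorem olr_Ev (x : Λ) {w : ℕ → ℕ} {D j : ℕ} (h : Good D w) (hj : j < D) (b : Bool)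
    (p : MvPolynomial ℕ F) :
    olr F b x (w j) (EvF x w D p) = EvF x w D (X (if b then j else j + 1) * p) :=
  funext fun y => by
  have : Ev x (fun i => Function.update y (w j) (LR F b x (y (w j))) (w i)) D p =
      Ev x (Function.update (fun i => y (w i)) j (LR F b x (y (w j)))) D p :=
    Ev_congr _ _ (fun i hi => by
      by_cases e : i = j
      · simp [e]
      · rw [Function.update_of_ne e, Function.update_of_ne fun e' => e (h.2.1 i hi j hj e')]) _
  refine this.trans ?_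
  cases b
  exacts [(Ev_Xr _ _ _ _ hj _).symm, (Ev_Xl _ _ _ _ hj _).symm]

theorem EvF_id (x : Λ) {w : ℕ → ℕ} {D : ℕ} (h : ∀ i < D, w i = i) (p : MvPolynomial ℕ F) :
    EvF x w D p = EvF x id D p := funext fun _ => Ev_congr _ _ (fun i hi => by rw [h i hi]; rfl) _

theorem corner2 [CharZero F] {ε : Λ →ₐ[F] F} (x : Λ) {h : Fr F}
    (hh : ∀ y : ℕ → Λ, (∀ i, y i ∈ Bk ε) → FreeAlgebra.lift F (fun o => Option.elim o x y) h = 0) :
    (X 0 - X 1) * rhoM F X 2 h 0 (Fin.last 2) ∈ kI x 2 (Bk ε) (isId_Bk ε) := by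
  refine corner x ((st_oLR ε true x).sub (st_olr ε true x 1)) (fun w hw p => ?_) hh
  obtain ⟨j, h1, h2⟩ := hw.1 1 (by omega)
  have := olr_Ev x hw h1 true p
  rw [h2] at this
  rw [LinearMap.sub_apply, oL_Ev, this, ← map_sub, ← sub_mul, if_pos rfl]
  have a1 := hw.2.1 0 (by omega) 1 (by omega)
  have a2 := hw.2.2 0 (by omega)
  interval_cases j
  · rw [if_neg fun h => by have := h 0 (by omega); omega]; simp
  · have : ∀ i < 2, w i = i := fun i hi => by interval_cases i <;> omega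
    rw [if_pos this, EvF_id x this]

theorem corner3 [CharZero F] {ε : Λ →ₐ[F] F} (x : Λ) {h : Fr F}
    (hh : ∀ y : ℕ → Λ, (∀ i, y i ∈ Bk ε) → FreeAlgebra.lift F (fun o => Option.elim o x y) h = 0) :
    (X 0 - X 1) * (X 0 - X 2) * (X 3 - X 2) * rhoM F X 3 h 0 (Fin.last 3) ∈
      kI x 3 (Bk ε) (isId_Bk ε) := by
  refine corner x ((((st_oLR ε true x).sub (st_olr ε true x 1)).mul ((st_oLR ε true x).sub
    (st_olr ε true x 2))).mul ((st_oLR ε false x).sub (st_olr ε false x 1))) (fun w hw p => ?_) hh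
  obtain ⟨j, h1, h2⟩ := hw.1 1 (by omega)
  obtain ⟨j', h3, h4⟩ := hw.1 2 (by omega)
  have b1 := olr_Ev (F := F) x hw h1
  have b2 := olr_Ev (F := F) x hw h3
  rw [h2] at b1
  rw [h4] at b2
  simp only [Module.End.mul_apply, LinearMap.sub_apply, oL_Ev, oR_Ev, b1, b2, ← map_sub, ← sub_mul,
    if_true, Bool.false_eq_true, if_false]
  have a1 := hw.2.1 0 (by omega) 1 (by omega)
  have a2 := hw.2.1 0 (by omega) 2 (by omega)
  have a3 := hw.2.2 0 (by omega)
  split_ifs with h5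
  · obtain rfl : j = 1 := by rw [← h5 j h1, h2]
    obtain rfl : j' = 2 := by rw [← h5 j' h3, h4]
    rw [EvF_id x h5]; congr 1; ring
  · have : j = 0 ∨ j' = 0 ∨ j = 2 := by
      by_contra hn
      obtain rfl : j = 1 := by omega
      have : j' ≠ 1 := fun e => by rw [e] at h4; omega
      obtain rfl : j' = 2 := by omega
      exact h5 fun i hi => by interval_cases i <;> omega
    rcases this with rfl | rfl | rfl <;> simp

end Pool.Agent.Lib.MP_038c09_al.As
end
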