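import Mathlib
import Pool.Agent.Lib.MP_038c09_al.Krull

-- part Pool.Agent.Lib.MP_038c09_al.AsEv
section

/-! Insertion calculus: polynomials in commuting variables `X i` act on a product
`w 0 * ... * w (D-1)` by inserting powers of `x` at the cut number `i`. -/

namespace Pool.Agent.Lib.MP_038c09_al.As

open MvPolynomial

variable {F : Type} [Field F] {Λ : Type} [Ring Λ] [Algebra F Λ]

/-- `x ^ β 0 * w 0 * x ^ β 1 * ... * w (D-1) * x ^ β D`. -/
def val (x : Λ) (w : ℕ → Λ) (β : ℕ → ℕ) : ℕ → Λ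
  | 0 => x ^ β 0
  | D + 1 => val x w β D * (w D * x ^ β (D + 1))

/-- product of `w c, ..., w (c+k-1)`. -/
def pr (w : ℕ → Λ) (c : ℕ) : ℕ → Λ
  | 0 => 1
  | k + 1 => pr w c k * w (c + k)

noncomputable def Ev (x : Λ) (w : ℕ → Λ) (D : ℕ) : MvPolynomial ℕ F →ₗ[F] Λ :=
  (basisMonomials ℕ F).constr F fun β => val x w β D

theorem Ev_mon (x : Λ) (w : ℕ → Λ) (D : ℕ) (β : ℕ →₀ ℕ) (c : F) :
    Ev x w D (monomial β c) = c • val x w β D := by
  have : (monomial β c : MvPolynomial ℕ F) = c • basisMonomials ℕ F β := by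
    simp [smul_monomial]
  rw [this, map_smul, Ev, Module.Basis.constr_basis]

theorem mon_ext {M : Type} [AddCommGroup M] [Module F M] {f g : MvPolynomial ℕ F →ₗ[F] M}
    (h : ∀ β, f (monomial β 1) = g (monomial β 1)) (p : MvPolynomial ℕ F) : f p = g p :=
  LinearMap.congr_fun ((basisMonomials ℕ F).ext fun β => by simpa using h β) p

theorem val_congr (x : Λ) {w w' : ℕ → Λ} {β β' : ℕ → ℕ} (D : ℕ) (hw : ∀ i < D, w i = w' i)
    (hb : ∀ i ≤ D, β i = β' i) : val x w β D = val x w' β' D := by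
  induction D with
  | zero => simp [val, hb 0 le_rfl]
  | succ D ih =>
    rw [val, val, ih (fun i hi => hw i (by omega)) (fun i hi => hb i (by omega)), hw D (by omega),
      hb _ le_rfl]

theorem Ev_congr (x : Λ) {w w' : ℕ → Λ} (D : ℕ) (hw : ∀ i < D, w i = w' i)
    (p : MvPolynomial ℕ F) : Ev x w D p = Ev x w' D p :=
  mon_ext (fun β => by rw [Ev_mon, Ev_mon, val_congr x D hw fun _ _ => rfl]) p

theorem pr_congr {w w' : ℕ → Λ} {c c' : ℕ} (k : ℕ) (hw : ∀ i < k, w (c + i) = w' (c' + i)) :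
    pr w c k = pr w' c' k := by
  induction k with
  | zero => rfl
  | succ k ih => rw [pr, pr, ih fun i hi => hw i (by omega), hw k (by omega)]

theorem pr_add (w : ℕ → Λ) (c k l : ℕ) : pr w c (k + l) = pr w c k * pr w (c + k) l := by
  induction l with
  | zero => simp [pr]
  | succ l ih => rw [← add_assoc, pr, pr, ih, mul_assoc, add_assoc]

theorem pr_one (w : ℕ → Λ) (c : ℕ) : pr w c 1 = w c := by simp [pr]

theorem val_gap (x : Λ) (w : ℕ → Λ) (β : ℕ → ℕ) (c k : ℕ) (h : ∀ i, c < i → i ≤ c + k → β i = 0) :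
    val x w β (c + k) = val x w β c * pr w c k := by
  induction k with
  | zero => simp [pr]
  | succ k ih =>
    rw [← add_assoc, val, ih fun i h1 h2 => h i h1 (by omega), h _ (by omega) (by omega), pr]
    simp [mul_assoc]

theorem val_zero (x : Λ) (w : ℕ → Λ) (D : ℕ) : val x w 0 D = pr w 0 D := by
  have := val_gap x w 0 0 D fun _ _ _ => rfl
  simpa [val] using this

theorem Ev_one (x : Λ) (w : ℕ → Λ) (D : ℕ) : Ev x w D (1 : MvPolynomial ℕ F) = pr w 0 D := by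
  have := Ev_mon x w D 0 (1 : F)
  simpa [val_zero] using this

theorem X_mul_mon (i : ℕ) (β : ℕ →₀ ℕ) :
    (X i * monomial β 1 : MvPolynomial ℕ F) = monomial (β + Finsupp.single i 1) 1 := by
  rw [X, monomial_mul, add_comm, mul_one]

theorem val_X0 (x : Λ) (w : ℕ → Λ) (β : ℕ →₀ ℕ) (D : ℕ) :
    val x w (β + Finsupp.single 0 1 : ℕ →₀ ℕ) D = x * val x w β D := by
  induction D with
  | zero => simp [val, pow_succ']
  | succ D ih => rw [val, val, ih]; simp [mul_assoc]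

theorem Ev_X0 (x : Λ) (w : ℕ → Λ) (D : ℕ) (p : MvPolynomial ℕ F) :
    Ev x w D (X 0 * p) = x * Ev x w D p :=
  mon_ext (f := Ev x w D ∘ₗ LinearMap.mulLeft F (X 0)) (g := LinearMap.mulLeft F x ∘ₗ Ev x w D)
    (fun β => by
      simp only [LinearMap.comp_apply, LinearMap.mulLeft_apply, X_mul_mon, Ev_mon, val_X0,
        one_smul]) p

theorem val_Xtop (x : Λ) (w : ℕ → Λ) (β : ℕ →₀ ℕ) (D : ℕ) :
    val x w (β + Finsupp.single D 1 : ℕ →₀ ℕ) D = val x w β D * x := by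
  cases D with
  | zero => simp [val, pow_succ]
  | succ D =>
    rw [val, val, val_congr x (w' := w) (β' := β) D (fun _ _ => rfl)
      fun i hi => by simp [Finsupp.single_apply]; omega]
    simp [mul_assoc, pow_succ]

theorem Ev_Xtop (x : Λ) (w : ℕ → Λ) (D : ℕ) (p : MvPolynomial ℕ F) :
    Ev x w D (X D * p) = Ev x w D p * x :=
  mon_ext (f := Ev x w D ∘ₗ LinearMap.mulLeft F (X D)) (g := LinearMap.mulRight F x ∘ₗ Ev x w D)
    (fun β => by
      simp only [LinearMap.comp_apply, LinearMap.mulLeft_apply, LinearMap.mulRight_apply,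
        X_mul_mon, Ev_mon, val_Xtop, one_smul]) p

theorem val_Xr (x : Λ) (w : ℕ → Λ) (β : ℕ →₀ ℕ) (i D : ℕ) (h : i < D) :
    val x w (β + Finsupp.single (i + 1) 1 : ℕ →₀ ℕ) D =
      val x (Function.update w i (w i * x)) β D := by
  induction D, h using Nat.le_induction with
  | base =>
    rw [val_Xtop, val, val, val_congr x (w' := Function.update w i (w i * x)) (β' := β) i
      (fun j hj => by rw [Function.update_of_ne (by omega)]) fun _ _ => rfl]
    simp [mul_assoc, pow_mul_comm']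
  | succ D hD ih =>
    rw [val, val, ih, Function.update_of_ne (by omega)]
    simp [show i ≠ D by omega]

theorem Ev_Xr (x : Λ) (w : ℕ → Λ) (i D : ℕ) (h : i < D) (p : MvPolynomial ℕ F) :
    Ev x w D (X (i + 1) * p) = Ev x (Function.update w i (w i * x)) D p :=
  mon_ext (f := Ev x w D ∘ₗ LinearMap.mulLeft F (X (i + 1)))
    (g := Ev x (Function.update w i (w i * x)) D)
    (fun β => by
      simp only [LinearMap.comp_apply, LinearMap.mulLeft_apply, X_mul_mon, Ev_mon,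
        val_Xr _ _ _ _ _ h]) p

theorem val_Xl (x : Λ) (w : ℕ → Λ) (β : ℕ →₀ ℕ) (i D : ℕ) (h : i < D) :
    val x w (β + Finsupp.single i 1 : ℕ →₀ ℕ) D =
      val x (Function.update w i (x * w i)) β D := by
  induction D, h using Nat.le_induction with
  | base =>
    rw [val, val, val_Xtop, val_congr x (w' := Function.update w i (x * w i)) (β' := β) i
      (fun j hj => by rw [Function.update_of_ne (by omega)]) fun _ _ => rfl]
    simp [mul_assoc]
  | succ D hD ih =>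
    rw [val, val, ih, Function.update_of_ne (by omega)]
    simp [show i ≠ D + 1 by omega]

theorem Ev_Xl (x : Λ) (w : ℕ → Λ) (i D : ℕ) (h : i < D) (p : MvPolynomial ℕ F) :
    Ev x w D (X i * p) = Ev x (Function.update w i (x * w i)) D p :=
  mon_ext (f := Ev x w D ∘ₗ LinearMap.mulLeft F (X i))
    (g := Ev x (Function.update w i (x * w i)) D)
    (fun β => by
      simp only [LinearMap.comp_apply, LinearMap.mulLeft_apply, X_mul_mon, Ev_mon,
        val_Xl _ _ _ _ _ h]) p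

theorem Ev_Xbig (x : Λ) (w : ℕ → Λ) (i D : ℕ) (h : D < i) (p : MvPolynomial ℕ F) :
    Ev x w D (X i * p) = Ev x w D p :=
  mon_ext (f := Ev x w D ∘ₗ LinearMap.mulLeft F (X i)) (g := Ev x w D)
    (fun β => by
      simp only [LinearMap.comp_apply, LinearMap.mulLeft_apply, X_mul_mon, Ev_mon]
      rw [val_congr x (w' := w) (β' := β) D (fun _ _ => rfl)
        fun j hj => by simp [Finsupp.single_apply]; omega]) p

theorem val_shift (x : Λ) (w : ℕ → Λ) (β : ℕ → ℕ) (D : ℕ) :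
    val x w β (D + 1) = x ^ β 0 * w 0 * val x (fun i => w (i + 1)) (fun i => β (i + 1)) D := by
  induction D with
  | zero => simp [val, mul_assoc]
  | succ D ih => rw [val, ih, val]; simp [mul_assoc]

theorem Ev_shift (x : Λ) (w : ℕ → Λ) (D : ℕ) (p : MvPolynomial ℕ F) :
    Ev x w (D + 1) (rename Nat.succ p) = w 0 * Ev x (fun i => w (i + 1)) D p :=
  mon_ext (f := Ev x w (D + 1) ∘ₗ (rename Nat.succ).toLinearMap)
    (g := LinearMap.mulLeft F (w 0) ∘ₗ Ev x (fun i => w (i + 1)) D)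
    (fun β => by
      simp only [LinearMap.comp_apply, AlgHom.toLinearMap_apply, rename_monomial, Ev_mon,
        LinearMap.mulLeft_apply, one_smul, val_shift]
      rw [Finsupp.mapDomain_of_notMem_range _ _ (by simp)]
      simp only [pow_zero, one_mul]
      congr 2
      ext i
      exact Finsupp.mapDomain_apply Nat.succ_injective β i) p

/-- the pieces after grouping along the cuts `ι 0 < ι 1 < ...`. -/
def grp (w : ℕ → Λ) (ι : ℕ → ℕ) (a : ℕ) : Λ := pr w (ι a) (ι (a + 1) - ι a)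

theorem val_rename (x : Λ) (w : ℕ → Λ) {ι : ℕ → ℕ} (hι : StrictMono ι) (γ : ℕ →₀ ℕ) (b : ℕ) :
    val x w (γ.mapDomain ι) (ι b) = pr w 0 (ι 0) * val x (grp w ι) γ b := by
  have h0 : ∀ i, (∀ a, ι a ≠ i) → (γ.mapDomain ι) i = 0 := fun i hi =>
    Finsupp.mapDomain_of_notMem_range _ _ (by rintro ⟨a, ha⟩; exact hi a ha)
  have h1 : ∀ a, (γ.mapDomain ι) (ι a) = γ a := Finsupp.mapDomain_apply hι.injective γ
  induction b with
  | zero =>
    rcases h : ι 0 with _ | k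
    · rw [val, val, ← h1 0, h]; simp [pr]
    · have := val_gap x w (γ.mapDomain ι) 0 k fun i _ hi => h0 i fun a ha => by
        have := hι.monotone (Nat.zero_le a); omega
      rw [zero_add] at this
      have h2 := h1 0
      rw [h] at h2
      rw [show val x w (γ.mapDomain ι) (k + 1) = _ * (w k * x ^ (γ.mapDomain ι) (k + 1)) from rfl,
        this, h2, val, val, h0 0 fun a ha => by have := hι.monotone (Nat.zero_le a); omega, pr]
      simp [mul_assoc]
  | succ b ih =>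
    obtain ⟨k, hk⟩ : ∃ k, ι (b + 1) = ι b + k + 1 :=
      ⟨ι (b + 1) - ι b - 1, by have := hι (Nat.lt_succ_self b); simp at this; omega⟩
    have := val_gap x w (γ.mapDomain ι) (ι b) k fun i h2 h3 => h0 i fun a ha => by
      have a1 : b < a := hι.lt_iff_lt.1 (by omega)
      have := hι.monotone (show b + 1 ≤ a by omega); omega
    rw [hk, val, this, ih, ← hk, h1, val, grp, hk, show ι b + k + 1 - ι b = k + 1 by omega, pr]
    simp [mul_assoc]

theorem Ev_rename (x : Λ) (w : ℕ → Λ) {ι : ℕ → ℕ} (hι : StrictMono ι) {b D : ℕ} (h1 : ι b ≤ D)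
    (h2 : D < ι (b + 1)) (p : MvPolynomial ℕ F) :
    Ev x w D (rename ι p) = pr w 0 (ι 0) * Ev x (grp w ι) b p * pr w (ι b) (D - ι b) :=
  mon_ext (f := Ev x w D ∘ₗ (rename ι).toLinearMap)
    (g := LinearMap.mulRight F (pr w (ι b) (D - ι b)) ∘ₗ LinearMap.mulLeft F (pr w 0 (ι 0)) ∘ₗ
      Ev x (grp w ι) b)
    (fun γ => by
      simp only [LinearMap.comp_apply, AlgHom.toLinearMap_apply, rename_monomial, Ev_mon,
        LinearMap.mulLeft_apply, LinearMap.mulRight_apply, one_smul]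
      rw [← val_rename x w hι, ← val_gap, Nat.add_sub_cancel' h1]
      intro i h3 h4
      refine Finsupp.mapDomain_of_notMem_range _ _ ?_
      rintro ⟨a, rfl⟩
      have a1 : b < a := hι.lt_iff_lt.1 h3
      have := hι.monotone (show b + 1 ≤ a by omega); omega) p

theorem map_val {Λ' : Type} [Ring Λ'] [Algebra F Λ'] (φ : Λ →ₐ[F] Λ') (x : Λ) (w : ℕ → Λ)
    (β : ℕ → ℕ) (D : ℕ) : φ (val x w β D) = val (φ x) (fun i => φ (w i)) β D := by
  induction D with
  | zero => simp [val]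
  | succ D ih => simp [val, ih]

theorem map_Ev {Λ' : Type} [Ring Λ'] [Algebra F Λ'] (φ : Λ →ₐ[F] Λ') (x : Λ) (w : ℕ → Λ)
    (D : ℕ) (p : MvPolynomial ℕ F) : φ (Ev x w D p) = Ev (φ x) (fun i => φ (w i)) D p :=
  mon_ext (f := φ.toLinearMap ∘ₗ Ev x w D) (fun β => by simp [Ev_mon, map_val]) p

/-- A two-sided ideal, as a subspace. -/
def IsId (J : Submodule F Λ) : Prop := ∀ a b : Λ, b ∈ J → a * b ∈ J ∧ b * a ∈ J

theorem isId_bot : IsId (⊥ : Submodule F Λ) := fun a b h => by simp_all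
theorem isId_top : IsId (⊤ : Submodule F Λ) := fun _ _ _ => ⟨trivial, trivial⟩
theorem IsId.sup {J J' : Submodule F Λ} (h : IsId J) (h' : IsId J') : IsId (J ⊔ J') :=
  fun a b hb => by
    obtain ⟨c, hc, d, hd, rfl⟩ := Submodule.mem_sup.1 hb
    rw [mul_add, add_mul]
    exact ⟨Submodule.add_mem_sup (h a c hc).1 (h' a d hd).1,
      Submodule.add_mem_sup (h a c hc).2 (h' a d hd).2⟩

/-- If a property of families of pieces is kept by multiplying pieces by `x` on the right and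
`p` sends these families into the ideal `J`, so does every multiple of `p`. -/
theorem Ev_mul_mem (x : Λ) (D : ℕ) (J : Submodule F Λ) (hJ : ∀ b ∈ J, x * b ∈ J)
    (S : (ℕ → Λ) → Prop) (hS : ∀ w i, S w → S (Function.update w i (w i * x)))
    (p : MvPolynomial ℕ F) (hp : ∀ w, S w → Ev x w D p ∈ J) (h : MvPolynomial ℕ F) :
    ∀ w, S w → Ev x w D (h * p) ∈ J := by
  induction h using MvPolynomial.induction_on with
  | C c => intro w hw; rw [← smul_eq_C_mul, map_smul]; exact J.smul_mem c (hp w hw)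
  | add p q h1 h2 => intro w hw; rw [add_mul, map_add]; exact J.add_mem (h1 w hw) (h2 w hw)
  | mul_X q i h1 =>
    intro w hw
    rw [mul_comm q, mul_assoc]
    rcases i with _ | i
    · rw [Ev_X0]; exact hJ _ (h1 w hw)
    · by_cases hi : i < D
      · rw [Ev_Xr _ _ _ _ hi]; exact h1 _ (hS w i hw)
      · rw [Ev_Xbig _ _ _ _ (by omega)]; exact h1 w hw

/-- The polynomials that kill all families of `D` pieces taken from the ideal `B`. -/
def kI (x : Λ) (D : ℕ) (B : Submodule F Λ) (hB : IsId B) : Ideal (MvPolynomial ℕ F) where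
  carrier := {p | ∀ w : ℕ → Λ, (∀ i, w i ∈ B) → Ev x w D p = 0}
  add_mem' := fun h1 h2 w hw => by rw [map_add, h1 w hw, h2 w hw, add_zero]
  zero_mem' := fun w _ => map_zero _
  smul_mem' := fun h p hp => Ev_mul_mem x D ⊥ (by simp) (fun w => ∀ i, w i ∈ B)
    (fun w i hw j => by
      by_cases hj : j = i
      · subst hj; simpa using (hB x _ (hw j)).2
      · rw [Function.update_of_ne hj]; exact hw j) p hp h

theorem pr_mem {B : Submodule F Λ} (hB : IsId B) (w : ℕ → Λ) (c k i : ℕ) (hi : i < k)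
    (h : w (c + i) ∈ B) : pr w c k ∈ B := by
  induction k, hi using Nat.le_induction with
  | base => exact (hB _ _ h).1
  | succ k _ ih => exact (hB _ _ ih).2

theorem rename_mem_kI {x : Λ} {B : Submodule F Λ} (hB : IsId B) {ι : ℕ → ℕ} (hι : StrictMono ι)
    {b D : ℕ} (h1 : ι b ≤ D) (h2 : D < ι (b + 1)) {p : MvPolynomial ℕ F} (hp : p ∈ kI x b B hB) :
    rename ι p ∈ kI x D B hB := fun w hw => by
  rw [Ev_rename x w hι h1 h2, hp (grp w ι) fun a => pr_mem hB w _ _ 0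
    (by have := hι (Nat.lt_succ_self a); simp at this; omega) (hw _), mul_zero, zero_mul]

end Pool.Agent.Lib.MP_038c09_al.As
end

-- part Pool.Agent.Lib.MP_038c09_al.AsGr
section

/-! Operators that commute on a subquotient; the filtration by powers of the commutator ideal;
the three-position calculus. -/

namespace Pool.Agent.Lib.MP_038c09_al.As

open MvPolynomial

variable {F : Type} [Field F]

/-- A family of operators that keeps `N1 ≤ N0` and commutes on `N0 / N1`. -/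
structure Gr (F : Type) [Field F] (V : Type) [AddCommGroup V] [Module F V] (τ : Type) where
  N0 : Submodule F V
  N1 : Submodule F V
  θ : τ → Module.End F V
  le : N1 ≤ N0
  h0 : ∀ i, ∀ x ∈ N0, θ i x ∈ N0
  h1 : ∀ i, ∀ x ∈ N1, θ i x ∈ N1
  hc : ∀ i j, ∀ x ∈ N0, θ i (θ j x) - θ j (θ i x) ∈ N1

namespace Gr

variable {V : Type} [AddCommGroup V] [Module F V] {τ : Type} (G : Gr F V τ)

abbrev Q := G.N0 ⧸ G.N1.comap G.N0.subtype

noncomputable def ind (i : τ) : Module.End F G.Q := krullInd G.N1 G.N0 (G.θ i) (G.h1 i) (G.h0 i)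

noncomputable def A : Subalgebra F (Module.End F G.Q) := Algebra.adjoin F (Set.range G.ind)

instance : IsMulCommutative G.A := Algebra.isMulCommutative_adjoin F (by
  rintro _ ⟨i, rfl⟩ _ ⟨j, rfl⟩
  exact krullInd_comm _ _ _ _ _ _ _ _ (G.hc i j))

noncomputable instance : CommRing G.A := { (inferInstance : Ring G.A) with mul_comm := mul_comm' }

noncomputable def gen (i : τ) : G.A := ⟨G.ind i, Algebra.subset_adjoin ⟨i, rfl⟩⟩

noncomputable def cl (x : V) (h : x ∈ G.N0) : G.Q := Submodule.Quotient.mk ⟨x, h⟩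

theorem cl_eq_zero {x : V} (h : x ∈ G.N0) : G.cl x h = 0 ↔ x ∈ G.N1 :=
  Submodule.Quotient.mk_eq_zero _

theorem cl_eq {x y : V} (h : x ∈ G.N0) (h' : y ∈ G.N0) : G.cl x h = G.cl y h' ↔ x - y ∈ G.N1 :=
  Submodule.Quotient.eq _

theorem cl_surj (q : G.Q) : ∃ x h, G.cl x h = q := by
  obtain ⟨x, rfl⟩ := Submodule.Quotient.mk_surjective _ q
  exact ⟨x, x.2, rfl⟩

/-- The operator `θ` on `V` induces `a` on the subquotient. -/
def Lifts (θ : Module.End F V) (a : G.A) : Prop :=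
  ∀ x (h : x ∈ G.N0), ∃ h' : θ x ∈ G.N0, G.cl (θ x) h' = a • G.cl x h

variable {G}

theorem lifts_gen (i : τ) : G.Lifts (G.θ i) (G.gen i) := fun x h => ⟨G.h0 i x h, rfl⟩

theorem lifts_one : G.Lifts 1 1 := fun x h => ⟨h, by simp⟩

theorem Lifts.mul {θ θ' : Module.End F V} {a a' : G.A} (h : G.Lifts θ a) (h' : G.Lifts θ' a') :
    G.Lifts (θ * θ') (a * a') := fun x hx => by
  obtain ⟨h1, h2⟩ := h' x hx
  obtain ⟨h3, h4⟩ := h _ h1
  exact ⟨h3, by rw [mul_smul, ← h2, ← h4]; rfl⟩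

theorem Lifts.add {θ θ' : Module.End F V} {a a' : G.A} (h : G.Lifts θ a) (h' : G.Lifts θ' a') :
    G.Lifts (θ + θ') (a + a') := fun x hx => by
  obtain ⟨h1, h2⟩ := h' x hx
  obtain ⟨h3, h4⟩ := h x hx
  exact ⟨G.N0.add_mem h3 h1, by rw [add_smul, ← h2, ← h4]; rfl⟩

theorem Lifts.smul {θ : Module.End F V} {a : G.A} (h : G.Lifts θ a) (c : F) :
    G.Lifts (c • θ) (c • a) := fun x hx => by
  obtain ⟨h3, h4⟩ := h x hx
  exact ⟨G.N0.smul_mem c h3, by rw [smul_assoc, ← h4]; rfl⟩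

theorem Lifts.sub {θ θ' : Module.End F V} {a a' : G.A} (h : G.Lifts θ a) (h' : G.Lifts θ' a') :
    G.Lifts (θ - θ') (a - a') := by
  have := h.add (h'.smul (-1))
  simpa [sub_eq_add_neg] using this

theorem Lifts.pow {θ : Module.End F V} {a : G.A} (h : G.Lifts θ a) (n : ℕ) :
    G.Lifts (θ ^ n) (a ^ n) := by
  induction n with
  | zero => simpa using lifts_one
  | succ n ih => rw [pow_succ, pow_succ]; exact ih.mul h

theorem Lifts.eq {θ θ' : Module.End F V} {a a' : G.A} (h : G.Lifts θ a) (h' : G.Lifts θ' a')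
    (e : ∀ x ∈ G.N0, θ x - θ' x ∈ G.N1) : a = a' := by
  refine Subtype.ext (LinearMap.ext fun q => ?_)
  obtain ⟨x, hx, rfl⟩ := G.cl_surj q
  obtain ⟨h1, h2⟩ := h x hx
  obtain ⟨h3, h4⟩ := h' x hx
  exact h2.symm.trans (((G.cl_eq h1 h3).2 (e x hx)).trans h4)

theorem lifts_zero : G.Lifts 0 0 := by simpa using (lifts_one (G := G)).smul 0

theorem Lifts.mem {θ : Module.End F V} (h : G.Lifts θ 0) {x : V} (hx : x ∈ G.N0) :
    θ x ∈ G.N1 := by
  obtain ⟨h1, h2⟩ := h x hx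
  exact (G.cl_eq_zero h1).1 (by rw [h2, zero_smul])

theorem adjoin_gen : Algebra.adjoin F (Set.range G.gen) = ⊤ := by
  have : Set.range G.gen = ((↑) : G.A → _) ⁻¹' Set.range G.ind := by
    ext a
    exact ⟨by rintro ⟨i, rfl⟩; exact ⟨i, rfl⟩, fun ⟨i, hi⟩ => ⟨i, Subtype.ext hi⟩⟩
  rw [this]
  exact Algebra.adjoin_adjoin_coe_preimage

instance [Finite τ] : Algebra.FiniteType F G.A :=
  ⟨Subalgebra.fg_def.2 ⟨_, Set.finite_range G.gen, adjoin_gen⟩⟩

/-- the subspace of `V` that corresponds to a submodule of the subquotient. -/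
noncomputable def pull (M : Submodule G.A G.Q) : Submodule F V :=
  ((M.restrictScalars F).comap (G.N1.comap G.N0.subtype).mkQ).map G.N0.subtype

theorem mem_pull {M : Submodule G.A G.Q} {x : V} : x ∈ pull M ↔ ∃ h, G.cl x h ∈ M :=
  ⟨by rintro ⟨y, hy, rfl⟩; exact ⟨y.2, hy⟩, fun ⟨h, h'⟩ => ⟨⟨x, h⟩, h', rfl⟩⟩

/-- the submodule of the subquotient that corresponds to a stable subspace. -/
noncomputable def push (W : Submodule F V) (hW : ∀ i, ∀ x ∈ W ⊓ G.N0, G.θ i x ∈ W) : Submodule G.A G.Q where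
  carrier := {q | ∃ x h, x ∈ W ∧ G.cl x h = q}
  zero_mem' := ⟨0, G.N0.zero_mem, W.zero_mem, rfl⟩
  add_mem' := by
    rintro _ _ ⟨x, h, h1, rfl⟩ ⟨y, h', h2, rfl⟩
    exact ⟨x + y, G.N0.add_mem h h', W.add_mem h1 h2, rfl⟩
  smul_mem' := by
    rintro ⟨a, ha⟩ q hq
    induction ha using Algebra.adjoin_induction generalizing q with
    | mem _ h =>
      obtain ⟨i, rfl⟩ := h
      obtain ⟨x, h, h1, rfl⟩ := hq
      exact ⟨_, G.h0 i x h, hW i x ⟨h1, h⟩, rfl⟩
    | algebraMap c =>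
      obtain ⟨x, h, h1, rfl⟩ := hq
      exact ⟨c • x, G.N0.smul_mem c h, W.smul_mem c h1, rfl⟩
    | add a b _ _ ha hb =>
      obtain ⟨x, h, h1, e⟩ := ha hq
      obtain ⟨y, h', h2, e'⟩ := hb hq
      exact ⟨x + y, G.N0.add_mem h h', W.add_mem h1 h2,
        (congrArg₂ (· + ·) e e').trans rfl⟩
    | mul a b _ _ ha hb => exact ha (hb hq)

/-- `N0` is generated over `N1` by a finite set under the operators. -/
def FG (G : Gr F V τ) : Prop := ∃ S : Set V, S.Finite ∧ S ⊆ G.N0 ∧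
  ∀ W : Submodule F V, G.N1 ≤ W → S ⊆ W → (∀ i, ∀ x ∈ W, G.θ i x ∈ W) → G.N0 ≤ W

theorem FG.finite (h : G.FG) : Module.Finite G.A G.Q := by
  obtain ⟨S, hS, hSN, hgen⟩ := h
  refine ⟨Submodule.fg_def.2 ⟨(G.N1.comap G.N0.subtype).mkQ '' (Subtype.val ⁻¹' S),
    (hS.preimage Subtype.val_injective.injOn).image _, ?_⟩⟩
  set M := Submodule.span G.A ((G.N1.comap G.N0.subtype).mkQ '' (Subtype.val ⁻¹' S))
  have := hgen (pull M)
    (fun x hx => mem_pull.2 ⟨G.le hx, by rw [(G.cl_eq_zero _).2 hx]; exact M.zero_mem⟩)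
    (fun x hx => mem_pull.2 ⟨hSN hx, Submodule.subset_span ⟨⟨x, hSN hx⟩, hx, rfl⟩⟩)
    fun i x hx => by
      obtain ⟨h, h'⟩ := mem_pull.1 hx
      exact mem_pull.2 ⟨G.h0 i x h, M.smul_mem (G.gen i) h'⟩
  refine eq_top_iff.2 fun q _ => ?_
  obtain ⟨x, hx, rfl⟩ := G.cl_surj q
  exact (mem_pull.1 (this hx)).2

/-- ascending chains of stable subspaces between `N1` and `N0` stop. -/
theorem FG.acc [Finite τ] (h : G.FG) (C : ℕ → Submodule F V) (hm : Monotone C)
    (h1 : ∀ j, G.N1 ≤ C j) (hW : ∀ j i, ∀ x ∈ C j ⊓ G.N0, G.θ i x ∈ C j) :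
    ∃ j, ∀ j', ∀ x ∈ G.N0, x ∈ C j' → x ∈ C j := by
  have := h.finite
  have := Algebra.FiniteType.isNoetherianRing F G.A
  obtain ⟨j, hj⟩ := monotone_stabilizes_iff_noetherian.2 (inferInstance : IsNoetherian G.A G.Q)
    ⟨fun j => push (C j) (hW j), fun j j' hjj q ⟨x, h, h1, e⟩ => ⟨x, h, hm hjj h1, e⟩⟩
  refine ⟨j, fun j' x hx hx' => ?_⟩
  have h2 : G.cl x hx ∈ push (C (max j j')) (hW _) := ⟨x, hx, hm (le_max_right _ _) hx', rfl⟩
  have h3 := hj (max j j') (le_max_left _ _)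
  simp only [OrderHom.coe_mk] at h3
  rw [← h3] at h2
  obtain ⟨y, hy, h4, h5⟩ := h2
  simpa using (C j).sub_mem h4 (h1 j ((G.cl_eq hy hx).1 h5))

end Gr

variable {Λ : Type} [Ring Λ] [Algebra F Λ]

/-- The commutator ideal. -/
def cT (F Λ : Type) [Field F] [Ring Λ] [Algebra F Λ] : Submodule F Λ :=
  Submodule.span F {u | ∃ a b c d : Λ, u = a * (b * c - c * b) * d}

/-- Its powers. -/
def Tf (F Λ : Type) [Field F] [Ring Λ] [Algebra F Λ] : ℕ → Submodule F Λ
  | 0 => ⊤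
  | k + 1 => Tf F Λ k * cT F Λ

theorem isId_cT : IsId (cT F Λ) := fun u v hv => by
  induction hv using Submodule.span_induction with
  | mem _ h =>
    obtain ⟨a, b, c, d, rfl⟩ := h
    exact ⟨Submodule.subset_span ⟨u * a, b, c, d, by simp [mul_assoc]⟩,
      Submodule.subset_span ⟨a, b, c, d * u, by simp [mul_assoc]⟩⟩
  | zero => simp
  | add x y _ _ hx hy =>
    rw [mul_add, add_mul]; exact ⟨Submodule.add_mem _ hx.1 hy.1, Submodule.add_mem _ hx.2 hy.2⟩
  | smul c x _ hx =>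
    rw [mul_smul_comm, smul_mul_assoc]
    exact ⟨Submodule.smul_mem _ c hx.1, Submodule.smul_mem _ c hx.2⟩

theorem comm_mem_cT (b c : Λ) : b * c - c * b ∈ cT F Λ :=
  Submodule.subset_span ⟨1, b, c, 1, by simp⟩

theorem isId_Tf (k : ℕ) : IsId (Tf F Λ k) := by
  induction k with
  | zero => exact isId_top
  | succ k ih =>
    intro u v hv
    refine Submodule.mul_induction_on hv (fun a ha b hb => ?_) fun x y hx hy => ?_
    · rw [← mul_assoc, mul_assoc a]
      exact ⟨Submodule.mul_mem_mul (ih u a ha).1 hb, Submodule.mul_mem_mul ha (isId_cT u b hb).2⟩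
    · rw [mul_add, add_mul]; exact ⟨Submodule.add_mem _ hx.1 hy.1, Submodule.add_mem _ hx.2 hy.2⟩

theorem Tf_mul {i j : ℕ} {a b : Λ} (ha : a ∈ Tf F Λ i) (hb : b ∈ Tf F Λ j) :
    a * b ∈ Tf F Λ (i + j) := by
  induction j generalizing b with
  | zero => exact (isId_Tf i b a ha).2
  | succ j ih =>
    refine Submodule.mul_induction_on hb (fun c hc d hd => ?_) fun x y hx hy => ?_
    · rw [← mul_assoc]; exact Submodule.mul_mem_mul (ih hc) hd
    · rw [mul_add]; exact Submodule.add_mem _ hx hy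

theorem Tf_succ_le (k : ℕ) : Tf F Λ (k + 1) ≤ Tf F Λ k :=
  Submodule.mul_le.2 fun a ha b _ => (isId_Tf k b a ha).2

theorem Tf_anti : Antitone (Tf F Λ) := antitone_nat_of_succ_le Tf_succ_le

theorem cT_le_Tf1 {t : Λ} (h : t ∈ cT F Λ) : t ∈ Tf F Λ 1 := by
  have := Submodule.mul_mem_mul (M := Tf F Λ 0) (m := (1 : Λ)) trivial h
  rwa [one_mul] at this

theorem Tf_comm_r {k : ℕ} {t : Λ} (h : t ∈ Tf F Λ k) (a b : Λ) :
    t * (a * b - b * a) ∈ Tf F Λ (k + 1) := Tf_mul h (cT_le_Tf1 (comm_mem_cT a b))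

theorem Tf_comm_l {k : ℕ} {t : Λ} (h : t ∈ Tf F Λ k) (a b : Λ) :
    (a * b - b * a) * t ∈ Tf F Λ (k + 1) := by
  rw [add_comm]; exact Tf_mul (cT_le_Tf1 (comm_mem_cT a b)) h

theorem map_Tf {Λ' : Type} [Ring Λ'] [Algebra F Λ'] (φ : Λ →ₐ[F] Λ') (k : ℕ) {t : Λ}
    (h : t ∈ Tf F Λ k) : φ t ∈ Tf F Λ' k := by
  induction k generalizing t with
  | zero => trivial
  | succ k ih =>
    refine Submodule.mul_induction_on h (fun a ha b hb => ?_) fun x y hx hy => ?_
    · rw [map_mul]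
      refine Submodule.mul_mem_mul (ih ha) ?_
      induction hb using Submodule.span_induction with
      | mem _ h =>
        obtain ⟨a, b, c, d, rfl⟩ := h
        exact Submodule.subset_span ⟨φ a, φ b, φ c, φ d, by simp⟩
      | zero => simp
      | add x y _ _ hx hy => rw [map_add]; exact Submodule.add_mem _ hx hy
      | smul c x _ hx => rw [map_smul]; exact Submodule.smul_mem _ c hx
    · rw [map_add]; exact Submodule.add_mem _ hx hy

end Pool.Agent.Lib.MP_038c09_al.As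
end

-- part Pool.Agent.Lib.MP_038c09_al.AsThree
section

/-! The three-position calculus: left end, cut, right end. -/

namespace Pool.Agent.Lib.MP_038c09_al.As

open MvPolynomial

variable {F : Type} [Field F] {Λ : Type} [Ring Λ] [Algebra F Λ]

/-- The augmentation ideal. -/
def Bk (ε : Λ →ₐ[F] F) : Submodule F Λ := LinearMap.ker ε.toLinearMap

theorem mem_Bk {ε : Λ →ₐ[F] F} {a : Λ} : a ∈ Bk ε ↔ ε a = 0 := Iff.rfl

theorem isId_Bk (ε : Λ →ₐ[F] F) : IsId (Bk ε) := fun a b h => by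
  simp only [mem_Bk] at h ⊢; simp [h]

noncomputable def gA (F : Type) [Field F] : MvPolynomial ℕ F := X 1 * (X 0 - X 1) * (X 1 - X 2)
noncomputable def gC (F : Type) [Field F] : MvPolynomial ℕ F :=
  (X 0 - X 1) * X 1 * X 2 * (X 2 - X 3)

/-- The three families of identities. -/
structure Ids (ε : Λ →ₐ[F] F) (n : ℕ) : Prop where
  g1 : ∀ x, ε x = 0 → ∀ w, Ev x w 2 ((X 0 * gA F) ^ n) = 0
  g2 : ∀ x, ε x = 0 → ∀ w, Ev x w 2 ((X 2 * gA F) ^ n) = 0
  g3 : ∀ x, ε x = 0 → ∀ w, Ev x w 3 (gC F ^ n * (X 1 - X 2)) = 0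

def pc (t1 t2 : Λ) : ℕ → Λ := fun i => if i = 0 then t1 else t2

def ph (t1 t2 : Λ) : Λ → Λ := fun z => t1 * z * t2

def op (F : Type) [Field F] [Algebra F Λ] (i : Fin 3) (a : Λ) : Module.End F (Λ → Λ) :=
  match i with
  | 0 => { toFun := fun φ z => a * φ z
           map_add' := fun φ ψ => by ext; simp [mul_add]
           map_smul' := fun c φ => by ext; simp }
  | 1 => { toFun := fun φ z => φ (a * z)
           map_add' := fun _ _ => rfl
           map_smul' := fun _ _ => rfl }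
  | 2 => { toFun := fun φ z => φ z * a
           map_add' := fun φ ψ => by ext; simp [add_mul]
           map_smul' := fun c φ => by ext; simp }

@[simp] theorem op0 (a : Λ) (φ : Λ → Λ) (z : Λ) : op F 0 a φ z = a * φ z := rfl
@[simp] theorem op1 (a : Λ) (φ : Λ → Λ) (z : Λ) : op F 1 a φ z = φ (a * z) := rfl
@[simp] theorem op2 (a : Λ) (φ : Λ → Λ) (z : Λ) : op F 2 a φ z = φ z * a := rfl

theorem op0_ph (a t1 t2 : Λ) : op F 0 a (ph t1 t2) = ph (a * t1) t2 := by
  ext; simp [ph, mul_assoc]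
theorem op1_ph (a t1 t2 : Λ) : op F 1 a (ph t1 t2) = ph (t1 * a) t2 := by
  ext; simp [ph, mul_assoc]
theorem op2_ph (a t1 t2 : Λ) : op F 2 a (ph t1 t2) = ph t1 (t2 * a) := by
  ext; simp [ph, mul_assoc]

theorem op_comm {i j : Fin 3} (h : i ≠ j) (a b : Λ) : Commute (op F i a) (op F j b) := by
  refine LinearMap.ext fun φ => funext fun z => ?_
  fin_cases i <;> fin_cases j <;> simp_all [mul_assoc]

def Fk (F Λ : Type) [Field F] [Ring Λ] [Algebra F Λ] (k : ℕ) : Submodule F (Λ → Λ) :=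
  Submodule.span F {φ | ∃ a b t1 t2, k ≤ a + b ∧ t1 ∈ Tf F Λ a ∧ t2 ∈ Tf F Λ b ∧ φ = ph t1 t2}

theorem ph_mem {k a b : ℕ} {t1 t2 : Λ} (h : k ≤ a + b) (h1 : t1 ∈ Tf F Λ a) (h2 : t2 ∈ Tf F Λ b) :
    ph t1 t2 ∈ Fk F Λ k := Submodule.subset_span ⟨a, b, t1, t2, h, h1, h2, rfl⟩

theorem ph_mem0 (t1 t2 : Λ) : ph t1 t2 ∈ Fk F Λ 0 := ph_mem (a := 0) (b := 0) le_rfl trivial trivial

theorem Fk_ind {M : Type} [AddCommGroup M] [Module F M] {k : ℕ} (f : (Λ → Λ) →ₗ[F] M)
    (W : Submodule F M) (h : ∀ a b t1 t2, k ≤ a + b → t1 ∈ Tf F Λ a → t2 ∈ Tf F Λ b →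
      f (ph t1 t2) ∈ W) {φ : Λ → Λ} (hφ : φ ∈ Fk F Λ k) : f φ ∈ W :=
  (Submodule.span_le (p := W.comap f)).2 (by
    rintro _ ⟨a, b, t1, t2, h1, h2, h3, rfl⟩; exact h a b t1 t2 h1 h2 h3) hφ

theorem Fk_anti {k l : ℕ} (h : k ≤ l) : Fk F Λ l ≤ Fk F Λ k := fun _ hφ =>
  Fk_ind LinearMap.id _ (fun _ _ _ _ h1 h2 h3 => ph_mem (h.trans h1) h2 h3) hφ

theorem op_Fk (k : ℕ) (i : Fin 3) (a : Λ) : ∀ φ ∈ Fk F Λ k, op F i a φ ∈ Fk F Λ k :=
  fun _ hφ => Fk_ind _ _ (fun _ _ t1 t2 h1 h2 h3 => by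
    fin_cases i
    · exact op0_ph (F := F) a t1 t2 ▸ ph_mem h1 (isId_Tf _ _ _ h2).1 h3
    · exact op1_ph (F := F) a t1 t2 ▸ ph_mem h1 (isId_Tf _ _ _ h2).2 h3
    · exact op2_ph (F := F) a t1 t2 ▸ ph_mem h1 h2 (isId_Tf _ _ _ h3).2) hφ

theorem Fk_val {k : ℕ} {φ : Λ → Λ} (hφ : φ ∈ Fk F Λ k) (z : Λ) : φ z ∈ Tf F Λ k :=
  Fk_ind (LinearMap.proj z) _
    (fun _ _ _ _ h1 h2 h3 => Tf_anti h1 (Tf_mul (isId_Tf _ _ _ h2).2 h3)) hφ

theorem op_op_Fk (k : ℕ) (i j : Fin 3) (a b : Λ) : ∀ φ ∈ Fk F Λ k,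
    op F i a (op F j b φ) - op F j b (op F i a φ) ∈ Fk F Λ (k + 1) := fun φ hφ => by
  by_cases h : i = j
  swap
  · have := LinearMap.congr_fun (op_comm (F := F) h a b).eq φ
    simp only [Module.End.mul_apply] at this
    rw [this, sub_self]; exact Submodule.zero_mem _
  subst h
  refine Fk_ind (op F i a * op F i b - op F i b * op F i a) _ (fun c d t1 t2 h1 h2 h3 => ?_) hφ
  fin_cases i
  · convert ph_mem (k := k + 1) (by omega) (Tf_comm_l h2 a b) h3 using 1
    ext; simp [ph, mul_assoc, sub_mul]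
  · convert ph_mem (k := k + 1) (by omega) (Tf_comm_r h2 b a) h3 using 1
    ext; simp [ph, mul_assoc, sub_mul, mul_sub]
  · convert ph_mem (k := k + 1) (by omega) h2 (Tf_comm_r h3 b a) using 1
    ext; simp [ph, mul_assoc, mul_sub]

noncomputable def G3 (F Λ : Type) [Field F] [Ring Λ] [Algebra F Λ] (k : ℕ) :
    Gr F (Λ → Λ) (Fin 3 × Λ) where
  N0 := Fk F Λ k
  N1 := Fk F Λ (k + 1)
  θ := fun p => op F p.1 p.2
  le := Fk_anti (Nat.le_succ k)
  h0 := fun p => op_Fk k p.1 p.2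
  h1 := fun p => op_Fk (k + 1) p.1 p.2
  hc := fun p q => op_op_Fk k p.1 q.1 p.2 q.2

theorem op_lin (k : ℕ) (i : Fin 3) (a b : Λ) (c : F) : ∀ φ ∈ Fk F Λ k,
    op F i (c • a + b) φ - (c • op F i a + op F i b) φ ∈ Fk F Λ (k + 1) := fun φ hφ => by
  refine Fk_ind (op F i (c • a + b) - (c • op F i a + op F i b)) _
    (fun _ _ t1 t2 _ _ _ => ?_) hφ
  convert Submodule.zero_mem _ using 1
  fin_cases i <;> (ext; simp [ph, add_mul, mul_add])

theorem lifts_op (k : ℕ) (i : Fin 3) (a : Λ) :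
    (G3 F Λ k).Lifts (op F i a) ((G3 F Λ k).gen (i, a)) := Gr.lifts_gen (G := G3 F Λ k) (i, a)

noncomputable def lam (F : Type) [Field F] [Algebra F Λ] (k : ℕ) (i : Fin 3) :
    Λ →ₐ[F] (G3 F Λ k).A :=
  AlgHom.ofLinearMap
    { toFun := fun a => (G3 F Λ k).gen (i, a)
      map_add' := fun a b => by
        have := (lifts_op k i ((1 : F) • a + b)).eq (((lifts_op k i a).smul 1).add
          (lifts_op k i b)) (op_lin k i a b 1)
        simpa using this
      map_smul' := fun c a => by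
        have h0 := (lifts_op k i ((1 : F) • (0 : Λ) + 0)).eq (((lifts_op k i 0).smul 1).add
          (lifts_op k i 0)) (op_lin k i 0 0 1)
        have := (lifts_op k i (c • a + 0)).eq (((lifts_op k i a).smul c).add
          (lifts_op k i 0)) (op_lin k i a 0 c)
        simp only [one_smul, add_zero, left_eq_add] at h0 this
        simpa [h0] using this }
    ((lifts_op k i 1).eq Gr.lifts_one fun φ _ => by
      convert Submodule.zero_mem _ using 1
      fin_cases i <;> (ext; simp))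
    (fun a b => by
      fin_cases i
      · exact (lifts_op k 0 (a * b)).eq ((lifts_op k 0 a).mul (lifts_op k 0 b)) fun φ _ => by
          convert Submodule.zero_mem _ using 1
          ext; simp [mul_assoc]
      · exact ((lifts_op k 1 (a * b)).eq ((lifts_op k 1 b).mul (lifts_op k 1 a)) fun φ _ => by
          convert Submodule.zero_mem _ using 1
          ext; simp [mul_assoc]).trans (mul_comm _ _)
      · exact ((lifts_op k 2 (a * b)).eq ((lifts_op k 2 b).mul (lifts_op k 2 a)) fun φ _ => by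
          convert Submodule.zero_mem _ using 1
          ext; simp [mul_assoc]).trans (mul_comm _ _))

theorem lifts_lam (k : ℕ) (i : Fin 3) (a : Λ) :
    (G3 F Λ k).Lifts (op F i a) (lam F k i a) := lifts_op k i a

noncomputable def Psi (x t1 t2 : Λ) : MvPolynomial ℕ F →ₗ[F] (Λ → Λ) :=
  LinearMap.pi fun z => Ev x (pc t1 (z * t2)) 2

theorem Psi_apply (x t1 t2 z : Λ) (p : MvPolynomial ℕ F) :
    Psi x t1 t2 p z = Ev x (pc t1 (z * t2)) 2 p := rfl

theorem Psi_one (x t1 t2 : Λ) : Psi x t1 t2 (1 : MvPolynomial ℕ F) = ph t1 t2 := by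
  ext z; simp [Psi_apply, Ev_one, pr, pc, ph, mul_assoc]

/-- multiplication by the polynomial `g` is realised by the operator `θ`. -/
def POp (x : Λ) (g : MvPolynomial ℕ F) (θ : Module.End F (Λ → Λ)) : Prop :=
  ∀ t1 t2 h, Psi x t1 t2 (g * h) = θ (Psi x t1 t2 h)

theorem pOp0 (x : Λ) : POp x (X 0) (op F 0 x) := fun _ _ _ => funext fun _ => Ev_X0 _ _ _ _
theorem pOp2 (x : Λ) : POp x (X 2) (op F 2 x) := fun _ _ _ => funext fun _ => Ev_Xtop _ _ _ _
theorem pOp1 (x : Λ) : POp x (X 1) (op F 1 x) := fun t1 t2 h => funext fun z => by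
  rw [Psi_apply, Ev_Xl _ _ 1 2 (by omega), op1, Psi_apply]
  exact Ev_congr _ _ (fun i hi => by interval_cases i <;> simp [pc, mul_assoc]) _

theorem POp.mul {x : Λ} {g g' : MvPolynomial ℕ F} {θ θ' : Module.End F (Λ → Λ)}
    (h : POp x g θ) (h' : POp x g' θ') : POp x (g * g') (θ * θ') := fun t1 t2 p => by
  rw [mul_assoc, h, h']; rfl

theorem POp.sub {x : Λ} {g g' : MvPolynomial ℕ F} {θ θ' : Module.End F (Λ → Λ)}
    (h : POp x g θ) (h' : POp x g' θ') : POp x (g - g') (θ - θ') := fun t1 t2 p => by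
  rw [sub_mul, map_sub, h, h']; rfl

theorem POp.pow {x : Λ} {g : MvPolynomial ℕ F} {θ : Module.End F (Λ → Λ)}
    (h : POp x g θ) (n : ℕ) : POp x (g ^ n) (θ ^ n) := by
  induction n with
  | zero => intro t1 t2 p; simp
  | succ n ih => rw [pow_succ, pow_succ]; exact ih.mul h

theorem POp.ph {x : Λ} {g : MvPolynomial ℕ F} {θ : Module.End F (Λ → Λ)} (h : POp x g θ)
    (t1 t2 z : Λ) : θ (ph t1 t2) z = Ev x (pc t1 (z * t2)) 2 g := by
  rw [← Psi_one (F := F) x, ← h, mul_one, Psi_apply]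

def opA (F : Type) [Field F] [Algebra F Λ] (x : Λ) : Module.End F (Λ → Λ) :=
  op F 1 x * (op F 0 x - op F 1 x) * (op F 1 x - op F 2 x)

theorem pOpA (x : Λ) : POp x (gA F) (opA F x) :=
  ((pOp1 x).mul ((pOp0 x).sub (pOp1 x))).mul ((pOp1 x).sub (pOp2 x))

theorem liftsA (k : ℕ) (x : Λ) : (G3 F Λ k).Lifts (opA F x)
    (lam F k 1 x * (lam F k 0 x - lam F k 1 x) * (lam F k 1 x - lam F k 2 x)) :=
  ((lifts_lam k 1 x).mul ((lifts_lam k 0 x).sub (lifts_lam k 1 x))).mul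
    ((lifts_lam k 1 x).sub (lifts_lam k 2 x))

theorem lifts_eq_zero {k : ℕ} {x : Λ} {g : MvPolynomial ℕ F} {θ : Module.End F (Λ → Λ)}
    {a : (G3 F Λ k).A} (h : POp x g θ) (hl : (G3 F Λ k).Lifts θ a) (h0 : ∀ w, Ev x w 2 g = 0) :
    a = 0 := hl.eq Gr.lifts_zero fun φ hφ => by
  refine Fk_ind (θ - 0) _ (fun _ _ t1 t2 _ _ _ => ?_) hφ
  convert Submodule.zero_mem _ using 1
  ext z; simp [h.ph, h0]

/-- four nonzero linear maps have a common non-root. -/
theorem pattern [CharZero F] {Dm : Type} [CommRing Dm] [IsDomain Dm] [Algebra F Dm]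
    (ε : Λ →ₐ[F] F) (o l m r : Λ →ₐ[F] Dm)
    (h : ∀ x, ε x = 0 → o x * (m x * (l x - m x) * (m x - r x)) = 0) {a b : Λ} (ha : ε a = 0)
    (hb : ε b = 0) (c d : Λ) : o a * (m b * (l c - m c) * (m d - r d)) = 0 := by
  by_contra hne
  simp only [mul_eq_zero, not_or] at hne
  obtain ⟨h1, ⟨h2, h3⟩, h4⟩ := hne
  have : Infinite F := Infinite.of_injective _ Nat.cast_injective
  let f : Fin 4 → Λ →ₗ[F] Dm := ![o.toLinearMap, m.toLinearMap, l.toLinearMap - m.toLinearMap,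
    m.toLinearMap - r.toLinearMap]
  have hc : ∀ c : Λ, c - algebraMap F Λ (ε c) ∈ Bk ε := fun c => by simp [mem_Bk]
  obtain ⟨x, hx⟩ := Submodule.exists_forall_notMem_of_forall_ne_top
    (fun i => LinearMap.ker (f i ∘ₗ (Bk ε).subtype)) fun i hi => by
      have := fun y => (Submodule.eq_top_iff'.1 hi) y
      fin_cases i
      · exact h1 (this ⟨a, ha⟩)
      · exact h2 (this ⟨b, hb⟩)
      · exact h3 (by simpa [f] using this ⟨_, hc c⟩)
      · exact h4 (by simpa [f] using this ⟨_, hc d⟩)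
  have := h x x.2
  simp only [mul_eq_zero] at this
  rcases this with e | (e | e) | e
  exacts [hx 0 e, hx 1 e, hx 2 e, hx 3 e]

theorem nil_pattern [CharZero F] {ε : Λ →ₐ[F] F} {n : ℕ} (H : Ids ε n) (k : ℕ) {s : Fin 3}
    (hs : s ≠ 1) {a b : Λ} (ha : ε a = 0) (hb : ε b = 0) (c d : Λ) :
    IsNilpotent (lam F k s a * (lam F k 1 b * (lam F k 0 c - lam F k 1 c) *
      (lam F k 1 d - lam F k 2 d))) := by
  refine nilpotent_iff_mem_prime.2 fun J hJ => ?_
  have := pattern ε ((Ideal.Quotient.mkₐ F J).comp (lam F k s))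
    ((Ideal.Quotient.mkₐ F J).comp (lam F k 0)) ((Ideal.Quotient.mkₐ F J).comp (lam F k 1))
    ((Ideal.Quotient.mkₐ F J).comp (lam F k 2)) (fun x hx => by
      have : (lam F k s x * (lam F k 1 x * (lam F k 0 x - lam F k 1 x) *
          (lam F k 1 x - lam F k 2 x))) ^ n = 0 := by
        fin_cases s
        · exact lifts_eq_zero (((pOp0 x).mul (pOpA x)).pow n)
            (((lifts_lam k 0 x).mul (liftsA k x)).pow n) (H.g1 x hx)
        · exact absurd rfl hs
        · exact lifts_eq_zero (((pOp2 x).mul (pOpA x)).pow n)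
            (((lifts_lam k 2 x).mul (liftsA k x)).pow n) (H.g2 x hx)
      have h2 := hJ.mem_of_pow_mem n (this ▸ J.zero_mem)
      simpa using Ideal.Quotient.eq_zero_iff_mem.2 h2) ha hb c d
  exact Ideal.Quotient.eq_zero_iff_mem.1 (by simpa using this)

end Pool.Agent.Lib.MP_038c09_al.As
end

-- part Pool.Agent.Lib.MP_038c09_al.AsZ
section

/-! Few zero positions; finite generation of the visible parts. -/

namespace Pool.Agent.Lib.MP_038c09_al.As

open MvPolynomial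

variable {F : Type} [Field F] {Λ : Type} [Ring Λ] [Algebra F Λ]

structure Gen (ε : Λ →ₐ[F] F) {σ : Type} (xs : σ → Λ) : Prop where
  h0 : ∀ s, ε (xs s) = 0
  top : Algebra.adjoin F (Set.range xs) = ⊤

theorem Gen.mem_span {ε : Λ →ₐ[F] F} {σ : Type} {xs : σ → Λ} (hG : Gen ε xs) {A : Type}
    [CommRing A] [Algebra F A] (φ : Λ →ₐ[F] A) {y : Λ} (hy : ε y = 0) :
    φ y ∈ Ideal.span (Set.range fun s => φ (xs s)) := by
  set J := Ideal.span (Set.range fun s => φ (xs s))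
  have := AlgHom.ext_of_adjoin_eq_top hG.top (φ₁ := (Ideal.Quotient.mkₐ F J).comp φ)
    (φ₂ := (Algebra.ofId F _).comp ε) (by
      rintro _ ⟨s, rfl⟩
      have : φ (xs s) ∈ J := Ideal.subset_span ⟨s, rfl⟩
      simpa [hG.h0 s] using Ideal.Quotient.eq_zero_iff_mem.2 this)
  have := AlgHom.congr_fun this y
  exact Ideal.Quotient.eq_zero_iff_mem.1 (by simpa [hy] using this)

def zfac (F : Type) [Field F] [Algebra F Λ] (x : Λ) (s : Fin 3) (y : Λ) : Module.End F (Λ → Λ) :=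
  (op F 1 x - op F s x) * op F s y

def yfac (F : Type) [Field F] [Algebra F Λ] (x : Λ) (s : Fin 3) : Module.End F (Λ → Λ) :=
  op F 1 x * (op F s x - op F 1 x)

theorem Zop [CharZero F] {ε : Λ →ₐ[F] F} {n : ℕ} (H : Ids ε n) {σ : Type} [Finite σ] {xs : σ → Λ}
    (hG : Gen ε xs) {x : Λ} (hx : ε x = 0) {s s' : Fin 3}
    (hs : (s = 0 ∧ s' = 2) ∨ (s = 2 ∧ s' = 0)) (j : ℕ) :
    ∃ h, ∀ ys : List Λ, ys.length = h → (∀ y ∈ ys, ε y = 0) → ∀ φ ∈ Fk F Λ 0,
      ((ys.map (zfac F x s)).prod * yfac F x s' ^ h) φ ∈ Fk F Λ j := by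
  have hs1 : s ≠ 1 := by rcases hs with h | h <;> simp [h.1]
  have hs2 : s' ≠ 1 := by rcases hs with h | h <;> simp [h.2]
  have hs3 : s ≠ s' := by rcases hs with h | h <;> simp [h.1, h.2]
  have hcm : ∀ ys : List Λ, Commute (ys.map (zfac F x s)).prod (yfac F x s') := fun ys =>
    Commute.list_prod_left _ _ fun a ha => by
      obtain ⟨y, -, rfl⟩ := List.mem_map.1 ha
      have a1 : ∀ b, Commute (op F s b) (yfac F x s') := fun b =>
        (op_comm hs1 _ _).mul_right ((op_comm hs3 _ _).sub_right (op_comm hs1 _ _))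
      have a2 : Commute (op F 1 x) (yfac F x s') :=
        (Commute.refl _).mul_right ((op_comm hs2.symm _ _).sub_right (Commute.refl _))
      exact (a2.sub_left (a1 x)).mul_left (a1 y)
  induction j with
  | zero =>
    refine ⟨0, fun ys h _ φ hφ => ?_⟩
    rw [List.length_eq_zero_iff.1 h]; simpa using hφ
  | succ j ih =>
    obtain ⟨h', ih⟩ := ih
    set z0 := lam F j 1 x * (lam F j 0 x - lam F j 1 x) * (lam F j 1 x - lam F j 2 x) with hz0
    set J := Ideal.span (Set.range fun i => lam F j s (xs i) * z0) with hJ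
    obtain ⟨h0, hh⟩ := (Ideal.FG.isNilpotent_iff_le_nilradical (I := J)
      (Submodule.fg_span (Set.finite_range _))).2 (Ideal.span_le.2 (by
        rintro _ ⟨i, rfl⟩
        exact nil_pattern H j hs1 (hG.h0 i) hx x x))
    have key : ∀ ys : List Λ, (∀ y ∈ ys, ε y = 0) → ∃ a ∈ J ^ ys.length, (G3 F Λ j).Lifts
        ((ys.map (zfac F x s)).prod * yfac F x s' ^ ys.length) a := fun ys hy => by
      induction ys with
      | nil => exact ⟨1, by simp, by simpa using Gr.lifts_one⟩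
      | cons y ys ih =>
        obtain ⟨a, ha, hl⟩ := ih fun z hz => hy z (by simp [hz])
        have h1 : lam F j s y * z0 ∈ J := by
          refine Submodule.span_induction (p := fun u _ => u * z0 ∈ J) ?_ ?_ ?_ ?_
            (hG.mem_span (lam F j s) (hy y (by simp)))
          · rintro _ ⟨i, rfl⟩; exact Ideal.subset_span ⟨i, rfl⟩
          · simp
          · intro u v _ _ hu hv; rw [add_mul]; exact J.add_mem hu hv
          · intro u v _ hv; rw [smul_eq_mul, mul_assoc]; exact J.mul_mem_left _ hv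
        refine ⟨lam F j s y * z0 * a, by
          rw [List.length_cons, pow_succ']; exact Ideal.mul_mem_mul h1 ha, ?_⟩
        have h2 := ((((lifts_lam j 1 x).sub (lifts_lam j s x)).mul (lifts_lam j s y)).mul
          ((lifts_lam j 1 x).mul ((lifts_lam (F := F) j s' x).sub (lifts_lam j 1 x)))).mul hl
        convert h2 using 1
        · rw [List.map_cons, List.prod_cons, List.length_cons, pow_succ', mul_assoc, mul_assoc,
            ← mul_assoc (ys.map _).prod, (hcm ys).eq]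
          simp only [zfac, yfac, mul_assoc]
        · rcases hs with h | h <;> (rw [hz0, h.1, h.2]; ring)
    refine ⟨h0 + h', fun ys hl hy φ hφ => ?_⟩
    have e1 : (ys.take h0).length = h0 := by simp; omega
    obtain ⟨a, ha, hla⟩ := key (ys.take h0) fun y h => hy y (List.mem_of_mem_take h)
    rw [e1, hh] at ha
    rw [e1, show a = 0 from ha] at hla
    have := hla.mem (ih (ys.drop h0) (by simp; omega) (fun y h => hy y (List.mem_of_mem_drop h))
      φ hφ)
    change _ ∈ Fk F Λ (j + 1) at this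
    convert this using 1
    rw [← Module.End.mul_apply, mul_assoc, ← mul_assoc (yfac F x s' ^ h0),
      ← ((hcm _).pow_right h0).eq, mul_assoc, ← pow_add, ← mul_assoc, ← List.prod_append,
      ← List.map_append, List.take_append_drop]

noncomputable def pL (F : Type) [Field F] (E a : ℕ) : MvPolynomial ℕ F :=
  (∏ i ∈ Finset.range a, (X a - X i)) * (X a * (X (a + 1) - X a)) ^ E

noncomputable def pR (F : Type) [Field F] (E a : ℕ) : MvPolynomial ℕ F :=
  (∏ i ∈ Finset.range a, (X 1 - X (i + 3))) * (X 1 * (X 0 - X 1)) ^ E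

theorem pL_op (x : Λ) (E a : ℕ) (w : ℕ → Λ) : ∃ ys : List Λ, ys.length = a ∧
    (∀ y ∈ ys, ∃ i, y = w i) ∧ ∀ z, Ev x (Function.update w a (z * w a)) (a + 1) (pL F E a) =
      ((ys.map (zfac F x 0)).prod * yfac F x 2 ^ E) (ph 1 (w a)) z := by
  induction a generalizing w with
  | zero =>
    refine ⟨[], rfl, by simp, fun z => ?_⟩
    have h1 := (((pOp1 (F := F) x).mul ((pOp2 x).sub (pOp1 x))).pow E).ph 1 (w 0) z
    have h2 := Ev_shift x (pc 1 (z * w 0)) 1 (pL F E 0)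
    simp only [List.map_nil, List.prod_nil, one_mul, yfac, h1]
    rw [show (X 1 * (X 2 - X 1)) ^ E = rename Nat.succ (pL F E 0) by simp [pL], h2]
    simp only [pc, if_true, one_mul]
    exact Ev_congr _ _ (fun i hi => by interval_cases i; simp) _
  | succ a ih =>
    obtain ⟨ys, h1, h2, h3⟩ := ih fun i => w (i + 1)
    refine ⟨w 0 :: ys, by simp [h1], fun y hy => ?_, fun z => ?_⟩
    · rcases List.mem_cons.1 hy with h | h
      exacts [⟨0, h⟩, let ⟨i, hi⟩ := h2 y h; ⟨i + 1, hi⟩]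
    have e : pL F E (a + 1) = (X (a + 1) - X 0) * rename Nat.succ (pL F E a) := by
      simp only [pL, Finset.prod_range_succ', map_mul, map_prod, map_sub, rename_X, map_pow]
      ring
    have e2 : ∀ z, Ev x (Function.update w (a + 1) (z * w (a + 1))) (a + 1 + 1)
        (rename Nat.succ (pL F E a)) =
        w 0 * ((ys.map (zfac F x 0)).prod * yfac F x 2 ^ E) (ph 1 (w (a + 1))) z := fun z => by
      rw [Ev_shift, ← h3, Function.update_of_ne (by omega)]
      congr 1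
      exact Ev_congr _ _ (fun i _ => by simp [Function.update_apply]) _
    rw [e, sub_mul, map_sub, Ev_X0, Ev_Xl _ _ _ _ (by omega), Function.update_idem,
      Function.update_self, ← mul_assoc, e2, e2]
    simp [zfac, mul_assoc]

theorem Ev_succ (x : Λ) (w : ℕ → Λ) (D : ℕ) (p : MvPolynomial ℕ F)
    (h : rename (fun i => if i ≤ D then i else i + 1) p = p) :
    Ev x w (D + 1) p = Ev x w D p * w D := by
  have hι : StrictMono fun i => if i ≤ D then i else i + 1 := fun i j hij => by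
    dsimp only; split_ifs <;> omega
  have := Ev_rename x w hι (b := D) (D := D + 1) (by simp) (by simp) p
  rw [h] at this
  rw [this, Ev_congr x (w := grp w _) (w' := w) D fun i hi => by
    simp [grp, hi.le, show i + 1 ≤ D from hi, pr_one]]
  simp [pr]

theorem pR_op (x : Λ) (E a : ℕ) (w : ℕ → Λ) : ∃ ys : List Λ, ys.length = a ∧
    (∀ y ∈ ys, ∃ i, y = w i) ∧ ∀ z, Ev x (Function.update w 1 (z * w 1)) (a + 2) (pR F E a) =
      ((ys.map (zfac F x 2)).prod * yfac F x 0 ^ E) (ph (w 0) (w 1)) z := by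
  induction a with
  | zero =>
    refine ⟨[], rfl, by simp, fun z => ?_⟩
    have h1 := (((pOp1 (F := F) x).mul ((pOp0 x).sub (pOp1 x))).pow E).ph (w 0) (w 1) z
    simp only [List.map_nil, List.prod_nil, one_mul, yfac, h1, pR, Finset.range_zero,
      Finset.prod_empty]
    exact Ev_congr _ _ (fun i hi => by interval_cases i <;> simp [pc]) _
  | succ a ih =>
    obtain ⟨ys, h1, h2, h3⟩ := ih
    refine ⟨w (a + 2) :: ys, by simp [h1], fun y hy => ?_, fun z => ?_⟩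
    · rcases List.mem_cons.1 hy with h | h
      exacts [⟨_, h⟩, h2 y h]
    have e : pR F E (a + 1) = (X 1 - X (a + 2 + 1)) * pR F E a := by
      simp only [pR, Finset.prod_range_succ]
      ring
    have e2 : ∀ z, Ev x (Function.update w 1 (z * w 1)) (a + 2 + 1) (pR F E a) =
        ((ys.map (zfac F x 2)).prod * yfac F x 0 ^ E) (ph (w 0) (w 1)) z * w (a + 2) :=
      fun z => by
      rw [Ev_succ, h3, Function.update_of_ne (by omega)]
      simp only [pR, map_mul, map_prod, map_sub, rename_X, map_pow]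
      congr 1
      refine Finset.prod_congr rfl fun i hi => ?_
      have := Finset.mem_range.1 hi
      rw [if_pos (by omega), if_pos (by omega)]
    rw [e, sub_mul, map_sub, show a + 1 + 2 = a + 2 + 1 from rfl, Ev_Xtop,
      Ev_Xl _ _ _ _ (by omega), Function.update_idem, Function.update_self, ← mul_assoc, e2, e2]
    simp [zfac, mul_assoc]

theorem Z_kI [CharZero F] {ε : Λ →ₐ[F] F} {n : ℕ} (H : Ids ε n) {σ : Type} [Finite σ]
    {xs : σ → Λ} (hG : Gen ε xs) {K : ℕ} (hK : Tf F Λ K = ⊥) {x : Λ} (hx : ε x = 0) :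
    ∃ h h', pL F h h ∈ kI x (h + 1) (Bk ε) (isId_Bk ε) ∧
      pR F h' h' ∈ kI x (h' + 2) (Bk ε) (isId_Bk ε) := by
  obtain ⟨h, h1⟩ := Zop H hG hx (Or.inl ⟨rfl, rfl⟩) K
  obtain ⟨h', h2⟩ := Zop H hG hx (Or.inr ⟨rfl, rfl⟩) K
  refine ⟨h, h', fun w hw => ?_, fun w hw => ?_⟩
  · obtain ⟨ys, a1, a2, a3⟩ := pL_op (F := F) x h h w
    have := Fk_val (h1 ys a1 (fun y hy => let ⟨i, hi⟩ := a2 y hy; hi ▸ hw i) _
      (ph_mem0 1 (w h))) 1
    rw [← a3, hK] at this
    simpa using this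
  · obtain ⟨ys, a1, a2, a3⟩ := pR_op (F := F) x h' h' w
    have := Fk_val (h2 ys a1 (fun y hy => let ⟨i, hi⟩ := a2 y hy; hi ▸ hw i) _
      (ph_mem0 (w 0) (w 1))) 1
    rw [← a3, hK] at this
    simpa using this

end Pool.Agent.Lib.MP_038c09_al.As
end

-- part Pool.Agent.Lib.MP_038c09_al.AsFG
section

/-! Finite generation of the visible parts. -/

namespace Pool.Agent.Lib.MP_038c09_al.As

variable {F : Type} [Field F] {Λ : Type} [Ring Λ] [Algebra F Λ]

theorem fin_mod_ann {A : Type} [CommRing A] [Algebra F A] (A0 : Subalgebra F A) {ι : Type}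
    [Finite ι] (m : ι → A) (htop : ∀ S : Subalgebra F A, A0 ≤ S → (∀ i, m i ∈ S) → S = ⊤)
    (J : Ideal A) (hint : ∀ i, IsIntegral A0 (Ideal.Quotient.mk J (m i))) :
    ∃ T : Set A, T.Finite ∧ ∀ a, ∃ b ∈ Submodule.span A0 T, a - b ∈ J := by
  set S' := Algebra.adjoin A0 (Set.range fun i => Ideal.Quotient.mk J (m i))
  obtain ⟨t, ht⟩ := fg_adjoin_of_finite (R := A0)
    (Set.finite_range fun i => Ideal.Quotient.mk J (m i)) (by rintro _ ⟨i, rfl⟩; exact hint i)
  have h1 := htop ((S'.restrictScalars F).comap (Ideal.Quotient.mkₐ F J))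
    (fun a ha => S'.algebraMap_mem ⟨a, ha⟩) fun i => Algebra.subset_adjoin ⟨i, rfl⟩
  refine ⟨Function.surjInv (Ideal.Quotient.mk_surjective (I := J)) '' t,
    t.finite_toSet.image _, fun a => ?_⟩
  have h2 : Ideal.Quotient.mk J a ∈ Submodule.span A0 (t : Set (A ⧸ J)) := by
    rw [ht]; exact (h1.ge (Algebra.mem_top (x := a)) :)
  have h3 : (t : Set (A ⧸ J)) = (Ideal.Quotient.mkₐ A0 J).toLinearMap ''
      (Function.surjInv (Ideal.Quotient.mk_surjective (I := J)) '' t) := by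
    rw [Set.image_image]; simp [Function.surjInv_eq]
  rw [h3, ← Submodule.map_span] at h2
  obtain ⟨b, hb, e⟩ := h2
  exact ⟨b, hb, (Ideal.Quotient.eq.1 e.symm)⟩

noncomputable def Cyc (k : ℕ) (φ : Λ → Λ) (h : φ ∈ Fk F Λ k) : Submodule F (Λ → Λ) :=
  Gr.pull (Submodule.span (G3 F Λ k).A {(G3 F Λ k).cl φ h})

theorem Cyc_le (k : ℕ) (φ : Λ → Λ) (h : φ ∈ Fk F Λ k) : Cyc k φ h ≤ Fk F Λ k :=
  fun _ h => (Gr.mem_pull.1 h).1

theorem le_Cyc (k : ℕ) (φ : Λ → Λ) (h : φ ∈ Fk F Λ k) : Fk F Λ (k + 1) ≤ Cyc k φ h :=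
  fun ψ hψ => Gr.mem_pull.2 ⟨(G3 F Λ k).le hψ, by
    rw [((G3 F Λ k).cl_eq_zero _).2 hψ]; exact Submodule.zero_mem _⟩

theorem self_Cyc (k : ℕ) (φ : Λ → Λ) (h : φ ∈ Fk F Λ k) : φ ∈ Cyc k φ h :=
  Gr.mem_pull.2 ⟨h, Submodule.subset_span rfl⟩

theorem lifts_Cyc {k : ℕ} {φ : Λ → Λ} {h : φ ∈ Fk F Λ k} {θ : Module.End F (Λ → Λ)}
    {a : (G3 F Λ k).A} (hl : (G3 F Λ k).Lifts θ a) {ψ : Λ → Λ} (hψ : ψ ∈ Cyc k φ h) :
    θ ψ ∈ Cyc k φ h := by
  obtain ⟨h1, h2⟩ := Gr.mem_pull.1 hψ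
  obtain ⟨h3, h4⟩ := hl ψ h1
  exact Gr.mem_pull.2 ⟨h3, h4 ▸ Submodule.smul_mem _ a h2⟩

theorem op_Cyc {k : ℕ} {φ : Λ → Λ} {h : φ ∈ Fk F Λ k} (i : Fin 3) (a : Λ) {ψ : Λ → Λ}
    (hψ : ψ ∈ Cyc k φ h) : op F i a ψ ∈ Cyc k φ h := lifts_Cyc (lifts_lam k i a) hψ

noncomputable def A0 (F : Type) [Field F] [Algebra F Λ] (k : ℕ) {σ : Type} (xs : σ → Λ)
    (I : Set (Fin 3)) : Subalgebra F (G3 F Λ k).A :=
  Algebra.adjoin F {u | ∃ i ∈ I, ∃ s, u = lam F k i (xs s)}

theorem mem_A0 (k : ℕ) {σ : Type} (xs : σ → Λ) {I : Set (Fin 3)} {i : Fin 3} (hi : i ∈ I)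
    (s : σ) : lam F k i (xs s) ∈ A0 F k xs I := Algebra.subset_adjoin ⟨i, hi, s, rfl⟩

theorem cyc_fg {ε : Λ →ₐ[F] F} {σ : Type} [Finite σ] {xs : σ → Λ} (hG : Gen ε xs) (k : ℕ)
    (φ : Λ → Λ) (h : φ ∈ Fk F Λ k) {Z : Module.End F (Λ → Λ)} {z : (G3 F Λ k).A}
    (hZ : (G3 F Λ k).Lifts Z z) (I : Set (Fin 3))
    (hint : ∀ j ∉ I, ∀ s, ∃ p : Polynomial (A0 F k xs I), p.Monic ∧
      z * Polynomial.aeval (lam F k j (xs s)) p = 0) :
    ∃ S : Set (Λ → Λ), S.Finite ∧ S ⊆ Cyc k φ h ∧ ∀ W : Submodule F (Λ → Λ), S ⊆ W →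
      (∀ ψ ∈ Cyc k φ h, Z ψ ∈ Fk F Λ (k + 1) → ψ ∈ W) →
      (∀ i ∈ I, ∀ s, ∀ ψ ∈ W ⊓ Cyc k φ h, op F i (xs s) ψ ∈ W) → Cyc k φ h ≤ W := by
  obtain ⟨T, hT, hT'⟩ := fin_mod_ann (A0 F k xs I) (fun p : Fin 3 × σ => lam F k p.1 (xs p.2))
    (fun S _ h2 => by
      rw [eq_top_iff, ← Gr.adjoin_gen, Algebra.adjoin_le_iff]
      rintro _ ⟨⟨i, a⟩, rfl⟩
      have : Algebra.adjoin F (Set.range xs) ≤ S.comap (lam F k i) :=
        Algebra.adjoin_le (by rintro _ ⟨s, rfl⟩; exact h2 (i, s))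
      exact this (hG.top ▸ Algebra.mem_top (x := a)))
    (LinearMap.ker (LinearMap.mulLeft _ z)) fun ⟨j, s⟩ => by
      by_cases hj : j ∈ I
      · exact isIntegral_algebraMap (x := (⟨_, mem_A0 k xs hj s⟩ : A0 F k xs I))
      · obtain ⟨p, h1, h2⟩ := hint j hj s
        refine ⟨p, h1, ?_⟩
        have := Polynomial.aeval_algHom_apply
          (Ideal.Quotient.mkₐ (A0 F k xs I) (LinearMap.ker (LinearMap.mulLeft _ z)))
          (lam F k j (xs s)) p
        exact this.trans (Ideal.Quotient.eq_zero_iff_mem.2 h2)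
  choose f hf hf' using fun a : (G3 F Λ k).A => (G3 F Λ k).cl_surj (a • (G3 F Λ k).cl φ h)
  have hfC : ∀ a, f a ∈ Cyc k φ h := fun a => Gr.mem_pull.2 ⟨hf a,
    hf' a ▸ Submodule.smul_mem _ a (Submodule.subset_span rfl)⟩
  refine ⟨f '' T, hT.image _, by rintro _ ⟨a, -, rfl⟩; exact hfC a, fun W h1 h2 h3 ψ hψ => ?_⟩
  let P : (G3 F Λ k).Q → Prop := fun q => ∃ χ hχ, χ ∈ W ⊓ Cyc k φ h ∧ (G3 F Λ k).cl χ hχ = q
  have Padd : ∀ q q', P q → P q' → P (q + q') := by
    rintro _ _ ⟨x, h, h1, rfl⟩ ⟨y, h', h2, rfl⟩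
    exact ⟨x + y, Submodule.add_mem _ h h', Submodule.add_mem _ h1 h2, rfl⟩
  have Psm : ∀ a ∈ A0 F k xs I, ∀ q, P q → P (a • q) := fun a ha => by
    induction ha using Algebra.adjoin_induction with
    | mem _ h =>
      obtain ⟨i, hi, s, rfl⟩ := h
      rintro _ ⟨x, h, h1, rfl⟩
      obtain ⟨h4, h5⟩ := lifts_lam k i (xs s) x h
      exact ⟨_, h4, ⟨h3 i hi s x h1, op_Cyc i _ h1.2⟩, h5⟩
    | algebraMap c =>
      rintro _ ⟨x, h, h1, rfl⟩
      exact ⟨c • x, Submodule.smul_mem _ c h, Submodule.smul_mem _ c h1, rfl⟩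
    | add a b _ _ ha hb => intro q hq; rw [add_smul]; exact Padd _ _ (ha q hq) (hb q hq)
    | mul a b _ _ ha hb => intro q hq; rw [mul_smul]; exact ha _ (hb q hq)
  obtain ⟨hψ1, hψ2⟩ := Gr.mem_pull.1 hψ
  obtain ⟨a, ha⟩ := Submodule.mem_span_singleton.1 hψ2
  obtain ⟨b, hb, hab⟩ := hT' a
  have hP : P (b • (G3 F Λ k).cl φ h) := by
    clear hab
    induction hb using Submodule.span_induction with
    | mem t ht => exact ⟨f t, hf t, ⟨h1 ⟨t, ht, rfl⟩, hfC t⟩, hf' t⟩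
    | zero => exact ⟨0, Submodule.zero_mem _, Submodule.zero_mem _, by rw [zero_smul]; rfl⟩
    | add x y _ _ hx hy => rw [add_smul]; exact Padd _ _ hx hy
    | smul c x _ hx =>
      rw [show c • x = (c : (G3 F Λ k).A) * x from rfl, mul_smul]; exact Psm _ c.2 _ hx
  obtain ⟨χ, hχ, h4, h5⟩ := hP
  have h6 : ψ - χ ∈ W := h2 _ (Submodule.sub_mem _ hψ h4.2) (by
    obtain ⟨h7, h8⟩ := hZ _ (Submodule.sub_mem _ hψ1 hχ)
    refine ((G3 F Λ k).cl_eq_zero h7).1 ?_
    rw [h8, show (G3 F Λ k).cl (ψ - χ) _ = (G3 F Λ k).cl ψ hψ1 - (G3 F Λ k).cl χ hχ from rfl,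
      ← ha, h5, ← sub_smul, ← mul_smul, show z * (a - b) = 0 from hab, zero_smul])
  simpa using W.add_mem h6 h4.1

def biSpan (F : Type) [Field F] [Algebra F Λ] (U : Set Λ) : Submodule F Λ :=
  Submodule.span F {v | ∃ p q, ∃ u ∈ U, v = p * u * q}

theorem isId_biSpan (U : Set Λ) : IsId (biSpan F U) := fun u v hv => by
  induction hv using Submodule.span_induction with
  | mem _ h =>
    obtain ⟨a, b, c, hc, rfl⟩ := h
    exact ⟨Submodule.subset_span ⟨u * a, b, c, hc, by simp [mul_assoc]⟩,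
      Submodule.subset_span ⟨a, b * u, c, hc, by simp [mul_assoc]⟩⟩
  | zero => simp
  | add x y _ _ hx hy =>
    rw [mul_add, add_mul]; exact ⟨Submodule.add_mem _ hx.1 hy.1, Submodule.add_mem _ hx.2 hy.2⟩
  | smul c x _ hx =>
    rw [mul_smul_comm, smul_mul_assoc]
    exact ⟨Submodule.smul_mem _ c hx.1, Submodule.smul_mem _ c hx.2⟩

theorem subset_biSpan {U : Set Λ} {u : Λ} (h : u ∈ U) : u ∈ biSpan F U :=
  Submodule.subset_span ⟨1, 1, u, h, by simp⟩

theorem biSpan_le {U : Set Λ} {J : Submodule F Λ} (hJ : IsId J) (h : U ⊆ J) : biSpan F U ≤ J :=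
  Submodule.span_le.2 (by rintro _ ⟨p, q, u, hu, rfl⟩; exact (hJ _ _ (hJ _ _ (h hu)).1).2)

theorem biSpan_mono {U U' : Set Λ} (h : U ⊆ U') : biSpan F U ≤ biSpan F U' :=
  biSpan_le (isId_biSpan _) fun _ hu => subset_biSpan (h hu)

theorem biSpan_ind {M : Type} [AddCommGroup M] [Module F M] {U : Set Λ} (f : Λ →ₗ[F] M)
    (W : Submodule F M) (h : ∀ p q, ∀ u ∈ U, f (p * u * q) ∈ W) {v : Λ} (hv : v ∈ biSpan F U) :
    f v ∈ W :=
  (Submodule.span_le (p := W.comap f)).2 (by rintro _ ⟨p, q, u, hu, rfl⟩; exact h p q u hu) hv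

def comms {σ : Type} (xs : σ → Λ) : Set Λ := Set.range fun p : σ × σ =>
  xs p.1 * xs p.2 - xs p.2 * xs p.1

theorem cT_le {ε : Λ →ₐ[F] F} {σ : Type} {xs : σ → Λ} (hG : Gen ε xs) :
    cT F Λ ≤ biSpan F (comms xs) := by
  have hJ := isId_biSpan (F := F) (comms xs)
  have key : ∀ c : Λ, (∀ s, xs s * c - c * xs s ∈ biSpan F (comms xs)) →
      ∀ b, b * c - c * b ∈ biSpan F (comms xs) := fun c hc b => by
    have hb : b ∈ Algebra.adjoin F (Set.range xs) := hG.top ▸ Algebra.mem_top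
    induction hb using Algebra.adjoin_induction with
    | mem _ h => obtain ⟨s, rfl⟩ := h; exact hc s
    | algebraMap r => rw [Algebra.commutes, sub_self]; exact Submodule.zero_mem _
    | add a b _ _ ha hb => convert Submodule.add_mem _ ha hb using 1; noncomm_ring
    | mul a b _ _ ha hb =>
      convert Submodule.add_mem _ (hJ a _ hb).1 (hJ b _ ha).2 using 1; noncomm_ring
  refine Submodule.span_le.2 ?_
  rintro _ ⟨a, b, c, d, rfl⟩
  refine (hJ _ _ (hJ _ _ (key c (fun s => ?_) b)).1).2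
  have := key (xs s) (fun t => subset_biSpan ⟨(t, s), rfl⟩) c
  convert Submodule.neg_mem _ this using 1; noncomm_ring

theorem comms_sub {σ : Type} (xs : σ → Λ) : comms xs ⊆ cT F Λ := by
  rintro _ ⟨p, rfl⟩; exact comm_mem_cT _ _

theorem Tf_succ_le' (k : ℕ) : Tf F Λ (k + 1) ≤ cT F Λ * Tf F Λ k := by
  induction k with
  | zero => exact Submodule.mul_le.2 fun a _ b hb => by
              simpa using Submodule.mul_mem_mul (isId_cT a b hb).1 (N := Tf F Λ 0) (n := 1) trivial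
  | succ k ih =>
    change Tf F Λ (k + 1) * cT F Λ ≤ cT F Λ * (Tf F Λ k * cT F Λ)
    rw [← mul_assoc]; exact mul_le_mul_left ih _

theorem monic3 {A : Type} [CommRing A] [Algebra F A] (A0 : Subalgebra F A) {z m l r : A}
    (hl : l ∈ A0) (hr : r ∈ A0) (e : ℕ) (h : z * (m * (l - m) * (m - r)) ^ e = 0) :
    ∃ p : Polynomial A0, p.Monic ∧ z * Polynomial.aeval m p = 0 := by
  refine ⟨(Polynomial.X * (Polynomial.X - Polynomial.C ⟨_, hl⟩) *
    (Polynomial.X - Polynomial.C ⟨_, hr⟩)) ^ e, ((Polynomial.monic_X.mul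
    (Polynomial.monic_X_sub_C _)).mul (Polynomial.monic_X_sub_C _)).pow _, ?_⟩
  simp only [map_pow, map_mul, map_sub, Polynomial.aeval_X, Polynomial.aeval_C]
  change _ * (_ * (_ - l) * (_ - r)) ^ _ = 0
  rw [← neg_sub l, mul_neg, neg_mul, neg_pow]
  linear_combination (-1) ^ e * h

theorem monic0 {A : Type} [CommRing A] [Algebra F A] (A0 : Subalgebra F A) {z m : A}
    (e : ℕ) (h : z * m ^ e = 0) : ∃ p : Polynomial A0, p.Monic ∧ z * Polynomial.aeval m p = 0 :=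
  ⟨Polynomial.X ^ e, Polynomial.monic_X.pow _, by simpa using h⟩

/-- the step shared by the two sides. -/
theorem vis_step [CharZero F] {ε : Λ →ₐ[F] F} {n : ℕ} (H : Ids ε n) {σ : Type} [Finite σ]
    {xs : σ → Λ} (hG : Gen ε xs) {x : Λ} (hx : ε x = 0) {s : Fin 3} (hs : s ≠ 1) {k a b : ℕ}
    (hk : k ≤ a + b) {u t : Λ} (hu : u ∈ Tf F Λ a) (ht : t ∈ Tf F Λ b) :
    ∃ e : ℕ, ∃ U : Set Λ, U.Finite ∧ U ⊆ Tf F Λ k ∧ ∀ e', e ≤ e' → ∀ z,
      (op F s x ^ e') (ph u (t)) z ∈ biSpan F U ⊔ Tf F Λ (k + 1) := by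
  choose e he using fun i => nil_pattern H k hs hx (hG.h0 i) (xs i) (xs i)
  have := Fintype.ofFinite σ
  obtain ⟨S, h1, h2, h3⟩ := cyc_fg hG k _ (ph_mem hk hu ht)
    ((lifts_lam (F := F) k s x).pow (Finset.univ.sup e)) {0, 2} fun j hj i => by
      obtain rfl : j = 1 := by fin_cases j <;> simp_all
      obtain ⟨d, hd⟩ := Nat.exists_eq_add_of_le (Finset.le_sup (f := e) (Finset.mem_univ i))
      refine monic3 _ (mem_A0 k xs (i := 0) (by simp) i) (mem_A0 k xs (i := 2) (by simp) i)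
        (e i) ?_
      have h4 := he i
      rw [mul_pow] at h4
      rw [hd, add_comm, pow_add, mul_assoc, h4, mul_zero]
  set Z := op F s x ^ Finset.univ.sup e
  have hI := (isId_biSpan (F := F) ((fun ψ => Z ψ 1) '' S)).sup (isId_Tf (k + 1))
  have hZ : ∀ ψ ∈ Fk F Λ k, Z ψ ∈ Fk F Λ k := fun ψ hψ =>
    (((lifts_lam (F := F) k s x).pow (Finset.univ.sup e)) ψ hψ).1
  have := h3 ((biSpan F ((fun ψ => Z ψ 1) '' S) ⊔ Tf F Λ (k + 1)).comap (LinearMap.proj 1 ∘ₗ Z))
    (fun ψ hψ => Submodule.mem_sup_left (subset_biSpan ⟨ψ, hψ, rfl⟩))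
    (fun ψ _ h => Submodule.mem_sup_right (Fk_val h 1)) fun i hi j ψ hψ => by
      have a1 := ((((lifts_lam (F := F) k s x).pow (Finset.univ.sup e)).mul
        (lifts_lam k i (xs j))).sub ((lifts_lam k i (xs j)).mul
        ((lifts_lam (F := F) k s x).pow (Finset.univ.sup e))))
      rw [mul_comm, sub_self] at a1
      have a2 := Fk_val (a1.mem (Cyc_le _ _ _ hψ.2)) 1
      have a3 : op F i (xs j) (Z ψ) 1 ∈ biSpan F ((fun ψ => Z ψ 1) '' S) ⊔ Tf F Λ (k + 1) := by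
        rcases hi with rfl | rfl
        exacts [(hI _ _ hψ.1).1, (hI _ _ hψ.1).2]
      have a4 := Submodule.add_mem _ (Submodule.mem_sup_right a2) a3
      change Z (op F i (xs j) ψ) 1 - op F i (xs j) (Z ψ) 1 + _ ∈ _ at a4
      rw [sub_add_cancel] at a4
      exact a4
  refine ⟨Finset.univ.sup e, _, h1.image fun ψ => Z ψ 1, ?_, fun e' he' z => ?_⟩
  · rintro _ ⟨ψ, hψ, rfl⟩; exact Fk_val (hZ ψ (Cyc_le _ _ _ (h2 hψ))) 1
  · obtain ⟨d, rfl⟩ := Nat.exists_eq_add_of_le' he'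
    have a1 : Z (op F 1 z (ph u t)) 1 ∈ biSpan F ((fun ψ => Z ψ 1) '' S) ⊔ Tf F Λ (k + 1) :=
      this (op_Cyc 1 z (self_Cyc _ _ _))
    have a2 := LinearMap.congr_fun ((op_comm (F := F) hs x z).pow_left (Finset.univ.sup e)).eq
      (ph u t)
    simp only [Module.End.mul_apply] at a2
    rw [a2, op1, mul_one] at a1
    rw [pow_add, Module.End.mul_apply]
    induction d with
    | zero => exact a1
    | succ d ih =>
      rw [pow_succ', Module.End.mul_apply]
      have ih := ih (by omega)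
      fin_cases s
      exacts [(hI _ _ ih).1, absurd rfl hs, (hI _ _ ih).2]

theorem op0_pow (x : Λ) (e : ℕ) (φ : Λ → Λ) (z : Λ) : (op F 0 x ^ e) φ z = x ^ e * φ z := by
  induction e with
  | zero => simp
  | succ e ih => rw [pow_succ', Module.End.mul_apply, op0, ih, pow_succ', mul_assoc]

theorem op2_pow (x : Λ) (e : ℕ) (φ : Λ → Λ) (z : Λ) : (op F 2 x ^ e) φ z = φ z * x ^ e := by
  induction e with
  | zero => simp
  | succ e ih => rw [pow_succ', Module.End.mul_apply, op2, ih, pow_succ, mul_assoc]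

theorem FGL [CharZero F] {ε : Λ →ₐ[F] F} {n : ℕ} (H : Ids ε n) {σ : Type} [Finite σ]
    {xs : σ → Λ} (hG : Gen ε xs) {x : Λ} (hx : ε x = 0) (k : ℕ) :
    ∃ L : ℕ, ∃ U : Set Λ, U.Finite ∧ U ⊆ Tf F Λ k ∧ ∀ L', L ≤ L' → ∀ v ∈ Tf F Λ k,
      x ^ L' * v ∈ biSpan F U ⊔ Tf F Λ (k + 1) := by
  induction k with
  | zero => exact ⟨0, {1}, Set.finite_singleton _, fun _ _ => trivial, fun L' _ v _ =>
      Submodule.mem_sup_left (Submodule.subset_span ⟨x ^ L' * v, 1, 1, rfl, by simp⟩)⟩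
  | succ k ih =>
    obtain ⟨L, U, h1, h2, h3⟩ := ih
    have := h1.to_subtype
    have : Finite (comms xs) := (Set.finite_range _).to_subtype
    choose e U' a1 a2 a3 using fun p : U × comms xs => vis_step H hG hx (s := 0) (by simp)
      (le_refl (k + 1)) (h2 p.1.2) (cT_le_Tf1 (comms_sub xs p.2.2))
    obtain ⟨M, hM⟩ := Finite.exists_le e
    refine ⟨M + L, ⋃ p, U' p, Set.finite_iUnion a1, Set.iUnion_subset a2, fun L' hL v hv => ?_⟩
    obtain ⟨e', rfl⟩ := Nat.exists_eq_add_of_le' (show L ≤ L' by omega)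
    have hI := (isId_biSpan (F := F) (⋃ p, U' p)).sup (isId_Tf (k + 1 + 1))
    refine Submodule.mul_induction_on hv (fun v1 hv1 c hc => ?_) fun x y hx hy => by
      rw [mul_add]; exact Submodule.add_mem _ hx hy
    obtain ⟨b, hb, d, hd, e1⟩ := Submodule.mem_sup.1 (h3 L le_rfl v1 hv1)
    rw [pow_add, mul_assoc, ← mul_assoc (x ^ L), ← e1, add_mul, mul_add]
    refine Submodule.add_mem _ ?_ (hI _ _ (Submodule.mem_sup_right (Tf_mul hd (cT_le_Tf1 hc)))).1
    refine biSpan_ind (LinearMap.mulLeft F (x ^ e') ∘ₗ LinearMap.mulRight F c) _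
      (fun a a' u hu => ?_) hb
    refine biSpan_ind (LinearMap.mulLeft F (x ^ e') ∘ₗ LinearMap.mulLeft F (a * u * a')) _
      (fun p q t ht => ?_) (cT_le hG hc)
    have b1 := a3 (⟨u, hu⟩, ⟨t, ht⟩) e' (by have := hM (⟨u, hu⟩, ⟨t, ht⟩); omega) (a' * p)
    rw [op0_pow] at b1
    have b2 := (sup_le_sup_right (biSpan_mono (Set.subset_iUnion U' _)) _) b1
    have b3 := Tf_comm_l (Tf_mul (isId_Tf _ (a' * p) _ (h2 hu)).2
      (cT_le_Tf1 (comms_sub xs ht))) (x ^ e') a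
    convert (hI q _ (Submodule.add_mem _ (hI a _ b2).1 (Submodule.mem_sup_right b3))).2 using 1
    simp only [LinearMap.comp_apply, LinearMap.mulLeft_apply, ph]
    noncomm_ring

theorem FGR [CharZero F] {ε : Λ →ₐ[F] F} {n : ℕ} (H : Ids ε n) {σ : Type} [Finite σ]
    {xs : σ → Λ} (hG : Gen ε xs) {x : Λ} (hx : ε x = 0) (k : ℕ) :
    ∃ L : ℕ, ∃ U : Set Λ, U.Finite ∧ U ⊆ Tf F Λ k ∧ ∀ L', L ≤ L' → ∀ v ∈ Tf F Λ k,
      v * x ^ L' ∈ biSpan F U ⊔ Tf F Λ (k + 1) := by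
  induction k with
  | zero => exact ⟨0, {1}, Set.finite_singleton _, fun _ _ => trivial, fun L' _ v _ =>
      Submodule.mem_sup_left (Submodule.subset_span ⟨v * x ^ L', 1, 1, rfl, by simp⟩)⟩
  | succ k ih =>
    obtain ⟨L, U, h1, h2, h3⟩ := ih
    have := h1.to_subtype
    have : Finite (comms xs) := (Set.finite_range _).to_subtype
    choose e U' a1 a2 a3 using fun p : U × comms xs => vis_step H hG hx (s := 2) (by simp)
      (show k + 1 ≤ 1 + k by omega) (cT_le_Tf1 (comms_sub xs p.2.2)) (h2 p.1.2)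
    obtain ⟨M, hM⟩ := Finite.exists_le e
    refine ⟨M + L, ⋃ p, U' p, Set.finite_iUnion a1, Set.iUnion_subset a2, fun L' hL v hv => ?_⟩
    obtain ⟨e', rfl⟩ := Nat.exists_eq_add_of_le (show L ≤ L' by omega)
    have hI := (isId_biSpan (F := F) (⋃ p, U' p)).sup (isId_Tf (k + 1 + 1))
    refine Submodule.mul_induction_on (Tf_succ_le' k hv) (fun c hc v1 hv1 => ?_)
      fun x y hx hy => by rw [add_mul]; exact Submodule.add_mem _ hx hy
    obtain ⟨b, hb, d, hd, e1⟩ := Submodule.mem_sup.1 (h3 L le_rfl v1 hv1)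
    rw [pow_add, ← mul_assoc, mul_assoc c, ← e1, mul_add, add_mul]
    refine Submodule.add_mem _ ?_ (hI _ _ (Submodule.mem_sup_right
      (Nat.add_comm 1 (k + 1) ▸ Tf_mul (cT_le_Tf1 hc) hd))).2
    refine biSpan_ind (LinearMap.mulRight F (x ^ e') ∘ₗ LinearMap.mulLeft F c) _
      (fun a a' u hu => ?_) hb
    refine biSpan_ind (LinearMap.mulRight F (x ^ e') ∘ₗ LinearMap.mulRight F (a * u * a')) _
      (fun p q t ht => ?_) (cT_le hG hc)
    have b1 := a3 (⟨u, hu⟩, ⟨t, ht⟩) e' (by have := hM (⟨u, hu⟩, ⟨t, ht⟩); omega) (q * a)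
    rw [op2_pow] at b1
    have b2 := (sup_le_sup_right (biSpan_mono (Set.subset_iUnion U' _)) _) b1
    have b3 := Tf_comm_r (Nat.add_comm 1 k ▸ Tf_mul (isId_Tf _ (q * a) _
      (cT_le_Tf1 (comms_sub xs ht))).2 (h2 hu)) a' (x ^ e')
    convert (hI p _ (Submodule.add_mem _ (hI a' _ b2).2 (Submodule.mem_sup_right b3))).1 using 1
    simp only [LinearMap.comp_apply, LinearMap.mulRight_apply, ph]
    noncomm_ring

end Pool.Agent.Lib.MP_038c09_al.As
end
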