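import Pool.Agent.Lib.MP_038c09_al.AsDefs

/-! The iterated commutator used in the identities of associative RFD-varieties. -/

namespace Pool.Agent.Lib.MP_038c09_al

/-- The `n`-fold commutator `[x, [x, ..., [x, y]]]`, where `[x, v] = x v - v x`. -/
noncomputable def cm {F : Type} [Field F] (n : ℕ) (x y : FA F ℕ) : FA F ℕ :=
  (fun v => x * v - v * x)^[n] y

end Pool.Agent.Lib.MP_038c09_al
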