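import Pool.Agent.Lib.MP_038c09_al.AsIdent
import Pool.Agent.Lib.MP_038c09_al.AsIdDefs

/-! The classification of associative RFD-varieties by explicit identities. -/

namespace Pool.Agent.Lib.MP_038c09_al.As

open MvPolynomial

variable {F : Type} [Field F] {I : Set (FA F ℕ)}

section
variable {Λ : Type} [Ring Λ] [Algebra F Λ]

/-- The iterated commutator in an associative algebra. -/
def adn (n : ℕ) (x y : Λ) : Λ := (fun v => x * v - v * x)^[n] y

theorem val_upd_sub (x : Λ) (w : ℕ → Λ) (β : ℕ → ℕ) (i D : ℕ) (h : i < D) (a b : Λ) :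
    val x (Function.update w i (a - b)) β D =
      val x (Function.update w i a) β D - val x (Function.update w i b) β D := by
  induction D, h using Nat.le_induction with
  | base =>
    have e : ∀ c, val x (Function.update w i c) β i = val x w β i := fun c =>
      val_congr x i (fun j hj => by rw [Function.update_of_ne (by omega)]) fun _ _ => rfl
    rw [val, val, val, e, e, e]
    simp only [Function.update_self, sub_mul, mul_sub]
  | succ D hD ih =>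
    have e : ∀ c, Function.update w i c D = w D := fun c => Function.update_of_ne (by omega) _ _
    rw [val, val, val, ih, e, e, e, sub_mul]

theorem Ev_upd_sub (x : Λ) (w : ℕ → Λ) (i D : ℕ) (h : i < D) (a b : Λ) (p : MvPolynomial ℕ F) :
    Ev x (Function.update w i (a - b)) D p =
      Ev x (Function.update w i a) D p - Ev x (Function.update w i b) D p :=
  mon_ext (f := Ev x (Function.update w i (a - b)) D)
    (g := Ev x (Function.update w i a) D - Ev x (Function.update w i b) D)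
    (fun β => by simp only [LinearMap.sub_apply, Ev_mon, one_smul, val_upd_sub x w β i D h]) p

theorem Ev_iter (x : Λ) (i D : ℕ) (q : MvPolynomial ℕ F) (g : Λ → Λ)
    (h : ∀ w p, Ev x w D (q * p) = Ev x (Function.update w i (g (w i))) D p) (n : ℕ) :
    ∀ w p, Ev x w D (q ^ n * p) = Ev x (Function.update w i (g^[n] (w i))) D p := by
  induction n with
  | zero => intro w p; simp
  | succ n ih =>
    intro w p
    rw [pow_succ', mul_assoc, h, ih]
    simp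

theorem Ev_adn (x : Λ) (w : ℕ → Λ) (i D : ℕ) (h : i < D) (n : ℕ) (p : MvPolynomial ℕ F) :
    Ev x w D ((X i - X (i + 1)) ^ n * p) = Ev x (Function.update w i (adn n x (w i))) D p :=
  Ev_iter x i D _ (fun v => x * v - v * x) (fun w p => by
    rw [sub_mul, map_sub, Ev_Xl _ _ i D h, Ev_Xr _ _ i D h, Ev_upd_sub _ _ i D h]) n w p

theorem Ev_ln (x : Λ) (w : ℕ → Λ) (i D : ℕ) (h : i < D) (n : ℕ) (p : MvPolynomial ℕ F) :
    Ev x w D (X i ^ n * p) = Ev x (Function.update w i ((x * ·)^[n] (w i))) D p :=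
  Ev_iter x i D _ (x * ·) (fun _ p => Ev_Xl _ _ i D h p) n w p

theorem Ev_rn (x : Λ) (w : ℕ → Λ) (i D : ℕ) (h : i < D) (n : ℕ) (p : MvPolynomial ℕ F) :
    Ev x w D (X (i + 1) ^ n * p) = Ev x (Function.update w i ((· * x)^[n] (w i))) D p :=
  Ev_iter x i D _ (· * x) (fun _ p => Ev_Xr _ _ i D h p) n w p

theorem ln_eq (x u : Λ) (n : ℕ) : (x * ·)^[n] u = x ^ n * u := by
  rw [mul_left_iterate]

theorem rn_eq (x u : Λ) (n : ℕ) : (· * x)^[n] u = u * x ^ n := by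
  rw [mul_right_iterate]

theorem Ev_g1 (x : Λ) (w : ℕ → Λ) (n : ℕ) : Ev x w 2 ((X 0 * gA F) ^ n) =
    x ^ n * (adn n x (w 0) * (x ^ n * adn n x (w 1))) := by
  rw [show (X 0 * gA F) ^ n = (X 0 - X (0 + 1)) ^ n * ((X 1 - X (1 + 1)) ^ n *
    (X 0 ^ n * (X 1 ^ n * 1))) by simp only [gA, mul_pow]; ring, Ev_adn _ _ 0 2 (by omega),
    Ev_adn _ _ 1 2 (by omega), Ev_ln _ _ 0 2 (by omega), Ev_ln _ _ 1 2 (by omega), Ev_one]
  simp [pr, ln_eq, mul_assoc]

theorem Ev_g2 (x : Λ) (w : ℕ → Λ) (n : ℕ) : Ev x w 2 ((X 2 * gA F) ^ n) =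
    adn n x (w 0) * (x ^ n * adn n x (w 1)) * x ^ n := by
  rw [show (X 2 * gA F) ^ n = (X 0 - X (0 + 1)) ^ n * ((X 1 - X (1 + 1)) ^ n *
    (X 1 ^ n * (X (1 + 1) ^ n * 1))) by simp only [gA, mul_pow]; ring, Ev_adn _ _ 0 2 (by omega),
    Ev_adn _ _ 1 2 (by omega), Ev_ln _ _ 1 2 (by omega), Ev_rn _ _ 1 2 (by omega), Ev_one]
  simp [pr, ln_eq, rn_eq, mul_assoc]

theorem Ev_g3 (x : Λ) (w : ℕ → Λ) (n : ℕ) : Ev x w 3 (gC F ^ n * (X 1 - X 2)) =
    adn n x (w 0) * (x ^ n * (adn 1 x (w 1) * x ^ n)) * adn n x (w 2) := by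
  rw [show gC F ^ n * (X 1 - X 2) = (X 0 - X (0 + 1)) ^ n * ((X 1 - X (1 + 1)) ^ 1 *
    ((X 2 - X (2 + 1)) ^ n * (X (1 + 1) ^ n * (X 1 ^ n * 1)))) by
      simp only [gC, mul_pow]; ring,
    Ev_adn _ _ 0 3 (by omega), Ev_adn _ _ 1 3 (by omega), Ev_adn _ _ 2 3 (by omega),
    Ev_rn _ _ 1 3 (by omega), Ev_ln _ _ 1 3 (by omega), Ev_one]
  simp [pr, ln_eq, rn_eq, mul_assoc]

theorem adn_sub (x y : Λ) (c : F) {n : ℕ} (hn : 1 ≤ n) :
    adn n x (y - algebraMap F Λ c) = adn n x y := by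
  obtain ⟨m, rfl⟩ : ∃ m, n = m + 1 := ⟨n - 1, by omega⟩
  simp only [adn, Function.iterate_succ_apply]
  rw [mul_sub, sub_mul, Algebra.commutes c x, sub_sub_sub_cancel_right]

theorem map_iter (ν : FA F ℕ →ₙₐ[F] Λ) (g : FA F ℕ → FA F ℕ) (g' : Λ → Λ)
    (h : ∀ u, ν (g u) = g' (ν u)) (n : ℕ) (u : FA F ℕ) : ν (g^[n] u) = g'^[n] (ν u) :=
  Function.Semiconj.iterate_right (f := ν) h n u

theorem map_cm (ν : FA F ℕ →ₙₐ[F] Λ) (n : ℕ) (x y : FA F ℕ) :
    ν (cm n x y) = adn n (ν x) (ν y) :=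
  map_iter ν _ _ (fun u => by rw [map_sub, map_mul, map_mul]) n y

theorem map_ln (ν : FA F ℕ →ₙₐ[F] Λ) (n : ℕ) (x y : FA F ℕ) :
    ν ((x * ·)^[n] y) = ν x ^ n * ν y :=
  (map_iter ν _ (ν x * ·) (fun u => map_mul ν x u) n y).trans (ln_eq _ _ _)

theorem map_rn (ν : FA F ℕ →ₙₐ[F] Λ) (n : ℕ) (x y : FA F ℕ) :
    ν ((· * x)^[n] y) = ν y * ν x ^ n :=
  (map_iter ν _ (· * ν x) (fun u => map_mul ν u x) n y).trans (rn_eq _ _ _)

end

/-- The three identities of level `n` hold in the variety. -/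
def Three (I : Set (FA F ℕ)) (n : ℕ) : Prop := ∀ x y z t : FA F ℕ,
  (x * ·)^[n] (cm n x y * (x * ·)^[n] (cm n x z)) ∈ idealGen (TVal I ℕ) ∧
  (· * x)^[n] (cm n x y * (x * ·)^[n] (cm n x z)) ∈ idealGen (TVal I ℕ) ∧
  cm n x y * (x * ·)^[n] ((· * x)^[n] (cm 1 x z)) * cm n x t ∈ idealGen (TVal I ℕ)

theorem evf_kill {σ : Type} (φ : ℕ → RF I σ) (h : ∀ i, φ i ∈ Bk (epsR I σ)) {g : FA F ℕ}
    (hg : g ∈ idealGen (TVal I ℕ)) : evf φ g = 0 := by
  refine idealGen_le (J := LinearMap.ker (nl (evf φ))) (fun a b hb => ?_) ?_ hg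
  · have : evf φ b = 0 := hb
    simp [this]
  · rintro _ ⟨f, hf, ψ, rfl⟩
    exact (map_evf' (evf φ) ψ f).trans (sat_RF f hf _ fun i =>
      evf_mem (fun a _ b hb => (isId_Bk _ a b hb).1) h _)

theorem ids_of_three {n : ℕ} (hn : 1 ≤ n) (H : Three I n) (σ : Type) : Ids (epsR I σ) n := by
  have key : ∀ x, epsR I σ x = 0 → ∀ w : ℕ → RF I σ,
      x ^ n * (adn n x (w 0) * (x ^ n * adn n x (w 1))) = 0 ∧
      adn n x (w 0) * (x ^ n * adn n x (w 1)) * x ^ n = 0 ∧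
      adn n x (w 0) * (x ^ n * (adn 1 x (w 1) * x ^ n)) * adn n x (w 2) = 0 := fun x hx w => by
    let φ : ℕ → RF I σ := fun i =>
      Nat.casesOn i x fun j => w j - algebraMap F _ (epsR I σ (w j))
    have hφ : ∀ i, φ i ∈ Bk (epsR I σ) := by
      rintro (_ | i)
      · exact hx
      · simp [φ, mem_Bk]
    obtain ⟨a, b, c⟩ := H (FreeNonUnitalNonAssocAlgebra.of F 0)
      (FreeNonUnitalNonAssocAlgebra.of F 1) (FreeNonUnitalNonAssocAlgebra.of F 2)
      (FreeNonUnitalNonAssocAlgebra.of F 3)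
    have a' := evf_kill φ hφ a
    have b' := evf_kill φ hφ b
    have c' := evf_kill φ hφ c
    simp only [map_ln, map_rn, map_mul, map_cm,
      FreeNonUnitalNonAssocAlgebra.lift_of_apply] at a' b' c'
    have e0 : φ 0 = x := rfl
    have e1 : adn n x (φ 1) = adn n x (w 0) := adn_sub _ _ _ hn
    have e2 : adn n x (φ 2) = adn n x (w 1) := adn_sub _ _ _ hn
    have e3 : adn 1 x (φ 2) = adn 1 x (w 1) := adn_sub _ _ _ le_rfl
    have e4 : adn n x (φ 3) = adn n x (w 2) := adn_sub _ _ _ hn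
    rw [e0, e1] at a' b' c'
    rw [e2] at a' b'
    rw [e3, e4] at c'
    exact ⟨a', b', c'⟩
  exact ⟨fun x hx w => (Ev_g1 x w n).trans (key x hx w).1,
    fun x hx w => (Ev_g2 x w n).trans (key x hx w).2.1,
    fun x hx w => (Ev_g3 x w n).trans (key x hx w).2.2⟩

theorem mem_of_nu (hA : asc F ∈ idealGen (TVal I ℕ)) {g : FA F ℕ}
    (hg : evf (xR I ℕ) g = 0) : g ∈ idealGen (TVal I ℕ) := by
  let L := Lrep (idealGen (TVal I ℕ)) (isIdeal_idealGen _) (assoc_mem hA)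
  obtain ⟨ψ, hψ⟩ := univ (I := I) (S := LinearMap.range (nl L)) (by
      rintro _ ⟨a, rfl⟩ _ ⟨b, rfl⟩; exact ⟨a * b, map_mul L a b⟩) (fun f hf φ h => by
      choose φ' h' using h
      obtain rfl : φ = fun i => L (φ' i) := funext fun i => (h' i).symm
      exact (map_evf' L φ' f).symm.trans (Lrep_eq_zero.2 (subset_idealGen _ ⟨f, hf, φ', rfl⟩)))
    (fun s => L (FreeNonUnitalNonAssocAlgebra.of F s)) fun s => ⟨_, rfl⟩
  have h1 : ψ (evf (xR I ℕ) g) = L g := by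
    rw [map_evf]
    simp only [xR, hψ, FreeAlgebra.lift_ι_apply]
    exact NonUnitalAlgHom.congr_fun (FreeNonUnitalNonAssocAlgebra.lift_comp_of F L) g
  exact Lrep_eq_zero.1 (h1.symm.trans (by rw [hg, map_zero]))

theorem three_of_ids (hA : asc F ∈ idealGen (TVal I ℕ)) {n : ℕ} (H : Ids (epsR I ℕ) n) :
    1 ≤ n ∧ Three I n := by
  refine ⟨Nat.pos_of_ne_zero ?_, fun x y z t => ?_⟩
  · rintro rfl
    have := congrArg (epsR I ℕ) ((Ev_g1 0 (fun _ => 1) 0).symm.trans (H.g1 0 (map_zero _) _))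
    simp [adn] at this
  · let ν : FA F ℕ →ₙₐ[F] RF I ℕ := evf (xR I ℕ)
    have hx : epsR I ℕ (ν x) = 0 := evf_mem (fun a _ b hb => (isId_Bk _ a b hb).1) gen_RF.h0 x
    let w : ℕ → RF I ℕ := fun i => if i = 0 then ν y else if i = 1 then ν z else ν t
    refine ⟨mem_of_nu hA ?_, mem_of_nu hA ?_, mem_of_nu hA ?_⟩ <;>
      simp only [map_ln, map_rn, map_mul, map_cm]
    · exact (Ev_g1 (ν x) w n).symm.trans (H.g1 _ hx w)
    · exact (Ev_g2 (ν x) w n).symm.trans (H.g2 _ hx w)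
    · exact (Ev_g3 (ν x) w n).symm.trans (H.g3 _ hx w)

theorem rfd_iff_three [CharZero F] (hA : asc F ∈ idealGen (TVal I ℕ)) :
    IsRFDVariety I ↔ ∃ n, 1 ≤ n ∧ Three I n :=
  ⟨fun h => by
    obtain ⟨h1, h2, h3, h4⟩ := (classification hA).1 h
    obtain ⟨n, H⟩ := ids_of_avoid h1 h2 h3 h4 ℕ
    exact ⟨n, three_of_ids hA H⟩,
    fun ⟨n, hn, H⟩ => rfd_of_ids hA fun σ => ⟨n, ids_of_three hn H σ⟩⟩

end Pool.Agent.Lib.MP_038c09_al.As
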