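import Pool.Agent.Lib.MP_038c09_al.AsCorner


/-! Avoiding the four algebras gives the identities. -/

namespace Pool.Agent.Lib.MP_038c09_al.As

open MvPolynomial Finset

variable {F : Type} [Field F] {I : Set (FA F ℕ)}

variable (I) in
noncomputable def JI (D : ℕ) : Ideal (MvPolynomial ℕ F) :=
  kI (xR I (Option ℕ) none) D (Bk (epsR I (Option ℕ))) (isId_Bk _)

def Cor (I : Set (FA F ℕ)) (D : ℕ) (κ : MvPolynomial ℕ F) : Prop :=
  ∀ h : Fr F, mkR I _ h = 0 → κ * rhoM F X D h 0 (Fin.last D) ∈ JI I D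

theorem hh_of {h : Fr F} (e : mkR I _ h = 0) (y : ℕ → RF I (Option ℕ))
    (hy : ∀ i, y i ∈ Bk (epsR I _)) :
    FreeAlgebra.lift F (fun o => Option.elim o (xR I _ none) y) h = 0 := by
  obtain ⟨ψ, h1, -⟩ := univ_RF (I := I) (fun o => Option.elim o (xR I _ none) y) (by
    rintro (_ | i); exacts [gen_RF.h0 _, hy i])
  rw [← h1, e, map_zero]

theorem cor2 [CharZero F] : Cor I 2 (X 0 - X 1) := fun _ e => corner2 _ (hh_of e)
theorem cor3 [CharZero F] : Cor I 3 ((X 0 - X 1) * (X 0 - X 2) * (X 3 - X 2)) :=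
  fun _ e => corner3 _ (hh_of e)

section
variable {C : Type} [CommRing C] [Algebra F C]

def AC (μ : ℕ → C) (D : ℕ) : Set (Matrix (Fin (D + 1)) (Fin (D + 1)) C) :=
  {M | (∀ i j, j < i → M i j = 0) ∧ ∃ a : Polynomial C, ∀ i, M i i = μ i * a.eval (μ i)}

theorem AC_span (μ : ℕ → C) (D : ℕ) {M : Matrix (Fin (D + 1)) (Fin (D + 1)) C} (h : M ∈ AC μ D) :
    M ∈ Submodule.span C ((Bk (aug F _)).map (rhoM F μ D).toLinearMap : Set _) := by
  obtain ⟨h1, a, h2⟩ := h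
  have e : M = Matrix.diagonal (fun i : Fin (D + 1) => μ i * a.eval (μ i)) +
      ∑ i, ∑ j, if i < j then M i j • rhoM F μ D
        (pr (fun j => FreeAlgebra.ι F (some j)) i (j - i)) else 0 := Matrix.ext fun i j => by
    simp only [Matrix.add_apply, Matrix.sum_apply, Matrix.diagonal_apply]
    rw [sum_eq_single i (fun i' _ hi => sum_eq_zero fun j' _ => by
      split_ifs with h
      · rw [Matrix.smul_apply, rho_pr, if_neg (by have := Fin.val_ne_of_ne hi; omega), smul_zero]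
      · rfl) (by simp), sum_eq_single j (fun j' _ hj => by
      split_ifs with h
      · rw [Matrix.smul_apply, rho_pr, if_neg (by have := Fin.val_ne_of_ne hj; omega), smul_zero]
      · rfl) (by simp)]
    rcases lt_trichotomy i j with h | rfl | h
    · rw [if_neg h.ne, if_pos h, Matrix.smul_apply, rho_pr, if_pos (by omega)]; simp
    · simp [h2]
    · rw [if_neg h.ne', if_neg h.not_gt, h1 i j h]; simp
  rw [e]
  refine add_mem ?_ (Submodule.sum_mem _ fun i _ => Submodule.sum_mem _ fun j _ => ?_)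
  · clear e h2
    induction a using Polynomial.induction_on' with
    | add p q hp hq => convert add_mem hp hq using 1; simp [mul_add]
    | monomial k c =>
      rw [show Matrix.diagonal _ = c • rhoM F μ D (FreeAlgebra.ι F none ^ (k + 1)) by
        simp only [rhoM, map_pow, FreeAlgebra.lift_ι_apply, Option.elim,
          Matrix.diagonal_pow, ← Matrix.diagonal_smul]
        congr 1; ext i; simp; ring]
      exact Submodule.smul_mem _ c (Submodule.subset_span ⟨_, by simp [mem_Bk, aug], rfl⟩)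
  · split_ifs with h
    · exact Submodule.smul_mem _ _ (Submodule.subset_span ⟨_, pr_mem (isId_Bk _) _ _ _ 0
        (by omega) ((gen_free _).h0 _), rfl⟩)
    · exact zero_mem _

theorem rho_entry (μ : ℕ → C) (D : ℕ) (N : Matrix (Fin (D + 1)) (Fin (D + 1)) C)
    (i j : Fin (D + 1)) : (rhoM F μ D (pr (fun j => FreeAlgebra.ι F (some j)) 0 i) * N *
      rhoM F μ D (pr (fun j => FreeAlgebra.ι F (some j)) j (D - j))) 0 (Fin.last D) = N i j := by
  rw [Matrix.mul_apply, sum_eq_single j (fun c _ hc => by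
    rw [rho_pr, if_neg (by have := Fin.val_ne_of_ne hc; simp; omega), mul_zero]) (by simp), rho_pr,
    if_pos (by simp; omega), mul_one, Matrix.mul_apply, sum_eq_single i (fun c _ hc => by
    rw [rho_pr, if_neg (by have := Fin.val_ne_of_ne hc; simp; omega), zero_mul]) (by simp), rho_pr,
    if_pos (by simp), one_mul]

theorem UU [CharZero F] {D : ℕ} {κ : MvPolynomial ℕ F} (hc : Cor I D κ)
    (ψ : MvPolynomial ℕ F →ₐ[F] C) (hψ : ∀ p ∈ JI I D, ψ p = 0) {f : FA F ℕ} (hf : f ∈ I)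
    (φ : ℕ → Matrix (Fin (D + 1)) (Fin (D + 1)) C) (hφ : ∀ i, φ i ∈ AC (fun i => ψ (X i)) D)
    (i j : Fin (D + 1)) : ψ κ * evf φ f i j = 0 := by
  refine SE f _ (ψ κ • Matrix.entryLinearMap C C i j) (fun χ hχ => ?_) φ
    fun s => AC_span (F := F) _ D (hφ s)
  choose b h1 h2 using hχ
  obtain rfl : χ = fun s => rhoM F (fun i => ψ (X i)) D (b s) := funext fun s => (h2 s).symm
  have e : ∀ h, rhoM F (fun i => ψ (X i)) D h = ψ.mapMatrix (rhoM F X D h) :=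
    AlgHom.congr_fun (FreeAlgebra.hom_ext (g := ψ.mapMatrix.comp (rhoM F X D)) (by
      ext (_ | t) a c
      · simp [rhoM, Matrix.diagonal_apply, apply_ite ψ]
      · simp [rhoM, Ee, apply_ite ψ]))
  have := hψ _ (hc (pr (fun j => FreeAlgebra.ι F (some j)) 0 i * evf b f *
    pr (fun j => FreeAlgebra.ι F (some j)) j (D - j)) (by simp [mkR_evf hf h1]))
  rw [map_mul ψ, show ψ (rhoM F X D _ 0 (Fin.last D)) = _ from
    (congrFun (congrFun (e _) 0) (Fin.last D)).symm, map_mul, map_mul, rho_entry, map_evf] at this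
  exact this

end

theorem exists_field (J : Ideal (MvPolynomial ℕ F)) (g δ : MvPolynomial ℕ F)
    (h : ∀ n, g ^ n * δ ∉ J) : ∃ (K : Type) (_ : Field K) (_ : Algebra F K)
      (ψ : MvPolynomial ℕ F →ₐ[F] K), (∀ p, p * δ ∈ J → ψ p = 0) ∧ ψ g ≠ 0 := by
  have : g ∉ Ideal.radical (Submodule.comap (LinearMap.mulRight (MvPolynomial ℕ F) δ) J) :=
    fun ⟨n, hn⟩ => h n hn
  rw [Ideal.radical_eq_sInf, Submodule.mem_sInf] at this
  push Not at this
  obtain ⟨P, ⟨h1, h2⟩, h3⟩ := this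
  exact ⟨Ideal.ResidueField P, inferInstance, inferInstance, IsScalarTower.toAlgHom F _ _,
    fun p hp => Ideal.algebraMap_residueField_eq_zero.2 (h1 hp),
    fun e => h3 (Ideal.algebraMap_residueField_eq_zero.1 e)⟩

theorem sat3 [CharZero F] {K : Type} [Field K] [Algebra F K] (ψ : MvPolynomial ℕ F →ₐ[F] K)
    (hψ : ∀ p ∈ JI I 2, ψ p = 0) (h0 : ψ (X 0) ≠ ψ (X 1)) {d : Fin 3 → ℕ} {c : K} (hc : c ≠ 0)
    (h : ∀ M ∈ Pat K d, ∃ a : Polynomial K, c * M 0 0 = ψ (X 0) * a.eval (ψ (X 0)) ∧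
      c * M 1 1 = ψ (X 1) * a.eval (ψ (X 1)) ∧ c * M 2 2 = ψ (X 2) * a.eval (ψ (X 2))) :
    Sat I (Pat F d) := sat_scaled hc fun f hf φ hφ => Matrix.ext fun i j => by
  have := UU cor2 ψ hψ hf (fun i => c • mM F K 3 (φ i)) (fun s => ⟨fun i j h => by
    simp [mM_apply, (hφ s).1 i j h], by
    obtain ⟨a, a0, a1, a2⟩ := h (mM F K 3 (φ s)) ⟨fun i j h => by simp [mM_apply, (hφ s).1 i j h],
      fun i h => by simp [mM_apply, (hφ s).2.1 i h],
      fun i j h => by simp [mM_apply, (hφ s).2.2 i j h]⟩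
    exact ⟨a, fun i => by fin_cases i; exacts [a0, a1, a2]⟩⟩) i j
  exact (mul_eq_zero.1 this).resolve_left (by rw [map_sub]; exact sub_ne_zero.2 h0)

theorem ids2 [CharZero F] (h3 : ¬ Sat I (Pat F ![1, 2, 1])) {s : ℕ}
    (hs : (s = 0 ∧ ¬ Sat I (Pat F ![1, 2, 0])) ∨ (s = 2 ∧ ¬ Sat I (Pat F ![0, 1, 2]))) :
    ∃ n, (X s * gA F) ^ n ∈ JI I 2 := by
  by_contra hn
  push Not at hn
  obtain ⟨K, _, _, ψ, h1, h2⟩ := exists_field (JI I 2) (X s * gA F) 1 (by simpa using hn)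
  simp only [mul_one, gA, map_mul, map_sub, ne_eq, mul_eq_zero, not_or, sub_eq_zero] at h1 h2
  obtain ⟨a0, ⟨a1, a2⟩, a3⟩ := h2
  have a2' := sub_ne_zero.2 a2
  have a3' := sub_ne_zero.2 a3
  by_cases h4 : ψ (X 2) = ψ (X 0)
  · have a4 : ψ (X 0) ≠ 0 := by rcases hs with h | h <;> simp_all
    refine h3 (sat3 ψ h1 a2 (c := ψ (X 0) * ψ (X 1) * (ψ (X 0) - ψ (X 1))) (by positivity)
      fun M hM => ⟨Polynomial.C (M 0 0 * ψ (X 1)) * (Polynomial.X - Polynomial.C (ψ (X 1))) -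
        Polynomial.C (M 1 1 * ψ (X 0)) * (Polynomial.X - Polynomial.C (ψ (X 0))), ?_⟩)
    rw [h4, hM.2.2 2 0 rfl]
    refine ⟨?_, ?_, ?_⟩ <;> simp <;> ring
  · have a4 := sub_ne_zero.2 h4
    rcases hs with ⟨rfl, h⟩ | ⟨rfl, h⟩
    · refine h (sat3 ψ h1 a2 (c := ψ (X 0) * ψ (X 1) * (ψ (X 0) - ψ (X 1)) * (ψ (X 2) - ψ (X 0)) *
        (ψ (X 1) - ψ (X 2))) (by positivity) fun M hM => ⟨(Polynomial.C (M 1 1 * ψ (X 0) *
          (ψ (X 0) - ψ (X 2))) * (Polynomial.X - Polynomial.C (ψ (X 0))) -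
        Polynomial.C (M 0 0 * ψ (X 1) * (ψ (X 1) - ψ (X 2))) *
          (Polynomial.X - Polynomial.C (ψ (X 1)))) * (Polynomial.X - Polynomial.C (ψ (X 2))), ?_⟩)
      rw [hM.2.1 2 rfl]
      refine ⟨?_, ?_, ?_⟩ <;> simp <;> ring
    · refine h (sat3 ψ h1 a2 (c := ψ (X 2) * ψ (X 1) * (ψ (X 0) - ψ (X 1)) * (ψ (X 2) - ψ (X 0)) *
        (ψ (X 1) - ψ (X 2))) (by positivity) fun M hM => ⟨(Polynomial.C (M 1 1 * ψ (X 2) *
          (ψ (X 0) - ψ (X 2))) * (Polynomial.X - Polynomial.C (ψ (X 2))) -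
        Polynomial.C (M 2 2 * ψ (X 1) * (ψ (X 0) - ψ (X 1))) *
          (Polynomial.X - Polynomial.C (ψ (X 1)))) * (Polynomial.X - Polynomial.C (ψ (X 0))), ?_⟩)
      rw [hM.2.1 0 rfl]
      refine ⟨?_, ?_, ?_⟩ <;> simp <;> ring

theorem map_evf_entry {A B : Type} [CommRing A] [Algebra F A] [CommRing B] [Algebra F B]
    (π : A →ₐ[F] B) {n : ℕ} (φ : ℕ → Matrix (Fin n) (Fin n) A) (f : FA F ℕ) (i j : Fin n) :
    π (evf φ f i j) = evf (fun s => π.mapMatrix (φ s)) f i j := by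
  have := map_evf π.mapMatrix φ f
  exact congrFun (congrFun this i) j

noncomputable def eP (F : Type) [Field F] (i : ℕ) : MvPolynomial ℕ F :=
  X i * (X i - X 0) * (X i - X 3)

noncomputable def nP (M : Matrix (Fin 5) (Fin 5) F) : Matrix (Fin 5) (Fin 5) (MvPolynomial ℕ F) :=
  Matrix.of fun i j => (if i = 3 ∧ j = 3 then eP F 2 else eP F 1) * C (M i j)

theorem core54 [CharZero F] {Q : Type} [CommRing Q] [Algebra F Q] (π : MvPolynomial ℕ F →ₐ[F] Q)
    (hπ : ∀ p ∈ JI I 3, π p = 0) {f : FA F ℕ} (hf : f ∈ I) (φ : ℕ → Matrix (Fin 5) (Fin 5) F)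
    (hφ : ∀ s, φ s ∈ Pat F ![0, 1, 1, 1, 0]) (i j : Fin 5) :
    π ((X 0 - X 1) * (X 0 - X 2) * (X 3 - X 2) * eP F 1 * evf (fun s => nP (φ s)) f i j *
      (X 1 - X 2)) = 0 := by
  have b0 := UU cor3 ((Polynomial.CAlgHom : Q →ₐ[F] Polynomial Q).comp π)
    (fun p hp => by simp [hπ p hp]) hf
    (fun s => m4 (π ((X 1 - X 2) * eP F 1)) (π.mapMatrix (nP (φ s)))) fun s =>
      ⟨fun i j h => by fin_cases i <;> fin_cases j <;> first | exact absurd h (by decide) | rfl,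
        (Polynomial.X - Polynomial.C (Polynomial.C (π (X 0)))) *
        (Polynomial.X - Polynomial.C (Polynomial.C (π (X 3)))) *
        (Polynomial.C (Polynomial.C (π (C (φ s 1 1)))) + Polynomial.C (Polynomial.X *
          Polynomial.C (π (eP F 1 * C (φ s 1 2)))) *
          (Polynomial.X - Polynomial.C (Polynomial.C (π (X 2))))), fun i => by
        fin_cases i <;> simp [m4, nP, eP, (hφ s).2.2 3 1 rfl] <;> ring⟩
  have b1 := lift54 (π ((X 1 - X 2) * eP F 1)) (π ((X 0 - X 1) * (X 0 - X 2) * (X 3 - X 2)))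
    (fun s => π.mapMatrix (nP (φ s))) (fun s i j h => by simp [nP, (hφ s).1 i j h])
    (fun s => by simp [nP, (hφ s).2.1 0 rfl]) (fun s => by simp [nP, (hφ s).2.1 4 rfl])
    (fun s => by simp [nP, (hφ s).2.2 2 1 rfl]) f b0 i j
  rw [← map_evf_entry π (fun s => nP (φ s))] at b1
  generalize evf (fun s => nP (φ s)) f i j = N at b1 ⊢
  simp only [map_mul] at b1 ⊢
  linear_combination b1

theorem ids3 [CharZero F] {n0 n2 : ℕ} (g1 : (X 0 * gA F) ^ n0 ∈ JI I 2)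
    (g2 : (X 2 * gA F) ^ n2 ∈ JI I 2) (h4 : ¬ Sat I (Pat F ![0, 1, 1, 1, 0])) :
    ∃ n, gC F ^ n * (X 1 - X 2) ∈ JI I 3 := by
  by_contra hn
  push Not at hn
  obtain ⟨K, _, _, ψ, h1, h2⟩ := exists_field (JI I 3) _ _ hn
  simp only [gC, map_mul, map_sub, ne_eq, mul_eq_zero, not_or, sub_eq_zero] at h2
  obtain ⟨⟨⟨a0, a1⟩, a2⟩, a3⟩ := h2
  have r : ∀ (t : ℕ) (_ : t = 1 ∨ t = 2) p, p ∈ JI I 2 →
      ψ (rename (fun i => if i ≤ t then i else i + 1) p) = 0 := fun t ht p hp =>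
    h1 _ (Ideal.mul_mem_right _ _ (rename_mem_kI (isId_Bk _) (b := 2) (fun i j hij => by
      split_ifs <;> omega) (by rcases ht with rfl | rfl <;> simp)
      (by rcases ht with rfl | rfl <;> simp) hp))
  have r1 := r 2 (by simp) _ g1
  have r2 := r 2 (by simp) _ g2
  have r3 := r 1 (by simp) _ g1
  have r4 := r 1 (by simp) _ g2
  simp only [map_pow] at r1 r2 r3 r4
  replace r2 := eq_zero_of_pow_eq_zero r2
  replace r3 := eq_zero_of_pow_eq_zero r3
  replace r4 := eq_zero_of_pow_eq_zero r4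
  simp [gA, sub_eq_zero, a0, a1, a2] at r2
  rw [← r2] at a3
  simp [gA, sub_eq_zero, a0, a1, a3] at r3 r4
  have he : ψ (eP F 1) ≠ 0 := by simp [eP, r3, r4, a1]
  refine h4 (sat_scaled he fun f hf φ hφ => Matrix.ext fun i j => ?_)
  have b1 := core54 (Ideal.Quotient.mkₐ F (JI I 3))
    (fun p hp => Ideal.Quotient.eq_zero_iff_mem.2 hp) hf φ hφ i j
  have b2 := h1 _ (Ideal.Quotient.eq_zero_iff_mem.1 b1)
  rw [map_mul, mul_eq_zero] at b2
  have b3 := map_evf_entry ψ (fun s => nP (φ s)) f i j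
  rw [show (fun s => ψ.mapMatrix (nP (φ s))) = fun s => ψ (eP F 1) • mM F K 5 (φ s) from
    funext fun s => Matrix.ext fun i j => by
      have : ψ (eP F 2) = ψ (eP F 1) := by simp [eP, r2]
      simp [nP, mM_apply, apply_ite ψ, this, ← algebraMap_eq]] at b3
  rw [← b3]
  exact b2.resolve_left (by simp [he, r3, r4, a1, a2])

theorem transfer {D : ℕ} {p : MvPolynomial ℕ F} (h : p ∈ JI I D) {σ : Type} {x : RF I σ}
    (hx : epsR I σ x = 0) {w : ℕ → RF I σ} (hw : ∀ i < D, epsR I σ (w i) = 0) : Ev x w D p = 0 := by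
  obtain ⟨ψ, -, h1⟩ := univ_RF (I := I) (fun o => Option.elim o x fun i => if i < D then w i else 0)
    (by rintro (_ | i)
        · exact hx
        · simp only [Option.elim]; split_ifs with h; exacts [hw i h, map_zero _])
  have := congrArg ψ (h (fun i => xR I _ (some i)) fun i => gen_RF.h0 _)
  simp only [map_Ev, h1, map_zero, Option.elim] at this
  rwa [Ev_congr x (w' := w) D fun i hi => if_pos hi] at this

theorem ids_of_avoid [CharZero F] (h1 : ¬ Sat I (Pat F ![1, 2, 0]))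
    (h2 : ¬ Sat I (Pat F ![0, 1, 2])) (h3 : ¬ Sat I (Pat F ![1, 2, 1]))
    (h4 : ¬ Sat I (Pat F ![0, 1, 1, 1, 0])) (σ : Type) : ∃ n, Ids (epsR I σ) n := by
  obtain ⟨n0, g1⟩ := ids2 h3 (Or.inl ⟨rfl, h1⟩)
  obtain ⟨n2, g2⟩ := ids2 h3 (Or.inr ⟨rfl, h2⟩)
  obtain ⟨n3, g3⟩ := ids3 g1 g2 h4
  have k2 : ∀ (s m k : ℕ), (X s * gA F) ^ m ∈ JI I 2 → ∀ x, epsR I σ x = 0 → ∀ w,
      Ev x w 2 ((X s * gA F) ^ (m + k + 2)) = 0 := fun s m k h x hx w => by
    rw [show (X s * gA F) ^ (m + k + 2) = X 1 * (X 1 * ((X s * (X 0 - X 1) * (X 1 - X 2)) ^ 2 *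
      (X s * gA F) ^ k * (X s * gA F) ^ m)) by rw [pow_add, pow_add, gA]; ring,
      Ev_Xr _ _ 0 2 (by omega), Ev_Xl _ _ 1 2 (by omega)]
    exact transfer (Ideal.mul_mem_left _ _ h) hx fun i hi => by interval_cases i <;> simp [hx]
  refine ⟨n0 + n2 + n3 + 2, fun x hx w => ?_, fun x hx w => ?_, fun x hx w => ?_⟩
  · rw [add_assoc n0]; exact k2 0 _ _ g1 x hx w
  · rw [add_comm n0, add_assoc n2]; exact k2 2 _ _ g2 x hx w
  · rw [show gC F ^ (n0 + n2 + n3 + 2) * (X 1 - X 2) = X 1 * (X 1 * (X 2 * (X 2 * ((X 0 - X 1) *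
      (X 2 - X 3)) ^ 2 * gC F ^ (n0 + n2) * (gC F ^ n3 * (X 1 - X 2))))) by
        rw [pow_add, pow_add _ (n0 + n2), gC]; ring,
      Ev_Xr _ _ 0 3 (by omega), Ev_Xl _ _ 1 3 (by omega), Ev_Xl _ _ 2 3 (by omega)]
    exact transfer (Ideal.mul_mem_left _ _ g3) hx fun i hi => by interval_cases i <;> simp [hx]

theorem classification [CharZero F] (hA : asc F ∈ idealGen (TVal I ℕ)) :
    IsRFDVariety I ↔ ¬ Sat I (Pat F ![1, 2, 0]) ∧ ¬ Sat I (Pat F ![0, 1, 2]) ∧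
      ¬ Sat I (Pat F ![1, 2, 1]) ∧ ¬ Sat I (Pat F ![0, 1, 1, 1, 0]) :=
  ⟨fun h => ⟨fun h' => neg13 hA (Or.inl rfl) h' h, fun h' => neg2 hA h' h,
    fun h' => neg13 hA (Or.inr rfl) h' h, fun h' => neg4 hA h' h⟩,
    fun ⟨h1, h2, h3, h4⟩ => rfd_of_ids hA (ids_of_avoid h1 h2 h3 h4)⟩

end Pool.Agent.Lib.MP_038c09_al.As
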