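import Pool.Agent.Lib.MP_038c09_al.AsFG

/-! Two extension-closed properties of operators on a subquotient. -/

namespace Pool.Agent.Lib.MP_038c09_al.As

open Polynomial

variable {F : Type} [Field F] {V : Type} [AddCommGroup V] [Module F V]

def St (α : Module.End F V) (N : Submodule F V) : Prop := ∀ a ∈ N, α a ∈ N

theorem St.pow {α : Module.End F V} {N : Submodule F V} (h : St α N) (i : ℕ) : St (α ^ i) N := by
  induction i with
  | zero => exact fun a ha => ha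
  | succ i ih => intro a ha; rw [pow_succ']; exact h _ (ih a ha)

theorem St.aeval {α : Module.End F V} {N : Submodule F V} (h : St α N) (p : F[X]) :
    St (aeval α p) N := by
  induction p using Polynomial.induction_on' with
  | add p q hp hq => intro a ha; rw [map_add]; exact N.add_mem (hp a ha) (hq a ha)
  | monomial i c => intro a ha; rw [aeval_monomial]; simpa using N.smul_mem c (h.pow i a ha)

theorem St.sup {α : Module.End F V} {N N' : Submodule F V} (h : St α N) (h' : St α N') :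
    St α (N ⊔ N') := fun a ha => by
  obtain ⟨b, hb, c, hc, rfl⟩ := Submodule.mem_sup.1 ha
  rw [map_add]; exact Submodule.add_mem_sup (h b hb) (h' c hc)

theorem pow_add_apply (α : Module.End F V) (i j : ℕ) (a : V) :
    (α ^ (i + j)) a = (α ^ i) ((α ^ j) a) := by rw [pow_add]; rfl

theorem comm_apply {α β : Module.End F V} (h : Commute α β) (a : V) : α (β a) = β (α a) :=
  LinearMap.congr_fun h.eq a

def PR (α β : Module.End F V) (N0 N1 : Submodule F V) : Prop :=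
  (∃ j, ∀ a ∈ N0, ∀ i, (α ^ i) a ∈ N1 → (α ^ j) a ∈ N1) ∧
  ∀ N, ∃ N' h, ∀ a ∈ N0, ∀ i, (β ^ i) a ∈ N0.map (α ^ N') ⊔ N1 → (β ^ h) a ∈ N0.map (α ^ N) ⊔ N1

theorem PR.trans {α β : Module.End F V} (hc : Commute α β) {N0 N1 N2 : Submodule F V}
    (l0 : N1 ≤ N0) (l1 : N2 ≤ N1) (a0 : St α N0) (a1 : St α N1) (a2 : St α N2) (b0 : St β N0)
    (b1 : St β N1) (b2 : St β N2) (h : PR α β N0 N1) (h' : PR α β N1 N2) : PR α β N0 N2 := by
  obtain ⟨⟨j, hj⟩, h⟩ := h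
  obtain ⟨⟨j', hj'⟩, h'⟩ := h'
  refine ⟨⟨j' + j, fun a ha i hi => ?_⟩, fun N => ?_⟩
  · rw [pow_add_apply]
    refine hj' _ (hj a ha i (l1 hi)) i ?_
    rw [← pow_add_apply, add_comm, pow_add_apply]; exact a2.pow j _ hi
  obtain ⟨N2', h2, H2⟩ := h' N
  obtain ⟨N', h1, H1⟩ := h (N2' + N + j)
  refine ⟨N' + (N2' + N + j), h2 + h1, fun a ha i hi => ?_⟩
  obtain ⟨_, ⟨c0, hc0, rfl⟩, n2, hn2, e0⟩ := Submodule.mem_sup.1 hi
  obtain ⟨_, ⟨c, hc', rfl⟩, a1', ha1, e1⟩ := Submodule.mem_sup.1 (H1 a ha i (e0 ▸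
    Submodule.add_mem_sup ⟨_, a0.pow _ _ hc0, (pow_add_apply _ _ _ _).symm⟩ (l1 hn2)))
  set c' := (β ^ h1) ((α ^ N') c0) - (β ^ i) c
  have hc'' : c' ∈ N0 := N0.sub_mem (b0.pow _ _ (a0.pow _ _ hc0)) (b0.pow _ _ hc')
  have e2 : (β ^ i) a1' = (α ^ (N2' + N + j)) c' + (β ^ h1) n2 := by
    have := congrArg (β ^ i) e1
    rw [comm_apply ((Commute.refl β).pow_pow i h1), ← e0, map_add, map_add, add_comm N',
      pow_add_apply α _ N', comm_apply (hc.symm.pow_pow _ _), comm_apply (hc.symm.pow_pow h1 _)]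
      at this
    rw [map_sub, eq_sub_of_add_eq' this]; abel
  have e3 : (α ^ j) c' ∈ N1 := hj c' hc'' (N2' + N + j) (by
    rw [eq_sub_of_add_eq e2.symm]; exact N1.sub_mem (b1.pow _ _ ha1) (l1 (b2.pow _ _ hn2)))
  have e4 := H2 a1' ha1 i (e2 ▸ Submodule.add_mem_sup ⟨_, a1.pow N _ e3, by
    rw [← pow_add_apply, ← pow_add_apply]⟩ (b2.pow _ _ hn2))
  rw [pow_add_apply, ← e1, map_add]
  refine Submodule.add_mem _ (Submodule.mem_sup_left ⟨(α ^ (N2' + j)) ((β ^ h2) c),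
    a0.pow _ _ (b0.pow _ _ hc'), ?_⟩)
    ((sup_le_sup_right (Submodule.map_mono (f := α ^ N) l0) N2 :) e4)
  rw [← pow_add_apply, comm_apply (hc.symm.pow_pow _ _)]
  congr 2; omega

theorem PR.of_kill {α β : Module.End F V} {N0 N1 : Submodule F V} (c : ℕ)
    (h1 : ∀ a ∈ N0, (α ^ c) a ∈ N1) (h2 : ∀ a ∈ N0, (β ^ c) a ∈ N1) : PR α β N0 N1 :=
  ⟨⟨c, fun a ha _ _ => h1 a ha⟩, fun _ => ⟨0, c, fun a ha _ _ => Submodule.mem_sup_right (h2 a ha)⟩⟩

theorem pow_comm_mod {α θ : Module.End F V} {N0 N1 : Submodule F V} (a0 : St α N0) (a1 : St α N1)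
    (h : ∀ x ∈ N0, α (θ x) - θ (α x) ∈ N1) (j : ℕ) :
    ∀ x ∈ N0, (α ^ j) (θ x) - θ ((α ^ j) x) ∈ N1 := by
  induction j with
  | zero => simp
  | succ j ih =>
    intro x hx
    have := N1.add_mem (a1 _ (ih x hx)) (h _ (a0.pow j x hx))
    simpa [pow_succ'] using this

theorem PR.of_fg {τ : Type} [Finite τ] {G : Gr F V τ} (hG : G.FG) {α β : Module.End F V}
    (hc : Commute α β) (a0 : St α G.N0) (a1 : St α G.N1) (b0 : St β G.N0) (b1 : St β G.N1)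
    (ha : ∀ i, ∀ x ∈ G.N0, α (G.θ i x) - G.θ i (α x) ∈ G.N1)
    (hb : ∀ i, ∀ x ∈ G.N0, β (G.θ i x) - G.θ i (β x) ∈ G.N1) : PR α β G.N0 G.N1 := by
  have key : ∀ (γ : Module.End F V) (W : Submodule F V), St γ G.N0 → St γ G.N1 → St γ W →
      G.N1 ≤ W → (∀ i, St (G.θ i) W) → (∀ i, ∀ x ∈ G.N0, γ (G.θ i x) - G.θ i (γ x) ∈ G.N1) →
      ∃ j, ∀ a ∈ G.N0, ∀ i, (γ ^ i) a ∈ W → (γ ^ j) a ∈ W := fun γ W g0 g1 g2 l hW h => by
    obtain ⟨j, hj⟩ := hG.acc (fun j => W.comap (γ ^ j)) (monotone_nat_of_le_succ fun j x hx => by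
      rw [Submodule.mem_comap, pow_succ']; exact g2 _ hx) (fun j x hx => l (g1.pow j x hx))
      fun j i x hx => by
        simpa using W.add_mem (l (pow_comm_mod g0 g1 (h i) j x hx.2)) (hW i _ hx.1)
    exact ⟨j, fun a ha i hi => hj i a ha hi⟩
  refine ⟨key α _ a0 a1 a1 le_rfl G.h1 ha, fun N => ⟨N, key β _ b0 b1 (St.sup ?_ b1) le_sup_right
    (fun i x hx => ?_) hb⟩⟩
  · rintro _ ⟨c, hc', rfl⟩
    exact ⟨β c, b0 c hc', comm_apply (hc.pow_left N) c⟩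
  · obtain ⟨_, ⟨c, hc', rfl⟩, d, hd, rfl⟩ := Submodule.mem_sup.1 hx
    have := Submodule.add_mem_sup (S := G.N0.map (α ^ N)) ⟨_, G.h0 i c hc', rfl⟩
      (G.N1.sub_mem (G.h1 i d hd) (pow_comm_mod a0 a1 (ha i) N c hc'))
    convert this using 1
    rw [map_add]; abel

theorem PR.sep {α β : Module.End F V} (hc : Commute α β) {N1 : Submodule F V} (a1 : St α N1)
    (h : PR α β ⊤ N1) : ∃ M, ∀ a a' n, (α ^ n) ((α ^ M) a + (β ^ M) a') ∈ N1 →
      (β ^ n) ((α ^ M) a + (β ^ M) a') ∈ N1 → (α ^ M) a + (β ^ M) a' ∈ N1 := by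
  obtain ⟨⟨j, hj⟩, h⟩ := h
  obtain ⟨N', h', H⟩ := h j
  refine ⟨N' + h' + j, fun a a' n h1 h2 => ?_⟩
  have e1 := H ((β ^ (N' + j)) a') trivial (n + h') (by
    have : (β ^ (n + h')) ((β ^ (N' + j)) a') = (α ^ N') (-(α ^ (h' + j)) ((β ^ n) a)) +
        (β ^ n) ((α ^ (N' + h' + j)) a + (β ^ (N' + h' + j)) a') := by
      rw [map_neg, map_add, ← pow_add_apply, ← pow_add_apply α, ← pow_add_apply β n,
        comm_apply (hc.symm.pow_pow _ _), add_assoc N', neg_add_cancel_left]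
      congr 2; omega
    rw [this]; exact Submodule.add_mem_sup ⟨_, trivial, rfl⟩ h2)
  obtain ⟨_, ⟨c, -, rfl⟩, d, hd, e2⟩ := Submodule.mem_sup.1 e1
  rw [← pow_add_apply, show h' + (N' + j) = N' + h' + j by omega] at e2
  have e3 : (α ^ (N' + h' + j)) a + (β ^ (N' + h' + j)) a' =
      (α ^ j) ((α ^ (N' + h')) a + c) + d := by
    rw [← e2, map_add, ← pow_add_apply, add_comm j]; abel
  rw [e3] at h1 ⊢
  refine N1.add_mem (hj _ trivial (n + j) ?_) hd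
  rw [map_add] at h1
  rw [pow_add_apply]
  simpa using N1.sub_mem h1 (a1.pow n d hd)

theorem aeval_mul_apply (θ : Module.End F V) (p q : F[X]) (a : V) :
    aeval θ (p * q) a = aeval θ p (aeval θ q a) := by rw [map_mul]; rfl

/-- bounded torsion and no divisible elements. -/
def KK (θ : Module.End F V) (N0 N1 : Submodule F V) : Prop :=
  (∃ b : F[X], b ≠ 0 ∧ ∀ a ∈ N0, ∀ p : F[X], p ≠ 0 → aeval θ p a ∈ N1 → aeval θ b a ∈ N1) ∧
  ∀ a ∈ N0, (∀ p : F[X], p ≠ 0 → a ∈ N0.map (aeval θ p) ⊔ N1) → a ∈ N1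

theorem KK.trans {θ : Module.End F V} {N0 N1 N2 : Submodule F V} (l1 : N2 ≤ N1) (a2 : St θ N2)
    (h : KK θ N0 N1) (h' : KK θ N1 N2) : KK θ N0 N2 := by
  obtain ⟨⟨b, hb, h1⟩, h2⟩ := h
  obtain ⟨⟨b', hb', h1'⟩, h2'⟩ := h'
  refine ⟨⟨b' * b, mul_ne_zero hb' hb, fun a ha p hp h => ?_⟩, fun a ha h => ?_⟩
  · rw [aeval_mul_apply]
    refine h1' _ (h1 a ha p hp (l1 h)) p hp ?_
    rw [← aeval_mul_apply, mul_comm, aeval_mul_apply]; exact a2.aeval b _ h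
  · have ha1 := h2 a ha fun p hp => sup_le_sup_left l1 _ (h p hp)
    refine h2' a ha1 fun p hp => ?_
    obtain ⟨_, ⟨z, hz, rfl⟩, d, hd, e⟩ := Submodule.mem_sup.1 (h (p * b) (mul_ne_zero hp hb))
    have := h1 z hz _ (mul_ne_zero hp hb) (by
      rw [eq_sub_of_add_eq e]; exact N1.sub_mem ha1 (l1 hd))
    rw [← e, aeval_mul_apply]
    exact Submodule.add_mem_sup ⟨_, this, rfl⟩ hd

theorem KK.of_kill {θ : Module.End F V} {N0 N1 : Submodule F V} (p : F[X]) (hp : p ≠ 0)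
    (h : ∀ a ∈ N0, aeval θ p a ∈ N1) : KK θ N0 N1 :=
  ⟨⟨p, hp, fun a ha _ _ _ => h a ha⟩, fun a _ h' =>
    (sup_le (by rintro _ ⟨c, hc, rfl⟩; exact h c hc) le_rfl : _ ≤ N1) (h' p hp)⟩

theorem Gr.Lifts.aeval {τ : Type} {G : Gr F V τ} {θ : Module.End F V} {a : G.A}
    (h : G.Lifts θ a) (p : F[X]) : G.Lifts (aeval θ p) (aeval a p) := by
  induction p using Polynomial.induction_on' with
  | add p q hp hq => rw [map_add, map_add]; exact hp.add hq
  | monomial i c =>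
    rw [aeval_monomial, aeval_monomial, ← Algebra.smul_def, ← Algebra.smul_def]
    exact (h.pow i).smul c

theorem KK.of_fg {τ : Type} [Finite τ] {G : Gr F V τ} (hG : G.FG) (i : τ) :
    KK (G.θ i) G.N0 G.N1 := by
  have := hG.finite
  have := Algebra.FiniteType.isNoetherianRing F G.A
  have hl := fun p => (Gr.lifts_gen (G := G) i).aeval p
  have key : ∀ a (h : a ∈ G.N0) p, aeval (G.θ i) p a ∈ G.N1 ↔ aeval (G.gen i) p • G.cl a h = 0 :=
    fun a h p => by obtain ⟨h1, h2⟩ := hl p a h; rw [← h2, G.cl_eq_zero]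
  refine ⟨?_, fun a ha h => ?_⟩
  · let T : Submodule G.A G.Q :=
      { carrier := {q | ∃ p : F[X], p ≠ 0 ∧ aeval (G.gen i) p • q = 0}
        zero_mem' := ⟨1, one_ne_zero, smul_zero _⟩
        add_mem' := fun ⟨p, hp, e⟩ ⟨p', hp', e'⟩ => ⟨p * p', mul_ne_zero hp hp', by
          rw [smul_add, map_mul, mul_smul _ _ _, mul_smul, e', ← mul_smul, mul_comm,
            mul_smul, e]; simp⟩
        smul_mem' := fun c q ⟨p, hp, e⟩ => ⟨p, hp, by rw [smul_comm, e, smul_zero]⟩ }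
    obtain ⟨S, hS⟩ := IsNoetherian.noetherian T
    choose! p hp hp' using fun q (h : q ∈ S) => (show q ∈ T from hS ▸ Submodule.subset_span h)
    refine ⟨∏ q ∈ S, p q, Finset.prod_ne_zero_iff.2 hp, fun a ha r hr h => (key a ha _).2 ?_⟩
    have h1 : G.cl a ha ∈ Submodule.span G.A (S : Set G.Q) := hS ▸ ⟨r, hr, (key a ha r).1 h⟩
    generalize G.cl a ha = q at h1
    induction h1 using Submodule.span_induction with
    | mem q hq =>
      obtain ⟨c, hc⟩ := Finset.dvd_prod_of_mem p hq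
      rw [hc, mul_comm, map_mul, mul_smul, hp' q hq, smul_zero]
    | zero => exact smul_zero _
    | add x y _ _ hx hy => rw [smul_add, hx, hy, add_zero]
    | smul c x _ hx => rw [smul_comm, hx, smul_zero]
  · by_contra hq
    obtain ⟨m, hm, h0⟩ := Ideal.exists_le_maximal (Ideal.torsionOf G.A G.Q (G.cl a ha))
      fun h => hq ((G.cl_eq_zero ha).1 ((Ideal.torsionOf_eq_top_iff G.A _).1 h))
    have h1 : G.cl a ha ∈ (⨅ j : ℕ, m ^ j • ⊤ : Submodule G.A G.Q) := Submodule.mem_iInf _ |>.2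
      fun j => by
        have := krull_fin_quot (F := F) G.A m hm j
        obtain ⟨p, h2, h3⟩ := IsIntegral.of_finite F (Ideal.Quotient.mk (m ^ j) (G.gen i))
        have h4 : aeval (G.gen i) p ∈ m ^ j := Ideal.Quotient.eq_zero_iff_mem.1
          ((aeval_algHom_apply (Ideal.Quotient.mkₐ F (m ^ j)) (G.gen i) p).symm.trans h3)
        obtain ⟨_, ⟨z, hz, rfl⟩, d, hd, e⟩ := Submodule.mem_sup.1 (h p h2.ne_zero)
        obtain ⟨h5, h6⟩ := hl p z hz
        rw [(G.cl_eq ha h5).2 (by rw [← e]; simpa using hd), h6]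
        exact Submodule.smul_mem_smul h4 trivial
    obtain ⟨r, hr⟩ := (m.mem_iInf_smul_pow_eq_bot_iff _).1 h1
    have : 1 - (r : G.A) ∈ m :=
      h0 (by rw [Ideal.mem_torsionOf_iff, sub_smul, one_smul, hr, sub_self])
    exact hm.ne_top ((Ideal.eq_top_iff_one m).2 (by simpa using m.add_mem this r.2))

theorem KK.of_fd {θ : Module.End F V} {N0 N1 U : Submodule F V} (l : N1 ≤ N0) (a0 : St θ N0)
    (a1 : St θ N1) (hU : U.FG) (h : N0 ≤ N1 ⊔ U) : KK θ N0 N1 := by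
  let G : Gr F V Unit := ⟨N0, N1, fun _ => θ, l, fun _ => a0, fun _ => a1, by simp⟩
  refine KK.of_fg (G := G) ?_ ()
  have : FiniteDimensional F (U.map N1.mkQ) := Module.Finite.iff_fg.2 (hU.map _)
  have h2 : (N0.map N1.mkQ).FG := Module.Finite.iff_fg.1 (Submodule.finiteDimensional_of_le
    (S₂ := U.map N1.mkQ) (by simpa using Submodule.map_mono (f := N1.mkQ) h))
  obtain ⟨S, hS⟩ := h2
  choose! f hf hf' using fun q (h : q ∈ S) => (show q ∈ N0.map N1.mkQ from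
    hS ▸ Submodule.subset_span h)
  refine ⟨f '' S, S.finite_toSet.image _, by rintro _ ⟨q, hq, rfl⟩; exact hf q hq,
    fun W h1 h2 _ x hx => ?_⟩
  have h3 : N0.map N1.mkQ ≤ W.map N1.mkQ := hS ▸ Submodule.span_le.2 fun q hq =>
    ⟨f q, h2 ⟨q, hq, rfl⟩, hf' q hq⟩
  obtain ⟨y, hy, e⟩ := h3 ⟨x, hx, rfl⟩
  simpa using W.sub_mem hy (h1 ((Submodule.Quotient.eq _).1 e))

theorem KK.map {V' : Type} [AddCommGroup V'] [Module F V'] {ϑ : Module.End F V}
    {θ : Module.End F V'} (π : V →ₗ[F] V') {C0 C1 : Submodule F V} {N1 : Submodule F V'}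
    (c0 : St ϑ C0) (a1 : St θ N1) (hπ : ∀ x ∈ C0, θ (π x) = π (ϑ x))
    (h1 : ∀ x ∈ C0, π x ∈ N1 ↔ x ∈ C1) (h : KK ϑ C0 C1) : KK θ (N1 ⊔ C0.map π) N1 := by
  have hp : ∀ p : F[X], ∀ x ∈ C0, aeval θ p (π x) = π (aeval ϑ p x) := fun p x hx => by
    induction p using Polynomial.induction_on' with
    | add p q hp hq => simp [hp, hq]
    | monomial i c =>
      simp only [aeval_monomial, ← Algebra.smul_def, LinearMap.smul_apply, map_smul]
      congr 1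
      induction i with
      | zero => rfl
      | succ i ih => simp only [pow_succ', Module.End.mul_apply, ih, hπ _ (c0.pow i x hx)]
  obtain ⟨⟨b, hb, h2⟩, h3⟩ := h
  refine ⟨⟨b, hb, fun a ha p hp0 h => ?_⟩, fun a ha h => ?_⟩
  · obtain ⟨n, hn, _, ⟨x, hx, rfl⟩, rfl⟩ := Submodule.mem_sup.1 ha
    rw [map_add, N1.add_mem_iff_right (a1.aeval _ n hn), hp _ x hx, h1 _ (c0.aeval _ x hx)] at h ⊢
    exact h2 x hx p hp0 h
  · obtain ⟨n, hn, _, ⟨x, hx, rfl⟩, rfl⟩ := Submodule.mem_sup.1 ha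
    refine N1.add_mem hn ((h1 x hx).2 (h3 x hx fun p hp0 => ?_))
    obtain ⟨_, ⟨z, hz, rfl⟩, d, hd, e⟩ := Submodule.mem_sup.1 (h p hp0)
    obtain ⟨n', hn', _, ⟨x', hx', rfl⟩, rfl⟩ := Submodule.mem_sup.1 hz
    have h4 : x - aeval ϑ p x' ∈ C1 := (h1 _ (C0.sub_mem hx (c0.aeval p x' hx'))).1 (by
      rw [map_sub, ← hp p x' hx', show π x - aeval θ p (π x') = aeval θ p n' + d - n by
        rw [eq_sub_of_add_eq' e.symm, map_add]; abel]
      exact N1.sub_mem (N1.add_mem (a1.aeval p _ hn') hd) hn)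
    simpa using Submodule.add_mem_sup (S := C0.map (aeval ϑ p)) ⟨x', hx', rfl⟩ h4

theorem KK.closed {θ : Module.End F V} {Y0 Y1 U W : Submodule F V} (h : KK θ Y0 Y1)
    (l0 : Y1 ≤ Y0) (l1 : Y1 ≤ U) (a0 : St θ Y0) (a1 : St θ Y1) (hW : W.FG)
    (hU : ∀ u ∈ U, θ u ∈ Y1 ⊔ W) {a : V}
    (ha : ∀ p : F[X], p ≠ 0 → a ∈ Y0.map (aeval θ p) ⊔ U) : a ∈ U := by
  obtain ⟨⟨b, hb, h1⟩, h2⟩ := h
  set W' := W ⊔ Submodule.span F {θ a}
  have : FiniteDimensional F (W'.map Y1.mkQ) :=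
    Module.Finite.iff_fg.2 ((hW.sup (Submodule.fg_span_singleton _)).map _)
  let D : F[X] → Submodule F V := fun p => (Y1 ⊔ W') ⊓ (Y0.map (aeval θ p) ⊔ Y1)
  have hD : ∀ p, FiniteDimensional F ((D p).map Y1.mkQ) := fun p =>
    Submodule.finiteDimensional_of_le (S₂ := W'.map Y1.mkQ)
      (by simpa using Submodule.map_mono (f := Y1.mkQ) (inf_le_left : D p ≤ _))
  obtain ⟨p0, hp0, hmin⟩ := (measure fun p : F[X] =>
    Module.finrank F ((D p).map Y1.mkQ)).wf.has_min {p | p ≠ 0} ⟨1, one_ne_zero⟩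
  have key : D p0 ≤ Y1 := fun w hw => h2 w (sup_le (by
      rintro _ ⟨c, hc, rfl⟩; exact a0.aeval _ c hc) l0 hw.2) fun p hp => by
    have l : D (p0 * p) ≤ D p0 := inf_le_inf_left _ (sup_le_sup_right (by
      rintro _ ⟨c, hc, rfl⟩; exact ⟨_, a0.aeval p c hc, (aeval_mul_apply _ _ _ _).symm⟩) _)
    have := hD p0
    have e := Submodule.eq_of_le_of_finrank_le (Submodule.map_mono (f := Y1.mkQ) l)
      (not_lt.1 (hmin _ (mul_ne_zero hp0 hp)))
    obtain ⟨w', hw', e'⟩ := e.ge ⟨w, hw, rfl⟩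
    have l' : Y0.map (aeval θ (p0 * p)) ≤ Y0.map (aeval θ p) := by
      rintro _ ⟨c, hc, rfl⟩
      exact ⟨_, a0.aeval p0 c hc, by rw [← aeval_mul_apply, mul_comm]⟩
    have h3 : w' ∈ Y0.map (aeval θ p) ⊔ Y1 := (sup_le_sup_right l' Y1 :) hw'.2
    simpa using Submodule.sub_mem _ h3 (Submodule.mem_sup_right ((Submodule.Quotient.eq _).1 e'))
  obtain ⟨_, ⟨y, hy, rfl⟩, u, hu, e⟩ := Submodule.mem_sup.1 (ha (p0 * b) (mul_ne_zero hp0 hb))
  have h4 : aeval θ (p0 * (X * b)) y ∈ Y1 := key ⟨by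
    have : aeval θ (p0 * (X * b)) y = θ a - θ u := by
      rw [← e, map_add, add_sub_cancel_right, mul_left_comm, aeval_mul_apply, aeval_X]
    rw [this]
    exact Submodule.sub_mem _ (Submodule.mem_sup_right (Submodule.mem_sup_right
      (Submodule.mem_span_singleton_self _))) ((sup_le_sup_left le_sup_left Y1 : _ ≤ Y1 ⊔ W') (hU u hu)),
    Submodule.mem_sup_left ⟨_, a0.aeval _ y hy, (aeval_mul_apply _ _ _ _).symm⟩⟩
  have h5 := h1 y hy _ (mul_ne_zero hp0 (mul_ne_zero X_ne_zero hb)) h4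
  rw [← e, aeval_mul_apply]
  exact U.add_mem (l1 (a1.aeval _ _ h5)) hu

end Pool.Agent.Lib.MP_038c09_al.As
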