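import Pool.Agent.Lib.MP_038c09_al.AsFG

-- part Pool.Agent.Lib.MP_038c09_al.AsPrime
section

/-! Prime algebras with the first identity are commutative. -/

namespace Pool.Agent.Lib.MP_038c09_al.As

variable {F : Type} [Field F] {Λ : Type} [Ring Λ] [Algebra F Λ]

def adx (F : Type) [Field F] [Algebra F Λ] (x : Λ) : Module.End F Λ :=
  LinearMap.mulLeft F x - LinearMap.mulRight F x

theorem adx_apply (x t : Λ) : adx F x t = x * t - t * x := rfl

theorem adx_mul (x a b : Λ) : adx F x (a * b) = adx F x a * b + a * adx F x b := by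
  simp only [adx_apply]; noncomm_ring

theorem adx_pow_right (x t : Λ) (k : ℕ) : (adx F x ^ k) (t * x) = (adx F x ^ k) t * x := by
  induction k with
  | zero => rfl
  | succ k ih => simp only [pow_succ', Module.End.mul_apply, ih, adx_apply]; noncomm_ring

theorem map_adx {Λ' : Type} [Ring Λ'] [Algebra F Λ'] (φ : Λ →ₐ[F] Λ') (x t : Λ) (k : ℕ) :
    φ ((adx F x ^ k) t) = (adx F (φ x) ^ k) (φ t) := by
  induction k with
  | zero => rfl
  | succ k ih => simp [pow_succ', adx_apply, ih]

theorem Ids.e1 {ε : Λ →ₐ[F] F} {n : ℕ} (H : Ids ε n) {x : Λ} (hx : ε x = 0) (t s : Λ) :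
    x ^ n * (adx F x ^ n) t * x ^ n * (adx F x ^ n) s = 0 := by
  have h1 := ((((pOp1 (F := F) x).sub (pOp2 x)).pow n).mul (((pOp0 x).pow n).mul
    (((pOp1 x).pow n).mul (((pOp0 x).sub (pOp1 x)).pow n)))).ph t s 1
  have h2 := H.g1 x hx (pc t (1 * s))
  have a1 : ∀ k t, ((op F 0 x - op F 1 x) ^ k) (ph t s) = ph ((adx F x ^ k) t) s := fun k t => by
    induction k with
    | zero => rfl
    | succ k ih =>
      rw [pow_succ', pow_succ', Module.End.mul_apply, ih]
      ext z; simp [ph, adx_apply, sub_mul, mul_assoc]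
  have a2 : ∀ k t, (op F 1 x ^ k) (ph t s) = ph (t * x ^ k) s := fun k t => by
    induction k with
    | zero => simp
    | succ k ih => rw [pow_succ', Module.End.mul_apply, ih, op1_ph, pow_succ, mul_assoc]
  have a3 : ∀ t, (op F 0 x ^ n) (ph t s) = ph (x ^ n * t) s := fun t => by
    ext z; simp [op0_pow, ph, mul_assoc]
  have a4 : ∀ k u z, ((op F 1 x - op F 2 x) ^ k) (ph u s) z = u * (adx F x ^ k) (z * s) :=
    fun k u => by
    induction k with
    | zero => intro z; simp [ph, mul_assoc]
    | succ k ih =>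
      intro z
      rw [pow_succ', Module.End.mul_apply, LinearMap.sub_apply, Pi.sub_apply, op1, op2, ih, ih,
        pow_succ, Module.End.mul_apply, adx_apply, map_sub, adx_pow_right]
      simp [mul_assoc, mul_sub]
  rw [Module.End.mul_apply, Module.End.mul_apply, Module.End.mul_apply, a1, a2, a3, a4] at h1
  rw [one_mul] at h2
  rw [one_mul, ← mul_assoc] at h1
  rw [h1, ← h2, gA]
  congr 1
  simp only [mul_pow]
  ring

theorem sub_pow_apply {M : Type} [AddCommGroup M] [Module F M] {S T : Module.End F M}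
    (h : Commute S T) (k : ℕ) : ∀ i j (φ : M), i + j ≤ k + 1 → (S ^ i) φ = 0 → (T ^ j) φ = 0 →
      ((S - T) ^ k) φ = 0 := by
  induction k with
  | zero =>
    intro i j φ h1 h2 h3
    rcases i with _ | i
    · simpa using h2
    · obtain rfl : j = 0 := by omega
      simpa using h3
  | succ k ih =>
    intro i j φ h1 h2 h3
    rcases i with _ | i
    · rw [show φ = 0 by simpa using h2, map_zero]
    rcases j with _ | j
    · rw [show φ = 0 by simpa using h3, map_zero]
    rw [pow_succ, Module.End.mul_apply, LinearMap.sub_apply, map_sub,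
      ih i (j + 1) _ (by omega) (by rwa [← Module.End.mul_apply, ← pow_succ])
        (by rw [← Module.End.mul_apply, ← (h.pow_right _).eq, Module.End.mul_apply, h3, map_zero]),
      ih (i + 1) j _ (by omega)
        (by rw [← Module.End.mul_apply, (h.pow_left _).eq, Module.End.mul_apply, h2, map_zero])
        (by rwa [← Module.End.mul_apply, ← pow_succ]), sub_self]

/-- polynomial functions of one scalar. -/
def PolyFn (F M : Type) [Field F] [AddCommGroup M] [Module F M] : Submodule F (F → M) :=
  Submodule.span F {f | ∃ (i : ℕ) (v : M), f = fun s => s ^ i • v}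

theorem PolyFn.zero_at [CharZero F] {M : Type} [AddCommGroup M] [Module F M] {f : F → M}
    (hf : f ∈ PolyFn F M) (h : ∀ s, s ≠ 0 → f s = 0) : f 0 = 0 := by
  refine (Module.forall_dual_apply_eq_zero_iff F _).1 fun ψ => ?_
  have : ∃ p : Polynomial F, ∀ s, ψ (f s) = p.eval s := by
    clear h
    induction hf using Submodule.span_induction with
    | mem _ h => obtain ⟨i, v, rfl⟩ := h; exact ⟨Polynomial.monomial i (ψ v), by simp [mul_comm]⟩
    | zero => exact ⟨0, by simp⟩
    | add f g _ _ hf hg =>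
      obtain ⟨p, hp⟩ := hf; obtain ⟨q, hq⟩ := hg; exact ⟨p + q, by simp [hp, hq]⟩
    | smul c f _ hf => obtain ⟨p, hp⟩ := hf; exact ⟨c • p, by simp [hp]⟩
  obtain ⟨p, hp⟩ := this
  have : Infinite F := Infinite.of_injective _ Nat.cast_injective
  rw [hp, p.eq_zero_of_infinite_isRoot ((Set.finite_singleton (0 : F)).infinite_compl.mono
    fun s hs => by simpa [h s hs] using (hp s).symm), Polynomial.eval_zero]

theorem PolyFn.step {M : Type} [AddCommGroup M] [Module F M] {f : F → M} (hf : f ∈ PolyFn F M)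
    (A B : Module.End F M) : (fun s => A (f s) + s • B (f s)) ∈ PolyFn F M := by
  induction hf using Submodule.span_induction with
  | mem _ h =>
    obtain ⟨i, v, rfl⟩ := h
    have h1 : (fun s : F => s ^ i • A v) ∈ PolyFn F M := Submodule.subset_span ⟨i, A v, rfl⟩
    have h2 : (fun s : F => s ^ (i + 1) • B v) ∈ PolyFn F M :=
      Submodule.subset_span ⟨i + 1, B v, rfl⟩
    convert Submodule.add_mem _ h1 h2 using 1
    ext s; simp [pow_succ', mul_smul]
  | zero => convert Submodule.zero_mem _ using 1; ext; simp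
  | add f g _ _ hf hg =>
    convert Submodule.add_mem _ hf hg using 1; ext; simp only [Pi.add_apply, map_add, smul_add]; abel
  | smul c f _ hf =>
    convert Submodule.smul_mem _ c hf using 1; ext s; simp [smul_comm c s]

theorem higman_step [CharZero F] {B : Submodule F Λ} (hp : ∀ u : Λ, (∀ t ∈ B, u * t * u = 0) → u = 0)
    (a : Λ) (j : ℕ) (h : ∀ b ∈ B, a * (b * a) ^ (j + 1) = 0) : ∀ b ∈ B, a * (b * a) ^ j = 0 :=
  fun b hb => hp _ fun b' hb' => by
    set x := b * a
    set z := b' * a
    have h0 : ∀ i, a * x ^ (j + 1 + i) = 0 := fun i => by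
      rw [pow_add, ← mul_assoc, h b hb, zero_mul]
    have h1 : ∀ (s : F) i, (x + s • z) ^ (i + 1) * x ^ j =
        x ^ (j + 1 + i) + s • ((x + s • z) ^ i * (z * x ^ j)) := fun s i => by
      induction i with
      | zero => simp [add_mul, pow_succ']
      | succ i ih =>
        rw [pow_succ' _ (i + 1), mul_assoc, ih, mul_add, add_mul, smul_mul_assoc, mul_assoc b',
          h0, mul_smul_comm, ← mul_assoc, ← pow_succ', ← pow_succ']
        simp [add_assoc]
    have h2 : ∀ i, (fun s : F => (x + s • z) ^ i * (z * x ^ j)) ∈ PolyFn F Λ := fun i => by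
      induction i with
      | zero => exact Submodule.subset_span ⟨0, z * x ^ j, by ext; simp⟩
      | succ i ih =>
        convert PolyFn.step ih (LinearMap.mulLeft F x) (LinearMap.mulLeft F z) using 1
        ext s; simp [pow_succ', add_mul, mul_assoc]
    have h3 := PolyFn.zero_at (PolyFn.step (h2 j) (LinearMap.mulLeft F a) 0) fun s hs => by
      have h4 := h (b + s • b') (B.add_mem hb (B.smul_mem s hb'))
      rw [add_mul, smul_mul_assoc] at h4
      have h5 : a * ((x + s • z) ^ (j + 1) * x ^ j) = _ := congrArg (a * ·) (h1 s j)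
      rw [← mul_assoc a, h4, zero_mul, mul_add, h0, zero_add, mul_smul_comm] at h5
      simpa [hs, mul_assoc] using h5.symm
    simpa [z, mul_assoc] using h3

theorem engel_pow (x s : Λ) (h : adx F x (adx F x s) = 0) (i : ℕ) :
    (adx F x ^ i) (s ^ i) = (i.factorial : F) • adx F x s ^ i ∧
      (adx F x ^ (i + 1)) (s ^ i) = 0 := by
  have key : ∀ (k : ℕ) w, (adx F x ^ (k + 1)) (s * w) =
      s * (adx F x ^ (k + 1)) w + ((k : F) + 1) • (adx F x s * (adx F x ^ k) w) := fun k w => by
    induction k with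
    | zero => simp [adx_mul, add_comm]
    | succ k ih =>
      rw [pow_succ' _ (k + 1), Module.End.mul_apply, ih, map_add, map_smul, adx_mul, adx_mul, h,
        Module.End.mul_apply, pow_succ', Module.End.mul_apply]
      push_cast; simp only [zero_mul, zero_add]; module
  induction i with
  | zero => simp [adx_apply]
  | succ i ih =>
    have h2 : (adx F x ^ (i + 1 + 1)) (s ^ i) = 0 := by
      rw [pow_succ', Module.End.mul_apply, ih.2, map_zero]
    refine ⟨?_, ?_⟩
    · rw [pow_succ' s, key, ih.1, ih.2, mul_smul_comm, smul_smul, ← pow_succ', Nat.factorial_succ]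
      simp
    · rw [pow_succ' s, key, h2, ih.2]; simp

theorem prime_comm [CharZero F] {B : Submodule F Λ} (hB : IsId B) {n : ℕ}
    (hp : ∀ a b : Λ, (∀ t, a * t * b = 0) → a = 0 ∨ b = 0)
    (hs : ∀ a : Λ, ∃ c : F, a - algebraMap F Λ c ∈ B)
    (h1 : ∀ x ∈ B, ∀ t s, x ^ n * (adx F x ^ n) t * x ^ n * (adx F x ^ n) s = 0) (a b : Λ) :
    a * b = b * a := by
  by_cases hB0 : ∀ β ∈ B, β = 0
  · obtain ⟨c, hc⟩ := hs a
    rw [sub_eq_zero.1 (hB0 _ hc), Algebra.commutes]
  push Not at hB0
  obtain ⟨β, hβ, hβ0⟩ := hB0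
  have hp' : ∀ u : Λ, (∀ t ∈ B, u * t * u = 0) → u = 0 := fun u hu => by
    by_contra h0
    refine h0 ((hp u β fun t => ((hp (u * t * β) u fun t' => ?_).resolve_right h0)).resolve_right
      hβ0)
    simpa [mul_assoc] using hu (t * β * t') (hB _ _ (hB _ _ hβ).1).2
  have dich : ∀ x ∈ B, (∀ t, x ^ n * (adx F x ^ n) t * x ^ n = 0) ∨
      ∀ t, (adx F x ^ (2 * n)) t = 0 := fun x hx => by
    by_cases h : ∀ t, x ^ n * (adx F x ^ n) t * x ^ n = 0
    · exact Or.inl h
    push Not at h
    obtain ⟨t, ht⟩ := h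
    set u := x ^ n * (adx F x ^ n) t * x ^ n
    refine Or.inr fun b => (hp u _ fun a => ?_).resolve_left ht
    let D1 : Module.End F (Λ → Λ → Λ) := LinearMap.funLeft F _ (adx F x)
    let D2 : Module.End F (Λ → Λ → Λ) := (LinearMap.funLeft F _ (adx F x)).compLeft Λ
    have c1 : Commute (D1 + D2) D1 := (Commute.refl _).add_left (LinearMap.ext fun _ => rfl)
    have e1 : ∀ k a b, ((D1 + D2) ^ k) (fun a b => u * (a * b)) a b = u * (adx F x ^ k) (a * b) :=
      fun k => by
      induction k with
      | zero => intro a b; rfl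
      | succ k ih =>
        intro a b
        rw [pow_succ', Module.End.mul_apply, pow_succ, Module.End.mul_apply, adx_mul, map_add,
          mul_add, ← ih, ← ih]; rfl
    have e2 : ∀ k a b, (D1 ^ k) (fun a b => u * (a * b)) a b = u * (adx F x ^ k) a * b :=
      fun k => by
      induction k with
      | zero => intro a b; exact (mul_assoc _ _ _).symm
      | succ k ih =>
        intro a b
        rw [pow_succ', Module.End.mul_apply, pow_succ, Module.End.mul_apply, ← ih]; rfl
    have e3 : ∀ k a b, (D2 ^ k) (fun a b => u * (a * b)) a b = u * a * (adx F x ^ k) b :=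
      fun k => by
      induction k with
      | zero => intro a b; exact (mul_assoc _ _ _).symm
      | succ k ih =>
        intro a b
        rw [pow_succ', Module.End.mul_apply, pow_succ, Module.End.mul_apply, ← ih]; rfl
    have := sub_pow_apply c1 (2 * n) n n (fun a b => u * (a * b)) (by omega)
      (by ext a b; rw [e1]; exact h1 x hx t _) (by ext a b; rw [e2, h1 x hx t, zero_mul]; rfl)
    rw [add_sub_cancel_left] at this
    rw [← e3, this]; rfl
  have red : ∀ a : Λ, a * a = 0 → a = 0 := fun a ha => by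
    have key : ∀ j, (∀ b ∈ B, a * (b * a) ^ j = 0) → a = 0 := fun j => by
      induction j with
      | zero => intro h; simpa using h 0 B.zero_mem
      | succ j ih => exact fun h => ih (higman_step hp' a j h)
    refine key (3 * n) fun b hb => ?_
    set x := a * b + (2 : F) • (b * a)
    have a0 : ∀ i, a * (b * a) ^ (i + 1) = a * b * (a * (b * a) ^ i) := fun i => by
      simp [pow_succ', mul_assoc]
    have a1 : ∀ i, x * (a * (b * a) ^ i) = a * (b * a) ^ (i + 1) := fun i => by
      rw [a0, add_mul, smul_mul_assoc, mul_assoc b, ← mul_assoc a a, ha]; simp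
    have a2 : ∀ i, a * (b * a) ^ i * x = (2 : F) • (a * (b * a) ^ (i + 1)) := fun i => by
      have : a * (b * a) ^ i * a = 0 := by
        cases i with
        | zero => simpa using ha
        | succ i => simp [pow_succ, mul_assoc, ha]
      rw [mul_add, ← mul_assoc, this, mul_smul_comm, pow_succ]; simp [mul_assoc]
    have a3 : ∀ i, (adx F x ^ i) a = (-1 : F) ^ i • (a * (b * a) ^ i) := fun i => by
      induction i with
      | zero => simp
      | succ i ih => rw [pow_succ', Module.End.mul_apply, ih, map_smul, adx_apply, a1, a2]; module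
    have a4 : ∀ j i, x ^ j * (a * (b * a) ^ i) = a * (b * a) ^ (i + j) := fun j i => by
      induction j with
      | zero => simp
      | succ j ih => rw [pow_succ', mul_assoc, ih, a1, add_assoc]
    have a5 : ∀ j i, a * (b * a) ^ i * x ^ j = (2 : F) ^ j • (a * (b * a) ^ (i + j)) :=
      fun j i => by
      induction j with
      | zero => simp
      | succ j ih => rw [pow_succ x, ← mul_assoc, ih, smul_mul_assoc, a2, smul_smul,
          ← pow_succ, add_assoc]
    rcases dich x (B.add_mem (hB _ _ hb).1 (B.smul_mem _ (hB _ _ hb).2)) with h | h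
    · have := h a
      rw [a3, mul_smul_comm, a4, smul_mul_assoc, a5] at this
      simpa [show 3 * n = n + n + n by ring] using this
    · have := h a
      rw [a3] at this
      rw [show 3 * n = 2 * n + n by ring, pow_add, ← mul_assoc,
        show a * (b * a) ^ (2 * n) = 0 by simpa using this, zero_mul]
  have dom : ∀ a b : Λ, a * b = 0 → a = 0 ∨ b = 0 := fun a b h => hp a b fun t => red _ (by
    have : b * a = 0 := red _ (by rw [mul_assoc, ← mul_assoc a, h]; simp)
    rw [mul_assoc (a * t), ← mul_assoc b, ← mul_assoc b, this]; simp)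
  have : NoZeroDivisors Λ := ⟨fun h => dom _ _ h⟩
  have cen : ∀ x ∈ B, ∀ t, adx F x t = 0 := fun x hx => by
    by_cases h0 : x = 0
    · intro t; simp [h0, adx_apply]
    have key : ∀ j, (∀ t, (adx F x ^ (j + 1)) t = 0) → ∀ t, adx F x t = 0 := fun j => by
      induction j with
      | zero => intro h t; simpa using h t
      | succ j ih =>
        refine fun h => ih fun t => ?_
        have h2 := (engel_pow x ((adx F x ^ j) t) (by
          rw [← h t, pow_succ', pow_succ']; rfl) (j + 1 + 1)).1
        rw [h, eq_comm, smul_eq_zero] at h2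
        rw [pow_succ', Module.End.mul_apply]
        exact eq_zero_of_pow_eq_zero (h2.resolve_left (by exact_mod_cast Nat.factorial_ne_zero _))
    refine key (2 * n) fun t => ?_
    rcases dich x hx with h | h
    · have h2 : (adx F x ^ n) t = 0 := by simpa [pow_ne_zero n h0] using h t
      rw [show 2 * n + 1 = n + 1 + n by ring, pow_add, Module.End.mul_apply, h2, map_zero]
    · rw [pow_succ', Module.End.mul_apply, h, map_zero]
  have h2 := cen _ (hB a β hβ).2 b
  have h3 := cen _ hβ b
  rw [adx_apply, sub_eq_zero] at h2 h3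
  rw [← mul_assoc, ← h3, mul_assoc, mul_assoc] at h2
  exact mul_left_cancel₀ hβ0 h2

end Pool.Agent.Lib.MP_038c09_al.As
end

-- part Pool.Agent.Lib.MP_038c09_al.AsNil
section

/-! The commutator ideal of a finitely generated algebra with the first identity is nilpotent. -/

namespace Pool.Agent.Lib.MP_038c09_al.As

open MvPolynomial

variable {F : Type} [Field F] {Λ : Type} [Ring Λ] [Algebra F Λ]

theorem span_ind {V M : Type} [AddCommGroup V] [Module F V] [AddCommGroup M] [Module F M]
    {S : Set V} (f : V →ₗ[F] M) (W : Submodule F M) (h : ∀ v ∈ S, f v ∈ W) {v : V}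
    (hv : v ∈ Submodule.span F S) : f v ∈ W :=
  (Submodule.span_le (p := W.comap f)).2 h hv

def toIdeal (P : Submodule F Λ) (h : IsId P) : Ideal Λ where
  carrier := P
  add_mem' := P.add_mem
  zero_mem' := P.zero_mem
  smul_mem' := fun c _ hx => (h c _ hx).1

instance (P : Submodule F Λ) (h : IsId P) : (toIdeal P h).IsTwoSided :=
  ⟨fun b ha => (h b _ ha).2⟩

def NilL (Y : Set Λ) (P : Submodule F Λ) : Prop :=
  ∃ N, ∀ l : List Λ, l.length = N → (∀ y ∈ l, y ∈ Y) → l.prod ∈ P

theorem loc_nil [CharZero F] {ε : Λ →ₐ[F] F} {n : ℕ} (H : Ids ε n) {Y : Set Λ} (hY : Y.Finite)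
    (hT : Y ⊆ cT F Λ) : NilL Y (⊥ : Submodule F Λ) := by
  by_contra h0
  obtain ⟨P, -, hP, hmax⟩ := zorn_le_nonempty₀ {P : Submodule F Λ | IsId P ∧ ¬ NilL Y P}
    (fun c hc hch y hy => by
      have hd := hch.directedOn
      refine ⟨sSup c, ⟨fun a b hb => ?_, fun ⟨N, hN⟩ => ?_⟩, fun z hz => le_sSup hz⟩
      · obtain ⟨Q, hQ, hb⟩ := (Submodule.mem_sSup_of_directed ⟨y, hy⟩ hd).1 hb
        exact ⟨le_sSup hQ ((hc hQ).1 a b hb).1, le_sSup hQ ((hc hQ).1 a b hb).2⟩
      · have := hY.to_subtype
        have hf := (List.finite_length_eq Y N).image fun l => (l.map Subtype.val).prod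
        have key : ∀ S : Set Λ, S.Finite → S ⊆ (sSup c : Submodule F Λ) → ∃ Q ∈ c, S ⊆ Q := fun S hS => by
          induction S, hS using Set.Finite.induction_on with
          | empty => exact fun _ => ⟨y, hy, by simp⟩
          | insert _ _ ih =>
            intro h
            obtain ⟨Q, hQ, h1⟩ := ih ((Set.subset_insert _ _).trans h)
            obtain ⟨Q', hQ', h2⟩ := (Submodule.mem_sSup_of_directed ⟨y, hy⟩ hd).1
              (h (Set.mem_insert _ _))
            obtain ⟨R, hR, h3, h4⟩ := hd Q hQ Q' hQ'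
            exact ⟨R, hR, Set.insert_subset (h4 h2) (h1.trans h3)⟩
        obtain ⟨Q, hQ, h1⟩ := key _ hf (by
          rintro _ ⟨l, hl, rfl⟩
          exact hN _ (by simpa using hl) (by simp +contextual))
        exact (hc hQ).2 ⟨N, fun l hl hl' => h1 ⟨l.attach.map fun y => ⟨y.1, hl' y.1 y.2⟩,
          by simpa using hl, by simp [Function.comp_def]⟩⟩) ⊥ ⟨isId_bot, h0⟩
  have big : ∀ a, a ∉ P → NilL Y (P ⊔ biSpan F {a}) := fun a ha => by
    by_contra h
    exact ha (hmax ⟨hP.1.sup (isId_biSpan _), h⟩ le_sup_left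
      (Submodule.mem_sup_right (subset_biSpan rfl)))
  let π := Ideal.Quotient.mkₐ F (toIdeal P hP.1)
  have hπ : ∀ a, π a = 0 ↔ a ∈ P := fun a => Ideal.Quotient.eq_zero_iff_mem
  have hs : Function.Surjective π := Ideal.Quotient.mkₐ_surjective F _
  have hc := prime_comm (F := F) (B := (Bk ε).map π.toLinearMap) (n := n)
    (by
      rintro a _ ⟨b, hb, rfl⟩
      obtain ⟨a, rfl⟩ := hs a
      exact ⟨⟨a * b, (isId_Bk ε a b hb).1, map_mul π _ _⟩,
        ⟨b * a, (isId_Bk ε a b hb).2, map_mul π _ _⟩⟩)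
    (fun a b h => by
      obtain ⟨a, rfl⟩ := hs a
      obtain ⟨b, rfl⟩ := hs b
      by_contra hne
      rw [not_or, hπ, hπ] at hne
      obtain ⟨N1, h1⟩ := big a hne.1
      obtain ⟨N2, h2⟩ := big b hne.2
      refine hP.2 ⟨N1 + N2, fun l hl hl' => ?_⟩
      obtain ⟨u, hu, u', hu', e1⟩ := Submodule.mem_sup.1 (h1 (l.take N1) (by simp; omega)
        fun y h => hl' y (List.mem_of_mem_take h))
      obtain ⟨v, hv, v', hv', e2⟩ := Submodule.mem_sup.1 (h2 (l.drop N1) (by simp; omega)
        fun y h => hl' y (List.mem_of_mem_drop h))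
      rw [← List.take_append_drop N1 l, List.prod_append, ← e1, ← e2, add_mul, mul_add u']
      refine P.add_mem (hP.1 _ _ hu).2 (P.add_mem (hP.1 _ _ hv).1 ?_)
      refine biSpan_ind (LinearMap.mulRight F v') _ (fun p q _ ha => ?_) hu'
      refine biSpan_ind (LinearMap.mulLeft F _) _ (fun p' q' _ hb => ?_) hv'
      rw [ha, hb, ← hπ]
      have := congrArg (fun z => π p * z * π q') (h (π (q * p')))
      simpa [mul_assoc] using this)
    (fun a => by
      obtain ⟨a, rfl⟩ := hs a
      exact ⟨ε a, a - algebraMap F Λ (ε a), by simp [mem_Bk], by simp⟩)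
    (by
      rintro _ ⟨x, hx, rfl⟩ t s
      obtain ⟨t, rfl⟩ := hs t
      obtain ⟨s, rfl⟩ := hs s
      have := congrArg π (H.e1 hx t s)
      simp only [map_mul, map_pow, map_adx, map_zero] at this
      exact this)
  have : cT F Λ ≤ P := Submodule.span_le.2 (by
    rintro _ ⟨a, b, c, d, rfl⟩
    exact (hπ _).1 (by simp [hc (π b)]))
  refine hP.2 ⟨1, fun l hl hl' => ?_⟩
  obtain ⟨y, rfl⟩ := List.length_eq_one_iff.1 hl
  simpa using this (hT (hl' y (by simp)))

def NilS (Z : Set Λ) : Prop := ∃ N, ∀ q : ℕ → Λ, (∀ i < N, q i ∈ Z) → pr q 0 N = 0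

theorem pr_eq_prod (q : ℕ → Λ) (N : ℕ) : pr q 0 N = ((List.range N).map q).prod := by
  induction N with
  | zero => rfl
  | succ N ih => simp [pr, ih, List.range_succ]

noncomputable def Wl (F : Type) [Field F] (wt : ℕ → ℕ) (d : ℕ) : Submodule F (MvPolynomial ℕ F) :=
  Submodule.span F {p | ∃ β, Finsupp.weight wt β < d ∧ p = monomial β 1}

theorem Wl_mul (wt : ℕ → ℕ) {a b c : ℕ} (h : a + b ≤ c + 1) {p q : MvPolynomial ℕ F}
    (hp : p ∈ Wl F wt a) (hq : q ∈ Wl F wt b) : p * q ∈ Wl F wt c := by
  have := Submodule.mul_mem_mul hp hq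
  rw [Wl, Wl, Submodule.span_mul_span] at this
  refine Submodule.span_mono ?_ this
  rintro _ ⟨_, ⟨β, h1, rfl⟩, _, ⟨γ, h2, rfl⟩, rfl⟩
  exact ⟨β + γ, by rw [map_add]; omega, by simp⟩

theorem X_Wl (wt : ℕ → ℕ) {i d : ℕ} (h : wt i < d) : (X i : MvPolynomial ℕ F) ∈ Wl F wt d :=
  Submodule.subset_span ⟨Finsupp.single i 1, by simpa [Finsupp.weight_single], rfl⟩

theorem pow_Wl (wt : ℕ → ℕ) {d : ℕ} {p : MvPolynomial ℕ F} (h : p ∈ Wl F wt (d + 1)) (k : ℕ) :
    p ^ k ∈ Wl F wt (d * k + 1) := by
  induction k with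
  | zero => exact Submodule.subset_span ⟨0, by simp, by simp⟩
  | succ k ih => rw [pow_succ]; exact Wl_mul wt (by rw [mul_add]; omega) ih h

def io (f : ℕ → ℕ) (b D : ℕ) (a : ℕ) : ℕ := if a < b then f a else D + (a - b)

theorem io_mono (f : ℕ → ℕ) (b D : ℕ) (h1 : ∀ a, a + 1 < b → f a < f (a + 1))
    (h2 : ∀ a < b, f a < D) : StrictMono (io f b D) :=
  strictMono_nat_of_lt_succ fun a => by
    unfold io
    split_ifs with h h'
    · exact h1 a h'
    · have := h2 a h; omega
    · omega
    · omega

theorem normal_form {ε : Λ →ₐ[F] F} {n : ℕ} (H : Ids ε n) {x : Λ} (hx : ε x = 0) (p : ℕ → Λ)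
    (k : ℕ) (h : ∀ β : ℕ → ℕ, (∀ i j, i < j → j < k → β i < n ∨ β j < 3 * n) →
      val x p β k = 0) (β : ℕ →₀ ℕ) : val x p β k = 0 := by
  let wt : ℕ → ℕ := fun i => if i < k then i + 1 else 0
  have main : ∀ d, ∀ g ∈ Wl F wt d, Ev x p k g = 0 := fun d => by
    induction d with
    | zero => intro g hg; rw [show g = 0 by simpa [Wl] using hg, map_zero]
    | succ d ih =>
      intro g hg
      refine (Submodule.span_le (p := LinearMap.ker (Ev x p k))).2 ?_ hg
      rintro _ ⟨β, h1, rfl⟩
      change Ev x p k _ = 0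
      by_cases hb : ∀ i j, i < j → j < k → β i < n ∨ β j < 3 * n
      · rw [Ev_mon, h β hb, smul_zero]
      push Not at hb
      obtain ⟨i, j, hij, hjk, h2, h3⟩ := hb
      obtain ⟨γ, rfl⟩ : ∃ γ, β = γ + (Finsupp.single i n + Finsupp.single j (3 * n)) :=
        ⟨_, (tsub_add_cancel_of_le (Finsupp.le_def.2 fun l => by
          simp only [Finsupp.add_apply, Finsupp.single_apply]
          split_ifs <;> subst_vars <;> omega)).symm⟩
      have hι := io_mono (fun a => if a = 0 then i else j) 2 k
        (fun a ha => by rw [show a = 0 by omega]; simpa) fun a _ => by split_ifs <;> omega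
      have h4 := (kI x k ⊤ isId_top).mul_mem_left (monomial γ 1) (rename_mem_kI isId_top hι
        (b := 2) (D := k) (by simp [io]) (by simp [io]) fun w _ => H.g1 x hx w) p fun _ => trivial
      simp only [gA, map_pow, map_mul, map_sub, rename_X] at h4
      norm_num [io] at h4
      have w1 : wt j = j + 1 := if_pos hjk
      have w2 : wt i = i + 1 := if_pos (by omega)
      have w3 : wt k = 0 := if_neg (by omega)
      have xj : (X j : MvPolynomial ℕ F) ∈ Wl F wt (j + 1 + 1) := X_Wl wt (by omega)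
      have xi : (X i : MvPolynomial ℕ F) ∈ Wl F wt (j + 1) := X_Wl wt (by omega)
      have xk : (X k : MvPolynomial ℕ F) ∈ Wl F wt (j + 1) := X_Wl wt (by omega)
      have u1 : (-(X j * X j) : MvPolynomial ℕ F) ∈ Wl F wt (2 * (j + 1) + 1) :=
        Submodule.neg_mem _ (Wl_mul wt (by omega) xj xj)
      have u2 : (X i * X j - X i * X k + X j * X k : MvPolynomial ℕ F) ∈ Wl F wt (2 * (j + 1)) :=
        Submodule.add_mem _ (Submodule.sub_mem _ (Wl_mul wt (by omega) xi xj)
          (Wl_mul wt (by omega) xi xk)) (Wl_mul wt (by omega) xj xk)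
      have u3 : ∀ m, (((X i - X j) * (X j - X k)) ^ m - (-(X j * X j)) ^ m : MvPolynomial ℕ F) ∈
          Wl F wt (2 * (j + 1) * m) := fun m => by
        induction m with
        | zero => simp
        | succ m ihm =>
          have u4 : ((X i - X j) * (X j - X k) : MvPolynomial ℕ F) ∈ Wl F wt (2 * (j + 1) + 1) := by
            convert Submodule.add_mem _ u1 (Wl_mul wt (c := 2 * (j + 1) + 1) (by omega) u2
              (pow_Wl wt xj 0)) using 1; ring
          convert Submodule.add_mem _ (Wl_mul wt (c := 2 * (j + 1) * (m + 1))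
            (by rw [mul_add _ m]; omega) ihm u4) (Wl_mul wt (by rw [mul_add _ m]; omega)
              (pow_Wl wt u1 m) u2) using 1
          ring
      simp only [map_add, Finsupp.weight_single, smul_eq_mul, w1, w2] at h1
      have u5 := ih _ (Wl_mul wt (c := d) (by nlinarith) (Wl_mul wt
        (c := Finsupp.weight wt γ + (i + 1) * n + (j + 1) * n + 1) (by omega)
        (Wl_mul wt (c := Finsupp.weight wt γ + (i + 1) * n + 1) (by omega)
          (Submodule.subset_span ⟨γ, Nat.lt_succ_self _, rfl⟩)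
          (pow_Wl wt (X_Wl wt (show wt i < i + 1 + 1 by omega)) n)) (pow_Wl wt xj n)) (u3 n))
      have e : (monomial (γ + (Finsupp.single i n + Finsupp.single j (3 * n))) 1 :
          MvPolynomial ℕ F) = (-1 : F) ^ n • (monomial γ 1 * (X i * (X j * (X i - X j) *
          (X j - X k))) ^ n - monomial γ 1 * X i ^ n * X j ^ n *
          (((X i - X j) * (X j - X k)) ^ n - (-(X j * X j)) ^ n)) := by
        rw [show (monomial (γ + (Finsupp.single i n + Finsupp.single j (3 * n))) 1 :
          MvPolynomial ℕ F) = monomial γ 1 * (X i ^ n * X j ^ (3 * n)) by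
            simp [X_pow_eq_monomial], smul_eq_C_mul, neg_pow (X j * X j), map_pow, map_neg, C_1]
        simp only [mul_pow]
        have : ((-1) ^ n * (-1) ^ n : MvPolynomial ℕ F) = 1 := by
          rw [← mul_pow]; simp
        linear_combination (-(monomial γ 1 * X i ^ n * X j ^ (3 * n))) * this
      rw [e, map_smul, map_sub, h4, u5, sub_self, smul_zero]
  have := main _ _ (Submodule.subset_span ⟨β, Nat.lt_succ_self _, rfl⟩)
  rwa [Ev_mon, one_smul] at this

theorem val_eq_pr (x : Λ) (p : ℕ → Λ) (β : ℕ → ℕ) (k : ℕ) :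
    val x p β k = pr (fun j => x ^ β j * p j) 0 k * x ^ β k := by
  induction k with
  | zero => simp [val, pr]
  | succ k ih => simp [val, pr, ih, mul_assoc]

theorem val_eq_pr' (x : Λ) (p : ℕ → Λ) (β : ℕ → ℕ) (k : ℕ) :
    val x p β k = x ^ β 0 * pr (fun j => p j * x ^ β (j + 1)) 0 k := by
  induction k with
  | zero => simp [val, pr]
  | succ k ih => simp [val, pr, ih, mul_assoc]

def extS {σ : Type} (xs : σ → Λ) (l : List σ) (Y : Set Λ) : Set Λ :=
  {z | ∃ y ∈ Y, ∃ β : σ → ℕ, z = y * (l.map fun s => xs s ^ β s).prod}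

theorem nil_ext [CharZero F] {ε : Λ →ₐ[F] F} {n : ℕ} (H : Ids ε n) {σ : Type} {xs : σ → Λ}
    (hG : Gen ε xs) (l : List σ) : ∀ Y : Set Λ, Y.Finite → Y ⊆ cT F Λ → NilS (extS xs l Y) := by
  induction l using List.reverseRecOn with
  | nil =>
    intro Y hY hT
    obtain ⟨N, hN⟩ := loc_nil H hY hT
    refine ⟨N, fun q hq => ?_⟩
    rw [pr_eq_prod]
    refine hN _ (by simp) fun y hy => ?_
    obtain ⟨i, hi, rfl⟩ := List.mem_map.1 hy
    obtain ⟨y, hy, β, e⟩ := hq i (List.mem_range.1 hi)
    simpa [e] using hy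
  | append_singleton l s ih =>
    intro Y hY hT
    obtain ⟨k, hk⟩ := ih ((fun p : ℕ × Λ => xs s ^ p.1 * p.2) '' (Set.Iio (3 * n) ×ˢ Y))
      (((Set.finite_Iio _).prod hY).image _) (by
        rintro _ ⟨p, hp, rfl⟩; exact (isId_cT _ _ (hT hp.2)).1)
    refine ⟨2 * k, fun q hq => ?_⟩
    choose! y hy β hβ using hq
    let p : ℕ → Λ := fun j => y j * (l.map fun t => xs t ^ β j t).prod
    let γ : ℕ →₀ ℕ := Finsupp.onFinset (Finset.range (2 * k + 1))
      (fun j => if j = 0 ∨ 2 * k < j then 0 else β (j - 1) s) fun j hj => by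
        rw [Finset.mem_range]; by_contra h; exact hj (if_pos (by omega))
    have h1 := normal_form H (hG.h0 s) p (2 * k) (fun δ hδ => by
      have run : ∀ c, c + k ≤ 2 * k → (∀ i < k, δ (c + i) < 3 * n) →
          val (xs s) p δ (2 * k) = 0 := fun c h1 h2 => by
        obtain ⟨m, hm⟩ := Nat.exists_eq_add_of_le h1
        rw [val_eq_pr, hm, pr_add, pr_add, zero_add,
          pr_congr (w' := fun i => xs s ^ δ (c + i) * p (c + i)) (c' := 0) k (by simp),
          hk _ fun i hi => ⟨_, ⟨(δ (c + i), y (c + i)), ⟨h2 i hi, hy _ (by omega)⟩, rfl⟩,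
            β (c + i), (mul_assoc _ _ _).symm⟩]
        simp
      by_cases hs : ∀ i < k, δ (0 + i) < 3 * n
      · exact run 0 (by omega) hs
      · push Not at hs
        obtain ⟨i, h1, h2⟩ := hs
        rw [zero_add] at h2
        exact run k (by omega) fun j hj => by
          have := hδ i (k + j) (by omega) (by omega); omega) γ
    rw [val_eq_pr'] at h1
    simp only [γ, Finsupp.onFinset_apply, true_or, if_true, pow_zero, one_mul] at h1
    rw [← h1]
    refine pr_congr _ fun i hi => ?_
    rw [zero_add, hβ i hi, if_neg (by omega)]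
    simp [p, mul_assoc]

/-- value of a letter: a generator or a commutator of two generators. -/
def lval {σ : Type} (xs : σ → Λ) : σ ⊕ σ × σ → Λ
  | .inl s => xs s
  | .inr p => xs p.1 * xs p.2 - xs p.2 * xs p.1

def wval {σ : Type} (xs : σ → Λ) (w : List (σ ⊕ σ × σ)) : Λ := (w.map (lval xs)).prod

def tdeg {σ : Type} (w : List (σ ⊕ σ × σ)) : ℕ := w.countP Sum.isRight

theorem wval_append {σ : Type} (xs : σ → Λ) (w w' : List (σ ⊕ σ × σ)) :
    wval xs (w ++ w') = wval xs w * wval xs w' := by simp [wval]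

theorem tdeg_append {σ : Type} (w w' : List (σ ⊕ σ × σ)) : tdeg (w ++ w') = tdeg w + tdeg w' := by
  simp [tdeg]

def Fw (F : Type) [Field F] [Algebra F Λ] {σ : Type} (xs : σ → Λ) (k : ℕ) : Submodule F Λ :=
  Submodule.span F {v | ∃ w, k ≤ tdeg w ∧ v = wval xs w}

theorem Fw_mul {σ : Type} (xs : σ → Λ) {i j : ℕ} {a b : Λ} (ha : a ∈ Fw F xs i)
    (hb : b ∈ Fw F xs j) : a * b ∈ Fw F xs (i + j) := by
  have := Submodule.mul_mem_mul ha hb
  rw [Fw, Fw, Submodule.span_mul_span] at this
  refine Submodule.span_mono ?_ this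
  rintro _ ⟨_, ⟨β, h1, rfl⟩, _, ⟨γ, h2, rfl⟩, rfl⟩
  exact ⟨β ++ γ, by rw [tdeg_append]; omega, (wval_append _ _ _).symm⟩

theorem Tf_le_Fw {ε : Λ →ₐ[F] F} {σ : Type} {xs : σ → Λ} (hG : Gen ε xs) (k : ℕ) :
    Tf F Λ k ≤ Fw F xs k := by
  have h0 : ∀ a, a ∈ Fw F xs 0 := fun a => by
    have hb : a ∈ Algebra.adjoin F (Set.range xs) := hG.top ▸ Algebra.mem_top
    induction hb using Algebra.adjoin_induction with
    | mem _ h => obtain ⟨s, rfl⟩ := h
                 exact Submodule.subset_span ⟨[.inl s], by simp, by simp [wval, lval]⟩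
    | algebraMap r =>
      rw [Algebra.algebraMap_eq_smul_one]
      exact Submodule.smul_mem _ _ (Submodule.subset_span ⟨[], by simp, by simp [wval]⟩)
    | add a b _ _ ha hb => exact Submodule.add_mem _ ha hb
    | mul a b _ _ ha hb => exact Fw_mul xs (i := 0) (j := 0) ha hb
  induction k with
  | zero => exact fun a _ => h0 a
  | succ k ih =>
    refine Submodule.mul_le.2 fun a ha b hb => Fw_mul xs (ih ha) ?_
    refine biSpan_ind LinearMap.id _ ?_ (cT_le hG hb)
    rintro p q _ ⟨t, rfl⟩
    have h1 : xs t.1 * xs t.2 - xs t.2 * xs t.1 ∈ Fw F xs 1 :=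
      Submodule.subset_span ⟨[.inr t], by simp [tdeg], by simp [wval, lval]⟩
    have h2 := Fw_mul xs (Fw_mul xs (h0 p) h1) (h0 q)
    exact h2

theorem perm_sub {σ : Type} (xs : σ → Λ) {u u' : List σ} (h : u.Perm u') :
    wval xs (u.map .inl) - wval xs (u'.map .inl) ∈ Submodule.span F
      {v | ∃ w, w.length < u.length ∧ v = wval xs w} := by
  induction h with
  | nil => simp
  | cons s _ ih =>
    have e : ∀ w, wval xs (.inl s :: w) = xs s * wval xs w := fun w => by simp [wval, lval]
    rw [List.map_cons, List.map_cons, e, e, ← mul_sub]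
    refine span_ind (LinearMap.mulLeft F (xs s)) _ ?_ ih
    rintro _ ⟨w, hw, rfl⟩
    exact Submodule.subset_span ⟨.inl s :: w, by simpa using hw, (e w).symm⟩
  | swap s t u =>
    exact Submodule.subset_span ⟨.inr (t, s) :: u.map .inl, by simp,
      by simp [wval, lval, sub_mul, mul_assoc]⟩
  | trans h1 _ ih1 ih2 =>
    rw [← h1.length_eq] at ih2
    simpa using Submodule.add_mem _ ih1 ih2

theorem split_last {σ : Type} (w : List (σ ⊕ σ × σ)) : (∃ u : List σ, w = u.map .inl) ∨
    ∃ w1 t, ∃ u : List σ, w = w1 ++ .inr t :: u.map .inl := by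
  induction w with
  | nil => exact Or.inl ⟨[], rfl⟩
  | cons a w ih =>
    rcases ih with ⟨u, rfl⟩ | ⟨w1, t, u, rfl⟩
    · rcases a with s | t
      exacts [Or.inl ⟨s :: u, rfl⟩, Or.inr ⟨[], t, u, rfl⟩]
    · exact Or.inr ⟨a :: w1, t, u, rfl⟩

theorem T_nil [CharZero F] {ε : Λ →ₐ[F] F} {n : ℕ} (H : Ids ε n) {σ : Type} [Finite σ]
    {xs : σ → Λ} (hG : Gen ε xs) : ∃ K, Tf F Λ K = ⊥ := by
  classical
  have := Fintype.ofFinite σ
  set l := (Finset.univ : Finset σ).toList
  obtain ⟨K, hK⟩ := nil_ext H hG l _ (Set.finite_range _) (comms_sub xs)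
  let M : ℕ → Submodule F Λ := fun k => Submodule.span F {v | ∃ c, ∃ ql : List Λ,
    k ≤ ql.length ∧ (∀ q ∈ ql, q ∈ extS xs l (comms xs)) ∧ v = c * ql.prod}
  have main : ∀ N, ∀ w : List (σ ⊕ σ × σ), w.length < N → ∀ k ≤ tdeg w, wval xs w ∈ M k :=
    fun N => by
    induction N with
    | zero => intro w hw; omega
    | succ N ih =>
      intro w hw k hk
      rcases k with _ | k
      · exact Submodule.subset_span ⟨wval xs w, [], le_rfl, by simp, by simp⟩
      rcases split_last w with ⟨u, rfl⟩ | ⟨w1, t, u, rfl⟩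
      · simp [tdeg, List.countP_map, Function.comp_def] at hk
      have hp : u.Perm (l.flatMap fun s => List.replicate (u.count s) s) :=
        List.perm_iff_count.2 fun s => by
          simp [List.count_flatMap, List.count_replicate, l, Function.comp_def]
      have h1 := perm_sub (F := F) xs hp
      have h2 : wval xs ((l.flatMap fun s => List.replicate (u.count s) s).map .inl) =
          (l.map fun s => xs s ^ u.count s).prod := by
        generalize l = l'
        induction l' with
        | nil => rfl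
        | cons a l' ih' => simp [← ih', wval, lval]
      have ht : k ≤ tdeg w1 := by
        simpa [tdeg, List.countP_map, Function.comp_def] using hk
      have e : wval xs (w1 ++ .inr t :: u.map .inl) = wval xs (w1 ++ [.inr t]) *
          (wval xs (u.map .inl) - (l.map fun s => xs s ^ u.count s).prod) +
          wval xs w1 * (lval xs (.inr t) * (l.map fun s => xs s ^ u.count s).prod) := by
        simp [wval, mul_sub, mul_assoc]
      rw [e, ← h2]
      refine Submodule.add_mem _ ?_ ?_
      · refine span_ind (LinearMap.mulLeft F (wval xs (w1 ++ [.inr t]))) (M (k + 1)) ?_ h1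
        rintro _ ⟨w, hw', rfl⟩
        have := ih (w1 ++ [.inr t] ++ w) (by simp at hw ⊢; omega) (k + 1)
          (by simp [tdeg] at ht ⊢; omega)
        rwa [wval_append] at this
      · rw [h2]
        refine span_ind (LinearMap.mulRight F (lval xs (.inr t) *
          (l.map fun s => xs s ^ u.count s).prod)) (M (k + 1)) ?_
          (ih w1 (by simp at hw; omega) k ht)
        rintro _ ⟨c, ql, h3, h4, rfl⟩
        refine Submodule.subset_span ⟨c, ql ++ [_], by simpa using h3, fun q hq => ?_, by
          rw [List.prod_append, List.prod_singleton, LinearMap.mulRight_apply, mul_assoc]⟩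
        rcases List.mem_append.1 hq with h | h
        · exact h4 q h
        · exact ⟨_, ⟨t, rfl⟩, fun s => u.count s, by rw [List.mem_singleton.1 h]; rfl⟩
  refine ⟨K, eq_bot_iff.2 ((Tf_le_Fw hG K).trans (Submodule.span_le.2 ?_))⟩
  rintro _ ⟨w, hw, rfl⟩
  refine (Submodule.span_le (p := ⊥)).2 ?_ (main _ w (Nat.lt_succ_self _) K hw)
  rintro _ ⟨c, ql, h3, h4, rfl⟩
  have := hK (fun i => ql.getD i 0) fun i hi => h4 _ (by
    rw [List.getD_eq_getElem _ _ (by omega)]; exact List.getElem_mem _)
  have e : (List.range K).map (fun i => ql.getD i 0) = ql.take K :=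
    List.ext_getElem (by simp; omega) fun i h1 h2 => by
      simp at h1 h2 ⊢; rw [List.getElem?_eq_getElem (by omega)]; rfl
  rw [pr_eq_prod, e] at this
  rw [← List.take_append_drop K ql, List.prod_append, this]
  simp

end Pool.Agent.Lib.MP_038c09_al.As
end

-- part Pool.Agent.Lib.MP_038c09_al.AsComb
section

/-! A symmetric expression that agrees with an inclusion-exclusion sum over any block. -/

namespace Pool.Agent.Lib.MP_038c09_al.As

open Finset

variable {F : Type} [Field F] {C : Type} [CommRing C] [Algebra F C]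

def ps (u : ℕ → C) (D k : ℕ) : C := ∑ i ∈ range D, u i ^ k

def rho (F : Type) [Field F] (D : ℕ) : ℕ → F
  | 0 => 1
  | i + 1 => -((D : F) - i) * rho F D i

def XX (F : Type) [Field F] [Algebra F C] (D : ℕ) (p : ℕ → C) : ℕ → ℕ → C
  | 0, _ => 0
  | i + 1, a => rho F D i • p (i + a) + p 1 * XX F D p i a - ((D : F) - i) • XX F D p i (a + 1)

def lamP (F : Type) [Field F] [Algebra F C] (D L : ℕ) (p : ℕ → C) : C :=
  -(rho F D L)⁻¹ • XX F D p L (1 + L)

def th (y : ℕ → C) : ℕ → ℕ → C
  | 0, _ => 0
  | i + 1, d => th y i d + y i ^ d - y i * th y i (d - 1)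

theorem map_th {C' : Type} [CommRing C'] (φ : C →+* C') (y : ℕ → C) (i d : ℕ) :
    φ (th y i d) = th (fun a => φ (y a)) i d := by
  induction i generalizing d with
  | zero => simp [th]
  | succ i ih => simp [th, ih]

theorem th_congr {y y' : ℕ → C} (i : ℕ) (h : ∀ a < i, y a = y' a) (d : ℕ) :
    th y i d = th y' i d := by
  induction i generalizing d with
  | zero => rfl
  | succ i ih => simp [th, ih fun a ha => h a (by omega), h i (by omega)]

theorem th_const (y : C) (i c : ℕ) : th (fun _ => y) (i + 1) (i + 1 + c) = y ^ (i + 1 + c) := by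
  induction i generalizing c with
  | zero => simp [th]
  | succ i ih =>
    rw [th, show i + 1 + 1 + c = i + 1 + (c + 1) by omega, ih,
      show i + 1 + (c + 1) - 1 = i + 1 + c by omega, ih]
    ring

theorem th_mem (y : ℕ → C) (J : Ideal C) (i : ℕ) (h : ∀ a < i, y a ∈ J) (c : ℕ) :
    th y i (i + c) ∈ J := by
  induction i generalizing c with
  | zero => exact J.zero_mem
  | succ i ih =>
    rw [th, show i + 1 + c = i + (c + 1) by omega]
    exact J.sub_mem (J.add_mem (ih (fun a ha => h a (by omega)) _)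
      (J.pow_mem_of_mem (h i (by omega)) _ (by omega))) (J.mul_mem_right _ (h i (by omega)))

theorem map_lamP {C' : Type} [CommRing C'] [Algebra F C'] (φ : C →ₐ[F] C') (D L : ℕ)
    (p : ℕ → C) : φ (lamP F D L p) = lamP F D L fun k => φ (p k) := by
  have : ∀ i a, φ (XX F D p i a) = XX F D (fun k => φ (p k)) i a := fun i => by
    induction i with
    | zero => simp [XX]
    | succ i ih => simp [XX, ih]
  simp [lamP, this]

theorem lamP_mem (S : Subalgebra F C) (D L : ℕ) (p : ℕ → C) (h : ∀ k, p k ∈ S) :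
    lamP F D L p ∈ S := by
  have : ∀ i a, XX F D p i a ∈ S := fun i => by
    induction i with
    | zero => exact fun _ => S.zero_mem
    | succ i ih => exact fun a => S.sub_mem (S.add_mem (S.smul_mem (h _) _)
        (S.mul_mem (h _) (ih _))) (S.smul_mem (ih _) _)
  exact S.smul_mem (this _ _) _

theorem upow {u y : C} (h : u * y * (u - y) = 0) (k : ℕ) : u * y ^ (k + 1) = u ^ (k + 1) * y := by
  induction k with
  | zero => simp
  | succ k ih => linear_combination y * ih - u ^ k * h

theorem th_eq [CharZero F] (u : ℕ → C) {D L : ℕ} (hD : L ≤ D)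
    (r1 : ∀ i < D, ∀ j < D, u i * u j * (u i - u j) = 0)
    (r2 : ∀ j < D, ∀ B ⊆ range D, B.card = L → u j * ∏ i ∈ B, (u j - u i) = 0)
    (β : ℕ → ℕ) (hβ : Set.InjOn β (range L)) (hβ' : ∀ a < L, β a < D) :
    lamP F D L (ps u D) = th (fun a => u (β a)) L (L + L) := by
  have y1 : ∀ j < D, ∀ i ≤ L, ∀ c, u j * th (fun a => u (β a)) i (i + c) =
      u j ^ (1 + c) * (u j ^ i - ∏ h ∈ range i, (u j - u (β h))) := fun j hj i hi => by
    induction i with
    | zero => simp [th]
    | succ i ih =>
      intro c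
      rw [th, show i + 1 + c = i + (c + 1) by omega, show i + (c + 1) - 1 = i + c by omega,
        prod_range_succ]
      linear_combination ih (by omega) (c + 1) - u (β i) * ih (by omega) c +
        upow (r1 j hj _ (hβ' i (by omega))) (i + c)
  have y2 : ∀ z c', (∀ j < D, u j * z = u j ^ (1 + c')) → ∀ i ≤ L, ∀ c,
      th (fun a => u (β a)) i (i + c) * z = th (fun a => u (β a)) i (i + c + c') :=
    fun z c' hz i hi => by
    induction i with
    | zero => simp [th]
    | succ i ih =>
      intro c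
      rw [th, th, show i + 1 + c = i + (c + 1) by omega, show i + (c + 1) - 1 = i + c by omega,
        show i + (c + 1) + c' - 1 = i + c + c' by omega]
      linear_combination ih (by omega) (c + 1) - u (β i) * ih (by omega) c +
        u (β i) ^ (i + c) * hz _ (hβ' i (by omega))
  have p1 : ∀ j < D, ∀ k, u j * ps u D (k + 1) = u j ^ (k + 1) * ps u D 1 := fun j hj k => by
    simp only [ps, mul_sum, pow_one]
    exact sum_congr rfl fun i hi => upow (r1 j hj i (mem_range.1 hi)) k
  have x1 : ∀ j < D, ∀ i a, u j * XX F D (ps u D) i (a + 1) = u j ^ (a + 1) *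
      (∏ κ ∈ range i, (ps u D 1 - ((D : F) - κ) • u j) - rho F D i • u j ^ i) := fun j hj i => by
    induction i with
    | zero => simp [XX, rho]
    | succ i ih =>
      intro a
      simp only [XX, rho, prod_range_succ, Algebra.smul_def, map_mul, map_neg] at ih ⊢
      linear_combination algebraMap F C (rho F D i) * p1 j hj (i + a) + ps u D 1 * ih a -
        algebraMap F C ((D : F) - i) * ih (a + 1)
  have x2 : ∀ z c', (∀ j < D, u j * z = u j ^ (1 + c')) → ∀ i a,
      XX F D (ps u D) i (a + 1) * z = XX F D (ps u D) i (a + 1 + c') := fun z c' hz i => by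
    induction i with
    | zero => simp [XX]
    | succ i ih =>
      intro a
      have : ps u D (i + (a + 1)) * z = ps u D (i + (a + 1 + c')) := by
        simp only [ps, sum_mul]
        exact sum_congr rfl fun j hj => by
          linear_combination u j ^ (i + a) * hz j (mem_range.1 hj)
      rw [XX, XX, sub_mul, add_mul, smul_mul_assoc, smul_mul_assoc, this, mul_assoc, ih, ih,
        show a + 1 + 1 + c' = a + 1 + c' + 1 by omega]
  have ff : ∀ j < D, ∀ i, u j * ∏ κ ∈ range i, (ps u D 1 - ((D : F) - κ) • u j) ∈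
      Ideal.span {z | ∃ B ⊆ range D, B.card = i ∧ z = u j * ∏ h ∈ B, (u j - u h)} :=
    fun j hj i => by
    induction i with
    | zero => exact Ideal.subset_span ⟨∅, by simp, rfl, by simp⟩
    | succ i ih =>
      rw [prod_range_succ, ← mul_assoc]
      refine Submodule.span_induction (p := fun z _ => z * _ ∈ _) ?_ (by simp)
        (fun a b _ _ ha hb => by rw [add_mul]; exact Ideal.add_mem _ ha hb)
        (fun a b _ hb => by rw [smul_eq_mul, mul_assoc]; exact Ideal.mul_mem_left _ _ hb) ih
      rintro _ ⟨B, hB, hc, rfl⟩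
      have e1 : ps u D 1 - ((D : F) - i) • u j = -∑ h ∈ range D \ B, (u j - u h) +
          ∑ h ∈ B, (u j - (u j - u h)) := by
        simp only [ps, pow_one, sub_sub_cancel, sum_sub_distrib, sum_const, card_sdiff_of_subset hB,
          card_range, hc, ← sum_sdiff hB]
        rw [← Nat.cast_sub (by rw [← hc]; simpa using card_le_card hB), Nat.cast_smul_eq_nsmul]
        abel
      have e2 : (u j * ∏ h ∈ B, (u j - u h)) * ∑ h ∈ B, (u j - (u j - u h)) = 0 := by
        rw [mul_sum]
        refine sum_eq_zero fun h hh => ?_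
        rw [← mul_prod_erase B _ hh]
        linear_combination (∏ x ∈ B.erase h, (u j - u x)) * r1 j hj h (mem_range.1 (hB hh))
      rw [e1, mul_add, e2, add_zero, mul_neg, mul_sum]
      refine neg_mem (Ideal.sum_mem _ fun h hh => Ideal.subset_span ⟨insert h B,
        insert_subset (mem_sdiff.1 hh).1 hB, by rw [card_insert_of_notMem (mem_sdiff.1 hh).2, hc],
        by rw [prod_insert (mem_sdiff.1 hh).2]; ring⟩)
  have rne : ∀ i ≤ D, rho F D i ≠ 0 := fun i hi => by
    induction i with
    | zero => exact one_ne_zero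
    | succ i ih => exact mul_ne_zero (neg_ne_zero.2 (sub_ne_zero.2 (by
        exact_mod_cast (by omega : D ≠ i)))) (ih (by omega))
  have hX : ∀ j < D, u j * (-(rho F D L)⁻¹ • XX F D (ps u D) L (0 + 1)) = u j ^ (1 + L) :=
    fun j hj => by
    have h0 : u j * ∏ κ ∈ range L, (ps u D 1 - ((D : F) - κ) • u j) = 0 :=
      (Ideal.span_le (I := ⊥)).2 (by rintro _ ⟨B, hB, hc, rfl⟩; exact r2 j hj B hB hc) (ff j hj L)
    rw [mul_smul_comm, x1 j hj, zero_add, pow_one, mul_sub, h0, zero_sub, mul_smul_comm, smul_neg,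
      smul_smul, neg_mul, inv_mul_cancel₀ (rne L hD), pow_add]
    simp
  have hY : ∀ j < D, u j * th (fun a => u (β a)) L (L + 0) = u j ^ (1 + L) := fun j hj => by
    have := r2 j hj ((range L).image β) (fun i hi => by
      obtain ⟨a, ha, rfl⟩ := mem_image.1 hi
      exact mem_range.2 (hβ' a (mem_range.1 ha))) (by rw [card_image_of_injOn hβ, card_range])
    rw [prod_image hβ] at this
    rw [y1 j hj L le_rfl, add_zero, pow_one, mul_sub, this, pow_add]
    simp
  have := y2 _ _ hX L le_rfl 0
  rw [mul_comm, smul_mul_assoc, x2 _ _ hY] at this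
  exact this

end Pool.Agent.Lib.MP_038c09_al.As
end

-- part Pool.Agent.Lib.MP_038c09_al.AsTheta
section

/-! The insertion operator on a relatively free algebra. -/

namespace Pool.Agent.Lib.MP_038c09_al.As

open MvPolynomial Finset

variable {F : Type} [Field F] {Λ : Type} [Ring Λ] [Algebra F Λ]

noncomputable def vP (F : Type) [Field F] (e i D : ℕ) : MvPolynomial ℕ F :=
  ((X 0 - X i) * (X D - X i) * X i) ^ e

noncomputable def Th (F : Type) [Field F] (e L : ℕ) : MvPolynomial ℕ F :=
  th (fun a => vP F e (a + 1) (L + 1)) L (L + L)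

noncomputable def sig (F : Type) [Field F] (e L D : ℕ) : MvPolynomial ℕ F :=
  lamP F D L (ps (fun i => vP F e (i + 1) D) D)

theorem vP_dvd (e i j D : ℕ) : (X j - X i : MvPolynomial ℕ F) ∣ vP F e j D - vP F e i D :=
  Dvd.dvd.trans ⟨X 0 * X D - (X 0 + X D) * (X j + X i) + (X j ^ 2 + X j * X i + X i ^ 2), by ring⟩
    (sub_dvd_pow_sub_pow _ _ e)

theorem exists_enum (B : Finset ℕ) {k : ℕ} (hk : k ≤ B.card) :
    ∃ f : ℕ → ℕ, (∀ a b, a < b → b < k → f a < f b) ∧ ∀ a < k, f a ∈ B :=
  ⟨fun a => if h : a < B.card then B.orderEmbOfFin rfl ⟨a, h⟩ else 0, fun a b h1 h2 => by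
    dsimp only
    rw [dif_pos (by omega), dif_pos (by omega)]
    exact (B.orderEmbOfFin rfl).strictMono h1, fun a ha => by
    dsimp only
    rw [dif_pos (by omega)]; exact B.orderEmbOfFin_mem _ _⟩

theorem prod_enum_dvd {C : Type} [CommRing C] {B : Finset ℕ} {k : ℕ} {f : ℕ → ℕ}
    (h1 : ∀ a b, a < b → b < k → f a < f b) (h2 : ∀ a < k, f a ∈ B) {g g' : ℕ → C}
    (h : ∀ i, g i ∣ g' i) : ∏ a ∈ range k, g (f a) ∣ ∏ i ∈ B, g' i := by
  rw [← prod_image (s := range k) (g := f) (f := g) fun a ha b hb e => by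
    have ha := mem_range.1 ha
    have hb := mem_range.1 hb
    rcases lt_trichotomy a b with h | h | h
    exacts [absurd e (h1 a b h hb).ne, h, absurd e (h1 b a h ha).ne']]
  refine (prod_dvd_prod_of_subset _ _ g fun i hi => ?_).trans (prod_dvd_prod_of_dvd _ _ fun i _ => h i)
  obtain ⟨a, ha, rfl⟩ := mem_image.1 hi
  exact h2 a (mem_range.1 ha)

theorem rel1 {ε : Λ →ₐ[F] F} {n : ℕ} (H : Ids ε n) {x : Λ} (hx : ε x = 0) {e : ℕ} (he : n < e)
    {D i j : ℕ} (hi : i < D) (hj : j < D) :
    vP F e (i + 1) D * vP F e (j + 1) D * (vP F e (i + 1) D - vP F e (j + 1) D) ∈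
      kI x D (Bk ε) (isId_Bk ε) := by
  wlog hij : i < j generalizing i j
  · rcases (not_lt.1 hij).eq_or_lt with rfl | h
    · simp
    · convert neg_mem (this hj hi h) using 1; ring
  by_cases hD : j + 1 = D
  · subst hD; simp [vP, show e ≠ 0 by omega]
  have hι := io_mono (fun a => if a = 0 then 0 else if a = 1 then i + 1 else j + 1) 3 D
    (fun a ha => by have : a = 0 ∨ a = 1 := by omega
                    rcases this with rfl | rfl <;> simp [hij])
    fun a _ => by split_ifs <;> omega
  have h := rename_mem_kI (isId_Bk ε) hι (b := 3) (D := D) (by simp [io]) (by simp [io])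
    fun w _ => H.g3 x hx w
  simp only [gC, map_pow, map_mul, map_sub, rename_X] at h
  norm_num [io] at h
  refine Ideal.mem_of_dvd _ (mul_dvd_mul ?_ (vP_dvd e _ _ D)) h
  rw [vP, vP, ← mul_pow]
  exact pow_dvd_pow_of_dvd_of_le ⟨-((X D - X (i + 1)) * (X 0 - X (j + 1))), by ring⟩ he.le

theorem rel2 {B : Submodule F Λ} {hB : IsId B} {x : Λ} {h h' e : ℕ}
    (hL : pL F h h ∈ kI x (h + 1) B hB) (hR : pR F h' h' ∈ kI x (h' + 2) B hB) (he : h + h' < e)
    {D j : ℕ} (hj : j < D) (S : Finset ℕ) (hS : S ⊆ range D) (hc : S.card = h + h' + 1) :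
    vP F e (j + 1) D * ∏ i ∈ S, (vP F e (j + 1) D - vP F e (i + 1) D) ∈ kI x D B hB := by
  by_cases hjS : j ∈ S
  · rw [prod_eq_zero hjS (sub_self _), mul_zero]; exact zero_mem _
  by_cases hD : j + 1 = D
  · subst hD; simp [vP, show e ≠ 0 by omega]
  have hcard := card_filter_add_card_filter_not (s := S) (· < j)
  by_cases h1 : h ≤ (S.filter (· < j)).card
  · obtain ⟨f, f1, f2⟩ := exists_enum _ h1
    simp only [mem_filter] at f2
    have hι := io_mono (fun a => if a < h then f a + 1 else j + 1) (h + 1) D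
      (fun a ha => by
        rw [if_pos (by omega)]
        split_ifs with h2
        · have := f1 a (a + 1) (by omega) h2; omega
        · have := (f2 a (by omega)).2; omega)
      fun a _ => by
        split_ifs with h2
        · have := (f2 a h2).2; omega
        · omega
    have h3 := rename_mem_kI hB hι (b := h + 1) (D := D) (by simp [io]) (by simp [io]) hL
    simp only [pL, map_pow, map_mul, map_sub, rename_X, map_prod] at h3
    rw [prod_congr rfl (g := fun a => X (j + 1) - X (f a + 1)) fun a ha => by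
      have := mem_range.1 ha
      simp [io, this, show a < h + 1 by omega], mul_comm] at h3
    refine Ideal.mem_of_dvd _ (mul_dvd_mul ?_ (prod_enum_dvd f1 (fun a ha => (f2 a ha).1)
      (g := fun i => X (j + 1) - X (i + 1)) fun i => vP_dvd e _ _ D)) h3
    simp only [io, lt_add_one, if_true, lt_irrefl, if_false, Nat.sub_self, add_zero]
    exact pow_dvd_pow_of_dvd_of_le ⟨X 0 - X (j + 1), by ring⟩ (by omega)
  · obtain ⟨f, f1, f2⟩ := exists_enum (S.filter (¬ · < j)) (k := h' + 1) (by omega)
    simp only [mem_filter] at f2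
    have f3 : ∀ a < h' + 1, j < f a ∧ f a < D := fun a ha =>
      ⟨lt_of_le_of_ne (not_lt.1 (f2 a ha).2) fun e => hjS (e ▸ (f2 a ha).1),
        mem_range.1 (hS (f2 a ha).1)⟩
    have hι := io_mono (fun a => if a = 0 then 0 else if a = 1 then j + 1 else f (a - 2) + 1)
      (h' + 3) (D + 1)
      (fun a ha => by
        rcases a with _ | _ | a
        · simp
        · simpa using (f3 0 (by omega)).1
        · simpa using f1 a _ (Nat.lt_succ_self a) (by omega))
      fun a ha => by
        split_ifs with h2 h3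
        · omega
        · omega
        · have := (f3 (a - 2) (by omega)).2; omega
    have h3 := rename_mem_kI hB hι (b := h' + 2) (D := D)
      (by simpa [io] using (f3 h' (by omega)).2) (by simp [io]) hR
    simp only [pR, map_pow, map_mul, map_sub, rename_X, map_prod] at h3
    rw [prod_congr rfl (g := fun a => X (j + 1) - X (f (a + 1) + 1)) fun a ha => by
      have := mem_range.1 ha
      simp [io, this], mul_comm] at h3
    refine Ideal.mem_of_dvd _ (mul_dvd_mul ?_ (prod_enum_dvd (f := fun a => f (a + 1))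
      (fun a b h1 h2 => f1 _ _ (by omega) (by omega)) (fun a ha => (f2 _ (by omega)).1)
      (g := fun i => X (j + 1) - X (i + 1)) fun i => vP_dvd e _ _ D)) h3
    simp only [io, show 1 < h' + 3 by omega, show 0 < h' + 3 by omega, if_true, one_ne_zero,
      if_false]
    exact pow_dvd_pow_of_dvd_of_le ⟨X D - X (j + 1), by ring⟩ (by omega)

theorem sig_sub [CharZero F] {ε : Λ →ₐ[F] F} {n : ℕ} (H : Ids ε n) {x : Λ} (hx : ε x = 0)
    {h h' e : ℕ} (hL : pL F h h ∈ kI x (h + 1) (Bk ε) (isId_Bk ε))
    (hR : pR F h' h' ∈ kI x (h' + 2) (Bk ε) (isId_Bk ε)) (he : n + h + h' < e) {ι : ℕ → ℕ}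
    (hι : StrictMono ι) (h0 : ι 0 = 0) :
    sig F e (h + h' + 1) (ι (h + h' + 1 + 1)) - rename ι (Th F e (h + h' + 1)) ∈
      kI x (ι (h + h' + 1 + 1)) (Bk ε) (isId_Bk ε) := by
  set L := h + h' + 1
  set D := ι (L + 1)
  set π := Ideal.Quotient.mkₐ F (kI x D (Bk ε) (isId_Bk ε))
  have hp : ∀ a, 0 < ι (a + 1) := fun a => h0 ▸ hι (Nat.succ_pos a)
  have := th_eq (F := F) (fun i => π (vP F e (i + 1) D)) (D := D) (L := L)
    ((Nat.le_succ L).trans hι.le_apply)
    (fun i hi j hj => by
      simpa [π] using Ideal.Quotient.eq_zero_iff_mem.2 (rel1 H hx (by omega : n < e) hi hj))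
    (fun j hj S hS hc => by
      simpa [π] using Ideal.Quotient.eq_zero_iff_mem.2
        (rel2 hL hR (by omega : h + h' < e) hj S hS hc))
    (fun a => ι (a + 1) - 1) (fun a _ b _ e => by
      have := hp a; have := hp b
      have := hι.injective (show ι (a + 1) = ι (b + 1) by dsimp only at e; omega); omega)
    fun a ha => by have := hι (show a + 1 < L + 1 by omega); have := hp a; omega
  refine Ideal.Quotient.eq.1 (show π _ = π _ from ?_)
  rw [sig, map_lamP, Th, ← AlgHom.comp_apply]
  refine Eq.trans ?_ (this.trans (Eq.trans ?_ (map_th (π.comp (rename ι)).toRingHom _ _ _).symm))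
  · congr 1; ext k; simp [ps]
  · congr 1; ext a
    simp [vP, h0, Nat.sub_add_cancel (hp a), D]

theorem coeff_mem [CharZero F] {M : Type} [AddCommGroup M] [Module F M] (J : Submodule F M)
    (S : Finset ℕ) (v : ℕ → M) (h : ∀ s : F, ∑ D ∈ S, s ^ D • v D ∈ J) {D : ℕ} (hD : D ∈ S) :
    v D ∈ J := by
  refine (Submodule.Quotient.mk_eq_zero J).1 ((Module.forall_dual_apply_eq_zero_iff F _).1
    fun ψ => ?_)
  have : Infinite F := Infinite.of_injective _ Nat.cast_injective
  have h1 : ∑ D ∈ S, Polynomial.monomial D (ψ (J.mkQ (v D))) = 0 := Polynomial.funext fun s => by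
    have := congrArg ψ ((Submodule.Quotient.mk_eq_zero J).2 (h s))
    rw [← Submodule.mkQ_apply] at this
    simpa [Polynomial.eval_finsetSum, mul_comm] using this
  have := congrArg (Polynomial.coeff · D) h1
  simpa [Polynomial.coeff_monomial, hD] using this

noncomputable def prC (D : ℕ) (c : Polynomial F) : MvPolynomial ℕ F :=
  ∏ i ∈ range D, Polynomial.aeval (X (i + 1)) c

noncomputable def SS (F : Type) [Field F] (D : ℕ) : Subalgebra F (MvPolynomial ℕ F) :=
  Algebra.adjoin F {p | ∃ a b c, p = X 0 ^ a * (X D ^ b * prC D c)}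

theorem SS_span (D : ℕ) {p : MvPolynomial ℕ F} (h : p ∈ SS F D) :
    p ∈ Submodule.span F {p | ∃ a b c, p = X 0 ^ a * (X D ^ b * prC D c)} := by
  rw [← Subalgebra.mem_toSubmodule, SS, Algebra.adjoin_eq_span] at h
  refine Submodule.span_mono (fun q hq => ?_) h
  induction hq using Submonoid.closure_induction with
  | mem _ h => exact h
  | one => exact ⟨0, 0, 1, by simp [prC]⟩
  | mul _ _ _ _ h1 h2 =>
    obtain ⟨a, b, c, rfl⟩ := h1
    obtain ⟨a', b', c', rfl⟩ := h2
    exact ⟨a + a', b + b', c * c', by simp only [prC, map_mul, prod_mul_distrib]; ring⟩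

theorem pow_sum_SS [CharZero F] (D b : ℕ) :
    ∑ i ∈ range D, (X (i + 1) : MvPolynomial ℕ F) ^ b ∈ SS F D := by
  have key : ∀ k, ∃ g ∈ PolyFn F (MvPolynomial ℕ F), g 0 = ∑ i ∈ range k, X (i + 1) ^ b ∧
      ∀ s : F, ∏ i ∈ range k, (1 + s • X (i + 1) ^ b) = 1 + s • g s := fun k => by
    induction k with
    | zero => exact ⟨0, zero_mem _, by simp, by simp⟩
    | succ k ih =>
      obtain ⟨g, h1, h2, h3⟩ := ih
      refine ⟨_, Submodule.add_mem _ (PolyFn.step h1 1 (LinearMap.mulLeft F (X (k + 1) ^ b)))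
        (Submodule.subset_span ⟨0, X (k + 1) ^ b, rfl⟩), by simp [h2, sum_range_succ], fun s => ?_⟩
      rw [prod_range_succ, h3]
      simp only [Pi.add_apply, Module.End.one_apply, LinearMap.mulLeft_apply,
        pow_zero, one_smul, smul_eq_C_mul]
      ring
  obtain ⟨g, h1, h2, h3⟩ := key D
  have h4 : (fun s => (SS F D).toSubmodule.mkQ (g s)) ∈ PolyFn F _ :=
    span_ind ((SS F D).toSubmodule.mkQ.compLeft F) _ (by
      rintro _ ⟨i, v, rfl⟩
      exact Submodule.subset_span ⟨i, (SS F D).toSubmodule.mkQ v, by ext; simp⟩) h1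
  have := PolyFn.zero_at h4 fun s hs => (Submodule.Quotient.mk_eq_zero _).2 (by
    have h5 : 1 + s • g s ∈ SS F D := Algebra.subset_adjoin ⟨0, 0, 1 + s • Polynomial.X ^ b,
      by simp [prC, h3]⟩
    have h6 := (SS F D).smul_mem ((SS F D).sub_mem h5 (one_mem _)) s⁻¹
    rwa [add_sub_cancel_left, smul_smul, inv_mul_cancel₀ hs, one_smul] at h6)
  exact h2 ▸ (Submodule.Quotient.mk_eq_zero _).1 this

theorem sig_SS [CharZero F] (e L D : ℕ) : sig F e L D ∈ SS F D := by
  have h0 : (X 0 : MvPolynomial ℕ F) ∈ SS F D := Algebra.subset_adjoin ⟨1, 0, 1, by simp [prC]⟩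
  have h1 : (X D : MvPolynomial ℕ F) ∈ SS F D := Algebra.subset_adjoin ⟨0, 1, 1, by simp [prC]⟩
  have key : ∀ G : MvPolynomial ℕ F, ∀ b, ∑ i ∈ range D, X (i + 1) ^ b *
      rename (fun a => if a = 0 then 0 else if a = 1 then i + 1 else D) G ∈ SS F D := fun G => by
    induction G using MvPolynomial.induction_on with
    | C c =>
      intro b
      simp only [rename_C, ← sum_mul]
      exact mul_mem (pow_sum_SS D b) (Subalgebra.algebraMap_mem _ c)
    | add p q hp hq => intro b; simp only [map_add, mul_add, sum_add_distrib]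
                       exact add_mem (hp b) (hq b)
    | mul_X p a hp =>
      intro b
      simp only [map_mul, rename_X]
      split_ifs
      · simp only [← mul_assoc, ← sum_mul]; exact mul_mem (hp b) h0
      · convert hp (b + 1) using 2; ring
      · simp only [← mul_assoc, ← sum_mul]; exact mul_mem (hp b) h1
  refine lamP_mem _ _ _ _ fun k => ?_
  simpa [ps, vP] using key (vP F e 1 2 ^ k) 0

def wl {σ : Type} (xs : σ → Λ) (l : List σ) (i : ℕ) : Λ := (l.map xs).getD i 0

theorem pr_getD (m : List Λ) : pr (fun i => m.getD i 0) 0 m.length = m.prod := by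
  rw [pr_eq_prod]
  congr 1
  exact List.ext_getElem (by simp) fun i h1 h2 => by simp [List.getElem?_eq_getElem h2]

theorem wl_mem {ε : Λ →ₐ[F] F} {σ : Type} {xs : σ → Λ} (hG : Gen ε xs) (l : List σ) (i : ℕ) :
    wl xs l i ∈ Bk ε := by
  unfold wl
  by_cases h : i < (l.map xs).length
  · rw [List.getD_eq_getElem _ _ h, List.getElem_map]; exact hG.h0 _
  · rw [List.getD_eq_default _ _ (not_lt.1 h)]; exact zero_mem _

theorem Ev_prC (x : Λ) (w : ℕ → Λ) (D : ℕ) (c : Polynomial F) :
    Ev x w D (prC D c) = pr (fun i => w i * Polynomial.aeval x c) 0 D := by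
  have top : ∀ D (q : Polynomial F) (g : MvPolynomial ℕ F),
      Ev x w D (Polynomial.aeval (X D) q * g) = Ev x w D g * Polynomial.aeval x q :=
    fun D q g => by
    induction q using Polynomial.induction_on with
    | C a => simp [← Algebra.smul_def, ← Algebra.commutes, ← smul_eq_C_mul]
    | add p q hp hq => simp [add_mul, mul_add, hp, hq]
    | monomial i a ih =>
      rw [pow_succ, ← mul_assoc, map_mul (Polynomial.aeval _), map_mul (Polynomial.aeval x),
        Polynomial.aeval_X,
        Polynomial.aeval_X, mul_comm _ (X D), mul_assoc, Ev_Xtop, ih, mul_assoc]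
  induction D with
  | zero => simp [prC, Ev_one, pr]
  | succ D ih =>
    rw [prC, prod_range_succ, mul_comm, top, ← prC, Ev_succ, ih, pr, zero_add, mul_assoc]
    simp only [prC, map_prod, ← Polynomial.aeval_algHom_apply, rename_X]
    exact prod_congr rfl fun i hi => by rw [if_pos (by have := mem_range.1 hi; omega)]

theorem val_update (x : Λ) (w : ℕ → Λ) (β : ℕ → ℕ) {i D : ℕ} (h : i < D) :
    ∃ p q, ∀ a, val x (Function.update w i a) β D = p * a * q := by
  induction D, h using Nat.le_induction with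
  | base => exact ⟨val x w β i, x ^ β (i + 1), fun a => by
      rw [val, val_congr x (w' := w) (β' := β) i
        (fun j hj => by rw [Function.update_of_ne (by omega)]) fun _ _ => rfl]
      simp [mul_assoc]⟩
  | succ D hD ih =>
    obtain ⟨p, q, h⟩ := ih
    exact ⟨p, q * (w D * x ^ β (D + 1)), fun a => by
      rw [val, h, Function.update_of_ne (by omega), mul_assoc]⟩

theorem Ev_update (x : Λ) (w : ℕ → Λ) {i D : ℕ} (h : i < D) (g : MvPolynomial ℕ F) :
    ∃ f : Λ →ₗ[F] Λ, ∀ a, Ev x (Function.update w i a) D g = f a := by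
  induction g using MvPolynomial.induction_on' with
  | monomial β c =>
    obtain ⟨p, q, h⟩ := val_update x w β h
    exact ⟨c • (LinearMap.mulRight F q ∘ₗ LinearMap.mulLeft F p), fun a => by simp [Ev_mon, h]⟩
  | add p q hp hq =>
    obtain ⟨f, hf⟩ := hp
    obtain ⟨g, hg⟩ := hq
    exact ⟨f + g, fun a => by simp [hf, hg]⟩

theorem Gen.words {ε : Λ →ₐ[F] F} {σ : Type} {xs : σ → Λ} (hG : Gen ε xs) (a : Λ) :
    a ∈ Submodule.span F (Set.range fun l : List σ => (l.map xs).prod) := by
  have hb : a ∈ (Algebra.adjoin F (Set.range xs)).toSubmodule := by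
    rw [hG.top]; trivial
  rw [Algebra.adjoin_eq_span] at hb
  refine Submodule.span_mono (fun q hq => ?_) hb
  induction hq using Submonoid.closure_induction with
  | mem _ h => obtain ⟨s, rfl⟩ := h; exact ⟨[s], by simp⟩
  | one => exact ⟨[], rfl⟩
  | mul _ _ _ _ h1 h2 =>
    obtain ⟨l, rfl⟩ := h1
    obtain ⟨l', rfl⟩ := h2
    exact ⟨l ++ l', by simp⟩

theorem Gen.words_B {ε : Λ →ₐ[F] F} {σ : Type} {xs : σ → Λ} (hG : Gen ε xs) {a : Λ}
    (ha : a ∈ Bk ε) : a ∈ Submodule.span F {v | ∃ l : List σ, l ≠ [] ∧ v = (l.map xs).prod} := by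
  have := span_ind (LinearMap.id - (Algebra.linearMap F Λ) ∘ₗ ε.toLinearMap)
    (Submodule.span F {v | ∃ l : List σ, l ≠ [] ∧ v = (l.map xs).prod}) (by
      rintro _ ⟨l, rfl⟩
      rcases l with _ | ⟨s, l⟩
      · simp
      · simpa [hG.h0] using Submodule.subset_span (s := {v | ∃ l : List σ, l ≠ [] ∧
          v = (l.map xs).prod}) ⟨s :: l, by simp, rfl⟩) (hG.words a)
  simpa [mem_Bk.1 ha] using this

theorem exists_concat {σ : Type} (xs : σ → Λ) (ls : ℕ → List σ) (m : ℕ) (h : ∀ i < m, ls i ≠ []) :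
    ∃ l : List σ, ∃ ι : ℕ → ℕ, ι 0 = 0 ∧ ι m = l.length ∧ (∀ a < m, ι a < ι (a + 1)) ∧
      (∀ a ≤ m, ι a ≤ l.length) ∧ ∀ a < m, grp (wl xs l) ι a = ((ls a).map xs).prod := by
  induction m with
  | zero => exact ⟨[], fun _ => 0, rfl, rfl, by simp, by simp, by simp⟩
  | succ m ih =>
    obtain ⟨l, ι, h0, h1, h2, h3, h4⟩ := ih fun i hi => h i (by omega)
    have hm := List.length_pos_iff.2 (h m (by omega))
    refine ⟨l ++ ls m, Function.update ι (m + 1) (l ++ ls m).length, by simpa using h0, by simp,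
      fun a ha => ?_, fun a ha => ?_, fun a ha => ?_⟩
    · rcases (Nat.lt_succ_iff.1 ha).eq_or_lt with rfl | h5
      · simp [h1, hm]
      · rw [Function.update_of_ne (by omega), Function.update_of_ne (by omega)]; exact h2 a h5
    · rcases ha.eq_or_lt with rfl | h5
      · simp
      · rw [Function.update_of_ne (by omega), List.length_append]
        exact (h3 a (by omega)).trans (Nat.le_add_right _ _)
    · rcases (Nat.lt_succ_iff.1 ha).eq_or_lt with rfl | h5
      · rw [grp, Function.update_self, Function.update_of_ne (by omega), h1, ← pr_getD]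
        simp only [List.length_append, Nat.add_sub_cancel_left, List.length_map]
        exact pr_congr _ fun i _ => by simp [wl, List.getElem?_append_right]
      · rw [grp, Function.update_of_ne (by omega), Function.update_of_ne (by omega), ← h4 a h5]
        refine pr_congr _ fun i hi => ?_
        have := h3 (a + 1) h5
        simp only [wl, List.map_append]
        rw [List.getD_append _ _ _ _ (by simp; omega)]

/-- The insertion operator. -/
theorem exists_theta [CharZero F] {ε : Λ →ₐ[F] F} {n : ℕ} (H : Ids ε n) {σ : Type}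
    {xs : σ → Λ} (hG : Gen ε xs)
    (hend : ∀ y : σ → Λ, (∀ s, ε (y s) = 0) → ∃ φ : Λ →ₐ[F] Λ, ∀ s, φ (xs s) = y s)
    {x : Λ} (hx : ε x = 0) {h h' e : ℕ} (hL : pL F h h ∈ kI x (h + 1) (Bk ε) (isId_Bk ε))
    (hR : pR F h' h' ∈ kI x (h' + 2) (Bk ε) (isId_Bk ε)) (he : n + h + h' < e) :
    ∃ θ : Module.End F Λ, (∀ k, ∀ a ∈ Tf F Λ k, θ a ∈ Tf F Λ k) ∧ ∀ w : ℕ → Λ,
      (∀ i, w i ∈ Bk ε) → θ (pr w 0 (h + h' + 1 + 1)) =
        Ev x w (h + h' + 1 + 1) (Th F e (h + h' + 1)) := by
  classical
  set L := h + h' + 1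
  let π : (List σ →₀ F) →ₗ[F] Λ := Finsupp.linearCombination F fun l => (l.map xs).prod
  let ϑ : ℕ → MvPolynomial ℕ F → (List σ →₀ F) →ₗ[F] Λ := fun D g =>
    Finsupp.linearCombination F fun l => if l.length = D then Ev x (wl xs l) D g else 0
  have dec : ∀ (f : ℕ → MvPolynomial ℕ F) (c : ℕ → F) (u : List σ →₀ F),
      Finsupp.linearCombination F (fun l => c l.length • Ev x (wl xs l) l.length (f l.length)) u =
      ∑ D ∈ u.support.image List.length, c D • ϑ D (f D) u := fun f c u => by
    simp only [ϑ, Finsupp.linearCombination_apply, Finsupp.sum, smul_sum]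
    rw [sum_comm]
    refine sum_congr rfl fun l hl => ?_
    rw [sum_eq_single_of_mem l.length (mem_image_of_mem _ hl) fun D _ hD => by simp [hD.symm],
      if_pos rfl, smul_comm]
  have good : ∀ J : Submodule F Λ, IsId J → (∀ φ : Λ →ₐ[F] Λ, ∀ a ∈ J, φ a ∈ J) →
      ∀ u, π u ∈ J → ∀ D ∈ u.support.image List.length, ∀ g ∈ SS F D, ϑ D g u ∈ J :=
    fun J hJ hφ u hu D hD g hg => by
    let T : MvPolynomial ℕ F →ₗ[F] Λ := u.sum fun l c =>
      c • if l.length = D then Ev x (wl xs l) D else 0
    have hT : ∀ g, ϑ D g u = T g := fun g => by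
      simp only [ϑ, T, Finsupp.linearCombination_apply, Finsupp.sum, LinearMap.sum_apply]
      exact sum_congr rfl fun l _ => by split_ifs <;> simp
    rw [hT]
    refine span_ind T J ?_ (SS_span D hg)
    rintro _ ⟨a, b, c, rfl⟩
    have T0 : ∀ g, T (X 0 * g) = x * T g := fun g => by
      simp only [T, Finsupp.sum, LinearMap.sum_apply, mul_sum]
      exact sum_congr rfl fun l _ => by split_ifs <;> simp [Ev_X0]
    have T1 : ∀ g, T (X D * g) = T g * x := fun g => by
      simp only [T, Finsupp.sum, LinearMap.sum_apply, sum_mul]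
      exact sum_congr rfl fun l _ => by split_ifs <;> simp [Ev_Xtop]
    have T2 : T (prC D c) ∈ J := by
      rw [← hT]
      refine coeff_mem J _ (fun D => ϑ D (prC D c) u) (fun s => ?_) hD
      obtain ⟨φ, hφ'⟩ := hend (fun t => s • (xs t * Polynomial.aeval x c)) fun t => by
        simp [hG.h0]
      rw [← dec (fun D => prC D c) fun D => s ^ D]
      convert hφ φ _ hu using 1
      simp only [π, Finsupp.apply_linearCombination, ← AlgHom.toLinearMap_apply φ]
      congr 2
      ext l
      simp only [Function.comp_apply, AlgHom.toLinearMap_apply, Ev_prC]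
      rw [pr_congr (w' := fun i => (l.map fun t => xs t * Polynomial.aeval x c).getD i 0) (c' := 0)
        _ fun i hi => by simp [wl, List.getElem?_eq_getElem hi]]
      have := pr_getD (l.map fun t => xs t * Polynomial.aeval x c)
      rw [List.length_map] at this
      rw [this]
      clear this
      induction l with
      | nil => simp
      | cons t l ih => simp [hφ', ← ih, pow_succ, mul_smul]
    induction a with
    | zero =>
      rw [pow_zero, one_mul]
      induction b with
      | zero => simpa using T2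
      | succ b ih => rw [pow_succ', mul_assoc, T1]; exact (hJ _ _ ih).2
    | succ a ih => rw [pow_succ', mul_assoc, T0]; exact (hJ _ _ ih).1
  let θ0 : (List σ →₀ F) →ₗ[F] Λ := Finsupp.linearCombination F fun l =>
    (1 : F) • Ev x (wl xs l) l.length (sig F e L l.length)
  have good0 : ∀ J : Submodule F Λ, IsId J → (∀ φ : Λ →ₐ[F] Λ, ∀ a ∈ J, φ a ∈ J) →
      ∀ u, π u ∈ J → θ0 u ∈ J := fun J hJ hφ u hu => by
    rw [show θ0 u = _ from dec (sig F e L) (fun _ => 1) u]
    exact J.sum_mem fun D hD => J.smul_mem _ (good J hJ hφ u hu D hD _ (sig_SS e L D))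
  obtain ⟨s, hs⟩ := π.exists_rightInverse_of_surjective (by
    rw [Finsupp.range_linearCombination]; exact eq_top_iff.2 fun a _ => hG.words a)
  have hs' : ∀ a, π (s a) = a := fun a => LinearMap.congr_fun hs a
  have hθ : ∀ u, θ0 (s (π u)) = θ0 u := fun u => sub_eq_zero.1 (by
    rw [← map_sub]
    exact good0 ⊥ isId_bot (by simp) _ (by simp [hs']))
  refine ⟨θ0 ∘ₗ s, fun k a ha => good0 _ (isId_Tf k) (fun φ a => map_Tf φ k) _ (by rwa [hs']), ?_⟩
  have main : ∀ m ≤ L + 1, ∀ w : ℕ → Λ, (∀ i < m, w i ∈ Bk ε) →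
      (∀ i, m ≤ i → i < L + 1 → ∃ l : List σ, l ≠ [] ∧ w i = (l.map xs).prod) →
      (θ0 ∘ₗ s) (pr w 0 (L + 1)) = Ev x w (L + 1) (Th F e L) := fun m hm => by
    induction m with
    | zero =>
      intro w _ h2
      choose! ls h3 h4 using fun i => h2 i (Nat.zero_le i)
      obtain ⟨l, ι, a0, a1, a2, -, a4⟩ := exists_concat xs ls (L + 1) h3
      have a5 : ∀ a ≤ L + 1, io ι (L + 1) l.length a = ι a := fun a ha => by
        unfold io; split_ifs with h5
        · rfl
        · rw [show a = L + 1 by omega, a1]; simp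
      have hι := io_mono ι (L + 1) l.length (fun a ha => a2 a (by omega)) fun a ha => by
        rw [← a1]
        exact (show ∀ b, a < b → b ≤ L + 1 → ι a < ι b from fun b hb => by
          induction b, hb using Nat.le_induction with
          | base => exact a2 a
          | succ b _ ih => exact fun h => (ih (by omega)).trans (a2 b h)) _ ha le_rfl
      have a6 : ∀ g : MvPolynomial ℕ F, Ev x (wl xs l) l.length (rename (io ι (L + 1) l.length) g) =
          Ev x w (L + 1) g := fun g => by
        rw [Ev_rename x _ hι (b := L + 1) (by simp [io]) (by simp [io]), a5 0 (by omega), a0,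
          a5 _ le_rfl, a1, Nat.sub_self, Ev_congr x (w' := w) _ fun i hi => by
            rw [h4 i hi, ← a4 i hi, grp, grp, a5 i hi.le, a5 _ hi]]
        simp [pr]
      have a7 := sig_sub H hx hL hR he hι (by rw [a5 0 (by omega), a0]) _ (wl_mem hG l)
      rw [a5 _ le_rfl, a1, map_sub, a6, sub_eq_zero] at a7
      have a8 := a6 1
      rw [map_one, Ev_one, Ev_one] at a8
      have a9 := pr_getD (l.map xs)
      rw [List.length_map] at a9
      rw [← a8, ← a7, show pr (wl xs l) 0 l.length = π (Finsupp.single l 1) by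
        simp only [π, Finsupp.linearCombination_single, one_smul]; exact a9,
        LinearMap.comp_apply, hθ]
      simp [θ0, L]
    | succ m ih =>
      intro w h1 h2
      obtain ⟨f, hf⟩ := Ev_update x w (show m < L + 1 by omega) (1 : MvPolynomial ℕ F)
      obtain ⟨g, hg⟩ := Ev_update x w (show m < L + 1 by omega) (Th F e L)
      have := span_ind ((θ0 ∘ₗ s) ∘ₗ f - g) ⊥ (by
        rintro _ ⟨l, hl, rfl⟩
        rw [LinearMap.sub_apply, LinearMap.comp_apply, ← hf, ← hg, Ev_one,
          ih (by omega) _ (fun i hi => by rw [Function.update_of_ne hi.ne]; exact h1 i (by omega))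
          fun i h3 h4 => by
            rcases h3.eq_or_lt with rfl | h5
            · exact ⟨l, hl, by simp⟩
            · rw [Function.update_of_ne h5.ne']; exact h2 i h5 h4]
        simp) (hG.words_B (h1 m (by omega)))
      rw [LinearMap.sub_apply, LinearMap.comp_apply, ← hf, ← hg, Ev_one,
        Function.update_eq_self] at this
      exact sub_eq_zero.1 this
  exact fun w hw => main _ le_rfl w (fun i _ => hw i) fun i h1 h2 => by omega

end Pool.Agent.Lib.MP_038c09_al.As
end
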