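import Pool.Agent.Lib.MP_038c09_al.AsTheta
import Pool.Agent.Lib.MP_038c09_al.AsPR

-- part Pool.Agent.Lib.MP_038c09_al.AsQ
section

/-! The hidden part and the action of the insertion operators on it. -/

namespace Pool.Agent.Lib.MP_038c09_al.As

open MvPolynomial Finset

variable {F : Type} [Field F] {Λ : Type} [Ring Λ] [Algebra F Λ]

def Vop (F : Type) [Field F] [Algebra F Λ] (x : Λ) (e : ℕ) : Module.End F (Λ → Λ) :=
  ((op F 0 x - op F 1 x) * (op F 2 x - op F 1 x) * op F 1 x) ^ e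

theorem pOpV (x : Λ) (e : ℕ) : POp x (vP F e 1 2) (Vop F x e) :=
  ((((pOp0 x).sub (pOp1 x)).mul ((pOp2 x).sub (pOp1 x))).mul (pOp1 x)).pow e

theorem liftsV (k : ℕ) (x : Λ) (e : ℕ) : (G3 F Λ k).Lifts (Vop F x e)
    (((lam F k 0 x - lam F k 1 x) * (lam F k 2 x - lam F k 1 x) * lam F k 1 x) ^ e) :=
  ((((lifts_lam k 0 x).sub (lifts_lam k 1 x)).mul ((lifts_lam k 2 x).sub (lifts_lam k 1 x))).mul
    (lifts_lam k 1 x)).pow e

theorem op_comm_self (i j : Fin 3) (x : Λ) : Commute (op F i x) (op F j x) := by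
  by_cases h : i = j
  · rw [h]
  · exact op_comm h x x

theorem commV (i : Fin 3) (x : Λ) (e : ℕ) : Commute (op F i x) (Vop F x e) :=
  (((((op_comm_self (F := F) i 0 x).sub_right (op_comm_self (F := F) i 1 x)).mul_right
    ((op_comm_self (F := F) i 2 x).sub_right (op_comm_self (F := F) i 1 x))).mul_right
    (op_comm_self (F := F) i 1 x))).pow_right e

theorem St.mul {V : Type} [AddCommGroup V] [Module F V] {α β : Module.End F V}
    {N : Submodule F V} (h : St α N) (h' : St β N) : St (α * β) N := fun a ha => h _ (h' a ha)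

theorem St.sub {V : Type} [AddCommGroup V] [Module F V] {α β : Module.End F V}
    {N : Submodule F V} (h : St α N) (h' : St β N) : St (α - β) N :=
  fun a ha => N.sub_mem (h a ha) (h' a ha)

theorem stV {x : Λ} {W : Submodule F (Λ → Λ)} (h : ∀ i, St (op F i x) W) (e : ℕ) :
    St (Vop F x e) W := ((((h 0).sub (h 1)).mul ((h 2).sub (h 1))).mul (h 1)).pow e

def piQ (F : Type) [Field F] [Algebra F Λ] (x : Λ) (e : ℕ) : (Λ → Λ) →ₗ[F] Λ :=
  LinearMap.proj 1 ∘ₗ Vop F x e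

theorem piQ_apply (x : Λ) (e : ℕ) (ψ : Λ → Λ) : piQ F x e ψ = Vop F x e ψ 1 := rfl

theorem Psi_mem {x t1 t2 : Λ} {W : Submodule F (Λ → Λ)} (hW : ∀ i, St (op F i x) W)
    (h : ph t1 t2 ∈ W) (g : MvPolynomial ℕ F) : Psi x t1 t2 g ∈ W := by
  induction g using MvPolynomial.induction_on with
  | C c => rw [← mul_one (C c), ← smul_eq_C_mul, map_smul, Psi_one]; exact W.smul_mem c h
  | add p q hp hq => rw [map_add]; exact W.add_mem hp hq
  | mul_X p i hp =>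
    rw [mul_comm]
    rcases i with _ | _ | _ | i
    · rw [pOp0]; exact hW 0 _ hp
    · rw [pOp1]; exact hW 1 _ hp
    · rw [pOp2]; exact hW 2 _ hp
    · convert hp using 1
      exact funext fun z => Ev_Xbig _ _ _ _ (by omega) _

theorem Ev_pc (x : Λ) (w : ℕ → Λ) (g : MvPolynomial ℕ F) :
    Ev x w 2 g = Ev x (pc (w 0) (w 1)) 2 g :=
  Ev_congr _ _ (fun i hi => by interval_cases i <;> simp [pc]) _

theorem piQ_Psi (x : Λ) (e : ℕ) (t1 t2 : Λ) (g : MvPolynomial ℕ F) :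
    piQ F x e (Psi x t1 t2 g) = Ev x (pc t1 t2) 2 (vP F e 1 2 * g) := by
  rw [piQ_apply, ← pOpV, Psi_apply, one_mul]

theorem Ev_X1_l (x t1 t2 : Λ) (k : ℕ) (g : MvPolynomial ℕ F) :
    Ev x (pc t1 t2) 2 (X 1 ^ k * g) = Ev x (pc (t1 * x ^ k) t2) 2 g := by
  induction k generalizing t1 with
  | zero => simp
  | succ k ih =>
    rw [pow_succ', mul_assoc, Ev_Xr _ _ 0 2 (by omega), Ev_pc, pow_succ', ← mul_assoc, ← ih]
    simp [pc]

theorem Ev_X1_r (x t1 t2 : Λ) (k : ℕ) (g : MvPolynomial ℕ F) :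
    Ev x (pc t1 t2) 2 (X 1 ^ k * g) = Ev x (pc t1 (x ^ k * t2)) 2 g := by
  induction k generalizing t2 with
  | zero => simp
  | succ k ih =>
    rw [pow_succ', mul_assoc, Ev_Xl _ _ 1 2 (by omega), Ev_pc, pow_succ, mul_assoc, ← ih]
    simp [pc]

theorem Fk_lin {k : ℕ} {φ : Λ → Λ} (h : φ ∈ Fk F Λ k) (c : F) (a b : Λ) :
    φ (c • a + b) = c • φ a + φ b := by
  induction h using Submodule.span_induction with
  | mem _ h => obtain ⟨_, _, t1, t2, -, -, -, rfl⟩ := h; simp [ph, mul_add, add_mul]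
  | zero => simp
  | add x y _ _ hx hy => simp only [Pi.add_apply, hx, hy, smul_add]; abel
  | smul r x _ hx => simp only [Pi.smul_apply, hx, smul_add, smul_comm r c]

theorem V_kill {ε : Λ →ₐ[F] F} {n : ℕ} (H : Ids ε n) {x : Λ} (hx : ε x = 0) {e : ℕ} (he : n ≤ e)
    {ψ : Λ → Λ} (h : ψ ∈ Fk F Λ 0) (z : Λ) :
    x ^ e * Vop F x e ψ z = 0 ∧ Vop F x e ψ z * x ^ e = 0 := by
  obtain ⟨d, rfl⟩ := Nat.exists_eq_add_of_le he
  constructor
  · refine Fk_ind (LinearMap.mulLeft F (x ^ (n + d)) ∘ₗ LinearMap.proj z ∘ₗ Vop F x (n + d)) ⊥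
      (fun _ _ t1 t2 _ _ _ => ?_) h
    have h1 := (((pOp0 (F := F) x).pow (n + d)).mul (pOpV x (n + d))).ph t1 t2 z
    rw [Module.End.mul_apply, op0_pow, show X 0 ^ (n + d) * vP F (n + d) 1 2 =
      (X 0 * gA F) ^ d * (-1) ^ (n + d) * (X 0 * gA F) ^ n by
        rw [vP, gA, ← mul_pow, mul_right_comm (_ ^ d), ← pow_add, add_comm d, ← mul_pow]
        congr 1; ring,
      (kI x 2 ⊤ isId_top).mul_mem_left _ (fun w _ => H.g1 x hx w) _ fun _ => trivial] at h1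
    exact h1
  · refine Fk_ind (LinearMap.mulRight F (x ^ (n + d)) ∘ₗ LinearMap.proj z ∘ₗ Vop F x (n + d)) ⊥
      (fun _ _ t1 t2 _ _ _ => ?_) h
    have h1 := (((pOp2 (F := F) x).pow (n + d)).mul (pOpV x (n + d))).ph t1 t2 z
    rw [Module.End.mul_apply, op2_pow, show X 2 ^ (n + d) * vP F (n + d) 1 2 =
      (X 2 * gA F) ^ d * (-1) ^ (n + d) * (X 2 * gA F) ^ n by
        rw [vP, gA, ← mul_pow, mul_right_comm (_ ^ d), ← pow_add, add_comm d, ← mul_pow]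
        congr 1; ring,
      (kI x 2 ⊤ isId_top).mul_mem_left _ (fun w _ => H.g2 x hx w) _ fun _ => trivial] at h1
    exact h1

/-- the block formula. -/
def IsTheta (ε : Λ →ₐ[F] F) (x : Λ) (e L : ℕ) (θ : Module.End F Λ) : Prop :=
  (∀ k, ∀ a ∈ Tf F Λ k, θ a ∈ Tf F Λ k) ∧ ∀ w : ℕ → Λ, (∀ i, w i ∈ Bk ε) →
    θ (pr w 0 (L + 1)) = Ev x w (L + 1) (Th F e L)

/-- pieces `t1 x, x, ..., x, x t2`. -/
def pad (x t1 t2 : Λ) (L : ℕ) (i : ℕ) : Λ := if i = 0 then t1 * x else if i < L then x else x * t2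

theorem pad_mem {ε : Λ →ₐ[F] F} {x : Λ} (hx : ε x = 0) (t1 t2 : Λ) (L i : ℕ) :
    pad x t1 t2 L i ∈ Bk ε := by
  unfold pad; split_ifs <;> simp [mem_Bk, hx]

theorem val_pad (x x' t1 t2 : Λ) (L : ℕ) (β : ℕ → ℕ) : val x' (pad x t1 t2 (L + 1)) β (L + 1 + 1) =
    x' ^ β 0 * (t1 * (pr (fun j => x * x' ^ β (j + 1)) 0 (L + 1) * x) * t2) * x' ^ β (L + 2) := by
  have : ∀ j ≤ L, val x' (pad x t1 t2 (L + 1)) β (j + 1) =
      x' ^ β 0 * t1 * pr (fun j => x * x' ^ β (j + 1)) 0 (j + 1) := fun j hj => by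
    induction j with
    | zero => simp [val, pad, pr, mul_assoc]
    | succ j ih =>
      rw [val, ih (by omega), pad, if_neg (by omega), if_pos (by omega)]
      simp [mul_assoc, pr]
  rw [val, this L le_rfl]
  simp [pad, mul_assoc]

theorem pr_const (x : Λ) (c k : ℕ) : pr (fun _ => x) c k = x ^ k := by
  induction k with
  | zero => simp [pr]
  | succ k ih => rw [pr, ih, pow_succ]

theorem pr_pad (x t1 t2 : Λ) (L : ℕ) :
    pr (pad x t1 t2 (L + 1)) 0 (L + 1 + 1) = t1 * x ^ (L + 2) * t2 := by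
  rw [← val_zero x, val_pad]
  simp [pr_const, pow_succ]

theorem absorb {M : Type} [AddCommGroup M] [Module F M] (x : Λ) (f1 f2 : Λ →ₗ[F] M)
    (p1 p2 : MvPolynomial ℕ F) (h : ∀ w, f1 (Ev x w 2 p1) = f2 (Ev x w 2 p2))
    (g : MvPolynomial ℕ F) : ∀ w, f1 (Ev x w 2 (g * p1)) = f2 (Ev x w 2 (g * p2)) := by
  induction g using MvPolynomial.induction_on with
  | C c => intro w; simp [← smul_eq_C_mul, h]
  | add p q hp hq => intro w; simp [add_mul, hp, hq]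
  | mul_X p i hp =>
    intro w
    rw [mul_comm p, mul_assoc, mul_assoc]
    rcases i with _ | _ | _ | i
    · rw [Ev_Xl _ _ 0 2 (by omega), Ev_Xl _ _ 0 2 (by omega), hp]
    · rw [Ev_Xl _ _ 1 2 (by omega), Ev_Xl _ _ 1 2 (by omega), hp]
    · rw [Ev_Xr _ _ 1 2 (by omega), Ev_Xr _ _ 1 2 (by omega), hp]
    · rw [Ev_Xbig _ _ _ _ (by omega), Ev_Xbig _ _ _ _ (by omega), hp]

theorem theta_Q {ε : Λ →ₐ[F] F} {x : Λ} (hx : ε x = 0) {e L : ℕ} (he : L + 2 ≤ e)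
    {θ : Module.End F Λ} (hθ : IsTheta ε x e (L + 1) θ) {ψ : Λ → Λ} (h : ψ ∈ Fk F Λ 0) :
    θ (piQ F x e ψ) = piQ F x e ((Vop F x e ^ (L + 1 + (L + 1))) ψ) := by
  have base : ∀ w, θ (Ev (F := F) x w 2 (X 1 ^ (L + 2))) = LinearMap.id (R := F)
      (Ev x w 2 (X 1 ^ (L + 2) * vP F e 1 2 ^ (L + 1 + (L + 1)))) := fun w => by
    set w' := pad x (w 0) (w 1) (L + 1)
    have tel : ∀ a, a ≤ L → ∀ h : MvPolynomial ℕ F,
        Ev x w' (L + 1 + 1) (X (a + 1) * h) = Ev x w' (L + 1 + 1) (X 1 * h) := fun a ha h => by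
      induction a with
      | zero => rfl
      | succ a ih =>
        rw [← ih (by omega), Ev_Xr _ _ (a + 1) _ (by omega), Ev_Xl _ _ (a + 1) _ (by omega)]
        simp [w', pad, show a < L by omega]
    let c : ℕ → ℕ := fun a => if 1 ≤ a ∧ a ≤ L + 1 then 1 else a
    have col : ∀ G h : MvPolynomial ℕ F,
        Ev x w' (L + 1 + 1) (h * G) = Ev x w' (L + 1 + 1) (h * rename c G) := fun G => by
      induction G using MvPolynomial.induction_on with
      | C c => simp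
      | add p q hp hq => simp [mul_add, hp, hq]
      | mul_X p a hp =>
        intro h
        rw [mul_comm p, ← mul_assoc, hp, map_mul (rename c), rename_X, mul_comm h (X a), mul_assoc,
          mul_left_comm h]
        simp only [c]
        split_ifs with h1
        · obtain ⟨a, rfl⟩ : ∃ b, a = b + 1 := ⟨a - 1, by omega⟩
          exact tel a (by omega) _
        · rfl
    have hι := io_mono (fun a => a) 2 (L + 1 + 1) (fun a _ => by omega) fun a _ => by omega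
    have e1 : rename c (Th F e (L + 1)) =
        rename (io (fun a => a) 2 (L + 1 + 1)) (vP F e 1 2 ^ (L + 1 + (L + 1))) := by
      refine (map_th (rename c : MvPolynomial ℕ F →ₐ[F] MvPolynomial ℕ F).toRingHom _ _ _).trans ?_
      rw [th_congr (y' := fun _ => vP F e 1 (L + 1 + 1)) _ fun a ha => by
          simp [vP, c, show a ≤ L by omega], th_const]
      simp [vP, io]
    have e2 := col (Th F e (L + 1)) 1
    rw [one_mul, one_mul, e1, Ev_rename x w' hι (b := 2) (by simp [io]) (by simp [io]),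
      Ev_pc x (grp _ _)] at e2
    have e3 : pr w' 1 (L + 1) = x ^ (L + 1) * w 1 := by
      rw [pr, pr_congr (w' := fun _ => x) (c' := 0) L fun i hi => by
        simp [w', pad]; omega, pr_const]
      simp [w', pad, add_comm 1 L, pow_succ, mul_assoc]
    rw [Ev_pc, ← mul_one (X 1 ^ (L + 2)), Ev_X1_l, Ev_one, mul_one, LinearMap.id_apply,
      show pr (pc (w 0 * x ^ (L + 2)) (w 1)) 0 2 = pr w' 0 (L + 1 + 1) by
        rw [pr_pad]; simp [pr, pc], hθ.2 _ (pad_mem hx _ _ _), e2, Ev_pc x w, pow_succ' _ (L + 1),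
      mul_assoc (X 1), ← pow_one (X 1 : MvPolynomial ℕ F), Ev_X1_l, pow_one, pow_one, Ev_X1_r]
    simp [grp, io, e3, pr_one, w', pad, show pr w' 0 0 = 1 from rfl, pr]
  refine sub_eq_zero.1 (Fk_ind (θ ∘ₗ piQ F x e - piQ F x e ∘ₗ Vop F x e ^ (L + 1 + (L + 1))) ⊥
    (fun _ _ t1 t2 _ _ _ => sub_eq_zero.2 ?_) h)
  obtain ⟨d, rfl⟩ := Nat.exists_eq_add_of_le he
  have := absorb x θ LinearMap.id _ _ base
    (((X 0 - X 1) * (X 2 - X 1)) ^ (L + 2 + d) * X 1 ^ d) (pc t1 t2)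
  rw [← mul_assoc, show ((X 0 - X 1) * (X 2 - X 1)) ^ (L + 2 + d) * X 1 ^ d * X 1 ^ (L + 2) =
    vP F (L + 2 + d) 1 2 by rw [vP, mul_pow _ (X 1)]; ring] at this
  rw [LinearMap.comp_apply, LinearMap.comp_apply, ← Psi_one (F := F) x, ← (pOpV x _).pow,
    piQ_Psi, piQ_Psi, mul_one, mul_one, this]
  rfl

end Pool.Agent.Lib.MP_038c09_al.As
end

-- part Pool.Agent.Lib.MP_038c09_al.AsQ2
section

/-! The second family of operators and the stabiliser argument. -/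

namespace Pool.Agent.Lib.MP_038c09_al.As

open MvPolynomial Finset

variable {F : Type} [Field F] {Λ : Type} [Ring Λ] [Algebra F Λ]

def Mid (x x' : Λ) (L : ℕ) (β : ℕ → ℕ) : Λ := pr (fun j => x * x' ^ β (j + 1)) 0 (L + 1) * x

noncomputable def CC (x x' : Λ) (L : ℕ) : MvPolynomial ℕ F →ₗ[F] Λ :=
  (basisMonomials ℕ F).constr F fun β => if β 0 = 0 ∧ β (L + 2) = 0 then Mid x x' L β else 0

theorem CC_mon (x x' : Λ) (L : ℕ) (β : ℕ →₀ ℕ) : CC (F := F) x x' L (monomial β 1) =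
    if β 0 = 0 ∧ β (L + 2) = 0 then Mid x x' L β else 0 := by
  rw [show (monomial β 1 : MvPolynomial ℕ F) = basisMonomials ℕ F β by simp, CC,
    Module.Basis.constr_basis]

noncomputable def SS' (x x' : Λ) (L : ℕ) : MvPolynomial ℕ F →ₗ[F] (Λ → Λ) →ₗ[F] Λ :=
  (basisMonomials ℕ F).constr F fun β => LinearMap.mulRight F (x' ^ β (L + 2)) ∘ₗ
    LinearMap.mulLeft F (x' ^ β 0) ∘ₗ LinearMap.proj (Mid x x' L β)

theorem SS'_mon (x x' : Λ) (L : ℕ) (β : ℕ →₀ ℕ) (χ : Λ → Λ) :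
    SS' (F := F) x x' L (monomial β 1) χ = x' ^ β 0 * χ (Mid x x' L β) * x' ^ β (L + 2) := by
  rw [show (monomial β 1 : MvPolynomial ℕ F) = basisMonomials ℕ F β by simp, SS',
    Module.Basis.constr_basis]
  rfl

theorem Fk_lmap {k : ℕ} {φ : Λ → Λ} (h : φ ∈ Fk F Λ k) : ∃ f : Λ →ₗ[F] Λ, ∀ z, φ z = f z := by
  have h0 : φ 0 = 0 := by simpa using Fk_lin h 1 0 0
  exact ⟨{ toFun := φ
           map_add' := fun a b => by simpa using Fk_lin h 1 a b
           map_smul' := fun c a => by simpa [h0] using Fk_lin h c a 0 }, fun _ => rfl⟩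

theorem map_pr {A : Type} [CommRing A] [Algebra F A] (lm : Λ →ₐ[F] A) (w : ℕ → Λ) (k : ℕ) :
    lm (pr w 0 k) = ∏ i ∈ range k, lm (w i) := by
  induction k with
  | zero => simp [pr]
  | succ k ih => simp [pr, ih, prod_range_succ]

theorem map_CC {A : Type} [CommRing A] [Algebra F A] (lm : Λ →ₐ[F] A) (x x' : Λ) (e L : ℕ) :
    lm (CC x x' L (Th F e (L + 1))) = lm x ^ (L + 2) * lm x' ^ (3 * e * (L + 1 + (L + 1))) := by
  let g : ℕ → A := fun i => if i = 0 ∨ i = L + 2 then 0 else if i ≤ L + 1 then lm x' else 1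
  have key := mon_ext (f := lm.toLinearMap ∘ₗ CC x x' L)
    (g := LinearMap.mulLeft F (lm x ^ (L + 2)) ∘ₗ (aeval g).toLinearMap) (fun β => by
      simp only [LinearMap.comp_apply, AlgHom.toLinearMap_apply, LinearMap.mulLeft_apply, CC_mon,
        aeval_monomial, map_one, one_mul, Finsupp.prod]
      rw [prod_congr_of_eq_on_inter (s₂ := range (L + 3)) (g := fun i => g i ^ β i)
        (fun a _ h => by
          have : ¬ a < L + 3 := fun h' => h (mem_range.2 h')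
          simp only [g]; rw [if_neg (by omega), if_neg (by omega), one_pow])
        (fun a _ h => by rw [Finsupp.notMem_support_iff.1 h, pow_zero]) fun _ _ _ => rfl,
        prod_range_succ, prod_range_succ', prod_congr rfl (g := fun j => lm x' ^ β (j + 1))
        fun j hj => by
          have := mem_range.1 hj
          simp only [g]; rw [if_neg (by omega), if_pos (by omega)]]
      split_ifs with h
      · simp only [Mid, map_mul, map_pr, map_pow, h.1, h.2, prod_mul_distrib, prod_const,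
          card_range]
        ring
      · rw [not_and_or] at h
        rcases h with h | h <;> simp [g, h]) (Th F e (L + 1))
  refine key.trans ?_
  simp only [LinearMap.comp_apply, AlgHom.toLinearMap_apply, LinearMap.mulLeft_apply]
  congr 1
  refine (map_th (aeval g : MvPolynomial ℕ F →ₐ[F] A).toRingHom _ _ _).trans ?_
  rw [th_congr (y' := fun _ => (lm x' ^ 3) ^ e) _ fun a ha => by
    simp only [vP, g, AlgHom.toRingHom_eq_coe, RingHom.coe_coe, map_pow, map_mul, map_sub, aeval_X]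
    rw [if_pos (by simp), if_neg (by omega), if_pos (by omega), if_pos (by simp)]
    congr 1; ring, th_const, ← pow_mul, ← pow_mul, mul_assoc]

theorem theta_B {ε : Λ →ₐ[F] F} {n : ℕ} (H : Ids ε n) {x : Λ} (hx : ε x = 0) {e L : ℕ}
    (he : n ≤ e) (c : Λ) {θ : Module.End F Λ} (hθ : IsTheta ε (x ^ e * c * x ^ e) e (L + 1) θ)
    {ψ : Λ → Λ} (h : ψ ∈ Fk F Λ 0) : θ (Vop F x e ψ (x ^ (L + 2))) =
      Vop F x e ψ (CC x (x ^ e * c * x ^ e) L (Th F e (L + 1))) := by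
  set x' := x ^ e * c * x ^ e with hx'
  have hV : Vop F x e ψ ∈ Fk F Λ 0 := stV (fun i => op_Fk 0 i x) e _ h
  have h1 := Fk_ind (θ ∘ₗ LinearMap.proj (x ^ (L + 2)) - SS' x x' L (Th F e (L + 1))) ⊥
    (fun _ _ t1 t2 _ _ _ => sub_eq_zero.2 (by
      change θ (t1 * x ^ (L + 2) * t2) = _
      rw [← pr_pad, hθ.2 _ (pad_mem hx _ _ _)]
      exact mon_ext (g := LinearMap.applyₗ (ph t1 t2) ∘ₗ SS' x x' L) (fun β => by
        rw [Ev_mon, one_smul, val_pad]; exact (SS'_mon x x' L β (ph t1 t2)).symm) _)) hV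
  refine (sub_eq_zero.1 h1).trans ?_
  obtain ⟨f, hf⟩ := Fk_lmap hV
  rw [hf]
  refine mon_ext (f := LinearMap.applyₗ (Vop F x e ψ) ∘ₗ SS' x x' L) (g := f ∘ₗ CC x x' L)
    (fun β => ?_) _
  change SS' x x' L _ _ = f (CC x x' L _)
  rw [SS'_mon, CC_mon]
  split_ifs with h0
  · simp [h0.1, h0.2, hf]
  · rw [map_zero f]
    rcases not_and_or.1 h0 with h2 | h2
    · obtain ⟨i, hi⟩ := Nat.exists_eq_succ_of_ne_zero h2
      rw [hi, pow_succ, mul_assoc _ x', hx', mul_assoc _ (x ^ e), (V_kill H hx he h _).1]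
      simp
    · obtain ⟨i, hi⟩ := Nat.exists_eq_succ_of_ne_zero h2
      rw [hi, pow_succ', mul_assoc, ← mul_assoc _ x', hx', mul_assoc (x ^ e),
        ← mul_assoc _ (x ^ e), (V_kill H hx he h _).2]
      simp

namespace Gr

variable {V : Type} [AddCommGroup V] [Module F V] {τ : Type} {G : Gr F V τ}

theorem cl_add {x y : V} (h : x ∈ G.N0) (h' : y ∈ G.N0) :
    G.cl (x + y) (G.N0.add_mem h h') = G.cl x h + G.cl y h' := rfl

/-- the elements of the commutative algebra that keep `K`. -/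
def stab (K : Submodule F V) (l : G.N1 ≤ K) : Subalgebra F G.A where
  carrier := {a | ∀ κ (h : κ ∈ G.N0), κ ∈ K → ∀ χ (h' : χ ∈ G.N0), G.cl χ h' = a • G.cl κ h → χ ∈ K}
  mul_mem' := fun {a b} ha hb κ h hκ χ h' e => by
    obtain ⟨y, hy, e'⟩ := G.cl_surj (b • G.cl κ h)
    exact ha y hy (hb κ h hκ y hy e') χ h' (by rw [e, e', mul_smul])
  add_mem' := fun {a b} ha hb κ h hκ χ h' e => by
    obtain ⟨y, hy, e1⟩ := G.cl_surj (a • G.cl κ h)
    obtain ⟨z, hz, e2⟩ := G.cl_surj (b • G.cl κ h)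
    have := l ((G.cl_eq h' (G.N0.add_mem hy hz)).1 (by rw [cl_add hy hz, e, e1, e2, add_smul]))
    simpa using K.add_mem this (K.add_mem (ha κ h hκ y hy e1) (hb κ h hκ z hz e2))
  algebraMap_mem' := fun c κ h hκ χ h' e => by
    have := l ((G.cl_eq h' (G.N0.smul_mem c h)).1 e)
    simpa using K.add_mem this (K.smul_mem c hκ)

theorem Lifts.stab_iff {θ : Module.End F V} {a : G.A} (h : G.Lifts θ a) {K : Submodule F V}
    (l : G.N1 ≤ K) (l' : K ≤ G.N0) : a ∈ stab K l ↔ St θ K :=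
  ⟨fun ha κ hκ => let ⟨h1, h2⟩ := h κ (l' hκ); ha κ _ hκ _ h1 h2, fun hs κ h0 hκ χ h' e => by
    obtain ⟨h1, h2⟩ := h κ h0
    have := l ((G.cl_eq h' h1).1 (e.trans h2.symm))
    simpa using K.add_mem this (hs κ hκ)⟩

theorem Lifts.comm {θ θ' : Module.End F V} {a a' : G.A} (h : G.Lifts θ a) (h' : G.Lifts θ' a')
    {x : V} (hx : x ∈ G.N0) : θ (θ' x) - θ' (θ x) ∈ G.N1 := by
  have := (h.mul h').sub (h'.mul h)
  rw [mul_comm a a', sub_self] at this
  exact this.mem hx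

end Gr

theorem polar [CharZero F] {A : Type} [CommRing A] [Algebra F A] (S : Subalgebra F A)
    (lm : Λ →ₐ[F] A) {l r w : A} (x : Λ) (hl : l ∈ S) (hr : r ∈ S) {N D : ℕ} (hD : D ≠ 0)
    (h : ∀ c, (lm x ^ N * lm c) ^ D * w ∈ S) (i j : ℕ) (a : Λ) :
    ((l - lm x) * (r - lm x)) ^ i * lm x ^ (N * D + j) * w * lm a ∈ S := by
  have h1 : ∀ a, lm x ^ (N * D) * w * lm a ∈ S := fun a => by
    have := coeff_mem S.toSubmodule (range (D + 1))
      (fun i => lm x ^ (N * D) * w * (lm a ^ i * (D.choose i : A))) (fun s => by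
        rw [Subalgebra.mem_toSubmodule]
        convert h (s • a + 1) using 1
        rw [mul_pow, map_add, map_smul, map_one, add_pow, ← pow_mul, mul_right_comm, mul_sum]
        exact sum_congr rfl fun i _ => by simp [smul_pow]) (D := 1) (mem_range.2 (by omega))
    have h2 := S.smul_mem this (D : F)⁻¹
    have h3 : (D : F) ≠ 0 := Nat.cast_ne_zero.2 hD
    rwa [pow_one, Nat.choose_one_right, ← map_natCast (algebraMap F A), ← mul_assoc, mul_comm,
      ← Algebra.smul_def, smul_smul, inv_mul_cancel₀ h3, one_smul] at h2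
  have h2 : ∀ a, ((l - lm x) * (r - lm x)) ^ i * (lm x ^ (N * D) * w * lm a) ∈ S := by
    induction i with
    | zero => simpa using h1
    | succ i ih =>
      intro a
      convert add_mem (sub_mem (sub_mem (mul_mem (mul_mem hl hr) (ih a)) (mul_mem hl (ih (x * a))))
        (mul_mem hr (ih (x * a)))) (ih (x * x * a)) using 1
      simp only [map_mul]; ring
  convert h2 (x ^ j * a) using 1
  simp only [map_mul, map_pow]; ring

end Pool.Agent.Lib.MP_038c09_al.As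
end

-- part Pool.Agent.Lib.MP_038c09_al.AsLay
section

/-! One cyclic layer of the hidden part. -/

namespace Pool.Agent.Lib.MP_038c09_al.As

open MvPolynomial Finset

variable {F : Type} [Field F] {Λ : Type} [Ring Λ] [Algebra F Λ]

structure Ctx (ε : Λ →ₐ[F] F) (n : ℕ) (x : Λ) (e L : ℕ) (θ : Module.End F Λ)
    (θ' : Λ → Module.End F Λ) : Prop where
  H : Ids ε n
  hx : ε x = 0
  he : L + 2 ≤ e
  hn : n ≤ e
  t0 : IsTheta ε x e (L + 1) θ
  t1 : ∀ c, IsTheta ε (x ^ e * c * x ^ e) e (L + 1) (θ' c)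

def Wop (F : Type) [Field F] [Algebra F Λ] (x : Λ) (e L : ℕ) : Module.End F (Λ → Λ) :=
  Vop F x e ^ (L + 1 + (L + 1))

def Gop (F : Type) [Field F] [Algebra F Λ] (x : Λ) (e L : ℕ) : Module.End F (Λ → Λ) :=
  ((op F 0 x - op F 1 x) * (op F 2 x - op F 1 x)) ^ e * op F 1 x ^ (e - (L + 2)) *
    Vop F x e ^ (L + 1 + L)

theorem op1_pow (x : Λ) (k : ℕ) (φ : Λ → Λ) (z : Λ) : (op F 1 x ^ k) φ z = φ (x ^ k * z) := by
  induction k generalizing z with
  | zero => simp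
  | succ k ih => rw [pow_succ', Module.End.mul_apply, op1, ih, pow_succ, mul_assoc]

theorem Wop_eq (x : Λ) {e L : ℕ} (he : L + 2 ≤ e) :
    Wop F x e L = op F 1 x ^ (L + 2) * Gop F x e L := by
  have hc : Commute (op F 1 x) ((op F 0 x - op F 1 x) * (op F 2 x - op F 1 x)) :=
    ((op_comm_self (F := F) 1 0 x).sub_right (Commute.refl _)).mul_right
      ((op_comm_self (F := F) 1 2 x).sub_right (Commute.refl _))
  rw [Wop, Gop, ← add_assoc, pow_succ', ← mul_assoc, ← mul_assoc, (hc.pow_pow _ _).eq,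
    mul_assoc _ (op F 1 x ^ (L + 2)) (op F 1 x ^ _), ← pow_add, Nat.add_sub_cancel' he, ← hc.symm.mul_pow]
  rfl

theorem stW {x : Λ} {W : Submodule F (Λ → Λ)} (h : ∀ i, St (op F i x) W) (e L : ℕ) :
    St (Wop F x e L) W := (stV h e).pow _

theorem stG {x : Λ} {W : Submodule F (Λ → Λ)} (h : ∀ i, St (op F i x) W) (e L : ℕ) :
    St (Gop F x e L) W :=
  (((((h 0).sub (h 1)).mul ((h 2).sub (h 1))).pow e).mul ((h 1).pow _)).mul ((stV h e).pow _)

theorem V_ph (x : Λ) (e : ℕ) (t1 t2 z : Λ) :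
    Vop F x e (ph t1 t2) z = piQ F x e (ph t1 (z * t2)) := by
  rw [piQ_apply, (pOpV x e).ph, (pOpV x e).ph, one_mul]

def QQ (F : Type) [Field F] [Algebra F Λ] (x : Λ) (e : ℕ) : Submodule F Λ :=
  (Fk F Λ 0).map (piQ F x e)

theorem V_QQ (x : Λ) (e : ℕ) {χ : Λ → Λ} (h : χ ∈ Fk F Λ 0) (z : Λ) :
    Vop F x e χ z ∈ QQ F x e :=
  Fk_ind (LinearMap.proj z ∘ₗ Vop F x e) (QQ F x e)
    (fun _ _ t1 t2 _ _ _ => ⟨_, ph_mem0 t1 (z * t2), (V_ph x e t1 t2 z).symm⟩) h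

theorem piQ_mem (x : Λ) (e : ℕ) {k : ℕ} {χ : Λ → Λ} (h : χ ∈ Fk F Λ k) :
    piQ F x e χ ∈ QQ F x e ⊓ Tf F Λ k :=
  ⟨⟨χ, Fk_anti (Nat.zero_le k) h, rfl⟩, Fk_val (stV (fun i => op_Fk k i x) e _ h) 1⟩

theorem V_val (x : Λ) (e : ℕ) {k : ℕ} {χ : Λ → Λ} (h : χ ∈ Fk F Λ k) (z : Λ) :
    piQ F x e (op F 1 z χ) - Vop F x e χ z ∈ QQ F x e ⊓ Tf F Λ (k + 1) := by
  refine ⟨Submodule.sub_mem _ (piQ_mem x e (op_Fk k 1 z _ h)).1
    (V_QQ x e (Fk_anti (Nat.zero_le k) h) z), ?_⟩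
  have := Fk_val ((liftsV k x e).comm (lifts_lam k 1 z) h) 1
  simpa [piQ_apply] using this

theorem piQ_op0 (x : Λ) (e : ℕ) (ψ : Λ → Λ) : piQ F x e (op F 0 x ψ) = x * piQ F x e ψ := by
  rw [piQ_apply, ← comm_apply (commV 0 x e)]; rfl

theorem piQ_op2 (x : Λ) (e : ℕ) (ψ : Λ → Λ) : piQ F x e (op F 2 x ψ) = piQ F x e ψ * x := by
  rw [piQ_apply, ← comm_apply (commV 2 x e)]; rfl

variable {ε : Λ →ₐ[F] F} {n : ℕ} {x : Λ} {e L : ℕ} {θ : Module.End F Λ}
  {θ' : Λ → Module.End F Λ}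

theorem Ctx.th (C : Ctx ε n x e L θ θ') {ψ : Λ → Λ} (h : ψ ∈ Fk F Λ 0) :
    θ (piQ F x e ψ) = piQ F x e (Wop F x e L ψ) := theta_Q C.hx C.he C.t0 h

theorem Ctx.th' (C : Ctx ε n x e L θ θ') (c : Λ) {ψ : Λ → Λ} (h : ψ ∈ Fk F Λ 0) :
    (θ' c * θ) (piQ F x e ψ) =
      Vop F x e (Gop F x e L ψ) (CC x (x ^ e * c * x ^ e) L (Th F e (L + 1))) := by
  rw [Module.End.mul_apply, C.th h, Wop_eq x C.he, piQ_apply, Module.End.mul_apply,
    ← comm_apply ((commV 1 x e).pow_left _), op1_pow, mul_one]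
  exact theta_B C.H C.hx C.hn c (C.t1 c) (stG (fun i => op_Fk 0 i x) e L _ h)

/-- the stability properties carried along the chain. -/
structure Inv (x : Λ) (θ : Module.End F Λ) (θ' : Λ → Module.End F Λ) (N : Submodule F Λ) :
    Prop where
  s0 : St θ N
  s1 : ∀ c, St (θ' c * θ) N
  sl : ∀ a ∈ N, x * a ∈ N
  sr : ∀ a ∈ N, a * x ∈ N

theorem Inv.sup {N N' : Submodule F Λ} (h : Inv x θ θ' N) (h' : Inv x θ θ' N') :
    Inv x θ θ' (N ⊔ N') :=
  ⟨h.s0.sup h'.s0, fun c => (h.s1 c).sup (h'.s1 c),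
    St.sup (α := LinearMap.mulLeft F x) h.sl h'.sl, St.sup (α := LinearMap.mulRight F x) h.sr h'.sr⟩

theorem Ctx.inv_map (C : Ctx ε n x e L θ θ') {N : Submodule F Λ} (hN : Inv x θ θ' N)
    {W : Submodule F (Λ → Λ)} (l : W ≤ Fk F Λ 0) (hW : ∀ i, St (op F i x) W)
    (hV : ∀ χ ∈ W, ∀ z, Vop F x e χ z ∈ N ⊔ W.map (piQ F x e)) :
    Inv x θ θ' (N ⊔ W.map (piQ F x e)) := by
  have key : ∀ α : Module.End F Λ, St α N → (∀ ψ ∈ W, α (piQ F x e ψ) ∈ N ⊔ W.map (piQ F x e)) →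
      St α (N ⊔ W.map (piQ F x e)) := fun α h1 h2 a ha => by
    obtain ⟨b, hb, _, ⟨ψ, hψ, rfl⟩, rfl⟩ := Submodule.mem_sup.1 ha
    rw [map_add]; exact Submodule.add_mem _ (Submodule.mem_sup_left (h1 b hb)) (h2 ψ hψ)
  exact ⟨key _ hN.s0 fun ψ h => Submodule.mem_sup_right ⟨_, stW hW e L _ h, (C.th (l h)).symm⟩,
    fun c => key _ (hN.s1 c) fun ψ h => C.th' c (l h) ▸ hV _ (stG hW e L _ h) _,
    key (LinearMap.mulLeft F x) hN.sl fun ψ h =>
      Submodule.mem_sup_right ⟨_, hW 0 _ h, piQ_op0 x e ψ⟩,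
    key (LinearMap.mulRight F x) hN.sr fun ψ h =>
      Submodule.mem_sup_right ⟨_, hW 2 _ h, piQ_op2 x e ψ⟩⟩

theorem V_mem {k : ℕ} {N : Submodule F Λ} (hY : QQ F x e ⊓ Tf F Λ (k + 1) ≤ N)
    {W : Submodule F (Λ → Λ)} (l : W ≤ Fk F Λ k) (hW : ∀ a, St (op F 1 a) W) :
    ∀ χ ∈ W, ∀ z, Vop F x e χ z ∈ N ⊔ W.map (piQ F x e) := fun χ h z => by
  simpa using Submodule.sub_mem _ (Submodule.mem_sup_right (S := N) (T := W.map (piQ F x e))
    ⟨_, hW z χ h, rfl⟩)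
    (Submodule.mem_sup_left (hY (V_val x e (l h) z)))

noncomputable def vA (F : Type) [Field F] [Algebra F Λ] (k : ℕ) (x : Λ) (e : ℕ) : (G3 F Λ k).A :=
  ((lam F k 0 x - lam F k 1 x) * (lam F k 2 x - lam F k 1 x) * lam F k 1 x) ^ e

theorem pow_rearr {A : Type} [CommRing A] (u m c : A) {e L : ℕ} (he : L + 2 ≤ e) (D : ℕ) :
    m ^ (L + 2) * (m ^ e * c * m ^ e) ^ D * (u ^ e * m ^ (e - (L + 2)) *
      ((u * m) ^ e) ^ (L + 1 + L)) =
    (m ^ (2 * e) * c) ^ D * ((u * m) ^ e) ^ (L + 1 + (L + 1)) := by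
  obtain ⟨d, rfl⟩ := Nat.exists_eq_add_of_le he
  rw [Nat.add_sub_cancel_left, ← add_assoc (L + 1), pow_succ ((u * m) ^ _), two_mul,
    pow_add m (L + 2 + d) (L + 2 + d), mul_right_comm _ _ c]
  generalize ((u * m) ^ (L + 2 + d)) ^ (L + 1 + L) = v
  generalize (_ * c * _) ^ D = v'
  rw [mul_pow u m, pow_add m]; ring

theorem Ctx.step [CharZero F] (C : Ctx ε n x e L θ θ') {σ : Type} [Finite σ] {xs : σ → Λ}
    (hG : Gen ε xs) {k : ℕ} (hint : ∀ j ∉ ({1} : Set (Fin 3)), ∀ s,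
      ∃ p : Polynomial (A0 F k xs {1}), p.Monic ∧
      vA F k x e * Polynomial.aeval (lam F k j (xs s)) p = 0) {N : Submodule F Λ}
    (hY : QQ F x e ⊓ Tf F Λ (k + 1) ≤ N) (hN : Inv x θ θ' N) {φ : Λ → Λ} (h : φ ∈ Fk F Λ k) :
    KK θ (N ⊔ (Cyc k φ h).map (piQ F x e)) N := by
  set K := Cyc k φ h ⊓ N.comap (piQ F x e)
  have l0 := Cyc_le k φ h
  have l00 : Cyc k φ h ≤ Fk F Λ 0 := l0.trans (Fk_anti (Nat.zero_le k))
  have lK : Fk F Λ (k + 1) ≤ K := fun ψ hψ => ⟨le_Cyc k φ h hψ, hY (piQ_mem x e hψ)⟩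
  have lK' : K ≤ Fk F Λ k := inf_le_left.trans l0
  have sC : ∀ i a, St (op F i a) (Cyc k φ h) := fun i a _ => op_Cyc i a
  have lW : (G3 F Λ k).Lifts (Wop F x e L) (vA F k x e ^ (L + 1 + (L + 1))) :=
    (liftsV k x e).pow _
  have sW : St (Wop F x e L) K := fun ψ hψ => ⟨stW (sC · x) e L _ hψ.1, by
    change piQ F x e _ ∈ N
    rw [← C.th (l00 hψ.1)]; exact hN.s0 _ hψ.2⟩
  refine KK.map (piQ F x e) (C1 := K) (stW (sC · x) e L) hN.s0 (fun ψ hψ => C.th (l00 hψ))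
    (fun ψ hψ => ⟨fun h => ⟨hψ, h⟩, fun h => h.2⟩) ?_
  set S := Gr.stab (G := G3 F Λ k) K lK
  have hl : lam F k 0 x ∈ S := ((lifts_lam k 0 x).stab_iff lK lK').2 fun ψ hψ =>
    ⟨sC _ _ _ hψ.1, by change piQ F x e _ ∈ N; rw [piQ_op0]; exact hN.sl _ hψ.2⟩
  have hr : lam F k 2 x ∈ S := ((lifts_lam k 2 x).stab_iff lK lK').2 fun ψ hψ =>
    ⟨sC _ _ _ hψ.1, by change piQ F x e _ ∈ N; rw [piQ_op2]; exact hN.sr _ hψ.2⟩
  have hE : ∀ c, (lam F k 1 x ^ (2 * e) * lam F k 1 c) ^ (3 * e * (L + 1 + (L + 1))) *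
      vA F k x e ^ (L + 1 + (L + 1)) ∈ S := fun c => by
    have lG : (G3 F Λ k).Lifts (Gop F x e L) _ := ((((((lifts_lam k 0 x).sub (lifts_lam k 1 x)).mul
      ((lifts_lam k 2 x).sub (lifts_lam k 1 x))).pow e).mul ((lifts_lam k 1 x).pow _)).mul
      ((liftsV k x e).pow _))
    have := (((lifts_lam k 1 (CC x (x ^ e * c * x ^ e) L (Th F e (L + 1)))).mul lG).stab_iff
      lK lK').2 fun ψ hψ => by
      have h1 := stG (sC · x) e L _ hψ.1
      rw [Module.End.mul_apply]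
      refine ⟨sC _ _ _ h1, ?_⟩
      have h2 := N.add_mem (hY (V_val x e (l0 h1) (CC x (x ^ e * c * x ^ e) L (Th F e (L + 1)))))
        (C.th' c (l00 hψ.1) ▸ hN.s1 c _ hψ.2)
      rwa [sub_add_cancel] at h2
    rw [map_CC, map_mul, map_mul, map_pow, pow_rearr _ _ _ C.he] at this
    exact this
  have he0 : e ≠ 0 := by have := C.he; omega
  set D := 3 * e * (L + 1 + (L + 1))
  have hP := polar S (lam F k 1) x hl hr (D := D) (by positivity) hE
  let SK : Submodule F (Λ → Λ) := Submodule.span F {ψ | ∃ a, ∃ κ ∈ K, ψ = op F 1 a κ}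
  have lS : K ≤ SK := fun κ hκ => Submodule.subset_span ⟨1, κ, hκ, by ext; simp⟩
  have lS' : SK ≤ Cyc k φ h := Submodule.span_le.2 (by
    rintro _ ⟨a, κ, hκ, rfl⟩; exact sC _ _ _ hκ.1)
  refine KK.trans lS sW ?_ (KK.of_kill (Polynomial.X ^ (2 * D + 1))
    (pow_ne_zero _ Polynomial.X_ne_zero) fun ψ hψ => span_ind _ K ?_ hψ)
  · let τ : Option σ → Module.End F (Λ → Λ) := fun o => o.elim (Wop F x e L) fun s => op F 1 (xs s)
    have lτ : ∀ o, ∃ a, (G3 F Λ k).Lifts (τ o) a := fun o => by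
      cases o
      exacts [⟨_, lW⟩, ⟨_, lifts_lam k 1 _⟩]
    let G : Gr F (Λ → Λ) (Option σ) :=
      { N0 := Cyc k φ h, N1 := SK, θ := τ, le := lS'
        h0 := fun o ψ hψ => lifts_Cyc (lτ o).choose_spec hψ
        h1 := fun o ψ hψ => span_ind (τ o) SK (by
          rintro _ ⟨a, κ, hκ, rfl⟩
          cases o with
          | none =>
            have := SK.add_mem (lS (lK (lW.comm (lifts_lam k 1 a) (lK' hκ))))
              (Submodule.subset_span ⟨a, _, sW κ hκ, rfl⟩)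
            rwa [sub_add_cancel] at this
          | some s => exact Submodule.subset_span ⟨a * xs s, κ, hκ, by
              ext; simp [τ, mul_assoc]⟩) hψ
        hc := fun o o' ψ hψ => lS (lK ((lτ o).choose_spec.comm (lτ o').choose_spec (l0 hψ))) }
    refine KK.of_fg (G := G) ?_ none
    obtain ⟨T, h1, h2, h3⟩ := cyc_fg hG k φ h (liftsV k x e) {1} hint
    exact ⟨T, h1, h2, fun W w1 w2 w3 => h3 W w2 (fun ψ hψ hV => w1 (lS ⟨hψ, hY
      ⟨⟨ψ, l00 hψ, rfl⟩, Fk_val hV 1⟩⟩)) fun i hi s ψ hψ => by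
      obtain rfl : i = 1 := hi
      exact w3 (some s) ψ hψ.1⟩
  · rintro _ ⟨a, κ, hκ, rfl⟩
    rw [map_pow, Polynomial.aeval_X]
    refine (((lW.pow (2 * D + 1)).mul (lifts_lam k 1 a)).stab_iff lK lK').1 ?_ κ hκ
    convert hP (e * ((L + 1 + (L + 1)) * (2 * D))) (e * ((2 * L + 1) * (2 * D))) a using 2
    rw [pow_succ, ← pow_mul]
    congr 1
    rw [vA, ← pow_mul, mul_pow]
    congr 2; ring

end Pool.Agent.Lib.MP_038c09_al.As
end

-- part Pool.Agent.Lib.MP_038c09_al.AsHid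
section

/-! The hidden part has bounded torsion and no divisible elements. -/

namespace Pool.Agent.Lib.MP_038c09_al.As

open MvPolynomial Finset

variable {F : Type} [Field F] {Λ : Type} [Ring Λ] [Algebra F Λ]

structure Fil (Φ : ℕ → Submodule F Λ) : Prop where
  id : ∀ k, IsId (Φ k)
  mul : ∀ {i j a b}, a ∈ Φ i → b ∈ Φ j → a * b ∈ Φ (i + j)
  zero : ∀ a, a ∈ Φ 0
  anti : Antitone Φ

theorem fil_Tf : Fil (Tf F Λ) := ⟨isId_Tf, Tf_mul, fun _ => trivial, Tf_anti⟩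

def FI (I : Submodule F Λ) (k : ℕ) : Submodule F Λ := if k = 0 then ⊤ else I

theorem fil_FI {I : Submodule F Λ} (h : IsId I) : Fil (FI I) where
  id := fun k => by unfold FI; split_ifs; exacts [isId_top, h]
  mul := fun {i j a b} ha hb => by
    unfold FI at *
    by_cases hi : i = 0
    · subst hi; rw [zero_add]; split_ifs at hb ⊢; exacts [trivial, (h _ _ hb).1]
    · rw [if_neg hi] at ha; rw [if_neg (by omega)]; exact (h _ _ ha).2
  zero := fun _ => trivial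
  anti := fun i j hij => by
    unfold FI; split_ifs
    exacts [le_rfl, by omega, le_top, le_rfl]

def FP (Φ : ℕ → Submodule F Λ) (k : ℕ) : Submodule F (Λ → Λ) :=
  Submodule.span F {φ | ∃ a b t1 t2, k ≤ a + b ∧ t1 ∈ Φ a ∧ t2 ∈ Φ b ∧ φ = ph t1 t2}

variable {Φ : ℕ → Submodule F Λ}

theorem FP_le (k : ℕ) : FP Φ k ≤ Fk F Λ 0 :=
  Submodule.span_le.2 (by rintro _ ⟨_, _, t1, t2, -, -, -, rfl⟩; exact ph_mem0 t1 t2)

theorem op_FP (h : Fil Φ) (k : ℕ) (i : Fin 3) (a : Λ) : St (op F i a) (FP Φ k) :=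
  fun _ hφ => span_ind _ _ (by
    rintro _ ⟨c, d, t1, t2, h1, h2, h3, rfl⟩
    fin_cases i
    · exact Submodule.subset_span ⟨c, d, _, _, h1, (h.id _ _ _ h2).1, h3, op0_ph a t1 t2⟩
    · exact Submodule.subset_span ⟨c, d, _, _, h1, (h.id _ _ _ h2).2, h3, op1_ph a t1 t2⟩
    · exact Submodule.subset_span ⟨c, d, _, _, h1, h2, (h.id _ _ _ h3).2, op2_ph a t1 t2⟩) hφ

theorem FP_val (h : Fil Φ) {k : ℕ} {φ : Λ → Λ} (hφ : φ ∈ FP Φ k) (z : Λ) : φ z ∈ Φ k :=
  span_ind (LinearMap.proj z) _ (by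
    rintro _ ⟨c, d, t1, t2, h1, h2, h3, rfl⟩
    exact h.anti h1 (h.mul (h.id _ _ _ h2).2 h3)) hφ

theorem V_FP (h : Fil Φ) (x : Λ) (e : ℕ) {k : ℕ} {χ : Λ → Λ} (hχ : χ ∈ FP Φ k) (z : Λ) :
    Vop F x e χ z ∈ (FP Φ k).map (piQ F x e) :=
  span_ind (LinearMap.proj z ∘ₗ Vop F x e) ((FP Φ k).map (piQ F x e)) (by
    rintro _ ⟨c, d, t1, t2, h1, h2, h3, rfl⟩
    exact ⟨_, Submodule.subset_span ⟨c, d, _, _, h1, h2, (h.id _ z _ h3).1, rfl⟩,
      (V_ph x e t1 t2 z).symm⟩) hχ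

theorem pr_fil (h : Fil Φ) {w : ℕ → Λ} {d : ℕ → ℕ} (hw : ∀ i, w i ∈ Φ (d i)) (c k : ℕ) :
    pr w c k ∈ Φ (∑ i ∈ range k, d (c + i)) := by
  induction k with
  | zero => exact h.zero _
  | succ k ih => rw [sum_range_succ]; exact h.mul ih (hw _)

theorem Th_mem (h : Fil Φ) (x : Λ) (e L k : ℕ) (d : ℕ → ℕ) (hd : k ≤ ∑ i ∈ range (L + 1), d i)
    (w : ℕ → Λ) (hw : ∀ i, w i ∈ Φ (d i)) :
    Ev x w (L + 1) (Th F e L) ∈ (FP Φ k).map (piQ F x e) := by
  let J : Ideal (MvPolynomial ℕ F) :=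
    { carrier := {p | ∀ w : ℕ → Λ, (∀ i, w i ∈ Φ (d i)) →
        Ev x w (L + 1) p ∈ (FP Φ k).map (piQ F x e)}
      add_mem' := fun h1 h2 w hw => by rw [map_add]; exact add_mem (h1 w hw) (h2 w hw)
      zero_mem' := fun w _ => by rw [map_zero]; exact zero_mem _
      smul_mem' := fun g p hp => Ev_mul_mem x (L + 1) _ (by
        rintro _ ⟨ψ, hψ, rfl⟩; exact ⟨_, op_FP h k 0 x _ hψ, piQ_op0 x e ψ⟩)
        (fun w => ∀ i, w i ∈ Φ (d i)) (fun w i hw j => by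
          by_cases hj : j = i
          · subst hj; simpa using (h.id _ x _ (hw j)).2
          · rw [Function.update_of_ne hj]; exact hw j) p hp g }
  refine th_mem _ J L (fun a ha w hw => ?_) L w hw
  have hι := io_mono (fun j => if j = 0 then 0 else a + 1) 2 (L + 1)
    (fun j hj => by obtain rfl : j = 0 := by omega
                    simp) fun j _ => by split_ifs <;> omega
  have := Ev_rename x w hι (b := 2) (D := L + 1) (by simp [io]) (by simp [io]) (vP F e 1 2)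
  rw [show rename _ (vP F e 1 2) = vP F e (a + 1) (L + 1) by simp [vP, io], Ev_pc x (grp _ _),
    ← mul_one (vP F e 1 2), ← piQ_Psi, Psi_one] at this
  simp only [io, grp, show (0 : ℕ) < 2 by omega, show (1 : ℕ) < 2 by omega, if_true, zero_add,
    lt_irrefl, if_false, one_ne_zero, Nat.sub_self, show ∀ c, pr w c 0 = 1 from fun _ => rfl, one_mul, mul_one, add_zero, Nat.sub_zero,
    Nat.reduceAdd] at this
  refine ⟨_, Submodule.subset_span ⟨_, _, _, _, ?_, pr_fil h hw 0 (a + 1),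
    pr_fil h hw (a + 1) (L + 1 - (a + 1)), rfl⟩, this.symm⟩
  rw [show L + 1 = a + 1 + (L + 1 - (a + 1)) by omega, sum_range_add] at hd
  simpa using hd

theorem list_fil (h : Fil Φ) {τ : Type} {lv : τ → Λ} {dg : τ → ℕ} (h1 : ∀ t, lv t ∈ Φ (dg t))
    (l : List τ) : (l.map lv).prod ∈ Φ (l.map dg).sum := by
  induction l with
  | nil => exact h.zero _
  | cons t l ih => exact h.mul (h1 t) ih

theorem split_list (h : Fil Φ) {B : Submodule F Λ} (hB : IsId B) {τ : Type} {lv : τ → Λ}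
    {dg : τ → ℕ} (h1 : ∀ t, lv t ∈ Φ (dg t)) (h2 : ∀ t, lv t ∈ B) (L : ℕ) (l : List τ)
    (hl : L + 1 ≤ l.length) : ∃ (w : ℕ → Λ) (d : ℕ → ℕ), (∀ i, w i ∈ B) ∧ (∀ i, w i ∈ Φ (d i)) ∧
      pr w 0 (L + 1) = (l.map lv).prod ∧ ∑ i ∈ range (L + 1), d i = (l.map dg).sum := by
  induction L generalizing l with
  | zero =>
    obtain _ | ⟨t, l⟩ := l
    · simp at hl
    · exact ⟨fun _ => ((t :: l).map lv).prod, fun _ => ((t :: l).map dg).sum,
        fun _ => (hB _ _ (h2 t)).2, fun _ => list_fil h h1 _, by simp [pr], by simp⟩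
  | succ L ih =>
    obtain _ | ⟨t, l⟩ := l
    · simp at hl
    obtain ⟨w, d, a1, a2, a3, a4⟩ := ih l (by simpa using hl)
    refine ⟨fun i => Nat.casesOn i (lv t) w, fun i => Nat.casesOn i (dg t) d, fun i => ?_,
      fun i => ?_, ?_, ?_⟩
    · cases i; exacts [h2 t, a1 _]
    · cases i; exacts [h1 t, a2 _]
    · rw [add_comm (L + 1), pr_add, pr_one, List.map_cons, List.prod_cons, ← a3]
      congr 1
      exact pr_congr _ fun i _ => by rw [zero_add, zero_add, add_comm]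
    · rw [sum_range_succ', List.map_cons, List.sum_cons, ← a4, add_comm]; rfl

theorem theta_words (h : Fil Φ) {ε : Λ →ₐ[F] F} {x : Λ} {e L : ℕ} {θ : Module.End F Λ}
    (hθ : IsTheta ε x e L θ) {τ : Type} [Finite τ] {lv : τ → Λ} {dg : τ → ℕ}
    (h1 : ∀ t, lv t ∈ Φ (dg t)) (h2 : ∀ t, lv t ∈ Bk ε) (k : ℕ) : ∃ W : Submodule F Λ, W.FG ∧
      ∀ a ∈ Submodule.span F {v | ∃ l : List τ, k ≤ (l.map dg).sum ∧ v = (l.map lv).prod},
      θ a ∈ (FP Φ k).map (piQ F x e) ⊔ W := by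
  refine ⟨_, Submodule.fg_span ((List.finite_length_le τ L).image fun l => θ (l.map lv).prod),
    fun a ha => span_ind θ _ ?_ ha⟩
  rintro _ ⟨l, hl, rfl⟩
  by_cases hL : l.length ≤ L
  · exact Submodule.mem_sup_right (Submodule.subset_span ⟨l, hL, rfl⟩)
  · obtain ⟨w, d, a1, a2, a3, a4⟩ := split_list h (isId_Bk ε) h1 h2 L l (by omega)
    rw [← a3, hθ.2 w a1]
    exact Submodule.mem_sup_left (Th_mem h x e L k d (a4 ▸ hl) w a2)

theorem theta_Tf {ε : Λ →ₐ[F] F} {σ : Type} [Finite σ] {xs : σ → Λ} (hG : Gen ε xs) {x : Λ}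
    {e L : ℕ} {θ : Module.End F Λ} (hθ : IsTheta ε x e L θ) (k : ℕ) : ∃ W : Submodule F Λ, W.FG ∧
      ∀ a ∈ Tf F Λ k, θ a ∈ (Fk F Λ k).map (piQ F x e) ⊔ W := by
  obtain ⟨W, h1, h2⟩ := theta_words fil_Tf hθ (lv := lval xs)
    (dg := fun t => if t.isRight then 1 else 0) (by
      rintro (s | p)
      exacts [trivial, cT_le_Tf1 (comm_mem_cT _ _)]) (by
      rintro (s | p) <;> simp [lval, mem_Bk, hG.h0]) k
  refine ⟨W, h1, fun a ha => h2 a (Submodule.span_mono ?_ (Tf_le_Fw hG k ha))⟩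
  rintro _ ⟨l, hl, rfl⟩
  refine ⟨l, hl.trans (le_of_eq ?_), rfl⟩
  clear hl
  induction l with
  | nil => rfl
  | cons t l ih => cases t <;> simp_all [tdeg, add_comm]

theorem theta_I {ε : Λ →ₐ[F] F} {σ : Type} [Finite σ] {xs : σ → Λ} (hG : Gen ε xs) {x : Λ}
    {e L : ℕ} {θ : Module.End F Λ} (hθ : IsTheta ε x e L θ) {R : Set Λ} (hR : R.Finite)
    (hB : R ⊆ Bk ε) : ∃ W : Submodule F Λ, W.FG ∧
      ∀ a ∈ biSpan F R, θ a ∈ (FP (FI (biSpan F R)) 1).map (piQ F x e) ⊔ W := by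
  have := hR.to_subtype
  obtain ⟨W, h1, h2⟩ := theta_words (fil_FI (isId_biSpan R)) hθ (τ := σ ⊕ R)
    (lv := Sum.elim xs Subtype.val) (dg := Sum.elim (fun _ => 0) fun _ => 1) (by
      rintro (s | p)
      exacts [trivial, subset_biSpan p.2]) (by
      rintro (s | p)
      exacts [hG.h0 s, hB p.2]) 1
  refine ⟨W, h1, fun a ha => h2 a (biSpan_ind LinearMap.id _ (fun p q u hu => ?_) ha)⟩
  refine span_ind (LinearMap.mulRight F q ∘ₗ LinearMap.mulRight F u) _ ?_ (hG.words p)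
  rintro _ ⟨l, rfl⟩
  refine span_ind (LinearMap.mulLeft F ((l.map xs).prod * u)) _ ?_ (hG.words q)
  rintro _ ⟨l', rfl⟩
  exact Submodule.subset_span ⟨l.map .inl ++ .inr ⟨u, hu⟩ :: l'.map .inl, by simp, by simp⟩

theorem KK.of_almost {V : Type} [AddCommGroup V] [Module F V] {θ : Module.End F V}
    {N0 N1 U : Submodule F V} (a1 : St θ N1) (a0 : St θ N0) (hU : U.FG) (j : ℕ)
    (h : ∀ a ∈ N0, (θ ^ j) a ∈ N1 ⊔ U) : KK θ N0 N1 := by
  have a2 : St θ (N0.map (θ ^ j)) := by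
    rintro _ ⟨c, hc, rfl⟩
    exact ⟨θ c, a0 c hc, comm_apply ((Commute.refl θ).pow_left j) c⟩
  refine KK.trans (N1 := N1 ⊔ N0.map (θ ^ j)) le_sup_left a1
    (KK.of_kill (Polynomial.X ^ j) (pow_ne_zero _ Polynomial.X_ne_zero) fun a ha => ?_)
    (KK.of_fd le_sup_left (a1.sup a2) a1 hU (sup_le le_sup_left ?_))
  · rw [map_pow, Polynomial.aeval_X]; exact Submodule.mem_sup_right ⟨a, ha, rfl⟩
  · rintro _ ⟨c, hc, rfl⟩; exact h c hc

variable {ε : Λ →ₐ[F] F} {n : ℕ} {x : Λ} {e L : ℕ} {θ : Module.End F Λ}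
  {θ' : Λ → Module.End F Λ}

def Hint (F : Type) [Field F] [Algebra F Λ] {σ : Type} (xs : σ → Λ) (x : Λ) (e k : ℕ) : Prop :=
  ∀ j ∉ ({1} : Set (Fin 3)), ∀ s, ∃ p : Polynomial (A0 F k xs {1}), p.Monic ∧
    vA F k x e * Polynomial.aeval (lam F k j (xs s)) p = 0

theorem Ctx.chain [CharZero F] (C : Ctx ε n x e L θ θ') {σ : Type} [Finite σ] {xs : σ → Λ}
    (hG : Gen ε xs) {k : ℕ} (hint : Hint F xs x e k) {N : Submodule F Λ}
    (hY : QQ F x e ⊓ Tf F Λ (k + 1) ≤ N) (hN : Inv x θ θ' N) {S : Set (Λ → Λ)} (hS : S.Finite)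
    (hS' : S ⊆ Fk F Λ k) : ∃ W : Submodule F (Λ → Λ), (∀ i a, St (op F i a) W) ∧
      Fk F Λ (k + 1) ≤ W ∧ W ≤ Fk F Λ k ∧ S ⊆ W ∧ KK θ (N ⊔ W.map (piQ F x e)) N := by
  induction S, hS using Set.Finite.induction_on with
  | empty =>
    refine ⟨_, op_Fk (k + 1), le_rfl, Fk_anti (Nat.le_succ k), Set.empty_subset _,
      KK.of_kill 1 one_ne_zero fun a ha => ?_⟩
    rw [map_one]
    exact (sup_le le_rfl (by rintro _ ⟨ψ, h, rfl⟩; exact hY (piQ_mem x e h)) : _ ≤ N) ha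
  | @insert φ S _ _ ih =>
    obtain ⟨W, h1, h2, h3, h4, h5⟩ := ih ((Set.subset_insert _ _).trans hS')
    have hφ := hS' (Set.mem_insert φ S)
    have h6 := C.inv_map hN (h3.trans (Fk_anti (Nat.zero_le k))) (h1 · x) (V_mem hY h3 (h1 1))
    refine ⟨W ⊔ Cyc k φ hφ, fun i a => (h1 i a).sup fun _ => op_Cyc i a, h2.trans le_sup_left,
      sup_le h3 (Cyc_le _ _ _), Set.insert_subset (Submodule.mem_sup_right (self_Cyc _ _ _))
      fun _ h => Submodule.mem_sup_left (h4 h), ?_⟩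
    rw [Submodule.map_sup, ← sup_assoc]
    exact KK.trans le_sup_left hN.s0 (C.step hG hint (hY.trans le_sup_left) h6 hφ) h5

theorem Ctx.th_pow (C : Ctx ε n x e L θ θ') (j : ℕ) {ψ : Λ → Λ} (h : ψ ∈ Fk F Λ 0) :
    (θ ^ j) (piQ F x e ψ) = piQ F x e ((Wop F x e L ^ j) ψ) := by
  induction j with
  | zero => rfl
  | succ j ih =>
    rw [pow_succ', pow_succ', Module.End.mul_apply, ih,
      C.th ((stW (fun i => op_Fk 0 i x) e L).pow j _ h)]; rfl

theorem Ctx.th_aeval (C : Ctx ε n x e L θ θ') (p : Polynomial F) {ψ : Λ → Λ} (h : ψ ∈ Fk F Λ 0) :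
    Polynomial.aeval θ p (piQ F x e ψ) = piQ F x e (Polynomial.aeval (Wop F x e L) p ψ) := by
  induction p using Polynomial.induction_on' with
  | add p q hp hq => simp [hp, hq]
  | monomial i c =>
    simp only [Polynomial.aeval_monomial, ← Algebra.smul_def, LinearMap.smul_apply, map_smul,
      C.th_pow i h]

theorem Ctx.inv_Y (C : Ctx ε n x e L θ θ') (k : ℕ) : Inv x θ θ' (QQ F x e ⊓ Tf F Λ k) := by
  have := C.inv_map (N := ⊥) ⟨fun a h => by simp_all, fun c a h => by simp_all,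
    fun a h => by simp_all, fun a h => by simp_all⟩ le_rfl (fun i => op_Fk 0 i x)
    fun χ h z => Submodule.mem_sup_right (V_QQ x e h z)
  rw [bot_sup_eq] at this
  exact ⟨fun a h => ⟨this.s0 a h.1, C.t0.1 k a h.2⟩,
    fun c a h => ⟨this.s1 c a h.1, (C.t1 c).1 k _ (C.t0.1 k a h.2)⟩,
    fun a h => ⟨this.sl a h.1, (isId_Tf k _ _ h.2).1⟩,
    fun a h => ⟨this.sr a h.1, (isId_Tf k _ _ h.2).2⟩⟩

def phL (F : Type) [Field F] [Algebra F Λ] (t2 : Λ) : Λ →ₗ[F] (Λ → Λ) where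
  toFun := fun s => ph s t2
  map_add' := fun a b => by ext; simp [ph, add_mul]
  map_smul' := fun c a => by ext; simp [ph]

theorem Ctx.layer [CharZero F] (C : Ctx ε n x e L θ θ') {σ : Type} [Finite σ] {xs : σ → Λ}
    (hG : Gen ε xs) {k : ℕ} (hint : Hint F xs x e k) {N : Submodule F Λ} (hN : Inv x θ θ' N) :
    KK θ (QQ F x e ⊓ Tf F Λ k ⊔ N) (QQ F x e ⊓ Tf F Λ (k + 1) ⊔ N) := by
  choose M1 U a1 a2 a3 using FGR C.H hG C.hx
  choose M2 U' b1 b2 b3 using FGL C.H hG C.hx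
  set M := (range (k + 1)).sup (M1 + M2)
  have hM : ∀ a ≤ k, M1 a + M2 a ≤ M := fun a ha =>
    le_sup (f := M1 + M2) (mem_range.2 (Nat.lt_succ_of_le ha))
  have i1 := (C.inv_Y (k + 1)).sup hN
  obtain ⟨W, h1, h2, h3, h4, h5⟩ := C.chain hG hint le_sup_left i1
    (S := ⋃ a ∈ range (k + 1), Set.image2 ph (U a) (U' (k - a)))
    ((range (k + 1)).finite_toSet.biUnion fun a _ => (a1 a).image2 _ (b1 _))
    (Set.iUnion₂_subset fun a _ => Set.image2_subset_iff.2 fun u hu u' hu' =>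
      ph_mem (by omega) (a2 a hu) (b2 _ hu'))
  have hV := V_mem (x := x) (e := e) (N := QQ F x e ⊓ Tf F Λ (k + 1) ⊔ N) le_sup_left h3 (h1 1)
  have i2 := C.inv_map i1 (h3.trans (Fk_anti (Nat.zero_le k))) (h1 · x) hV
  obtain ⟨U0, c1, c2⟩ := theta_Tf hG C.t0 k
  have key : ∀ ψ ∈ Fk F Λ k, piQ F x e ((Wop F x e L ^ (2 * M)) ψ) ∈
      QQ F x e ⊓ Tf F Λ (k + 1) ⊔ N ⊔ W.map (piQ F x e) := fun ψ hψ => by
    refine Fk_ind (piQ F x e ∘ₗ Wop F x e L ^ (2 * M)) _ (fun a0 b0 t1 t2 hk ht1 ht2 => ?_) hψ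
    set a := min a0 k
    have ha : a ≤ k := min_le_right _ _
    replace ht1 : t1 ∈ Tf F Λ a := Tf_anti (min_le_left _ _) ht1
    replace ht2 : t2 ∈ Tf F Λ (k - a) := Tf_anti (by omega) ht2
    obtain ⟨g, hg⟩ : (X 1 : MvPolynomial ℕ F) ^ (2 * M) ∣
        (vP F e 1 2 ^ (L + 1 + (L + 1))) ^ (2 * M) := pow_dvd_pow_of_dvd (dvd_pow
          (dvd_pow (Dvd.intro_left _ rfl) (by have := C.he; omega)) (by omega)) _
    rw [LinearMap.comp_apply, ← Psi_one (F := F) x, Wop, ← ((pOpV x e).pow _).pow, piQ_Psi, mul_one,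
      hg, two_mul, pow_add, mul_left_comm, mul_assoc, Ev_X1_l, Ev_X1_r]
    have s1 := a3 a M (by have := hM a ha; omega) t1 ht1
    have s1' := (isId_Tf a (x ^ M) _ ht1).2
    obtain ⟨s2, hs2, s3, hs3, e2⟩ := Submodule.mem_sup.1
      (b3 (k - a) M (by have := hM (k - a) (by omega); omega) t2 ht2)
    generalize t1 * x ^ M = s at s1 s1'
    obtain ⟨f, hf⟩ := Fk_lmap (Psi_mem (fun i => op_Fk 0 i x) (ph_mem0 s 1) (vP F e 1 2 * g))
    simp only [Psi_apply, mul_one] at hf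
    rw [← e2, hf, map_add]
    refine add_mem (biSpan_ind f _ (fun p q u hu => ?_) hs2) ?_
    · rw [← hf, mul_assoc, ← Psi_apply, pOpV]
      refine hV _ (Psi_mem (h1 · x) ?_ g) p
      obtain ⟨s4, hs4, s5, hs5, rfl⟩ := Submodule.mem_sup.1 s1
      change phL F (u * q) (s4 + s5) ∈ W
      rw [map_add]
      refine W.add_mem (biSpan_ind (phL F (u * q)) W
        (fun p' q' u' hu' => ?_) hs4) (h2 (ph_mem (by omega) hs5 (isId_Tf _ q _ (b2 _ hu)).2))
      have := h1 0 p' _ (h1 1 q' _ (h1 2 q _ (h4 (Set.mem_biUnion (mem_range.2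
        (Nat.lt_succ_of_le ha)) (Set.mem_image2_of_mem hu' hu)))))
      rwa [op2_ph, op1_ph, op0_ph, ← mul_assoc] at this
    · rw [← hf, ← piQ_Psi]
      exact Submodule.mem_sup_right ⟨_, Psi_mem (h1 · x) (h2 (ph_mem (by omega) s1' hs3)) g, rfl⟩
  refine KK.trans le_sup_left i1.s0 (KK.of_almost i2.s0 ((C.inv_Y k).sup hN).s0
    (c1.map (θ ^ (2 * M))) (2 * M + 1) fun a ha => ?_) h5
  obtain ⟨b, hb, c, hc, rfl⟩ := Submodule.mem_sup.1 ha
  obtain ⟨_, ⟨ψ, hψ, rfl⟩, u, hu, e1⟩ := Submodule.mem_sup.1 (c2 b hb.2)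
  rw [map_add, pow_succ, Module.End.mul_apply, ← e1, map_add, C.th_pow _ (Fk_anti (by omega) hψ)]
  exact add_mem (Submodule.add_mem_sup (key ψ hψ) ⟨u, hu, rfl⟩) (Submodule.mem_sup_left
    (Submodule.mem_sup_left (Submodule.mem_sup_right ((hN.s0.pow _).mul hN.s0 c hc))))

theorem Ctx.closed [CharZero F] (C : Ctx ε n x e L θ θ') {σ : Type} [Finite σ] {xs : σ → Λ}
    (hG : Gen ε xs) {K : ℕ} (hK : Tf F Λ K = ⊥) (hint : ∀ k < K, Hint F xs x e k) {R : Set Λ}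
    (hR : R.Finite) (hB : R ⊆ Bk ε) {f : Λ} (hf : ∀ p : Polynomial F, p ≠ 0 → f ∈
      (Fk F Λ 0).map (piQ F x e ∘ₗ Polynomial.aeval (Wop F x e L) p) ⊔ biSpan F R) :
    f ∈ biSpan F R := by
  have hI := fil_FI (isId_biSpan (F := F) R)
  have i0 := C.inv_map (N := ⊥) ⟨fun a h => by simp_all, fun c a h => by simp_all,
    fun a h => by simp_all, fun a h => by simp_all⟩ (FP_le 1) (fun i => op_FP hI 1 i x)
    fun χ h z => Submodule.mem_sup_right (V_FP hI x e h z)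
  rw [bot_sup_eq] at i0
  set N := (FP (FI (biSpan F R)) 1).map (piQ F x e)
  have key : ∀ k ≤ K, KK θ (QQ F x e ⊓ Tf F Λ 0 ⊔ N) (QQ F x e ⊓ Tf F Λ k ⊔ N) := fun k hk => by
    induction k with
    | zero => exact KK.of_kill 1 one_ne_zero fun a ha => by rwa [map_one]
    | succ k ih =>
      exact KK.trans (sup_le_sup_right (inf_le_inf_left _ (Tf_succ_le k)) _)
        ((C.inv_Y _).sup i0).s0 (ih (by omega)) (C.layer hG (hint k hk) i0)
  obtain ⟨W, h1, h2⟩ := theta_I hG C.t0 hR hB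
  refine (key K le_rfl).closed (sup_le_sup_right (inf_le_inf_left _ le_top) _) (sup_le
    (by rw [hK]; simp) ?_) ((C.inv_Y _).sup i0).s0 ((C.inv_Y _).sup i0).s0 h1
    (fun u hu => (sup_le_sup_right le_sup_right W : N ⊔ W ≤ _) (h2 u hu)) fun p hp =>
    SetLike.le_def.1 (sup_le_sup_right ?_ _) (hf p hp)
  · rintro _ ⟨ψ, hψ, rfl⟩
    exact FP_val hI (stV (fun i => op_FP hI 1 i x) e _ hψ) 1
  · rintro _ ⟨ψ, hψ, rfl⟩
    exact ⟨_, Submodule.mem_sup_left (piQ_mem x e hψ), C.th_aeval p hψ⟩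

end Pool.Agent.Lib.MP_038c09_al.As
end

-- part Pool.Agent.Lib.MP_038c09_al.AsVis
section

/-! The visible part: left and right multiplications. -/

namespace Pool.Agent.Lib.MP_038c09_al.As

open Polynomial

variable {F : Type} [Field F] {Λ : Type} [Ring Λ] [Algebra F Λ]

def LR (F : Type) [Field F] [Algebra F Λ] (b : Bool) (a : Λ) : Module.End F Λ :=
  if b then LinearMap.mulLeft F a else LinearMap.mulRight F a

@[simp] theorem LR_t (a w : Λ) : LR F true a w = a * w := rfl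
@[simp] theorem LR_f (a w : Λ) : LR F false a w = w * a := rfl

theorem IsId.st {J : Submodule F Λ} (h : IsId J) (b : Bool) (a : Λ) : St (LR F b a) J :=
  fun w hw => by cases b; exacts [(h a w hw).2, (h a w hw).1]

theorem isId_of_st {J : Submodule F Λ} (h : ∀ b a, St (LR F b a) J) : IsId J :=
  fun a w hw => ⟨h true a w hw, h false a w hw⟩

theorem LR_pow (b : Bool) (x : Λ) (k : ℕ) : LR F b x ^ k = LR F b (x ^ k) := by
  cases b
  exacts [LinearMap.pow_mulRight F Λ x k, LinearMap.pow_mulLeft F Λ x k]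

theorem LR_aeval (b : Bool) (x : Λ) (p : F[X]) : aeval (LR F b x) p = LR F b (aeval x p) := by
  induction p using Polynomial.induction_on' with
  | add p q hp hq => ext w; cases b <;> simp [hp, hq, add_mul, mul_add]
  | monomial i c =>
    ext w; cases b <;> simp [aeval_monomial, ← Algebra.smul_def, LR_pow]

theorem isId_of_gen {ε : Λ →ₐ[F] F} {σ : Type} {xs : σ → Λ} (hG : Gen ε xs) {W : Submodule F Λ}
    (h : ∀ b s, St (LR F b (xs s)) W) : IsId W := fun a w hw => by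
  have hb : a ∈ Algebra.adjoin F (Set.range xs) := hG.top ▸ Algebra.mem_top
  induction hb using Algebra.adjoin_induction generalizing w with
  | mem _ h' => obtain ⟨s, rfl⟩ := h'; exact ⟨h true s w hw, h false s w hw⟩
  | algebraMap r =>
    rw [← Algebra.commutes, ← Algebra.smul_def]; exact ⟨W.smul_mem r hw, W.smul_mem r hw⟩
  | add a b _ _ ha hb =>
    rw [add_mul, mul_add]; exact ⟨W.add_mem (ha w hw).1 (hb w hw).1, W.add_mem (ha w hw).2 (hb w hw).2⟩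
  | mul a b _ _ ha hb =>
    rw [mul_assoc, ← mul_assoc w]; exact ⟨(ha _ (hb w hw).1).1, (hb _ (ha w hw).2).2⟩

/-- the commutator ideal sends `N` into `J` on both sides. -/
def Cen (N J : Submodule F Λ) : Prop := ∀ t ∈ cT F Λ, ∀ w ∈ N, t * w ∈ J ∧ w * t ∈ J

theorem Cen.sup {N J : Submodule F Λ} (h : Cen N J) (hJ : IsId J) : Cen (N ⊔ J) J :=
  fun t ht w hw => by
    obtain ⟨a, ha, b, hb, rfl⟩ := Submodule.mem_sup.1 hw
    rw [mul_add, add_mul]
    exact ⟨J.add_mem (h t ht a ha).1 (hJ t b hb).1, J.add_mem (h t ht a ha).2 (hJ t b hb).2⟩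

theorem Cen.comm {N J : Submodule F Λ} (h : Cen N J) (b b' : Bool) (a a' : Λ) :
    ∀ w ∈ N, LR F b a (LR F b' a' w) - LR F b' a' (LR F b a w) ∈ J := fun w hw => by
  cases b <;> cases b'
  · convert (h _ (comm_mem_cT a' a) w hw).2 using 1; simp [mul_sub, mul_assoc]
  · simp [mul_assoc]
  · simp [mul_assoc]
  · convert (h _ (comm_mem_cT a a') w hw).1 using 1; simp [sub_mul, mul_assoc]

theorem cen_Tf (k : ℕ) : Cen (Tf F Λ k) (Tf F Λ (k + 1)) := fun _ ht _ hw =>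
  ⟨Nat.add_comm 1 k ▸ Tf_mul (cT_le_Tf1 ht) hw, Tf_mul hw (cT_le_Tf1 ht)⟩

theorem Cen.mono {N J N' J' : Submodule F Λ} (h : Cen N J) (l : N' ≤ N) (l' : J ≤ J') :
    Cen N' J' := fun t ht w hw => ⟨l' (h t ht w (l hw)).1, l' (h t ht w (l hw)).2⟩

noncomputable def GB {σ : Type} (xs : σ → Λ) (U : Set Λ) {J : Submodule F Λ} (hJ : IsId J)
    (h : Cen (biSpan F U) J) : Gr F Λ (Bool × σ) where
  N0 := biSpan F U ⊔ J
  N1 := J
  θ := fun p => LR F p.1 (xs p.2)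
  le := le_sup_right
  h0 := fun _ => ((isId_biSpan U).sup hJ).st _ _
  h1 := fun _ => hJ.st _ _
  hc := fun _ _ => (h.sup hJ).comm _ _ _ _

theorem GB_fg {ε : Λ →ₐ[F] F} {σ : Type} {xs : σ → Λ} (hG : Gen ε xs) {U : Set Λ} (hU : U.Finite)
    {J : Submodule F Λ} (hJ : IsId J) (h : Cen (biSpan F U) J) : (GB xs U hJ h).FG :=
  ⟨U, hU, fun _ hu => Submodule.mem_sup_left (subset_biSpan hu), fun _ w1 w2 w3 =>
    sup_le (biSpan_le (isId_of_gen hG fun b s => w3 (b, s)) w2) w1⟩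

theorem LR_comm (y : Λ) : Commute (LR F true y) (LR F false y) :=
  LinearMap.ext fun w => by simp [mul_assoc]

theorem PR_top [CharZero F] {ε : Λ →ₐ[F] F} {n : ℕ} (H : Ids ε n) {σ : Type} [Finite σ]
    {xs : σ → Λ} (hG : Gen ε xs) {K : ℕ} (hK : Tf F Λ K = ⊥) {y : Λ} (hy : ε y = 0)
    {I : Submodule F Λ} (hI : IsId I) : PR (LR F true y) (LR F false y) ⊤ I := by
  have hZ : ∀ k, IsId (Tf F Λ k ⊔ I) := fun k => (isId_Tf k).sup hI
  have key : ∀ k, PR (LR F true y) (LR F false y) ⊤ (Tf F Λ k ⊔ I) := fun k => by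
    induction k with
    | zero => exact PR.of_kill 0 (fun _ _ => Submodule.mem_sup_left trivial)
                fun _ _ => Submodule.mem_sup_left trivial
    | succ k ih =>
      have l1 : Tf F Λ (k + 1) ⊔ I ≤ Tf F Λ k ⊔ I := sup_le_sup_right (Tf_succ_le k) _
      refine PR.trans (LR_comm y) le_top l1 (isId_top.st _ _) ((hZ _).st _ _) ((hZ _).st _ _)
        (isId_top.st _ _) ((hZ _).st _ _) ((hZ _).st _ _) ih ?_
      obtain ⟨L, U, a1, a2, a3⟩ := FGL H hG hy k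
      obtain ⟨L', U', b1, b2, b3⟩ := FGR H hG hy k
      have l2 : biSpan F (U ∪ U') ≤ Tf F Λ k := biSpan_le (isId_Tf k) (Set.union_subset a2 b2)
      have hc : Cen (biSpan F (U ∪ U')) (Tf F Λ (k + 1) ⊔ I) := (cen_Tf k).mono l2 le_sup_left
      have hN := (isId_biSpan (F := F) (U ∪ U')).sup (hZ (k + 1))
      have kill : ∀ b, (∀ v ∈ Tf F Λ k, LR F b (y ^ (L + L')) v ∈ biSpan F (U ∪ U') ⊔
          Tf F Λ (k + 1)) → ∀ a ∈ Tf F Λ k ⊔ I, (LR F b y ^ (L + L')) a ∈ biSpan F (U ∪ U') ⊔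
          (Tf F Λ (k + 1) ⊔ I) := fun b h a ha => by
        obtain ⟨c, hc, d, hd, rfl⟩ := Submodule.mem_sup.1 ha
        rw [LR_pow, map_add, ← sup_assoc]
        exact Submodule.add_mem_sup (h c hc) (hI.st _ _ d hd)
      refine PR.trans (LR_comm y) (sup_le (l2.trans le_sup_left) l1) le_sup_right ((hZ _).st _ _)
        (hN.st _ _) ((hZ _).st _ _) ((hZ _).st _ _) (hN.st _ _) ((hZ _).st _ _)
        (PR.of_kill (L + L') (kill true fun v hv => SetLike.le_def.1 (sup_le_sup_right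
          (biSpan_mono Set.subset_union_left) _) (a3 _ (by omega) v hv))
          (kill false fun v hv => SetLike.le_def.1 (sup_le_sup_right
          (biSpan_mono Set.subset_union_right) _) (b3 _ (by omega) v hv)))
        (PR.of_fg (GB_fg hG (a1.union b1) (hZ _) hc) (LR_comm y) (hN.st _ _) ((hZ _).st _ _)
          (hN.st _ _) ((hZ _).st _ _) (fun _ => (hc.sup (hZ _)).comm _ _ _ _)
          fun _ => (hc.sup (hZ _)).comm _ _ _ _)
  simpa [hK] using key K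

theorem add_rel {ε : Λ →ₐ[F] F} {σ : Type} [Finite σ] {xs : σ → Λ} (hG : Gen ε xs) {R : Set Λ}
    {f : Λ} (hf : f ∉ biSpan F R) (hc : Cen (biSpan F {f}) (biSpan F R)) (b : Bool) (s : σ) :
    ∃ p : F[X], p ≠ 0 ∧ f ∉ biSpan F (insert (LR F b (aeval (xs s) (X * p)) f) R) := by
  have hI := isId_biSpan (F := F) R
  have h0 : f ∈ biSpan F {f} ⊔ biSpan F R := Submodule.mem_sup_left (subset_biSpan rfl)
  have hN := (isId_biSpan (F := F) {f}).sup hI
  have := (KK.of_fg (GB_fg hG (Set.finite_singleton f) hI hc) (b, s)).2 f h0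
  by_contra hn
  push Not at hn
  refine hf (this fun p hp => biSpan_le (isId_of_st fun b' a w hw => ?_) (Set.insert_subset ?_
    fun r hr => Submodule.mem_sup_right (subset_biSpan hr)) (hn p hp))
  · obtain ⟨_, ⟨u, hu, rfl⟩, d, hd, rfl⟩ := Submodule.mem_sup.1 hw
    have h1 := (hc.sup hI).comm b' b a (aeval (xs s) p) u hu
    rw [← LR_aeval] at h1
    have h2 := Submodule.add_mem_sup (S := (biSpan F {f} ⊔ biSpan F R).map
      (aeval (LR F b (xs s)) p)) ⟨_, hN.st b' a u hu, rfl⟩ (add_mem h1 (hI.st b' a d hd))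
    rw [← add_assoc, add_sub_cancel, ← map_add] at h2
    exact h2
  · refine Submodule.mem_sup_left ⟨_, hN.st b (xs s) f h0, ?_⟩
    rw [← LR_aeval, mul_comm, aeval_mul_apply, aeval_X]; rfl

theorem Gr.fd {V : Type} [AddCommGroup V] [Module F V] {τ : Type} [Finite τ] {G : Gr F V τ}
    (hG : G.FG) (h : ∀ i, ∃ p : F[X], p ≠ 0 ∧ ∀ x ∈ G.N0, aeval (G.θ i) p x ∈ G.N1) :
    ∃ U : Submodule F V, U.FG ∧ G.N0 ≤ U ⊔ G.N1 := by
  have := hG.finite
  have h1 : Module.Finite F G.A := ⟨by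
    have := fg_adjoin_of_finite (R := F) (Set.finite_range G.gen) (by
      rintro _ ⟨i, rfl⟩
      obtain ⟨p, hp, h⟩ := h i
      exact IsAlgebraic.isIntegral ⟨p, hp, ((Gr.lifts_gen i).aeval p).eq Gr.lifts_zero
        (by simpa using h)⟩)
    rwa [Gr.adjoin_gen] at this⟩
  have : IsScalarTower F G.A G.Q := ⟨fun _ _ _ => rfl⟩
  obtain ⟨S, hS⟩ := (Module.Finite.trans G.A G.Q : Module.Finite F G.Q).fg_top
  choose g hg hg' using G.cl_surj
  refine ⟨_, Submodule.fg_span (S.finite_toSet.image g), fun x hx => ?_⟩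
  have h2 : ∀ q ∈ Submodule.span F (S : Set G.Q), ∃ y hy, y ∈ Submodule.span F (g '' S) ∧
      G.cl y hy = q := fun q hq => by
    induction hq using Submodule.span_induction with
    | mem q hq => exact ⟨g q, hg q, Submodule.subset_span ⟨q, hq, rfl⟩, hg' q⟩
    | zero => exact ⟨0, zero_mem _, zero_mem _, rfl⟩
    | add _ _ _ _ h1 h2 =>
      obtain ⟨y, hy, a1, rfl⟩ := h1
      obtain ⟨z, hz, a2, rfl⟩ := h2
      exact ⟨y + z, add_mem hy hz, add_mem a1 a2, rfl⟩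
    | smul c _ _ h1 =>
      obtain ⟨y, hy, a1, rfl⟩ := h1
      exact ⟨c • y, G.N0.smul_mem c hy, Submodule.smul_mem _ c a1, rfl⟩
  obtain ⟨y, hy, a1, a2⟩ := h2 (G.cl x hx) (hS ▸ trivial)
  simpa using Submodule.add_mem_sup a1 ((G.cl_eq hx hy).1 a2.symm)

theorem cofinite {ε : Λ →ₐ[F] F} {σ : Type} [Finite σ] {xs : σ → Λ} (hG : Gen ε xs) {K : ℕ}
    (hK : Tf F Λ K = ⊥) {I : Submodule F Λ} (hI : IsId I)
    (h : ∀ s, ∃ p : F[X], p ≠ 0 ∧ aeval (xs s) p ∈ I) : Module.Finite F (Λ ⧸ I) := by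
  have hZ : ∀ k, IsId (Tf F Λ k ⊔ I) := fun k => (isId_Tf k).sup hI
  obtain ⟨U0, h1, h2⟩ := Gr.fd (GB_fg hG (Set.finite_singleton 1) (hZ 1)
    ((cen_Tf 0).mono le_top le_sup_left)) fun ⟨b, s⟩ => by
      obtain ⟨p, hp, h⟩ := h s
      refine ⟨p, hp, fun w _ => Submodule.mem_sup_right ?_⟩
      change aeval (LR F b (xs s)) p w ∈ I
      rw [LR_aeval]; cases b; exacts [(hI _ _ h).1, (hI _ _ h).2]
  have h3 : ∀ a, ∃ u ∈ U0, a - u ∈ Tf F Λ 1 ⊔ I := fun a => by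
    obtain ⟨u, hu, d, hd, e⟩ := Submodule.mem_sup.1 (h2 (Submodule.mem_sup_left
      (Submodule.subset_span ⟨a, 1, 1, rfl, by simp⟩ : a ∈ biSpan F {1})))
    exact ⟨u, hu, by rwa [← e, add_sub_cancel_left]⟩
  have mm : ∀ {i j : ℕ} {a b : Λ}, a ∈ Tf F Λ i ⊔ I → b ∈ Tf F Λ j ⊔ I →
      a * b ∈ Tf F Λ (i + j) ⊔ I := fun ha hb => by
    obtain ⟨a, ha', c, hc, rfl⟩ := Submodule.mem_sup.1 ha
    obtain ⟨b, hb', d, hd, rfl⟩ := Submodule.mem_sup.1 hb
    rw [add_mul, mul_add, add_assoc]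
    exact Submodule.add_mem_sup (Tf_mul ha' hb') (add_mem (hI _ _ hd).1 (hI _ _ hc).2)
  have key : ∀ k, ∃ U : Submodule F Λ, U.FG ∧ U ≤ Tf F Λ k ∧
      Tf F Λ k ≤ U ⊔ (Tf F Λ (k + 1) ⊔ I) := fun k => by
    induction k with
    | zero => exact ⟨U0, h1, le_top, fun a _ => by
        obtain ⟨u, hu, h⟩ := h3 a; simpa using Submodule.add_mem_sup hu h⟩
    | succ k ih =>
      obtain ⟨U, a1, a2, a3⟩ := ih
      have hc : Submodule.span F (comms xs) ≤ Tf F Λ 1 :=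
        Submodule.span_le.2 fun t ht => cT_le_Tf1 (comms_sub xs ht)
      refine ⟨U * U0 * Submodule.span F (comms xs) * U0, ((a1.mul h1).mul
        (Submodule.fg_span (Set.finite_range _))).mul h1, Submodule.mul_le.2 fun a ha b _ =>
        (isId_Tf _ _ _ ((Submodule.mul_le (P := Tf F Λ (k + 1))).2 (fun c hc' d hd => Tf_mul
          ((Submodule.mul_le (P := Tf F Λ k)).2 (fun u hu _ _ => (isId_Tf _ _ _ (a2 hu)).2) hc')
          (hc hd)) ha)).2, Submodule.mul_le.2 fun a ha t ht => ?_⟩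
      obtain ⟨u, hu, d, hd, rfl⟩ := Submodule.mem_sup.1 (a3 ha)
      rw [add_mul]
      refine add_mem (biSpan_ind (LinearMap.mulLeft F u) _ (fun p q c hc' => ?_) (cT_le hG ht))
        (Submodule.mem_sup_right (mm hd (Submodule.mem_sup_left (cT_le_Tf1 ht))))
      obtain ⟨p', hp, hp'⟩ := h3 p
      obtain ⟨q', hq, hq'⟩ := h3 q
      have b0 : u ∈ Tf F Λ k ⊔ I := Submodule.mem_sup_left (a2 hu)
      have b1 : c ∈ Tf F Λ 1 ⊔ I := Submodule.mem_sup_left (hc (Submodule.subset_span hc'))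
      have := Submodule.add_mem_sup (Submodule.mul_mem_mul (Submodule.mul_mem_mul
        (Submodule.mul_mem_mul hu hp) (Submodule.subset_span hc')) hq)
        (add_mem ((hZ _ q _ (mm (mm b0 hp') b1)).2) (mm (mm (hZ _ p' _ b0).2 b1) hq'))
      convert this using 1
      simp only [LinearMap.mulLeft_apply]; noncomm_ring
  have fin : ∀ k, ∃ U : Submodule F Λ, U.FG ∧ ⊤ ≤ U ⊔ (Tf F Λ k ⊔ I) := fun k => by
    induction k with
    | zero => exact ⟨⊥, Submodule.fg_bot, fun _ _ =>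
        Submodule.mem_sup_right (Submodule.mem_sup_left trivial)⟩
    | succ k ih =>
      obtain ⟨U, a1, a2⟩ := ih
      obtain ⟨U', b1, -, b2⟩ := key k
      refine ⟨U ⊔ U', a1.sup b1, a2.trans ?_⟩
      rw [sup_assoc]
      exact sup_le_sup_left (sup_le b2 (le_sup_right.trans le_sup_right)) _
  obtain ⟨U, a1, a2⟩ := fin K
  refine ⟨?_⟩
  have := Submodule.map_mono (f := I.mkQ) a2
  simp only [hK, Submodule.map_top, Submodule.range_mkQ, Submodule.map_sup, Submodule.map_bot,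
    Submodule.mkQ_map_self, sup_bot_eq] at this
  exact top_le_iff.1 this ▸ a1.map I.mkQ

end Pool.Agent.Lib.MP_038c09_al.As
end
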