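import Pool.Agent.Lib.MP_038c09_al.Defs

/-!
Finite lists of identities given by words in left and right multiplications.
-/

namespace Pool.Agent.Lib.MP_038c09_al

/-- Apply to the monomial `t`, in order, the multiplications listed in `U`: the pair `(true, x)`
multiplies by the variable `x` on the right, the pair `(false, x)` on the left. -/
def act {X : Type} (t : FreeMagma X) (U : List (Bool × X)) : FreeMagma X :=
  U.foldl (fun s p => if p.1 then s * .of p.2 else .of p.2 * s) t

/-- The finite data `(U, e, U')` of one identity. -/
abbrev IdData := List (Bool × ℕ) × ℤ × List (Bool × ℕ)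

/-- The polynomial `(x_0 x_1) U - e (x_0 x_1) U'` attached to the data `(U, e, U')`. -/
noncomputable def opId (F : Type) [Field F] (d : IdData) : FA F ℕ :=
  mon F (act (.of 0 * .of 1) d.1) - (d.2.1 : F) • mon F (act (.of 0 * .of 1) d.2.2)

/-- The polynomial `(x_0 x_1) (x_2 x_3)`. -/
noncomputable def metab (F : Type) [Field F] : FA F ℕ :=
  mon F ((.of 0 * .of 1) * (.of 2 * .of 3))

/-- The identities of the variety coded by the finite list `I`: `(x_0 x_1) (x_2 x_3) = 0` and
`opId d = 0` for `d` in `I`. -/
def idSet (F : Type) [Field F] (I : List IdData) : Set (FA F ℕ) :=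
  insert (metab F) (opId F '' {d | d ∈ I})

end Pool.Agent.Lib.MP_038c09_al
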