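import Mathlib

/-!
Varieties of non-associative algebras and the RFD property.
-/

namespace Pool.Agent.Lib.MP_038c09_al

/-- The absolutely free (non-associative, non-unital) `F`-algebra on `X`. -/
abbrev FA (F : Type) [Field F] (X : Type) := FreeNonUnitalNonAssocAlgebra F X

variable {F : Type} [Field F]

/-- A monomial (element of the free magma) as an element of the free algebra. -/
noncomputable def mon (F : Type) [Field F] {X : Type} (w : FreeMagma X) : FA F X :=
  MonoidAlgebra.ofMagma F (FreeMagma X) w

/-- A two-sided ideal of the algebra: a subspace closed under multiplication on both sides. -/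
def IsIdeal {X : Type} (J : Submodule F (FA F X)) : Prop :=
  ∀ x y : FA F X, y ∈ J → x * y ∈ J ∧ y * x ∈ J

/-- The two-sided ideal generated by a set. -/
noncomputable def idealGen {X : Type} (S : Set (FA F X)) : Submodule F (FA F X) :=
  sInf {J | IsIdeal J ∧ S ⊆ J}

/-- All values, in the free algebra on `X`, of the polynomials `f ∈ I` (polynomials in the
variables `x_0, x_1, ...`).  The ideal they generate is the ideal of identities of the variety
defined by `I`, so the quotient by it is the free algebra of that variety on `X`. -/
def TVal (I : Set (FA F ℕ)) (X : Type) : Set (FA F X) :=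
  {g | ∃ f ∈ I, ∃ φ : ℕ → FA F X, g = FreeNonUnitalNonAssocAlgebra.lift F φ f}

/-- The variety defined by the identities `f = 0`, `f ∈ I`, is an RFD-variety: every algebra
`A = FA (Fin n) / K` finitely presented in it (`K` generated by the values of the identities and
finitely many relators `R`) is residually finite-dimensional, that is, every `a ∉ K` lies outside
some ideal `J ⊇ K` of finite codimension. -/
def IsRFDVariety (I : Set (FA F ℕ)) : Prop :=
  ∀ (n : ℕ) (R : Finset (FA F (Fin n))) (a : FA F (Fin n)),
    a ∉ idealGen (TVal I (Fin n) ∪ ↑R) →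
      ∃ J : Submodule F (FA F (Fin n)), IsIdeal J ∧ idealGen (TVal I (Fin n) ∪ ↑R) ≤ J ∧
        Module.Finite F (FA F (Fin n) ⧸ J) ∧ a ∉ J

/-- The list of variables of a monomial, with repetitions. -/
def leaves {X : Type} : FreeMagma X → List X
  | .of x => [x]
  | .mul s t => leaves s ++ leaves t

/-- A monomial is multilinear when no variable occurs twice. -/
def Multilinear {X : Type} (w : FreeMagma X) : Prop := (leaves w).Nodup

/-- The subterms of a monomial (the monomial itself included) that are not single variables. -/
def subterms {X : Type} : FreeMagma X → List (FreeMagma X)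
  | .of _ => []
  | .mul s t => .mul s t :: (subterms s ++ subterms t)

/-- `Below I s t`: modulo the identities `I`, the monomial `s` is a linear combination of
substitution instances of the monomial `t`. -/
def Below (I : Set (FA F ℕ)) (s t : FreeMagma ℕ) : Prop :=
  mon F s ∈ Submodule.span F
    (Set.range fun φ : ℕ → FA F ℕ => FreeNonUnitalNonAssocAlgebra.lift F φ (mon F t)) ⊔
    idealGen (TVal I ℕ)

/-- The polynomial `α (s t) + β (t s)` attached to the data `(α, β, s, t)`. -/
noncomputable def binId (d : F × F × FreeMagma ℕ × FreeMagma ℕ) : FA F ℕ :=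
  d.1 • mon F (d.2.2.1 * d.2.2.2) + d.2.1 • mon F (d.2.2.2 * d.2.2.1)

/-- The non-variable subterms of the factors `s`, `t` of a finite family of data
`(α, β, s, t)`. -/
def Psub (D : Finset (F × F × FreeMagma ℕ × FreeMagma ℕ)) (r : FreeMagma ℕ) : Prop :=
  ∃ d ∈ D, r ∈ subterms d.2.2.1 ∨ r ∈ subterms d.2.2.2

/-- A subspace representation of the preordered set `(P, le)`: a vector space with a monotone
family of subspaces indexed by `P`. -/
def IsRep {α W : Type} [AddCommGroup W] [Module F W] (P : α → Prop) (le : α → α → Prop)
    (V : α → Submodule F W) : Prop :=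
  ∀ s t, P s → P t → le s t → V s ≤ V t

/-- Morphisms of subspace representations. -/
def IsRepHom {α W W' : Type} [AddCommGroup W] [Module F W] [AddCommGroup W'] [Module F W']
    (P : α → Prop) (V : α → Submodule F W) (V' : α → Submodule F W') (f : W →ₗ[F] W') : Prop :=
  ∀ s, P s → ∀ x ∈ V s, f x ∈ V' s

/-- `(P, le)` has finite representation type over `F` (additive generator form): there is a
finite-dimensional subspace representation `M` such that every finite-dimensional subspace
representation `N` is a direct summand of some power `M ^ r`. -/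
def FiniteRepType (F : Type) [Field F] {α : Type} (P : α → Prop) (le : α → α → Prop) : Prop :=
  ∃ (m : ℕ) (M : α → Submodule F (Fin m → F)), IsRep P le M ∧
    ∀ (k : ℕ) (N : α → Submodule F (Fin k → F)), IsRep P le N →
      ∃ (r : ℕ) (f : Fin r → (Fin k → F) →ₗ[F] (Fin m → F))
        (g : Fin r → (Fin m → F) →ₗ[F] (Fin k → F)),
        (∀ i, IsRepHom P N M (f i) ∧ IsRepHom P M N (g i)) ∧ ∑ i, g i ∘ₗ f i = LinearMap.id

/-- Four bracketings of a product of five factors. -/
def sh {X : Type} (i : Fin 4) (a b c d e : FreeMagma X) : FreeMagma X :=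
  ![((a * b) * c) * (d * e), (a * b) * (c * (d * e)), (a * b) * ((c * d) * e),
    (a * (b * c)) * (d * e)] i

/-- The multilinear monomial `(x_0 u_i(x_1, ..., x_5)) (x_6 u_i(x_7, ..., x_11))` of degree 12,
where `u_i` is the `i`-th bracketing. -/
def wmon (i : Fin 4) : FreeMagma ℕ :=
  (.of 0 * sh i (.of 1) (.of 2) (.of 3) (.of 4) (.of 5)) *
    (.of 6 * sh i (.of 7) (.of 8) (.of 9) (.of 10) (.of 11))

end Pool.Agent.Lib.MP_038c09_al
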