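import Pool.Agent.Lib.MP_038c09_al.AsIdForm

/-! Transfer of the classification of associative RFD-varieties to the varieties whose free
algebras of finite rank are associative from some degree on. -/

namespace Pool.Agent.Lib.MP_038c09_al.EvAs

open As

variable {F : Type} [Field F] {X : Type}

theorem leaves_mul (s t : FreeMagma X) : leaves (s * t) = leaves s ++ leaves t := rfl

/-- The degree of a monomial. -/
def dg (w : FreeMagma X) : ℕ := (leaves w).length

theorem dg_mul (s t : FreeMagma X) : dg (s * t) = dg s + dg t := by simp [dg, leaves_mul]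

theorem dg_of (x : X) : dg (FreeMagma.of x) = 1 := rfl

theorem dg_pos (w : FreeMagma X) : 1 ≤ dg w := by
  induction w with
  | ih1 x => exact le_rfl
  | ih2 s t hs ht => rw [dg_mul]; omega

theorem mon_ind {P : Submodule F (FA F X)} (h : ∀ w, mon F w ∈ P) (x : FA F X) : x ∈ P := by
  induction x using MonoidAlgebra.induction_linear with
  | zero => exact P.zero_mem
  | add f g a b => exact P.add_mem a b
  | single w c => rw [single_eq]; exact P.smul_mem c (h w)

theorem map_ind {A : Type} [AddCommGroup A] [Module F A] (f : FA F X →ₗ[F] A)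
    {P : Submodule F A} (h : ∀ w, f (mon F w) ∈ P) (x : FA F X) : f x ∈ P :=
  mon_ind (P := P.comap f) h x

theorem span_ind {A B : Type} [AddCommGroup A] [Module F A] [AddCommGroup B] [Module F B]
    (f : A →ₗ[F] B) {S : Set A} {P : Submodule F B} (h : ∀ w ∈ S, f w ∈ P) {x : A}
    (hx : x ∈ Submodule.span F S) : f x ∈ P :=
  (Submodule.span_le (p := P.comap f)).2 h hx

theorem isIdeal_of_mon {J : Submodule F (FA F X)}
    (h : ∀ w, ∀ y ∈ J, mon F w * y ∈ J ∧ y * mon F w ∈ J) : IsIdeal J := fun x y hy =>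
  ⟨map_ind (LinearMap.mulRight F y) (fun w => (h w y hy).1) x,
    map_ind (LinearMap.mulLeft F y) (fun w => (h w y hy).2) x⟩

theorem isIdeal_sup {J J' : Submodule F (FA F X)} (h : IsIdeal J) (h' : IsIdeal J') :
    IsIdeal (J ⊔ J') := fun a b hb => by
  obtain ⟨c, hc, d, hd, rfl⟩ := Submodule.mem_sup.1 hb
  rw [mul_add, add_mul]
  exact ⟨Submodule.add_mem_sup (h a c hc).1 (h' a d hd).1,
    Submodule.add_mem_sup (h a c hc).2 (h' a d hd).2⟩

theorem idealGen_mono {S S' : Set (FA F X)} (h : S ⊆ S') : idealGen S ≤ idealGen S' :=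
  idealGen_le (isIdeal_idealGen _) (h.trans (subset_idealGen _))

theorem idealGen_union (S S' : Set (FA F X)) : idealGen (S ∪ S') = idealGen S ⊔ idealGen S' :=
  le_antisymm (idealGen_le (isIdeal_sup (isIdeal_idealGen _) (isIdeal_idealGen _))
    (Set.union_subset (fun _ h => Submodule.mem_sup_left (subset_idealGen _ h))
      fun _ h => Submodule.mem_sup_right (subset_idealGen _ h)))
    (sup_le (idealGen_mono Set.subset_union_left) (idealGen_mono Set.subset_union_right))

/-- The map that multiplies the component of degree `k` by `c k`. -/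
noncomputable def dia (c : ℕ → F) : FA F X →ₗ[F] FA F X :=
  (MonoidAlgebra.basis (FreeMagma X) F).constr F fun w => c (dg w) • mon F w

theorem dia_mon (c : ℕ → F) (w : FreeMagma X) : dia c (mon F w) = c (dg w) • mon F w :=
  (MonoidAlgebra.basis (FreeMagma X) F).constr_basis F _ w

variable (F X) in
/-- Polynomials of degree less than `N`. -/
noncomputable def Lo (N : ℕ) : Submodule F (FA F X) :=
  Submodule.span F (mon F '' {w | dg w < N})

variable (F X) in
/-- Polynomials all of whose terms have degree at least `N`. -/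
noncomputable def Hi (N : ℕ) : Submodule F (FA F X) :=
  Submodule.span F (mon F '' {w | N ≤ dg w})

theorem mon_Lo {N : ℕ} {w : FreeMagma X} (h : dg w < N) : mon F w ∈ Lo F X N :=
  Submodule.subset_span ⟨w, h, rfl⟩

theorem mon_Hi {N : ℕ} {w : FreeMagma X} (h : N ≤ dg w) : mon F w ∈ Hi F X N :=
  Submodule.subset_span ⟨w, h, rfl⟩

theorem Lo_mono {i j : ℕ} (h : i ≤ j) : Lo F X i ≤ Lo F X j :=
  Submodule.span_mono (Set.image_mono fun _ hw => lt_of_lt_of_le hw h)

theorem Hi_anti {i j : ℕ} (h : i ≤ j) : Hi F X j ≤ Hi F X i :=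
  Submodule.span_mono (Set.image_mono fun _ hw => le_trans h hw)

theorem mem_Hi_one (x : FA F X) : x ∈ Hi F X 1 := mon_ind (fun w => mon_Hi (dg_pos w)) x

theorem exists_Lo (x : FA F X) : ∃ D, x ∈ Lo F X D := by
  induction x using MonoidAlgebra.induction_linear with
  | zero => exact ⟨0, Submodule.zero_mem _⟩
  | add f g a b =>
    obtain ⟨i, hi⟩ := a
    obtain ⟨j, hj⟩ := b
    exact ⟨i + j, Submodule.add_mem _ (Lo_mono (by omega) hi) (Lo_mono (by omega) hj)⟩
  | single w c => exact ⟨dg w + 1, by rw [single_eq]; exact Submodule.smul_mem _ c (mon_Lo (by omega))⟩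

theorem Hi_mul {i j : ℕ} {x y : FA F X} (hx : x ∈ Hi F X i) (hy : y ∈ Hi F X j) :
    x * y ∈ Hi F X (i + j) := by
  refine span_ind (LinearMap.mulRight F y) ?_ hx
  rintro _ ⟨s, hs, rfl⟩
  refine span_ind (LinearMap.mulLeft F (mon F s)) ?_ hy
  rintro _ ⟨t, ht, rfl⟩
  rw [LinearMap.mulLeft_apply, ← mon_mul]
  exact mon_Hi (by rw [dg_mul]; exact Nat.add_le_add hs ht)

theorem isIdeal_Hi (N : ℕ) : IsIdeal (Hi F X N) := fun x _ hy =>
  ⟨Hi_anti (by omega) (Hi_mul (mem_Hi_one x) hy), Hi_anti (by omega) (Hi_mul hy (mem_Hi_one x))⟩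

theorem evf_Hi {Y : Type} (φ : X → FA F Y) {N : ℕ} {x : FA F X} (hx : x ∈ Hi F X N) :
    evf φ x ∈ Hi F Y N := by
  have key : ∀ w : FreeMagma X, evf φ (mon F w) ∈ Hi F Y (dg w) := fun w => by
    induction w with
    | ih1 x => exact mem_Hi_one _
    | ih2 s t hs ht => rw [mon_mul, map_mul, dg_mul]; exact Hi_mul hs ht
  let f : FA F X →ₗ[F] FA F Y := nl (evf φ)
  refine span_ind f ?_ hx
  rintro _ ⟨s, hs, rfl⟩
  exact Hi_anti hs (key s)

theorem finite_dg [Finite X] (N : ℕ) : {w : FreeMagma X | dg w < N}.Finite := by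
  induction N with
  | zero => simp
  | succ N ih =>
    refine ((Set.finite_range FreeMagma.of).union (ih.image2 (· * ·) ih)).subset fun w hw => ?_
    induction w with
    | ih1 x => exact Or.inl ⟨x, rfl⟩
    | ih2 s t _ _ =>
      have h : dg (s * t) < N + 1 := hw
      rw [dg_mul] at h
      have := dg_pos s
      have := dg_pos t
      exact Or.inr ⟨s, show dg s < N by omega, t, show dg t < N by omega, rfl⟩

theorem Lo_fg [Finite X] (N : ℕ) : (Lo F X N).FG := Submodule.fg_span ((finite_dg N).image _)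

/-- The part of degree at least `N`. -/
noncomputable def hi (N : ℕ) : FA F X →ₗ[F] FA F X := dia fun k => if N ≤ k then 1 else 0

theorem hi_mon (N : ℕ) (w : FreeMagma X) :
    hi N (mon F w) = if N ≤ dg w then mon F w else 0 := by
  rw [hi, dia_mon]; split_ifs <;> simp

theorem hi_mem (N : ℕ) (x : FA F X) : hi N x ∈ Hi F X N :=
  map_ind _ (fun w => by
    rw [hi_mon]; split_ifs with h
    exacts [mon_Hi h, Submodule.zero_mem _]) x

theorem sub_hi_mem (N : ℕ) (x : FA F X) : x - hi N x ∈ Lo F X N :=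
  map_ind (LinearMap.id - hi N) (fun w => by
    rw [LinearMap.sub_apply, LinearMap.id_apply, hi_mon]; split_ifs with h
    · simp
    · rw [sub_zero]; exact mon_Lo (by omega)) x

theorem hi_eq {N : ℕ} {x : FA F X} (hx : x ∈ Hi F X N) : hi N x = x := by
  have : (hi N - LinearMap.id : FA F X →ₗ[F] FA F X) x ∈ (⊥ : Submodule F (FA F X)) := by
    refine span_ind _ ?_ hx
    rintro _ ⟨s, hs, rfl⟩
    rw [LinearMap.sub_apply, LinearMap.id_apply, hi_mon, if_pos (show N ≤ dg s from hs)]; simp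
  simpa [sub_eq_zero] using this

theorem Hi_cofg [Finite X] (N : ℕ) : (Hi F X N).CoFG :=
  (Lo_fg N).cofg_of_codisjoint (codisjoint_iff.2 (eq_top_iff.2 fun x _ => by
    rw [← sub_add_cancel x (hi N x)]
    exact Submodule.add_mem_sup (sub_hi_mem N x) (hi_mem N x)))

/-- A subspace stable under the scaling of the variables by `2` is homogeneous. -/
theorem dia_stable [CharZero F] (T : Submodule F (FA F X))
    (h2 : ∀ t ∈ T, dia (fun k => (2 : F) ^ k) t ∈ T) (t : FA F X) (ht : t ∈ T) (c : ℕ → F) :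
    dia c t ∈ T := by
  obtain ⟨D, hD⟩ := exists_Lo t
  induction D generalizing t c with
  | zero =>
    have : t = 0 := by simpa [Lo] using hD
    simp [this]
  | succ D ih =>
    let ψ : FA F X →ₗ[F] FA F X := dia (fun k => (2 : F) ^ k) - (2 : F) ^ D • LinearMap.id
    have hψ : ∀ w, ψ (mon F w) = ((2 : F) ^ dg w - 2 ^ D) • mon F w := fun w => by
      simp [ψ, dia_mon, sub_smul]
    have a1 : ψ t ∈ T := T.sub_mem (h2 t ht) (T.smul_mem _ ht)
    have a2 : ψ t ∈ Lo F X D := by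
      refine span_ind ψ ?_ hD
      rintro _ ⟨s, hs, rfl⟩
      rw [hψ]
      by_cases h : dg s = D
      · simp [h]
      · exact Submodule.smul_mem _ _ (mon_Lo (by have : dg s < D + 1 := hs; omega))
    have a3 := ih _ a1 (fun k => (c k - c D) / (2 ^ k - 2 ^ D)) a2
    have a4 : (dia (fun k => (c k - c D) / (2 ^ k - 2 ^ D)) ∘ₗ ψ + c D • LinearMap.id - dia c :
        FA F X →ₗ[F] FA F X) t ∈ (⊥ : Submodule F (FA F X)) := map_ind _ (fun w => by
      simp only [LinearMap.sub_apply, LinearMap.add_apply, LinearMap.comp_apply, hψ, map_smul,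
        dia_mon, LinearMap.smul_apply, LinearMap.id_apply, smul_smul, ← add_smul, ← sub_smul,
        Submodule.mem_bot]
      by_cases h : dg w = D
      · simp [h]
      · have : (2 : F) ^ dg w - 2 ^ D ≠ 0 := fun e => h (by
          have e' : ((2 ^ dg w : ℕ) : F) = ((2 ^ D : ℕ) : F) := by
            push_cast; exact sub_eq_zero.1 e
          exact Nat.pow_right_injective le_rfl (Nat.cast_injective e'))
        rw [mul_div_cancel₀ _ this]; simp) t
    have a5 : dia c t = dia (fun k => (c k - c D) / (2 ^ k - 2 ^ D)) (ψ t) + c D • t :=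
      (sub_eq_zero.1 a4).symm
    rw [a5]
    exact T.add_mem a3 (T.smul_mem _ ht)

variable {I : Set (FA F ℕ)}

theorem hi_T [CharZero F] (N : ℕ) {t : FA F X} (ht : t ∈ idealGen (TVal I X)) :
    hi N t ∈ idealGen (TVal I X) := by
  refine dia_stable _ (fun t ht => ?_) t ht _
  let φ : X → FA F X := fun x => (2 : F) • FreeNonUnitalNonAssocAlgebra.of F x
  have key : ∀ w : FreeMagma X, evf φ (mon F w) = (2 : F) ^ dg w • mon F w := fun w => by
    induction w with
    | ih1 x => rw [mon_of, FreeNonUnitalNonAssocAlgebra.lift_of_apply, dg_of, pow_one]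
    | ih2 s t hs ht =>
      rw [mon_mul, map_mul, hs, ht, dg_mul, pow_add, smul_mul_assoc, mul_smul_comm, smul_smul]
  let f : FA F X →ₗ[F] FA F X := nl (evf φ)
  have hf : ∀ u, f u = evf φ u := fun _ => rfl
  have : (dia (fun k => (2 : F) ^ k) - f : FA F X →ₗ[F] FA F X) t ∈
      (⊥ : Submodule F (FA F X)) :=
    map_ind _ (fun w => by rw [LinearMap.sub_apply, dia_mon, hf, key]; simp) t
  rw [show dia (fun k => (2 : F) ^ k) t = evf φ t from sub_eq_zero.1 this]
  exact evf_idealGen φ ht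

variable (I X) in
/-- In rank `X`, all bracketings of a word of length at least `N` agree modulo `I`. -/
def EA (N : ℕ) : Prop := ∀ s t : FreeMagma X, leaves s = leaves t → N ≤ (leaves s).length →
  mon F s - mon F t ∈ idealGen (TVal I X)

theorem TVal_mono {I I' : Set (FA F ℕ)} (h : I ⊆ I') : TVal I X ⊆ TVal I' X := by
  rintro _ ⟨f, hf, φ, rfl⟩
  exact ⟨f, h hf, φ, rfl⟩

theorem key [CharZero F] {N : ℕ} (hN : EA X I N) {t : FA F X}
    (ht : t ∈ idealGen (TVal (insert (asc F) I) X)) : hi N t ∈ idealGen (TVal I X) := by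
  let D : Submodule F (FA F X) :=
    Submodule.span F {g | ∃ s t : FreeMagma X, leaves s = leaves t ∧ g = mon F s - mon F t}
  have hD : IsIdeal D := isIdeal_of_mon fun w y hy => by
    refine ⟨span_ind (LinearMap.mulLeft F (mon F w)) ?_ hy,
      span_ind (LinearMap.mulRight F (mon F w)) ?_ hy⟩
    · rintro _ ⟨s, t, e, rfl⟩
      exact Submodule.subset_span ⟨w * s, w * t, by simp [leaves_mul, e],
        by simp [mon_mul, mul_sub]⟩
    · rintro _ ⟨s, t, e, rfl⟩
      exact Submodule.subset_span ⟨s * w, t * w, by simp [leaves_mul, e],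
        by simp [mon_mul, sub_mul]⟩
  have hasc : ∀ a b c : FA F X, a * b * c - a * (b * c) ∈ D := fun a b c => by
    refine map_ind (LinearMap.mulRight F c ∘ₗ LinearMap.mulRight F b -
      LinearMap.mulRight F (b * c)) (fun s => ?_) a
    refine map_ind (LinearMap.mulRight F c ∘ₗ LinearMap.mulLeft F (mon F s) -
      LinearMap.mulLeft F (mon F s) ∘ₗ LinearMap.mulRight F c) (fun t => ?_) b
    refine map_ind (LinearMap.mulLeft F (mon F s * mon F t) -
      LinearMap.mulLeft F (mon F s) ∘ₗ LinearMap.mulLeft F (mon F t)) (fun u => ?_) c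
    exact Submodule.subset_span ⟨s * t * u, s * (t * u), by simp [leaves_mul],
      by simp [mon_mul]⟩
  have h1 : idealGen (TVal (insert (asc F) I) X) ≤ idealGen (TVal I X) ⊔ D := by
    refine idealGen_le (isIdeal_sup (isIdeal_idealGen _) hD) ?_
    rintro _ ⟨f, rfl | hf, φ, rfl⟩
    · refine Submodule.mem_sup_right ?_
      simpa [asc, mon_mul, mon_of] using hasc (φ 0) (φ 1) (φ 2)
    · exact Submodule.mem_sup_left (subset_idealGen _ ⟨f, hf, φ, rfl⟩)
  obtain ⟨a, ha, d, hd, rfl⟩ := Submodule.mem_sup.1 (h1 ht)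
  rw [map_add]
  refine Submodule.add_mem _ (hi_T N ha) (span_ind _ ?_ hd)
  rintro _ ⟨s, t, e, rfl⟩
  have e' : dg t = dg s := by rw [dg, dg, e]
  rw [map_sub, hi_mon, hi_mon, e']
  split_ifs with h
  · exact hN s t e h
  · simp

/-- Rebracketing: a subspace that contains the identities and is stable under multiplication by
short monomials is an ideal. -/
theorem isIdeal_of_short {N : ℕ} (hN : EA X I N) {W : Submodule F (FA F X)}
    (hT : idealGen (TVal I X) ≤ W)
    (h : ∀ p ∈ Lo F X (N + 2), ∀ y ∈ W, p * y ∈ W ∧ y * p ∈ W) : IsIdeal W := by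
  have hl : ∀ l : List X, ∃ f : FA F X →ₗ[F] FA F X, (∀ y ∈ W, f y ∈ W) ∧
      ∀ w, ∃ w', f (mon F w) = mon F w' ∧ leaves w' = l ++ leaves w := fun l => by
    induction l with
    | nil => exact ⟨LinearMap.id, fun _ h => h, fun w => ⟨w, rfl, rfl⟩⟩
    | cons x l ih =>
      obtain ⟨f, h1, h2⟩ := ih
      refine ⟨LinearMap.mulLeft F (mon F (.of x)) ∘ₗ f,
        fun y hy => (h _ (mon_Lo (by rw [dg_of]; omega)) _ (h1 y hy)).1, fun w => ?_⟩
      obtain ⟨w', e1, e2⟩ := h2 w
      exact ⟨.of x * w', by simp [e1, mon_mul], by rw [leaves_mul, e2]; rfl⟩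
  have hr : ∀ l : List X, ∃ f : FA F X →ₗ[F] FA F X, (∀ y ∈ W, f y ∈ W) ∧
      ∀ w, ∃ w', f (mon F w) = mon F w' ∧ leaves w' = leaves w ++ l := fun l => by
    induction l with
    | nil => exact ⟨LinearMap.id, fun _ h => h, fun w => ⟨w, rfl, by simp⟩⟩
    | cons x l ih =>
      obtain ⟨f, h1, h2⟩ := ih
      refine ⟨f ∘ₗ LinearMap.mulRight F (mon F (.of x)),
        fun y hy => h1 _ (h _ (mon_Lo (by rw [dg_of]; omega)) _ hy).2, fun w => ?_⟩
      obtain ⟨w', e1, e2⟩ := h2 (w * .of x)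
      exact ⟨w', by simp [← e1, mon_mul], by rw [e2, leaves_mul]; simp [leaves]⟩
  refine isIdeal_of_mon fun m y hy => ?_
  by_cases hm : dg m < N + 2
  · exact h _ (mon_Lo hm) y hy
  obtain ⟨f, f1, f2⟩ := hl (leaves m)
  obtain ⟨g, g1, g2⟩ := hr (leaves m)
  have a1 : (LinearMap.mulLeft F (mon F m) - f) y ∈ idealGen (TVal I X) := map_ind _ (fun w => by
    obtain ⟨w', e1, e2⟩ := f2 w
    rw [LinearMap.sub_apply, LinearMap.mulLeft_apply, e1, ← mon_mul]
    exact hN _ _ e2.symm (show N ≤ dg (m * w) by rw [dg_mul]; omega)) y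
  have a2 : (LinearMap.mulRight F (mon F m) - g) y ∈ idealGen (TVal I X) := map_ind _ (fun w => by
    obtain ⟨w', e1, e2⟩ := g2 w
    rw [LinearMap.sub_apply, LinearMap.mulRight_apply, e1, ← mon_mul]
    exact hN _ _ e2.symm (show N ≤ dg (w * m) by rw [dg_mul]; omega)) y
  exact ⟨by simpa using W.add_mem (hT a1) (f1 y hy), by simpa using W.add_mem (hT a2) (g1 y hy)⟩

theorem rfd_insert [CharZero F] (H : ∀ n, ∃ N, EA (Fin n) I N) (h : IsRFDVariety I) :
    IsRFDVariety (insert (asc F) I) := by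
  classical
  intro n R a ha
  obtain ⟨N, hN⟩ := H n
  obtain ⟨R0, hR0⟩ : (idealGen (TVal (insert (asc F) I) (Fin n)) ⊓ Lo F (Fin n) N).FG :=
    (Lo_fg N).of_le inf_le_right
  have hT : idealGen (TVal I (Fin n)) ≤ idealGen (TVal (insert (asc F) I) (Fin n)) :=
    idealGen_mono (TVal_mono (Set.subset_insert _ _))
  have e : idealGen (TVal I (Fin n) ∪ ↑(R ∪ R0)) =
      idealGen (TVal (insert (asc F) I) (Fin n) ∪ ↑R) := by
    rw [Finset.coe_union, idealGen_union, idealGen_union, idealGen_union]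
    refine le_antisymm (sup_le (le_sup_of_le_left hT) (sup_le le_sup_right (le_sup_of_le_left
      (idealGen_le (isIdeal_idealGen _) fun x hx => (hR0.le (Submodule.subset_span hx)).1))))
      (sup_le (fun t ht => ?_) (le_sup_of_le_right le_sup_left))
    rw [← add_sub_cancel (hi N t) t]
    refine Submodule.add_mem_sup (key hN ht) (Submodule.mem_sup_right ?_)
    exact (Submodule.span_le.2 (subset_idealGen _)) (hR0.ge
      ⟨Submodule.sub_mem _ ht (hT (key hN ht)), sub_hi_mem N t⟩)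
  simpa only [e] using h n (R ∪ R0) a (e ▸ ha)

/-- Multiples of `U0` by `j` short factors. -/
noncomputable def Uj (P U0 : Submodule F (FA F X)) : ℕ → Submodule F (FA F X)
  | 0 => U0
  | j + 1 => Submodule.map₂ (LinearMap.mul F _) P (Uj P U0 j) ⊔
      Submodule.map₂ (LinearMap.mul F _) (Uj P U0 j) P

theorem Uj_fg {P U0 : Submodule F (FA F X)} (hP : P.FG) (h0 : U0.FG) (j : ℕ) : (Uj P U0 j).FG := by
  induction j with
  | zero => exact h0
  | succ j ih => exact (hP.map₂ _ ih).sup (ih.map₂ _ hP)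

theorem Uj_le {P U0 K : Submodule F (FA F X)} (hK : IsIdeal K) (h0 : U0 ≤ K) (j : ℕ) :
    Uj P U0 j ≤ K ⊓ Hi F X j := by
  induction j with
  | zero => exact le_inf h0 fun x _ => Hi_anti (by omega) (mem_Hi_one x)
  | succ j ih =>
    exact sup_le (Submodule.map₂_le.2 fun p _ u hu => ⟨(hK p u (ih hu).1).1,
        Hi_anti (by omega) (Hi_mul (mem_Hi_one p) (ih hu).2)⟩)
      (Submodule.map₂_le.2 fun u hu p _ => ⟨(hK p u (ih hu).1).2, Hi_mul (ih hu).2 (mem_Hi_one p)⟩)

theorem rfd_of_insert [CharZero F] (H : ∀ n, ∃ N, EA (Fin n) I N)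
    (h : IsRFDVariety (insert (asc F) I)) : IsRFDVariety I := by
  intro n R a ha
  obtain ⟨N, hN⟩ := H n
  set K := idealGen (TVal I (Fin n) ∪ ↑R) with hK
  let U := Uj (Lo F (Fin n) (N + 2)) (Submodule.span F (R : Set (FA F (Fin n))))
  have Ufg : ∀ j, (U j).FG := Uj_fg (Lo_fg _) ⟨R, rfl⟩
  have Ule : ∀ j, U j ≤ K ⊓ Hi F (Fin n) j := Uj_le (isIdeal_idealGen _)
    (Submodule.span_le.2 fun x hx => subset_idealGen _ (Or.inr hx))
  obtain ⟨R', hR'⟩ := Ufg N
  set K' := idealGen (TVal (insert (asc F) I) (Fin n) ∪ ↑R') with hK'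
  have hT : idealGen (TVal I (Fin n)) ≤ K' :=
    idealGen_mono ((TVal_mono (Set.subset_insert _ _)).trans Set.subset_union_left)
  have hTK : idealGen (TVal I (Fin n)) ≤ K := idealGen_mono Set.subset_union_left
  have hR : idealGen (R' : Set (FA F (Fin n))) ≤ K ⊓ Hi F (Fin n) N :=
    le_inf (idealGen_le (isIdeal_idealGen _) fun x hx =>
        (Ule N (hR'.le (Submodule.subset_span hx))).1)
      (idealGen_le (isIdeal_Hi N) fun x hx => (Ule N (hR'.le (Submodule.subset_span hx))).2)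
  have hR2 : idealGen (R' : Set (FA F (Fin n))) ≤ K' := idealGen_mono Set.subset_union_right
  have hU : U N ≤ K' := hR' ▸ Submodule.span_le.2 fun x hx => subset_idealGen _ (Or.inr hx)
  have b1 : K' ⊓ Hi F (Fin n) N ≤ K := fun x hx => by
    obtain ⟨t, ht, r, hr, rfl⟩ := Submodule.mem_sup.1 ((idealGen_union _ _).le hx.1)
    have : t ∈ Hi F (Fin n) N := by simpa using Submodule.sub_mem _ hx.2 (hR hr).2
    exact K.add_mem (hTK (hi_eq this ▸ key hN ht)) (hR hr).1
  have b2 : K' ≤ (K' ⊓ Hi F (Fin n) N) ⊔ Lo F (Fin n) N := fun x hx => by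
    obtain ⟨t, ht, r, hr, rfl⟩ := Submodule.mem_sup.1 ((idealGen_union _ _).le hx)
    rw [show t + r = (hi N t + r) + (t - hi N t) by abel]
    exact Submodule.add_mem_sup ⟨K'.add_mem (hT (key hN ht)) (hR2 hr),
      Submodule.add_mem _ (hi_mem N t) (hR hr).2⟩ (sub_hi_mem N t)
  let V : Submodule F (FA F (Fin n)) := ⨆ j : Fin (N + 1), U j
  have hV : ∀ j, j ≤ N → U j ≤ K' ⊔ V := fun j hj =>
    le_sup_of_le_right (le_iSup (fun j : Fin (N + 1) => U j) ⟨j, by omega⟩)
  have b3 : K ≤ K' ⊔ V := by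
    refine idealGen_le (isIdeal_of_short hN (le_sup_of_le_left hT) fun p hp y hy => ?_)
      (Set.union_subset (fun x hx => Submodule.mem_sup_left (hT (subset_idealGen _ hx)))
        fun x hx => hV 0 (by omega) (Submodule.subset_span hx))
    have : K' ⊔ V ≤ (K' ⊔ V).comap (LinearMap.mulLeft F p) ⊓
        (K' ⊔ V).comap (LinearMap.mulRight F p) := by
      have c1 : K' ≤ (K' ⊔ V).comap (LinearMap.mulLeft F p) ⊓
          (K' ⊔ V).comap (LinearMap.mulRight F p) := fun u hu =>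
        ⟨Submodule.mem_sup_left (isIdeal_idealGen _ p u hu).1,
          Submodule.mem_sup_left (isIdeal_idealGen _ p u hu).2⟩
      refine sup_le c1 (iSup_le fun j => ?_)
      by_cases hj : (j : ℕ) = N
      · rw [hj]; exact hU.trans c1
      · have := j.2
        exact fun u hu => ⟨hV (j + 1) (by omega)
            (Submodule.mem_sup_left (Submodule.apply_mem_map₂ _ hp hu)),
          hV (j + 1) (by omega) (Submodule.mem_sup_right (Submodule.apply_mem_map₂ _ hu hp))⟩
    exact this hy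
  let ρ : FA F (Fin n) ⊕ FA F (Fin n) → FA F (Fin n) →ₗ[F] FA F (Fin n) :=
    Sum.elim (LinearMap.mulLeft F) (LinearMap.mulRight F)
  have hρ : ∀ J : Submodule F (FA F (Fin n)), IsIdeal J ↔ ∀ t, ∀ x ∈ J, ρ t x ∈ J := fun J =>
    ⟨fun h t x hx => by
      rcases t with t | t
      exacts [(h t x hx).1, (h t x hx).2], fun h t x hx => ⟨h (.inl t) x hx, h (.inr t) x hx⟩⟩
  obtain ⟨J, j1, j2, j3, j4⟩ := closed_of_fd ρ (K' ⊓ Hi F (Fin n) N) K b1 (Lo F (Fin n) N ⊔ V)
    ((Lo_fg N).sup (Submodule.fg_iSup _ fun j => Ufg j))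
    (b3.trans (by rw [← sup_assoc]; exact sup_le_sup_right b2 _))
    ((hρ K).1 (isIdeal_idealGen _)) (fun b hb => by
      by_cases hb' : b ∈ K'
      · exact ⟨Hi F (Fin n) N, inf_le_right, (hρ _).1 (isIdeal_Hi N), Hi_cofg N,
          fun h => hb ⟨hb', h⟩⟩
      · obtain ⟨J, j1, j2, j3, j4⟩ := h n R' b hb'
        exact ⟨J, inf_le_left.trans j2, (hρ J).1 j1, j3, j4⟩) a ha
  exact ⟨J, (hρ J).2 j2, j1, j3, j4⟩

theorem asc_mem : asc F ∈ idealGen (TVal (insert (asc F) I) ℕ) :=
  subset_idealGen _ ⟨asc F, Set.mem_insert _ _, FreeNonUnitalNonAssocAlgebra.of F, by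
    simp [asc, mon_mul, mon_of]⟩

theorem sat_insert {A : Type} [Ring A] [Algebra F A] (S : Set A) :
    Sat (insert (asc F) I) S ↔ Sat I S :=
  ⟨fun h f hf => h f (Set.mem_insert_of_mem _ hf), fun h f hf φ hφ => by
    rcases hf with rfl | hf
    · simp [asc, mon_mul, mon_of, mul_assoc]
    · exact h f hf φ hφ⟩

theorem ids_mono {Λ : Type} [Ring Λ] [Algebra F Λ] {ε : Λ →ₐ[F] F} {n : ℕ} (H : Ids ε n) (k : ℕ) :
    Ids ε (k + n) := by
  have key : ∀ (x : Λ) (D : ℕ) (p q : MvPolynomial ℕ F), (∀ w, Ev x w D p = 0) →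
      ∀ w, Ev x w D (q * p) = 0 := fun x D p q hp w =>
    Ev_mul_mem x D ⊥ (by simp) (fun _ => True) (fun _ _ _ => trivial) p (fun w _ => hp w) q w trivial
  refine ⟨fun x hx w => ?_, fun x hx w => ?_, fun x hx w => ?_⟩
  · rw [pow_add]; exact key x 2 _ _ (H.g1 x hx) w
  · rw [pow_add]; exact key x 2 _ _ (H.g2 x hx) w
  · rw [pow_add, mul_assoc]; exact key x 3 _ _ (H.g3 x hx) w

theorem iter_Hi (g : FA F X → FA F X) (hg : ∀ j, ∀ u ∈ Hi F X j, g u ∈ Hi F X (j + 1)) (n : ℕ)
    (u : FA F X) : g^[n] u ∈ Hi F X n := by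
  induction n with
  | zero => exact Hi_anti (by omega) (mem_Hi_one _)
  | succ n ih => rw [Function.iterate_succ_apply']; exact hg n _ ih

theorem three_of_insert [CharZero F] {N : ℕ} (hN : EA (Fin 4) I N) {n : ℕ} (hn : N ≤ n)
    (H : Three (insert (asc F) I) n) : Three I n := by
  intro x y z t
  let σ : ℕ → FA F (Fin 4) := fun i =>
    if h : i < 4 then FreeNonUnitalNonAssocAlgebra.of F ⟨i, h⟩ else 0
  let τ : Fin 4 → FA F ℕ := ![x, y, z, t]
  let ν : FA F ℕ →ₙₐ[F] FA F ℕ := (evf τ).comp (evf σ)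
  have tr : ∀ e ∈ idealGen (TVal (insert (asc F) I) ℕ), e ∈ Hi F ℕ n →
      ν e ∈ idealGen (TVal I ℕ) := fun e h1 h2 =>
    evf_idealGen τ (hi_eq (Hi_anti hn (evf_Hi σ h2)) ▸ key hN (evf_idealGen σ h1))
  have ml : ∀ k a u, ν ((a * ·)^[k] u) = (ν a * ·)^[k] (ν u) := fun k a u =>
    Function.Semiconj.iterate_right (f := ν) (fun u => map_mul ν a u) k u
  have mr : ∀ k a u, ν ((· * a)^[k] u) = (· * ν a)^[k] (ν u) := fun k a u =>
    Function.Semiconj.iterate_right (f := ν) (fun u => map_mul ν u a) k u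
  have mc : ∀ k a u, ν (cm k a u) = cm k (ν a) (ν u) := fun k a u =>
    Function.Semiconj.iterate_right (f := ν) (ga := fun v => a * v - v * a)
      (gb := fun v => ν a * v - v * ν a) (fun u => by rw [map_sub, map_mul, map_mul]) k u
  have e0 : ν (FreeNonUnitalNonAssocAlgebra.of F 0) = x := by simp [ν, σ, τ]
  have e1 : ν (FreeNonUnitalNonAssocAlgebra.of F 1) = y := by simp [ν, σ, τ]
  have e2 : ν (FreeNonUnitalNonAssocAlgebra.of F 2) = z := by simp [ν, σ, τ]
  have e3 : ν (FreeNonUnitalNonAssocAlgebra.of F 3) = t := by simp [ν, σ, τ]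
  have il : ∀ a u : FA F ℕ, (a * ·)^[n] u ∈ Hi F ℕ n := fun a =>
    iter_Hi _ (fun j u hu => Hi_anti (by omega) (Hi_mul (mem_Hi_one a) hu)) n
  have ir : ∀ a u : FA F ℕ, (· * a)^[n] u ∈ Hi F ℕ n := fun a =>
    iter_Hi _ (fun j u hu => Hi_mul hu (mem_Hi_one a)) n
  obtain ⟨a, b, c⟩ := H (FreeNonUnitalNonAssocAlgebra.of F 0)
    (FreeNonUnitalNonAssocAlgebra.of F 1) (FreeNonUnitalNonAssocAlgebra.of F 2)
    (FreeNonUnitalNonAssocAlgebra.of F 3)
  have a' := tr _ a (il _ _)
  have b' := tr _ b (ir _ _)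
  have c' := tr _ c (isIdeal_Hi n _ _ (isIdeal_Hi n _ _ (il _ _)).1).2
  simp only [ml, mr, mc, map_mul, e0, e1, e2, e3] at a' b' c'
  exact ⟨a', b', c'⟩

theorem three_iff [CharZero F] (H : ∀ n, ∃ N, EA (Fin n) I N) :
    (∃ n, 1 ≤ n ∧ Three (insert (asc F) I) n) ↔ ∃ n, 1 ≤ n ∧ Three I n := by
  constructor
  · rintro ⟨n, hn, h⟩
    obtain ⟨N, hN⟩ := H 4
    exact ⟨N + n, by omega, three_of_insert hN (by omega)
      (three_of_ids asc_mem (ids_mono (ids_of_three hn h ℕ) N)).2⟩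
  · rintro ⟨n, hn, h⟩
    have hT : idealGen (TVal I ℕ) ≤ idealGen (TVal (insert (asc F) I) ℕ) :=
      idealGen_mono (TVal_mono (Set.subset_insert _ _))
    exact ⟨n, hn, fun x y z t => ⟨hT (h x y z t).1, hT (h x y z t).2.1, hT (h x y z t).2.2⟩⟩

theorem rfd_iff [CharZero F] (H : ∀ n, ∃ N, EA (Fin n) I N) :
    IsRFDVariety I ↔ IsRFDVariety (insert (asc F) I) := ⟨rfd_insert H, rfd_of_insert H⟩

theorem rfd_iff_three [CharZero F] (H : ∀ n, ∃ N, EA (Fin n) I N) :
    IsRFDVariety I ↔ ∃ n, 1 ≤ n ∧ Three I n :=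
  (rfd_iff H).trans ((As.rfd_iff_three asc_mem).trans (three_iff H))

theorem classification [CharZero F] (H : ∀ n, ∃ N, EA (Fin n) I N) :
    IsRFDVariety I ↔ ¬ Sat I (Pat F ![1, 2, 0]) ∧ ¬ Sat I (Pat F ![0, 1, 2]) ∧
      ¬ Sat I (Pat F ![1, 2, 1]) ∧ ¬ Sat I (Pat F ![0, 1, 1, 1, 0]) := by
  simpa only [sat_insert] using (rfd_iff H).trans (As.classification asc_mem)

end Pool.Agent.Lib.MP_038c09_al.EvAs
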