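import Pool.Agent.Lib.MP_038c09_al.Defs

/-!
Finite representation type gives finite rank endomorphisms fixing a given finite-dimensional
subspace (linear compactness plus a descending chain argument).
-/

namespace Pool.Agent.Lib.MP_038c09_al

open TensorProduct

variable {F : Type} [Field F] {α A M : Type} [AddCommGroup A] [Module F A] [AddCommGroup M]
  [Module F M]

theorem exists_factor {E G H : Type} [AddCommGroup E] [Module F E] [AddCommGroup G] [Module F G]
    [AddCommGroup H] [Module F H] (q : E →ₗ[F] G) (l : E →ₗ[F] H)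
    (h : LinearMap.ker q ≤ LinearMap.ker l) : ∃ g : G →ₗ[F] H, ∀ x, g (q x) = l x := by
  obtain ⟨g, hg⟩ := LinearMap.exists_extend
    (((LinearMap.ker q).liftQ l h) ∘ₗ q.quotKerEquivRange.symm.toLinearMap)
  refine ⟨g, fun x => ?_⟩
  have := LinearMap.congr_fun hg ⟨q x, ⟨x, rfl⟩⟩
  simp only [LinearMap.comp_apply, Submodule.subtype_apply, LinearEquiv.coe_coe] at this
  rw [this, LinearMap.quotKerEquivRange_symm_apply_image]
  rfl

/-- linear compactness -/
theorem exists_global [Module.Finite F M] (P : α → Prop) (V : α → Submodule F A)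
    (N : α → Submodule F M) (U : Submodule F A) (j : U →ₗ[F] M)
    (H : ∀ W : Submodule F A, Module.Finite F W →
      ∃ h : A →ₗ[F] M, IsRepHom P (fun s => V s ⊓ W) N h ∧ h ∘ₗ U.subtype = j) :
    ∃ h : A →ₗ[F] M, IsRepHom P V N h ∧ h ∘ₗ U.subtype = j := by
  let lam : (A →ₗ[F] M) → (A ⊗[F] Module.Dual F M →ₗ[F] F) := fun h =>
    TensorProduct.lift ((Module.Dual.eval F M) ∘ₗ h)
  let E0 : Submodule F (A ⊗[F] Module.Dual F M) := Submodule.span F
    {y | ∃ s, P s ∧ ∃ v ∈ V s, ∃ c ∈ (N s).dualAnnihilator, y = v ⊗ₜ c}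
  have fin : ∀ y ∈ E0, ∃ W : Submodule F A, Module.Finite F W ∧
      ∀ h : A →ₗ[F] M, IsRepHom P (fun s => V s ⊓ W) N h → lam h y = 0 := by
    intro y hy
    induction hy using Submodule.span_induction with
    | mem y hy =>
      obtain ⟨s, hs, v, hv, c, hc, rfl⟩ := hy
      refine ⟨F ∙ v, inferInstance, fun h hh => ?_⟩
      have := hh s hs v ⟨hv, Submodule.mem_span_singleton_self v⟩
      simpa [lam] using (Submodule.mem_dualAnnihilator c).1 hc _ this
    | zero => exact ⟨⊥, inferInstance, fun h _ => map_zero _⟩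
    | add y z _ _ hy hz =>
      obtain ⟨W1, f1, h1⟩ := hy
      obtain ⟨W2, f2, h2⟩ := hz
      refine ⟨W1 ⊔ W2, inferInstance, fun h hh => ?_⟩
      rw [map_add, h1 h (fun s hs x hx => hh s hs x ⟨hx.1, Submodule.mem_sup_left hx.2⟩),
        h2 h (fun s hs x hx => hh s hs x ⟨hx.1, Submodule.mem_sup_right hx.2⟩), add_zero]
    | smul c y _ hy =>
      obtain ⟨W1, f1, h1⟩ := hy
      exact ⟨W1, f1, fun h hh => by rw [map_smul, h1 h hh, smul_zero]⟩
  let ι : U ⊗[F] Module.Dual F M →ₗ[F] A ⊗[F] Module.Dual F M := U.subtype.rTensor _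
  let lj : U ⊗[F] Module.Dual F M →ₗ[F] F := TensorProduct.lift ((Module.Dual.eval F M) ∘ₗ j)
  obtain ⟨g, hg⟩ := exists_factor (E0.mkQ ∘ₗ ι) lj (by
    intro x hx
    rw [LinearMap.mem_ker, LinearMap.comp_apply, Submodule.mkQ_apply,
      Submodule.Quotient.mk_eq_zero] at hx
    obtain ⟨W, hW, h1⟩ := fin _ hx
    obtain ⟨h, hh, rfl⟩ := H W hW
    have e : lam h ∘ₗ ι = lj := by
      ext u c
      simp [lam, ι, lj]
    rw [LinearMap.mem_ker, ← e]
    exact h1 h hh)
  let G : A →ₗ[F] M := (Module.evalEquiv F M).symm.toLinearMap ∘ₗ TensorProduct.curry (g ∘ₗ E0.mkQ)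
  have hG : ∀ v (c : Module.Dual F M), c (G v) = g (E0.mkQ (v ⊗ₜ c)) := by
    intro v c
    simp [G]
  refine ⟨G, fun s hs v hv => ?_, ?_⟩
  · rw [← Subspace.forall_mem_dualAnnihilator_apply_eq_zero_iff]
    intro c hc
    have : E0.mkQ (v ⊗ₜ c) = 0 := by
      rw [Submodule.mkQ_apply, Submodule.Quotient.mk_eq_zero]
      exact Submodule.subset_span ⟨s, hs, v, hv, c, hc, rfl⟩
    rw [hG, this, map_zero]
  · ext u
    apply (Module.evalEquiv F M).injective
    ext c
    have := hg (u ⊗ₜ c)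
    simp only [LinearMap.comp_apply, ι, lj, LinearMap.rTensor_tmul, TensorProduct.lift.tmul,
      Module.Dual.eval_apply] at this
    simpa [hG] using this

theorem finite_rank_of_finiteRepType {P : α → Prop} {le : α → α → Prop}
    (hP : FiniteRepType F P le) (V : α → Submodule F A) (hV : IsRep P le V)
    (U : Submodule F A) (hU : Module.Finite F U) :
    ∃ π : A →ₗ[F] A, Module.Finite F (LinearMap.range π) ∧ (∀ x ∈ U, π x = x) ∧
      ∀ r, P r → ∀ x ∈ V r, π x ∈ V r := by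
  obtain ⟨m, N, -, hN⟩ := hP
  let Φ : Submodule F A → Submodule F (U →ₗ[F] (Fin m → F)) := fun W =>
    { carrier := {j | ∃ h : A →ₗ[F] (Fin m → F),
        IsRepHom P (fun s => V s ⊓ W) N h ∧ h ∘ₗ U.subtype = j}
      add_mem' := by
        rintro _ _ ⟨h, h1, rfl⟩ ⟨h', h1', rfl⟩
        exact ⟨h + h', fun s hs x hx => (N s).add_mem (h1 s hs x hx) (h1' s hs x hx), rfl⟩
      zero_mem' := ⟨0, fun s _ _ _ => (N s).zero_mem, rfl⟩
      smul_mem' := by
        rintro c _ ⟨h, h1, rfl⟩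
        exact ⟨c • h, fun s hs x hx => (N s).smul_mem c (h1 s hs x hx), rfl⟩ }
  have hanti : ∀ W W', W ≤ W' → Φ W' ≤ Φ W := by
    rintro W W' hW _ ⟨h, h1, rfl⟩
    exact ⟨h, fun s hs x hx => h1 s hs x ⟨hx.1, hW hx.2⟩, rfl⟩
  obtain ⟨W, hW⟩ := exists_minimalFor_of_wellFoundedLT
    (fun W : Submodule F A => Module.Finite F W ∧ U ≤ W) Φ ⟨U, hU, le_rfl⟩
  obtain ⟨⟨hWf, hUW⟩, hmin⟩ := hW
  have hall : ∀ W' : Submodule F A, Module.Finite F W' → Φ W ≤ Φ W' := fun W' hW' =>
    (hmin (j := W ⊔ W') ⟨inferInstance, hUW.trans le_sup_left⟩ (hanti _ _ le_sup_left)).trans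
      (hanti _ _ le_sup_right)
  let e : W ≃ₗ[F] (Fin (Module.finrank F W) → F) := (Module.finBasis F W).equivFun
  let inc : (Fin (Module.finrank F W) → F) →ₗ[F] A := W.subtype ∘ₗ e.symm.toLinearMap
  obtain ⟨p, hp⟩ := LinearMap.exists_extend e.toLinearMap
  have hp' : ∀ x : W, p x = e x := fun x => LinearMap.congr_fun hp x
  obtain ⟨r, f, g, hfg, hsum⟩ := hN _ (fun s => (V s).comap inc)
    (fun s t hs ht hst => Submodule.comap_mono (hV s t hs ht hst))
  have hglob : ∀ i, ∃ h : A →ₗ[F] (Fin m → F), IsRepHom P V N h ∧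
      h ∘ₗ U.subtype = (f i ∘ₗ p) ∘ₗ U.subtype := by
    intro i
    refine exists_global P V N U _ fun W' hW' => hall W' hW' ⟨f i ∘ₗ p, fun s hs x hx => ?_, rfl⟩
    refine (hfg i).1 s hs _ ?_
    have := hp' ⟨x, hx.2⟩
    simp only at this
    rw [this, Submodule.mem_comap]
    simpa [inc] using hx.1
  choose h hh1 hh2 using hglob
  refine ⟨inc ∘ₗ ∑ i, g i ∘ₗ h i, ?_, fun x hx => ?_, fun s hs x hx => ?_⟩
  · refine Submodule.finiteDimensional_of_le (S₂ := LinearMap.range inc) ?_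
    rintro _ ⟨x, rfl⟩
    exact ⟨_, rfl⟩
  · have e1 : ∀ i, h i x = f i (e ⟨x, hUW hx⟩) := fun i => by
      have := LinearMap.congr_fun (hh2 i) ⟨x, hx⟩
      simp only [LinearMap.comp_apply, Submodule.subtype_apply] at this
      rw [this, ← hp']
    have e2 := LinearMap.congr_fun hsum (e ⟨x, hUW hx⟩)
    simp only [LinearMap.comp_apply, LinearMap.coe_sum, Finset.sum_apply, e1] at e2 ⊢
    rw [e2]
    simp [inc]
  · simp only [LinearMap.comp_apply, LinearMap.coe_sum, Finset.sum_apply, map_sum]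
    exact Submodule.sum_mem _ fun i _ => (hfg i).2 s hs _ (hh1 i s hs x hx)

end Pool.Agent.Lib.MP_038c09_al
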