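import Pool.Agent.Lib.MP_038c09_al.Pos
import Pool.Agent.Lib.MP_038c09_al.FinType

namespace Pool.Agent.Lib.MP_038c09_al.FiniteTypeOld

open Pool.Agent.Lib.MP_038c09_al

/-- Let a variety be defined by finitely many identities `α (s t) + β (t s) = 0` with `s t` a
multilinear monomial.  Preorder the non-variable subterms of all the `s`, `t` by `Below`.  If this
preordered set has finite representation type, or is a union of two chains, then the variety is an
RFD-variety. -/
theorem result (F : Type) [Field F] (D : Finset (F × F × FreeMagma ℕ × FreeMagma ℕ))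
    (hD : ∀ d ∈ D, Multilinear (d.2.2.1 * d.2.2.2))
    (h : FiniteRepType F (Psub D) (Below (binId '' (D : Set (F × F × FreeMagma ℕ × FreeMagma ℕ)))) ∨
      ∃ col : FreeMagma ℕ → Bool, ∀ s t, Psub D s → Psub D t → col s = col t →
        Below (binId '' (D : Set (F × F × FreeMagma ℕ × FreeMagma ℕ))) s t ∨
        Below (binId '' (D : Set (F × F × FreeMagma ℕ × FreeMagma ℕ))) t s) :
    IsRFDVariety (binId '' (D : Set (F × F × FreeMagma ℕ × FreeMagma ℕ))) := by
  rcases h with h | ⟨col, h⟩
  · exact rfd_of_maps D hD fun n K hK hT U hU =>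
      finite_rank_of_finiteRepType h _ (fun s t _ _ hst => val_le_of_below _ K hK hT hst) U hU
  · exact rfd_of_two_chains D hD col fun n K hK hT s t hs ht hc =>
      (h s t hs ht hc).imp (val_le_of_below _ K hK hT) (val_le_of_below _ K hK hT)

end Pool.Agent.Lib.MP_038c09_al.FiniteTypeOld
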