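import Pool.Agent.Lib.MP_038c09_al.Neg

namespace Pool.Agent.Lib.MP_038c09_al.IntersectionOld

open Pool.Agent.Lib.MP_038c09_al

/-- Each of the four multilinear monomial identities `wmon i = 0` defines an RFD-variety, but the
four together do not: the class of RFD-varieties is not closed under finite intersections. -/
theorem result (F : Type) [Field F] :
    (∀ i : Fin 4, IsRFDVariety {mon F (wmon i)}) ∧
      ¬ IsRFDVariety (Set.range fun i : Fin 4 => mon F (wmon i)) :=
  ⟨single_rfd, not_rfd⟩

end Pool.Agent.Lib.MP_038c09_al.IntersectionOld
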