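import Pool.Agent.Lib.MP_038c09_al.Defs

/-! The identities of a Lie algebra. -/

set_option autoImplicit false

namespace Pool.Agent.Lib.MP_038c09_al

/-- All polynomial identities of the Lie algebra `g`, the product being the bracket. -/
def Ids (F : Type) [Field F] (g : Type) [LieRing g] [LieAlgebra F g] : Set (FA F ℕ) :=
  {f | ∀ φ : ℕ → CommutatorRing g, FreeNonUnitalNonAssocAlgebra.lift F φ f = 0}

end Pool.Agent.Lib.MP_038c09_al
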