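import Pool.Agent.Lib.MP_038c09_al.LieRoot

/-! Extension of scalars and the classification for semisimple Lie algebras. -/

set_option autoImplicit false

open LieAlgebra LieModule LieAlgebra.IsKilling Module TensorProduct

namespace Pool.Agent.Lib.MP_038c09_al.LieC

variable {F g : Type} [Field F] [LieRing g] [LieAlgebra F g] [FiniteDimensional F g]

theorem killing_ext (K : Type) [Field K] [Algebra F K] [IsKilling F g] : IsKilling K (K ⊗[F] g) := by
  classical
  let b := Module.finBasis F g
  have h1 := (LinearMap.BilinForm.nondegenerate_iff_det_ne_zero b).1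
    (killingForm_nondegenerate F g)
  have h2 : (killingForm K (K ⊗[F] g)).Nondegenerate := by
    rw [LinearMap.BilinForm.nondegenerate_iff_det_ne_zero (Algebra.TensorProduct.basis K b)]
    have : LinearMap.BilinForm.toMatrix (Algebra.TensorProduct.basis K b)
        (killingForm K (K ⊗[F] g)) = (algebraMap F K).mapMatrix
          (LinearMap.BilinForm.toMatrix b (killingForm F g)) := by
      ext i j
      simp [killingForm, Algebra.TensorProduct.basis_apply, Algebra.algebraMap_eq_smul_one]
    rw [this, ← RingHom.map_det]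
    exact (map_ne_zero _).2 h1
  refine ⟨(LieSubmodule.eq_bot_iff _).2 fun x hx => h2.2 x fun y => ?_⟩
  exact (LieIdeal.mem_killingCompl K _ ⊤).1 hx y trivial

theorem ids_ext [Infinite F] (K : Type) [CommRing K] [Algebra F K] :
    Ids F g ⊆ Ids F (K ⊗[F] g) := by
  intro f hf
  rw [mem_Ids] at hf ⊢
  intro φ
  let b := Module.finBasis F g
  let A := MvPolynomial (ℕ × Fin (finrank F g)) F
  let ξ : ℕ → A ⊗[F] g := fun n => ∑ i, (MvPolynomial.X (n, i) : A) ⊗ₜ[F] b i
  have key : ∀ (B : Type) [CommRing B] [Algebra F B] (θ : A →ₐ[F] B),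
      ExtendScalars.map θ (LieHom.id : g →ₗ⁅F⁆ g) (ev F ξ f) =
        ev F (fun n => ∑ i, θ (MvPolynomial.X (n, i)) ⊗ₜ[F] b i) f := fun B _ _ θ => by
    refine (ev_hom (ExtendScalars.map θ (LieHom.id : g →ₗ⁅F⁆ g)).toLinearMap
      (fun x y => LieHom.map_lie _ x y) ξ f).trans ?_
    congr 2
    ext n
    simp [ξ]
  have h0 : ev F ξ f = 0 := by
    refine (Algebra.TensorProduct.basis A b).repr.injective (Finsupp.ext fun i => ?_)
    rw [map_zero, Finsupp.zero_apply]
    refine MvPolynomial.funext fun a => ?_
    have h1 := key F (MvPolynomial.aeval a)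
    have h2 := ev_hom (F := F) (M := g) (M' := F ⊗[F] g) (TensorProduct.mk F F g 1)
      (fun x y => by simp) (fun n => ∑ i, a (n, i) • b i) f
    rw [hf, map_zero] at h2
    have h3 : (fun n => ∑ i, (MvPolynomial.aeval a : A →ₐ[F] F) (MvPolynomial.X (n, i)) ⊗ₜ[F] b i) =
        fun n => TensorProduct.mk F F g 1 (∑ i, a (n, i) • b i) := by
      ext n
      simp [TensorProduct.smul_tmul']
    rw [h3, ← h2] at h1
    have h4 : ∀ z : A ⊗[F] g, MvPolynomial.eval a ((Algebra.TensorProduct.basis A b).repr z i) =
        (Algebra.TensorProduct.basis F b).repr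
          (ExtendScalars.map (MvPolynomial.aeval a) (LieHom.id : g →ₗ⁅F⁆ g) z) i := fun z => by
      induction z with
      | zero => simp
      | add x y hx hy => simp [hx, hy]
      | tmul p x => simp [Algebra.TensorProduct.basis_repr_tmul, A]
    rw [h4, h1]
    simp
  have h5 := key K (MvPolynomial.aeval fun p => (Algebra.TensorProduct.basis K b).repr (φ p.1) p.2)
  rw [h0, map_zero] at h5
  rw [h5]
  congr 2
  ext n
  conv_lhs => rw [← (Algebra.TensorProduct.basis K b).sum_repr (φ n)]
  simp [Algebra.TensorProduct.basis_apply, TensorProduct.smul_tmul', A]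

omit [FiniteDimensional F g] in
theorem leib_mem : mon F (.of 0 * (.of 1 * .of 2)) - mon F (.of 0 * .of 1 * .of 2) -
      mon F (.of 1 * (.of 0 * .of 2)) ∈ Ids F g := by
  rw [mem_Ids]
  intro φ
  simp only [map_sub, mon_mul, mon_of, ev_mul, ev_of]
  rw [leibniz_lie (φ 0)]
  abel

theorem main [CharZero F] [LieAlgebra.IsSemisimple F g] :
    IsRFDVariety (Ids F g) ↔
      ∀ I : LieIdeal (AlgebraicClosure F) (AlgebraicClosure F ⊗[F] g), IsAtom I →
        Module.finrank (AlgebraicClosure F) I = 3 := by
  have := killing_ext (F := F) (g := g) (AlgebraicClosure F)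
  have : CharZero (AlgebraicClosure F) := algebraRat.charZero _
  constructor
  · intro h
    exact split_atoms (split_of_not_rel fun hR => neg_main (ids_ext _) leib_mem hR h)
  · intro h
    obtain ⟨ι, c, c1, c2⟩ := split_coords (K := AlgebraicClosure F) (split_of_not_rel (not_rel h))
    refine pos_main (fun i => (c i).restrictScalars F ∘ₗ TensorProduct.mk F _ g 1)
      (fun i x y => ?_) fun x hx => ?_
    · simp only [LinearMap.comp_apply, LinearMap.restrictScalars_apply, ← c1]
      simp
    · exact Module.Flat.tensorProduct_mk_injective F g (AlgebraicClosure F)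
        ((c2 _ hx).trans (map_zero _).symm)

end Pool.Agent.Lib.MP_038c09_al.LieC
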