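import Pool.Agent.Lib.MP_038c09_al.LiePos

/-! Evaluation in Lie algebras; a Lie algebra with two independent interacting weights generates
a variety that is not RFD. -/

set_option autoImplicit false

namespace Pool.Agent.Lib.MP_038c09_al.LieC

variable {F : Type} [Field F] {X Y : Type}

theorem ext_mul {A : Type} [AddCommGroup A] [Module F A] (h1 h2 : FA F X →ₗ[F] A)
    (μ : A → A → A) (m1 : ∀ f g, h1 (f * g) = μ (h1 f) (h1 g))
    (m2 : ∀ f g, h2 (f * g) = μ (h2 f) (h2 g))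
    (hof : ∀ x, h1 (FreeNonUnitalNonAssocAlgebra.of F x) =
      h2 (FreeNonUnitalNonAssocAlgebra.of F x)) (f : FA F X) : h1 f = h2 f :=
  fa_ind (LinearMap.eqLocus h1 h2) hof (fun a ha b hb => by
    rw [LinearMap.mem_eqLocus] at ha hb ⊢
    rw [m1, m2, ha, hb]) f

/-- substitution as a linear map -/
noncomputable def sub (φ : Y → FA F X) : FA F Y →ₗ[F] FA F X where
  toFun := FreeNonUnitalNonAssocAlgebra.lift F φ
  map_add' := map_add _
  map_smul' := map_smul _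

theorem sub_mul (φ : Y → FA F X) (f g : FA F Y) : sub φ (f * g) = sub φ f * sub φ g :=
  map_mul (FreeNonUnitalNonAssocAlgebra.lift F φ) f g

theorem sub_of (φ : Y → FA F X) (y : Y) : sub φ (FreeNonUnitalNonAssocAlgebra.of F y) = φ y :=
  FreeNonUnitalNonAssocAlgebra.lift_of_apply F φ y

variable {M M' : Type} [LieRing M] [LieAlgebra F M] [LieRing M'] [LieAlgebra F M']

variable (F) in
/-- evaluation in a Lie algebra -/
noncomputable def ev (v : X → M) : FA F X →ₗ[F] M where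
  toFun := FreeNonUnitalNonAssocAlgebra.lift (A := CommutatorRing M) F v
  map_add' := map_add (FreeNonUnitalNonAssocAlgebra.lift (A := CommutatorRing M) F v)
  map_smul' := map_smul (FreeNonUnitalNonAssocAlgebra.lift (A := CommutatorRing M) F v)

theorem ev_mul (v : X → M) (f g : FA F X) : ev F v (f * g) = ⁅ev F v f, ev F v g⁆ :=
  map_mul (FreeNonUnitalNonAssocAlgebra.lift (A := CommutatorRing M) F v) f g

theorem ev_of (v : X → M) (x : X) : ev F v (FreeNonUnitalNonAssocAlgebra.of F x) = v x :=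
  FreeNonUnitalNonAssocAlgebra.lift_of_apply (A := CommutatorRing M) F v x

theorem mem_Ids {f : FA F ℕ} : f ∈ Ids F M ↔ ∀ φ : ℕ → M, ev F φ f = 0 := Iff.rfl

theorem ev_sub (v : X → M) (φ : Y → FA F X) (f : FA F Y) :
    ev F v (sub φ f) = ev F (fun y => ev F v (φ y)) f :=
  ext_mul (ev F v ∘ₗ sub φ) _ (fun a b => ⁅a, b⁆)
    (fun f g => by simp only [LinearMap.comp_apply, sub_mul, ev_mul]) (ev_mul _)
    (fun y => by rw [LinearMap.comp_apply, sub_of, ev_of]) f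

theorem ev_hom (π : M →ₗ[F] M') (hπ : ∀ x y, π ⁅x, y⁆ = ⁅π x, π y⁆) (v : X → M) (f : FA F X) :
    π (ev F v f) = ev F (fun x => π (v x)) f :=
  ext_mul (π ∘ₗ ev F v) _ (fun a b => ⁅a, b⁆)
    (fun f g => by simp only [LinearMap.comp_apply, ev_mul, hπ]) (ev_mul _)
    (fun y => by rw [LinearMap.comp_apply, ev_of, ev_of]) f

theorem ev_tval {I : Set (FA F ℕ)} (hI : I ⊆ Ids F M) (v : X → M) {t : FA F X}
    (ht : t ∈ TVal I X) : ev F v t = 0 := by
  obtain ⟨f, hf, φ, rfl⟩ := ht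
  exact (ev_sub v φ f).trans (hI hf _)

theorem mem_tval {n : ℕ} {f : FA F (Fin n)} (hf : ∀ v : Fin n → M, ev F v f = 0) :
    f ∈ TVal (Ids F M) (Fin n) := by
  refine ⟨sub (fun i : Fin n => FreeNonUnitalNonAssocAlgebra.of F (i : ℕ)) f,
    fun φ => (ev_sub φ _ f).trans (hf _),
    fun i => if h : i < n then FreeNonUnitalNonAssocAlgebra.of F ⟨i, h⟩ else 0, ?_⟩
  exact ext_mul LinearMap.id (sub _ ∘ₗ sub _) (fun a b => a * b) (fun _ _ => rfl)
    (fun f g => by simp only [LinearMap.comp_apply, sub_mul])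
    (fun y => by simp [sub_of]) f

theorem pos_main [CharZero F] {K ι : Type} [CommRing K] [Algebra F K]
    (c : ι → M →ₗ[F] K × K × K) (hc : ∀ i x y, c i ⁅x, y⁆ = br (c i x) (c i y))
    (hinj : ∀ x, (∀ i, c i x = 0) → x = 0) : IsRFDVariety (Ids F M) := by
  intro n R a ha
  let E : FA F (Fin n) →ₗ[F]
      (((Fin n → M) × ι) → K) × (((Fin n → M) × ι) → K) × (((Fin n → M) × ι) → K) :=
    LinearMap.prod (LinearMap.pi fun p => LinearMap.fst F _ _ ∘ₗ c p.2 ∘ₗ ev F p.1)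
      (LinearMap.prod
        (LinearMap.pi fun p => LinearMap.fst F _ _ ∘ₗ LinearMap.snd F _ _ ∘ₗ c p.2 ∘ₗ ev F p.1)
        (LinearMap.pi fun p => LinearMap.snd F _ _ ∘ₗ LinearMap.snd F _ _ ∘ₗ c p.2 ∘ₗ ev F p.1))
  refine pos_core (E := E) (fun f g => ?_) _ (fun t ht => ?_) (fun f hf => ?_) R a ha
  · ext p <;> simp [E, br, ev_mul, hc]
  · ext p <;> simp [E, ev_tval subset_rfl p.1 ht]
  · refine subset_idealGen _ (mem_tval fun v => hinj _ fun i => ?_)
    exact Prod.ext (congrFun (congrArg Prod.fst hf) (v, i))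
      (Prod.ext (congrFun (congrArg (fun q => q.2.1) hf) (v, i))
        (congrFun (congrArg (fun q => q.2.2) hf) (v, i)))

theorem collapse {A : Type} [AddCommGroup A] [Module F A] [Module.Finite F A]
    (μ : A →ₗ[F] A →ₗ[F] A) (leib : ∀ x y z, μ x (μ y z) = μ (μ x y) z + μ y (μ x z))
    {t1 t2 u v : A} (r1 : μ t1 t2 = 0) (r2 : μ t1 (μ t2 u) = u) (r3 : μ t1 v = 0)
    (r4 : μ u v = 0) : μ (μ t2 u) v = 0 := by
  have hc : ∀ x, μ t1 (μ t2 x) = μ t2 (μ t1 x) := fun x => by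
    rw [leib, r1, map_zero, LinearMap.zero_apply, zero_add]
  let W : Submodule F A := LinearMap.ker (μ.flip v) ⊓ LinearMap.eqLocus (μ t1 ∘ₗ μ t2) LinearMap.id
  have hW : ∀ x, x ∈ W ↔ μ x v = 0 ∧ μ t1 (μ t2 x) = x := fun x => Iff.rfl
  have hst : ∀ x ∈ W, μ t1 x ∈ W := fun x hx => by
    rw [hW] at hx ⊢
    refine ⟨?_, by rw [← hc, hx.2]⟩
    have := leib t1 x v
    rwa [hx.1, r3, map_zero, map_zero, add_zero, eq_comm] at this
  have hinj : Function.Injective ((μ t1).restrict hst) := by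
    refine (injective_iff_map_eq_zero _).2 fun x hx => Subtype.ext ?_
    have h1 : μ t1 x = 0 := congrArg Subtype.val hx
    have h2 := ((hW x).1 x.2).2
    rw [hc, h1, map_zero] at h2
    exact h2.symm
  obtain ⟨w, hw⟩ := LinearMap.injective_iff_surjective.1 hinj ⟨u, (hW u).2 ⟨r4, r2⟩⟩
  have h1 : μ t1 w = u := congrArg Subtype.val hw
  have h2 := (hW w).1 w.2
  rw [← h1, ← hc, h2.2]
  exact h2.1

/-- two commuting elements with two independent weight vectors that do not commute -/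
def Rel (M : Type) [LieRing M] : Prop :=
  ∃ h1 h2 u v : M, ⁅h1, h2⁆ = 0 ∧ ⁅h1, u⁆ = u ∧ ⁅h1, v⁆ = 0 ∧ ⁅h2, u⁆ = 0 ∧ ⁅h2, v⁆ = v ∧
    ⁅u, v⁆ ≠ 0

variable (F) in
/-- sum of the eigenspaces of `ad h` for the integers `≥ k` -/
def NN (h : M) (k : ℕ) : Submodule F M :=
  ⨆ (m : ℕ) (_ : k ≤ m), Module.End.eigenspace (LieAlgebra.ad F M h) (m : F)

theorem mem_NN {h x : M} {k m : ℕ} (hk : k ≤ m) (hx : ⁅h, x⁆ = (m : F) • x) : x ∈ NN F h k :=
  Submodule.mem_iSup_of_mem m (Submodule.mem_iSup_of_mem hk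
    (Module.End.mem_eigenspace_iff.2 hx))

theorem NN_mono (h : M) {k l : ℕ} (hkl : k ≤ l) : NN F h l ≤ NN F h k :=
  iSup₂_le fun m hm => le_iSup₂_of_le m (hkl.trans hm) le_rfl

theorem lie_NN {h x y : M} {k l : ℕ} (hx : x ∈ NN F h k) (hy : y ∈ NN F h l) :
    ⁅x, y⁆ ∈ NN F h (k + l) := by
  have : Submodule.map₂ (LieAlgebra.ad F M : M →ₗ[F] M →ₗ[F] M) (NN F h k) (NN F h l) ≤
      NN F h (k + l) := by
    simp only [NN, Submodule.map₂_iSup_left, Submodule.map₂_iSup_right]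
    refine iSup₂_le fun m hm => iSup₂_le fun m' hm' => Submodule.map₂_le.2 fun a ha b hb => ?_
    have h1 : ⁅h, a⁆ = (m' : F) • a := Module.End.mem_eigenspace_iff.1 ha
    have h2 : ⁅h, b⁆ = (m : F) • b := Module.End.mem_eigenspace_iff.1 hb
    refine mem_NN (Nat.add_le_add hm' hm) (x := ⁅a, b⁆) ?_
    rw [leibniz_lie, h1, h2, smul_lie, lie_smul, Nat.cast_add, add_smul]
  exact this (Submodule.apply_mem_map₂ _ hx hy)

theorem lie_NN' {h x y : M} {k l : ℕ} (m : ℕ) (hx : x ∈ NN F h k) (hy : y ∈ NN F h l)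
    (hm : m ≤ k + l) : ⁅x, y⁆ ∈ NN F h m :=
  NN_mono h hm (lie_NN hx hy)

theorem eq_zero_NN [CharZero F] {h x : M} (hx : ⁅h, x⁆ = ((2 : ℕ) : F) • x) (h3 : x ∈ NN F h 3) :
    x = 0 := by
  have hd := Module.End.eigenspaces_iSupIndep (LieAlgebra.ad F M h) ((2 : ℕ) : F)
  refine Submodule.disjoint_def.1 hd x (Module.End.mem_eigenspace_iff.2 hx) ?_
  refine (iSup₂_le fun m hm => le_iSup₂_of_le (m : F) ?_ le_rfl : NN F h 3 ≤ _) h3
  exact fun e => by
    have := Nat.cast_injective (R := F) e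
    omega

theorem neg_main [CharZero F] {I : Set (FA F ℕ)} (hI : I ⊆ Ids F M)
    (hL : mon F (.of 0 * (.of 1 * .of 2)) - mon F (.of 0 * .of 1 * .of 2) -
      mon F (.of 1 * (.of 0 * .of 2)) ∈ I) (hM : Rel M) : ¬ IsRFDVariety I := by
  classical
  obtain ⟨h1, h2, u, v, a1, a2, a3, a4, a5, a6⟩ := hM
  intro H
  let o : Fin 4 → FA F (Fin 4) := FreeNonUnitalNonAssocAlgebra.of F
  let w : Fˣ → Fin 4 → M := fun x => ![(x : F) • h1, (x : F)⁻¹ • (h1 - h2), u, v]
  have a1' : ⁅h2, h1⁆ = 0 := by rw [← lie_skew, a1, neg_zero]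
  have n1 : h1 ∈ NN F (h1 + h2) 0 := mem_NN le_rfl (by simp [a1'])
  have n2 : h2 ∈ NN F (h1 + h2) 0 := mem_NN le_rfl (by simp [a1])
  have nu : u ∈ NN F (h1 + h2) 1 := mem_NN le_rfl (by simp [a2, a4])
  have nv : v ∈ NN F (h1 + h2) 1 := mem_NN le_rfl (by simp [a3, a5])
  have z1 : ⁅h1, ⁅u, v⁆⁆ = ⁅u, v⁆ := by rw [leibniz_lie, a2, a3, lie_zero, add_zero]
  have z2 : ⁅h2, ⁅u, v⁆⁆ = ⁅u, v⁆ := by rw [leibniz_lie, a4, a5, zero_lie, zero_add]
  have z3 : ⁅h1 + h2, ⁅u, v⁆⁆ = ((2 : ℕ) : F) • ⁅u, v⁆ := by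
    rw [add_lie, z1, z2, Nat.cast_ofNat, two_smul]
  have nz : ⁅u, v⁆ ∈ NN F (h1 + h2) 2 := mem_NN le_rfl z3
  let tt : F → F → Fˣ → M := fun c d x => (c * x) • h1 + (d * (x : F)⁻¹) • (h1 - h2)
  have nt : ∀ c d x, tt c d x ∈ NN F (h1 + h2) 0 := fun c d x =>
    Submodule.add_mem _ (Submodule.smul_mem _ _ n1)
      (Submodule.smul_mem _ _ (Submodule.sub_mem _ n1 n2))
  have hQ : ∀ f : FA F (Fin 4), ∃ c d : F, ∀ x, ev F (w x) f - tt c d x ∈ NN F (h1 + h2) 1 := by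
    refine fa_ind (F := F) ⟨⟨⟨{f | ∃ c d : F, ∀ x, ev F (w x) f - tt c d x ∈ NN F (h1 + h2) 1},
      ?_⟩, ?_⟩, ?_⟩ ?_ ?_
    · rintro f g ⟨c, d, hf⟩ ⟨c', d', hg⟩
      refine ⟨c + c', d + d', fun x => ?_⟩
      convert Submodule.add_mem _ (hf x) (hg x) using 1
      simp only [map_add, tt]
      module
    · exact ⟨0, 0, fun x => by simp [tt]⟩
    · rintro k f ⟨c, d, hf⟩
      refine ⟨k * c, k * d, fun x => ?_⟩
      convert Submodule.smul_mem _ k (hf x) using 1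
      simp only [map_smul, tt]
      module
    · intro i
      fin_cases i
      · exact ⟨1, 0, fun x => by simp [tt, ev_of, w]⟩
      · exact ⟨0, 1, fun x => by simp [tt, ev_of, w]⟩
      · exact ⟨0, 0, fun x => by simpa [tt, ev_of, w] using nu⟩
      · exact ⟨0, 0, fun x => by simpa [tt, ev_of, w] using nv⟩
    · rintro f ⟨c, d, hf⟩ g ⟨c', d', hg⟩
      refine ⟨0, 0, fun x => ?_⟩
      have e0 : ⁅tt c d x, tt c' d' x⁆ = 0 := by simp [tt, a1, a1']
      have e : ev F (w x) (f * g) - tt 0 0 x =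
          ⁅ev F (w x) f - tt c d x, ev F (w x) g - tt c' d' x⁆ +
          ⁅ev F (w x) f - tt c d x, tt c' d' x⁆ + ⁅tt c d x, ev F (w x) g - tt c' d' x⁆ := by
        rw [ev_mul]
        simp only [sub_lie, lie_sub, e0]
        simp [tt]
      rw [e]
      exact Submodule.add_mem _ (Submodule.add_mem _ (lie_NN' 1 (hf x) (hg x) (by omega))
        (lie_NN' 1 (hf x) (nt _ _ _) (by omega))) (lie_NN' 1 (nt _ _ _) (hg x) (by omega))
  let K' : Submodule F (FA F (Fin 4)) :=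
    ⟨⟨⟨{f | ∃ r : Polynomial F, ∀ x, ev F (w x) f - r.eval (x : F) • ⁅u, v⁆ ∈ NN F (h1 + h2) 3},
      by
        rintro f g ⟨r, hf⟩ ⟨r', hg⟩
        refine ⟨r + r', fun x => ?_⟩
        convert Submodule.add_mem _ (hf x) (hg x) using 1
        simp only [map_add, Polynomial.eval_add]
        module⟩, ⟨0, fun x => by simp⟩⟩,
      by
        rintro k f ⟨r, hf⟩
        refine ⟨k • r, fun x => ?_⟩
        convert Submodule.smul_mem _ k (hf x) using 1
        simp only [map_smul, Polynomial.eval_smul, smul_eq_mul]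
        module⟩
  have hK0 : ∀ f, (∀ x, ev F (w x) f = 0) → f ∈ K' := fun f hf => ⟨0, fun x => by simp [hf]⟩
  have hK1 : ∀ f g, g ∈ K' → f * g ∈ K' := by
    rintro f g ⟨r, hg⟩
    obtain ⟨c, d, hf⟩ := hQ f
    refine ⟨c • Polynomial.X * r, fun x => ?_⟩
    have e0 : ⁅tt c d x, ⁅u, v⁆⁆ = (c * x) • ⁅u, v⁆ := by
      simp only [tt, add_lie, smul_lie, sub_lie, z1, z2, sub_self, smul_zero, add_zero]
    have e : ev F (w x) (f * g) - (c • Polynomial.X * r).eval (x : F) • ⁅u, v⁆ =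
        ⁅ev F (w x) f - tt c d x, ev F (w x) g - r.eval (x : F) • ⁅u, v⁆⁆ +
        ⁅ev F (w x) f - tt c d x, r.eval (x : F) • ⁅u, v⁆⁆ +
        ⁅tt c d x, ev F (w x) g - r.eval (x : F) • ⁅u, v⁆⁆ := by
      rw [ev_mul]
      simp only [sub_lie, lie_sub, lie_smul, e0, Polynomial.eval_mul, Polynomial.eval_smul,
        Polynomial.eval_X, smul_eq_mul]
      module
    rw [e]
    exact Submodule.add_mem _ (Submodule.add_mem _ (lie_NN' 3 (hf x) (hg x) (by omega))
      (lie_NN' 3 (hf x) (Submodule.smul_mem _ _ nz) (by omega)))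
      (lie_NN' 3 (nt _ _ _) (hg x) (by omega))
  have hK : IsIdeal K' := fun f g hg => ⟨hK1 f g hg, by
    have := K'.sub_mem (hK0 (g * f + f * g) fun x => by
      rw [map_add, ev_mul, ev_mul, ← lie_skew, neg_add_cancel]) (hK1 f g hg)
    rwa [add_sub_cancel_right] at this⟩
  let R : Finset (FA F (Fin 4)) := {o 0 * o 1, o 0 * (o 1 * o 2) - o 2, o 0 * o 3, o 2 * o 3}
  obtain ⟨J, j1, j2, j3, j4⟩ := H 4 R (o 1 * o 2 * o 3) fun hmem => by
    have hle : idealGen (TVal I (Fin 4) ∪ ↑R) ≤ K' := by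
      refine idealGen_le hK ?_
      rintro t (ht | ht)
      · exact hK0 t fun x => ev_tval hI _ ht
      · simp only [R, Finset.coe_insert, Finset.coe_singleton, Set.mem_insert_iff,
          Set.mem_singleton_iff] at ht
        rcases ht with rfl | rfl | rfl | rfl
        · exact hK0 _ fun x => by simp [o, ev_mul, ev_of, w, a1]
        · exact hK0 _ fun x => by simp [o, ev_mul, ev_of, w, a2, a4, smul_smul]
        · exact hK0 _ fun x => by simp [o, ev_mul, ev_of, w, a3]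
        · exact ⟨1, fun x => by simp [o, ev_mul, ev_of, w]⟩
    obtain ⟨r, hr⟩ := hle hmem
    have h0 : ∀ x : Fˣ, (Polynomial.X * r - 1).IsRoot (x : F) := fun x => by
      have h3 := hr x
      have e : ev F (w x) (o 1 * o 2 * o 3) = (x : F)⁻¹ • ⁅u, v⁆ := by
        simp [o, ev_mul, ev_of, w, a2, a4]
      rw [e, ← sub_smul] at h3
      have h4 := eq_zero_NN (by rw [lie_smul, z3, smul_comm]) h3
      have h5 := sub_eq_zero.1 ((smul_eq_zero.1 h4).resolve_right a6)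
      simp [← h5]
    have h6 : (Polynomial.X * r - 1 : Polynomial F) = 0 := by
      refine Polynomial.eq_zero_of_infinite_isRoot _ ?_
      refine (Set.Finite.infinite_compl (Set.finite_singleton (0 : F))).mono fun x hx => ?_
      exact h0 (Units.mk0 x hx)
    simpa using congrArg (Polynomial.eval 0) h6
  have hz : ∀ t, t ∈ TVal I (Fin 4) ∪ ↑R → J.mkQ t = 0 := fun t ht =>
    (Submodule.Quotient.mk_eq_zero _).2 (j2 (subset_idealGen _ ht))
  refine j4 ((Submodule.Quotient.mk_eq_zero _).1 ?_)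
  change J.mkQ _ = 0
  rw [mkQ_mul J j1, mkQ_mul J j1]
  refine collapse (quotMul J j1) (fun x y z => ?_) (t1 := J.mkQ (o 0)) ?_ ?_ ?_ ?_
  · obtain ⟨x, rfl⟩ := J.mkQ_surjective x
    obtain ⟨y, rfl⟩ := J.mkQ_surjective y
    obtain ⟨z, rfl⟩ := J.mkQ_surjective z
    have := hz _ (Or.inl ⟨_, hL, fun i => if i = 0 then x else if i = 1 then y else z, rfl⟩)
    simp only [map_sub, mon_mul, map_mul, mon_of, FreeNonUnitalNonAssocAlgebra.lift_of_apply,
      mkQ_mul J j1] at this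
    simp only [if_true, one_ne_zero, if_false, OfNat.ofNat_ne_zero, OfNat.ofNat_ne_one] at this
    rw [sub_sub, sub_eq_zero] at this
    exact this
  · rw [← mkQ_mul]; exact hz _ (Or.inr (by simp [R]))
  · rw [← mkQ_mul, ← mkQ_mul, ← sub_eq_zero, ← map_sub]; exact hz _ (Or.inr (by simp [R]))
  · rw [← mkQ_mul]; exact hz _ (Or.inr (by simp [R]))
  · rw [← mkQ_mul]; exact hz _ (Or.inr (by simp [R]))

end Pool.Agent.Lib.MP_038c09_al.LieC
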