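import Pool.Agent.Lib.MP_038c09_al.Eval
import Pool.Agent.Lib.MP_038c09_al.Krull
import Pool.Agent.Lib.MP_038c09_al.LieDefs

/-! Ideals of the generic algebra of `sl_2` are modules over the traces up to finite dimension. -/

set_option autoImplicit false

namespace Pool.Agent.Lib.MP_038c09_al.LieC

variable {F : Type} [Field F] {X : Type}

theorem fa_ind (W : Submodule F (FA F X)) (hof : ∀ x, FreeNonUnitalNonAssocAlgebra.of F x ∈ W)
    (hmul : ∀ a ∈ W, ∀ b ∈ W, a * b ∈ W) (f : FA F X) : f ∈ W := by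
  induction f using MonoidAlgebra.induction_linear with
  | zero => exact W.zero_mem
  | add f g h h' => exact W.add_mem h h'
  | single w c =>
    rw [single_eq]
    refine W.smul_mem _ ?_
    induction w with
    | ih1 x => exact hof x
    | ih2 s t hs ht => rw [mon_mul]; exact hmul _ hs _ ht

variable {C : Type} [CommRing C]

/-- the bracket of `sl_2(C)` in the basis `h, e, f` -/
def br (a b : C × C × C) : C × C × C :=
  (a.2.1 * b.2.2 - a.2.2 * b.2.1, 2 * (a.1 * b.2.1 - a.2.1 * b.1),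
    -2 * (a.1 * b.2.2 - a.2.2 * b.1))

/-- half of the Killing form -/
def bt (a b : C × C × C) : C := 4 * a.1 * b.1 + 2 * (a.2.1 * b.2.2 + a.2.2 * b.2.1)

/-- the invariant trilinear form -/
def tau (a b c : C × C × C) : C := bt (br a b) c

theorem br_skew (a b : C × C × C) : br a b = -br b a := by
  ext <;> simp [br] <;> ring

theorem br_jac (a b w : C × C × C) : br (br a b) w = br a (br b w) - br b (br a w) := by
  ext <;> simp [br] <;> ring

theorem br_smul (c : C) (a b : C × C × C) : br a (c • b) = c • br a b := by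
  ext <;> simp [br] <;> ring

theorem idA (a b c r : C × C × C) : tau a b c • r + tau a b c • r =
    br (br a b) (br c r) + br (br b c) (br a r) + br (br c a) (br b r) := by
  ext <;> simp [br, bt, tau] <;> ring

theorem idB (a b c r : C × C × C) : bt a b • br c r =
    br a (br b (br c r)) - br (br a c) (br b r) + tau a c b • r := by
  ext <;> simp [br, bt, tau] <;> ring

theorem idC (l k i j : C × C × C) :
    br l (br k (br i j)) = bt l k • br i j - tau i j l • k := by
  ext <;> simp [br, bt, tau] <;> ring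

variable [Algebra F C]

variable (F) in
/-- the adjoint map -/
def adL (a : C × C × C) : (C × C × C) →ₗ[F] (C × C × C) where
  toFun := br a
  map_add' b c := by ext <;> simp [br] <;> ring
  map_smul' c b := by
    rw [← algebraMap_smul C c b, br_smul, algebraMap_smul]; rfl

variable (F) in
/-- multiplication by a function -/
def smL (c : C) : (C × C × C) →ₗ[F] (C × C × C) where
  toFun p := c • p
  map_add' := smul_add c
  map_smul' d p := smul_comm c d p

theorem adL_apply (a b : C × C × C) : adL F a b = br a b := rfl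

theorem smL_apply (c : C) (p : C × C × C) : smL F c p = c • p := rfl

variable (E : FA F X →ₗ[F] C × C × C)

/-- the image of `L K` -/
def J1 (K : Submodule F (FA F X)) : Submodule F (C × C × C) :=
  Submodule.span F {p | ∃ x, ∃ r ∈ K, p = br (E x) (E r)}

variable {E} (hE : ∀ f g, E (f * g) = br (E f) (E g)) {K : Submodule F (FA F X)}

theorem mem_J1 (x : FA F X) {r : FA F X} (hr : r ∈ K) : br (E x) (E r) ∈ J1 E K :=
  Submodule.subset_span ⟨x, r, hr, rfl⟩

theorem J1_mono {K' : Submodule F (FA F X)} (h : K ≤ K') : J1 E K ≤ J1 E K' :=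
  Submodule.span_mono fun _ ⟨x, r, hr, e⟩ => ⟨x, r, h hr, e⟩

include hE

theorem J1_le (hK : IsIdeal K) : J1 E K ≤ K.map E := by
  refine Submodule.span_le.2 ?_
  rintro _ ⟨x, r, hr, rfl⟩
  exact ⟨x * r, (hK x r hr).1, hE x r⟩

theorem J1_ad (hK : IsIdeal K) (y : FA F X) {p : C × C × C} (hp : p ∈ J1 E K) :
    br (E y) p ∈ J1 E K := by
  obtain ⟨k, hk, rfl⟩ := J1_le hE hK hp
  exact mem_J1 y hk

variable [CharZero F]

theorem J1_tau (hK : IsIdeal K) (a b c : FA F X) {r : FA F X} (hr : r ∈ K) :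
    tau (E a) (E b) (E c) • E r ∈ J1 E K := by
  have h : ∀ a b c : FA F X, br (br (E a) (E b)) (br (E c) (E r)) ∈ J1 E K := fun a b c => by
    rw [← hE a b]
    exact J1_ad hE hK _ (mem_J1 c hr)
  have h2 := (J1 E K).smul_mem (2⁻¹ : F)
    ((J1 E K).add_mem ((J1 E K).add_mem (h a b c) (h b c a)) (h c a b))
  rwa [← idA, ← two_smul F, smul_smul, inv_mul_cancel₀ two_ne_zero, one_smul] at h2

theorem J1_bt (hK : IsIdeal K) (a b : FA F X) {p : C × C × C} (hp : p ∈ J1 E K) :
    bt (E a) (E b) • p ∈ J1 E K := by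
  have : J1 E K ≤ (J1 E K).comap (smL F (bt (E a) (E b))) := by
    refine Submodule.span_le.2 ?_
    rintro _ ⟨c, r, hr, rfl⟩
    change bt (E a) (E b) • br (E c) (E r) ∈ J1 E K
    rw [idB, ← hE a c]
    exact (J1 E K).add_mem ((J1 E K).sub_mem (J1_ad hE hK a (J1_ad hE hK b (mem_J1 c hr)))
      (J1_ad hE hK _ (mem_J1 b hr))) (J1_tau hE hK a c b hr)
  exact this hp

omit hE [CharZero F] in
theorem isIdeal_top : IsIdeal (⊤ : Submodule F (FA F X)) := fun _ _ _ => ⟨trivial, trivial⟩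

theorem J1_closed [Fintype X] (hK : IsIdeal K) (a : FA F X) (ha : E a ∉ J1 E K) :
    ∃ J : Submodule F (FA F X), (J1 E K).comap E ≤ J ∧ IsIdeal J ∧ J.CoFG ∧ a ∉ J := by
  classical
  let o : X → FA F X := FreeNonUnitalNonAssocAlgebra.of F
  let v : X → C × C × C := fun i => E (o i)
  let c : (X × X) ⊕ (X × X × X) → C :=
    Sum.elim (fun p => bt (v p.1) (v p.2)) fun p => tau (v p.1) (v p.2.1) (v p.2.2)
  let θ : (X × X) ⊕ (X × X × X) → (C × C × C) →ₗ[F] (C × C × C) := fun i => smL F (c i)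
  have hθ : ∀ K : Submodule F (FA F X), IsIdeal K → ∀ i, ∀ x ∈ J1 E K, θ i x ∈ J1 E K := by
    rintro K hK (p | p) x hx
    · exact J1_bt hE hK _ _ hx
    · obtain ⟨k, hk, rfl⟩ := J1_le hE hK hx
      exact J1_tau hE hK _ _ _ hk
  let S : Set (C × C × C) := (Set.range fun p : X × X => br (v p.1) (v p.2)) ∪
    ((Set.range fun p : X × X × X => br (v p.1) (br (v p.2.1) (v p.2.2))) ∪
      Set.range fun p : (X × X × X) × X => tau (v p.1.1) (v p.1.2.1) (v p.1.2.2) • v p.2)
  have hSf : S.Finite :=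
    (Set.finite_range _).union ((Set.finite_range _).union (Set.finite_range _))
  have hSN : S ⊆ J1 E ⊤ := by
    rintro _ (⟨p, rfl⟩ | ⟨p, rfl⟩ | ⟨p, rfl⟩)
    · exact mem_J1 _ trivial
    · exact J1_ad hE isIdeal_top _ (mem_J1 _ trivial)
    · exact J1_tau hE isIdeal_top _ _ _ trivial
  have hgen : ∀ W : Submodule F (C × C × C), J1 E K ≤ W → S ⊆ W → (∀ i, ∀ x ∈ W, θ i x ∈ W) →
      J1 E ⊤ ≤ W := by
    intro W _ hSW hW
    let W0 : Submodule F (C × C × C) := sInf {W | S ⊆ W ∧ ∀ i, ∀ x ∈ W, θ i x ∈ W}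
    have h0 : ∀ W : Submodule F (C × C × C), S ⊆ W → (∀ i, ∀ x ∈ W, θ i x ∈ W) → W0 ≤ W :=
      fun W h1 h2 => sInf_le ⟨h1, h2⟩
    have h1 : ∀ x ∈ S, x ∈ W0 := fun x hx => Submodule.mem_sInf.2 fun W hW => hW.1 hx
    have h2 : ∀ i, ∀ x ∈ W0, θ i x ∈ W0 := fun i x hx =>
      Submodule.mem_sInf.2 fun W hW => hW.2 i x (Submodule.mem_sInf.1 hx W hW)
    have s1 : ∀ i j, br (v i) (v j) ∈ W0 := fun i j => h1 _ (Or.inl ⟨(i, j), rfl⟩)
    have h3 : ∀ m, ∀ x ∈ W0, br (v m) x ∈ W0 := fun m x hx => by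
      refine (h0 (W0 ⊓ W0.comap (adL F (v m))) ?_ ?_ hx).2
      · intro y hy
        refine ⟨h1 y hy, ?_⟩
        change br (v m) y ∈ W0
        rcases hy with ⟨p, rfl⟩ | ⟨p, rfl⟩ | ⟨p, rfl⟩
        · exact h1 _ (Or.inr (Or.inl ⟨(m, p), rfl⟩))
        · rw [idC]
          exact W0.sub_mem (h2 (Sum.inl (m, p.1)) _ (s1 _ _))
            (h1 _ (Or.inr (Or.inr ⟨((p.2.1, p.2.2, m), p.1), rfl⟩)))
        · rw [br_smul]
          exact h2 (Sum.inr p.1) _ (s1 _ _)
      · intro i y hy
        refine ⟨h2 i y hy.1, ?_⟩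
        change br (v m) (c i • y) ∈ W0
        rw [br_smul]
        exact h2 i _ hy.2
    have h4 : ∀ f, ∀ x ∈ W0, br (E f) x ∈ W0 := by
      refine fa_ind (F := F) ⟨⟨⟨{f | ∀ x ∈ W0, br (E f) x ∈ W0}, ?_⟩, ?_⟩, ?_⟩ h3 ?_
      · intro f g hf hg x hx
        rw [br_skew, map_add, ← adL_apply (F := F), map_add, adL_apply, adL_apply, neg_add,
          ← br_skew, ← br_skew]
        exact W0.add_mem (hf x hx) (hg x hx)
      · intro x _
        rw [br_skew, map_zero, ← adL_apply (F := F), map_zero, neg_zero]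
        exact W0.zero_mem
      · intro d f hf x hx
        rw [br_skew, map_smul, ← adL_apply (F := F), map_smul, adL_apply, ← smul_neg, ← br_skew]
        exact W0.smul_mem _ (hf x hx)
      · intro f hf g hg x hx
        rw [hE, br_jac]
        exact W0.sub_mem (hf _ (hg x hx)) (hg _ (hf x hx))
    have h5 : ∀ f, (∀ i, br (E f) (v i) ∈ W0) → ∀ p ∈ Submodule.span F (Set.range v) ⊔ W0,
        br (E f) p ∈ W0 := fun f hf =>
      (sup_le (Submodule.span_le.2 (Set.range_subset_iff.2 hf)) (h4 f) :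
        Submodule.span F (Set.range v) ⊔ W0 ≤ W0.comap (adL F (E f)))
    have h6 : ∀ f g, E f ∈ Submodule.span F (Set.range v) ⊔ W0 →
        E g ∈ Submodule.span F (Set.range v) ⊔ W0 → br (E f) (E g) ∈ W0 := fun f g hf hg =>
      h5 f (fun i => by
        rw [br_skew]
        exact W0.neg_mem (h5 (o i) (s1 i) _ hf)) _ hg
    have h7 : ∀ f, f ∈ (Submodule.span F (Set.range v) ⊔ W0).comap E :=
      fa_ind _ (fun i => Submodule.mem_sup_left (Submodule.subset_span ⟨i, rfl⟩))
        fun f hf g hg => by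
          rw [Submodule.mem_comap, hE]
          exact Submodule.mem_sup_right (h6 f g hf hg)
    refine le_trans (Submodule.span_le.2 ?_) (h0 W hSW hW)
    rintro _ ⟨x, r, -, rfl⟩
    exact h6 x r (h7 x) (h7 r)
  obtain ⟨N', n1, -, n3, ⟨U, hU, n4⟩, n5⟩ := krull_sep θ (J1 E K) (J1 E ⊤) (J1_mono le_top)
    (hθ K hK) (hθ ⊤ isIdeal_top) (fun i j x _ => by
      change c i • c j • x - c j • c i • x ∈ _
      rw [smul_comm, sub_self]
      exact Submodule.zero_mem _) S hSf hSN hgen (E a) ha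
  have n6 : ∀ f, ∀ x ∈ N', br (E f) x ∈ N' := fun f =>
    n5 (adL F (E f)) (fun x hx => J1_ad hE hK f hx) (fun x hx => J1_ad hE isIdeal_top f hx)
      fun i x _ => by
        change br (E f) (c i • x) - c i • br (E f) x ∈ _
        rw [br_smul, sub_self]
        exact Submodule.zero_mem _
  refine ⟨N'.comap E, Submodule.comap_mono n1, fun x y hy => ⟨?_, ?_⟩, ?_, n3⟩
  · rw [Submodule.mem_comap, hE]
    exact n6 x _ hy
  · rw [Submodule.mem_comap, hE, br_skew]
    exact N'.neg_mem (n6 x _ hy)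
  · have h8 : ∀ f, f ∈ (Submodule.span F (Set.range v) ⊔ J1 E ⊤).comap E :=
      fa_ind _ (fun i => Submodule.mem_sup_left (Submodule.subset_span ⟨i, rfl⟩))
        fun f _ g _ => by
          rw [Submodule.mem_comap, hE]
          exact Submodule.mem_sup_right (mem_J1 _ trivial)
    have hfg : ((Submodule.span F (Set.range v) ⊔ U).map N'.mkQ).FG :=
      ((Submodule.fg_span (Set.finite_range v)).sup hU).map _
    have : FiniteDimensional F ((Submodule.span F (Set.range v) ⊔ U).map N'.mkQ) :=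
      Module.Finite.iff_fg.2 hfg
    have hle : LinearMap.range (N'.mkQ ∘ₗ E) ≤
        (Submodule.span F (Set.range v) ⊔ U).map N'.mkQ := by
      rintro _ ⟨f, rfl⟩
      obtain ⟨y, hy, z, hz, e⟩ := Submodule.mem_sup.1 (h8 f)
      obtain ⟨y', hy', z', hz', e'⟩ := Submodule.mem_sup.1 (n4 hz)
      refine ⟨y + z', Submodule.add_mem_sup hy hz', ?_⟩
      rw [LinearMap.comp_apply, ← e, ← e', map_add, map_add, map_add,
        show N'.mkQ y' = 0 from (Submodule.Quotient.mk_eq_zero _).2 hy', zero_add]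
    have := Submodule.finiteDimensional_of_le hle
    have h9 : N'.comap E = LinearMap.ker (N'.mkQ ∘ₗ E) := by
      rw [LinearMap.ker_comp, Submodule.ker_mkQ]
    rw [h9]
    exact Module.Finite.equiv (N'.mkQ ∘ₗ E).quotKerEquivRange.symm

theorem pos_core [Fintype X] (T : Set (FA F X)) (hT : ∀ t ∈ T, E t = 0)
    (hker : ∀ f, E f = 0 → f ∈ idealGen T) (R : Finset (FA F X)) (a : FA F X)
    (ha : a ∉ idealGen (T ∪ ↑R)) :
    ∃ J : Submodule F (FA F X), IsIdeal J ∧ idealGen (T ∪ ↑R) ≤ J ∧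
      Module.Finite F (FA F X ⧸ J) ∧ a ∉ J := by
  set K := idealGen (T ∪ ↑R) with hKdef
  have hK : IsIdeal K := isIdeal_idealGen _
  have hker' : ∀ f, E f = 0 → f ∈ K := fun f hf =>
    idealGen_le hK (Set.subset_union_left.trans (subset_idealGen _)) (hker f hf)
  have h1 : (J1 E K).comap E ≤ K := fun f hf => by
    obtain ⟨k, hk, e⟩ := J1_le hE hK hf
    have := K.add_mem (hker' (f - k) (by rw [map_sub, e, sub_self])) hk
    rwa [sub_add_cancel] at this
  have h2 : K ≤ (J1 E K).comap E ⊔ Submodule.span F (R : Set (FA F X)) := by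
    have : K ≤ K ⊓ ((J1 E K).comap E ⊔ Submodule.span F (R : Set (FA F X))) := by
      refine idealGen_le (fun x y hy => ⟨⟨(hK x y hy.1).1, Submodule.mem_sup_left ?_⟩,
        (hK x y hy.1).2, Submodule.mem_sup_left ?_⟩) fun t ht => ⟨subset_idealGen _ ht, ?_⟩
      · rw [Submodule.mem_comap, hE]
        exact mem_J1 x hy.1
      · rw [Submodule.mem_comap, hE, br_skew]
        exact Submodule.neg_mem _ (mem_J1 x hy.1)
      · rcases ht with ht | ht
        · refine Submodule.mem_sup_left ?_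
          rw [Submodule.mem_comap, hT t ht]
          exact Submodule.zero_mem _
        · exact Submodule.mem_sup_right (Submodule.subset_span ht)
    exact this.trans inf_le_right
  let ρ : FA F X ⊕ FA F X → FA F X →ₗ[F] FA F X :=
    Sum.elim (LinearMap.mulLeft F) (LinearMap.mulRight F)
  have hρ : ∀ J : Submodule F (FA F X), IsIdeal J → ∀ t, ∀ x ∈ J, ρ t x ∈ J := by
    rintro J hJ (t | t) x hx
    · exact (hJ t x hx).1
    · exact (hJ t x hx).2
  obtain ⟨J, j1, j2, j3, j4⟩ := closed_of_fd ρ ((J1 E K).comap E) K h1 _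
    (Submodule.fg_span R.finite_toSet) h2 (hρ K hK) (fun b hb => by
      obtain ⟨J, j1, j2, j3, j4⟩ := J1_closed hE hK b hb
      exact ⟨J, j1, hρ J j2, j3, j4⟩) a ha
  exact ⟨J, fun x y hy => ⟨j2 (Sum.inl x) y hy, j2 (Sum.inr x) y hy⟩, j1, j3, j4⟩

end Pool.Agent.Lib.MP_038c09_al.LieC
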