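import Pool.Agent.Lib.MP_038c09_al.LieNeg

/-! Structure of a split semisimple Lie algebra without two independent interacting weights. -/

set_option autoImplicit false

open LieAlgebra LieModule LieAlgebra.IsKilling Module

namespace Pool.Agent.Lib.MP_038c09_al.LieC

variable {K L : Type} [Field K] [LieRing L] [LieAlgebra K L]

theorem four_le [CharZero K] [FiniteDimensional K L] (W : Submodule K L) {h1 h2 u v : L}
    (a1 : ⁅h1, h2⁆ = 0) (a2 : ⁅h1, u⁆ = u) (a3 : ⁅h1, v⁆ = 0) (a4 : ⁅h2, u⁆ = 0)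
    (a5 : ⁅h2, v⁆ = v) (a6 : ⁅u, v⁆ ≠ 0) (m1 : h1 ∈ W) (m2 : u ∈ W) (m3 : v ∈ W)
    (m4 : ⁅u, v⁆ ∈ W) : 4 ≤ finrank K W := by
  have a1' : ⁅h2, h1⁆ = 0 := by rw [← lie_skew, a1, neg_zero]
  have hu : u ≠ 0 := fun e => a6 (by rw [e, zero_lie])
  have hv : v ≠ 0 := fun e => a6 (by rw [e, lie_zero])
  have hh : h1 ≠ 0 := fun e => hu (by rw [← a2, e, zero_lie])
  have z1 : ⁅h1, ⁅u, v⁆⁆ = ⁅u, v⁆ := by rw [leibniz_lie, a2, a3, lie_zero, add_zero]
  have z2 : ⁅h2, ⁅u, v⁆⁆ = ⁅u, v⁆ := by rw [leibniz_lie, a4, a5, zero_lie, zero_add]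
  have hli : LinearIndependent K ![h1, u, v, ⁅u, v⁆] := by
    refine Module.End.eigenvectors_linearIndependent' (LieAlgebra.ad K L (h1 + h2 + h2))
      (fun i : Fin 4 => ((i : ℕ) : K)) (fun i j e => Fin.ext (Nat.cast_injective e)) _ fun i => ?_
    fin_cases i
    · exact ⟨Module.End.mem_eigenspace_iff.2 (by simp [a1']), hh⟩
    · exact ⟨Module.End.mem_eigenspace_iff.2 (by simp [a2, a4]), hu⟩
    · exact ⟨Module.End.mem_eigenspace_iff.2 (by simp [a3, a5, two_smul]), hv⟩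
    · refine ⟨Module.End.mem_eigenspace_iff.2 ?_, a6⟩
      change ⁅h1 + h2 + h2, ⁅u, v⁆⁆ = ((3 : ℕ) : K) • ⁅u, v⁆
      rw [add_lie, add_lie, z1, z2]
      module
  have := Submodule.finrank_mono (show Submodule.span K (Set.range ![h1, u, v, ⁅u, v⁆]) ≤ W from
    Submodule.span_le.2 (by
      rintro _ ⟨i, rfl⟩
      fin_cases i
      exacts [m1, m2, m3, m4]))
  rwa [finrank_span_eq_card hli, Fintype.card_fin] at this

theorem exists_proj [FiniteDimensional K L] [IsKilling K L] (I : LieIdeal K L) :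
    ∃ π : L →ₗ[K] L, (∀ x, π x ∈ I) ∧ (∀ x y, π ⁅x, y⁆ = ⁅π x, π y⁆) ∧
      ∀ x, π x = 0 → ∀ y ∈ I, killingForm K L y x = 0 := by
  have hc : IsCompl I.toSubmodule I.killingCompl.toSubmodule :=
    LieSubmodule.isCompl_toSubmodule.2 I.isCompl_killingCompl
  have h0 := fun x => Submodule.projection_apply_eq_zero_iff hc (x := x)
  have h1 := fun x => Submodule.projection_apply_mem hc x
  have h2 := fun x => Submodule.projection_apply_of_mem_left hc (x := x)
  generalize Submodule.projection _ _ hc = π at h0 h1 h2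
  have h3 : ∀ x, x - π x ∈ I.killingCompl := fun x =>
    (h0 _).1 (by rw [map_sub, h2 _ (h1 x), sub_self])
  refine ⟨π, h1, fun x y => ?_, fun x hx => (LieIdeal.mem_killingCompl K L I).1 ((h0 x).1 hx)⟩
  have e : ⁅x, y⁆ = ⁅π x, π y⁆ + (⁅x - π x, y⁆ + ⁅π x, y - π y⁆) := by
    rw [sub_lie, lie_sub]; abel
  rw [e, map_add, h2 _ (I.lie_mem (h1 y)),
    (h0 _).2 (I.killingCompl.add_mem (lie_mem_left K L _ _ _ (h3 x)) (LieSubmodule.lie_mem _ (h3 y))),
    add_zero]

theorem not_rel [CharZero K] [FiniteDimensional K L] [IsKilling K L]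
    (h : ∀ I : LieIdeal K L, IsAtom I → finrank K I = 3) : ¬ Rel L := by
  rintro ⟨h1, h2, u, v, a1, a2, a3, a4, a5, a6⟩
  apply a6
  have hs : sSup {I : LieIdeal K L | IsAtom I} = ⊤ := IsSemisimple.sSup_atoms_eq_top
  have hk : ∀ I : LieIdeal K L, IsAtom I → ⁅u, v⁆ ∈ I.killingCompl := fun I hI => by
    obtain ⟨π, p1, p2, p3⟩ := exists_proj I
    refine (LieIdeal.mem_killingCompl K L I).2 (p3 _ ?_)
    by_contra hne
    have := four_le (K := K) I.toSubmodule (h1 := π h1) (h2 := π h2) (u := π u) (v := π v)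
      (by rw [← p2, a1, map_zero]) (by rw [← p2, a2]) (by rw [← p2, a3, map_zero])
      (by rw [← p2, a4, map_zero]) (by rw [← p2, a5]) (by rwa [← p2]) (p1 _) (p1 _) (p1 _)
      (I.lie_mem (p1 _))
    have h3 : finrank K I.toSubmodule = 3 := h I hI
    omega
  have hall : ∀ y : L, killingForm K L y ⁅u, v⁆ = 0 := fun y => by
    have hy : y ∈ sSup {I : LieIdeal K L | IsAtom I} := by rw [hs]; trivial
    rw [sSup_eq_iSup'] at hy
    induction hy using LieSubmodule.iSup_induction' with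
    | mem I y hy => exact (LieIdeal.mem_killingCompl K L I.1).1 (hk I.1 I.2) y hy
    | zero => simp
    | add _ _ _ _ h h' => simp [h, h']
  exact (killingForm_nondegenerate K L).2 _ hall

theorem br_simple [CharZero K] (W : Submodule K (K × K × K)) (hW : ∀ p, ∀ q ∈ W, br p q ∈ W)
    {k : K × K × K} (hk : k ∈ W) (h0 : k ≠ 0) : W = ⊤ := by
  obtain ⟨l, hl⟩ : ∃ l, bt l k ≠ 0 := by
    by_contra hn
    push Not at hn
    have h1 := hn (1, 0, 0)
    have h2 := hn (0, 1, 0)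
    have h3 := hn (0, 0, 1)
    simp only [bt] at h1 h2 h3
    exact h0 (Prod.ext (by simpa using h1) (Prod.ext (by simpa using h3) (by simpa using h2)))
  have hb : ∀ i j, br i j ∈ W := fun i j => by
    have h1 : br l (br k (br i j)) ∈ W :=
      hW _ _ (by rw [br_skew]; exact W.neg_mem (hW _ _ hk))
    rw [idC] at h1
    have h2 := W.smul_mem (bt l k)⁻¹ (W.add_mem h1 (W.smul_mem (tau i j l) hk))
    rwa [sub_add_cancel, smul_smul, inv_mul_cancel₀ hl, one_smul] at h2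
  refine eq_top_iff.2 fun p _ => ?_
  have e : p = br (0, p.1, 0) (0, 0, 1) + br (2⁻¹, 0, 0) (0, p.2.1, -p.2.2) := by
    ext <;> simp [br]
  rw [e]
  exact W.add_mem (hb _ _) (hb _ _)

variable (K L) in
/-- `L` is a sum of ideals that are copies of `sl_2` -/
def Split : Prop :=
  ∃ (ι : Type) (j : ι → (K × K × K) →ₗ[K] L), (∀ i, Function.Injective (j i)) ∧
    (∀ i p q, j i (br p q) = ⁅j i p, j i q⁆) ∧
    (∀ i (x : L) p, ⁅x, j i p⁆ ∈ LinearMap.range (j i)) ∧ ⨆ i, LinearMap.range (j i) = ⊤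

theorem split_atoms [CharZero K] [FiniteDimensional K L] [IsKilling K L] (h : Split K L)
    (I : LieIdeal K L) (hI : IsAtom I) : finrank K I = 3 := by
  obtain ⟨ι, j, j1, j2, j3, j4⟩ := h
  obtain ⟨x, hx, hx0⟩ : ∃ x ∈ I, x ≠ 0 := by
    by_contra hn
    push Not at hn
    exact hI.1 ((LieSubmodule.eq_bot_iff _).2 hn)
  obtain ⟨i, p, hp⟩ : ∃ i p, ⁅x, j i p⁆ ≠ 0 := by
    by_contra hn
    push Not at hn
    have : (⊤ : Submodule K L) ≤ LinearMap.ker (LieAlgebra.ad K L x) := by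
      rw [← j4]
      exact iSup_le fun i => by
        rintro _ ⟨p, rfl⟩
        exact hn i p
    have h2 : x ∈ LieAlgebra.center K L := (LieModule.mem_maxTrivSubmodule K L L x).2 fun y => by
      rw [← lie_skew, neg_eq_zero]
      exact this (Submodule.mem_top (x := y))
    rw [LieAlgebra.center_eq_bot] at h2
    exact hx0 h2
  obtain ⟨k, hk⟩ := j3 i x p
  have hW := br_simple (I.toSubmodule.comap (j i))
    (fun p q hq => by
      rw [Submodule.mem_comap, j2]
      exact I.lie_mem hq) (k := k)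
    (by rw [Submodule.mem_comap, hk]; exact lie_mem_left K L _ _ _ hx)
    (fun e => hp (by rw [← hk, e, map_zero]))
  let S : LieIdeal K L := ⟨LinearMap.range (j i), by
    rintro y _ ⟨q, rfl⟩
    exact j3 i y q⟩
  have hS : S = I := by
    refine (hI.le_iff.1 ?_).resolve_left fun e => hp ?_
    · rintro _ ⟨q, rfl⟩
      exact (hW.ge (Submodule.mem_top (x := q)) :)
    · exact (LieSubmodule.eq_bot_iff _).1 e _ (j3 i x p)
  rw [← hS]
  exact (LinearMap.finrank_range_of_inj (j1 i)).trans (by simp)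

theorem split_coords [FiniteDimensional K L] [IsKilling K L] (h : Split K L) :
    ∃ (ι : Type) (c : ι → L →ₗ[K] K × K × K), (∀ i x y, c i ⁅x, y⁆ = br (c i x) (c i y)) ∧
      ∀ x, (∀ i, c i x = 0) → x = 0 := by
  obtain ⟨ι, j, j1, j2, j3, j4⟩ := h
  have key : ∀ i, ∃ c : L →ₗ[K] K × K × K, (∀ x y, c ⁅x, y⁆ = br (c x) (c y)) ∧
      ∀ x, c x = 0 → ∀ p, killingForm K L (j i p) x = 0 := fun i => by
    obtain ⟨π, p1, p2, p3⟩ := exists_proj (⟨LinearMap.range (j i), by
      rintro y _ ⟨q, rfl⟩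
      exact j3 i y q⟩ : LieIdeal K L)
    obtain ⟨g, hg⟩ := (j i).exists_leftInverse_of_injective (LinearMap.ker_eq_bot.2 (j1 i))
    have hg' : ∀ p, g (j i p) = p := fun p => LinearMap.congr_fun hg p
    refine ⟨g ∘ₗ π, fun x y => ?_, fun x hx p => p3 x ?_ _ ⟨p, rfl⟩⟩
    · obtain ⟨p, hp⟩ := p1 x
      obtain ⟨q, hq⟩ := p1 y
      simp only [LinearMap.comp_apply]
      rw [p2, ← hp, ← hq, ← j2, hg', hg', hg']
    · obtain ⟨p, hp⟩ := p1 x
      rw [LinearMap.comp_apply, ← hp, hg'] at hx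
      rw [← hp, hx, map_zero]
  choose c c1 c2 using key
  refine ⟨ι, c, c1, fun x hx => (killingForm_nondegenerate K L).2 _ fun y => ?_⟩
  have : (⊤ : Submodule K L) ≤ LinearMap.ker ((killingForm K L).flip x) := by
    rw [← j4]
    exact iSup_le fun i => by
      rintro _ ⟨p, rfl⟩
      exact c2 i x (hx i) p
  exact this (Submodule.mem_top (x := y))

section roots

variable [CharZero K] [FiniteDimensional K L] [IsKilling K L] {H : LieSubalgebra K L}
  [H.IsCartanSubalgebra] [IsTriangularizable K H L]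

theorem exists_dual {β γ : Weight K H L} (hβ : β.IsNonZero) (hγ : γ.IsNonZero) (h1 : γ ≠ β)
    (h2 : γ ≠ -β) : ∃ t : H, γ t = 1 ∧ β t = 0 := by
  by_contra hn
  have h0 : ∀ t : H, β t = 0 → γ t = 0 := fun t ht => by
    by_contra h3
    exact hn ⟨(γ t)⁻¹ • t, by rw [map_smul, smul_eq_mul, inv_mul_cancel₀ h3],
      by rw [map_smul, ht, smul_zero]⟩
  refine (eq_neg_or_eq_of_eq_smul β γ hγ (γ (coroot β) / 2) (funext fun t => ?_)).elim h2 h1
  have := h0 (t - (β t / 2) • coroot β) (by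
    rw [map_sub, map_smul, root_apply_coroot hβ, smul_eq_mul]; ring)
  rw [map_sub, map_smul, smul_eq_mul, sub_eq_zero] at this
  rw [this, Pi.smul_apply, smul_eq_mul]
  ring

theorem comm_of_not_rel (hR : ¬ Rel L) {β γ : Weight K H L} (hβ : β.IsNonZero)
    (hγ : γ.IsNonZero) (h1 : γ ≠ β) (h2 : γ ≠ -β) {x y : L} (hx : x ∈ rootSpace H γ)
    (hy : y ∈ rootSpace H β) : ⁅x, y⁆ = 0 := by
  by_contra hne
  obtain ⟨t, t1, t2⟩ := exists_dual hβ hγ h1 h2
  obtain ⟨s, s1, s2⟩ := exists_dual hγ hβ h1.symm fun e => h2 (by rw [e, neg_neg])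
  have e1 : ∀ r : H, ⁅(r : L), x⁆ = γ r • x := lie_eq_smul_of_mem_rootSpace hx
  have e2 : ∀ r : H, ⁅(r : L), y⁆ = β r • y := lie_eq_smul_of_mem_rootSpace hy
  refine hR ⟨t, s, x, y, ?_, by rw [e1, t1, one_smul], by rw [e2, t2, zero_smul],
    by rw [e1, s2, zero_smul], by rw [e2, s1, one_smul], hne⟩
  exact congrArg Subtype.val (trivial_lie_zero H H t s)

theorem mem_line {β : Weight K H L} (hβ : β.IsNonZero) {y g : L} (hy : y ∈ rootSpace H β)
    (hg : g ∈ rootSpace H β) (h0 : g ≠ 0) : ∃ c : K, y = c • g := by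
  obtain ⟨c, hc⟩ := (finrank_eq_one_iff_of_nonzero' ⟨g, hg⟩
    (by rwa [ne_eq, LieSubmodule.mk_eq_zero])).mp (finrank_rootSpace_eq_one β hβ) ⟨y, hy⟩
  exact ⟨c, by simpa using hc.symm⟩

theorem root_sl2 (hR : ¬ Rel L) {α : Weight K H L} (hα : α.IsNonZero) :
    ∃ j : (K × K × K) →ₗ[K] L, Function.Injective j ∧ (∀ p q, j (br p q) = ⁅j p, j q⁆) ∧
      (∀ (x : L) p, ⁅x, j p⁆ ∈ LinearMap.range j) ∧ (coroot α : L) ∈ LinearMap.range j ∧
      ∀ x ∈ rootSpace H α, x ∈ LinearMap.range j := by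
  obtain ⟨h, e, f, t, he, hf⟩ := exists_isSl2Triple_of_weight_isNonZero hα
  let j : (K × K × K) →ₗ[K] L := LinearMap.coprod (LinearMap.toSpanSingleton K L h)
    (LinearMap.coprod (LinearMap.toSpanSingleton K L e) (LinearMap.toSpanSingleton K L f))
  have hj : ∀ p, j p = p.1 • h + (p.2.1 • e + p.2.2 • f) := fun p => rfl
  have b1 : ⁅h, e⁆ = (2 : K) • e := t.lie_h_e_smul K
  have b2 : ⁅h, f⁆ = -((2 : K) • f) := t.lie_lie_smul_f K
  have b3 : ⁅e, f⁆ = h := t.lie_e_f
  have b1' : ⁅e, h⁆ = -((2 : K) • e) := by rw [← lie_skew, b1]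
  have b2' : ⁅f, h⁆ = (2 : K) • f := by rw [← lie_skew, b2, neg_neg]
  have b3' : ⁅f, e⁆ = -h := by rw [← lie_skew, b3]
  have hm : ∀ p q, j (br p q) = ⁅j p, j q⁆ := fun p q => by
    simp only [hj, br, add_lie, lie_add, smul_lie, lie_smul, lie_self, b1, b2, b3, b1', b2', b3']
    module
  have mh : h ∈ LinearMap.range j := ⟨(1, 0, 0), by simp [hj]⟩
  have me : e ∈ LinearMap.range j := ⟨(0, 1, 0), by simp [hj]⟩
  have mf : f ∈ LinearMap.range j := ⟨(0, 0, 1), by simp [hj]⟩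
  have ml : ∀ a ∈ LinearMap.range j, ∀ b ∈ LinearMap.range j, ⁅a, b⁆ ∈ LinearMap.range j := by
    rintro _ ⟨p, rfl⟩ _ ⟨q, rfl⟩
    exact ⟨br p q, hm p q⟩
  have hα' : (-α).IsNonZero := hα.neg
  have hf' : f ∈ rootSpace H (-α : Weight K H L) := hf
  have hef : ∀ x : L, ⁅x, e⁆ ∈ LinearMap.range j ∧ ⁅x, f⁆ ∈ LinearMap.range j := fun x => by
    have hx : x ∈ ⨆ β : Weight K H L, genWeightSpace L β := by
      rw [iSup_genWeightSpace_eq_top']; trivial
    induction hx using LieSubmodule.iSup_induction' with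
    | zero => simp
    | add _ _ _ _ h h' =>
      rw [add_lie, add_lie]
      exact ⟨add_mem h.1 h'.1, add_mem h.2 h'.2⟩
    | mem β x hx =>
      by_cases hβ : β.IsZero
      · have hx' : x ∈ H := by
          have : x ∈ rootSpace H 0 := by rw [← hβ.eq]; exact hx
          simpa using this
        have e1 : ⁅x, e⁆ = _ := lie_eq_smul_of_mem_rootSpace he ⟨x, hx'⟩
        have e2 : ⁅x, f⁆ = _ := lie_eq_smul_of_mem_rootSpace hf ⟨x, hx'⟩
        rw [e1, e2]
        exact ⟨Submodule.smul_mem _ _ me, Submodule.smul_mem _ _ mf⟩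
      by_cases h1 : β = α
      · subst h1
        obtain ⟨c, rfl⟩ := mem_line hα hx he t.e_ne_zero
        exact ⟨ml _ (Submodule.smul_mem _ _ me) _ me, ml _ (Submodule.smul_mem _ _ me) _ mf⟩
      by_cases h2 : β = -α
      · subst h2
        obtain ⟨c, rfl⟩ := mem_line hα' hx hf' t.f_ne_zero
        exact ⟨ml _ (Submodule.smul_mem _ _ mf) _ me, ml _ (Submodule.smul_mem _ _ mf) _ mf⟩
      rw [comm_of_not_rel hR hα hβ h1 h2 hx he,
        comm_of_not_rel hR hα' hβ h2 (by rwa [neg_neg]) hx hf']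
      exact ⟨zero_mem _, zero_mem _⟩
  refine ⟨j, ?_, hm, fun x p => ?_, by rw [← t.h_eq_coroot hα he hf]; exact mh, fun x hx => ?_⟩
  · refine LinearMap.ker_eq_bot.1 ?_
    by_contra hn
    obtain ⟨k, hk, hk0⟩ := (Submodule.ne_bot_iff _).1 hn
    have := br_simple (LinearMap.ker j) (fun p q hq => by
      rw [LinearMap.mem_ker] at hq ⊢
      rw [hm, hq, lie_zero]) hk hk0
    have h3 : j (1, 0, 0) = 0 := this.ge (Submodule.mem_top (x := (1, 0, 0)))
    exact t.h_ne_zero (by simpa [hj] using h3)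
  · rw [hj, lie_add, lie_add, lie_smul, lie_smul, lie_smul, ← b3, leibniz_lie]
    exact add_mem (Submodule.smul_mem _ _ (add_mem (ml _ (hef x).1 _ mf) (ml _ me _ (hef x).2)))
      (add_mem (Submodule.smul_mem _ _ (hef x).1) (Submodule.smul_mem _ _ (hef x).2))
  · obtain ⟨c, rfl⟩ := mem_line hα hx he t.e_ne_zero
    exact Submodule.smul_mem _ _ me

end roots

theorem split_of_not_rel [CharZero K] [IsAlgClosed K] [FiniteDimensional K L] [IsKilling K L]
    (hR : ¬ Rel L) : Split K L := by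
  obtain ⟨x0, hx0⟩ := exists_isCartanSubalgebra_engel K L
  generalize LieSubalgebra.engel K x0 = H at hx0
  choose j j1 j2 j3 j4 j5 using
    fun α : {α : Weight K H L // α.IsNonZero} => root_sl2 hR α.2
  refine ⟨_, j, j1, j2, j3, eq_top_iff.2 fun x _ => ?_⟩
  have hH : (⊤ : Submodule K H) ≤ (⨆ i, LinearMap.range (j i)).comap H.toSubmodule.subtype := by
    rw [← RootPairing.IsRootSystem.span_coroot_eq_top (P := rootSystem H), Submodule.span_le]
    rintro _ ⟨α, rfl⟩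
    exact Submodule.mem_iSup_of_mem ⟨α, LieSubalgebra.isNonZero_coe_root α⟩ (j4 _)
  have hx : x ∈ ⨆ β : Weight K H L, genWeightSpace L β := by
    rw [iSup_genWeightSpace_eq_top']; trivial
  induction hx using LieSubmodule.iSup_induction' with
  | zero => simp
  | add _ _ _ _ h h' => exact add_mem (h trivial) (h' trivial)
  | mem β x hx =>
    by_cases hβ : β.IsZero
    · have hx' : x ∈ H := by
        have : x ∈ rootSpace H 0 := by rw [← hβ.eq]; exact hx
        simpa using this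
      exact hH (Submodule.mem_top (x := ⟨x, hx'⟩))
    · exact Submodule.mem_iSup_of_mem ⟨β, hβ⟩ (j5 _ x hx)

end Pool.Agent.Lib.MP_038c09_al.LieC
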