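import Pool.Agent.Lib.MP_038c09_al.Krull

/-! Commutative algebra for Lie varieties with derived algebra of class two. -/

set_option autoImplicit false

namespace Pool.Agent.Lib.MP_038c09_al.N2

open Polynomial

variable {F : Type} [Field F]

theorem exists_monic [CharZero F] (p : MvPolynomial (Fin 2) F) (hp : p ≠ 0) :
    ∃ ρ : F[X][X], ρ.Monic ∧ ∀ (D : Type) [CommRing D] [IsDomain D] [Algebra F D] (a e : D),
      e ≠ 0 → (∀ l : F, MvPolynomial.aeval ![l • a, l • (e - a)] p = 0) →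
        ρ.eval₂ (aeval e : F[X] →ₐ[F] D) a = 0 := by
  classical
  set q : MvPolynomial (Fin 2) F := MvPolynomial.aeval
    ![MvPolynomial.X 0, MvPolynomial.X 1 - MvPolynomial.X 0] p with hq
  have hv : ∀ (D : Type) [CommRing D] [Algebra F D] (x y : D),
      MvPolynomial.aeval ![x, y] q = MvPolynomial.aeval ![x, y - x] p := fun D _ _ x y => by
    rw [hq, MvPolynomial.comp_aeval_apply]
    congr 2
    ext i
    fin_cases i <;> simp
  have hq0 : q ≠ 0 := fun h => hp (by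
    have := hv (MvPolynomial (Fin 2) F) (MvPolynomial.X 0) (MvPolynomial.X 1 + MvPolynomial.X 0)
    rw [h, map_zero, add_sub_cancel_right, show (![MvPolynomial.X 0, MvPolynomial.X 1] :
      Fin 2 → MvPolynomial (Fin 2) F) = MvPolynomial.X by ext1 i; fin_cases i <;> rfl] at this
    simpa using this.symm)
  obtain ⟨m0, h0, hmin⟩ := q.support.exists_min_image (fun m => m 1)
    (MvPolynomial.support_nonempty.2 hq0)
  have hc : q.coeff m0 ≠ 0 := MvPolynomial.mem_support_iff.1 h0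
  set s := (q.support.filter fun m => m 0 + m 1 = m0 0 + m0 1).erase m0 with hs
  have hlt : ∀ m ∈ s, m 0 < m0 0 ∧ m0 1 ≤ m 1 := fun m hm => by
    obtain ⟨h1, h2⟩ := Finset.mem_erase.1 hm
    obtain ⟨h2, h3⟩ := Finset.mem_filter.1 h2
    have h4 := hmin m h2
    refine ⟨?_, h4⟩
    by_contra h5
    exact h1 (Finsupp.ext fun i => by fin_cases i <;> simp <;> omega)
  refine ⟨X ^ m0 0 + ∑ m ∈ s, C (C ((q.coeff m0)⁻¹ * q.coeff m) * X ^ (m 1 - m0 1)) * X ^ m 0,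
    monic_X_pow_add ((degree_sum_le _ _).trans_lt ((Finset.sup_lt_iff (WithBot.bot_lt_coe _)).2
      fun m hm => (degree_C_mul_X_pow_le _ _).trans_lt (by exact_mod_cast (hlt m hm).1))),
    fun D _ _ _ a e he h => ?_⟩
  have h1 : (∑ m ∈ q.support, C (q.coeff m • (a ^ m 0 * e ^ m 1)) * X ^ (m 0 + m 1) : D[X]) = 0 := by
    refine eq_zero_of_infinite_isRoot _ ((Set.infinite_range_of_injective
      (algebraMap F D).injective).mono ?_)
    rintro _ ⟨l, rfl⟩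
    have h2 := h l
    rw [smul_sub, ← hv, MvPolynomial.aeval_def, MvPolynomial.eval₂_eq'] at h2
    rw [Set.mem_ofPred_eq, IsRoot.def, eval_finsetSum, ← h2]
    refine Finset.sum_congr rfl fun m _ => ?_
    simp only [eval_mul, eval_C, eval_pow, eval_X, Fin.prod_univ_two, Matrix.cons_val_zero,
      Matrix.cons_val_one, Algebra.smul_def]
    ring
  have h2 := congrArg (fun r => coeff r (m0 0 + m0 1)) h1
  simp only [finsetSum_coeff, coeff_C_mul_X_pow, coeff_zero] at h2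
  rw [← Finset.sum_filter, show (q.support.filter fun m => m0 0 + m0 1 = m 0 + m 1) =
    q.support.filter fun m => m 0 + m 1 = m0 0 + m0 1 from
      Finset.filter_congr fun _ _ => eq_comm, ← Finset.add_sum_erase
      (q.support.filter fun m => m 0 + m 1 = m0 0 + m0 1) _
      (Finset.mem_filter.2 ⟨h0, rfl⟩), ← hs] at h2
  refine mul_left_cancel₀ (mul_ne_zero ((map_ne_zero (algebraMap F D)).2 hc)
    (pow_ne_zero (m0 1) he)) ?_
  rw [mul_zero, ← h2, eval₂_add, eval₂_finsetSum, mul_add, Finset.mul_sum]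
  congr 1
  · simp only [eval₂_X_pow, Algebra.smul_def]; ring
  · refine Finset.sum_congr rfl fun m hm => ?_
    obtain ⟨j, hj⟩ := Nat.exists_eq_add_of_le (hlt m hm).2
    have h3 : algebraMap F D (q.coeff m0) * algebraMap F D (q.coeff m0)⁻¹ = 1 := by
      rw [← map_mul, mul_inv_cancel₀ hc, map_one]
    rw [eval₂_mul, eval₂_C, eval₂_X_pow]
    simp only [hj, Nat.add_sub_cancel_left, RingHom.coe_coe,
      map_mul, aeval_C, map_pow, aeval_X, Algebra.smul_def]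
    linear_combination (algebraMap F D (q.coeff m) * a ^ m 0 * e ^ (m0 1 + j)) * h3

theorem exists_rad [CharZero F] (p : MvPolynomial (Fin 2) F) (hp : p ≠ 0) :
    ∃ ρ : F[X][X], ρ.Monic ∧ ∀ (S : Type) [CommRing S] [Algebra F S] (P : Ideal S)
      (a e a' e' : S), (∀ l m : F, MvPolynomial.aeval
        ![l • (a + m • a'), l • (e + m • e' - (a + m • a'))] p ∈ P) →
        e' * ρ.eval₂ (aeval e : F[X] →ₐ[F] S) a ∈ P.radical := by
  obtain ⟨ρ, h1, h2⟩ := exists_monic p hp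
  refine ⟨ρ, h1, fun S _ _ P a e a' e' h => ?_⟩
  rw [Ideal.radical_eq_sInf, Ideal.mem_sInf]
  rintro Q ⟨hQ, hp⟩
  by_cases he : e' ∈ Q
  · exact Q.mul_mem_right _ he
  refine Q.mul_mem_left _ ?_
  let π := Ideal.Quotient.mkₐ F Q
  let ψ : F → (S ⧸ Q)[X] →ₐ[F] S ⧸ Q := fun m =>
    (aeval (algebraMap F (S ⧸ Q) m)).restrictScalars F
  have h3 := h2 (S ⧸ Q)[X] (C (π a) + X * C (π a')) (C (π e) + X * C (π e'))
    (fun h => he (Ideal.Quotient.eq_zero_iff_mem.1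
      (by simpa [π] using congrArg (fun r => coeff r 1) h))) fun l => by
    refine eq_zero_of_infinite_isRoot _ ((Set.infinite_range_of_injective
      (algebraMap F (S ⧸ Q)).injective).mono ?_)
    rintro _ ⟨m, rfl⟩
    have h4 := Ideal.Quotient.eq_zero_iff_mem.2 (hQ (h l m))
    change π _ = 0 at h4
    rw [Set.mem_ofPred_eq, IsRoot.def, ← coe_aeval_eq_eval]
    change ψ m _ = 0
    rw [MvPolynomial.comp_aeval_apply] at h4 ⊢
    rw [← h4]
    congr 2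
    ext i
    fin_cases i <;> simp [ψ, Algebra.smul_def, π] <;> exact Or.inl (by ring)
  have h5 := congrArg (ψ 0 : (S ⧸ Q)[X] →+* S ⧸ Q) h3
  rw [hom_eval₂, map_zero] at h5
  refine Ideal.Quotient.eq_zero_iff_mem.1 ?_
  rw [hom_eval₂, ← h5]
  congr 1
  · ext <;> simp [ψ, π]
  · simp [ψ, π]

section Mod

variable {S T : Type} [CommRing S] [Algebra F S] [AddCommGroup T] [Module F T] [Module S T]
  [IsScalarTower F S T]

theorem st_adj {s : Set S} {W : Submodule F T} (h : ∀ g ∈ s, ∀ x ∈ W, g • x ∈ W) {g : S}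
    (hg : g ∈ Algebra.adjoin F s) : ∀ x ∈ W, g • x ∈ W := by
  induction hg using Algebra.adjoin_induction with
  | mem g hg => exact h g hg
  | algebraMap c => intro x hx; rw [algebraMap_smul]; exact W.smul_mem c hx
  | add a b _ _ ha hb => intro x hx; rw [add_smul]; exact W.add_mem (ha x hx) (hb x hx)
  | mul a b _ _ ha hb => intro x hx; rw [mul_smul]; exact ha _ (hb x hx)

/-- a stable subspace as a submodule over a subalgebra -/
def toSub (R : Subalgebra F S) (W : Submodule F T) (h : ∀ g ∈ R, ∀ x ∈ W, g • x ∈ W) :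
    Submodule R T where
  carrier := W
  add_mem' := W.add_mem
  zero_mem' := W.zero_mem
  smul_mem' g x hx := h g g.2 x hx

omit [IsScalarTower F S T] in
theorem fin_quot (R : Subalgebra F S) (s : Set S) (hs : s.Finite) (hg : Algebra.adjoin F s = ⊤)
    (r : Ideal S) (hi : ∀ g ∈ s, ∃ ρ : R[X], ρ.Monic ∧ aeval g ρ ∈ r) [Module.Finite S T] :
    ∃ G : Set T, G.Finite ∧ ∀ W : Submodule F T, (∀ c ∈ r, ∀ x, c • x ∈ W) → G ⊆ W →
      (∀ g ∈ R, ∀ x ∈ W, g • x ∈ W) → W = ⊤ := by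
  have : Algebra.FiniteType F S := ⟨Subalgebra.fg_def.2 ⟨s, hs, hg⟩⟩
  have : Algebra.FiniteType R (S ⧸ r) := .of_restrictScalars_finiteType F R _
  have : Algebra.IsIntegral R (S ⧸ r) := ⟨fun x => by
    obtain ⟨x, rfl⟩ := Ideal.Quotient.mk_surjective x
    have hx : x ∈ Algebra.adjoin F s := hg ▸ trivial
    induction hx using Algebra.adjoin_induction with
    | mem g hg =>
      obtain ⟨ρ, h1, h2⟩ := hi g hg
      refine ⟨ρ, h1, ?_⟩
      rw [← aeval_def, ← Ideal.Quotient.mkₐ_eq_mk R, aeval_algHom_apply]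
      exact Ideal.Quotient.eq_zero_iff_mem.2 h2
    | algebraMap c => exact isIntegral_algebraMap (x := algebraMap F R c)
    | add a b _ _ ha hb => rw [map_add]; exact ha.add hb
    | mul a b _ _ ha hb => rw [map_mul]; exact ha.mul hb⟩
  have : Module.Finite R (S ⧸ r) := Algebra.IsIntegral.finite
  have : Module.Finite (S ⧸ r) (T ⧸ (r • ⊤ : Submodule S T)) :=
    Module.Finite.of_restrictScalars_finite S _ _
  have : IsScalarTower R (S ⧸ r) (T ⧸ (r • ⊤ : Submodule S T)) := ⟨fun c x y => by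
    obtain ⟨x, rfl⟩ := Ideal.Quotient.mk_surjective x
    exact smul_assoc c x y⟩
  have h1 : Module.Finite R (T ⧸ (r • ⊤ : Submodule S T)) := Module.Finite.trans (S ⧸ r) _
  obtain ⟨G, hG, e⟩ := Submodule.fg_def.1 h1.fg_top
  choose σ hσ using (r • ⊤ : Submodule S T).mkQ_surjective
  refine ⟨σ '' G, hG.image _, fun W h2 h3 h4 => eq_top_iff.2 fun x _ => ?_⟩
  have h5 : ∀ y ∈ (r • ⊤ : Submodule S T), y ∈ W := fun y hy =>
    Submodule.smul_induction_on hy (fun c hc x _ => h2 c hc x) fun _ _ => W.add_mem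
  have h6 : (⊤ : Submodule R (T ⧸ (r • ⊤ : Submodule S T))) ≤
      (toSub R W h4).map ((r • ⊤ : Submodule S T).mkQ.restrictScalars R) := by
    rw [← e]
    exact Submodule.span_le.2 fun y hy => ⟨σ y, h3 ⟨y, hy, rfl⟩, hσ y⟩
  obtain ⟨y, hy, e⟩ := h6 (Submodule.mem_top (x := (r • ⊤ : Submodule S T).mkQ x))
  simpa using W.sub_mem hy (h5 _ ((Submodule.Quotient.eq _).1 e))

theorem krull_id (A Q : Type) [CommRing A] [Algebra F A] [Algebra.FiniteType F A]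
    [AddCommGroup Q] [Module A Q] [Module.Finite A Q] (q : Q) (hq : q ≠ 0) :
    ∃ I : Ideal A, q ∉ (I • ⊤ : Submodule A Q) ∧ Module.Finite F (A ⧸ I) := by
  have := Algebra.FiniteType.isNoetherianRing F A
  obtain ⟨m, hm, h⟩ := Ideal.exists_le_maximal (Ideal.torsionOf A Q q)
    fun h => hq ((Ideal.torsionOf_eq_top_iff A q).1 h)
  have h1 : q ∉ (⨅ i : ℕ, m ^ i • ⊤ : Submodule A Q) := fun h' => by
    obtain ⟨r, hr⟩ := (m.mem_iInf_smul_pow_eq_bot_iff q).1 h'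
    have : 1 - (r : A) ∈ m := h (by rw [Ideal.mem_torsionOf_iff, sub_smul, one_smul, hr, sub_self])
    exact hm.ne_top ((Ideal.eq_top_iff_one m).2 (by simpa using m.add_mem this r.2))
  obtain ⟨i, hi⟩ := not_forall.1 fun h' => h1 (Submodule.mem_iInf _ |>.2 h')
  exact ⟨m ^ i, hi, krull_fin_quot (F := F) A m hm i⟩

theorem fin_tors (A Q : Type) [CommRing A] [Algebra F A] [AddCommGroup Q] [Module A Q]
    [Module F Q] [IsScalarTower F A Q] [Module.Finite A Q] (c : Ideal A) [Module.Finite F (A ⧸ c)]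
    (h : ∀ r ∈ c, ∀ q : Q, r • q = 0) : Module.Finite F Q := by
  have h' : Module.IsTorsionBySet A Q c := fun q r => h r r.2 q
  let _ := h'.module
  have : IsScalarTower A (A ⧸ c) Q := h'.isScalarTower
  have : IsScalarTower F (A ⧸ c) Q := h'.isScalarTower
  have : Module.Finite (A ⧸ c) Q := .of_restrictScalars_finite A _ _
  exact Module.Finite.trans (A ⧸ c) _

omit [Module S T] in
theorem cofg_comap {T' : Type} [AddCommGroup T'] [Module F T'] (f : T' →ₗ[F] T)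
    {W : Submodule F T} (h : W.CoFG) : (W.comap f).CoFG := by
  rw [← Submodule.ker_mkQ W, ← LinearMap.ker_comp]
  exact Submodule.CoFG.ker _

omit [Module S T] in
theorem fg_of_cofg {J P : Submodule F T} (h : (J.comap P.subtype).CoFG) :
    ∃ U : Submodule F T, U.FG ∧ P ≤ (J ⊓ P) ⊔ U := by
  obtain ⟨U, hU⟩ := (J.comap P.subtype).exists_isCompl
  refine ⟨U.map P.subtype, (h.fg_of_isCompl hU).map _, fun x hx => ?_⟩
  obtain ⟨y, hy, z, hz, e⟩ := Submodule.mem_sup.1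
    (hU.sup_eq_top.ge (Submodule.mem_top (x := (⟨x, hx⟩ : P))))
  exact Submodule.mem_sup.2 ⟨y, ⟨hy, y.2⟩, z, ⟨z, hz, rfl⟩, congrArg Subtype.val e⟩

omit [Module S T] in
theorem closed_fd {κ : Type} (ρ : κ → T →ₗ[F] T) (K1 K' : Submodule F T) (h1 : K1 ≤ K')
    (U : Submodule F T) (hU : U.FG) (h2 : K' ≤ K1 ⊔ U)
    (hcl : ∀ a, a ∉ K1 → ∃ J : Submodule F T, K1 ≤ J ∧ (∀ t, ∀ x ∈ J, ρ t x ∈ J) ∧ J.CoFG ∧ a ∉ J)
    (a : T) (ha : a ∉ K') :
    ∃ J : Submodule F T, K1 ≤ J ∧ (∀ t, ∀ x ∈ J, ρ t x ∈ J) ∧ J.CoFG ∧ a ∉ J ⊔ K' := by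
  set V := U ⊔ Submodule.span F {a} with hV
  have : FiniteDimensional F V := Module.Finite.iff_fg.2 (hU.sup (Submodule.fg_span_singleton a))
  obtain ⟨J, ⟨a1, a2, a3⟩, hmin⟩ := (measure fun J : Submodule F T =>
    Module.finrank F (J.comap V.subtype)).wf.has_min
    {J | K1 ≤ J ∧ (∀ t, ∀ x ∈ J, ρ t x ∈ J) ∧ J.CoFG} ⟨⊤, le_top, fun _ _ _ => trivial, .top⟩
  have key : ∀ b ∈ J, b ∈ V → b ∈ K1 := fun b hb hb' => by
    by_contra h
    obtain ⟨J', b1, b2, b3, b4⟩ := hcl b h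
    refine hmin (J ⊓ J') ⟨le_inf a1 b1, fun t x hx => ⟨a2 t x hx.1, b2 t x hx.2⟩, a3.inf b3⟩
      (Submodule.finrank_lt_finrank_of_lt (lt_of_le_of_ne (Submodule.comap_mono inf_le_left)
        fun h' => b4 ?_))
    exact (h'.ge (show (⟨b, hb'⟩ : V) ∈ J.comap V.subtype from hb)).2
  refine ⟨J, a1, a2, a3, fun h => ha ?_⟩
  obtain ⟨y, hy, z, hz, e⟩ := Submodule.mem_sup.1 h
  obtain ⟨k, hk, u, hu, e'⟩ := Submodule.mem_sup.1 (h2 hz)
  have b1 : y + k ∈ K1 := key _ (J.add_mem hy (a1 hk)) (by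
    rw [show y + k = a - u by rw [← e, ← e']; abel]
    exact V.sub_mem (Submodule.mem_sup_right (Submodule.mem_span_singleton_self a))
      (Submodule.mem_sup_left hu))
  rw [← e]
  exact K'.add_mem (h1 (by simpa using K1.sub_mem b1 hk)) hz

theorem ca_main {σ : Type} [Fintype σ] [Module.Finite S T] (A E : σ → S)
    (hg : Algebra.adjoin F (Set.range A ∪ Set.range E) = ⊤) (K0 K : Submodule F T) (hle : K0 ≤ K)
    (k1 : ∀ a, ∀ x ∈ K0, E a • x ∈ K0) (k2 : ∀ a, ∀ x ∈ K0, (A a * (E a - A a)) • x ∈ K0)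
    (k3 : ∀ a, ∀ x ∈ K, E a • x ∈ K) (ρ : F[X][X]) (hρ : ρ.Monic) (N : ℕ)
    (hN : ∀ a b x, (E b * ρ.eval₂ (aeval (E a) : F[X] →ₐ[F] S) (A a)) ^ N • x ∈ K0)
    (U : Submodule F T) (hU : U.FG) (hfin : ∀ x ∈ K, (∀ b, E b ^ N • x ∈ K0) → x ∈ K0 ⊔ U)
    (x : T) (hx : x ∉ K) :
    ∃ Q : Submodule F T, (∀ s : S, ∀ y ∈ Q, s • y ∈ Q) ∧ Q.CoFG ∧ x ∉ K ⊔ Q := by
  let g2 : σ ⊕ σ → S := Sum.elim E fun a => A a * (E a - A a)
  let R1 := Algebra.adjoin F (Set.range E)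
  let R2 := Algebra.adjoin F (Set.range g2)
  have e1 : ∀ a, E a ∈ R1 := fun a => Algebra.subset_adjoin ⟨a, rfl⟩
  have e2 : ∀ i, g2 i ∈ R2 := fun i => Algebra.subset_adjoin ⟨i, rfl⟩
  have s1 : ∀ W : Submodule F T, (∀ i, ∀ y ∈ W, E i • y ∈ W) → ∀ g ∈ R1, ∀ y ∈ W, g • y ∈ W :=
    fun W h g hg => st_adj (by rintro _ ⟨i, rfl⟩; exact h i) hg
  have s2 : ∀ W : Submodule F T, (∀ i, ∀ y ∈ W, g2 i • y ∈ W) → ∀ g ∈ R2, ∀ y ∈ W, g • y ∈ W :=
    fun W h g hg => st_adj (by rintro _ ⟨i, rfl⟩; exact h i) hg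
  have hfs := (Set.finite_range A).union (Set.finite_range E)
  have hi2 : ∀ g ∈ Set.range A ∪ Set.range E, ∃ r : R2[X], r.Monic ∧ aeval g r ∈ (⊥ : Ideal S) := by
    rintro _ (⟨a, rfl⟩ | ⟨a, rfl⟩)
    · refine ⟨X ^ 2 + (C ⟨_, e2 (.inr a)⟩ - C ⟨_, e2 (.inl a)⟩ * X),
        monic_X_pow_add (by compute_degree!), ?_⟩
      simp [g2]
      ring
    · exact ⟨X - C ⟨_, e2 (.inl a)⟩, monic_X_sub_C _, by simp [g2]⟩
  have k12 : ∀ i, ∀ y ∈ K0, g2 i • y ∈ K0 := by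
    rintro (a | a)
    exacts [k1 a, k2 a]
  let L : S → T →ₗ[F] T := fun s => Algebra.lsmul F F T s
  have hL : ∀ s y, L s y = s • y := fun _ _ => rfl
  obtain ⟨G2, hG2, gen2⟩ := fin_quot (T := T) R2 _ hfs hg ⊥ hi2
  have hcl : ∀ a, a ∉ K0 → ∃ J : Submodule F T, K0 ≤ J ∧ (∀ t, ∀ y ∈ J, L (g2 t) y ∈ J) ∧
      J.CoFG ∧ a ∉ J := fun a ha => by
    obtain ⟨N', n1, -, n3, ⟨U, hU, n4⟩, n5⟩ := krull_sep (fun i => L (g2 i)) K0 ⊤ le_top k12
      (fun _ _ _ => trivial) (fun i j y _ => by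
        rw [hL, hL, hL, hL, smul_comm, sub_self]; exact K0.zero_mem) G2 hG2 (fun _ _ => trivial)
      (fun W _ h2 h3 => (gen2 W (fun c hc y => by
        rw [Ideal.mem_bot.1 hc, zero_smul]; exact W.zero_mem) h2 (s2 W h3)).ge) a ha
    refine ⟨N', n1, fun t => n5 _ (k12 t) (fun _ _ => trivial) fun i y _ => ?_,
      hU.cofg_of_codisjoint (codisjoint_iff_le_sup.2 (by rwa [sup_comm])), n3⟩
    rw [hL, hL, hL, hL, smul_comm, sub_self]; exact K0.zero_mem
  let P0 : Submodule F T := ⨅ b, K0.comap (L (E b ^ N))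
  have hP : ∀ y, y ∈ P0 ↔ ∀ b, E b ^ N • y ∈ K0 := fun y => Submodule.mem_iInf _
  have p1 : K0 ≤ P0 := fun y hy => (hP y).2 fun b => s1 K0 k1 _ (pow_mem (e1 b) N) y hy
  have p2 : ∀ i, ∀ y ∈ P0, g2 i • y ∈ P0 := fun i y hy => (hP _).2 fun b => by
    rw [smul_comm]; exact k12 i _ ((hP y).1 hy b)
  obtain ⟨Q0, q1, q2, ⟨U', hU', q3⟩, q4⟩ : ∃ Q0 : Submodule F T, Q0 ≤ P0 ∧
      (∀ i, ∀ y ∈ Q0, g2 i • y ∈ Q0) ∧ (∃ U' : Submodule F T, U'.FG ∧ P0 ≤ Q0 ⊔ U') ∧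
        x ∉ K ⊔ Q0 := by
    by_cases h : x ∈ K ⊔ P0
    · obtain ⟨k, hk, a, ha, e⟩ := Submodule.mem_sup.1 h
      obtain ⟨J, j1, j2, j3, j4⟩ := closed_fd (fun t => L (g2 t)) K0 (K ⊓ P0) (le_inf hle p1) U hU
        (fun y hy => hfin y hy.1 ((hP y).1 hy.2)) hcl a fun h' => hx (e ▸ K.add_mem hk h'.1)
      refine ⟨J ⊓ P0, inf_le_right, fun i y hy => ⟨j2 i y hy.1, p2 i y hy.2⟩, fg_of_cofg (cofg_comap _ j3),
        fun h' => j4 ?_⟩
      obtain ⟨k', hk', b, hb, e'⟩ := Submodule.mem_sup.1 h'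
      have e3 : a - b = k' - k := by
        rw [eq_sub_of_add_eq' e, ← e']; abel
      rw [show a = b + (a - b) by abel]
      exact Submodule.add_mem_sup hb.1 ⟨e3 ▸ K.sub_mem hk' hk, P0.sub_mem ha hb.2⟩
    · exact ⟨P0, le_rfl, p2, ⟨⊥, Submodule.fg_bot, le_sup_left⟩, h⟩
  let r : σ → S := fun a => ρ.eval₂ (aeval (E a) : F[X] →ₐ[F] S) (A a) ^ N
  obtain ⟨G1, hG1, gen1⟩ := fin_quot (T := T) R1 _ hfs hg (Ideal.span (Set.range r)) (by
    rintro _ (⟨a, rfl⟩ | ⟨a, rfl⟩)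
    · refine ⟨(ρ.map (aeval (⟨_, e1 a⟩ : R1) : F[X] →ₐ[F] R1)) ^ N, (hρ.map _).pow N,
        Ideal.subset_span ⟨a, ?_⟩⟩
      rw [map_pow, aeval_def, eval₂_map]
      simp only [r]
      congr 2
      ext <;> simp
    · exact ⟨X - C ⟨_, e1 a⟩, monic_X_sub_C _, by simp⟩)
  have hr : ∀ c ∈ Ideal.span (Set.range r), ∀ y, c • y ∈ P0 := fun c hc => by
    induction hc using Submodule.span_induction with
    | mem c hc =>
      obtain ⟨a, rfl⟩ := hc
      exact fun y => (hP _).2 fun b => by rw [smul_smul, ← mul_pow]; exact hN a b y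
    | zero => intro y; rw [zero_smul]; exact P0.zero_mem
    | add a b _ _ ha hb => intro y; rw [add_smul]; exact P0.add_mem (ha y) (hb y)
    | smul a b _ hb => intro y; rw [smul_eq_mul, mul_comm, mul_smul]; exact hb _
  obtain ⟨G3, hG3, e3⟩ := Submodule.fg_def.1 hU'
  have gen : ∀ W : Submodule F T, Q0 ≤ W → G1 ∪ G3 ⊆ W → (∀ g ∈ R1, ∀ y ∈ W, g • y ∈ W) →
      W = ⊤ := fun W w1 w2 w3 => gen1 W (fun c hc y => (q3.trans (sup_le w1 (e3 ▸
        Submodule.span_le.2 (Set.subset_union_right.trans w2)))) (hr c hc y))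
      (Set.subset_union_left.trans w2) w3
  have q5 : ∀ g ∈ R1, ∀ y ∈ Q0, g • y ∈ Q0 := s1 Q0 fun i => q2 (.inl i)
  let K1 : Submodule R1 T := toSub R1 (K ⊔ Q0) fun g hg y hy => by
    obtain ⟨k, hk, b, hb, rfl⟩ := Submodule.mem_sup.1 hy
    rw [smul_add]
    exact Submodule.add_mem_sup (s1 K k3 g hg k hk) (q5 g hg b hb)
  have : Algebra.FiniteType F R1 :=
    ⟨(Subalgebra.fg_top _).2 (Subalgebra.fg_def.2 ⟨_, Set.finite_range E, rfl⟩)⟩
  have hf : ∀ K1 : Submodule R1 T, (∀ y ∈ Q0, y ∈ K1) → Module.Finite R1 (T ⧸ K1) := fun K1 h => by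
    refine ⟨Submodule.fg_def.2 ⟨K1.mkQ '' (G1 ∪ G3), (hG1.union hG3).image _, ?_⟩⟩
    have := gen (((Submodule.span R1 (K1.mkQ '' (G1 ∪ G3))).comap K1.mkQ).restrictScalars F)
      (fun y hy => by
        have : K1.mkQ y = 0 := (Submodule.Quotient.mk_eq_zero _).2 (h y hy)
        simp [this]) (fun y hy => Submodule.subset_span ⟨y, hy, rfl⟩) fun g hg y hy =>
          Submodule.smul_mem ((Submodule.span R1 (K1.mkQ '' (G1 ∪ G3))).comap K1.mkQ) ⟨g, hg⟩ hy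
    refine eq_top_iff.2 fun q _ => ?_
    obtain ⟨y, rfl⟩ := K1.mkQ_surjective q
    exact this.ge (Submodule.mem_top (x := y))
  have := hf K1 fun y hy => (Submodule.mem_sup_right hy : y ∈ K ⊔ Q0)
  obtain ⟨c, c1, c2⟩ := krull_id (F := F) R1 (T ⧸ K1) (K1.mkQ x)
    fun h => q4 ((Submodule.Quotient.mk_eq_zero _).1 h)
  let K2 : Submodule R1 T := toSub R1 Q0 q5 ⊔ c • ⊤
  have := hf K2 fun y hy => Submodule.mem_sup_left hy
  have c3 : (K2.restrictScalars F).CoFG := by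
    have := fin_tors (F := F) R1 (T ⧸ K2) c fun r hr q => by
      obtain ⟨y, rfl⟩ := K2.mkQ_surjective q
      exact (Submodule.Quotient.mk_eq_zero _).2
        (Submodule.mem_sup_right (Submodule.smul_mem_smul hr trivial))
    exact Module.Finite.equiv (Submodule.Quotient.restrictScalarsEquiv F _).symm
  have c4 : ∀ g ∈ R2, ∀ y ∈ K2.restrictScalars F, g • y ∈ K2.restrictScalars F :=
    s2 _ fun i y hy => by
      obtain ⟨a, ha, b, hb, rfl⟩ := Submodule.mem_sup.1 (show y ∈ K2 from hy)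
      rw [smul_add]
      refine Submodule.add_mem_sup (S := toSub R1 Q0 q5) (q2 i a ha) ?_
      refine Submodule.smul_induction_on hb (fun r hr z _ => ?_) fun z z' h h' => ?_
      · rw [smul_comm]; exact Submodule.smul_mem_smul hr trivial
      · rw [smul_add]; exact Submodule.add_mem _ h h'
  obtain ⟨G, hG, gen3⟩ := fin_quot (T := S) R2 _ hfs hg ⊥ hi2
  refine ⟨⨅ s, (K2.restrictScalars F).comap (L s), fun s y hy => (Submodule.mem_iInf _).2 fun s' => ?_,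
    (Submodule.CoFG.sInf_of_finite (s := (fun s => (K2.restrictScalars F).comap (L s)) '' G) (hG.image _) (by
      rintro _ ⟨s, -, rfl⟩
      exact cofg_comap _ c3)).of_le fun y hy => (Submodule.mem_iInf _).2 fun s => ?_, fun h => c1 ?_⟩
  · have := (Submodule.mem_iInf _).1 hy (s' * s)
    rwa [Submodule.mem_comap, hL, mul_smul] at this
  · exact (gen3 ((K2.restrictScalars F).comap ((LinearMap.toSpanSingleton S T y).restrictScalars F))
      (fun c hc z => by simp [Ideal.mem_bot.1 hc])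
      (fun g hg => Submodule.mem_sInf.1 hy _ ⟨g, hg, rfl⟩) fun g hg z hz => by
        simpa [mul_smul] using c4 g hg _ hz).ge (Submodule.mem_top (x := s))
  · obtain ⟨k, hk, y, hy, rfl⟩ := Submodule.mem_sup.1 h
    have h1 := (Submodule.mem_iInf _).1 hy 1
    rw [Submodule.mem_comap, hL, one_smul] at h1
    obtain ⟨a, ha, b, hb, rfl⟩ := Submodule.mem_sup.1 (show y ∈ K2 from h1)
    have h2 : K1.mkQ (k + a) = 0 :=
      (Submodule.Quotient.mk_eq_zero _).2 (Submodule.add_mem_sup hk ha : k + a ∈ K ⊔ Q0)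
    rw [← add_assoc, map_add, h2, zero_add]
    refine Submodule.smul_induction_on hb (fun r hr z _ => ?_) fun z z' h h' => ?_
    · rw [map_smul]; exact Submodule.smul_mem_smul hr trivial
    · rw [map_add]; exact Submodule.add_mem _ h h'

theorem sub_abs {ι : Type} [Fintype ι] [Module.Finite S T] (a : ι → S)
    (ha : Algebra.adjoin F (Set.range a) = ⊤) (M : Submodule F T)
    (hM : ∀ i, ∀ x ∈ M, a i • x ∈ M) :
    (∃ G : Set T, G.Finite ∧ G ⊆ M ∧ ∀ W : Submodule F T, G ⊆ W → (∀ i, ∀ x ∈ W, a i • x ∈ W) →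
      M ≤ W) ∧ ∀ n : ℕ, ∃ U : Submodule F T, U.FG ∧ ∀ x, (∀ i, a i ^ n • x = 0) → x ∈ U := by
  have : Algebra.FiniteType F S := ⟨Subalgebra.fg_def.2 ⟨_, Set.finite_range a, ha⟩⟩
  have := Algebra.FiniteType.isNoetherianRing F S
  have up : ∀ W : Submodule F T, (∀ i, ∀ x ∈ W, a i • x ∈ W) →
      ∃ W' : Submodule S T, W'.restrictScalars F = W := fun W h =>
    ⟨⟨W.toAddSubmonoid, fun g q hq => st_adj (s := Set.range a) (by rintro _ ⟨i, rfl⟩; exact h i)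
      (ha ▸ trivial : g ∈ _) q hq⟩, rfl⟩
  refine ⟨?_, fun n => ?_⟩
  · obtain ⟨M, rfl⟩ := up M hM
    obtain ⟨G, hG, e⟩ := Submodule.fg_def.1 (IsNoetherian.noetherian M)
    refine ⟨G, hG, e ▸ Submodule.subset_span, fun W w1 w2 => ?_⟩
    obtain ⟨W, rfl⟩ := up W w2
    exact e ▸ Submodule.span_le.2 w1
  · let M := Submodule.torsionBySet S T (Set.range fun i => a i ^ n)
    obtain ⟨G, hG, e⟩ := fin_quot (T := M) ⊥ _ (Set.finite_range a) ha
      (Module.annihilator S M) (by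
        rintro _ ⟨i, rfl⟩
        refine ⟨X ^ n, monic_X_pow n, Module.mem_annihilator.2 fun q => Subtype.ext ?_⟩
        rw [map_pow, aeval_X]
        exact (Submodule.mem_torsionBySet_iff _ _).1 q.2 ⟨_, i, rfl⟩)
    have e' := e (Submodule.span F G) (fun c hc x => by
      rw [Module.mem_annihilator.1 hc]; exact zero_mem _) Submodule.subset_span fun g hg x hx => by
        obtain ⟨c, rfl⟩ := Algebra.mem_bot.1 hg
        rw [algebraMap_smul]
        exact Submodule.smul_mem _ _ hx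
    have : Module.Finite F M := ⟨e' ▸ Submodule.fg_span hG⟩
    refine ⟨M.restrictScalars F, Module.Finite.iff_fg.1 this, fun x hx =>
      (Submodule.mem_torsionBySet_iff _ _).2 ?_⟩
    rintro ⟨_, i, rfl⟩
    exact hx i

end Mod

open scoped IsMulCommutative in
theorem sub_fg {P ι : Type} [AddCommGroup P] [Module F P] [Fintype ι] (θ : ι → P →ₗ[F] P)
    (K N : Submodule F P) (hK : ∀ i, ∀ x ∈ K, θ i x ∈ K) (hN : ∀ i, ∀ x ∈ N, θ i x ∈ N)
    (hc : ∀ i j, ∀ x ∈ N, θ i (θ j x) - θ j (θ i x) ∈ K) (S : Set P) (hS : S.Finite) (hSN : S ⊆ N)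
    (hgen : ∀ W : Submodule F P, K ≤ W → S ⊆ W → (∀ i, ∀ x ∈ W, θ i x ∈ W) → N ≤ W)
    (N' : Submodule F P) (h1 : K ≤ N') (h2 : N' ≤ N) (h3 : ∀ i, ∀ x ∈ N', θ i x ∈ N') :
    (∃ S' : Set P, S'.Finite ∧ S' ⊆ N' ∧ ∀ W : Submodule F P, K ≤ W → S' ⊆ W →
      (∀ i, ∀ x ∈ W, θ i x ∈ W) → N' ≤ W) ∧
    ∀ n : ℕ, ∃ U : Submodule F P, U.FG ∧ ∀ x ∈ N, (∀ i, (θ i ^ n) x ∈ K) → x ∈ K ⊔ U := by
  set K' := K.comap N.subtype with hK'
  set t : ι → Module.End F (N ⧸ K') := fun i => krullInd K N (θ i) (hK i) (hN i) with ht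
  set A := Algebra.adjoin F (Set.range t) with hA
  have : IsMulCommutative A := Algebra.isMulCommutative_adjoin F (by
    rintro _ ⟨i, rfl⟩ _ ⟨j, rfl⟩
    exact krullInd_comm K N _ _ _ _ _ _ (hc i j))
  let a : ι → A := fun i => ⟨t i, Algebra.subset_adjoin ⟨i, rfl⟩⟩
  have ha : Algebra.adjoin F (Set.range a) = ⊤ := by
    rw [← Algebra.adjoin_adjoin_coe_preimage]
    congr 1
    ext x
    exact ⟨fun ⟨i, h⟩ => ⟨i, congrArg Subtype.val h⟩, fun ⟨i, h⟩ => ⟨i, Subtype.ext h⟩⟩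
  let dn : Submodule F P → Submodule F (N ⧸ K') := fun W => (W.comap N.subtype).map K'.mkQ
  have d1 : ∀ W, K ≤ W → ∀ x : N, K'.mkQ x ∈ dn W → (x : P) ∈ W := fun W w1 x ⟨y, hy, e⟩ => by
    simpa using W.sub_mem hy (w1 ((Submodule.Quotient.eq K').1 e))
  have d2 : ∀ W, (∀ i, ∀ x ∈ W, θ i x ∈ W) → ∀ i, ∀ q ∈ dn W, a i • q ∈ dn W := by
    rintro W h i _ ⟨y, hy, rfl⟩
    exact ⟨⟨_, hN i y y.2⟩, h i y hy, rfl⟩
  have : Module.Finite A (N ⧸ K') := by
    refine ⟨Submodule.fg_def.2 ⟨K'.mkQ '' (Subtype.val ⁻¹' S),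
      (hS.preimage Subtype.val_injective.injOn).image _, ?_⟩⟩
    set M := Submodule.span A (K'.mkQ '' (Subtype.val ⁻¹' S))
    have := hgen (((M.restrictScalars F).comap K'.mkQ).map N.subtype) (fun x hx => ⟨⟨x, h2 (h1 hx)⟩, by
        have : K'.mkQ ⟨x, h2 (h1 hx)⟩ = 0 := (Submodule.Quotient.mk_eq_zero _).2 hx
        simp [this], rfl⟩) (fun x hx => ⟨⟨x, hSN hx⟩, Submodule.subset_span ⟨_, hx, rfl⟩, rfl⟩) (by
      rintro i _ ⟨x, hx, rfl⟩
      exact ⟨⟨_, hN i x x.2⟩, M.smul_mem (a i) hx, rfl⟩)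
    refine eq_top_iff.2 fun q _ => ?_
    obtain ⟨x, rfl⟩ := Submodule.Quotient.mk_surjective _ q
    obtain ⟨y, hy, e⟩ := this x.2
    exact Subtype.ext e ▸ hy
  obtain ⟨⟨G, g1, g2, g3⟩, g4⟩ := sub_abs a ha (dn N') (d2 N' h3)
  choose s hs using K'.mkQ_surjective
  refine ⟨⟨(fun q => (s q : P)) '' G, g1.image _, ?_, fun W w1 w2 w3 x hx =>
    d1 W w1 ⟨x, h2 hx⟩ (g3 (dn W) (fun q hq => ⟨s q, w2 ⟨q, hq, rfl⟩, hs q⟩) (d2 W w3) ⟨_, hx, rfl⟩)⟩,
    fun n => ?_⟩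
  · rintro _ ⟨q, hq, rfl⟩
    exact d1 _ h1 _ (by rw [hs]; exact g2 hq)
  · have hp : ∀ i m (x : N), ∃ h, (a i ^ m) • K'.mkQ x = K'.mkQ ⟨(θ i ^ m) x, h⟩ := fun i m x => by
      induction m with
      | zero => exact ⟨x.2, one_smul _ _⟩
      | succ m ih =>
        obtain ⟨h, e⟩ := ih
        refine ⟨by rw [pow_succ']; exact hN i _ h, ?_⟩
        rw [pow_succ', mul_smul, e]
        simp only [pow_succ']
        rfl
    obtain ⟨U, hU, u1⟩ := g4 n
    obtain ⟨G, hG, rfl⟩ := Submodule.fg_def.1 hU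
    refine ⟨Submodule.span F ((fun q => (s q : P)) '' G), Submodule.fg_span (hG.image _),
      fun x hx hn => d1 _ le_sup_left ⟨x, hx⟩ (Submodule.span_le.2 (fun q hq => ?_)
        (u1 _ fun i => ?_))⟩
    · exact ⟨s q, Submodule.mem_sup_right (Submodule.subset_span ⟨q, hq, rfl⟩), hs q⟩
    · obtain ⟨h, e⟩ := hp i n ⟨x, hx⟩
      exact e.trans ((Submodule.Quotient.mk_eq_zero _).2 (hn i))

theorem comap_fd {T P : Type} [AddCommGroup T] [Module F T] [AddCommGroup P] [Module F P]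
    (φ : T →ₗ[F] P) (J U : Submodule F P) (hU : U.FG) :
    ∃ U' : Submodule F T, U'.FG ∧ (J ⊔ U).comap φ ≤ J.comap φ ⊔ U' := by
  obtain ⟨V, h1, h2⟩ := fg_of_cofg (J := J.comap φ) (P := (J ⊔ U).comap φ) (by
    rw [← Submodule.ker_mkQ J, ← LinearMap.ker_comp, ← LinearMap.ker_comp,
      ← Submodule.range_fg_iff_ker_cofg]
    refine (hU.map J.mkQ).of_le ?_
    rintro _ ⟨⟨x, hx⟩, rfl⟩
    rw [Submodule.ker_mkQ] at hx
    obtain ⟨y, hy, z, hz, e⟩ := Submodule.mem_sup.1 hx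
    exact ⟨z, hz, (Submodule.Quotient.eq _).2 (by simpa [← e] using hy)⟩)
  exact ⟨V, h1, h2.trans (sup_le_sup_right inf_le_left _)⟩

theorem cofg_of_le_sup {P : Type} [AddCommGroup P] [Module F P] {C N U : Submodule F P}
    (hC : C.CoFG) (hU : U.FG) (h : C ≤ N ⊔ U) : N.CoFG := by
  obtain ⟨V, hV⟩ := C.exists_isCompl
  refine (hU.sup (hC.fg_of_isCompl hV)).cofg_of_codisjoint (codisjoint_iff_le_sup.2 ?_)
  rw [← hV.sup_eq_top, sup_comm _ N, ← sup_assoc]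
  exact sup_le_sup_right h _

end Pool.Agent.Lib.MP_038c09_al.N2
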