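import Pool.Agent.Lib.MP_038c09_al.Defs

/-! Definitions for Lie varieties whose derived algebras are nilpotent of class two. -/

set_option autoImplicit false

namespace Pool.Agent.Lib.MP_038c09_al

/-- The square `x_0 x_0`. -/
noncomputable def acm (F : Type) [Field F] : FA F ℕ := mon F (.of 0 * .of 0)

/-- The Jacobi polynomial `(x_0 x_1) x_2 + (x_1 x_2) x_0 + (x_2 x_0) x_1`. -/
noncomputable def jac (F : Type) [Field F] : FA F ℕ :=
  mon F (.of 0 * .of 1 * .of 2) + mon F (.of 1 * .of 2 * .of 0) + mon F (.of 2 * .of 0 * .of 1)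

/-- The monomial `((x_0 x_1) (x_2 x_3)) (x_4 x_5)`. -/
noncomputable def n2a (F : Type) [Field F] : FA F ℕ :=
  mon F (.of 0 * .of 1 * (.of 2 * .of 3) * (.of 4 * .of 5))

/-- Every polynomial of `I` vanishes when its variables take values in the subset `S` of the
associative algebra `A` and the product is read as the commutator. -/
def SatL {F : Type} [Field F] (I : Set (FA F ℕ)) {A : Type} [Ring A] [Algebra F A] (S : Set A) :
    Prop :=
  ∀ h : FA F ℕ →ₗ[F] A, (∀ f g, h (f * g) = h f * h g - h g * h f) →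
    (∀ i, h (mon F (.of i)) ∈ S) → ∀ f ∈ I, h f = 0

/-- Upper triangular `3 × 3` matrices whose diagonal is a multiple of `(1, 0, -c)`. -/
def Tri {F : Type} [Field F] (c : F) : Set (Matrix (Fin 3) (Fin 3) F) :=
  {M | (∀ i j, j < i → M i j = 0) ∧ M 1 1 = 0 ∧ M 2 2 = -c * M 0 0}

end Pool.Agent.Lib.MP_038c09_al
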