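import Pool.Agent.Lib.MP_038c09_al.N2Pos
import Pool.Agent.Lib.MP_038c09_al.N2Defs
import Pool.Agent.Lib.MP_038c09_al.LieNeg

/-! The classification of RFD-varieties of Lie algebras with derived algebra of class two. -/

set_option autoImplicit false

namespace Pool.Agent.Lib.MP_038c09_al.N2

open LieC

attribute [local instance 100] LieRing.ofAssociativeRing

variable {F : Type} [Field F] {X Y : Type} {I : Set (FA F ℕ)}

/-- the elements of `Tri c` -/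
def mat (c h a b q : F) : Matrix (Fin 3) (Fin 3) F := !![h, a, q; 0, 0, b; 0, 0, -c * h]

theorem mat_lie (c h a b q h' a' b' q' : F) : ⁅mat c h a b q, mat c h' a' b' q'⁆ =
    mat c 0 (h * a' - h' * a) (c * (h * b' - h' * b)) ((1 + c) * (h * q' - h' * q) + a * b' - a' * b) := by
  ext i j
  fin_cases i <;> fin_cases j <;> simp [mat, Ring.lie_def] <;> ring

theorem mat_add (c h a b q h' a' b' q' : F) : mat c h a b q + mat c h' a' b' q' =
    mat c (h + h') (a + a') (b + b') (q + q') := by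
  ext i j
  fin_cases i <;> fin_cases j <;> simp [mat]
  ring

theorem mat_sub (c h a b q h' a' b' q' : F) : mat c h a b q - mat c h' a' b' q' =
    mat c (h - h') (a - a') (b - b') (q - q') := by
  ext i j
  fin_cases i <;> fin_cases j <;> simp [mat]
  ring

theorem mat_smul (c r h a b q : F) : r • mat c h a b q = mat c (r * h) (r * a) (r * b) (r * q) := by
  ext i j
  fin_cases i <;> fin_cases j <;> simp [mat]
  ring

theorem mat_zero (c : F) : mat c 0 0 0 0 = 0 := by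
  ext i j
  fin_cases i <;> fin_cases j <;> simp [mat]

theorem tri_iff {c : F} {M : Matrix (Fin 3) (Fin 3) F} :
    M ∈ Tri c ↔ ∃ h a b q, M = mat c h a b q := by
  refine ⟨fun ⟨h1, h2, h3⟩ => ⟨M 0 0, M 0 1, M 1 2, M 0 2, ?_⟩, ?_⟩
  · ext i j
    fin_cases i <;> fin_cases j <;> simp [mat, h2, h3, h1]
  · rintro ⟨h, a, b, q, rfl⟩
    refine ⟨fun i j h => ?_, rfl, rfl⟩
    fin_cases i <;> fin_cases j <;> simp [mat] at h ⊢

theorem tri_ev {c : F} (h : FA F X →ₗ[F] Matrix (Fin 3) (Fin 3) F)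
    (h1 : ∀ f g, h (f * g) = h f * h g - h g * h f) (h2 : ∀ i, h (mon F (.of i)) ∈ Tri c)
    (f : FA F X) : h f ∈ Tri c := by
  refine fa_ind ⟨⟨⟨{f | h f ∈ Tri c}, ?_⟩, ?_⟩, ?_⟩ h2 (fun a ha b hb => ?_) f
  · intro a b ha hb
    obtain ⟨_, _, _, _, e⟩ := tri_iff.1 ha
    obtain ⟨_, _, _, _, e'⟩ := tri_iff.1 hb
    exact tri_iff.2 ⟨_, _, _, _, by rw [map_add, e, e', mat_add]⟩
  · exact tri_iff.2 ⟨_, _, _, _, by rw [map_zero, mat_zero]⟩
  · intro r a ha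
    obtain ⟨_, _, _, _, e⟩ := tri_iff.1 ha
    exact tri_iff.2 ⟨_, _, _, _, by rw [map_smul, e, mat_smul]⟩
  · obtain ⟨_, _, _, _, e⟩ := tri_iff.1 ha
    obtain ⟨_, _, _, _, e'⟩ := tri_iff.1 hb
    exact tri_iff.2 ⟨_, _, _, _, by rw [h1, e, e', ← Ring.lie_def, mat_lie]⟩

theorem sub_mem_T (φ : Y → FA F X) {g : FA F Y} (hg : g ∈ idealGen (TVal I Y)) :
    sub φ g ∈ idealGen (TVal I X) := by
  refine (idealGen_le (J := (idealGen (TVal I X)).comap (sub φ)) (fun x y hy => ?_) ?_) hg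
  · simp only [Submodule.mem_comap, LieC.sub_mul]
    exact isIdeal_idealGen _ _ _ hy
  · rintro _ ⟨f, hf, ψ, rfl⟩
    refine subset_idealGen _ ⟨f, hf, fun i => sub φ (ψ i), ?_⟩
    exact ext_mul (sub φ ∘ₗ sub ψ) (sub _) (fun a b => a * b)
      (fun f g => by simp only [LinearMap.comp_apply, LieC.sub_mul]) (LieC.sub_mul _)
      (fun y => by simp [sub_of]) f

theorem exists_L (hA : acm F ∈ idealGen (TVal I ℕ)) (hJ : jac F ∈ idealGen (TVal I ℕ))
    (K : Submodule F (FA F X)) (hK : IsIdeal K) (hle : idealGen (TVal I X) ≤ K) :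
    ∃ (L : Type) (_ : LieRing L) (_ : LieAlgebra F L) (q : FA F X →ₗ[F] L),
      Function.Surjective q ∧ LinearMap.ker q = K ∧ (∀ f g, q (f * g) = ⁅q f, q g⁆) ∧
        ∀ g ∈ idealGen (TVal I ℕ), g ∈ Ids F L := by
  let μ := quotMul K hK
  have h0 : ∀ g ∈ idealGen (TVal I ℕ), ∀ φ, K.mkQ (sub φ g) = 0 := fun g hg φ =>
    (Submodule.Quotient.mk_eq_zero _).2 (hle (sub_mem_T φ hg))
  choose s hs using K.mkQ_surjective
  have h1 : ∀ a, μ a a = 0 := fun a => by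
    simpa only [acm, mon_mul, mon_of, LieC.sub_mul, sub_of, mkQ_mul K hK, hs] using
      h0 _ hA fun _ => s a
  have h2 : ∀ a b, μ a b = -μ b a := fun a b => by
    have := h1 (a + b)
    simp only [map_add, LinearMap.add_apply, h1, zero_add, add_zero] at this
    exact eq_neg_of_add_eq_zero_right this
  let _ : LieRing (FA F X ⧸ K) :=
    { bracket := fun a b => μ a b
      add_lie := fun a b c => by simp only [map_add, LinearMap.add_apply]
      lie_add := fun a b c => map_add _ _ _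
      lie_self := h1
      leibniz_lie := fun a b c => by
        have := h0 _ hJ fun i => s (if i = 0 then a else if i = 1 then b else c)
        simp only [jac, map_add, mon_mul, mon_of, LieC.sub_mul, sub_of, mkQ_mul K hK, hs] at this
        change μ (μ a b) c + μ (μ b c) a + μ (μ c a) b = 0 at this
        change μ a (μ b c) = μ (μ a b) c + μ b (μ a c)
        rw [h2 a (μ b c), h2 b (μ a c), h2 a c, map_neg, LinearMap.neg_apply, neg_neg,
          neg_eq_iff_add_eq_zero, ← this]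
        abel }
  let _ : LieAlgebra F (FA F X ⧸ K) := { lie_smul := fun r a b => map_smul _ _ _ }
  refine ⟨FA F X ⧸ K, _, _, K.mkQ, K.mkQ_surjective, K.ker_mkQ, mkQ_mul K hK,
    fun g hg => mem_Ids.2 fun φ => ?_⟩
  refine (ext_mul (ev F φ) (K.mkQ ∘ₗ sub fun i => s (φ i)) (fun a b => ⁅a, b⁆) (ev_mul _)
    (fun f g => congrArg K.mkQ (LieC.sub_mul _ f g)) (fun i => ?_) g).trans (h0 g hg _)
  rw [ev_of, LinearMap.comp_apply, sub_of, hs]

variable {L L' : Type} [LieRing L] [LieAlgebra F L] [LieRing L'] [LieAlgebra F L']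

theorem univ (q : FA F X →ₗ[F] L) (q1 : Function.Surjective q)
    (q2 : LinearMap.ker q = idealGen (TVal I X)) (q3 : ∀ f g, q (f * g) = ⁅q f, q g⁆)
    (hI : I ⊆ Ids F L') (v : X → L') : ∃ π : L →ₗ[F] L', (∀ a b, π ⁅a, b⁆ = ⁅π a, π b⁆) ∧
      ∀ x, π (q (FreeNonUnitalNonAssocAlgebra.of F x)) = v x := by
  have h : LinearMap.ker q ≤ LinearMap.ker (ev F v) := q2 ▸
    idealGen_le (isIdeal_ker (bra F L') _ (ev_mul v)) fun t ht => ev_tval hI v ht
  obtain ⟨s, hs⟩ := q.exists_rightInverse_of_surjective (LinearMap.range_eq_top.2 q1)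
  have h2 : ∀ f, (ev F v ∘ₗ s) (q f) = ev F v f := fun f =>
    (LinearMap.sub_mem_ker_iff.1 (h (LinearMap.sub_mem_ker_iff.2 (LinearMap.congr_fun hs (q f)))))
  refine ⟨ev F v ∘ₗ s, fun a b => ?_, fun x => (h2 _).trans (ev_of v x)⟩
  obtain ⟨a, rfl⟩ := q1 a
  obtain ⟨b, rfl⟩ := q1 b
  rw [← q3, h2, h2, h2, ev_mul]

theorem D1_ind (g : L →ₗ[F] L') (h : ∀ x y : L, g ⁅x, y⁆ = 0) : ∀ u ∈ D1 F L, g u = 0 :=
  (Submodule.map₂_le.2 fun x _ y _ => h x y : D1 F L ≤ LinearMap.ker g)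

theorem n2_of (h : n2a F ∈ Ids F L) : ∀ d ∈ D2 F L, ∀ u ∈ D1 F L, ⁅d, u⁆ = 0 := by
  have h1 : ∀ a b c d e f : L, ⁅⁅⁅a, b⁆, ⁅c, d⁆⁆, ⁅e, f⁆⁆ = 0 := fun a b c d e f => by
    simpa [n2a, mon_mul, mon_of, ev_mul, ev_of] using
      mem_Ids.1 h fun i => [a, b, c, d, e, f].getD i 0
  exact fun d hd u hu => (Submodule.map₂_le.2 fun a ha b hb => D1_ind (bra F L ⁅a, b⁆)
    (fun e f => D1_ind ((bra F L).flip ⁅e, f⁆ ∘ₗ bra F L a) (fun c d => D1_ind
      ((bra F L).flip ⁅e, f⁆ ∘ₗ (bra F L).flip ⁅c, d⁆) (fun a b => h1 a b c d e f) a ha) b hb) u hu :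
    D2 F L ≤ LinearMap.ker ((bra F L).flip u)) hd

theorem pow_hom {π : L →ₗ[F] L'} (h : ∀ a b, π ⁅a, b⁆ = ⁅π a, π b⁆) (x u : L) (k : ℕ) :
    π ((bra F L x ^ k : Module.End F L) u) = (bra F L' (π x) ^ k : Module.End F L') (π u) := by
  induction k with
  | zero => rfl
  | succ k ih => rw [pow_succ', pow_succ']; exact (h _ _).trans (congrArg _ ih)

theorem Z_hom {π : L →ₗ[F] L'} (h : ∀ a b, π ⁅a, b⁆ = ⁅π a, π b⁆) (x u v : L)
    (p : MvPolynomial (Fin 2) F) : π (Z F x p u v) = Z F (π x) p (π u) (π v) := by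
  refine LinearMap.congr_fun ((MvPolynomial.basisMonomials (Fin 2) F).ext
    (f₁ := π ∘ₗ ((Z F x).flip u).flip v) (f₂ := ((Z F (π x)).flip (π u)).flip (π v)) fun m => ?_) p
  rw [MvPolynomial.coe_basisMonomials]
  change π (Z F x _ u v) = Z F (π x) _ (π u) (π v)
  rw [Z_mon, Z_mon, h, pow_hom h, pow_hom h]

theorem lemA (hn : ∀ d ∈ D2 F L, ∀ u ∈ D1 F L, ⁅d, u⁆ = 0) (hI : I ⊆ Ids F L) {t u v : L}
    (hu : u ∈ D1 F L) (hv : v ∈ D1 F L) {α β : L →ₗ[F] L} (a0 : ∀ a b, α ⁅a, b⁆ = ⁅α a, α b⁆)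
    (b0 : ∀ a b, β ⁅a, b⁆ = ⁅β a, β b⁆) (a1 : α t = t) (a2 : α u = 0) (a3 : α v = v)
    (b1 : β t = t) (b2 : β u = u) (b3 : β v = 0) (hp : ∀ p, Z F t p u v = 0 → p = 0) (c : F) :
    SatL I (Tri c) := by
  let x : ℕ → L := fun i => (bra F L t ^ i : Module.End F L) u
  let y : ℕ → L := fun i => (bra F L t ^ i : Module.End F L) v
  have x1 : ∀ i, ⁅t, x i⁆ = x (i + 1) := fun i => by simp only [x, pow_succ']; rfl
  have y1 : ∀ i, ⁅t, y i⁆ = y (i + 1) := fun i => by simp only [y, pow_succ']; rfl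
  have x2 : ∀ i, x i ∈ D1 F L := fun i => by
    cases i with
    | zero => exact hu
    | succ i => exact x1 i ▸ mem_D1 _ _
  have y2 : ∀ i, y i ∈ D1 F L := fun i => by
    cases i with
    | zero => exact hv
    | succ i => exact y1 i ▸ mem_D1 _ _
  have x3 : ∀ i, α (x i) = 0 := fun i => by rw [pow_hom a0, a2, map_zero]
  have x4 : ∀ i, β (x i) = x i := fun i => by rw [pow_hom b0, b1, b2]
  have y3 : ∀ i, α (y i) = y i := fun i => by rw [pow_hom a0, a1, a3]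
  have y4 : ∀ i, β (y i) = 0 := fun i => by rw [pow_hom b0, b3, map_zero]
  let Δ : L →ₗ[F] L := (LinearMap.id - α) ∘ₗ (LinearMap.id - β)
  have hΔ : ∀ w, Δ w = w - β w - α (w - β w) := fun _ => rfl
  let W := D2 F L ⊓ LinearMap.ker Δ
  let g : Unit ⊕ ℕ ⊕ ℕ ⊕ (ℕ × ℕ) ⊕ W → Matrix (Fin 3) (Fin 3) F × L :=
    Sum.elim (fun _ => (mat c 1 0 0 0, t)) <| Sum.elim (fun i => (mat c 0 1 0 0, x i)) <|
      Sum.elim (fun j => (mat c 0 0 (c ^ j) 0, y j)) <|
        Sum.elim (fun p => (mat c 0 0 0 (c ^ p.2), ⁅x p.1, y p.2⁆)) fun w => (mat c 0 0 0 0, w)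
  let R := Submodule.span F (Set.range g)
  have r0 : ∀ i, g i ∈ R := fun i => Submodule.subset_span ⟨i, rfl⟩
  have r5 : ∀ w ∈ D2 F L, Δ w = 0 → (mat c 0 0 0 0, w) ∈ R := fun w h1 h2 =>
    r0 (.inr (.inr (.inr (.inr ⟨w, h1, h2⟩))))
  have r6 : ∀ a b q q' : F, ∀ u ∈ D1 F L, ∀ d ∈ D2 F L,
      ⁅(mat c 0 a b q, u), (mat c 0 0 0 q', d)⁆ ∈ R := fun a b q q' u hu d hd => by
    rw [LieAlgebra.Prod.bracket_apply, mat_lie, ← lie_skew u, hn d hd u hu]
    simp [mat_zero, Prod.mk_zero_zero]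
  have sk : ∀ a b : Matrix (Fin 3) (Fin 3) F × L, ⁅a, b⁆ ∈ R → ⁅b, a⁆ ∈ R := fun a b h => by
    rw [← lie_skew]; exact neg_mem h
  have r7 : ∀ i, ⁅(mat c 1 0 0 0, t), g i⁆ ∈ R := by
    rintro (_ | i | j | p | w)
    · exact (lie_self (mat c 1 0 0 0, t)).symm ▸ zero_mem _
    · simpa [g, mat_lie, x1] using r0 (.inr (.inl (i + 1)))
    · simpa [g, mat_lie, y1, pow_succ'] using r0 (.inr (.inr (.inl (j + 1))))
    · simpa [g, mat_lie, leibniz_lie t, x1, y1, pow_succ', mat_add, add_mul] using add_mem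
        (r0 (.inr (.inr (.inr (.inl (p.1 + 1, p.2)))))) (r0 (.inr (.inr (.inr (.inl (p.1, p.2 + 1))))))
    · have h : Δ w = 0 := w.2.2
      simpa [g, mat_lie] using r5 _ (D2_ad t _ w.2.1) (by
        rw [hΔ, b0, b1, ← lie_sub, a0, a1, ← lie_sub, ← hΔ, h, lie_zero])
  have r8 : ∀ i j, ⁅(mat c 0 1 0 0, x i), (mat c 0 0 (c ^ j) 0, y j)⁆ ∈ R := fun i j => by
    simpa [g, mat_lie] using r0 (.inr (.inr (.inr (.inl (i, j)))))
  have r10 : ∀ i j, ⁅(mat c 0 1 0 0, x i), (mat c 0 1 0 0, x j)⁆ ∈ R := fun i j => by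
    simpa [mat_zero] using r5 _ (mem_D2 (x2 i) (x2 j)) (by simp [hΔ, b0, x4])
  have r11 : ∀ i j, ⁅(mat c 0 0 (c ^ i) 0, y i), (mat c 0 0 (c ^ j) 0, y j)⁆ ∈ R := fun i j => by
    simpa [mat_lie] using r5 _ (mem_D2 (y2 i) (y2 j)) (by simp [hΔ, b0, a0, y3, y4])
  have r9 : Submodule.map₂ (bra F _) R R ≤ R := by
    rw [Submodule.map₂_span_span, Submodule.span_le]
    rintro _ ⟨_, ⟨i, rfl⟩, _, ⟨j, rfl⟩, rfl⟩
    have z := sk _ _ (r7 i)
    rcases i with (_ | i | i | p | w)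
    · exact r7 j
    all_goals rcases j with (_ | j | j | p' | w')
    exacts [z, r10 i j, r8 i j, r6 _ _ _ _ _ (x2 i) _ (mem_D2 (x2 _) (y2 _)),
      r6 _ _ _ _ _ (x2 i) _ w'.2.1, z, sk _ _ (r8 j i), r11 i j,
      r6 _ _ _ _ _ (y2 i) _ (mem_D2 (x2 _) (y2 _)), r6 _ _ _ _ _ (y2 i) _ w'.2.1, z,
      sk _ _ (r6 _ _ _ _ _ (x2 j) _ (mem_D2 (x2 _) (y2 _))),
      sk _ _ (r6 _ _ _ _ _ (y2 j) _ (mem_D2 (x2 _) (y2 _))),
      r6 _ _ _ _ _ (mem_D1 _ _) _ (mem_D2 (x2 _) (y2 _)), r6 _ _ _ _ _ (mem_D1 _ _) _ w'.2.1, z,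
      sk _ _ (r6 _ _ _ _ _ (x2 j) _ w.2.1), sk _ _ (r6 _ _ _ _ _ (y2 j) _ w.2.1),
      sk _ _ (r6 _ _ _ _ _ (mem_D1 _ _) _ w.2.1), r6 _ _ _ _ _ (D2_le w.2.1) _ w'.2.1]
  have cl : ∀ a ∈ R, ∀ b ∈ R, ⁅a, b⁆ ∈ R := fun a ha b hb => r9 (Submodule.apply_mem_map₂ _ ha hb)
  have key : ∀ r ∈ R, ∃ p, r.1 0 2 = MvPolynomial.eval ![1, c] p ∧ Δ r.2 = Z F t p u v := by
    intro r hr
    induction hr using Submodule.span_induction with
    | zero => exact ⟨0, by simp⟩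
    | add a b _ _ ha hb =>
      obtain ⟨p, h1, h2⟩ := ha
      obtain ⟨q, h3, h4⟩ := hb
      exact ⟨p + q, by simp [h1, h2, h3, h4]⟩
    | smul r a _ ha =>
      obtain ⟨p, h1, h2⟩ := ha
      exact ⟨r • p, by simp [h1, h2]⟩
    | mem r hr =>
      obtain ⟨_ | i | i | p | w, rfl⟩ := hr
      · exact ⟨0, by simp [g, mat, hΔ, b1]⟩
      · exact ⟨0, by simp [g, mat, hΔ, x4]⟩
      · exact ⟨0, by simp [g, mat, hΔ, y3, y4]⟩
      · refine ⟨MvPolynomial.monomial (Finsupp.equivFunOnFinite.symm ![p.1, p.2]) 1, ?_, ?_⟩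
        · simp [g, mat, MvPolynomial.eval_monomial, Finsupp.prod_pow]
        · rw [Z_mon]
          simp [g, hΔ, a0, b0, x3, y4, x, y]
      · exact ⟨0, by simp [g, mat], by simpa [g] using w.2.2⟩
  have key2 : ∀ m, (m, (0 : L)) ∈ R → m 0 2 = 0 := fun m hm => by
    obtain ⟨p, h1, h2⟩ := key _ hm
    rw [map_zero] at h2
    rw [hp p h2.symm, map_zero] at h1
    exact h1
  intro h h1 h2 f hf
  have h6 := tri_ev h h1 h2
  have h3 : ∀ m ∈ Tri c, ∃ w, (m, w) ∈ R := fun m hm => by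
    obtain ⟨k, a, b, q, rfl⟩ := tri_iff.1 hm
    have := add_mem (add_mem (add_mem (R.smul_mem k (r0 (.inl ()))) (R.smul_mem a (r0 (.inr (.inl 0)))))
      (R.smul_mem b (r0 (.inr (.inr (.inl 0)))))) (R.smul_mem q (r0 (.inr (.inr (.inr (.inl (0, 0)))))))
    exact ⟨_, by simpa [g, mat_add, mat_smul] using this⟩
  choose ψ hψ using fun i => h3 _ (h2 i)
  have h4 := fa_ind (R.comap (h.prod (ev F ψ))) (fun i => by
    simpa [ev_of, mon_of] using hψ i) (fun a ha b hb => by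
      have := cl _ ha _ hb
      simpa [h1, ev_mul, Ring.lie_def] using this) f
  have h5 : (h f, (0 : L)) ∈ R := by simpa [mem_Ids.1 (hI hf) ψ] using h4
  obtain ⟨k, a, b, q, e⟩ := tri_iff.1 (h6 f)
  rw [e] at h5 ⊢
  have h8 := cl _ h5 _ (r0 (.inr (.inl 0)))
  have h9 := cl _ h5 _ (r0 (.inr (.inr (.inl 0))))
  have h10 := cl _ h8 _ (r0 (.inr (.inr (.inl 0))))
  simp only [g, Sum.elim_inl, Sum.elim_inr, LieAlgebra.Prod.bracket_apply, zero_lie,
    mat_lie] at h8 h9 h10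
  have e1 := key2 _ h5
  have e2 := key2 _ h8
  have e3 := key2 _ h9
  have e4 := key2 _ h10
  simp [mat] at e1 e2 e3 e4
  rw [e1, e2, e3, e4, mat_zero]

theorem collapse2 [Module.Finite F L] {t1 t2 x y : L} (r1 : ⁅t1, t2⁆ = 0) (r2 : ⁅t2, x⁆ = x)
    (r3 : y - ⁅t1, y⁆ + ⁅t2, y - ⁅t1, y⁆⁆ = y) (r4 : ⁅x, y⁆ = 0) : ⁅x, ⁅t1, y⁆⁆ = 0 := by
  let f : L →ₗ[F] L := LinearMap.id + bra F L t2
  let g : L →ₗ[F] L := LinearMap.id - bra F L t1
  have hc : ∀ w, f (g w) = g (f w) := fun w => by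
    simp only [f, g, LinearMap.add_apply, LinearMap.sub_apply, LinearMap.id_apply, bra_apply,
      lie_sub, lie_add, leibniz_lie t1 t2 w, r1, zero_lie]
    abel
  let W := LinearMap.ker (bra F L x) ⊓ LinearMap.eqLocus (f ∘ₗ g) LinearMap.id
  have hW : ∀ w, w ∈ W ↔ ⁅x, w⁆ = 0 ∧ f (g w) = w := fun w => Iff.rfl
  have hst : ∀ w ∈ W, f w ∈ W := fun w hw => by
    rw [hW] at hw ⊢
    refine ⟨?_, by rw [← hc, hw.2]⟩
    have := leibniz_lie t2 x w
    rw [r2, hw.1, lie_zero, zero_add] at this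
    rw [show f w = w + ⁅t2, w⁆ from rfl, lie_add, hw.1, ← this, add_zero]
  have hinj : Function.Injective (f.restrict hst) := by
    refine (injective_iff_map_eq_zero _).2 fun w hw => Subtype.ext ?_
    have h2 := ((hW w).1 w.2).2
    rw [hc, show f w = 0 from congrArg Subtype.val hw, map_zero] at h2
    exact h2.symm
  obtain ⟨w, hw⟩ := LinearMap.injective_iff_surjective.1 hinj ⟨y, (hW y).2 ⟨r4, r3⟩⟩
  have h2 := (hW w).1 w.2
  rw [hc, show f w = y from congrArg Subtype.val hw] at h2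
  have h3 := h2.1
  rwa [← h2.2, show g y = y - ⁅t1, y⁆ from rfl, lie_sub, r4, zero_sub, neg_eq_zero] at h3

theorem neg [CharZero F] (hA : acm F ∈ idealGen (TVal I ℕ)) (hJ : jac F ∈ idealGen (TVal I ℕ))
    (hI : ∀ c : F, SatL I (Tri c)) : ¬ IsRFDVariety I := by
  classical
  intro H
  let o : Fin 4 → FA F (Fin 4) := FreeNonUnitalNonAssocAlgebra.of F
  let w : Fˣ → Fin 4 → Matrix (Fin 3) (Fin 3) F := fun s =>
    ![mat (s - 1) (s : F)⁻¹ 0 0 0, mat (s - 1) 1 0 0 0, mat (s - 1) 0 1 0 0, mat (s - 1) 0 0 1 0]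
  have h1 : ∀ (s : Fˣ) f, ev F (w s) f ∈ Tri ((s : F) - 1) := fun s =>
    tri_ev _ (ev_mul _) fun i => by
      rw [mon_of, ev_of]
      fin_cases i <;> exact tri_iff.2 ⟨_, _, _, _, rfl⟩
  have h2 : ∀ f, ∃ c d : F, ∀ s, ev F (w s) f 0 0 = c * (s : F)⁻¹ + d := by
    refine fa_ind (F := F) ⟨⟨⟨{f | ∃ c d : F, ∀ s, ev F (w s) f 0 0 = c * (s : F)⁻¹ + d},
      ?_⟩, ?_⟩, ?_⟩ ?_ ?_
    · rintro f g ⟨c, d, hf⟩ ⟨c', d', hg⟩
      exact ⟨c + c', d + d', fun s => by rw [map_add, Matrix.add_apply, hf, hg]; ring⟩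
    · exact ⟨0, 0, fun s => by simp⟩
    · rintro k f ⟨c, d, hf⟩
      exact ⟨k * c, k * d, fun s => by rw [map_smul, Matrix.smul_apply, hf, smul_eq_mul]; ring⟩
    · intro i
      fin_cases i
      · exact ⟨1, 0, fun s => by simp [ev_of, w, mat]⟩
      · exact ⟨0, 1, fun s => by simp [ev_of, w, mat]⟩
      · exact ⟨0, 0, fun s => by simp [ev_of, w, mat]⟩
      · exact ⟨0, 0, fun s => by simp [ev_of, w, mat]⟩
    · refine fun f _ g _ => ⟨0, 0, fun s => ?_⟩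
      obtain ⟨_, _, _, _, e⟩ := tri_iff.1 (h1 s f)
      obtain ⟨_, _, _, _, e'⟩ := tri_iff.1 (h1 s g)
      rw [ev_mul, e, e', mat_lie]
      simp [mat]
  let K' : Submodule F (FA F (Fin 4)) :=
    ⟨⟨⟨{f | ∃ r : Polynomial F, ∀ s : Fˣ, ev F (w s) f = mat ((s : F) - 1) 0 0 0 (r.eval (s : F))}, by
      rintro f g ⟨r, hf⟩ ⟨r', hg⟩
      exact ⟨r + r', fun s => by simp [hf, hg, mat_add]⟩⟩, ⟨0, fun s => by simp [mat_zero]⟩⟩, by
      rintro k f ⟨r, hf⟩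
      exact ⟨k • r, fun s => by simp [hf, mat_smul]⟩⟩
  have hK : IsIdeal K' := by
    rintro f g ⟨r, hg⟩
    obtain ⟨c, d, hf⟩ := h2 f
    refine ⟨⟨(Polynomial.C c + Polynomial.C d * Polynomial.X) * r, fun s => ?_⟩,
      ⟨-((Polynomial.C c + Polynomial.C d * Polynomial.X) * r), fun s => ?_⟩⟩
    all_goals
      obtain ⟨k, _, _, _, e⟩ := tri_iff.1 (h1 s f)
      have h3 := hf s
      rw [e, show mat _ k _ _ _ 0 0 = k from rfl] at h3
      rw [ev_mul, e, hg, mat_lie, h3]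
      simp
      congr 1
      field_simp
  let R : Finset (FA F (Fin 4)) :=
    {o 0 * o 1, o 1 * o 2 - o 2, o 3 - o 0 * o 3 + o 1 * (o 3 - o 0 * o 3) - o 3, o 2 * o 3}
  obtain ⟨J, j1, j2, j3, j4⟩ := H 4 R (o 2 * (o 0 * o 3)) fun hmem => by
    have hle : idealGen (TVal I (Fin 4) ∪ ↑R) ≤ K' := by
      refine idealGen_le hK ?_
      rintro t (⟨f, hf, φ, rfl⟩ | ht)
      · refine ⟨0, fun s => ?_⟩
        rw [Polynomial.eval_zero, mat_zero]
        exact hI _ (ev F (w s) ∘ₗ sub φ) (fun f g => by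
          simp only [LinearMap.comp_apply, LieC.sub_mul, ev_mul, Ring.lie_def])
          (fun i => h1 s _) f hf
      · simp only [R, Finset.coe_insert, Finset.coe_singleton, Set.mem_insert_iff,
          Set.mem_singleton_iff] at ht
        rcases ht with rfl | rfl | rfl | rfl
        · exact ⟨0, fun s => by simp [o, ev_mul, ev_of, w, mat_lie]⟩
        · exact ⟨0, fun s => by simp [o, ev_mul, ev_of, w, mat_lie, mat_zero]⟩
        · refine ⟨0, fun s => ?_⟩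
          simp [o, ev_mul, ev_of, w, mat_lie, mat_sub, mat_add]
          congr 1
          field_simp
          ring
        · exact ⟨1, fun s => by simp [o, ev_mul, ev_of, w, mat_lie]⟩
    obtain ⟨r, hr⟩ := hle hmem
    have h0 : ∀ s : Fˣ, (Polynomial.X * r - (Polynomial.X - 1)).IsRoot (s : F) := fun s => by
      have h3 := congrFun (congrFun (hr s) 0) 2
      simp [o, ev_mul, ev_of, w, mat_lie] at h3
      simp [mat] at h3
      simp [← h3]
      field_simp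
      ring
    have h6 : (Polynomial.X * r - (Polynomial.X - 1) : Polynomial F) = 0 := by
      refine Polynomial.eq_zero_of_infinite_isRoot _ ?_
      refine (Set.Finite.infinite_compl (Set.finite_singleton (0 : F))).mono fun x hx => ?_
      exact h0 (Units.mk0 x hx)
    simpa using congrArg (Polynomial.eval 0) h6
  obtain ⟨L, _, _, q, q1, q2, q3, -⟩ := exists_L hA hJ J j1
    ((idealGen_le (isIdeal_idealGen _) (Set.subset_union_left.trans (subset_idealGen _))).trans j2)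
  have : Module.Finite F L := by
    rw [← q2] at j3
    exact Module.Finite.equiv (q.quotKerEquivOfSurjective q1)
  have hz : ∀ t ∈ R, q t = 0 := fun t ht => q2.ge (j2 (subset_idealGen _ (Or.inr ht)))
  refine j4 (q2.le ?_)
  rw [LinearMap.mem_ker, q3, q3]
  refine collapse2 (F := F) (t2 := q (o 1)) ?_ ?_ ?_ ?_
  · rw [← q3]; exact hz _ (by simp [R])
  · rw [← q3, ← sub_eq_zero, ← map_sub]; exact hz _ (by simp [R])
  · rw [← q3, ← map_sub, ← q3, ← map_add, ← sub_eq_zero, ← map_sub]; exact hz _ (by simp [R])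
  · rw [← q3]; exact hz _ (by simp [R])

theorem main [CharZero F] (hA : acm F ∈ idealGen (TVal I ℕ)) (hJ : jac F ∈ idealGen (TVal I ℕ))
    (hN : n2a F ∈ idealGen (TVal I ℕ)) : IsRFDVariety I ↔ ∃ c : F, ¬ SatL I (Tri c) := by
  refine ⟨fun h => not_forall.1 fun h' => neg hA hJ h' h, fun ⟨c, hc⟩ n R a ha => ?_⟩
  have hT : ∀ g ∈ I, g ∈ idealGen (TVal I ℕ) := fun g hg => subset_idealGen _
    ⟨g, hg, FreeNonUnitalNonAssocAlgebra.of F, ext_mul LinearMap.id (sub _) (fun a b => a * b)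
      (fun _ _ => rfl) (LieC.sub_mul _) (fun i => by simp [sub_of]) g⟩
  obtain ⟨L, _, _, q, q1, q2, q3, q4⟩ :=
    exists_L hA hJ (idealGen (TVal I (Fin n))) (isIdeal_idealGen _) le_rfl
  obtain ⟨L', _, _, s, s1, s2, s3, s4⟩ :=
    exists_L hA hJ (idealGen (TVal I (Fin 5))) (isIdeal_idealGen _) le_rfl
  let o : Fin 5 → L' := fun i => s (FreeNonUnitalNonAssocAlgebra.of F i)
  obtain ⟨p, p1, p2⟩ : ∃ p, Z F (o 0) p ⁅o 1, o 2⁆ ⁅o 3, o 4⁆ = 0 ∧ p ≠ 0 := by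
    by_contra! h
    obtain ⟨α, a0, a1⟩ := univ s s1 s2 s3 (fun g hg => s4 g (hT g hg)) ![o 0, 0, o 2, o 3, o 4]
    obtain ⟨β, b0, b1⟩ := univ s s1 s2 s3 (fun g hg => s4 g (hT g hg)) ![o 0, o 1, o 2, 0, o 4]
    exact hc (lemA (n2_of (s4 _ hN)) (fun g hg => s4 g (hT g hg)) (mem_D1 _ _) (mem_D1 _ _) a0 b0
      (a1 0) (by simp [o, a0, a1]) (by simp [o, a0, a1]) (b1 0) (by simp [o, b0, b1])
      (by simp [o, b0, b1]) h c)
  have hk : LinearMap.ker q ≤ idealGen (TVal I (Fin n) ∪ ↑R) := q2 ▸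
    idealGen_le (isIdeal_idealGen _) (Set.subset_union_left.trans (subset_idealGen _))
  have id1 : ∀ W : Submodule F L, (∀ x : L, ∀ y ∈ W, ⁅x, y⁆ ∈ W) → IsIdeal (W.comap q) :=
    fun W h x y hy => by
      simp only [Submodule.mem_comap, q3]
      exact ⟨h _ _ hy, by rw [← lie_skew]; exact neg_mem (h _ _ hy)⟩
  obtain ⟨J, j1, j2, j3, j4⟩ := tens (t := fun i => q (FreeNonUnitalNonAssocAlgebra.of F i))
    (fun W w1 w2 x => by
      obtain ⟨x, rfl⟩ := q1 x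
      exact fa_ind (W.comap q) w1 (fun a ha b hb =>
        (congrArg (· ∈ W) (q3 a b)).mpr (w2 _ ha _ hb)) x) (n2_of (q4 _ hN))
    (fun i => univ q q1 q2 q3 (fun g hg => q4 g (hT g hg)) _) p p2 (fun x u hu v hv => by
      refine D1_ind ((Z F x p).flip v) (fun a b => D1_ind (Z F x p ⁅a, b⁆) (fun a' b' => ?_) v hv) u hu
      obtain ⟨π, h1, h2⟩ := univ s s1 s2 s3 (fun g hg => q4 g (hT g hg)) ![x, a, b, a', b']
      simpa [h1, h2, o, Z_hom h1] using congrArg π p1)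
    ((idealGen (TVal I (Fin n) ∪ ↑R)).map q) (by
      rintro x _ ⟨y, hy, rfl⟩
      obtain ⟨x, rfl⟩ := q1 x
      exact ⟨_, (isIdeal_idealGen _ x y hy).1, q3 x y⟩) (q '' R) (R.finite_toSet.image _)
    (Set.image_mono (Set.subset_union_right.trans (subset_idealGen _)))
    (fun W w1 w2 => Submodule.map_le_iff_le_comap.2 (idealGen_le (id1 W w2) (Set.union_subset
      (fun t ht => LinearMap.ker_le_comap q (q2.ge (subset_idealGen _ ht))) fun r hr => w1 ⟨r, hr, rfl⟩)))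
    (q a) fun h => ha (by
      rwa [← Submodule.mem_comap, Submodule.comap_map_eq, sup_eq_left.2 hk] at h)
  exact ⟨J.comap q, id1 J j1, Submodule.map_le_iff_le_comap.1 j2, cofg_comap q j3, j4⟩

end Pool.Agent.Lib.MP_038c09_al.N2
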