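import Pool.Agent.Lib.MP_038c09_al.N2CA

/-! Lie algebras with derived algebra of class two that satisfy a polynomial identity. -/

set_option autoImplicit false

namespace Pool.Agent.Lib.MP_038c09_al.N2

open TensorProduct

variable (F : Type) [Field F] (L : Type) [LieRing L] [LieAlgebra F L]

/-- the bracket as a bilinear map -/
def bra : L →ₗ[F] L →ₗ[F] L := LinearMap.mk₂ F (fun x y => ⁅x, y⁆) add_lie smul_lie lie_add lie_smul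

/-- the derived algebra -/
def D1 : Submodule F L := Submodule.map₂ (bra F L) ⊤ ⊤

/-- the second derived algebra -/
def D2 : Submodule F L := Submodule.map₂ (bra F L) (D1 F L) (D1 F L)

variable {L} in
/-- the bilinear map attached to a polynomial in two variables -/
noncomputable def Z (x : L) : MvPolynomial (Fin 2) F →ₗ[F] L →ₗ[F] L →ₗ[F] L :=
  (MvPolynomial.basisMonomials (Fin 2) F).constr F fun m =>
    (bra F L).compl₁₂ (bra F L x ^ m 0 : Module.End F L) (bra F L x ^ m 1 : Module.End F L)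

variable {F L}

@[simp] theorem bra_apply (x y : L) : bra F L x y = ⁅x, y⁆ := rfl

theorem Z_mon (x : L) (m : Fin 2 →₀ ℕ) (u v : L) : Z F x (MvPolynomial.monomial m 1) u v =
    ⁅(bra F L x ^ m 0 : Module.End F L) u, (bra F L x ^ m 1 : Module.End F L) v⁆ := by
  rw [Z, ← congrFun (MvPolynomial.coe_basisMonomials (Fin 2) F) m, Module.Basis.constr_basis]
  rfl

theorem mem_D1 (x y : L) : ⁅x, y⁆ ∈ D1 F L := Submodule.apply_mem_map₂ (bra F L) trivial trivial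

theorem mem_D2 {u v : L} (hu : u ∈ D1 F L) (hv : v ∈ D1 F L) : ⁅u, v⁆ ∈ D2 F L :=
  Submodule.apply_mem_map₂ (bra F L) hu hv

theorem D2_le : D2 F L ≤ D1 F L := Submodule.map₂_le.2 fun x _ y _ => mem_D1 x y

theorem map₂_ad {P Q : Submodule F L} (x : L) (hP : ∀ u ∈ P, ⁅x, u⁆ ∈ P) (hQ : ∀ u ∈ Q, ⁅x, u⁆ ∈ Q) :
    ∀ d ∈ Submodule.map₂ (bra F L) P Q, ⁅x, d⁆ ∈ Submodule.map₂ (bra F L) P Q :=
  (Submodule.map₂_le.2 fun u hu v hv => by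
    rw [Submodule.mem_comap, bra_apply, bra_apply, leibniz_lie]
    exact add_mem (Submodule.apply_mem_map₂ (bra F L) (hP u hu) hv)
      (Submodule.apply_mem_map₂ (bra F L) hu (hQ v hv)) :
    Submodule.map₂ (bra F L) P Q ≤ (Submodule.map₂ (bra F L) P Q).comap (bra F L x))

theorem D2_ad (x : L) : ∀ d ∈ D2 F L, ⁅x, d⁆ ∈ D2 F L :=
  map₂_ad x (fun u _ => mem_D1 x u) fun u _ => mem_D1 x u

theorem exists_M (hn : ∀ d ∈ D2 F L, ∀ u ∈ D1 F L, ⁅d, u⁆ = 0) :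
    ∃ (M : Type) (_ : AddCommGroup M) (_ : Module F M) (π : L →ₗ[F] M) (τ : L → Module.End F M)
      (β : M →ₗ[F] M →ₗ[F] L), (∀ m, ∃ u ∈ D1 F L, π u = m) ∧
      (∀ x, ∀ u ∈ D1 F L, τ x (π u) = π ⁅x, u⁆) ∧
      (∀ u ∈ D1 F L, ∀ v ∈ D1 F L, β (π u) (π v) = ⁅u, v⁆) ∧ ∀ d ∈ D2 F L, π d = 0 := by
  set K := (D2 F L).comap (D1 F L).subtype
  obtain ⟨π, hπ⟩ := LinearMap.exists_extend K.mkQ
  have h : ∀ u (hu : u ∈ D1 F L), π u = K.mkQ ⟨u, hu⟩ := fun u hu => LinearMap.congr_fun hπ ⟨u, hu⟩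
  refine ⟨_, _, _, π, fun x => krullInd _ _ (bra F L x) (D2_ad x) fun u _ => mem_D1 x u,
    LinearMap.liftQ₂ K K ((bra F L).compl₁₂ (D1 F L).subtype (D1 F L).subtype)
      (fun d hd => LinearMap.ext fun u => hn d hd u u.2) fun d hd => LinearMap.ext fun u => ?_,
    fun m => ?_, fun x u hu => ?_, fun u hu v hv => ?_, fun d hd => ?_⟩
  · change ⁅(u : L), (d : L)⁆ = 0
    rw [← lie_skew, hn d hd u u.2, neg_zero]
  · obtain ⟨u, rfl⟩ := K.mkQ_surjective m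
    exact ⟨u, u.2, h u u.2⟩
  · rw [h u hu, h _ (mem_D1 x u)]; rfl
  · rw [h u hu, h v hv]; rfl
  · rw [h d (D2_le hd)]
    exact (Submodule.Quotient.mk_eq_zero _).2 hd

open scoped IsMulCommutative in
theorem exists_T {σ : Type} (t : σ → L) (hn : ∀ d ∈ D2 F L, ∀ u ∈ D1 F L, ⁅d, u⁆ = 0) :
    ∃ (T S : Type) (_ : AddCommGroup T) (_ : Module F T) (_ : CommRing S) (_ : Algebra F S)
      (_ : Module S T) (_ : IsScalarTower F S T) (A B : σ → S) (μ : L →ₗ[F] L →ₗ[F] T)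
      (φ : T →ₗ[F] L), Algebra.adjoin F (Set.range (Sum.elim A B)) = ⊤ ∧
      (∀ a, ∀ u ∈ D1 F L, ∀ v, A a • μ u v = μ ⁅t a, u⁆ v) ∧
      (∀ a, ∀ v ∈ D1 F L, ∀ u, B a • μ u v = μ u ⁅t a, v⁆) ∧
      (∀ u ∈ D1 F L, ∀ v ∈ D1 F L, φ (μ u v) = ⁅u, v⁆) ∧
      ∀ ξ, ξ ∈ Submodule.map₂ μ (D1 F L) (D1 F L) := by
  obtain ⟨M, _, _, π, τ, β, m1, m2, m3, m4⟩ := exists_M hn
  have hc : ∀ x y m, τ x (τ y m) = τ y (τ x m) := fun x y m => by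
    obtain ⟨u, hu, rfl⟩ := m1 m
    rw [m2 _ _ hu, m2 _ _ hu, m2 _ _ (mem_D1 _ _), m2 _ _ (mem_D1 _ _), ← sub_eq_zero, ← map_sub,
      ← lie_lie]
    exact m4 _ (mem_D2 (mem_D1 _ _) hu)
  let g : σ ⊕ σ → Module.End F (M ⊗[F] M) :=
    Sum.elim (fun a => (τ (t a)).rTensor M) fun a => (τ (t a)).lTensor M
  have : IsMulCommutative (Algebra.adjoin F (Set.range g)) := Algebra.isMulCommutative_adjoin F (by
    rintro _ ⟨i | i, rfl⟩ _ ⟨j | j, rfl⟩ <;> exact TensorProduct.ext' fun m n => by simp [g, hc])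
  refine ⟨M ⊗[F] M, Algebra.adjoin F (Set.range g), inferInstance, inferInstance, inferInstance,
    inferInstance, inferInstance, inferInstance,
    fun a => ⟨_, Algebra.subset_adjoin ⟨.inl a, rfl⟩⟩,
    fun a => ⟨_, Algebra.subset_adjoin ⟨.inr a, rfl⟩⟩, (TensorProduct.mk F M M).compl₁₂ π π,
    TensorProduct.lift β, ?_, fun a u hu v => congrArg (· ⊗ₜ[F] π v) (m2 _ u hu),
    fun a v hv u => congrArg (π u ⊗ₜ[F] ·) (m2 _ v hv), m3, fun ξ => ?_⟩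
  · rw [eq_top_iff, ← Algebra.adjoin_adjoin_coe_preimage]
    refine Algebra.adjoin_mono ?_
    rintro ⟨_, h⟩ ⟨a | a, rfl⟩
    exacts [⟨.inl a, rfl⟩, ⟨.inr a, rfl⟩]
  · induction ξ with
    | zero => exact zero_mem _
    | add x y hx hy => exact add_mem hx hy
    | tmul m m' =>
      obtain ⟨u, hu, rfl⟩ := m1 m
      obtain ⟨v, hv, rfl⟩ := m1 m'
      exact Submodule.apply_mem_map₂ ((TensorProduct.mk F M M).compl₁₂ π π) hu hv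

variable {σ : Type} {t : σ → L}
  (gen : ∀ W : Submodule F L, (∀ a, t a ∈ W) → (∀ x ∈ W, ∀ y ∈ W, ⁅x, y⁆ ∈ W) → ∀ x, x ∈ W)

include gen

theorem st_all {W : Submodule F L} (h : ∀ a, ∀ y ∈ W, ⁅t a, y⁆ ∈ W) (x : L) :
    ∀ y ∈ W, ⁅x, y⁆ ∈ W := by
  have := gen (⨅ y : W, W.comap ((bra F L).flip y)) (fun a => (Submodule.mem_iInf _).2 fun y =>
    h a y y.2) (fun a ha b hb => (Submodule.mem_iInf _).2 fun y => by
      rw [Submodule.mem_iInf] at ha hb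
      rw [Submodule.mem_comap, LinearMap.flip_apply, bra_apply, lie_lie]
      exact W.sub_mem (ha ⟨_, hb y⟩) (hb ⟨_, ha y⟩)) x
  exact fun y hy => (Submodule.mem_iInf _).1 this ⟨y, hy⟩

theorem D1_gen (W : Submodule F L) (h1 : ∀ a b, ⁅t a, t b⁆ ∈ W)
    (h2 : ∀ a, ∀ u ∈ W, u ∈ D1 F L → ⁅t a, u⁆ ∈ W) : D1 F L ≤ W := by
  have h3 := st_all gen (W := W ⊓ D1 F L) fun a u hu => ⟨h2 a u hu.1 hu.2, mem_D1 _ _⟩
  have h4 : Submodule.map₂ (bra F L) (Submodule.span F (Set.range t) ⊔ W ⊓ D1 F L)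
      (Submodule.span F (Set.range t) ⊔ W ⊓ D1 F L) ≤ W ⊓ D1 F L := by
    rw [Submodule.map₂_sup_right, Submodule.map₂_sup_left, Submodule.map₂_span_span]
    refine sup_le (sup_le (Submodule.span_le.2 ?_) (Submodule.map₂_le.2 fun x hx y _ => ?_))
      (Submodule.map₂_le.2 fun x _ y hy => h3 x y hy)
    · rintro _ ⟨_, ⟨a, rfl⟩, _, ⟨b, rfl⟩, rfl⟩
      exact ⟨h1 a b, mem_D1 _ _⟩
    · rw [bra_apply, ← lie_skew]
      exact neg_mem (h3 y x hx)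
  have h5 := gen (Submodule.span F (Set.range t) ⊔ W ⊓ D1 F L)
    (fun a => Submodule.mem_sup_left (Submodule.subset_span ⟨a, rfl⟩))
    fun x hx y hy => Submodule.mem_sup_right (h4 (Submodule.apply_mem_map₂ _ hx hy))
  exact Submodule.map₂_le.2 fun x _ y _ => (h4 (Submodule.apply_mem_map₂ _ (h5 x) (h5 y))).1

theorem D1_cofg [Finite σ] : (D1 F L).CoFG :=
  (Submodule.fg_span (Set.finite_range t)).cofg_of_codisjoint (codisjoint_iff_le_sup.2 fun x _ =>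
    gen (Submodule.span F (Set.range t) ⊔ D1 F L)
      (fun a => Submodule.mem_sup_left (Submodule.subset_span ⟨a, rfl⟩)) (fun x _ y _ => Submodule.mem_sup_right (mem_D1 x y)) x)

theorem theta (hn : ∀ d ∈ D2 F L, ∀ u ∈ D1 F L, ⁅d, u⁆ = 0) {x : L} {θ : L →ₗ[F] L}
    (h1 : ∀ u v, θ ⁅u, v⁆ = ⁅θ u, θ v⁆) (h2 : ∀ i, θ (t i) = t i + ⁅x, t i⁆) {u v : L}
    (hu : u ∈ D1 F L) (hv : v ∈ D1 F L) : ⁅⁅x, u⁆, ⁅x, v⁆⁆ = θ ⁅u, v⁆ - ⁅u, v⁆ - ⁅x, ⁅u, v⁆⁆ := by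
  have e : ∀ u v, θ ⁅u, v⁆ - ⁅u, v⁆ - ⁅x, ⁅u, v⁆⁆ = ⁅⁅x, u⁆, ⁅x, v⁆⁆ +
      ⁅θ u - u - ⁅x, u⁆, v + ⁅x, v⁆⁆ - ⁅θ v - v - ⁅x, v⁆, θ u⁆ := fun u v => by
    rw [h1, leibniz_lie x u v, ← lie_skew (θ v - v - ⁅x, v⁆)]
    simp only [lie_add, sub_lie, lie_sub]
    abel
  have h3 := gen ((D2 F L).comap (θ - LinearMap.id - bra F L x)) (fun a => by simp [h2])
    fun u hu v hv => by
      change θ ⁅u, v⁆ - ⁅u, v⁆ - ⁅x, ⁅u, v⁆⁆ ∈ D2 F L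
      rw [e, ← lie_skew (θ u - u - ⁅x, u⁆), ← lie_skew (θ v - v - ⁅x, v⁆)]
      exact sub_mem (add_mem (mem_D2 (mem_D1 _ _) (mem_D1 _ _)) (neg_mem (D2_ad _ _ hu)))
        (neg_mem (D2_ad _ _ hv))
  change ∀ u, θ u - u - ⁅x, u⁆ ∈ D2 F L at h3
  have h4 : θ u ∈ D1 F L := by
    have := add_mem (add_mem (D2_le (h3 u)) (mem_D1 x u)) hu
    simpa using this
  rw [e, hn _ (h3 u) _ (add_mem hv (mem_D1 _ _)), hn _ (h3 v) _ h4, add_zero, sub_zero]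

theorem final [Fintype σ] (hn : ∀ d ∈ D2 F L, ∀ u ∈ D1 F L, ⁅d, u⁆ = 0) (I V C U : Submodule F L)
    (hI : ∀ x : L, ∀ y ∈ I, ⁅x, y⁆ ∈ I) (v1 : V ≤ D2 F L) (v2 : ∀ i, ∀ y ∈ V, ⁅t i, y⁆ ∈ V)
    (hU : U.FG) (u1 : U ≤ D2 F L) (u2 : D2 F L ≤ V ⊔ U) (hC : C.CoFG)
    (c1 : ∀ u ∈ C, u ∈ D1 F L → ∀ v ∈ D1 F L, ⁅u, v⁆ ∈ V) (a : L) (ha : a ∉ I ⊔ V) :
    ∃ J : Submodule F L, (∀ x : L, ∀ y ∈ J, ⁅x, y⁆ ∈ J) ∧ I ≤ J ∧ J.CoFG ∧ a ∉ J := by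
  have sup : ∀ P Q : Submodule F L, (∀ x : L, ∀ y ∈ P, ⁅x, y⁆ ∈ P) →
      (∀ x : L, ∀ y ∈ Q, ⁅x, y⁆ ∈ Q) → ∀ x : L, ∀ y ∈ P ⊔ Q, ⁅x, y⁆ ∈ P ⊔ Q := fun P Q hP hQ x y hy => by
    obtain ⟨b, hb, c, hc, rfl⟩ := Submodule.mem_sup.1 hy
    rw [lie_add]
    exact Submodule.add_mem_sup (hP x b hb) (hQ x c hc)
  by_cases h : a ∈ I ⊔ D1 F L
  swap
  · exact ⟨_, sup _ _ hI fun x y _ => mem_D1 x y, le_sup_left, (D1_cofg gen).of_le le_sup_right, h⟩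
  obtain ⟨i, hi, b, hb, rfl⟩ := Submodule.mem_sup.1 h
  have i1 := sup I V hI (st_all gen v2)
  let N : Submodule F L := D1 F L ⊓ ⨅ v : D1 F L, (I ⊔ V).comap ((bra F L).flip v)
  have hN : ∀ u, u ∈ N ↔ u ∈ D1 F L ∧ ∀ v : D1 F L, ⁅u, (v : L)⁆ ∈ I ⊔ V := fun u =>
    and_congr_right fun _ => Submodule.mem_iInf _
  have n1 : D2 F L ≤ N := fun d hd => (hN d).2 ⟨D2_le hd, fun v => by
    rw [hn d hd v v.2]; exact zero_mem _⟩
  have n2 : ∀ i, ∀ u ∈ N, bra F L (t i) u ∈ N := fun i u hu => (hN _).2 ⟨mem_D1 _ _, fun v => by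
    rw [bra_apply, lie_lie]
    exact sub_mem (i1 _ _ (((hN u).1 hu).2 v)) (((hN u).1 hu).2 ⟨_, mem_D1 _ _⟩)⟩
  have cm : ∀ i j x, bra F L (t i) (bra F L (t j) x) - bra F L (t j) (bra F L (t i) x) =
      ⁅⁅t i, t j⁆, x⁆ := fun i j x => (lie_lie _ _ _).symm
  obtain ⟨⟨S, s1, s2, s3⟩, -⟩ := sub_fg (fun i => bra F L (t i)) (D2 F L) (D1 F L)
    (fun i => D2_ad _) (fun i x _ => mem_D1 _ _) (fun i j x hx => cm i j x ▸ mem_D2 (mem_D1 _ _) hx)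
    (Set.range fun p : σ × σ => ⁅t p.1, t p.2⁆) (Set.finite_range _)
    (Set.range_subset_iff.2 fun p => mem_D1 _ _)
    (fun W _ w2 w3 => D1_gen gen W (fun a b => w2 ⟨(a, b), rfl⟩) fun a u hu _ => w3 a u hu)
    N n1 inf_le_left n2
  obtain ⟨G, g1, rfl⟩ := Submodule.fg_def.1 hU
  have k1 : ∀ i, ∀ u ∈ (I ⊔ V) ⊓ D1 F L, bra F L (t i) u ∈ (I ⊔ V) ⊓ D1 F L :=
    fun i u hu => ⟨i1 _ _ hu.1, mem_D1 _ _⟩
  have k2 : ∀ i j, ∀ x ∈ N, bra F L (t i) (bra F L (t j) x) - bra F L (t j) (bra F L (t i) x) ∈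
      (I ⊔ V) ⊓ D1 F L := fun i j x hx => by
    rw [cm, ← lie_skew]
    exact neg_mem ⟨((hN x).1 hx).2 ⟨_, mem_D1 _ _⟩, mem_D1 _ _⟩
  obtain ⟨N', a1, a2, a3, ⟨U', a4, a5⟩, a6⟩ := krull_sep (fun i => bra F L (t i))
    ((I ⊔ V) ⊓ D1 F L) N (fun u hu => (hN u).2 ⟨hu.2, fun v => by
      rw [← lie_skew]; exact neg_mem (i1 _ _ hu.1)⟩) k1 n2 k2 (S ∪ G) (s1.union g1)
    (Set.union_subset s2 (Submodule.span_le.1 (u1.trans n1)))
    (fun W w1 w2 w3 => s3 W (u2.trans (sup_le ((le_inf le_sup_right (v1.trans D2_le)).trans w1)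
      (Submodule.span_le.2 (Set.subset_union_right.trans w2)))) (Set.subset_union_left.trans w2) w3)
    b fun h => ha (add_mem (Submodule.mem_sup_left hi) h.1)
  refine ⟨I ⊔ N', sup _ _ hI (st_all gen fun i => a6 _ (k1 i) (n2 i) (k2 i)), le_sup_left,
    (cofg_of_le_sup (C := N) ((hC.inf (D1_cofg gen)).of_le fun u (h : _ ∧ _) => (hN u).2 ⟨h.2,
      fun v => Submodule.mem_sup_right (c1 u h.1 h.2 v v.2)⟩) a4 a5).of_le le_sup_right, fun h => a3 ?_⟩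
  obtain ⟨j, hj, c, hc, e⟩ := Submodule.mem_sup.1 h
  have e' : j - i = b - c := by rw [sub_eq_sub_iff_add_eq_add, e, add_comm]
  rw [show b = (j - i) + c by rw [e', sub_add_cancel]]
  exact add_mem (a1 ⟨Submodule.mem_sup_left (sub_mem hj hi), e' ▸ sub_mem hb (a2 hc).1⟩) hc

theorem fin_part [Fintype σ] (I : Submodule F L) (hI : ∀ x : L, ∀ y ∈ I, ⁅x, y⁆ ∈ I) (R : Set L)
    (hR : R.Finite) (r1 : R ⊆ I)
    (r2 : ∀ W : Submodule F L, R ⊆ W → (∀ x : L, ∀ y ∈ W, ⁅x, y⁆ ∈ W) → I ≤ W) (n : ℕ) :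
    ∃ U : Submodule F L, U.FG ∧ ∀ x ∈ I ⊓ D1 F L, (∀ i, (bra F L (t i) ^ n : Module.End F L) x ∈
      Submodule.map₂ (bra F L) (D1 F L) (I ⊓ D1 F L)) →
        x ∈ Submodule.map₂ (bra F L) (D1 F L) (I ⊓ D1 F L) ⊔ U := by
  obtain ⟨G, g1, g2⟩ := Submodule.fg_def.1
    ((Submodule.fg_span hR).of_le (inf_le_left : Submodule.span F R ⊓ D1 F L ≤ _))
  have k1 : ∀ x : L, ∀ u ∈ I ⊓ D1 F L, ⁅x, u⁆ ∈ I ⊓ D1 F L := fun x u h => ⟨hI x u h.1, mem_D1 _ _⟩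
  have k2 : Submodule.map₂ (bra F L) (D1 F L) (I ⊓ D1 F L) ≤ I ⊓ D1 F L :=
    Submodule.map₂_le.2 fun x _ => k1 x
  have s1 : (fun p : σ × L => ⁅t p.1, p.2⁆) '' (Set.univ ×ˢ R) ∪ G ⊆ ↑(I ⊓ D1 F L) :=
    Set.union_subset (by rintro _ ⟨p, hp, rfl⟩; exact ⟨hI _ _ (r1 hp.2), mem_D1 _ _⟩)
      (Submodule.span_le.1 (g2.le.trans (inf_le_inf_right _ (Submodule.span_le.2 r1))))
  refine (sub_fg (fun i => bra F L (t i)) _ (I ⊓ D1 F L)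
    (fun i => map₂_ad _ (fun u _ => mem_D1 _ u) (k1 _)) (fun i => k1 _) (fun i j x hx =>
      (lie_lie (t i) (t j) x) ▸ Submodule.apply_mem_map₂ (bra F L) (mem_D1 _ _) hx) _
    (((Set.finite_univ.prod hR).image _).union g1) s1 (fun W _ w2 w3 x hx => ?_) _ k2 le_rfl
    fun i => k1 _).2 n
  have h1 : ∀ a, Submodule.span F R ⊔ W ⊓ (I ⊓ D1 F L) ≤
      (W ⊓ (I ⊓ D1 F L)).comap (bra F L (t a)) := fun a =>
    sup_le (Submodule.span_le.2 fun r hr => ⟨w2 (Or.inl ⟨(a, r), ⟨trivial, hr⟩, rfl⟩),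
      s1 (Or.inl ⟨(a, r), ⟨trivial, hr⟩, rfl⟩)⟩) fun y hy => ⟨w3 a y hy.1, k1 _ y hy.2⟩
  obtain ⟨r, hr, w, hw, rfl⟩ := Submodule.mem_sup.1 (r2 (Submodule.span F R ⊔ W ⊓ (I ⊓ D1 F L))
    (fun r hr => Submodule.mem_sup_left (Submodule.subset_span hr))
    (st_all gen fun a y hy => Submodule.mem_sup_right (h1 a hy)) hx.1)
  exact add_mem ((g2.ge.trans (Submodule.span_le.2 (Set.subset_union_right.trans w2)))
    ⟨hr, by simpa using sub_mem hx.2 hw.2.2⟩) hw.1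

theorem tens [Fintype σ] [CharZero F] (hn : ∀ d ∈ D2 F L, ∀ u ∈ D1 F L, ⁅d, u⁆ = 0)
    (hθ : ∀ a, ∃ θ : L →ₗ[F] L, (∀ u v, θ ⁅u, v⁆ = ⁅θ u, θ v⁆) ∧ ∀ i, θ (t i) = t i + ⁅t a, t i⁆)
    (p : MvPolynomial (Fin 2) F) (hp : p ≠ 0)
    (hZ : ∀ x, ∀ u ∈ D1 F L, ∀ v ∈ D1 F L, Z F x p u v = 0)
    (I : Submodule F L) (hI : ∀ x : L, ∀ y ∈ I, ⁅x, y⁆ ∈ I) (R : Set L) (hR : R.Finite) (r1 : R ⊆ I)
    (r2 : ∀ W : Submodule F L, R ⊆ W → (∀ x : L, ∀ y ∈ W, ⁅x, y⁆ ∈ W) → I ≤ W)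
    (a : L) (ha : a ∉ I) :
    ∃ J : Submodule F L, (∀ x : L, ∀ y ∈ J, ⁅x, y⁆ ∈ J) ∧ I ≤ J ∧ J.CoFG ∧ a ∉ J := by
  by_cases h : a ∈ I ⊔ D2 F L
  swap
  · exact final gen hn I _ ⊤ ⊥ hI le_rfl (fun i => D2_ad _) Submodule.fg_bot bot_le le_sup_left
      .top (fun u _ hu v hv => mem_D2 hu hv) a h
  obtain ⟨i0, hi0, d, hd, rfl⟩ := Submodule.mem_sup.1 h
  obtain ⟨T, S, _, _, _, _, _, _, A, B, μ, φ, m0, hA, hB, hφ, m1⟩ := exists_T t hn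
  let l : S → T →ₗ[F] T := fun s => Algebra.lsmul F F T s
  have ext2 : ∀ f g : T →ₗ[F] L, (∀ u ∈ D1 F L, ∀ v ∈ D1 F L,
      f (μ u v) = g (μ u v)) → ∀ ξ, f ξ = g ξ := fun f g h ξ =>
    (Submodule.map₂_le.2 h : _ ≤ LinearMap.eqLocus f g) (m1 ξ)
  have rg : LinearMap.range φ = D2 F L := by
    refine le_antisymm ?_ (Submodule.map₂_le.2 fun u hu v hv => ⟨_, hφ u hu v hv⟩)
    rintro _ ⟨ξ, rfl⟩
    exact (Submodule.map₂_le.2 fun u hu v hv => (congrArg (· ∈ D2 F L) (hφ u hu v hv)).mpr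
      (mem_D2 hu hv) : _ ≤ (D2 F L).comap φ) (m1 ξ)
  have hg : Algebra.adjoin F (Set.range A ∪ Set.range fun a => A a + B a) = ⊤ := by
    rw [eq_top_iff, ← m0]
    refine Algebra.adjoin_le ?_
    rintro _ ⟨a | a, rfl⟩
    · exact Algebra.subset_adjoin (Or.inl ⟨a, rfl⟩)
    · have := sub_mem (Algebra.subset_adjoin (R := F) (s := Set.range A ∪ Set.range fun a =>
        A a + B a) (Or.inr ⟨a, rfl⟩)) (Algebra.subset_adjoin (Or.inl ⟨a, rfl⟩))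
      simpa using this
  have hfin : ∀ (W : Submodule F T) u, (∀ b y, y ∈ W → B b • y ∈ W) →
      (∀ a b, μ u ⁅t a, t b⁆ ∈ W) → ∀ v ∈ D1 F L, μ u v ∈ W := fun W u h1 h2 =>
    D1_gen gen (W.comap (μ u)) h2 fun b v hv hv' => by
      have := h1 b _ hv
      rwa [hB b v hv'] at this
  have : Module.Finite S T := by
    refine ⟨Submodule.fg_def.2 ⟨Set.range fun q : (σ × σ) × σ × σ =>
      μ ⁅t q.1.1, t q.1.2⁆ ⁅t q.2.1, t q.2.2⁆, Set.finite_range _, eq_top_iff.2 fun ξ _ => ?_⟩⟩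
    set W := Submodule.span S (Set.range fun q : (σ × σ) × σ × σ =>
      μ ⁅t q.1.1, t q.1.2⁆ ⁅t q.2.1, t q.2.2⁆)
    refine (Submodule.map₂_le.2 fun u hu => hfin (W.restrictScalars F) u
      (fun b y hy => W.smul_mem _ hy) fun a b => ?_ : _ ≤ W.restrictScalars F) (m1 ξ)
    exact D1_gen gen ((W.restrictScalars F).comap (μ.flip ⁅t a, t b⁆))
      (fun c d => Submodule.subset_span ⟨((c, d), a, b), rfl⟩) (fun c u h1 h2 => by
        have := W.smul_mem (A c) h1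
        rwa [LinearMap.flip_apply, hA c u h2] at this) hu
  have hE : ∀ a ξ, φ ((A a + B a) • ξ) = ⁅t a, φ ξ⁆ := fun a =>
    ext2 (φ ∘ₗ l (A a + B a)) (bra F L (t a) ∘ₗ φ) fun u hu v hv => by
      change φ ((A a + B a) • μ u v) = ⁅t a, φ (μ u v)⁆
      rw [add_smul, hA a u hu, hB a v hv, map_add, hφ _ hu _ hv, hφ _ (mem_D1 _ _) _ hv,
        hφ _ hu _ (mem_D1 _ _), leibniz_lie (t a)]
  let J0 := Submodule.map₂ (bra F L) (D1 F L) (I ⊓ D1 F L)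
  have j1 : ∀ x : L, ∀ y ∈ J0, ⁅x, y⁆ ∈ J0 := fun x =>
    map₂_ad x (fun u _ => mem_D1 _ u) fun u h => ⟨hI x u h.1, mem_D1 _ _⟩
  have hAB : ∀ a, ∀ ξ ∈ J0.comap φ, (A a * (A a + B a - A a)) • ξ ∈ J0.comap φ := fun a ξ hξ => by
    obtain ⟨θ, t1, t2⟩ := hθ a
    have e := ext2 (φ ∘ₗ l (A a * B a)) ((θ - LinearMap.id - bra F L (t a)) ∘ₗ φ)
      (fun u hu v hv => by
        change φ ((A a * B a) • μ u v) = θ (φ (μ u v)) - φ (μ u v) - ⁅t a, φ (μ u v)⁆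
        rw [mul_smul, hB a v hv, hA a u hu, hφ _ hu _ hv, hφ _ (mem_D1 _ _) _ (mem_D1 _ _),
          theta gen hn t1 t2 hu hv]) ξ
    have e' : J0 ≤ J0.comap (θ - LinearMap.id - bra F L (t a)) :=
      Submodule.map₂_le.2 fun u hu v hv => by
        change θ ⁅u, v⁆ - ⁅u, v⁆ - ⁅t a, ⁅u, v⁆⁆ ∈ J0
        rw [← theta gen hn t1 t2 hu hv.2]
        exact Submodule.apply_mem_map₂ (bra F L) (mem_D1 _ _) ⟨hI _ _ hv.1, mem_D1 _ _⟩
    rw [add_sub_cancel_left]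
    exact (congrArg (· ∈ J0) e).mpr (e' hξ)
  let P : Ideal S := ⟨⟨⟨{s | ∀ ξ, φ (s • ξ) = 0}, fun ha hb ξ => by
    rw [add_smul, map_add, ha, hb, add_zero]⟩, fun ξ => by rw [zero_smul, map_zero]⟩,
    fun c s hs ξ => by rw [smul_eq_mul, mul_comm, mul_smul, hs]⟩
  have hP : ∀ (s s' : S) (x : L), (∀ u ∈ D1 F L, ∀ v, s • μ u v = μ ⁅x, u⁆ v) →
      (∀ v ∈ D1 F L, ∀ u, s' • μ u v = μ u ⁅x, v⁆) →
      MvPolynomial.aeval ![s, s'] p ∈ P := fun s s' x h1 h2 => by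
    refine ext2 (φ ∘ₗ l (MvPolynomial.aeval ![s, s'] p)) 0 fun u hu v hv => ?_
    have h3 : ∀ k, ∀ u ∈ D1 F L, (bra F L x ^ k : Module.End F L) u ∈ D1 F L := fun k u hu => by
      cases k with
      | zero => exact hu
      | succ k => rw [pow_succ']; exact mem_D1 _ _
    have h4 : ∀ k v, s ^ k • μ u v = μ ((bra F L x ^ k : Module.End F L) u) v := fun k v => by
      induction k with
      | zero => exact (congrArg (· • _) (pow_zero s)).trans (one_smul _ _)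
      | succ k ih => rw [pow_succ', pow_succ', mul_smul, ih, h1 _ (h3 k u hu)]; rfl
    have h5 : ∀ k u, s' ^ k • μ u v = μ u ((bra F L x ^ k : Module.End F L) v) := fun k u => by
      induction k with
      | zero => exact (congrArg (· • _) (pow_zero s')).trans (one_smul _ _)
      | succ k ih => rw [pow_succ', pow_succ', mul_smul, ih, h2 _ (h3 k v hv)]; rfl
    refine (LinearMap.congr_fun ((MvPolynomial.basisMonomials (Fin 2) F).ext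
      (f₁ := φ ∘ₗ (LinearMap.toSpanSingleton S T (μ u v)).restrictScalars F ∘ₗ
        (MvPolynomial.aeval ![s, s']).toLinearMap) (f₂ := ((Z F x).flip u).flip v) fun m => ?_)
      p).trans (hZ x u hu v hv)
    rw [MvPolynomial.coe_basisMonomials]
    change φ (MvPolynomial.aeval ![s, s'] (MvPolynomial.monomial m 1) • μ u v) = Z F x _ u v
    rw [Z_mon, MvPolynomial.aeval_monomial, map_one, one_mul, Finsupp.prod_pow, Fin.prod_univ_two,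
      mul_smul]
    exact (congrArg φ ((congrArg _ (h5 _ _)).trans (h4 _ _))).trans (hφ _ (h3 _ _ hu) _ (h3 _ _ hv))
  obtain ⟨ρ, p1, p2⟩ := exists_rad p hp
  choose n hn' using fun q : σ × σ => p2 S P (A q.1) (A q.1 + B q.1) (A q.2) (A q.2 + B q.2)
    fun l m => hP _ _ (l • (t q.1 + m • t q.2)) (fun u hu y => by simp [add_smul, hA _ u hu])
      fun u hu y => by
        rw [show A q.1 + B q.1 + m • (A q.2 + B q.2) - (A q.1 + m • A q.2) = B q.1 + m • B q.2 by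
          rw [smul_add]; abel]
        simp [add_smul, hB _ u hu]
  obtain ⟨U, u1, u2⟩ := fin_part gen I hI R hR r1 r2 (Finset.univ.sup n)
  obtain ⟨U', u3, u4⟩ := comap_fd φ J0 U u1
  have hEn : ∀ a k ξ, φ ((A a + B a) ^ k • ξ) = (bra F L (t a) ^ k : Module.End F L) (φ ξ) :=
    fun a k ξ => by
      induction k with
      | zero => rw [pow_zero, pow_zero, one_smul]; rfl
      | succ k ih => rw [pow_succ', pow_succ', mul_smul, hE, ih]; rfl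
  obtain ⟨x, rfl⟩ := rg.ge hd
  obtain ⟨Q, q1, q2, q3⟩ := ca_main A (fun a => A a + B a) hg (J0.comap φ) (I.comap φ)
    (Submodule.comap_mono (Submodule.map₂_le.2 fun u _ v hv => hI u v hv.1))
    (fun a ξ h => (congrArg (· ∈ J0) (hE a ξ)).mpr (j1 _ _ h)) hAB
    (fun a ξ h => (congrArg (· ∈ I) (hE a ξ)).mpr (hI _ _ h)) ρ p1 (Finset.univ.sup n)
    (fun a b ξ => (congrArg (· ∈ J0) (P.pow_mem_of_pow_mem (hn' (a, b))
      (Finset.le_sup (Finset.mem_univ _)) ξ)).mpr (zero_mem _)) U' u3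
    (fun ξ h1 h2 => u4 (u2 _ ⟨h1, D2_le (rg.le ⟨ξ, rfl⟩)⟩ fun i => hEn i _ ξ ▸ h2 i)) x
    fun h => ha (add_mem hi0 h)
  obtain ⟨Y, hY⟩ := Q.exists_isCompl
  refine final gen hn I (Q.map φ) (sInf (Set.range fun q : σ × σ =>
    Q.comap (μ.flip ⁅t q.1, t q.2⁆))) (Y.map φ) hI
    (LinearMap.map_le_range.trans rg.le) ?_ ((q2.fg_of_isCompl hY).map _)
    (LinearMap.map_le_range.trans rg.le) ?_ (Submodule.CoFG.sInf_of_finite (Set.finite_range _) ?_)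
    (fun u h1 hu v hv => ⟨_, hfin Q u (fun b y hy => q1 _ y hy) (fun a b =>
      Submodule.mem_sInf.1 h1 _ ⟨(a, b), rfl⟩) v hv, hφ u hu v hv⟩) _ fun h => q3 ?_
  · rintro i _ ⟨ξ, h, rfl⟩
    exact ⟨_, q1 _ ξ h, hE i ξ⟩
  · rw [← Submodule.map_sup, hY.sup_eq_top, Submodule.map_top, rg]
  · rintro _ ⟨q, rfl⟩
    exact cofg_comap _ q2
  · obtain ⟨j, hj, _, ⟨ξ, h, rfl⟩, e⟩ := Submodule.mem_sup.1 h
    rw [show x = (x - ξ) + ξ by abel]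
    refine Submodule.add_mem_sup ?_ h
    rw [Submodule.mem_comap, map_sub, show φ x - φ ξ = j - i0 by
      rw [sub_eq_sub_iff_add_eq_add, e, add_comm]]
    exact sub_mem hj hi0

end Pool.Agent.Lib.MP_038c09_al.N2
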