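import Pool.Agent.Lib.MP_038c09_al.Pos

/-!
Four monomial identities that do not define an RFD-variety.
-/

namespace Pool.Agent.Lib.MP_038c09_al

variable {F : Type} [Field F]

section abstract

variable {A : Type} [AddCommGroup A] [Module F A]

/-- values of the four bracketings -/
def shv (μ : A →ₗ[F] A →ₗ[F] A) (i : Fin 4) (a b c d e : A) : A :=
  ![μ (μ (μ a b) c) (μ d e), μ (μ a b) (μ c (μ d e)), μ (μ a b) (μ (μ c d) e),
    μ (μ a (μ b c)) (μ d e)] i

theorem evm_sh {X : Type} (μ : A →ₗ[F] A →ₗ[F] A) (v : X → A) (i : Fin 4)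
    (a b c d e : FreeMagma X) : evm μ v (sh i a b c d e) =
      shv μ i (evm μ v a) (evm μ v b) (evm μ v c) (evm μ v d) (evm μ v e) := by
  fin_cases i <;> rfl

theorem evm_wmon (μ : A →ₗ[F] A →ₗ[F] A) (φ : ℕ → A) (i : Fin 4) :
    evm μ φ (wmon i) = μ (μ (φ 0) (shv μ i (φ 1) (φ 2) (φ 3) (φ 4) (φ 5)))
      (μ (φ 6) (shv μ i (φ 7) (φ 8) (φ 9) (φ 10) (φ 11))) := by
  rw [wmon, evm_mul, evm_mul, evm_mul, evm_sh, evm_sh]
  rfl

/-- first letters -/
def l1 (μ : A →ₗ[F] A →ₗ[F] A) (v : Fin 5 → A) (i : Fin 4) (k : Fin 5) : A :=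
  shv μ i (v k) (v 1) (v 1) (v 1) (v 1)

/-- second letters -/
def l2 (μ : A →ₗ[F] A →ₗ[F] A) (v : Fin 5 → A) (i : Fin 4) (k : Fin 5) : A :=
  μ (v k) (shv μ i (v 1) (v 1) (v 1) (v 1) (v 1))

/-- the relations -/
def Rels (μ : A →ₗ[F] A →ₗ[F] A) (v : Fin 5 → A) : Prop :=
  l2 μ v 1 2 - l1 μ v 0 2 = 0 ∧ l2 μ v 1 3 - l1 μ v 0 3 = 0 ∧
  l1 μ v 2 2 - (l1 μ v 0 3 + l1 μ v 1 2) = 0 ∧ l2 μ v 2 2 - (l2 μ v 1 4 - l2 μ v 0 2) = 0 ∧
  l2 μ v 2 3 - (l1 μ v 0 2 - l2 μ v 0 3) = 0 ∧ l1 μ v 3 2 - (l1 μ v 0 2 + l1 μ v 1 2) = 0 ∧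
  l2 μ v 3 2 - (l1 μ v 0 2 - l2 μ v 0 2) = 0 ∧ l2 μ v 3 3 - (l1 μ v 0 3 - l2 μ v 0 3) = 0 ∧
  μ (v 0) (l1 μ v 0 2) - v 0 = 0 ∧ μ (v 0) (l2 μ v 1 4) = 0

theorem collapse [Module.Finite F A] (μ : A →ₗ[F] A →ₗ[F] A) (v : Fin 5 → A)
    (hid : ∀ i φ, evm μ φ (wmon i) = 0) (hR : Rels μ v) : v 0 = 0 := by
  have H : ∀ x i k k', μ (μ x (l1 μ v i k)) (l2 μ v i k') = 0 := by
    intro x i k k'
    have := hid i (fun n => if n = 0 then x else if n = 1 then v k else if n = 6 then v k' else v 1)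
    rw [evm_wmon] at this
    simpa [l1, l2] using this
  obtain ⟨r1, r2, r3, r4, r5, r6, r7, r8, r9, r10⟩ := hR
  rw [sub_eq_zero] at r1 r2 r3 r4 r5 r6 r7 r8 r9
  set P := l1 μ v 0 2
  set Q := l1 μ v 0 3
  set c1 := l2 μ v 0 2
  set c2 := l2 μ v 0 3
  set b := l1 μ v 1 2
  set S := l2 μ v 1 4
  have e1 : ∀ x, μ (μ x Q) S = μ (μ x P) P := by
    intro x
    have a1 := H x 2 2 2
    have a2 := H x 3 2 2
    have a3 := H x 0 3 2
    have a4 := H x 0 2 2
    have a5 := H x 1 2 4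
    have a6 := H x 1 2 2
    rw [r3, r4] at a1
    rw [r6, r7] at a2
    rw [r1] at a6
    simp only [map_add, map_sub, LinearMap.add_apply] at a1 a2
    change μ (μ x Q) c1 = 0 at a3
    change μ (μ x P) c1 = 0 at a4
    change μ (μ x b) S = 0 at a5
    change μ (μ x b) P = 0 at a6
    linear_combination (norm := module) a1 - a2 + a3 - a4 - a5 + a6
  have e2 : ∀ x, μ (μ x Q) P = μ (μ x P) Q := by
    intro x
    have a1 := H x 2 2 3
    have a2 := H x 3 2 3
    have a3 := H x 0 3 3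
    have a4 := H x 0 2 3
    have a5 := H x 1 2 2
    have a6 := H x 1 2 3
    rw [r3, r5] at a1
    rw [r6, r8] at a2
    rw [r1] at a5
    rw [r2] at a6
    simp only [map_add, map_sub, LinearMap.add_apply] at a1 a2
    change μ (μ x Q) c2 = 0 at a3
    change μ (μ x P) c2 = 0 at a4
    change μ (μ x b) P = 0 at a5
    change μ (μ x b) Q = 0 at a6
    linear_combination (norm := module) a1 - a2 + a3 - a4 - a5 + a6
  let TQ : Module.End F A := μ.flip Q
  let TS : Module.End F A := μ.flip S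
  have hP : ∀ n : ℕ, μ ((TQ ^ n) (v 0)) P = (TQ ^ n) (v 0) := by
    intro n
    induction n with
    | zero => simpa using r9
    | succ n ih =>
      rw [pow_succ', Module.End.mul_apply]
      change μ (μ _ Q) P = μ _ Q
      rw [e2, ih]
  have hS : ∀ n : ℕ, (TS ^ n) ((TQ ^ n) (v 0)) = v 0 := by
    intro n
    induction n with
    | zero => simp
    | succ n ih =>
      rw [pow_succ, pow_succ' TQ, Module.End.mul_apply, Module.End.mul_apply]
      change (TS ^ n) (μ (μ _ Q) S) = _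
      rw [e1, hP, hP, ih]
  obtain ⟨k, -, hk⟩ := Module.End.exists_ker_pow_eq_ker_pow_succ TS
  have : (TQ ^ k) (v 0) ∈ LinearMap.ker (TS ^ k.succ) := by
    rw [LinearMap.mem_ker, pow_succ', Module.End.mul_apply, hS]
    exact r10
  rw [← hk, LinearMap.mem_ker, hS] at this
  exact this

end abstract

section model

/-- the module on which the letters act -/
abbrev MM (F : Type) := (ℕ → F) × (ℕ → F)

/-- the model -/
abbrev CC (F : Type) [Field F] :=
  (Fin 8 → F) × (Fin 4 → Fin 3 → F) × Module.End F (MM F) × MM F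

/-- right shift -/
def shR : (ℕ → F) →ₗ[F] (ℕ → F) where
  toFun x := fun n => Nat.casesOn n 0 x
  map_add' x y := by ext n; cases n <;> simp
  map_smul' c x := by ext n; cases n <;> simp

/-- left shift -/
def shL : (ℕ → F) →ₗ[F] (ℕ → F) := LinearMap.funLeft F F Nat.succ

theorem shL_shR (x : ℕ → F) : shL (shR x) = x := rfl

def oP : Module.End F (MM F) := LinearMap.inl F _ _ ∘ₗ LinearMap.fst F _ _
def oQ : Module.End F (MM F) := LinearMap.inl F _ _ ∘ₗ shR ∘ₗ LinearMap.fst F _ _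
def oS : Module.End F (MM F) := LinearMap.inl F _ _ ∘ₗ shL ∘ₗ LinearMap.fst F _ _
def ob : Module.End F (MM F) := LinearMap.inr F _ _ ∘ₗ LinearMap.fst F _ _
def oc1 : Module.End F (MM F) := LinearMap.inl F _ _ ∘ₗ LinearMap.snd F _ _
def oc2 : Module.End F (MM F) := LinearMap.inl F _ _ ∘ₗ shR ∘ₗ LinearMap.snd F _ _

/-- first letters -/
def lam1 (i : Fin 4) (z : Fin 3 → F) : Module.End F (MM F) :=
  ![z 0 • oP + z 1 • oQ, z 0 • ob, z 0 • (oQ + ob), z 0 • (oP + ob)] i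

/-- second letters -/
def lam2 (i : Fin 4) (z : Fin 3 → F) : Module.End F (MM F) :=
  ![z 0 • oc1 + z 1 • oc2, z 0 • oP + z 1 • oQ + z 2 • oS, z 0 • (oS - oc1) + z 1 • (oP - oc2),
    z 0 • (oP - oc1) + z 1 • (oQ - oc2)] i

theorem lam1_add (i : Fin 4) (z z' : Fin 3 → F) : lam1 i (z + z') = lam1 i z + lam1 i z' := by
  fin_cases i <;> simp [lam1] <;> module

theorem lam2_add (i : Fin 4) (z z' : Fin 3 → F) : lam2 i (z + z') = lam2 i z + lam2 i z' := by
  fin_cases i <;> simp [lam2] <;> module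

theorem lam1_smul (i : Fin 4) (c : F) (z : Fin 3 → F) : lam1 i (c • z) = c • lam1 i z := by
  fin_cases i <;> simp [lam1] <;> module

theorem lam2_smul (i : Fin 4) (c : F) (z : Fin 3 → F) : lam2 i (c • z) = c • lam2 i z := by
  fin_cases i <;> simp [lam2] <;> module

theorem lam1_zero (i : Fin 4) : lam1 i (0 : Fin 3 → F) = 0 := by
  fin_cases i <;> simp [lam1]

theorem lam2_zero (i : Fin 4) : lam2 i (0 : Fin 3 → F) = 0 := by
  fin_cases i <;> simp [lam2]

theorem lam2_lam1 (i : Fin 4) (z z' : Fin 3 → F) (x : MM F) : lam2 i z' (lam1 i z x) = 0 := by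
  fin_cases i <;> simp [lam1, lam2, oP, oQ, oS, ob, oc1, oc2, shL_shR]

/-- the product of the model -/
def cmul (p q : CC F) : CC F :=
  (![0, p.1 0 * q.1 0, p.1 0 * q.1 1, p.1 1 * q.1 0, p.1 3 * q.1 1, p.1 1 * q.1 2, p.1 1 * q.1 3,
      p.1 2 * q.1 1],
    ![0, q.1 0 • p.2.1 0, q.1 0 • p.2.1 1, q.1 1 • p.2.1 0],
    q.1 1 • lam1 0 (p.2.1 2) + q.1 2 • lam1 1 (p.2.1 1) + q.1 3 • lam1 2 (p.2.1 1) +
      q.1 1 • lam1 3 (p.2.1 3) + q.1 4 • lam2 0 (p.2.1 0) + q.1 5 • lam2 1 (p.2.1 0) +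
      q.1 6 • lam2 2 (p.2.1 0) + q.1 7 • lam2 3 (p.2.1 0),
    q.2.2.1 p.2.2.2)

/-- the product as a bilinear map -/
def cμ : CC F →ₗ[F] CC F →ₗ[F] CC F :=
  LinearMap.mk₂ F cmul
    (fun p p' q => by
      refine Prod.ext ?_ (Prod.ext ?_ (Prod.ext ?_ ?_))
      · ext i; fin_cases i <;> simp [cmul, add_mul]
      · ext i; fin_cases i <;> simp [cmul]
      · simp only [cmul, Prod.snd_add, Prod.fst_add, Pi.add_apply, lam1_add, lam2_add]; module
      · simp [cmul])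
    (fun c p q => by
      refine Prod.ext ?_ (Prod.ext ?_ (Prod.ext ?_ ?_))
      · ext i; fin_cases i <;> simp [cmul, mul_assoc]
      · ext i; fin_cases i <;> simp [cmul, mul_left_comm]
      · simp only [cmul, Prod.smul_snd, Prod.smul_fst, Pi.smul_apply, lam1_smul, lam2_smul]; module
      · simp [cmul])
    (fun p q q' => by
      refine Prod.ext ?_ (Prod.ext ?_ (Prod.ext ?_ ?_))
      · ext i; fin_cases i <;> simp [cmul, mul_add]
      · ext i; fin_cases i <;> simp [cmul, add_mul]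
      · simp only [cmul, Prod.snd_add, Prod.fst_add, Pi.add_apply]; module
      · simp [cmul])
    (fun c p q => by
      refine Prod.ext ?_ (Prod.ext ?_ (Prod.ext ?_ ?_))
      · ext i; fin_cases i <;> simp [cmul, mul_left_comm]
      · ext i; fin_cases i <;> simp [cmul, mul_assoc]
      · simp only [cmul, Prod.smul_snd, Prod.smul_fst, Pi.smul_apply, smul_eq_mul]; module
      · simp [cmul])

theorem cμ_apply (p q : CC F) : cμ p q = cmul p q := rfl

theorem shv_E (i : Fin 4) (a b c d e : CC F) :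
    ∃ z, (shv cμ i a b c d e).2.2.1 = lam1 i z := by
  fin_cases i <;> simp [shv, cμ_apply, cmul, lam1_zero, lam2_zero, ← lam1_smul]

theorem shv_E2 (i : Fin 4) (y a b c d e : CC F) :
    ∃ z, (cmul y (shv cμ i a b c d e)).2.2.1 = lam2 i z := by
  fin_cases i <;> simp [shv, cμ_apply, cmul, lam1_zero, lam2_zero, ← lam2_smul]

theorem shv_Y (i : Fin 4) (y a b c d e : CC F) : (cmul y (shv cμ i a b c d e)).1 = 0 := by
  ext j
  fin_cases i <;> fin_cases j <;> simp [shv, cμ_apply, cmul]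

theorem model_id (i : Fin 4) (φ : ℕ → CC F) : evm cμ φ (wmon i) = 0 := by
  rw [evm_wmon]
  obtain ⟨z, hz⟩ := shv_E i (φ 1) (φ 2) (φ 3) (φ 4) (φ 5)
  obtain ⟨z', hz'⟩ := shv_E2 i (φ 6) (φ 7) (φ 8) (φ 9) (φ 10) (φ 11)
  have h := shv_Y i (φ 6) (φ 7) (φ 8) (φ 9) (φ 10) (φ 11)
  simp only [cμ_apply]
  generalize cmul (φ 6) _ = q at hz' h
  generalize shv cμ i (φ 1) (φ 2) (φ 3) (φ 4) (φ 5) = u at hz
  refine Prod.ext ?_ (Prod.ext ?_ (Prod.ext ?_ ?_))
  · ext i; fin_cases i <;> simp [cmul, h]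
  · ext i; fin_cases i <;> simp [cmul, h]
  · simp [cmul, h]
  · simp [cmul, hz, hz', lam2_lam1]

/-- elements of the first component -/
def yel (a : Fin 8 → F) : CC F := (a, 0, 0, 0)

/-- elements of the second component -/
def zel (a : Fin 4 → Fin 3 → F) : CC F := (0, a, 0, 0)

theorem yel_mul (a b : Fin 8 → F) : cμ (yel a) (yel b) =
    yel ![0, a 0 * b 0, a 0 * b 1, a 1 * b 0, a 3 * b 1, a 1 * b 2, a 1 * b 3, a 2 * b 1] := by
  refine Prod.ext rfl (Prod.ext ?_ (Prod.ext ?_ ?_))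
  · ext j; fin_cases j <;> simp [cμ_apply, cmul, yel]
  · simp [cμ_apply, cmul, yel, lam1_zero, lam2_zero]
  · simp [cμ_apply, cmul, yel]

theorem zel_mul (a : Fin 4 → Fin 3 → F) (b : Fin 8 → F) : cμ (zel a) (yel b) =
    zel ![0, b 0 • a 0, b 0 • a 1, b 1 • a 0] + (0, 0,
      b 1 • lam1 0 (a 2) + b 2 • lam1 1 (a 1) + b 3 • lam1 2 (a 1) +
      b 1 • lam1 3 (a 3) + b 4 • lam2 0 (a 0) + b 5 • lam2 1 (a 0) +
      b 6 • lam2 2 (a 0) + b 7 • lam2 3 (a 0), 0) := by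
  refine Prod.ext ?_ (Prod.ext ?_ (Prod.ext ?_ ?_))
  · ext j; fin_cases j <;> simp [cμ_apply, cmul, zel]
  · simp [cμ_apply, cmul, yel, zel]
  · simp [cμ_apply, cmul, yel, zel]
  · simp [cμ_apply, cmul, yel, zel]

theorem zel_zero : zel ![(0 : Fin 3 → F), 0, 0, 0] = 0 := by
  refine Prod.ext rfl (Prod.ext ?_ rfl)
  ext j; fin_cases j <;> simp [zel]

/-- the generator `y` -/
def y0 : CC F := yel ![1, 0, 0, 0, 0, 0, 0, 0]

theorem shv_z (i : Fin 4) (z : Fin 3 → F) :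
    shv cμ i (zel ![z, 0, 0, 0]) y0 y0 y0 y0 = (0, 0, lam1 i z, 0) := by
  have h0 : ((0, 0, 0, 0) : CC F) = 0 := rfl
  fin_cases i <;> simp [shv, y0, yel_mul, zel_mul, lam1_zero, lam2_zero, zel_zero, h0]

theorem z_shv (i : Fin 4) (z : Fin 3 → F) :
    cμ (zel ![z, 0, 0, 0]) (shv cμ i y0 y0 y0 y0 y0) = (0, 0, lam2 i z, 0) := by
  fin_cases i <;> simp [shv, y0, yel_mul, zel_mul, lam1_zero, zel_zero]

/-- the generator `g` -/
def g0 : CC F := (0, 0, 0, (Pi.single 0 1, 0))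

/-- generators of the model -/
def cv : Fin 5 → CC F :=
  ![g0, y0, zel ![![1, 0, 0], 0, 0, 0], zel ![![0, 1, 0], 0, 0, 0], zel ![![0, 0, 1], 0, 0, 0]]

theorem g0_mul (e : Module.End F (MM F)) :
    cμ g0 (0, 0, e, 0) = (0, 0, 0, e (Pi.single 0 1, 0)) := by
  refine Prod.ext ?_ (Prod.ext ?_ (Prod.ext ?_ ?_))
  · ext j; fin_cases j <;> simp [cμ_apply, cmul, g0]
  · ext j; fin_cases j <;> simp [cμ_apply, cmul, g0]
  · simp [cμ_apply, cmul, g0]
  · simp [cμ_apply, cmul, g0]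

theorem model_rels : Rels cμ (cv (F := F)) := by
  have a2 : ∀ i, l1 cμ (cv (F := F)) i 2 = (0, 0, lam1 i ![1, 0, 0], 0) := fun i => shv_z i _
  have a3 : ∀ i, l1 cμ (cv (F := F)) i 3 = (0, 0, lam1 i ![0, 1, 0], 0) := fun i => shv_z i _
  have b2 : ∀ i, l2 cμ (cv (F := F)) i 2 = (0, 0, lam2 i ![1, 0, 0], 0) := fun i => z_shv i _
  have b3 : ∀ i, l2 cμ (cv (F := F)) i 3 = (0, 0, lam2 i ![0, 1, 0], 0) := fun i => z_shv i _
  have b4 : ∀ i, l2 cμ (cv (F := F)) i 4 = (0, 0, lam2 i ![0, 0, 1], 0) := fun i => z_shv i _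
  have g : cv (F := F) 0 = g0 := rfl
  simp only [Rels, a2, a3, b2, b3, b4, g, g0_mul]
  refine ⟨?_, ?_, ?_, ?_, ?_, ?_, ?_, ?_, ?_, ?_⟩
  all_goals try (simp [lam1, lam2]; done)
  · simp [g0, lam1, oP]
  · simp [lam2, oS]
    ext n
    simp [shL]

theorem cv_zero_ne : cv (F := F) 0 ≠ 0 := by
  intro h
  have := congrArg (fun p : CC F => p.2.2.2.1 0) h
  simp [cv, g0] at this

end model

/-- first letters as polynomials -/
noncomputable def p1 (F : Type) [Field F] (i : Fin 4) (k : Fin 5) : FA F (Fin 5) :=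
  mon F (sh i (.of k) (.of 1) (.of 1) (.of 1) (.of 1))

/-- second letters as polynomials -/
noncomputable def p2 (F : Type) [Field F] (i : Fin 4) (k : Fin 5) : FA F (Fin 5) :=
  mon F (.of k * sh i (.of 1) (.of 1) (.of 1) (.of 1) (.of 1))

/-- the relators -/
noncomputable def relators (F : Type) [Field F] : List (FA F (Fin 5)) :=
  [p2 F 1 2 - p1 F 0 2, p2 F 1 3 - p1 F 0 3, p1 F 2 2 - (p1 F 0 3 + p1 F 1 2),
    p2 F 2 2 - (p2 F 1 4 - p2 F 0 2), p2 F 2 3 - (p1 F 0 2 - p2 F 0 3),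
    p1 F 3 2 - (p1 F 0 2 + p1 F 1 2), p2 F 3 2 - (p1 F 0 2 - p2 F 0 2),
    p2 F 3 3 - (p1 F 0 3 - p2 F 0 3), mon F (.of 0) * p1 F 0 2 - mon F (.of 0),
    mon F (.of 0) * p2 F 1 4]

theorem hom_mon {X A : Type} [AddCommGroup A] [Module F A] (μ : A →ₗ[F] A →ₗ[F] A)
    (h : FA F X →ₗ[F] A) (hmul : ∀ f g, h (f * g) = μ (h f) (h g)) (w : FreeMagma X) :
    h (mon F w) = evm μ (fun i => h (mon F (.of i))) w := by
  induction w with
  | ih1 x => rfl
  | ih2 s t hs ht => rw [mon_mul, hmul, hs, ht, evm_mul]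

theorem rels_iff {A : Type} [AddCommGroup A] [Module F A] (μ : A →ₗ[F] A →ₗ[F] A)
    (h : FA F (Fin 5) →ₗ[F] A) (hmul : ∀ f g, h (f * g) = μ (h f) (h g)) :
    (∀ r ∈ relators F, h r = 0) ↔ Rels μ (fun i => h (mon F (.of i))) := by
  have e1 : ∀ i k, h (p1 F i k) = l1 μ (fun i => h (mon F (.of i))) i k := fun i k => by
    rw [p1, hom_mon μ h hmul, evm_sh]; rfl
  have e2 : ∀ i k, h (p2 F i k) = l2 μ (fun i => h (mon F (.of i))) i k := fun i k => by
    rw [p2, hom_mon μ h hmul, evm_mul, evm_sh]; rfl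
  simp only [relators, List.forall_mem_cons, map_sub, map_add, hmul, e1, e2, Rels, List.not_mem_nil,
    false_imp_iff, implies_true, and_true]

theorem not_rfd : ¬ IsRFDVariety (Set.range fun i : Fin 4 => mon F (wmon i)) := by
  classical
  intro H
  have hmul := evL_mul (F := F) cμ cv
  obtain ⟨J, hJ, hKJ, hfin, ha⟩ := H 5 (relators F).toFinset (mon F (.of 0)) (by
    intro h
    have := idealGen_le (isIdeal_ker cμ _ hmul) (S := TVal
        (Set.range fun i : Fin 4 => mon F (wmon i)) (Fin 5) ∪ ↑(relators F).toFinset) (by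
      rintro g (⟨_, ⟨i, rfl⟩, φ, rfl⟩ | hg)
      · rw [SetLike.mem_coe, LinearMap.mem_ker, hom_lift_mon cμ _ hmul, model_id]
      · refine (rels_iff cμ _ hmul).2 ?_ g (by simpa using hg)
        simp only [evL_mon]
        exact model_rels) h
    rw [LinearMap.mem_ker, evL_mon] at this
    exact cv_zero_ne this)
  apply ha
  have := collapse (quotMul J hJ) (fun i => J.mkQ (mon F (.of i))) (fun i ψ => by
    choose ψ' hψ' using fun i => J.mkQ_surjective (ψ i)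
    have := hom_lift_mon (quotMul J hJ) J.mkQ (mkQ_mul J hJ) ψ' (wmon i)
    simp only [hψ'] at this
    rw [← this, Submodule.mkQ_apply, Submodule.Quotient.mk_eq_zero]
    exact hKJ (subset_idealGen _ (Or.inl ⟨_, ⟨i, rfl⟩, ψ', rfl⟩)))
    ((rels_iff _ J.mkQ (mkQ_mul J hJ)).1 fun r hr => by
      rw [Submodule.mkQ_apply, Submodule.Quotient.mk_eq_zero]
      exact hKJ (subset_idealGen _ (Or.inr (by simpa using hr))))
  simpa using this

theorem single_rfd (i : Fin 4) : IsRFDVariety {mon F (wmon i)} := by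
  let s : FreeMagma ℕ := .of 0 * sh i (.of 1) (.of 2) (.of 3) (.of 4) (.of 5)
  let t : FreeMagma ℕ := .of 6 * sh i (.of 7) (.of 8) (.of 9) (.of 10) (.of 11)
  have := rfd_of_ref (F := F) {(1, 0, s, t)} (by
      simp only [Finset.mem_singleton, forall_eq, Multilinear, s, t]
      fin_cases i <;> decide)
    (fun r => decide ((leaves r).length = 6)) (by
      have key : ∀ a ∈ subterms s ++ subterms t, ∀ b ∈ subterms s ++ subterms t,
          decide ((leaves a).length = 6) = decide ((leaves b).length = 6) →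
            Ref a b = true ∨ Ref b a = true := by
        simp only [s, t]
        fin_cases i <;> decide
      intro a b ha hb
      simp only [Psub, Finset.mem_singleton, exists_eq_left] at ha hb
      exact key a (List.mem_append.2 ha) b (List.mem_append.2 hb))
  simpa [ids, binId, wmon, s, t] using this

end Pool.Agent.Lib.MP_038c09_al
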