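import Pool.Agent.Lib.MP_038c09_al.Transfer

-- part PiDefs
section

/-!
Definitions for the hardness of the RFD property at the second level of the arithmetical
hierarchy.
-/

namespace Pool.Agent.Lib.MP_038c09_al.Pi

open List

/-! ### Word modules for an arbitrary set of binomial relations -/

section mod

variable {F : Type} [Field F] {X : Type}

/-- instances of the identities in `D` on words -/
def RlD (D : Set IdData) (w : List (Bool × X)) (e : ℤ) (w' : List (Bool × X)) : Prop :=
  ∃ d ∈ D, ∃ a : ℕ → X, w = inst a d.1 ∧ e = d.2.1 ∧ w' = inst a d.2.2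

/-- span of the relations `L` in all contexts -/
noncomputable def RelG (F : Type) [Field F]
    (L : List (Bool × X) → ℤ → List (Bool × X) → Prop) : Submodule F (PP F X) :=
  Submodule.span F {f | ∃ g p w e w' t, L w e w' ∧
    f = bw F g (p ++ (w ++ t)) - (e : F) • bw F g (p ++ (w' ++ t))}

/-- relations together with the vanishing of some linear arguments -/
noncomputable def RelLG [Fintype X] [DecidableEq X]
    (L : List (Bool × X) → ℤ → List (Bool × X) → Prop) (Λ : Set (X → F)) :
    Submodule F (PP F X) :=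
  RelG F L ⊔ Submodule.span F {f | ∃ l ∈ Λ, ∃ b g p t, f = ρ t (ρh b l (bw F g p))}

/-- finitely generated stable subspaces over the relations are closed -/
def ClosedG (F : Type) [Field F] [Fintype X] [DecidableEq X]
    (L : List (Bool × X) → ℤ → List (Bool × X) → Prop) : Prop :=
  ∀ (Λ : Set (X → F)) (G : Set (PP F X)), G.Finite → ∀ K' : Submodule F (PP F X), Stable K' →
    RelLG L Λ ⊔ genS G ≤ K' → (∃ U : Submodule F (PP F X), U.FG ∧ K' ≤ RelLG L Λ ⊔ genS G ⊔ U) →
    ∀ a, a ∉ K' → ∃ J : Submodule F (PP F X), K' ≤ J ∧ Stable J ∧ J.CoFG ∧ a ∉ J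

/-- the identities as polynomials -/
def polysD (F : Type) [Field F] (D : Set IdData) : Set (FA F ℕ) :=
  insert (metab F) (opId F '' D)

end mod

/-! ### Length preserving rewriting systems with forbidden factors -/

section rw

variable {α : Type}

/-- a rule, read in either direction -/
def MvW (Mv : Set (List α × List α)) (u u' : List α) : Prop := (u, u') ∈ Mv ∨ (u', u) ∈ Mv

/-- one rewriting step -/
def Stp (Mv : Set (List α × List α)) (w w' : List α) : Prop :=
  ∃ p u u' t, MvW Mv u u' ∧ w = p ++ u ++ t ∧ w' = p ++ u' ++ t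

/-- reachability -/
abbrev Rch (Mv : Set (List α × List α)) : List α → List α → Prop :=
  Relation.ReflTransGen (Stp Mv)

/-- contains a forbidden factor -/
def Kld (Kl : Set (List α)) (w : List α) : Prop := ∃ z ∈ Kl, z <:+: w

/-- can be rewritten to a word with a forbidden factor -/
def Ded (Mv : Set (List α × List α)) (Kl : Set (List α)) (w : List α) : Prop :=
  ∃ w', Rch Mv w w' ∧ Kld Kl w'

/-- a side of a rule occurs at position `i` -/
def Occ (Mv : Set (List α × List α)) (w : List α) (i : ℕ) : Prop :=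
  ∃ p u u' t, MvW Mv u u' ∧ w = p ++ u ++ t ∧ p.length = i

/-- all rewriting is confined to a window of bounded size -/
structure Loc (Mv : Set (List α × List α)) (Kl : Set (List α)) (B : ℕ) : Prop where
  mv : ∀ m ∈ Mv, m.1.length = m.2.length ∧ m.1 ≠ [] ∧ m.1.length ≤ B
  kl : ∀ z ∈ Kl, z ≠ [] ∧ z.length ≤ B
  h1 : ∀ w i j, ¬ Kld Kl w → Occ Mv w i → Occ Mv w j → i ≤ j + B
  h2 : ∀ w w' i j, ¬ Ded Mv Kl w → Rch Mv w w' → Occ Mv w i → Occ Mv w' j →
    i ≤ j + B ∧ j ≤ i + B

/-- no cut strictly inside the factor `s` of `p ++ s ++ t` -/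
def NoCut (c : List α → List α → Prop) (p s t : List α) : Prop :=
  ∀ s1 s2, s = s1 ++ s2 → s1 ≠ [] → s2 ≠ [] → ¬ c (p ++ s1) (s2 ++ t)

/-- a dead factor without cuts -/
def Seg (c : List α → List α → Prop) (Dd : List α → Prop) (w : List α) : Prop :=
  ∃ p s t, w = p ++ s ++ t ∧ Dd s ∧ NoCut c p s t

/-- the same cuts -/
def SameCuts (c : List α → List α → Prop) (w w' : List α) : Prop :=
  ∀ i, c (w.take i) (w.drop i) ↔ c (w'.take i) (w'.drop i)

/-- a local system of cuts -/
structure CutOk (c : List α → List α → Prop) (N : ℕ) : Prop where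
  len : ∀ u v, c u v → N ≤ v.length
  right : ∀ u v t, N ≤ v.length → (c u (v ++ t) ↔ c u v)
  left : ∀ p u v, N ≤ u.length → (c (p ++ u) v ↔ c u v)

end rw

/-! ### Coded systems -/

/-- coding data with moves, exchanges of arguments and forbidden words -/
structure CS (Γ : Type) extends Cd Γ where
  mv : Set (List Γ × List Γ)
  sw : Set (Γ × Γ × Γ)
  kl : Set (List Γ)
  hmv : ∀ m ∈ mv, m.1.length = m.2.length

section cs

variable {Γ X : Type}

/-- short words that are not factors of coded words -/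
def Junk (c : Cd Γ) : Set (List Bool) := {Z | Z.length ≤ 2 * c.ℓ ∧ ¬ ∃ P, Z <:+: c.κ P}

/-- coded rules -/
def codeMv (c : Cd Γ) (Mv : Set (List Γ × List Γ)) : Set (List Bool × List Bool) :=
  (fun m => (c.κ m.1, c.κ m.2)) '' Mv

/-- coded forbidden words -/
def codeKl (c : Cd Γ) (Kl : Set (List Γ)) : Set (List Bool) := Junk c ∪ c.κ '' Kl

/-- moves together with the supports of the exchanges -/
def CS.allMv (s : CS Γ) : Set (List Γ × List Γ) :=
  s.mv ∪ {m | ∃ a b c, (a, b, c) ∈ s.sw ∧ m = ([a, b, c], [a, b, c])}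

/-- the relations `w = e w'` between words -/
inductive CS.Rl (s : CS Γ) : List (Bool × X) → ℤ → List (Bool × X) → Prop
  | kill (w : List (Bool × X)) : shp w ∈ codeKl s.toCd s.kl → CS.Rl s w 0 w
  | move (u u' : List Γ) (w w' : List (Bool × X)) : (u, u') ∈ s.mv → shp w = s.κ u →
      shp w' = s.κ u' → arg w = arg w' → CS.Rl s w 1 w'
  | swap (a b c : Γ) (w0 : List (Bool × X)) (x : X) (w1 : List (Bool × X)) (y : X)
      (w2 : List (Bool × X)) : (a, b, c) ∈ s.sw → shp w0 = s.cd a → true :: shp w1 = s.cd b →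
      true :: shp w2 = s.cd c →
      CS.Rl s (w0 ++ (true, x) :: (w1 ++ (true, y) :: w2)) (-1)
        (w0 ++ (true, y) :: (w1 ++ (true, x) :: w2))

/-- data of an exchange identity -/
def swD (Z0 Z1 Z2 : List Bool) : IdData :=
  (Z0.zipIdx 4 ++ (true, 2) :: (Z1.zipIdx (4 + Z0.length) ++
      (true, 3) :: Z2.zipIdx (4 + Z0.length + Z1.length)), -1,
    Z0.zipIdx 4 ++ (true, 3) :: (Z1.zipIdx (4 + Z0.length) ++
      (true, 2) :: Z2.zipIdx (4 + Z0.length + Z1.length)))

/-- the identities of the system -/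
def CS.Ids (s : CS Γ) : Set IdData :=
  {d | (∃ Z ∈ codeKl s.toCd s.kl, d = kD Z) ∨
    (∃ u u', (u, u') ∈ s.mv ∧ d = mD (s.κ u) (s.κ u')) ∨
    ∃ a b c, (a, b, c) ∈ s.sw ∧ d = swD (s.cd a) (s.cd b).tail (s.cd c).tail}

end cs

/-! ### Register machines and tank machines -/

/-- add one to a register -/
def inc {k : ℕ} (n : Fin k → ℕ) (j : Fin k) : Fin k → ℕ := Function.update n j (n j + 1)

/-- total content -/
def tot {k : ℕ} (n : Fin k → ℕ) : ℕ := ∑ j, n j

/-- instructions of a register machine -/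
inductive RIns (k : ℕ) (Q : Type) : Type
  | halt : RIns k Q
  | inc (j : Fin k) (q1 : Q) : RIns k Q
  | dec (j : Fin k) (q1 q2 : Q) : RIns k Q

/-- halting of a register machine -/
inductive RHalts {k : ℕ} {Q : Type} (prog : Q → RIns k Q) : Q → (Fin k → ℕ) → Prop
  | halt (q : Q) (n : Fin k → ℕ) : prog q = .halt → RHalts prog q n
  | inc (q : Q) (n : Fin k → ℕ) (j : Fin k) (q1 : Q) : prog q = .inc j q1 →
      RHalts prog q1 (inc n j) → RHalts prog q n
  | dec (q : Q) (n : Fin k → ℕ) (j : Fin k) (q1 q2 : Q) : prog q = .dec j q1 q2 →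
      RHalts prog q1 n → RHalts prog q (inc n j)
  | zero (q : Q) (n : Fin k → ℕ) (j : Fin k) (q1 q2 : Q) : prog q = .dec j q1 q2 → n j = 0 →
      RHalts prog q2 n → RHalts prog q n

/-- instructions of a tank machine with regions `0, ..., m` -/
inductive Ins (m : ℕ) (Q : Type) : Type
  | halt : Ins m Q
  | stop : Ins m Q
  | pull (q1 q2 : Q) : Ins m Q
  | push (q1 q2 : Q) : Ins m Q
  | shl (j : Fin m) (q1 : Q) : Ins m Q
  | shr (j : Fin m) (q1 q2 : Q) : Ins m Q

/-- the states an instruction can jump to -/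
def Ins.tgt {m : ℕ} {Q : Type} : Ins m Q → List Q
  | .halt => []
  | .stop => []
  | .pull q1 q2 => [q1, q2]
  | .push q1 q2 => [q1, q2]
  | .shl _ q1 => [q1]
  | .shr _ q1 q2 => [q1, q2]

/-- a tank machine with the two special states -/
structure Mach where
  m : ℕ
  Q : Type
  fin : Fintype Q
  ins : Q → Ins m Q
  q0 : Q
  g0 : Q
  g1 : Q
  hm : 0 < m
  hg0 : ins g0 = .pull g0 g1
  hg1 : ins g1 = .stop
  hin : ∀ q q', q' ∈ (ins q).tgt → q' = g0 ∨ q' = g1 → q = g0

/-- one step; the oracle `mk` gives the marks of the positions counted from the opening bracket -/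
inductive AStep (M : Mach) (mk : ℕ → Bool) :
    M.Q → (Fin (M.m + 1) → ℕ) → M.Q → (Fin (M.m + 1) → ℕ) → Prop
  | pull (q q1 q2 : M.Q) (n : Fin (M.m + 1) → ℕ) : M.ins q = .pull q1 q2 →
      AStep M mk q n (if mk (tot n + M.m + 3) then q2 else q1) (inc n (Fin.last _))
  | push (q q1 q2 : M.Q) (n : Fin (M.m + 1) → ℕ) : M.ins q = .push q1 q2 →
      AStep M mk q (inc n (Fin.last _)) q1 n
  | push0 (q q1 q2 : M.Q) (n : Fin (M.m + 1) → ℕ) : M.ins q = .push q1 q2 →
      n (Fin.last _) = 0 → AStep M mk q n q2 n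
  | shl (q : M.Q) (j : Fin M.m) (q1 : M.Q) (n : Fin (M.m + 1) → ℕ) : M.ins q = .shl j q1 →
      AStep M mk q (inc n j.succ) q1 (inc n j.castSucc)
  | shr (q : M.Q) (j : Fin M.m) (q1 q2 : M.Q) (n : Fin (M.m + 1) → ℕ) :
      M.ins q = .shr j q1 q2 → AStep M mk q (inc n j.castSucc) q1 (inc n j.succ)
  | shr0 (q : M.Q) (j : Fin M.m) (q1 q2 : M.Q) (n : Fin (M.m + 1) → ℕ) :
      M.ins q = .shr j q1 q2 → n j.castSucc = 0 → AStep M mk q n q2 n

/-- halting with total content at most `N` -/
inductive HaltsB (M : Mach) (mk : ℕ → Bool) (N : ℕ) : M.Q → (Fin (M.m + 1) → ℕ) → Prop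
  | halt (q : M.Q) (n : Fin (M.m + 1) → ℕ) : M.ins q = .halt → tot n ≤ N → HaltsB M mk N q n
  | step (q : M.Q) (n : Fin (M.m + 1) → ℕ) (q' : M.Q) (n' : Fin (M.m + 1) → ℕ) :
      AStep M mk q n q' n' → tot n ≤ N → HaltsB M mk N q' n' → HaltsB M mk N q n

/-- halting -/
def Halts (M : Mach) (mk : ℕ → Bool) (q : M.Q) (n : Fin (M.m + 1) → ℕ) : Prop :=
  ∃ N, HaltsB M mk N q n

/-- the first mark from position `a` on is at position `a + i` -/
def Gap (mk : ℕ → Bool) (a i : ℕ) : Prop :=
  (∀ s, a ≤ s → s < a + i → mk s = false) ∧ mk (a + i) = true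

/-- the partial recursive function number `e` is defined at `i` -/
def DomAt (e i : ℕ) : Prop :=
  (Nat.Partrec.Code.eval (Denumerable.ofNat Nat.Partrec.Code e) i).Dom

/-- the machine is universal -/
def Univ (M : Mach) : Prop :=
  ∀ e i, (DomAt e i → ∃ N, ∀ mk, Gap mk (e + M.m + 3) i → HaltsB M mk N M.q0 (Pi.single 0 e)) ∧
    (¬ DomAt e i → ∀ mk, Gap mk (e + M.m + 3) i → ¬ Halts M mk M.q0 (Pi.single 0 e))

/-! ### The rewriting system of a tank machine -/

/-- opening bracket, units of the regions, closing separators of the regions -/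
inductive Y (m : ℕ) : Type
  | o : Y m
  | r (j : Fin (m + 1)) : Y m
  | s (j : Fin (m + 1)) : Y m

/-- letters left of the head, letters right of the head, heads, frozen heads -/
inductive G0 (m : ℕ) (Q : Type) : Type
  | L (y : Y m) : G0 m Q
  | R (y : Y m) : G0 m Q
  | H (q : Q) (x : Fin (m + 1)) : G0 m Q
  | B (q : Q) (x : Fin (m + 1)) : G0 m Q

instance (m : ℕ) : Fintype (Y m) := derive_fintype% _

instance (m : ℕ) (Q : Type) [Fintype Q] : Fintype (G0 m Q) := derive_fintype% _

namespace Y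

variable {m : ℕ}

/-- letters the head can cross -/
def Tk : Y m → Prop
  | o => False
  | r _ => True
  | s j => j ≠ Fin.last m

/-- region on the left -/
def inn : Y m → ℕ
  | o => 0
  | r j => j
  | s j => j

/-- region on the right -/
def out : Y m → ℕ
  | o => 0
  | r j => j
  | s j => j + 1

/-- left boundary of a region -/
def opn (j : Fin (m + 1)) : Y m := Fin.cases o (fun i => s i.castSucc) j

end Y

/-- contents of a tank, with the closing bracket -/
def lay {m : ℕ} (n : Fin (m + 1) → ℕ) : List (Y m) :=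
  (List.finRange (m + 1)).flatMap fun j => replicate (n j) (.r j) ++ [.s j]

namespace G0

variable {m : ℕ} {Q : Type}

/-- letters of left type -/
def isL : G0 m Q → Prop
  | L _ => True
  | R _ => False
  | H _ _ => False
  | B _ _ => True

/-- letters of right type -/
def isR : G0 m Q → Prop
  | L _ => False
  | R _ => True
  | H _ _ => False
  | B _ _ => False

end G0

/-- unmarked letters -/
abbrev Mach.Γ0 (M : Mach) : Type := G0 M.m M.Q

/-- marked letters -/
abbrev Mach.Γ (M : Mach) : Type := G0 M.m M.Q × Bool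

noncomputable instance (M : Mach) : Fintype M.Γ := by
  haveI := M.fin
  exact inferInstanceAs (Fintype (G0 M.m M.Q × Bool))

/-- mark the letters, starting at position `i` -/
def mkw {β : Type} (mk : ℕ → Bool) : ℕ → List β → List (β × Bool)
  | _, [] => []
  | i, a :: P => (a, mk i) :: mkw mk (i + 1) P

open G0 Y in
/-- the rules that do not depend on the program number -/
inductive Rule (M : Mach) : List M.Γ → List M.Γ → Prop
  | comm (q : M.Q) (x : Fin (M.m + 1)) (y : Y M.m) (μ ν : Bool) : Tk y →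
      Rule M [(H q x, μ), (R y, ν)] [(L y, μ), (H q x, ν)]
  | pull (q q1 q2 : M.Q) (x : Fin (M.m + 1)) (μ ν ξ : Bool) : M.ins q = .pull q1 q2 →
      Rule M [(H q x, μ), (R (s (Fin.last _)), ν), (R (r x), ξ)]
        [(H (if ξ then q2 else q1) x, μ), (R (r (Fin.last _)), ν), (R (s (Fin.last _)), ξ)]
  | push (q q1 q2 : M.Q) (x : Fin (M.m + 1)) (μ ν ξ : Bool) : M.ins q = .push q1 q2 →
      Rule M [(H q x, μ), (R (r (Fin.last _)), ν), (R (s (Fin.last _)), ξ)]
        [(H q1 x, μ), (R (s (Fin.last _)), ν), (R (r x), ξ)]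
  | push0 (q q1 q2 : M.Q) (x : Fin (M.m + 1)) (μ ν ξ : Bool) : M.ins q = .push q1 q2 →
      Rule M [(L (opn (Fin.last _)), μ), (H q x, ν), (R (s (Fin.last _)), ξ)]
        [(L (opn (Fin.last _)), μ), (H q2 x, ν), (R (s (Fin.last _)), ξ)]
  | shl (q : M.Q) (j : Fin M.m) (q1 : M.Q) (x : Fin (M.m + 1)) (μ ν ξ : Bool) :
      M.ins q = .shl j q1 →
      Rule M [(H q x, μ), (R (s j.castSucc), ν), (R (r j.succ), ξ)]
        [(H q1 x, μ), (R (r j.castSucc), ν), (R (s j.castSucc), ξ)]
  | shr (q : M.Q) (j : Fin M.m) (q1 q2 : M.Q) (x : Fin (M.m + 1)) (μ ν ξ : Bool) :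
      M.ins q = .shr j q1 q2 →
      Rule M [(H q x, μ), (R (r j.castSucc), ν), (R (s j.castSucc), ξ)]
        [(H q1 x, μ), (R (s j.castSucc), ν), (R (r j.succ), ξ)]
  | shr0 (q : M.Q) (j : Fin M.m) (q1 q2 : M.Q) (x : Fin (M.m + 1)) (μ ν ξ : Bool) :
      M.ins q = .shr j q1 q2 →
      Rule M [(L (opn j.castSucc), μ), (H q x, ν), (R (s j.castSucc), ξ)]
        [(L (opn j.castSucc), μ), (H q2 x, ν), (R (s j.castSucc), ξ)]

open G0 Y in
/-- left side of the rule that starts a new machine -/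
def spL (M : Mach) (e : ℕ) (q : M.Q) (x y : Fin (M.m + 1)) (μ : Bool) : List M.Γ :=
  (H q x, μ) :: (R (r y), true) :: replicate (e + M.m + 2) (R (r y), false)

open G0 Y in
/-- right side of the rule that starts a new machine -/
def spR (M : Mach) (e : ℕ) (q : M.Q) (x y : Fin (M.m + 1)) (μ : Bool) : List M.Γ :=
  (B q x, μ) :: (L o, true) :: (H M.q0 y, false) ::
    (lay (Pi.single 0 e : Fin (M.m + 1) → ℕ)).map fun z => (R z, false)

/-- all moves -/
def mvM (M : Mach) (e : ℕ) : Set (List M.Γ × List M.Γ) :=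
  {w | Rule M w.1 w.2 ∨ ∃ q x y μ, w = (spL M e q x y μ, spR M e q x y μ)}

open G0 Y in
/-- exchanges of arguments -/
def swM (M : Mach) : Set (M.Γ × M.Γ × M.Γ) :=
  {w | ∃ q x μ y y', Tk y ∧ Tk y' ∧ w = ((H q x, μ), (R y, false), (R y', false))}

open G0 Y in
/-- the forbidden words that do not depend on the program number -/
inductive Kill (M : Mach) : List M.Γ → Prop
  | ord (a b : M.Γ0) (μ ν : Bool) : ¬ a.isL → ¬ b.isR → Kill M [(a, μ), (b, ν)]
  | srtL (y y' : Y M.m) (μ ν : Bool) : Tk y → Tk y' → y.out ≠ y'.inn →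
      Kill M [(L y, μ), (L y', ν)]
  | srtR (y y' : Y M.m) (μ ν : Bool) : Tk y → Tk y' → y.out ≠ y'.inn →
      Kill M [(R y, μ), (R y', ν)]
  | hlt (q : M.Q) (x : Fin (M.m + 1)) (μ : Bool) : M.ins q = .halt → Kill M [(H q x, μ)]

open G0 Y in
/-- two marks that are too close -/
def gapW (M : Mach) (j : ℕ) (q : M.Q) (x y : Fin (M.m + 1)) (μ : Bool) : List M.Γ :=
  (H q x, μ) :: (R (r y), true) :: (replicate j (R (r y), false) ++ [(R (r y), true)])

/-- all forbidden words -/
def klM (M : Mach) (e : ℕ) : Set (List M.Γ) :=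
  {z | Kill M z ∨ ∃ j q x y μ, j < e + M.m + 2 ∧ z = gapW M j q x y μ}

open G0 Y in
/-- words that vanish in algebras with at most `n` generators -/
def bigM (M : Mach) (n : ℕ) : Set (List M.Γ) :=
  {z | ∃ q x μ, ∃ ys : List (Y M.m), ys.length = n + 1 ∧ (∀ y ∈ ys, Tk y) ∧
    z = (H q x, μ) :: ys.map fun y => (R y, false)}

/-- moves and supports of exchanges -/
def amvM (M : Mach) (e : ℕ) : Set (List M.Γ × List M.Γ) :=
  mvM M e ∪ {m | ∃ a b c, (a, b, c) ∈ swM M ∧ m = ([a, b, c], [a, b, c])}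

theorem length_lay {m : ℕ} (n : Fin (m + 1) → ℕ) : (lay n).length = tot n + m + 1 := by
  simp only [lay, length_flatMap, length_append, length_replicate, length_cons, length_nil, tot]
  rw [← List.ofFn_eq_map, List.sum_ofFn, Finset.sum_add_distrib]
  simp
  ring

theorem tot_single {m : ℕ} (j : Fin (m + 1)) (e : ℕ) :
    tot (Pi.single j e : Fin (m + 1) → ℕ) = e := by
  simp [tot]

theorem mvM_len (M : Mach) (e : ℕ) : ∀ w ∈ mvM M e, w.1.length = w.2.length := by
  rintro ⟨u, u'⟩ (h | ⟨q, x, y, μ, h⟩)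
  · cases h <;> rfl
  · obtain ⟨rfl, rfl⟩ := Prod.mk.inj h
    simp [spL, spR, length_lay, tot_single]

/-- the code of the marked letters -/
noncomputable def cdM (M : Mach) : Cd M.Γ where
  K := Fintype.card M.Γ
  ix γ := Fintype.equivFin M.Γ γ
  hix γ := (Fintype.equivFin M.Γ γ).2
  inj _ _ h := (Fintype.equivFin M.Γ).injective (Fin.ext h)
  lb := (.L .o, false)
  rb := (.L .o, false)

/-- the coded system of the machine for the program number `e` -/
noncomputable def csM (M : Mach) (e : ℕ) : CS M.Γ where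
  toCd := cdM M
  mv := mvM M e
  sw := swM M
  kl := klM M e
  hmv := mvM_len M e

theorem allMv_csM (M : Mach) (e : ℕ) : (csM M e).allMv = amvM M e := rfl

open G0 Y in
/-- a tank with the head at the opening bracket -/
def tank (M : Mach) (q : M.Q) (x : Fin (M.m + 1)) (n : Fin (M.m + 1) → ℕ) : List M.Γ0 :=
  L o :: H q x :: (lay n).map R

/-- marks with period `T` -/
def per (T : ℕ) (i : ℕ) : Bool := decide (i % T = 0)

open G0 Y in
/-- the words that are alive when the marks have period `T` -/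
inductive Good (M : Mach) (T : ℕ) : List M.Γ0 → Prop
  | top (q : M.Q) (n : Fin (M.m + 1) → ℕ) (l1 r1 : List (Y M.m)) (j : ℕ) :
      lay n = l1 ++ r1 → r1 ≠ [] →
      (q = M.g0 ∧ n 0 + T * ((tot n + M.m + 2) / T) = T * ((tot n + M.m + 2 + j) / T)) ∨
      (q = M.g1 ∧ n 0 + T * ((tot n + M.m + 2) / T) = T * ((tot n + M.m + 2 + j) / T + 1)) →
      Good M T (L o :: (l1.map L ++ H q 0 :: (r1.map R ++ replicate j (R (r 0)))))
  | nest (p t : List M.Γ0) (q' : M.Q) (x' : Fin (M.m + 1)) (q : M.Q) (y : Fin (M.m + 1))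
      (n : Fin (M.m + 1) → ℕ) (l1 r1 : List (Y M.m)) :
      lay n = l1 ++ r1 → r1 ≠ [] → ¬ Halts M (per T) q n → (p.length + 1) % T = 0 →
      Good M T (p ++ H q' x' :: (replicate (tot n + M.m + 3) (R (r y)) ++ t)) →
      Good M T (p ++ B q' x' :: L o :: (l1.map L ++ H q y :: (r1.map R ++ t)))

/-- the inner separators of an empty tank -/
def seps (m : ℕ) : List (Y m) := (lay (0 : Fin (m + 1) → ℕ)).dropLast

open G0 Y in
/-- the words of the finite presentation -/
def d1L (M : Mach) (T : ℕ) : List M.Γ0 := L o :: H M.g1 0 :: replicate T (R (r 0))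

open G0 Y in
/-- the words of the finite presentation -/
def d1R (M : Mach) : List M.Γ0 := [L o, H M.g0 0]

open G0 Y in
/-- the words of the finite presentation -/
def d2L (M : Mach) (T : ℕ) : List M.Γ0 :=
  L o :: ((seps M.m).map L ++ replicate T (L (r (Fin.last _))))

open G0 Y in
/-- the words of the finite presentation -/
def d2R (M : Mach) : List M.Γ0 := L o :: (seps M.m).map L

open G0 Y in
/-- the words of the finite presentation -/
def d0 (M : Mach) : List M.Γ0 := [L o, H M.g1 0, R (s 0)]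

open G0 Y in
/-- the element that dies in all finite-dimensional quotients -/
def wC (M : Mach) : List M.Γ0 := L o :: ((seps M.m).map L ++ [H M.g0 0, R (s (Fin.last _))])

open G0 Y in
/-- left test words -/
def wV (M : Mach) (T i : ℕ) : List M.Γ0 := L o :: replicate (i * T) (L (r 0))

open G0 Y in
/-- right test words -/
def wW (M : Mach) (T k : ℕ) : List M.Γ0 :=
  (seps M.m).map L ++ H M.g0 0 :: R (s (Fin.last _)) :: replicate (k * T) (R (r 0))

end Pool.Agent.Lib.MP_038c09_al.Pi
end

-- part PiLay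
section

/-!
Basic facts on tank contents, marks, rewriting and halting.
-/

namespace Pool.Agent.Lib.MP_038c09_al.Pi

open List G0 Y

section rw

variable {α : Type} {Mv : Set (List α × List α)} {Kl : Set (List α)}

theorem Stp.symm {w w' : List α} (h : Stp Mv w w') : Stp Mv w' w := by
  obtain ⟨p, u, u', t, hm, rfl, rfl⟩ := h
  exact ⟨p, u', u, t, hm.symm, rfl, rfl⟩

theorem rch_symm {w w' : List α} (h : Rch Mv w w') : Rch Mv w' w := by
  induction h with
  | refl => exact Relation.ReflTransGen.refl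
  | tail _ h2 ih => exact Relation.ReflTransGen.head h2.symm ih

theorem Stp.ctx {w w' : List α} (h : Stp Mv w w') (p t : List α) :
    Stp Mv (p ++ w ++ t) (p ++ w' ++ t) := by
  obtain ⟨p1, u, u', t1, hm, rfl, rfl⟩ := h
  exact ⟨p ++ p1, u, u', t1 ++ t, hm, by simp, by simp⟩

theorem rch_ctx {w w' : List α} (h : Rch Mv w w') (p t : List α) :
    Rch Mv (p ++ w ++ t) (p ++ w' ++ t) := by
  induction h with
  | refl => exact Relation.ReflTransGen.refl
  | tail _ h2 ih => exact ih.tail (h2.ctx p t)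

theorem ded_ctx {w : List α} (h : Ded Mv Kl w) (p t : List α) : Ded Mv Kl (p ++ w ++ t) := by
  obtain ⟨w', h1, z, hz, h2⟩ := h
  exact ⟨p ++ w' ++ t, rch_ctx h1 p t, z, hz, h2.trans ⟨p, t, rfl⟩⟩

theorem ded_of_rch {w w' : List α} (h : Rch Mv w w') (h' : Ded Mv Kl w') : Ded Mv Kl w := by
  obtain ⟨w'', h1, h2⟩ := h'
  exact ⟨w'', h.trans h1, h2⟩

theorem ded_of_kld {w : List α} (h : Kld Kl w) : Ded Mv Kl w := ⟨w, Relation.ReflTransGen.refl, h⟩

theorem ded_mono {Kl' : Set (List α)} (hK : Kl ⊆ Kl') {w : List α} (h : Ded Mv Kl w) :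
    Ded Mv Kl' w := by
  obtain ⟨w', h1, z, hz, h2⟩ := h
  exact ⟨w', h1, z, hK hz, h2⟩

end rw

section mkw

variable {β : Type}

@[simp] theorem mkw_nil (mk : ℕ → Bool) (i : ℕ) : mkw mk i ([] : List β) = [] := rfl

@[simp] theorem mkw_cons (mk : ℕ → Bool) (i : ℕ) (a : β) (P : List β) :
    mkw mk i (a :: P) = (a, mk i) :: mkw mk (i + 1) P := rfl

theorem mkw_append (mk : ℕ → Bool) (i : ℕ) (P P' : List β) :
    mkw mk i (P ++ P') = mkw mk i P ++ mkw mk (i + P.length) P' := by
  induction P generalizing i with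
  | nil => rfl
  | cons a P ih => simp [ih, add_assoc, add_comm 1]

@[simp] theorem map_fst_mkw (mk : ℕ → Bool) (i : ℕ) (P : List β) :
    (mkw mk i P).map Prod.fst = P := by
  induction P generalizing i with
  | nil => rfl
  | cons a P ih => simp [ih]

@[simp] theorem length_mkw (mk : ℕ → Bool) (i : ℕ) (P : List β) :
    (mkw mk i P).length = P.length := by
  induction P generalizing i with
  | nil => rfl
  | cons a P ih => simp [ih]

theorem mkw_congr {mk mk' : ℕ → Bool} {i i' : ℕ} {P : List β}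
    (h : ∀ k < P.length, mk (i + k) = mk' (i' + k)) : mkw mk i P = mkw mk' i' P := by
  induction P generalizing i i' with
  | nil => rfl
  | cons a P ih =>
    have h0 := h 0 (by simp)
    simp only [add_zero] at h0
    rw [mkw_cons, mkw_cons, h0, ih fun k hk => ?_]
    have := h (k + 1) (by simpa using hk)
    rwa [show i + 1 + k = i + (k + 1) by ring, show i' + 1 + k = i' + (k + 1) by ring]

/-- the parts of a marked word are marked words -/
theorem mkw_eq_append {mk : ℕ → Bool} {i : ℕ} {P : List β} {A C : List (β × Bool)}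
    (h : mkw mk i P = A ++ C) : P = A.map Prod.fst ++ C.map Prod.fst ∧
      A = mkw mk i (A.map Prod.fst) ∧ C = mkw mk (i + A.length) (C.map Prod.fst) := by
  have h1 : P = A.map Prod.fst ++ C.map Prod.fst := by
    rw [← map_append, ← h, map_fst_mkw]
  rw [h1, mkw_append] at h
  obtain ⟨h2, h3⟩ := append_inj h (by simp)
  exact ⟨h1, h2.symm, by rw [← h3]; simp⟩

/-- every marked word is of the form `mkw` -/
theorem exists_mkw (W : List (β × Bool)) : ∃ mk, W = mkw mk 0 (W.map Prod.fst) := by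
  have : ∀ (W : List (β × Bool)) (i : ℕ), ∃ mk, W = mkw mk i (W.map Prod.fst) := by
    intro W
    induction W with
    | nil => exact fun _ => ⟨fun _ => false, rfl⟩
    | cons a W ih =>
      intro i
      obtain ⟨mk, h⟩ := ih (i + 1)
      refine ⟨Function.update mk i a.2, ?_⟩
      rw [map_cons, mkw_cons, Function.update_self]
      congr 1
      refine h.trans (mkw_congr fun k _ => ?_)
      rw [Function.update_of_ne (by omega)]
  exact this W 0

theorem mkw_const {mk : ℕ → Bool} {i : ℕ} {P : List β} {b : Bool}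
    (h : ∀ k < P.length, mk (i + k) = b) : mkw mk i P = P.map fun a => (a, b) := by
  induction P generalizing i with
  | nil => rfl
  | cons a P ih =>
    have h0 := h 0 (by simp)
    simp only [add_zero] at h0
    rw [mkw_cons, map_cons, h0, ih fun k hk => ?_]
    have := h (k + 1) (by simpa using hk)
    rwa [show i + 1 + k = i + (k + 1) by ring]

end mkw

section inc

variable {k : ℕ}

@[simp] theorem inc_self (n : Fin k → ℕ) (j : Fin k) : inc n j j = n j + 1 := by simp [inc]

theorem inc_of_ne (n : Fin k → ℕ) {j i : Fin k} (h : i ≠ j) : inc n j i = n i := by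
  simp [inc, h]

theorem inc_eq_add (n : Fin k → ℕ) (j : Fin k) : inc n j = n + Pi.single j 1 := by
  funext i
  by_cases h : i = j
  · subst h; simp
  · simp [inc_of_ne n h, h]

theorem tot_inc (n : Fin k → ℕ) (j : Fin k) : tot (inc n j) = tot n + 1 := by
  simp [inc_eq_add, tot, Finset.sum_add_distrib]

theorem inc_inj {n n' : Fin k → ℕ} {j : Fin k} (h : inc n j = inc n' j) : n = n' := by
  rw [inc_eq_add, inc_eq_add] at h
  exact add_right_cancel h

theorem exists_inc {n : Fin k → ℕ} {j : Fin k} (h : n j ≠ 0) : ∃ n', n = inc n' j := by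
  refine ⟨Function.update n j (n j - 1), ?_⟩
  funext i
  by_cases hi : i = j
  · subst hi; simp; omega
  · simp [inc_of_ne _ hi, hi]

end inc

section lay

variable {m : ℕ}

/-- the regions before region `j` -/
def pre (n : Fin (m + 1) → ℕ) (j : Fin (m + 1)) : List (Y m) :=
  ((List.finRange (m + 1)).take j).flatMap fun i => replicate (n i) (.r i) ++ [.s i]

/-- the regions after region `j` -/
def post (n : Fin (m + 1) → ℕ) (j : Fin (m + 1)) : List (Y m) :=
  ((List.finRange (m + 1)).drop (j + 1)).flatMap fun i => replicate (n i) (.r i) ++ [.s i]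

theorem finRange_split (j : Fin (m + 1)) : List.finRange (m + 1) =
    (List.finRange (m + 1)).take j ++ j :: (List.finRange (m + 1)).drop (j + 1) := by
  conv_lhs => rw [← take_append_drop j (List.finRange (m + 1))]
  rw [drop_eq_getElem_cons (by simpa using j.is_le)]
  simp

theorem lay_split (n : Fin (m + 1) → ℕ) (j : Fin (m + 1)) :
    lay n = pre n j ++ (replicate (n j) (r j) ++ s j :: post n j) := by
  rw [lay, finRange_split j]
  simp [pre, post]

theorem mem_take_finRange {j : ℕ} {i : Fin (m + 1)} (h : i ∈ (List.finRange (m + 1)).take j) :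
    (i : ℕ) < j := by
  obtain ⟨a, ha, rfl⟩ := List.mem_iff_getElem.1 h
  simp at ha ⊢
  omega

theorem mem_drop_finRange {j : ℕ} {i : Fin (m + 1)} (h : i ∈ (List.finRange (m + 1)).drop j) :
    j ≤ (i : ℕ) := by
  obtain ⟨a, ha, rfl⟩ := List.mem_iff_getElem.1 h
  simp

theorem pre_congr {n n' : Fin (m + 1) → ℕ} {j : Fin (m + 1)} (h : ∀ i, i < j → n i = n' i) :
    pre n j = pre n' j :=
  List.flatMap_congr fun i hi => by rw [h i (mem_take_finRange hi)]

theorem post_congr {n n' : Fin (m + 1) → ℕ} {j : Fin (m + 1)} (h : ∀ i, j < i → n i = n' i) :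
    post n j = post n' j :=
  List.flatMap_congr fun i hi => by rw [h i (mem_drop_finRange hi)]

@[simp] theorem pre_zero (n : Fin (m + 1) → ℕ) : pre n 0 = [] := by simp [pre]

@[simp] theorem post_last (n : Fin (m + 1) → ℕ) : post n (Fin.last m) = [] := by
  rw [post, drop_of_length_le (by simp)]
  rfl

theorem pre_succ (n : Fin (m + 1) → ℕ) (j : Fin m) :
    pre n j.succ = pre n j.castSucc ++ (replicate (n j.castSucc) (r j.castSucc) ++
      [s j.castSucc]) := by
  have : (List.finRange (m + 1)).take (j.succ : Fin (m + 1)) =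
      (List.finRange (m + 1)).take (j.castSucc : Fin (m + 1)) ++ [j.castSucc] := by
    rw [Fin.val_succ, Fin.val_castSucc, take_add_one, getElem?_eq_getElem (by simp)]
    simp only [getElem_finRange, Option.toList_some]
    rfl
  rw [pre, this]
  simp [pre]

theorem post_castSucc (n : Fin (m + 1) → ℕ) (j : Fin m) :
    post n j.castSucc = replicate (n j.succ) (r j.succ) ++ s j.succ :: post n j.succ := by
  have : (List.finRange (m + 1)).drop ((j.castSucc : Fin (m + 1)) + 1) =
      j.succ :: (List.finRange (m + 1)).drop ((j.succ : Fin (m + 1)) + 1) := by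
    rw [Fin.val_succ, Fin.val_castSucc, drop_eq_getElem_cons (by simp)]
    simp only [getElem_finRange]
    rfl
  rw [post, this]
  simp [post]

theorem mem_pre {n : Fin (m + 1) → ℕ} {j : Fin (m + 1)} {y : Y m} (h : y ∈ pre n j) :
    ∃ i, i < j ∧ (y = r i ∨ y = s i) := by
  obtain ⟨i, hi, h⟩ := mem_flatMap.1 h
  refine ⟨i, mem_take_finRange hi, ?_⟩
  rcases mem_append.1 h with h | h
  · exact Or.inl (mem_replicate.1 h).2
  · exact Or.inr (by simpa using h)

theorem mem_post {n : Fin (m + 1) → ℕ} {j : Fin (m + 1)} {y : Y m} (h : y ∈ post n j) :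
    ∃ i, j < i ∧ (y = r i ∨ y = s i) := by
  obtain ⟨i, hi, h⟩ := mem_flatMap.1 h
  refine ⟨i, mem_drop_finRange hi, ?_⟩
  rcases mem_append.1 h with h | h
  · exact Or.inl (mem_replicate.1 h).2
  · exact Or.inr (by simpa using h)

theorem tk_pre {n : Fin (m + 1) → ℕ} {j : Fin (m + 1)} {y : Y m} (h : y ∈ pre n j) : Tk y := by
  obtain ⟨i, hi, rfl | rfl⟩ := mem_pre h
  · trivial
  · exact (hi.trans_le (Fin.le_last j)).ne

theorem getLast_pre (n : Fin (m + 1) → ℕ) (j : Fin (m + 1)) :
    ∃ l, o :: pre n j = l ++ [opn j] := by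
  induction j using Fin.cases with
  | zero => exact ⟨[], by simp [opn]⟩
  | succ j =>
    exact ⟨o :: (pre n j.castSucc ++ replicate (n j.castSucc) (r j.castSucc)),
      by simp [pre_succ, opn]⟩

theorem opn_ne_r (j i : Fin (m + 1)) : opn j ≠ r i := by
  induction j using Fin.cases <;> simp [opn]

theorem o_notMem_lay (n : Fin (m + 1) → ℕ) : o ∉ lay n := by
  simp [lay]

/-- the position of a separator is unique -/
theorem lay_eq_s {n : Fin (m + 1) → ℕ} {l1 l2 : List (Y m)} {j : Fin (m + 1)}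
    (h : lay n = l1 ++ s j :: l2) :
    l1 = pre n j ++ replicate (n j) (r j) ∧ l2 = post n j := by
  rw [lay_split n j, ← append_assoc] at h
  have h1 : s j ∉ pre n j ++ replicate (n j) (r j) := by
    intro hm
    rcases mem_append.1 hm with hm | hm
    · obtain ⟨i, hi, hm | hm⟩ := mem_pre hm
      · cases hm
      · cases hm; exact lt_irrefl _ hi
    · cases (mem_replicate.1 hm).2
  have h2 : s j ∉ post n j := by
    intro hm
    obtain ⟨i, hi, hm | hm⟩ := mem_post hm
    · cases hm
    · cases hm; exact lt_irrefl _ hi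
  rcases append_eq_append_iff.1 h with ⟨a, rfl, h3⟩ | ⟨a, h3, h4⟩
  · cases a with
    | nil => simpa using h3.symm
    | cons b a =>
      obtain ⟨-, h3⟩ := cons.inj h3
      exact absurd (h3 ▸ by simp) h2
  · cases a with
    | nil =>
      simp only [nil_append, cons.injEq, true_and, append_nil] at h3 h4
      exact ⟨h3.symm, h4⟩
    | cons b a =>
      obtain ⟨rfl, -⟩ := cons.inj h4
      exact absurd (h3 ▸ by simp) h1

theorem lay_last (n : Fin (m + 1) → ℕ) : lay n =
    (pre n (Fin.last m) ++ replicate (n (Fin.last m)) (r (Fin.last m))) ++ [s (Fin.last m)] := by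
  rw [lay_split n (Fin.last m)]
  simp

theorem dropLast_lay (n : Fin (m + 1) → ℕ) : (lay n).dropLast =
    pre n (Fin.last m) ++ replicate (n (Fin.last m)) (r (Fin.last m)) := by
  rw [lay_last, dropLast_concat]

theorem lay_eq_dropLast (n : Fin (m + 1) → ℕ) : lay n = (lay n).dropLast ++ [s (Fin.last m)] := by
  rw [dropLast_lay, ← lay_last]

theorem tk_dropLast_lay {n : Fin (m + 1) → ℕ} {y : Y m} (h : y ∈ (lay n).dropLast) : Tk y := by
  rw [dropLast_lay] at h
  rcases mem_append.1 h with h | h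
  · exact tk_pre h
  · rw [(mem_replicate.1 h).2]; trivial

/-- a split of the contents at the head -/
theorem lay_head {n : Fin (m + 1) → ℕ} {l1 r1 : List (Y m)} (h : lay n = l1 ++ r1)
    (hr : r1 ≠ []) : ∃ r2, r1 = r2 ++ [s (Fin.last m)] ∧ (∀ y ∈ l1, Tk y) ∧ ∀ y ∈ r2, Tk y := by
  obtain ⟨r2, b, rfl⟩ := (eq_nil_or_concat' r1).resolve_left hr
  rw [lay_eq_dropLast, ← append_assoc] at h
  obtain ⟨h1, h2⟩ := append_inj' h rfl
  obtain rfl : s (Fin.last m) = b := by simpa using h2
  exact ⟨r2, rfl, fun y hy => tk_dropLast_lay (n := n) (h1 ▸ mem_append_left _ hy),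
    fun y hy => tk_dropLast_lay (n := n) (h1 ▸ mem_append_right _ hy)⟩

theorem seps_eq (m : ℕ) : seps m = pre (0 : Fin (m + 1) → ℕ) (Fin.last m) := by
  simp [seps, dropLast_lay]

end lay

section halts

variable {M : Mach} {mk : ℕ → Bool}

theorem g0_ne_g1 (M : Mach) : M.g0 ≠ M.g1 := by
  intro h
  have := M.hg0
  rw [h, M.hg1] at this
  cases this

theorem AStep.det {q q1 q2 : M.Q} {n n1 n2 : Fin (M.m + 1) → ℕ} (h1 : AStep M mk q n q1 n1)
    (h2 : AStep M mk q n q2 n2) : q1 = q2 ∧ n1 = n2 := by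
  generalize hn : n = n' at h2
  have k1 : ∀ {k : ℕ} {a b : Fin k → ℕ} {j : Fin k}, inc a j = b → b j = 0 → False := by
    rintro k a b j rfl h
    simp at h
  cases h1 with
  | pull a b _ hq => cases h2 <;> simp_all
  | push a b _ hq =>
    cases h2 with
    | push _ _ _ hq' => exact ⟨by simp_all, inc_inj hn⟩
    | push0 _ _ _ _ h0 => exact (k1 hn h0).elim
    | _ => simp_all
  | push0 a b _ hq h0 =>
    cases h2 with
    | push _ _ _ hq' => exact (k1 hn.symm h0).elim
    | _ => simp_all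
  | shl j a _ hq =>
    cases h2 with
    | shl _ _ _ hq' =>
      rw [hq] at hq'
      cases hq'
      exact ⟨rfl, by rw [inc_inj hn]⟩
    | _ => simp_all
  | shr j a b _ hq =>
    cases h2 with
    | shr _ _ _ _ hq' =>
      rw [hq] at hq'
      cases hq'
      exact ⟨rfl, by rw [inc_inj hn]⟩
    | shr0 _ _ _ _ hq' h0 =>
      rw [hq] at hq'
      cases hq'
      exact (k1 hn h0).elim
    | _ => simp_all
  | shr0 j a b _ hq h0 =>
    cases h2 with
    | shr _ _ _ _ hq' =>
      rw [hq] at hq'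
      cases hq'
      exact (k1 hn.symm h0).elim
    | _ => simp_all

theorem HaltsB.mono {N N' : ℕ} (hN : N ≤ N') {q : M.Q} {n : Fin (M.m + 1) → ℕ}
    (h : HaltsB M mk N q n) : HaltsB M mk N' q n := by
  induction h with
  | halt q n h1 h2 => exact .halt q n h1 (h2.trans hN)
  | step q n q' n' h1 h2 _ ih => exact .step q n q' n' h1 (h2.trans hN) ih

theorem HaltsB.tot_le {N : ℕ} {q : M.Q} {n : Fin (M.m + 1) → ℕ} (h : HaltsB M mk N q n) :
    tot n ≤ N := by
  cases h <;> assumption

theorem AStep.ne_halt {q q' : M.Q} {n n' : Fin (M.m + 1) → ℕ} (h : AStep M mk q n q' n') :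
    M.ins q ≠ .halt := by
  cases h <;> simp [*]

theorem AStep.halts_iff {q q' : M.Q} {n n' : Fin (M.m + 1) → ℕ} (h : AStep M mk q n q' n') :
    Halts M mk q n ↔ Halts M mk q' n' := by
  constructor
  · rintro ⟨N, hN⟩
    cases hN with
    | halt _ _ h1 _ => exact absurd h1 h.ne_halt
    | step _ _ q2 n2 h1 _ h3 =>
      obtain ⟨rfl, rfl⟩ := h.det h1
      exact ⟨N, h3⟩
  · rintro ⟨N, hN⟩
    exact ⟨max N (tot n), .step _ _ _ _ h (le_max_right _ _) (hN.mono (le_max_left _ _))⟩

theorem halts_of_halt {q : M.Q} (h : M.ins q = .halt) (n : Fin (M.m + 1) → ℕ) : Halts M mk q n :=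
  ⟨_, .halt q n h le_rfl⟩

end halts

end Pool.Agent.Lib.MP_038c09_al.Pi
end

-- part PiA
section

/-!
The RFD property in terms of word modules, for an arbitrary set of multilinear binomial
identities.
-/

set_option linter.unusedSectionVars false
set_option linter.unusedVariables false

namespace Pool.Agent.Lib.MP_038c09_al.Pi

open List

variable {F : Type} [Field F] {X Γ : Type}

theorem relG_mem {L : List (Bool × X) → ℤ → List (Bool × X) → Prop} {w w' : List (Bool × X)}
    {e : ℤ} (h : L w e w') (g : X × X) (p t : List (Bool × X)) :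
    bw F g (p ++ (w ++ t)) - (e : F) • bw F g (p ++ (w' ++ t)) ∈ RelG F L :=
  Submodule.subset_span ⟨g, p, w, e, w', t, h, rfl⟩

theorem rel_leD {L : List (Bool × X) → ℤ → List (Bool × X) → Prop} {M : Type} [AddCommGroup M] [Module F M] (f : PP F X →ₗ[F] M)
    (N : Submodule F M) (h : ∀ g p w e w' t, L w e w' →
      f (bw F g (p ++ (w ++ t))) - (e : F) • f (bw F g (p ++ (w' ++ t))) ∈ N)
    {x : PP F X} (hx : x ∈ RelG F L) : f x ∈ N := by
  have : RelG F L ≤ N.comap f := by
    refine Submodule.span_le.2 ?_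
    rintro _ ⟨g, p, w, e, w', t, hr, rfl⟩
    simpa using h g p w e w' t hr
  exact this hx

theorem stable_relD (L : List (Bool × X) → ℤ → List (Bool × X) → Prop) : Stable (RelG F L) := fun u _ hx =>
  rel_leD _ _ (fun g p w e w' t hr => by
    simpa using relG_mem (F := F) hr g p (t ++ [u])) hx

theorem rel_ρD {L : List (Bool × X) → ℤ → List (Bool × X) → Prop} {w w' : List (Bool × X)} {e : ℤ} (h : L w e w') (m : PP F X) :
    ρ w m - (e : F) • ρ w' m ∈ RelG F L := by
  have := PP_mem (f := (ρ w : PP F X →ₗ[F] PP F X) - (e : F) • ρ w') (N := RelG F L)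
    (fun g p => by
      have := relG_mem (F := F) h g p []
      rw [append_nil, append_nil] at this
      rwa [LinearMap.sub_apply, LinearMap.smul_apply, ρ_bw, ρ_bw]) m
  rwa [LinearMap.sub_apply, LinearMap.smul_apply] at this

section fin

variable [Fintype X] [DecidableEq X]

theorem h0_tvalD (D : Set IdData) (hD : ∀ d ∈ D, GoodD d)
    {g : FA F X} (hg : g ∈ TVal (polysD F D) X) :
    (h0 g).1 = 0 ∧ (h0 g).2 ∈ RelG F (RlD D) := by
  obtain ⟨f, hf, φ, rfl⟩ := hg
  rcases hf with rfl | ⟨d, hd, rfl⟩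
  · rw [metab, h0_lift]
    simp [evm_mul, μB_apply]
  · rw [opId, map_sub, map_smul, map_sub, map_smul, h0_lift, h0_lift,
      evm_act _ _ _ rfl, evm_act _ _ _ rfl]
    refine ⟨by simp, ?_⟩
    simp only [Prod.snd_sub, Prod.smul_snd]
    rcases isEmpty_or_nonempty X with hX | ⟨⟨x0⟩⟩
    · have : ∀ m : PP F X, m ∈ RelG F (RlD D) := fun m => by
        rw [Subsingleton.elim m 0]; exact zero_mem _
      exact this _
    · exact multilin (hD d hd) _ _ x0 (fun a => rel_ρD ⟨d, hd, a, rfl, rfl, rfl⟩ _) _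

theorem rel_le_comapD (D : Set IdData) (hD : ∀ d ∈ D, GoodD d)
    {J : Submodule F (FA F X)} (hJ : IsIdeal J)
    (hT : TVal (polysD F D) X ⊆ J) : RelG F (RlD D) ≤ J.comap jP := by
  refine Submodule.span_le.2 ?_
  rintro _ ⟨g, p, w, e, w', t, hr, rfl⟩
  have h1 : bw F g (p ++ w) - (e : F) • bw F g (p ++ w') ∈ J.comap jP := by
    obtain ⟨d, hd, a, rfl, rfl, rfl⟩ := hr
    obtain ⟨t0, t1, ht⟩ := act_mul (.of g.1) (.of g.2) p
    have hg := hD d hd
    let φ : ℕ → FA F X := fun i =>
      if i = 0 then mon F t0 else if i = 1 then mon F t1 else mon F (.of (a i))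
    have hφ : ∀ i ∈ arg d.1, φ i = mon F (.of (a i)) := fun i hi => by
      have := hg.2.2 i hi
      simp only [φ]
      rw [if_neg (by omega), if_neg (by omega)]
    have h01 : FreeNonUnitalNonAssocAlgebra.lift F φ (mon F (.of 0 * .of 1)) = mon F (t0 * t1) := by
      rw [mon_mul, map_mul, mon_of, mon_of, FreeNonUnitalNonAssocAlgebra.lift_of_apply,
        FreeNonUnitalNonAssocAlgebra.lift_of_apply, mon_mul]
      simp [φ]
    refine hT ⟨opId F d, Or.inr ⟨d, hd, rfl⟩, φ, ?_⟩
    rw [opId, map_sub, map_smul, map_sub, map_smul, jP_bw, jP_bw, act_append, act_append, ht,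
      lift_act φ a _ hφ _ _ h01, lift_act φ a _ (fun i hi => hφ i (hg.2.1.subset hi)) _ _ h01]
  have h2 := (stable_comap hJ).ρ_mem t h1
  rwa [map_sub, map_smul, ρ_bw, ρ_bw, append_assoc, append_assoc] at h2

theorem jP_mul_memD (D : Set IdData) (hD : ∀ d ∈ D, GoodD d)
    {J : Submodule F (FA F X)} (hT : TVal (polysD F D) X ⊆ J)
    (m m' : PP F X) : jP m * jP m' ∈ J := by
  refine PP_mem (f := (LinearMap.mul F _).flip (jP m') ∘ₗ jP) (fun g w => ?_) m
  refine PP_mem (f := LinearMap.mul F _ (jP (bw F g w)) ∘ₗ jP) (fun g' w' => ?_) m'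
  obtain ⟨t0, t1, ht⟩ := act_mul (.of g.1) (.of g.2) w
  obtain ⟨t2, t3, ht'⟩ := act_mul (.of g'.1) (.of g'.2) w'
  refine hT ⟨metab F, Or.inl rfl, fun i => mon F (![t0, t1, t2, t3] (Fin.ofNat 4 i)), ?_⟩
  simp only [LinearMap.comp_apply, LinearMap.mul_apply', jP_bw, ht, ht', metab, mon_mul, map_mul,
    mon_of, FreeNonUnitalNonAssocAlgebra.lift_of_apply]
  rfl

theorem sub_jB_memD (D : Set IdData) (hD : ∀ d ∈ D, GoodD d)
    {J : Submodule F (FA F X)} (hJ : IsIdeal J)
    (hT : TVal (polysD F D) X ⊆ J) (f : FA F X) : f - jB (h0 f) ∈ J := by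
  induction f using MonoidAlgebra.induction_linear with
  | zero => simp
  | add f f' h h' =>
    rw [map_add, map_add, add_sub_add_comm]; exact J.add_mem h h'
  | single w c =>
    rw [single_eq, map_smul, map_smul, ← smul_sub]
    refine J.smul_mem _ ?_
    induction w with
    | ih1 x => simp [h0, evL_mon, evm, jB_apply, jV]
    | ih2 t t' ht ht' =>
      rw [mon_mul, h0_mul, jB_mul]
      have e : mon F t * mon F t' - (jB (h0 (mon F t)) * jB (h0 (mon F t')) -
          jP (h0 (mon F t)).2 * jP (h0 (mon F t')).2) =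
          (mon F t - jB (h0 (mon F t))) * mon F t' +
            jB (h0 (mon F t)) * (mon F t' - jB (h0 (mon F t'))) +
            jP (h0 (mon F t)).2 * jP (h0 (mon F t')).2 := by
        rw [sub_mul, mul_sub]; abel
      rw [e]
      exact J.add_mem (J.add_mem (hJ _ _ ht).2 (hJ _ _ ht').1) (jP_mul_memD D hD hT _ _)

theorem tval_subsetD (D : Set IdData) (hD : ∀ d ∈ D, GoodD d)
    (U : Submodule F (BB F X)) {J : Submodule F (PP F X)}
    (hJ : RelG F (RlD D) ≤ J) : TVal (polysD F D) X ⊆ (U ⊔ Submodule.prod ⊥ J).comap h0 := fun _ hg =>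
  Submodule.mem_sup_right ⟨(h0_tvalD D hD hg).1, hJ (h0_tvalD D hD hg).2⟩

end fin

theorem not_rfd_ofD (D : Set IdData) (hD : ∀ d ∈ D, GoodD d)
    {n : ℕ} (G : Finset (PP F (Fin n))) (a : PP F (Fin n))
    (J0 : Submodule F (PP F (Fin n))) (h1 : Stable J0) (h2 : RelG F (RlD D) ≤ J0)
    (h3 : (G : Set (PP F (Fin n))) ⊆ J0) (h4 : a ∉ J0)
    (h : ∀ J : Submodule F (PP F (Fin n)), Stable J → RelG F (RlD D) ≤ J →
      (G : Set (PP F (Fin n))) ⊆ J → J.CoFG → a ∈ J) : ¬ IsRFDVariety (polysD F D) := by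
  classical
  intro H
  obtain ⟨J, hJ, hle, hfin, ha⟩ := H n (G.image jP) (jP a) (by
    intro hK
    have hI := ideal_comap (F := F) (X := Fin n) ∅ J0 h1 (by simp) (by simp)
    have := idealGen_le hI (Set.union_subset (tval_subsetD D hD _ h2) (by
      rintro f hf
      obtain ⟨m, hm, rfl⟩ := Finset.mem_image.1 hf
      exact Submodule.mem_sup_right (by rw [h0_jP]; exact ⟨rfl, h3 hm⟩))) hK
    rw [Submodule.mem_comap, h0_jP, Submodule.span_empty, bot_sup_eq] at this
    exact h4 this.2)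
  have hsub : TVal (polysD F D) (Fin n) ∪ ↑(G.image jP) ⊆ (J : Set (FA F (Fin n))) :=
    fun x hx => hle (subset_idealGen _ hx)
  exact ha (h (J.comap jP) (stable_comap hJ)
    (rel_le_comapD D hD hJ ((Set.subset_union_left).trans hsub))
    (fun m hm => hsub (Or.inr (Finset.mem_coe.2 (Finset.mem_image_of_mem _ hm))))
    (cofg_comap _ hfin))

section fin2

variable [Fintype X] [DecidableEq X]

theorem stable_relLD (D : Set IdData) (hD : ∀ d ∈ D, GoodD d)
    (Λ : Set (X → F)) : Stable (RelLG (RlD D) Λ) := by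
  intro u x hx
  have : RelLG (RlD D) Λ ≤ (RelLG (RlD D) Λ).comap (ρ [u]) := by
    refine sup_le (fun y hy => Submodule.mem_sup_left (stable_relD _ u y hy))
      (Submodule.span_le.2 ?_)
    rintro _ ⟨l, hl, b, g, p, t, rfl⟩
    exact Submodule.mem_sup_right (Submodule.subset_span ⟨l, hl, b, g, p, t ++ [u],
      (ρ_append _ _ _).symm⟩)
  exact this hx

theorem ρh_mem_relLD (D : Set IdData) (hD : ∀ d ∈ D, GoodD d)
    {Λ : Set (X → F)} {l : X → F} (hl : l ∈ Λ) (b : Bool)
    (m : PP F X) : ρh b l m ∈ RelLG (RlD D) Λ := by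
  refine PP_mem (f := ρh b l) (fun g p => ?_) m
  exact Submodule.mem_sup_right (Submodule.subset_span ⟨l, hl, b, g, p, [], (ρ_nil _).symm⟩)

end fin2

theorem rfd_of_closedD (D : Set IdData) (hD : ∀ d ∈ D, GoodD d)
    (h : ∀ n, ClosedG F (X := Fin n) (RlD D)) : IsRFDVariety (polysD F D) := by
  classical
  intro n R a ha
  set K := idealGen (TVal (polysD F D) (Fin n) ∪ ↑R) with hKdef
  have hK : IsIdeal K := isIdeal_idealGen _
  have hT : TVal (polysD F D) (Fin n) ⊆ K := Set.subset_union_left.trans (subset_idealGen _)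
  have hR : ∀ r ∈ R, r ∈ K := fun r hr => subset_idealGen _ (Or.inr hr)
  have hj : ∀ f, f - jB (h0 f) ∈ K := sub_jB_memD D hD hK hT
  have hjK : ∀ f ∈ K, jB (h0 f) ∈ K := fun f hf => by simpa using K.sub_mem hf (hj f)
  let S : Set (BB F (Fin n)) := h0 '' (R : Set (FA F (Fin n)))
  have hS : S.Finite := R.finite_toSet.image _
  let Λ : Set (Fin n → F) := Prod.fst '' S
  let G : Set (PP F (Fin n)) :=
    (fun q : BB F (Fin n) × Fin n => (μB q.1 (Pi.single q.2 1, 0)).2) '' (S ×ˢ Set.univ) ∪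
    (fun q : BB F (Fin n) × Fin n => (μB (Pi.single q.2 1, 0) q.1).2) '' (S ×ˢ Set.univ)
  have hG : G.Finite := ((hS.prod Set.finite_univ).image _).union ((hS.prod Set.finite_univ).image _)
  have hideal : ∀ J : Submodule F (PP F (Fin n)), Stable J → RelLG (RlD D) Λ ⊔ genS G ≤ J →
      IsIdeal ((Submodule.span F S ⊔ Submodule.prod ⊥ J).comap h0) ∧
      K ≤ (Submodule.span F S ⊔ Submodule.prod ⊥ J).comap h0 := by
    intro J hJ hle
    have hGJ : ∀ γ ∈ G, γ ∈ J := fun γ hγ => hle (Submodule.mem_sup_right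
      (Submodule.subset_span ⟨γ, hγ, [], (ρ_nil _).symm⟩))
    have hI := ideal_comap S J hJ
      (fun r hr b m => hle (Submodule.mem_sup_left (ρh_mem_relLD D hD (Λ := Λ) ⟨r, hr, rfl⟩ b m)))
      (fun r hr x => ⟨hGJ _ (Or.inl ⟨(r, x), ⟨hr, trivial⟩, rfl⟩),
        hGJ _ (Or.inr ⟨(r, x), ⟨hr, trivial⟩, rfl⟩)⟩)
    exact ⟨hI, idealGen_le hI (Set.union_subset
      (tval_subsetD D hD _ (le_sup_left.trans (le_sup_left.trans hle)))
      fun r hr => Submodule.mem_sup_left (Submodule.subset_span ⟨r, hr, rfl⟩))⟩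
  have hSK : ∀ u ∈ Submodule.span F S, jB u ∈ K := by
    intro u hu
    have : Submodule.span F S ≤ K.comap jB := by
      refine Submodule.span_le.2 ?_
      rintro _ ⟨r, hr, rfl⟩
      exact hjK r (hR r hr)
    exact this hu
  have hof : ∀ x : Fin n, h0 (mon F (.of x)) = ((Pi.single x 1, 0) : BB F (Fin n)) := fun x => by
    rw [h0, evL_mon]; rfl
  have hK0 : RelLG (RlD D) Λ ⊔ genS G ≤ K.comap jP := by
    have hst := stable_comap hK
    refine sup_le (sup_le (rel_le_comapD D hD hK hT) (Submodule.span_le.2 ?_)) (Submodule.span_le.2 ?_)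
    · rintro _ ⟨_, ⟨_, ⟨r, hr, rfl⟩, rfl⟩, b, g, p, t, rfl⟩
      refine hst.ρ_mem t ?_
      have h1 : jV (h0 r).1 = jB (h0 r) - jP (h0 r).2 := by rw [jB_apply]; abel
      rw [Submodule.mem_comap]
      cases b
      · rw [jP_ρh_false, h1, sub_mul]
        exact K.sub_mem (hK _ _ (hjK r (hR r hr))).2 (jP_mul_memD D hD hT _ _)
      · rw [jP_ρh_true, h1, mul_sub]
        exact K.sub_mem (hK _ _ (hjK r (hR r hr))).1 (jP_mul_memD D hD hT _ _)
    · rintro _ ⟨γ, hγ, ε, rfl⟩
      refine hst.ρ_mem ε ?_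
      rw [Submodule.mem_comap]
      rcases hγ with ⟨⟨_, x⟩, ⟨⟨r, hr, rfl⟩, -⟩, rfl⟩ | ⟨⟨_, x⟩, ⟨⟨r, hr, rfl⟩, -⟩, rfl⟩
      · have := hjK _ (hK (mon F (.of x)) r (hR r hr)).2
        rw [h0_mul, hof, jB_apply] at this
        simpa [μB_apply] using this
      · have := hjK _ (hK (mon F (.of x)) r (hR r hr)).1
        rw [h0_mul, hof, jB_apply] at this
        simpa [μB_apply] using this
  have hfin : ∀ J : Submodule F (PP F (Fin n)), J.CoFG →
      ((Submodule.span F S ⊔ Submodule.prod ⊥ J).comap h0).CoFG := by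
    intro J hJ
    refine cofg_comap _ (Submodule.CoFG.of_le le_sup_right ?_)
    have : (Submodule.prod ⊥ J : Submodule F (BB F (Fin n))) =
        (⊥ : Submodule F (Fin n → F)).comap (LinearMap.fst F _ _) ⊓ J.comap (LinearMap.snd F _ _) :=
      rfl
    rw [this]
    exact (cofg_comap _ Submodule.CoFG.of_finite).inf (cofg_comap _ hJ)
  by_cases hu : ∃ u ∈ Submodule.span F S, u.1 = (h0 a).1
  · obtain ⟨u, hu, hu1⟩ := hu
    have ha' : (h0 a).2 - u.2 ∉ K.comap jP := by
      intro h1
      apply ha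
      have e : a = (a - jB (h0 a)) + jP ((h0 a).2 - u.2) + jB u := by
        rw [jB_apply, jB_apply, hu1, map_sub]; abel
      rw [e]
      exact K.add_mem (K.add_mem (hj a) h1) (hSK u hu)
    obtain ⟨J, hJ1, hJ2, hJ3, hJ4⟩ := h n Λ G hG (K.comap jP) (stable_comap hK) hK0
      ⟨(Submodule.span F S).map (LinearMap.snd F _ _), (Submodule.fg_span hS).map _, by
        intro m hm
        have := (hideal _ ((stable_relLD D hD Λ).sup (stable_genS G)) le_rfl).2 hm
        rw [Submodule.mem_comap, h0_jP] at this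
        obtain ⟨y, hy, z, hz, e⟩ := Submodule.mem_sup.1 this
        have e2 : m = z.2 + y.2 := by rw [add_comm]; exact (congrArg Prod.snd e).symm
        rw [e2]
        exact Submodule.add_mem_sup hz.2 ⟨y, hy, rfl⟩⟩ _ ha'
    obtain ⟨hI, hle⟩ := hideal J hJ2 (hK0.trans hJ1)
    refine ⟨_, hI, hle, hfin J hJ3, fun hm => hJ4 ?_⟩
    obtain ⟨y, hy, z, hz, e⟩ := Submodule.mem_sup.1 hm
    have e1 : y.1 = u.1 := by
      have := congrArg Prod.fst e
      rw [Prod.fst_add, show z.1 = 0 from hz.1, add_zero] at this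
      rw [this, hu1]
    have e2 : (h0 a).2 - u.2 = z.2 + (y - u).2 := by rw [← e]; simp; abel
    rw [e2]
    refine J.add_mem hz.2 (hJ1 ?_)
    have := hSK _ (Submodule.sub_mem _ hy hu)
    rw [jB_apply, Prod.fst_sub, e1, sub_self, map_zero, zero_add] at this
    exact this
  · obtain ⟨hI, hle⟩ := hideal ⊤ (fun _ _ _ => trivial) le_top
    refine ⟨_, hI, hle, hfin ⊤ Submodule.CoFG.top, fun hm => hu ?_⟩
    obtain ⟨y, hy, z, hz, e⟩ := Submodule.mem_sup.1 hm
    refine ⟨y, hy, ?_⟩
    have := congrArg Prod.fst e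
    rwa [Prod.fst_add, show z.1 = 0 from hz.1, add_zero] at this

theorem CS.good_ids (s : CS Γ) : ∀ d ∈ s.Ids, GoodD d := by
  rintro d (⟨Z, -, rfl⟩ | ⟨u, u', h, rfl⟩ | ⟨a, b, c, -, rfl⟩)
  · refine ⟨?_, Perm.refl _, ?_⟩ <;> simp only [kD, arg, zipIdx_map_snd]
    · exact nodup_range'
    · intro i hi; exact (mem_range'_1.1 hi).1
  · refine ⟨?_, ?_, ?_⟩ <;> simp only [mD, arg, zipIdx_map_snd]
    · exact nodup_range'
    · rw [s.length_κ, s.length_κ, s.hmv _ h]
    · intro i hi; exact (mem_range'_1.1 hi).1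
  · refine ⟨?_, ?_, ?_⟩ <;> simp only [swD, arg, map_cons, map_append, zipIdx_map_snd]
    · simp only [nodup_cons, mem_append, mem_cons, mem_range'_1, nodup_append]
      refine ⟨nodup_range', ⟨by omega, nodup_range', ⟨by omega, nodup_range'⟩, ?_⟩, ?_⟩
      · intro a ha b hb; omega
      · intro a ha b hb; omega
    · exact Perm.append_left _
        (((perm_middle.cons _).trans (Perm.swap _ _ _)).trans (perm_middle.symm.cons _))
    · intro i hi
      simp only [mem_cons, mem_append, mem_range'_1] at hi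
      omega

theorem true_tail_cd (c : Cd Γ) (γ : Γ) : true :: (c.cd γ).tail = c.cd γ := by
  obtain ⟨r, hr⟩ := c.cd_eq' γ
  rw [hr]; rfl

theorem CS.rl_of_ids (s : CS Γ) {w w' : List (Bool × X)} {e : ℤ} (h : RlD s.Ids w e w') :
    s.Rl w e w' := by
  obtain ⟨d, h, a, rfl, rfl, rfl⟩ := h
  rcases h with ⟨Z, h, rfl⟩ | ⟨u, u', h, rfl⟩ | ⟨b1, b2, b3, h, rfl⟩
  · exact CS.Rl.kill _ (by rwa [shp_inst, kD, shp, zipIdx_map_fst])
  · refine CS.Rl.move u u' _ _ h ?_ ?_ ?_
    · rw [shp_inst, mD, shp, zipIdx_map_fst]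
    · rw [shp_inst, mD, shp, zipIdx_map_fst]
    · rw [arg_inst, arg_inst, mD, arg, arg, zipIdx_map_snd, zipIdx_map_snd, s.length_κ,
        s.length_κ, s.hmv _ h]
  · simp only [swD, inst, map_cons, map_append]
    refine CS.Rl.swap b1 b2 b3 _ _ _ _ _ h ?_ ?_ ?_
    · rw [shp_inst, shp, zipIdx_map_fst]
    · rw [shp_inst, shp, zipIdx_map_fst, true_tail_cd]
    · rw [shp_inst, shp, zipIdx_map_fst, true_tail_cd]

theorem CS.ids_of_rl (s : CS Γ) (x0 : X) {w w' : List (Bool × X)} {e : ℤ} (h : s.Rl w e w') :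
    RlD s.Ids w e w' := by
  cases h with
  | kill _ h =>
    have := inst_zipIdx (fun i => (arg w).getD (i - 2) x0) w 2 (fun i hi => by simp [hi])
    exact ⟨_, Or.inl ⟨_, h, rfl⟩, _, this.symm, rfl, this.symm⟩
  | move u u' _ _ h h1 h2 h3 =>
    have e1 := inst_zipIdx (fun i => (arg w).getD (i - 2) x0) w 2 (fun i hi => by simp [hi])
    have e2 := inst_zipIdx (fun i => (arg w').getD (i - 2) x0) w' 2 (fun i hi => by simp [hi])
    rw [← h3] at e2
    exact ⟨_, Or.inr (Or.inl ⟨u, u', h, rfl⟩), _, by rw [← h1]; exact e1.symm, rfl,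
      by rw [← h2]; exact e2.symm⟩
  | swap b1 b2 b3 w0 x w1 y w2 h h0 h1 h2 =>
    let a : ℕ → X := fun i => (x :: y :: (arg w0 ++ (arg w1 ++ arg w2))).getD (i - 2) x0
    have e0 := inst_zipIdx a w0 4 (fun i hi => by
      simp [a, show 4 + i - 2 = i + 1 + 1 by omega, getElem?_append_left, hi])
    have e1 := inst_zipIdx a w1 (4 + (shp w0).length) (fun i hi => by
      simp [a, show 4 + w0.length + i - 2 = w0.length + i + 1 + 1 by omega,
        getElem?_append_right, getElem?_append_left, hi])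
    have e2 := inst_zipIdx a w2 (4 + (shp w0).length + (shp w1).length) (fun i hi => by
      simp [a, show 4 + w0.length + w1.length + i - 2 = w0.length + (w1.length + i) + 1 + 1 by
        omega, hi])
    refine ⟨_, Or.inr (Or.inr ⟨_, _, _, h, rfl⟩), a, ?_, rfl, ?_⟩
    · simp only [swD, inst, map_cons, map_append, ← h0, ← h1, ← h2, tail_cons] at e0 e1 e2 ⊢
      rw [e0, e1, e2]; rfl
    · simp only [swD, inst, map_cons, map_append, ← h0, ← h1, ← h2, tail_cons] at e0 e1 e2 ⊢
      rw [e0, e1, e2]; rfl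

theorem CS.relG_ids (s : CS Γ) : RelG F (X := X) (RlD s.Ids) = RelG F s.Rl := by
  refine le_antisymm (Submodule.span_mono ?_) (Submodule.span_mono ?_)
  · rintro _ ⟨g, p, w, e, w', t, h, rfl⟩
    exact ⟨g, p, w, e, w', t, s.rl_of_ids h, rfl⟩
  · rintro _ ⟨g, p, w, e, w', t, h, rfl⟩
    exact ⟨g, p, w, e, w', t, s.ids_of_rl g.1 h, rfl⟩

end Pool.Agent.Lib.MP_038c09_al.Pi
end

-- part PiF0
section

/-!
The rewriting system simulates the tank machine.
-/

namespace Pool.Agent.Lib.MP_038c09_al.Pi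

open List G0 Y

/-- a rule applied in a marked word -/
theorem rch_rule (M : Mach) (e : ℕ) (mk : ℕ → Bool) (p t u u' : List M.Γ0)
    (hl : u.length = u'.length) (h : Rule M (mkw mk p.length u) (mkw mk p.length u')) :
    Rch (amvM M e) (mkw mk 0 (p ++ (u ++ t))) (mkw mk 0 (p ++ (u' ++ t))) := by
  refine Relation.ReflTransGen.single ⟨mkw mk 0 p, _, _, mkw mk (p.length + u.length) t,
    Or.inl (Or.inl (Or.inl h)), ?_, ?_⟩
  · simp [mkw_append]
  · simp [mkw_append, hl]

/-- the head crosses tank letters -/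
theorem rch_head (M : Mach) (e : ℕ) (mk : ℕ → Bool) (p t : List M.Γ0) (q : M.Q)
    (x : Fin (M.m + 1)) (ys : List (Y M.m)) (hys : ∀ y ∈ ys, Tk y) :
    Rch (amvM M e) (mkw mk 0 (p ++ H q x :: (ys.map R ++ t)))
      (mkw mk 0 (p ++ (ys.map L ++ H q x :: t))) := by
  induction ys generalizing p with
  | nil => exact Relation.ReflTransGen.refl
  | cons y ys ih =>
    have h1 := rch_rule M e mk p (ys.map R ++ t) [H q x, R y] [L y, H q x] rfl
      (Rule.comm q x y _ _ (hys y (by simp)))
    have h2 := ih (p ++ [L y]) fun z hz => hys z (by simp [hz])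
    simp only [append_assoc, cons_append, nil_append] at h1 h2
    exact h1.trans h2

/-- a rule applied inside a tank -/
theorem rch_tank (M : Mach) (e : ℕ) (mk : ℕ → Bool) (p t t' : List M.Γ0) (x : Fin (M.m + 1))
    {q q' : M.Q} {n n' : Fin (M.m + 1) → ℕ} (l r1 r1' : List (Y M.m)) (hl : ∀ y ∈ l, Tk y)
    (h1 : lay n = l ++ r1) (h2 : lay n' = l ++ r1')
    (h : Rch (amvM M e) (mkw mk 0 ((p ++ L o :: l.map L) ++ H q x :: (r1.map R ++ t)))
      (mkw mk 0 ((p ++ L o :: l.map L) ++ H q' x :: (r1'.map R ++ t')))) :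
    Rch (amvM M e) (mkw mk 0 (p ++ tank M q x n ++ t)) (mkw mk 0 (p ++ tank M q' x n' ++ t')) := by
  have k1 := rch_head M e mk (p ++ [L o]) (r1.map R ++ t) q x l hl
  have k2 := rch_head M e mk (p ++ [L o]) (r1'.map R ++ t') q' x l hl
  simp only [tank, h1, h2, map_append, append_assoc, cons_append, nil_append] at k1 k2 h ⊢
  exact (k1.trans h).trans (rch_symm k2)

theorem tk_pre_rep {m : ℕ} (n : Fin (m + 1) → ℕ) (j : Fin (m + 1)) (k : ℕ) :
    ∀ y ∈ pre n j ++ replicate k (r j), Tk y := by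
  intro y hy
  rcases mem_append.1 hy with h | h
  · exact tk_pre h
  · rw [(mem_replicate.1 h).2]; trivial

theorem lay_inc {m : ℕ} (n : Fin (m + 1) → ℕ) (j : Fin (m + 1)) :
    lay (inc n j) = (pre n j ++ replicate (n j) (r j)) ++ r j :: s j :: post n j := by
  rw [lay_split _ j, pre_congr (n' := n) fun i hi => inc_of_ne n hi.ne,
    post_congr (n' := n) fun i hi => inc_of_ne n hi.ne', inc_self, replicate_succ']
  simp

theorem lay_inc_succ {m : ℕ} (n : Fin (m + 1) → ℕ) (j : Fin m) :
    lay (inc n j.succ) = (pre n j.castSucc ++ replicate (n j.castSucc) (r j.castSucc)) ++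
      s j.castSucc :: r j.succ :: post n j.castSucc := by
  have hlt : j.castSucc < j.succ := Fin.castSucc_lt_succ
  rw [lay_split _ j.castSucc, pre_congr (n' := n) fun i hi => inc_of_ne n (hi.trans hlt).ne,
    inc_of_ne n hlt.ne, post_castSucc, post_castSucc,
    post_congr (n' := n) fun i hi => inc_of_ne n hi.ne', inc_self, replicate_succ]
  simp

/-- a zero test -/
theorem rch_zero (M : Mach) (e : ℕ) (mk : ℕ → Bool) (p t : List M.Γ0) (x : Fin (M.m + 1))
    {q q' : M.Q} {n : Fin (M.m + 1) → ℕ} (j : Fin (M.m + 1)) (hj : n j = 0)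
    (h : ∀ μ ν ξ, Rule M [(L (opn j), μ), (H q x, ν), (R (s j), ξ)]
      [(L (opn j), μ), (H q' x, ν), (R (s j), ξ)]) :
    Rch (amvM M e) (mkw mk 0 (p ++ tank M q x n ++ t)) (mkw mk 0 (p ++ tank M q' x n ++ t)) := by
  have h1 : lay n = pre n j ++ s j :: post n j := by rw [lay_split n j, hj]; simp
  refine rch_tank M e mk p t t x (pre n j) _ _ (fun y hy => tk_pre hy) h1 h1 ?_
  obtain ⟨l, hl⟩ := getLast_pre n j
  have h2 : (L o :: (pre n j).map L : List M.Γ0) = l.map L ++ [L (opn j)] := by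
    rw [← map_cons, hl]; simp
  have := rch_rule M e mk (p ++ l.map L) ((post n j).map R ++ t) [L (opn j), H q x, R (s j)]
    [L (opn j), H q' x, R (s j)] rfl (h _ _ _)
  simpa only [h2, append_assoc, cons_append, nil_append, map_cons] using this

/-- one step of the machine -/
theorem rch_step (M : Mach) (e : ℕ) (mk : ℕ → Bool) (p t : List M.Γ0) (x : Fin (M.m + 1))
    (C : ℕ) {q q' : M.Q} {n n' : Fin (M.m + 1) → ℕ}
    (h : AStep M (fun i => mk (p.length + i)) q n q' n') (hn : tot n ≤ C) (hn' : tot n' ≤ C) :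
    Rch (amvM M e) (mkw mk 0 (p ++ tank M q x n ++ (replicate (C - tot n) (R (r x)) ++ t)))
      (mkw mk 0 (p ++ tank M q' x n' ++ (replicate (C - tot n') (R (r x)) ++ t))) := by
  cases h with
  | pull q1 q2 _ hq =>
    rw [tot_inc] at hn' ⊢
    rw [show C - tot n = C - (tot n + 1) + 1 by omega, replicate_succ]
    refine rch_tank M e mk p _ _ x _ _ _ (tk_pre_rep n _ _) (lay_last n) (lay_inc n _) ?_
    have hl := congrArg length (lay_last n)
    rw [length_lay, length_append, length_singleton] at hl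
    have := rch_rule M e mk (p ++ L o :: (pre n (Fin.last _) ++
      replicate (n (Fin.last _)) (r (Fin.last _))).map L)
      (replicate (C - (tot n + 1)) (R (r x)) ++ t) [H q x, R (s (Fin.last _)), R (r x)]
      [H (if mk (p.length + (tot n + M.m + 3)) then q2 else q1) x, R (r (Fin.last _)),
        R (s (Fin.last _))] rfl (by
        have := Rule.pull q q1 q2 x (mk (p.length + (tot n + M.m + 1)))
          (mk (p.length + (tot n + M.m + 1) + 1)) (mk (p.length + (tot n + M.m + 3))) hq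
        simp only [mkw_cons, mkw_nil, length_append (as := p), length_cons, length_map, ← hl]
        exact this)
    simpa only [append_assoc, cons_append, nil_append, map_cons, map_nil, post_last] using this
  | push q1 q2 _ hq =>
    rw [tot_inc] at hn ⊢
    rw [show C - tot n' = C - (tot n' + 1) + 1 by omega, replicate_succ]
    refine rch_tank M e mk p _ _ x _ _ _ (tk_pre_rep n' _ _) (lay_inc n' _) (lay_last n') ?_
    have := rch_rule M e mk (p ++ L o :: (pre n' (Fin.last _) ++
      replicate (n' (Fin.last _)) (r (Fin.last _))).map L)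
      (replicate (C - (tot n' + 1)) (R (r x)) ++ t)
      [H q x, R (r (Fin.last _)), R (s (Fin.last _))] [H q' x, R (s (Fin.last _)), R (r x)] rfl
      (Rule.push q q' q2 x _ _ _ hq)
    simpa only [append_assoc, cons_append, nil_append, map_cons, map_nil, post_last] using this
  | push0 q1 q2 _ hq h0 =>
    exact rch_zero M e mk p _ x _ h0 fun μ ν ξ => Rule.push0 q q1 q' x μ ν ξ hq
  | shl j q1 n hq =>
    rw [tot_inc, tot_inc]
    refine rch_tank M e mk p _ _ x _ _ _ (tk_pre_rep n _ _) (lay_inc_succ n j) (lay_inc n _) ?_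
    have := rch_rule M e mk (p ++ L o :: (pre n j.castSucc ++
      replicate (n j.castSucc) (r j.castSucc)).map L)
      ((post n j.castSucc).map R ++ (replicate (C - (tot n + 1)) (R (r x)) ++ t))
      [H q x, R (s j.castSucc), R (r j.succ)] [H q' x, R (r j.castSucc), R (s j.castSucc)] rfl
      (Rule.shl q j q' x _ _ _ hq)
    simpa only [append_assoc, cons_append, nil_append, map_cons] using this
  | shr j q1 q2 n hq =>
    rw [tot_inc, tot_inc]
    refine rch_tank M e mk p _ _ x _ _ _ (tk_pre_rep n _ _) (lay_inc n _) (lay_inc_succ n j) ?_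
    have := rch_rule M e mk (p ++ L o :: (pre n j.castSucc ++
      replicate (n j.castSucc) (r j.castSucc)).map L)
      ((post n j.castSucc).map R ++ (replicate (C - (tot n + 1)) (R (r x)) ++ t))
      [H q x, R (r j.castSucc), R (s j.castSucc)] [H q' x, R (s j.castSucc), R (r j.succ)] rfl
      (Rule.shr q j q' q2 x _ _ _ hq)
    simpa only [append_assoc, cons_append, nil_append, map_cons] using this
  | shr0 j q1 q2 _ hq h0 =>
    exact rch_zero M e mk p _ x _ h0 fun μ ν ξ => Rule.shr0 q j q1 q' x μ ν ξ hq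

/-- a halting computation kills the word -/
theorem ded_of_halts (M : Mach) (e : ℕ) (mk : ℕ → Bool) (p t : List M.Γ0) (x : Fin (M.m + 1))
    (C : ℕ) {q : M.Q} {n : Fin (M.m + 1) → ℕ}
    (h : HaltsB M (fun i => mk (p.length + i)) C q n) :
    Ded (amvM M e) (klM M e)
      (mkw mk 0 (p ++ tank M q x n ++ (replicate (C - tot n) (R (r x)) ++ t))) := by
  induction h with
  | halt q n hq _ =>
    refine ded_of_kld ⟨_, Or.inl (Kill.hlt q x (mk (p.length + 1)) hq), mkw mk 0 (p ++ [L o]),
      mkw mk (p.length + 2) ((lay n).map R ++ (replicate (C - tot n) (R (r x)) ++ t)), ?_⟩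
    simp [tank, mkw_append]
  | step q n q' n' h1 h2 h3 ih => exact ded_of_rch (rch_step M e mk p t x C h1 h2 h3.tot_le) ih

end Pool.Agent.Lib.MP_038c09_al.Pi
end
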