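import Pool.Agent.Lib.MP_038c09_al.Pi1

-- part PiB
section

/-!
A local system of cuts makes all finitely presented word modules residually finite-dimensional.
-/

set_option linter.unusedSectionVars false

namespace Pool.Agent.Lib.MP_038c09_al.Pi

open List

section run

variable {F : Type} [Field F] {X M : Type} [AddCommGroup M] [Module F M]

open Classical in
/-- project at a cut -/
noncomputable def bPr (c : List Bool → List Bool → Prop) (π : M →ₗ[F] M) (u v : List Bool) :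
    M →ₗ[F] M := if c u v then π else LinearMap.id

/-- action of a word -/
noncomputable def bAct (A : Bool × X → M →ₗ[F] M) : List (Bool × X) → M →ₗ[F] M
  | [] => LinearMap.id
  | a :: v => bAct A v ∘ₗ A a

/-- action of a word with projections at the cuts, in a left and a right context -/
noncomputable def bPre (c : List Bool → List Bool → Prop) (π : M →ₗ[F] M)
    (A : Bool × X → M →ₗ[F] M) : List Bool → List (Bool × X) → List Bool → M →ₗ[F] M
  | _, [], _ => LinearMap.id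
  | u, a :: v, s => bPre c π A (u ++ [a.1]) v s ∘ₗ A a ∘ₗ bPr c π u (a.1 :: (shp v ++ s))

/-- the same up to the end of the word -/
noncomputable def bRun (c : List Bool → List Bool → Prop) (π : M →ₗ[F] M)
    (A : Bool × X → M →ₗ[F] M) (u : List Bool) (v : List (Bool × X)) : M →ₗ[F] M :=
  bPr c π (u ++ shp v) [] ∘ₗ bPre c π A u v []

variable {c : List Bool → List Bool → Prop} {π : M →ₗ[F] M} {A : Bool × X → M →ₗ[F] M}

theorem b_pr_congr {u v u' v' : List Bool} (h : c u v ↔ c u' v') :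
    bPr c π u v = bPr c π u' v' := by
  unfold bPr
  by_cases h1 : c u v
  · rw [if_pos h1, if_pos (h.1 h1)]
  · rw [if_neg h1, if_neg fun h2 => h1 (h.2 h2)]

theorem b_pr_neg {u v : List Bool} (h : ¬ c u v) (y : M) : bPr c π u v y = y := by
  unfold bPr; rw [if_neg h]; rfl

theorem b_pr_pos {u v : List Bool} (h : c u v) (y : M) : bPr c π u v y = π y := by
  unfold bPr; rw [if_pos h]

theorem b_pr_fix {y : M} (h : π y = y) (u v : List Bool) : bPr c π u v y = y := by
  by_cases h1 : c u v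
  · rw [b_pr_pos h1, h]
  · exact b_pr_neg h1 y

theorem b_pre_nil (u s : List Bool) (y : M) : bPre c π A u [] s y = y := rfl

theorem b_pre_cons (u : List Bool) (a : Bool × X) (v : List (Bool × X)) (s : List Bool) (y : M) :
    bPre c π A u (a :: v) s y =
      bPre c π A (u ++ [a.1]) v s (A a (bPr c π u (a.1 :: (shp v ++ s)) y)) := rfl

theorem b_pre_append (v1 v2 : List (Bool × X)) (s : List Bool) : ∀ (u : List Bool) (y : M),
    bPre c π A u (v1 ++ v2) s y =
      bPre c π A (u ++ shp v1) v2 s (bPre c π A u v1 (shp v2 ++ s) y) := by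
  induction v1 with
  | nil => intro u y; simp [b_pre_nil]
  | cons a v1 ih =>
    intro u y
    rw [cons_append, b_pre_cons, ih, b_pre_cons]
    simp [append_assoc]

theorem b_pre_congr (v : List (Bool × X)) {s s' : List Bool} : ∀ {u u' : List Bool},
    (∀ z1 z2, shp v = z1 ++ z2 → (c (u ++ z1) (z2 ++ s) ↔ c (u' ++ z1) (z2 ++ s'))) → ∀ y,
      bPre c π A u v s y = bPre c π A u' v s' y := by
  induction v with
  | nil => intro u u' _ y; rfl
  | cons a v ih =>
    intro u u' h y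
    have h0 := h [] (a.1 :: shp v) rfl
    rw [append_nil, append_nil, cons_append, cons_append] at h0
    rw [b_pre_cons, b_pre_cons, b_pr_congr h0]
    refine ih (fun z1 z2 hz => ?_) _
    have := h (a.1 :: z1) z2 (by rw [cons_append, ← hz]; rfl)
    simpa [append_assoc] using this

theorem b_pre_act (v : List (Bool × X)) {s : List Bool} : ∀ {u : List Bool},
    (∀ z1 z2, shp v = z1 ++ z2 → z2 ≠ [] → ¬ c (u ++ z1) (z2 ++ s)) → ∀ y,
      bPre c π A u v s y = bAct A v y := by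
  induction v with
  | nil => intro u _ y; rfl
  | cons a v ih =>
    intro u h y
    have h0 := h [] (a.1 :: shp v) rfl (cons_ne_nil _ _)
    rw [append_nil, cons_append] at h0
    rw [b_pre_cons, b_pr_neg h0]
    refine ih (fun z1 z2 hz h2 => ?_) _
    have := h (a.1 :: z1) z2 (by rw [cons_append, ← hz]; rfl) h2
    simpa [append_assoc] using this

theorem b_pre_nocut {u s : List Bool} {a : Bool × X} {v : List (Bool × X)}
    (h : NoCut c u (shp (a :: v)) s) (y : M) :
    bPre c π A u (a :: v) s y = bAct A (a :: v) (bPr c π u (shp (a :: v) ++ s) y) := by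
  rw [b_pre_cons, b_pre_act v]
  · rfl
  · intro z1 z2 hz h2
    have := h (a.1 :: z1) z2 (by rw [cons_append, ← hz]; rfl) (cons_ne_nil _ _) h2
    simpa [append_assoc] using this

theorem b_run_append (u : List Bool) (v1 v2 : List (Bool × X)) (y : M) :
    bRun c π A u (v1 ++ v2) y = bRun c π A (u ++ shp v1) v2 (bPre c π A u v1 (shp v2) y) := by
  simp only [bRun, LinearMap.comp_apply, b_pre_append, append_nil, shp, map_append, append_assoc]

theorem b_run_congr (v : List (Bool × X)) {u u' : List Bool}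
    (h : ∀ z1 z2, shp v = z1 ++ z2 → (c (u ++ z1) z2 ↔ c (u' ++ z1) z2)) (y : M) :
    bRun c π A u v y = bRun c π A u' v y := by
  simp only [bRun, LinearMap.comp_apply]
  rw [b_pr_congr (h (shp v) [] (append_nil _).symm),
    b_pre_congr v (s := []) (s' := []) (u := u) (u' := u') (by simpa using h)]

theorem b_run_proj (hπ : ∀ y, π (π y) = π y) {u : List Bool} {v : List (Bool × X)}
    (h : c u (shp v)) (y : M) : bRun c π A u v (π y) = bRun c π A u v y := by
  simp only [bRun, LinearMap.comp_apply]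
  cases v with
  | nil =>
    have h1 : c (u ++ shp ([] : List (Bool × X))) [] := by simpa using h
    rw [b_pre_nil, b_pre_nil, b_pr_pos h1, b_pr_pos h1, hπ]
  | cons a v =>
    have h1 : c u (a.1 :: (shp v ++ [])) := by simpa using h
    rw [b_pre_cons, b_pre_cons, b_pr_pos h1, b_pr_pos h1, hπ]

theorem b_run_seg {Dd : List Bool → Prop} (hD : ∀ w, Dd (shp w) → ∀ y, bAct A w y = 0)
    {w : List (Bool × X)} (h : Seg c Dd (shp w)) (y : M) : bRun c π A [] w y = 0 := by
  obtain ⟨p, s, t, e, hs, hn⟩ := h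
  obtain ⟨w1, t', rfl, e1, rfl⟩ := map_eq_append_iff.1 e
  obtain ⟨p', s', rfl, rfl, rfl⟩ := map_eq_append_iff.1 e1
  rw [append_assoc, b_run_append, b_run_append]
  have : ∀ y, bPre c π A ([] ++ shp p') s' (shp t') y = 0 := by
    intro y
    cases s' with
    | nil => exact hD [] hs y
    | cons a v => rw [nil_append, b_pre_nocut hn, hD _ hs]
  rw [this, map_zero]

theorem b_same_split {z z' u v u' v' : List Bool} (h : SameCuts c z z') (e : z = u ++ v)
    (e' : z' = u' ++ v') (hl : u.length = u'.length) : c u v ↔ c u' v' := by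
  have := h u.length
  rw [e, e', take_left, drop_left, hl, take_left, drop_left] at this
  exact this

theorem b_run_rel {w w' : List (Bool × X)} {e : F} (hw : ∀ y, bAct A w y = e • bAct A w' y)
    (hl : w.length = w'.length) (p t : List (Bool × X))
    (hs : SameCuts c (shp p ++ shp w ++ shp t) (shp p ++ shp w' ++ shp t))
    (hn : NoCut c (shp p) (shp w) (shp t)) (y : M) :
    bRun c π A [] (p ++ (w ++ t)) y = e • bRun c π A [] (p ++ (w' ++ t)) y := by
  have hl' : (shp w).length = (shp w').length := by simpa using hl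
  rw [b_run_append, b_run_append, b_run_append, b_run_append, ← map_smul]
  simp only [nil_append]
  have e1 : bPre c π A [] p (shp (w ++ t)) y = bPre c π A [] p (shp (w' ++ t)) y := by
    refine b_pre_congr p (fun z1 z2 hz => b_same_split hs ?_ ?_ rfl) y
    · rw [hz]; simp
    · rw [hz]; simp
  have e2 : ∀ y, bPre c π A (shp p) w (shp t) y = e • bPre c π A (shp p) w' (shp t) y := by
    intro y
    cases w with
    | nil =>
      obtain rfl : w' = [] := length_eq_zero_iff.1 hl.symm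
      exact hw y
    | cons a v =>
      cases w' with
      | nil => simp at hl
      | cons a' v' =>
        have hn' : NoCut c (shp p) (shp (a' :: v')) (shp t) := by
          intro s1 s2 hz h1 h2 h3
          have h4 : s1.length + s2.length = (shp (a :: v)).length := by
            rw [hl', hz, length_append]
          have h5 := length_pos_iff.2 h1
          have h6 := length_pos_iff.2 h2
          refine hn ((shp (a :: v)).take s1.length) ((shp (a :: v)).drop s1.length)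
            (take_append_drop _ _).symm ?_ ?_ ((b_same_split hs ?_ ?_ ?_).2 h3)
          · rw [← length_pos_iff, length_take]; omega
          · rw [← length_pos_iff, length_drop]; omega
          · rw [append_assoc (shp p) (take _ _), ← append_assoc (take _ _), take_append_drop,
              append_assoc]
          · rw [hz]; simp
          · rw [length_append, length_append, length_take]; omega
        rw [b_pre_nocut hn, b_pre_nocut hn', hw,
          b_pr_congr (b_same_split hs (append_assoc _ _ _) (append_assoc _ _ _) rfl)]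
  rw [e1, e2]
  refine b_run_congr t (fun z1 z2 hz => b_same_split hs ?_ ?_ ?_) _
  · rw [hz]; simp
  · rw [hz]; simp
  · simp [hl]

end run

section short

variable {F : Type} [Field F] {X : Type}

/-- span of the short words -/
noncomputable def bS (F : Type) [Field F] (X : Type) (n : ℕ) : Submodule F (PP F X) :=
  Submodule.span F {f : PP F X | ∃ g w, w.length ≤ n ∧ f = bw F g w}

theorem b_S_mono {n n' : ℕ} (h : n ≤ n') : bS F X n ≤ bS F X n' :=
  Submodule.span_mono fun _ ⟨g, w, hw, e⟩ => ⟨g, w, hw.trans h, e⟩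

theorem b_S_mem {n : ℕ} (g : X × X) {w : List (Bool × X)} (h : w.length ≤ n) :
    bw F g w ∈ bS F X n := Submodule.subset_span ⟨g, w, h, rfl⟩

theorem b_S_exists (m : PP F X) : ∃ n, m ∈ bS F X n := by
  induction m using PP_ind with
  | h0 => exact ⟨0, Submodule.zero_mem _⟩
  | hadd a b ha hb =>
    obtain ⟨n, hn⟩ := ha
    obtain ⟨n', hn'⟩ := hb
    exact ⟨max n n', Submodule.add_mem _ (b_S_mono (le_max_left _ _) hn)
      (b_S_mono (le_max_right _ _) hn')⟩
  | hs c g w => exact ⟨w.length, Submodule.smul_mem _ _ (b_S_mem g le_rfl)⟩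

theorem b_S_fg_le {U : Submodule F (PP F X)} (hU : U.FG) : ∃ n, U ≤ bS F X n := by
  obtain ⟨S, rfl⟩ := hU
  choose n hn using b_S_exists (F := F) (X := X)
  exact ⟨S.sup n, Submodule.span_le.2 fun x hx => b_S_mono (Finset.le_sup hx) (hn x)⟩

theorem b_S_fg [Finite X] (n : ℕ) : (bS F X n).FG := by
  refine Submodule.fg_span ((((Set.finite_univ (α := X × X)).prod
    (List.finite_length_le (Bool × X) n)).image (fun q => bw F q.1 q.2)).subset ?_)
  rintro _ ⟨g, w, h, rfl⟩
  exact ⟨(g, w), ⟨trivial, h⟩, rfl⟩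

theorem b_S_ext {M : Type} [AddCommGroup M] [Module F M] {n : ℕ} {f f' : PP F X →ₗ[F] M}
    (h : ∀ g w, w.length ≤ n → f (bw F g w) = f' (bw F g w)) {m : PP F X} (hm : m ∈ bS F X n) :
    f m = f' m := by
  refine LinearMap.eqOn_span' ?_ hm
  rintro _ ⟨g, w, hw, rfl⟩
  exact h g w hw

/-- the action on the quotient by a stable subspace -/
noncomputable def bA {K : Submodule F (PP F X)} (hK : Stable K) (a : Bool × X) :
    (PP F X ⧸ K) →ₗ[F] PP F X ⧸ K := K.mapQ K (ρ [a]) fun x hx => hK a x hx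

theorem b_A_mk {K : Submodule F (PP F X)} (hK : Stable K) (a : Bool × X) (x : PP F X) :
    bA hK a (K.mkQ x) = K.mkQ (ρ [a] x) := rfl

theorem b_act_mk {K : Submodule F (PP F X)} (hK : Stable K) (w : List (Bool × X)) :
    ∀ x : PP F X, bAct (bA hK) w (K.mkQ x) = K.mkQ (ρ w x) := by
  induction w with
  | nil => intro x; rw [ρ_nil]; rfl
  | cons a w ih =>
    intro x
    rw [show a :: w = [a] ++ w from rfl, ρ_append, ← ih]
    rfl

theorem b_pre_short {K : Submodule F (PP F X)} (hK : Stable K) {c : List Bool → List Bool → Prop}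
    {π : (PP F X ⧸ K) →ₗ[F] PP F X ⧸ K} {n : ℕ}
    (hπ : ∀ g w, w.length ≤ n → π (K.mkQ (bw F g w)) = K.mkQ (bw F g w)) (g : X × X)
    (v : List (Bool × X)) (s : List Bool) : ∀ (u : List Bool) (p : List (Bool × X)),
      p.length + v.length ≤ n →
        bPre c π (bA hK) u v s (K.mkQ (bw F g p)) = K.mkQ (bw F g (p ++ v)) := by
  induction v with
  | nil => intro u p _; rw [append_nil]; rfl
  | cons a v ih =>
    intro u p h
    rw [length_cons] at h
    rw [b_pre_cons, b_pr_fix (hπ g p (by omega)), b_A_mk, ρ_bw,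
      ih _ _ (by rw [length_append, length_singleton]; omega), append_assoc]
    rfl

/-- the map with projections at the cuts -/
noncomputable def bφ {K : Submodule F (PP F X)} (hK : Stable K) (c : List Bool → List Bool → Prop)
    (π : (PP F X ⧸ K) →ₗ[F] PP F X ⧸ K) : PP F X →ₗ[F] PP F X ⧸ K :=
  Finsupp.linearCombination F fun gw => bRun c π (bA hK) [] gw.2 (K.mkQ (bw F gw.1 []))

theorem b_φ_bw {K : Submodule F (PP F X)} (hK : Stable K) (c : List Bool → List Bool → Prop)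
    (π : (PP F X ⧸ K) →ₗ[F] PP F X ⧸ K) (g : X × X) (w : List (Bool × X)) :
    bφ hK c π (bw F g w) = bRun c π (bA hK) [] w (K.mkQ (bw F g [])) := by
  rw [bφ, bw, Finsupp.linearCombination_single, one_smul]

end short

theorem closed_of_cuts {F : Type} [Field F] {X : Type} [Fintype X] [DecidableEq X]
    (L : List (Bool × X) → ℤ → List (Bool × X) → Prop)
    (c : List Bool → List Bool → Prop) (N : ℕ) (Dd : List Bool → Prop) (hc : CutOk c N)
    (hD : ∀ w : List (Bool × X), Dd (shp w) → ∀ g p, bw F g (p ++ w) ∈ RelG F L)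
    (hdense : ∀ w : List Bool, 3 * N ≤ w.length → (∀ t, Seg c Dd (w ++ t)) ∨
      ∃ u v, w = u ++ v ∧ c u v ∧ v.length ≤ 2 * N)
    (hrel : ∀ w e w', L w e w' → ∀ p t : List Bool,
      (Seg c Dd (p ++ shp w ++ t) ∧ (e = 0 ∨ Seg c Dd (p ++ shp w' ++ t))) ∨
      (w.length = w'.length ∧ SameCuts c (p ++ shp w ++ t) (p ++ shp w' ++ t) ∧
        NoCut c p (shp w) t)) :
    ClosedG F L := by
  classical
  rintro Λ G hG K hK hle ⟨U, hU, hKU⟩ a ha
  have hRK : RelG F L ≤ K := (le_sup_left.trans le_sup_left).trans hle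
  obtain ⟨L0, hL0⟩ := b_S_fg_le ((hU.sup (Submodule.fg_span hG)).sup (Submodule.fg_span_singleton a))
  have hUS : U ≤ bS F X L0 := (le_sup_left.trans le_sup_left).trans hL0
  have hGS : ∀ γ ∈ G, γ ∈ bS F X L0 := fun γ h =>
    hL0 (Submodule.mem_sup_left (Submodule.mem_sup_right (Submodule.subset_span h)))
  have haS : a ∈ bS F X L0 := hL0 (Submodule.mem_sup_right (Submodule.mem_span_singleton_self a))
  set W : Submodule F (PP F X ⧸ K) := (bS F X (L0 + N)).map K.mkQ with hW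
  have hWfg : W.FG := (b_S_fg _).map _
  obtain ⟨W', hWW⟩ := W.exists_isCompl
  set π : (PP F X ⧸ K) →ₗ[F] PP F X ⧸ K := W.projection W' hWW with hπdef
  have hπW : ∀ y, π y ∈ W := fun y => Submodule.projection_apply_mem hWW y
  have hπfix : ∀ y ∈ W, π y = y := fun y hy => Submodule.projection_apply_of_mem_left hWW hy
  have hπ : ∀ g w, w.length ≤ L0 + N → π (K.mkQ (bw F g w)) = K.mkQ (bw F g w) :=
    fun g w h => hπfix _ ⟨_, b_S_mem g h, rfl⟩
  set φ := bφ hK c π with hφ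
  have hdead : ∀ w, Dd (shp w) → ∀ y, bAct (bA hK) w y = 0 := by
    intro w hw y
    obtain ⟨x, rfl⟩ := K.mkQ_surjective y
    rw [b_act_mk, Submodule.mkQ_apply, Submodule.Quotient.mk_eq_zero]
    exact PP_mem (f := ρ w) (fun g p => by rw [ρ_bw]; exact hRK (hD w hw g p)) x
  have hseg : ∀ g w, Seg c Dd (shp w) → φ (bw F g w) = 0 := fun g w h => by
    rw [hφ, b_φ_bw]; exact b_run_seg hdead h _
  -- short elements
  have hshort1 : ∀ t : List (Bool × X), t.length ≤ N → ∀ z ∈ bS F X L0,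
      φ (ρ t z) = K.mkQ (ρ t z) := by
    intro t ht z hz
    refine b_S_ext (f := φ ∘ₗ ρ t) (f' := K.mkQ ∘ₗ ρ t) (fun g w hw => ?_) hz
    have h1 : (w ++ t).length ≤ L0 + N := by rw [length_append]; omega
    rw [LinearMap.comp_apply, LinearMap.comp_apply, ρ_bw, hφ, b_φ_bw, bRun, LinearMap.comp_apply,
      b_pre_short hK hπ g _ _ _ _ (by simpa using h1), nil_append, nil_append, b_pr_fix (hπ g _ h1)]
  have hshort : ∀ z ∈ bS F X L0, z ∈ K → ∀ t, φ (ρ t z) = 0 := by
    intro z hz hzK t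
    by_cases ht : t.length ≤ N
    · rw [hshort1 t ht z hz, Submodule.mkQ_apply, Submodule.Quotient.mk_eq_zero]
      exact hK.ρ_mem t hzK
    · obtain ⟨t1, t2, rfl, h1⟩ : ∃ t1 t2, t = t1 ++ t2 ∧ t1.length = N :=
        ⟨t.take N, t.drop N, (take_append_drop _ _).symm, by rw [length_take]; omega⟩
      have : φ (ρ (t1 ++ t2) z) = bRun c π (bA hK) (shp t1) t2 (K.mkQ (ρ t1 z)) := by
        refine b_S_ext (f := φ ∘ₗ ρ (t1 ++ t2))
          (f' := bRun c π (bA hK) (shp t1) t2 ∘ₗ K.mkQ ∘ₗ ρ t1) (fun g w hw => ?_) hz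
        simp only [LinearMap.comp_apply]
        rw [ρ_bw, ρ_bw, hφ, b_φ_bw, ← append_assoc, b_run_append,
          b_pre_short hK hπ g _ _ _ _ (by simp; omega), nil_append, nil_append]
        refine b_run_congr t2 (fun z1 z2 _ => ?_) _
        rw [shp, map_append, append_assoc]
        exact hc.left _ _ _ (by simp; omega)
      have h2 : K.mkQ (ρ t1 z) = 0 := (Submodule.Quotient.mk_eq_zero K).2 (hK.ρ_mem t1 hzK)
      rw [this, h2, map_zero]
  let Φ : PP F X →ₗ[F] (List (Bool × X) → PP F X ⧸ K) := LinearMap.pi fun t => φ ∘ₗ ρ t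
  have hJ : ∀ x, x ∈ LinearMap.ker Φ ↔ ∀ t, φ (ρ t x) = 0 := fun x => by
    rw [LinearMap.mem_ker, funext_iff]; rfl
  have hJ1 : RelG F L ≤ LinearMap.ker Φ := by
    refine Submodule.span_le.2 ?_
    rintro _ ⟨g, p, w, e, w', t, hL, rfl⟩
    refine (hJ _).2 fun t' => ?_
    rw [map_sub, map_smul, ρ_bw, ρ_bw, map_sub, map_smul, append_assoc, append_assoc, append_assoc,
      append_assoc]
    rcases hrel w e w' hL (shp p) (shp (t ++ t')) with ⟨h1, h2⟩ | ⟨h1, h2, h3⟩
    · rw [hseg g _ (by simpa using h1)]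
      rcases h2 with rfl | h2
      · simp
      · rw [hseg g _ (by simpa using h2)]; simp
    · rw [hφ, b_φ_bw, b_φ_bw, sub_eq_zero]
      refine b_run_rel (fun y => ?_) h1 p (t ++ t') h2 h3 _
      obtain ⟨x, rfl⟩ := K.mkQ_surjective y
      rw [b_act_mk, b_act_mk, ← map_smul, ← sub_eq_zero, ← map_sub, Submodule.mkQ_apply,
        Submodule.Quotient.mk_eq_zero]
      refine PP_mem (f := (ρ w : PP F X →ₗ[F] PP F X) - (e : F) • ρ w') (fun g p => ?_) x
      rw [LinearMap.sub_apply, LinearMap.smul_apply, ρ_bw, ρ_bw]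
      exact hRK (Submodule.subset_span ⟨g, p, w, e, w', [], hL, by rw [append_nil, append_nil]⟩)
  have hJ2 : Submodule.span F {f | ∃ l ∈ Λ, ∃ b g p t, f = ρ t (ρh b l (bw F g p))} ≤
      LinearMap.ker Φ := by
    refine Submodule.span_le.2 ?_
    rintro _ ⟨l, hl, b, g, p, t, rfl⟩
    refine (hJ _).2 fun t' => ?_
    obtain ⟨m, hm⟩ := K.mkQ_surjective (bPr c π (shp p) (b :: ([] ++ shp (t ++ t')))
      (bPre c π (bA hK) [] p (b :: shp (t ++ t')) (K.mkQ (bw F g []))))
    have h1 : ∀ x, φ (ρ (t ++ t') (ρ [(b, x)] (bw F g p))) =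
        bRun c π (bA hK) (shp p ++ [b]) (t ++ t') (K.mkQ (ρ [(b, x)] m)) := by
      intro x
      rw [ρ_bw, ρ_bw, hφ, b_φ_bw, append_assoc, b_run_append, b_run_append, ← b_A_mk hK, hm]
      rfl
    have h2 : ρh b l m ∈ K := by
      refine PP_mem (f := ρh b l) (fun g p => hle (Submodule.mem_sup_left ?_)) m
      exact Submodule.mem_sup_right (Submodule.subset_span ⟨l, hl, b, g, p, [], (ρ_nil _).symm⟩)
    have h3 : K.mkQ (ρh b l m) = 0 := (Submodule.Quotient.mk_eq_zero K).2 h2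
    rw [← ρ_append, ρh_apply]
    rw [ρh_apply] at h3
    simp only [map_sum, map_smul, h1] at h3 ⊢
    have := congrArg (bRun c π (bA hK) (shp p ++ [b]) (t ++ t')) h3
    simpa only [map_sum, map_smul, map_zero] using this
  have hJ3 : genS G ≤ LinearMap.ker Φ := by
    refine Submodule.span_le.2 ?_
    rintro _ ⟨γ, hγ, ε, rfl⟩
    refine (hJ _).2 fun t => ?_
    rw [← ρ_append]
    exact hshort γ (hGS γ hγ)
      (hle (Submodule.mem_sup_right (Submodule.subset_span ⟨γ, hγ, [], (ρ_nil _).symm⟩))) _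
  refine ⟨LinearMap.ker Φ, fun k hk => ?_, fun t x hx => (hJ _).2 fun ε => ?_, ?_, fun h => ha ?_⟩
  · obtain ⟨r, hr, u, hu, rfl⟩ := Submodule.mem_sup.1 (hKU hk)
    refine Submodule.add_mem _ (sup_le (sup_le hJ1 hJ2) hJ3 hr) ((hJ _).2 (hshort u (hUS hu) ?_))
    simpa using K.sub_mem hk (hle hr)
  · rw [← ρ_append]; exact (hJ x).1 hx _
  · rw [← Submodule.range_fg_iff_ker_cofg]
    let T : List Bool × List (Bool × X) → (PP F X ⧸ K) →ₗ[F] (List (Bool × X) → PP F X ⧸ K) :=
      fun q => LinearMap.pi fun t => bRun c π (bA hK) q.1 (q.2 ++ t)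
    have hfin : ({u : List Bool | u.length ≤ N} ×ˢ {v : List (Bool × X) | v.length ≤ 2 * N}).Finite :=
      (List.finite_length_le Bool N).prod (List.finite_length_le (Bool × X) (2 * N))
    have hV : ((bS F X (3 * N)).map Φ ⊔ ⨆ q ∈ hfin.toFinset, W.map (T q)).FG :=
      ((b_S_fg _).map _).sup (Submodule.fg_biSup _ _ fun q _ => hWfg.map _)
    refine hV.of_le ?_
    rintro _ ⟨m, rfl⟩
    refine PP_mem (f := Φ) (fun g w => ?_) m
    by_cases hw : w.length ≤ 3 * N
    · exact Submodule.mem_sup_left ⟨_, b_S_mem g hw, rfl⟩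
    rcases hdense (shp w) (by simp; omega) with h | ⟨u, v, e, h1, h2⟩
    · have : Φ (bw F g w) = 0 := (hJ _).2 fun t => by
        rw [ρ_bw]; exact hseg g _ (by simpa using h (shp t))
      rw [this]; exact Submodule.zero_mem _
    · obtain ⟨u', v', rfl, rfl, rfl⟩ := map_eq_append_iff.1 e
      have h3 := hc.len _ _ h1
      simp only [length_map, length_append] at hw h2 h3
      obtain ⟨z1, z2, ez, h4⟩ : ∃ z1 z2, shp u' = z1 ++ z2 ∧ z2.length = N :=
        ⟨(shp u').take (u'.length - N), (shp u').drop (u'.length - N),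
          (take_append_drop _ _).symm, by rw [length_drop, length_map]; omega⟩
      refine Submodule.mem_sup_right (Submodule.mem_iSup_of_mem (z2, v')
        (Submodule.mem_iSup_of_mem (by simp; omega)
          ⟨π (bPre c π (bA hK) [] u' (shp v') (K.mkQ (bw F g []))), hπW _, ?_⟩))
      funext t
      change bRun c π (bA hK) z2 (v' ++ t) _ = φ (ρ t (bw F g (u' ++ v')))
      rw [ρ_bw, hφ, b_φ_bw, append_assoc, b_run_append [], nil_append,
        ← b_run_proj (u := shp u') (fun y => hπfix _ (hπW y))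
          (by simpa only [shp, map_append] using
            (hc.right _ _ (shp t) (by simpa using h3)).2 h1),
        b_pre_congr (π := π) (A := bA hK) u' (s := shp (v' ++ t)) (s' := shp v') (u := [])
          (u' := []) (fun y1 y2 _ => by
            rw [shp, map_append, ← append_assoc]
            exact hc.right _ _ _ (by simp; omega))]
      refine b_run_congr _ (fun y1 y2 _ => ?_) _
      rw [ez, append_assoc]
      exact (hc.left _ _ _ (by simp; omega)).symm
  · have h1 := (hJ a).1 h []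
    rw [hshort1 [] (Nat.zero_le _) a haS, ρ_nil, Submodule.mkQ_apply,
      Submodule.Quotient.mk_eq_zero] at h1
    exact h1

end Pool.Agent.Lib.MP_038c09_al.Pi
end

-- part PiC
section

/-!
Cuts from locality.
-/

namespace Pool.Agent.Lib.MP_038c09_al.Pi

open List

section

variable {α : Type} {Mv : Set (List α × List α)} {Kl : Set (List α)} {B : ℕ}

theorem c_mid {p v t p' z t' : List α} (e : p ++ v ++ t = p' ++ z ++ t')
    (h1 : p.length ≤ p'.length) (h2 : p'.length + z.length ≤ p.length + v.length) :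
    ∃ a b, v = a ++ z ++ b ∧ p' = p ++ a ∧ t' = b ++ t := by
  obtain ⟨a, rfl⟩ : p <+: p' := prefix_of_prefix_length_le
    ⟨v ++ t, (append_assoc _ _ _).symm⟩ ⟨z ++ t', by rw [e, append_assoc]⟩ h1
  obtain ⟨b, hb⟩ : p ++ a ++ z <+: p ++ v := prefix_of_prefix_length_le ⟨t', e.symm⟩ ⟨t, rfl⟩
    (by simp only [length_append] at h2 ⊢; omega)
  rw [← hb, append_assoc _ b] at e
  simp only [append_assoc, append_cancel_left_eq] at hb
  exact ⟨a, b, by rw [← hb, append_assoc], rfl, (append_cancel_left e).symm⟩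

theorem c_cutR (l : List α) (n : ℕ) :
    ∃ a b, l = a ++ b ∧ a.length ≤ n ∧ (b.length = 0 ∨ a.length = n) :=
  ⟨l.take n, l.drop n, (take_append_drop n l).symm, by simp, by simp; omega⟩

theorem c_cutL (l : List α) (n : ℕ) :
    ∃ a b, l = a ++ b ∧ b.length ≤ n ∧ (a.length = 0 ∨ b.length = n) :=
  ⟨l.take (l.length - n), l.drop (l.length - n), (take_append_drop _ l).symm, by simp; omega,
    by simp only [length_take, length_drop]; omega⟩

theorem c_mv (h : Loc Mv Kl B) {u u' : List α} (hu : MvW Mv u u') :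
    u'.length = u.length ∧ u.length ≤ B := by
  rcases hu with hu | hu <;> obtain ⟨h1, -, h2⟩ := h.mv _ hu
  exacts [⟨h1.symm, h2⟩, ⟨h1, h1 ▸ h2⟩]

theorem c_len (h : Loc Mv Kl B) {w w' : List α} (hw : Rch Mv w w') : w'.length = w.length := by
  induction hw with
  | refl => rfl
  | tail _ h2 ih =>
    obtain ⟨p, u, u', t, h3, rfl, rfl⟩ := h2
    simp only [length_append, (c_mv h h3).1] at ih ⊢
    exact ih

variable (Mv Kl) in
/-- position `i` lies strictly inside a rule side or a forbidden factor of a word of the class -/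
def CTouch (w : List α) (i : ℕ) : Prop := ∃ p z t, Rch Mv w (p ++ z ++ t) ∧
  (z ∈ Kl ∨ ∃ z', MvW Mv z z') ∧ p.length < i ∧ i < p.length + z.length

variable (Mv Kl) in
/-- touched inside a window -/
def CWin (N : ℕ) (u v : List α) : Prop := ∃ u1 u2 v1 v2, u = u1 ++ u2 ∧ v = v1 ++ v2 ∧
  u2.length ≤ N ∧ v1.length ≤ N ∧ CTouch Mv Kl (u2 ++ v1) u2.length

theorem CTouch.rch {w w' : List α} {i : ℕ} (h : CTouch Mv Kl w i) (h' : Rch Mv w' w) :
    CTouch Mv Kl w' i :=
  let ⟨p, z, t, h1, h2⟩ := h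
  ⟨p, z, t, h'.trans h1, h2⟩

theorem CWin.touch {N : ℕ} {u v : List α} (h : CWin Mv Kl N u v) :
    CTouch Mv Kl (u ++ v) u.length := by
  obtain ⟨u1, u2, v1, v2, rfl, rfl, -, -, p, z, t, h1, h2, h3, h4⟩ := h
  refine ⟨u1 ++ p, z, t ++ v2, ?_, h2, ?_, ?_⟩
  · simpa only [append_assoc] using rch_ctx h1 u1 v2
  all_goals simp only [length_append]; omega

/-- an untouched position splits the class -/
theorem c_split (h : Loc Mv Kl B) {s1 s2 : List α} (hn : ¬ CTouch Mv Kl (s1 ++ s2) s1.length)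
    (hd : Ded Mv Kl (s1 ++ s2)) : Ded Mv Kl s1 ∨ Ded Mv Kl s2 := by
  have k : ∀ a b p z t, Rch Mv s1 a → Rch Mv s2 b → a ++ b = p ++ z ++ t →
      (z ∈ Kl ∨ ∃ z', MvW Mv z z') → (∃ y, a = p ++ z ++ y ∧ t = y ++ b) ∨
        ∃ y, b = y ++ z ++ t ∧ p = a ++ y := fun a b p z t ha hb e hz => by
    have e1 := c_len h ha
    have e2 := congrArg length e
    simp only [length_append] at e2
    by_cases h1 : p.length < s1.length
    · obtain ⟨x, y, h2, h3, h4⟩ := c_mid (p := []) (v := a) e (Nat.zero_le _) (by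
        refine not_lt.1 fun h2 => hn ⟨p, z, t, ?_, hz, h1, by rwa [length_nil, zero_add, e1] at h2⟩
        rw [← e]
        have h3 := rch_ctx ha [] s2
        have h4 := rch_ctx hb a []
        simp only [nil_append, append_nil] at h3 h4
        exact h3.trans h4)
      exact Or.inl ⟨y, by rw [h2, h3, nil_append], h4⟩
    · obtain ⟨x, y, h2, h3, h4⟩ := c_mid (p := a) (v := b) (t := []) ((append_nil _).trans e)
        (by omega) (by omega)
      exact Or.inr ⟨x, by rw [h2, h4, append_nil], h3⟩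
  obtain ⟨w, h1, z, hz, p, t, e⟩ := hd
  have : ∃ a b, Rch Mv s1 a ∧ Rch Mv s2 b ∧ w = a ++ b := by
    clear e
    induction h1 with
    | refl => exact ⟨_, _, .refl, .refl, rfl⟩
    | tail _ h2 ih =>
      obtain ⟨a, b, ha, hb, rfl⟩ := ih
      obtain ⟨p, u, u', t, h3, e, rfl⟩ := h2
      rcases k a b p u t ha hb e (Or.inr ⟨_, h3⟩) with ⟨y, rfl, rfl⟩ | ⟨y, rfl, rfl⟩
      · exact ⟨p ++ u' ++ y, b, ha.tail ⟨p, u, u', y, h3, rfl, rfl⟩, hb, (append_assoc _ _ _).symm⟩
      · exact ⟨a, y ++ u' ++ t, ha, hb.tail ⟨y, u, u', t, h3, rfl, rfl⟩, by simp only [append_assoc]⟩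
  obtain ⟨a, b, ha, hb, rfl⟩ := this
  rcases k a b p z t ha hb e.symm (Or.inl hz) with ⟨y, rfl, -⟩ | ⟨y, rfl, -⟩
  exacts [Or.inl ⟨_, ha, z, hz, p, y, rfl⟩, Or.inr ⟨_, hb, z, hz, y, t, rfl⟩]

/-- touching data in an alive word -/
theorem CTouch.occ (h : Loc Mv Kl B) {w : List α} {i : ℕ} (ht : CTouch Mv Kl w i)
    (ha : ¬ Ded Mv Kl w) : ∃ p z z' t, Rch Mv w (p ++ z ++ t) ∧ MvW Mv z z' ∧ p.length < i ∧
      i < p.length + z.length ∧ z.length ≤ B ∧
      ∀ w' j, Rch Mv w w' → Occ Mv w' j → p.length ≤ j + B ∧ j ≤ p.length + B := by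
  obtain ⟨p, z, t, h1, hz | ⟨z', hz⟩, h3, h4⟩ := ht
  · exact absurd ⟨_, h1, z, hz, p, t, rfl⟩ ha
  · exact ⟨p, z, z', t, h1, hz, h3, h4, (c_mv h hz).2, fun w' j h5 => h.h2 _ w' _ j
      (fun h6 => ha (ded_of_rch h1 h6)) ((rch_symm h1).trans h5) ⟨p, z, z', t, hz, rfl, rfl⟩⟩

theorem CTouch.win (h : Loc Mv Kl B) {u v : List α} (ht : CTouch Mv Kl (u ++ v) u.length)
    (ha : ¬ Ded Mv Kl (u ++ v)) : CWin Mv Kl (6 * B) u v := by
  obtain ⟨p, z, z', t, h1, hz, h3, h4, h5, h6⟩ := ht.occ h ha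
  obtain ⟨u1, u2, rfl, a1, a2⟩ := c_cutL u (2 * B)
  obtain ⟨v1, v2, rfl, b1, b2⟩ := c_cutR v (2 * B)
  have k : ∀ x q y y' r, Rch Mv (u2 ++ v1) x → u1 ++ x ++ v2 = q ++ y ++ r → MvW Mv y y' →
      ∃ a b, x = a ++ y ++ b ∧ q = u1 ++ a ∧ r = b ++ v2 := fun x q y y' r hx e hy => by
    have e1 := c_len h hx
    have e2 := congrArg length e
    have e3 := (c_mv h hy).2
    have e4 := h6 _ _ (by simpa only [append_assoc] using rch_ctx hx u1 v2)
      ⟨q, y, y', r, hy, by simpa only [append_assoc] using e, rfl⟩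
    simp only [length_append] at e1 e2 h3 h4
    exact c_mid e (by omega) (by omega)
  have k2 : ∀ w, Rch Mv (u1 ++ u2 ++ (v1 ++ v2)) w → ∃ x, Rch Mv (u2 ++ v1) x ∧ w = u1 ++ x ++ v2 := by
    intro w hw
    induction hw with
    | refl => exact ⟨_, .refl, by simp only [append_assoc]⟩
    | tail _ h2 ih =>
      obtain ⟨x, hx, rfl⟩ := ih
      obtain ⟨q, y, y', r, hy, e, rfl⟩ := h2
      obtain ⟨a, b, rfl, rfl, rfl⟩ := k x q y y' r hx e hy
      exact ⟨a ++ y' ++ b, hx.tail ⟨a, y, y', b, hy, rfl, rfl⟩, by simp only [append_assoc]⟩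
  obtain ⟨x, hx, e⟩ := k2 _ h1
  obtain ⟨a, b, rfl, rfl, rfl⟩ := k x p z z' t hx e.symm hz
  simp only [length_append] at h3 h4
  exact ⟨u1, u2, v1, v2, rfl, rfl, by omega, by omega, a, z, b, hx, Or.inr ⟨_, hz⟩, by omega,
    by omega⟩

/-- a dead word has a short dead factor -/
theorem c_short (h : Loc Mv Kl B) {w : List α} (hd : Ded Mv Kl w) :
    ∃ p s t, w = p ++ s ++ t ∧ Ded Mv Kl s ∧ s.length ≤ 6 * B := by
  by_cases hk : Kld Kl w
  · obtain ⟨z, hz, p, t, rfl⟩ := hk
    exact ⟨p, z, t, rfl, ded_of_kld ⟨z, hz, infix_refl _⟩, (h.kl z hz).2.trans (by omega)⟩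
  obtain ⟨w', h1, h2⟩ := hd
  rcases h1.cases_head with rfl | ⟨_, ⟨p0, z0, z1, t0, hz0, rfl, -⟩, -⟩
  · exact absurd h2 hk
  obtain ⟨p1, m1, rfl, a1, a2⟩ := c_cutL p0 B
  obtain ⟨p, a, rfl, a3, a4⟩ := c_cutL p1 B
  obtain ⟨m2, t1, rfl, b1, b2⟩ := c_cutR t0 (2 * B)
  obtain ⟨b, t, rfl, b3, b4⟩ := c_cutR t1 B
  have l0 := (c_mv h hz0).2
  refine ⟨p, a ++ (m1 ++ z0 ++ m2) ++ b, t, by simp only [append_assoc], by_contra fun ha => ?_,
    by simp only [length_append]; omega⟩
  have oc : ∀ m j, Rch Mv (m1 ++ z0 ++ m2) m → Occ Mv (a ++ m ++ b) j →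
      a.length + m1.length ≤ j + B ∧ j ≤ a.length + m1.length + B := fun m j hm =>
    h.h2 _ _ _ j ha (rch_ctx hm a b)
      ⟨a ++ m1, z0, z1, m2 ++ b, hz0, by simp only [append_assoc], length_append⟩
  have nk : ∀ m, Rch Mv (m1 ++ z0 ++ m2) m → ¬ Kld Kl (p ++ (a ++ m ++ b) ++ t) := by
    rintro m hm ⟨z, hz, q, r, e⟩
    have e1 := c_len h hm
    have e2 := congrArg length e
    have e3 := (h.kl z hz).2
    simp only [length_append] at e1 e2 a2 b2
    by_cases c1 : q.length + z.length ≤ p.length + a.length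
    · obtain ⟨x, y, e4, -⟩ := c_mid (p := []) (v := p ++ a) (t := m ++ b ++ t)
        (by simpa only [append_assoc, nil_append] using e.symm) (Nat.zero_le _)
        (by simpa only [length_nil, zero_add, length_append])
      exact hk ⟨z, hz, x, y ++ (m1 ++ z0 ++ (m2 ++ (b ++ t))), by rw [e4]; simp only [append_assoc]⟩
    by_cases c2 : p.length + a.length + m.length ≤ q.length
    · obtain ⟨x, y, e4, -⟩ := c_mid (p := p ++ a ++ m) (v := b ++ t) (t := [])
        (by simpa only [append_assoc, append_nil] using e.symm)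
        (by simpa only [length_append]) (by simp only [length_append]; omega)
      exact hk ⟨z, hz, p ++ a ++ m1 ++ z0 ++ m2 ++ x, y, by rw [e4]; simp only [append_assoc]⟩
    obtain ⟨x, y, e4, -⟩ := c_mid e.symm (by omega) (by simp only [length_append]; omega)
    exact ha ⟨_, rch_ctx hm a b, z, hz, x, y, e4.symm⟩
  have k : ∃ m j, Rch Mv (m1 ++ z0 ++ m2) m ∧ w' = p ++ (a ++ m ++ b) ++ t ∧
      Occ Mv (a ++ m ++ b) j := by
    clear h2
    induction h1 with
    | refl => exact ⟨_, _, .refl, by simp only [append_assoc],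
        a ++ m1, z0, z1, m2 ++ b, hz0, by simp only [append_assoc], rfl⟩
    | tail _ h2 ih =>
      obtain ⟨m, j, hm, rfl, hj⟩ := ih
      obtain ⟨q, y, y', r, hy, e, rfl⟩ := h2
      have e1 := c_len h hm
      have e2 := congrArg length e
      have e3 := (c_mv h hy).2
      have e4 := oc m j hm hj
      obtain ⟨q0, y0, y1, r0, hy0, e0, rfl⟩ := hj
      have o1 : Occ Mv (p ++ (a ++ m ++ b) ++ t) (p.length + q0.length) :=
        ⟨p ++ q0, y0, y1, r0 ++ t, hy0, by rw [e0]; simp only [append_assoc], length_append⟩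
      have o2 : Occ Mv (p ++ (a ++ m ++ b) ++ t) q.length := ⟨q, y, y', r, hy, e, rfl⟩
      have e5 := h.h1 _ _ _ (nk m hm) o1 o2
      have e6 := h.h1 _ _ _ (nk m hm) o2 o1
      simp only [length_append] at e1 e2 a2 b2
      obtain ⟨x1, x2, e7, rfl, rfl⟩ := c_mid e (by omega) (by simp only [length_append]; omega)
      have e8 := oc m _ hm ⟨x1, y, y', x2, hy, e7, rfl⟩
      have e9 := congrArg length e7
      simp only [length_append] at e9
      obtain ⟨x3, x4, rfl, rfl, rfl⟩ := c_mid e7 (by omega) (by omega)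
      exact ⟨x3 ++ y' ++ x4, _, hm.tail ⟨x3, y, y', x4, hy, rfl, rfl⟩, by simp only [append_assoc],
        a ++ x3, y', y, x4 ++ b, hy.symm, by simp only [append_assoc], rfl⟩
  obtain ⟨m, -, hm, rfl, -⟩ := k
  exact nk m hm h2

end

theorem cuts_of_loc {α : Type} {Mv : Set (List α × List α)} {Kl : Set (List α)} {B : ℕ}
    (h : Loc Mv Kl B) : ∃ (c : List α → List α → Prop) (N : ℕ), CutOk c N ∧
      (∀ w, Ded Mv Kl w → Seg c (Ded Mv Kl) w) ∧
      (∀ w, 3 * N ≤ w.length → ¬ Ded Mv Kl w → ∃ u v, w = u ++ v ∧ c u v ∧ v.length ≤ 2 * N) ∧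
      (∀ p u u' t, (u, u') ∈ Mv → ¬ Ded Mv Kl (p ++ u ++ t) →
        SameCuts c (p ++ u ++ t) (p ++ u' ++ t) ∧ NoCut c p u t) := by
  refine ⟨fun u v => 6 * B ≤ v.length ∧ ¬ CWin Mv Kl (6 * B) u v, 6 * B,
    ⟨fun _ _ h => h.1, fun u v t hv => ?_, fun p u v hu => and_congr_right fun _ => not_congr ?_⟩,
    fun w hw => ?_, fun w hw ha => ?_, fun p u u' t hu ha => ⟨fun i => ?_, ?_⟩⟩
  · refine and_congr (iff_of_true (by rw [length_append]; omega) hv) (not_congr ⟨?_, ?_⟩)
    · rintro ⟨u1, u2, v1, v2, rfl, e, h1, h2, h3⟩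
      obtain ⟨y, rfl⟩ : v1 <+: v := prefix_of_prefix_length_le ⟨v2, e.symm⟩ ⟨t, rfl⟩ (h2.trans hv)
      exact ⟨u1, u2, v1, y, rfl, rfl, h1, h2, h3⟩
    · rintro ⟨u1, u2, v1, v2, rfl, rfl, h1⟩
      exact ⟨u1, u2, v1, v2 ++ t, rfl, append_assoc _ _ _, h1⟩
  · constructor
    · rintro ⟨u1, u2, v1, v2, e, rfl, h1, h2⟩
      obtain ⟨y, rfl⟩ : u2 <:+ u := suffix_of_suffix_length_le ⟨u1, e.symm⟩ ⟨p, rfl⟩ (h1.trans hu)
      exact ⟨y, u2, v1, v2, rfl, rfl, h1, h2⟩
    · rintro ⟨u1, u2, v1, v2, rfl, rfl, h1⟩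
      exact ⟨p ++ u1, u2, v1, v2, (append_assoc _ _ _).symm, rfl, h1⟩
  · obtain ⟨p, s, t, rfl, h1, h2⟩ := c_short h hw
    clear hw
    induction hn : s.length using Nat.strong_induction_on generalizing p s t with
    | _ n ih =>
      by_cases hc : ∀ s1 s2, s = s1 ++ s2 → s1 ≠ [] → s2 ≠ [] →
        CTouch Mv Kl (s1 ++ s2) s1.length
      · refine ⟨p, s, t, rfl, h1, fun s1 s2 e a1 a2 a3 => a3.2 ?_⟩
        rw [e, length_append] at h2
        exact ⟨p, s1, s2, t, rfl, rfl, by omega, by omega, hc s1 s2 e a1 a2⟩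
      · simp only [not_forall] at hc
        obtain ⟨s1, s2, rfl, a1, a2, a3⟩ := hc
        have l1 := length_pos_iff.2 a1
        have l2 := length_pos_iff.2 a2
        rw [length_append] at h2 hn
        rcases c_split h a3 h1 with h3 | h3
        · simpa only [append_assoc] using ih _ (by omega) p s1 (s2 ++ t) h3 (by omega) rfl
        · simpa only [append_assoc] using ih _ (by omega) (p ++ s1) s2 t h3 (by omega) rfl
  · have k : ∀ n ≤ w.length, ∃ u v, w = u ++ v ∧ v.length = n := fun n hn =>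
      ⟨_, _, (take_append_drop (w.length - n) w).symm, by rw [length_drop]; omega⟩
    obtain ⟨u, v, e, l⟩ := k (6 * B) (by omega)
    obtain ⟨u', v', e', l'⟩ := k (2 * (6 * B)) (by omega)
    by_contra hc
    obtain ⟨p, z, -, t, -, -, -, a1, a2, a3⟩ := (e ▸ CWin.touch (by_contra fun h1 =>
      hc ⟨u, v, e, ⟨l.ge, h1⟩, by omega⟩) : CTouch Mv Kl w u.length).occ h ha
    obtain ⟨p', z', z'', t', b1, b2, b3, -⟩ := (e' ▸ CWin.touch (by_contra fun h1 =>
      hc ⟨u', v', e', ⟨by omega, h1⟩, l'.le⟩) : CTouch Mv Kl w u'.length).occ h ha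
    have := a3 _ _ b1 ⟨p', z', z'', t', b2, rfl, rfl⟩
    have e1 := congrArg length e
    have e2 := congrArg length e'
    rw [length_append] at e1 e2
    omega
  · have k : ∀ w w', Rch Mv w w' → ¬ Ded Mv Kl w → CWin Mv Kl (6 * B) (w'.take i) (w'.drop i) →
        CWin Mv Kl (6 * B) (w.take i) (w.drop i) := fun w w' h1 h2 h3 => by
      have := h3.touch
      rw [take_append_drop, length_take, c_len h h1, ← length_take] at this
      exact CTouch.win h (by rw [take_append_drop]; exact this.rch h1) (by rwa [take_append_drop])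
    have r : Rch Mv (p ++ u ++ t) (p ++ u' ++ t) := .single ⟨p, u, u', t, Or.inl hu, rfl, rfl⟩
    exact and_congr (by rw [length_drop, length_drop, c_len h r]) (not_congr
      ⟨k _ _ (rch_symm r) fun h1 => ha (ded_of_rch r h1), k _ _ r ha⟩)
  · rintro s1 s2 rfl a1 a2 a3
    have l1 := length_pos_iff.2 a1
    have l2 := length_pos_iff.2 a2
    have l3 := (h.mv _ hu).2.2
    rw [length_append] at l3
    exact a3.2 ⟨p, s1, s2, t, rfl, rfl, by omega, by omega, [], s1 ++ s2, [],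
      by rw [nil_append, append_nil], Or.inr ⟨u', Or.inl hu⟩, l1,
      by rw [length_nil, length_append]; omega⟩

end Pool.Agent.Lib.MP_038c09_al.Pi
end

-- part PiD
section

/-!
Locality passes to the coded system.
-/

namespace Pool.Agent.Lib.MP_038c09_al.Pi

open List

section

variable {Γ : Type} (c : Cd Γ)

theorem d_pos : 0 < c.ℓ := by simp [Cd.ℓ]

theorem d_sync {P z : List Γ} {p s : List Bool} (hz : z ≠ []) (h : p ++ (c.κ z ++ s) = c.κ P) :
    ∃ P1 P3, P = P1 ++ z ++ P3 ∧ p = c.κ P1 ∧ s = c.κ P3 := by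
  simpa using c.sync_κ (m := 0) (n := 0) (P := P) (p := p) (s := s) hz (by simpa using h)

/-- an initial part of a code consists of blocks and a short rest -/
theorem d_pre : ∀ (P : List Γ) (t b : List Bool), t ++ b = c.κ P →
    ∃ P' t', t = c.κ P' ++ t' ∧ t'.length < c.ℓ ∧ ∃ P4, t' ++ b = c.κ P4
  | [], t, b, h => by
    obtain ⟨rfl, rfl⟩ := append_eq_nil_iff.1 h
    exact ⟨[], [], rfl, d_pos c, [], rfl⟩
  | γ :: P, t, b, h => by
    by_cases ht : t.length < c.ℓ
    · exact ⟨[], t, rfl, ht, _, h⟩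
    · rw [Cd.κ_cons] at h
      obtain ⟨t1, rfl⟩ : c.cd γ <+: t :=
        prefix_of_prefix_length_le ⟨_, h.symm⟩ ⟨b, rfl⟩ (by rw [c.length_cd]; omega)
      rw [append_assoc, append_cancel_left_eq] at h
      obtain ⟨P', t', rfl, h1, h2⟩ := d_pre P t1 b h
      exact ⟨γ :: P', t', by simp, h1, h2⟩

/-- a final part of a code consists of a short rest and blocks -/
theorem d_suf : ∀ (P : List Γ) (a p : List Bool), a ++ p = c.κ P →
    ∃ q P', p = q ++ c.κ P' ∧ q.length < c.ℓ ∧ ∃ a' P0, a' ++ q = c.κ P0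
  | [], a, p, h => by
    obtain ⟨rfl, rfl⟩ := append_eq_nil_iff.1 h
    exact ⟨[], [], rfl, d_pos c, [], [], rfl⟩
  | γ :: P, a, p, h => by
    by_cases h0 : a = []
    · subst h0
      exact ⟨[], γ :: P, h, d_pos c, [], [], rfl⟩
    rw [Cd.κ_cons] at h
    by_cases ha : c.ℓ ≤ a.length
    · obtain ⟨a1, rfl⟩ : c.cd γ <+: a :=
        prefix_of_prefix_length_le ⟨_, h.symm⟩ ⟨p, rfl⟩ (by rw [c.length_cd]; omega)
      rw [append_assoc, append_cancel_left_eq] at h
      exact d_suf P a1 p h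
    · obtain ⟨q, hq⟩ : a <+: c.cd γ :=
        prefix_of_prefix_length_le ⟨p, h⟩ ⟨_, rfl⟩ (by rw [c.length_cd]; omega)
      rw [← hq, append_assoc, append_cancel_left_eq] at h
      have h1 := congrArg length hq
      have h2 := length_pos_iff.2 h0
      rw [length_append, c.length_cd] at h1
      exact ⟨q, P, h, by omega, a, [γ], by simpa using hq⟩

/-- a word all of whose short factors are factors of codes is a factor of a code -/
theorem d_parse (w : List Bool) (h : ∀ Z, Z <:+: w → Z.length ≤ 2 * c.ℓ → ∃ P, Z <:+: c.κ P) :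
    ∃ P, w <:+: c.κ P := by
  induction w using List.reverseRecOn with
  | nil => exact ⟨[], nil_infix⟩
  | append_singleton w x ih =>
    by_cases hw : (w ++ [x]).length ≤ 2 * c.ℓ
    · exact h _ infix_rfl hw
    obtain ⟨P, a, b, hP⟩ := ih fun Z hZ => h Z (hZ.trans (prefix_append w [x]).isInfix)
    obtain ⟨P', t, h1, h2, -⟩ := d_pre c P (a ++ w) b hP
    rw [length_append, length_singleton] at hw
    rcases List.eq_nil_or_concat P' with rfl | ⟨P2, γ, rfl⟩
    · have := congrArg length h1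
      simp only [length_append, Cd.κ_nil, length_nil] at this
      omega
    rw [concat_eq_append, Cd.κ_append, append_assoc] at h1
    have hl : (c.κ [γ] ++ t).length < 2 * c.ℓ := by
      rw [length_append, c.length_κ, length_singleton]; omega
    obtain ⟨w1, rfl⟩ : c.κ [γ] ++ t <:+ w :=
      suffix_of_suffix_length_le ⟨_, h1.symm⟩ ⟨a, rfl⟩ (by omega)
    rw [← append_assoc, append_cancel_right_eq] at h1
    obtain ⟨Q, a', b', hQ⟩ := h (c.κ [γ] ++ t ++ [x]) ⟨w1, [], by simp⟩ (by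
      rw [length_append, length_singleton]; omega)
    obtain ⟨Q1, Q3, -, -, h3⟩ := d_sync c (P := Q) (z := [γ]) (p := a') (s := t ++ [x] ++ b')
      (by simp) (by simpa using hQ)
    exact ⟨P2 ++ [γ] ++ Q3, a, b', by rw [Cd.κ_append, Cd.κ_append, ← h1, ← h3]; simp⟩

/-- short borders of a coded word -/
structure dFr (q t : List Bool) : Prop where
  lq : q.length < c.ℓ
  lt : t.length < c.ℓ
  sq : ∃ a P0, a ++ q = c.κ P0
  st : ∃ b P4, t ++ b = c.κ P4

variable {c}

theorem d_align {q t p s : List Bool} (hf : dFr c q t) {P z : List Γ} (hz : z ≠ [])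
    (h : q ++ c.κ P ++ t = p ++ c.κ z ++ s) :
    ∃ P1 P3, P = P1 ++ z ++ P3 ∧ p = q ++ c.κ P1 ∧ s = c.κ P3 ++ t := by
  obtain ⟨a, P0, h0⟩ := hf.sq
  obtain ⟨b, P4, h4⟩ := hf.st
  obtain ⟨P1, P3, e1, e2, e3⟩ := d_sync c (P := P0 ++ P ++ P4) (p := a ++ p) (s := s ++ b) hz (by
    rw [Cd.κ_append, Cd.κ_append, ← h0, ← h4]
    have := congrArg (fun w => a ++ w ++ b) h
    simpa using this.symm)
  have l0 := congrArg length h0
  have l4 := congrArg length h4
  have l2 := congrArg length e2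
  have l3 := congrArg length e3
  rw [length_append, c.length_κ] at l0 l4 l2 l3
  have lq := hf.lq
  have lt := hf.lt
  have k1 : P0.length ≤ P1.length := by
    refine Nat.le_of_lt_succ (Nat.lt_of_mul_lt_mul_right (a := c.ℓ) ?_)
    rw [Nat.succ_mul]; omega
  have k3 : P4.length ≤ P3.length := by
    refine Nat.le_of_lt_succ (Nat.lt_of_mul_lt_mul_right (a := c.ℓ) ?_)
    rw [Nat.succ_mul]; omega
  obtain ⟨P1', rfl⟩ : P0 <+: P1 :=
    prefix_of_prefix_length_le ⟨P ++ P4, by rw [← append_assoc, e1]⟩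
      ⟨z ++ P3, by rw [← append_assoc]⟩ k1
  obtain ⟨P3', rfl⟩ : P4 <:+ P3 :=
    suffix_of_suffix_length_le ⟨P0 ++ P, e1⟩ ⟨P0 ++ P1' ++ z, rfl⟩ k3
  refine ⟨P1', P3', append_cancel_right (bs := P4) (by simpa using e1), ?_, ?_⟩
  · rw [Cd.κ_append, ← h0, append_assoc, append_cancel_left_eq] at e2
    exact e2
  · rw [Cd.κ_append, ← h4, ← append_assoc, append_cancel_right_eq] at e3
    exact e3

variable {Mv : Set (List Γ × List Γ)} {Kl : Set (List Γ)} {B : ℕ}

theorem d_mvw {U U' : List Bool} (h : MvW (codeMv c Mv) U U') :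
    ∃ u u', MvW Mv u u' ∧ U = c.κ u ∧ U' = c.κ u' := by
  rcases h with ⟨m, hm, e⟩ | ⟨m, hm, e⟩
  · obtain ⟨rfl, rfl⟩ := Prod.mk.inj e
    exact ⟨m.1, m.2, .inl hm, rfl, rfl⟩
  · obtain ⟨rfl, rfl⟩ := Prod.mk.inj e
    exact ⟨m.2, m.1, .inr hm, rfl, rfl⟩

theorem d_mvw' {u u' : List Γ} (h : MvW Mv u u') : MvW (codeMv c Mv) (c.κ u) (c.κ u') :=
  h.imp (fun h => ⟨_, h, rfl⟩) fun h => ⟨_, h, rfl⟩

theorem d_ne (hl : Loc Mv Kl B) {u u' : List Γ} (h : MvW Mv u u') : u ≠ [] := by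
  rcases h with h | h
  · exact (hl.mv _ h).2.1
  · rintro rfl
    exact (hl.mv _ h).2.1 (length_eq_zero_iff.1 (hl.mv _ h).1)

theorem d_occ (hl : Loc Mv Kl B) {q t : List Bool} (hf : dFr c q t) {P : List Γ} {i : ℕ}
    (h : Occ (codeMv c Mv) (q ++ c.κ P ++ t) i) :
    ∃ i', Occ Mv P i' ∧ i = q.length + i' * c.ℓ := by
  obtain ⟨p, U, U', s, hm, e, rfl⟩ := h
  obtain ⟨u, u', hu, rfl, rfl⟩ := d_mvw hm
  obtain ⟨P1, P3, rfl, rfl, rfl⟩ := d_align hf (d_ne hl hu) e
  exact ⟨_, ⟨P1, u, u', P3, hu, rfl, rfl⟩, by rw [length_append, c.length_κ]⟩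

theorem d_rch (hl : Loc Mv Kl B) {q t : List Bool} (hf : dFr c q t) {P : List Γ} {w' : List Bool}
    (h : Rch (codeMv c Mv) (q ++ c.κ P ++ t) w') : ∃ P', Rch Mv P P' ∧ w' = q ++ c.κ P' ++ t := by
  induction h with
  | refl => exact ⟨P, .refl, rfl⟩
  | tail _ h2 ih =>
    obtain ⟨P', h1, rfl⟩ := ih
    obtain ⟨p, U, U', s, hm, e, rfl⟩ := h2
    obtain ⟨u, u', hu, rfl, rfl⟩ := d_mvw hm
    obtain ⟨P1, P3, rfl, rfl, rfl⟩ := d_align hf (d_ne hl hu) e
    exact ⟨P1 ++ u' ++ P3, h1.tail ⟨P1, u, u', P3, hu, rfl, rfl⟩, by simp⟩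

theorem d_kld {P : List Γ} (h : Kld Kl P) (q t : List Bool) :
    Kld (codeKl c Kl) (q ++ c.κ P ++ t) := by
  obtain ⟨z, hz, P1, P3, rfl⟩ := h
  exact ⟨c.κ z, .inr ⟨z, hz, rfl⟩, q ++ c.κ P1, c.κ P3 ++ t, by simp⟩

theorem d_ded {P : List Γ} (h : Ded Mv Kl P) (q t : List Bool) :
    Ded (codeMv c Mv) (codeKl c Kl) (q ++ c.κ P ++ t) := by
  obtain ⟨P', h1, h2⟩ := h
  refine ⟨q ++ c.κ P' ++ t, ?_, d_kld h2 q t⟩
  clear h2
  induction h1 with
  | refl => exact .refl
  | tail _ h2 ih =>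
    obtain ⟨P1, u, u', P3, hu, rfl, rfl⟩ := h2
    exact ih.tail ⟨q ++ c.κ P1, _, _, c.κ P3 ++ t, d_mvw' hu, by simp, by simp⟩

theorem d_frame (hl : Loc Mv Kl B) {w : List Bool} (h : ¬ Kld (codeKl c Kl) w) {i : ℕ}
    (ho : Occ (codeMv c Mv) w i) : ∃ q t P, dFr c q t ∧ w = q ++ c.κ P ++ t := by
  obtain ⟨P, a, b, hP⟩ := d_parse c w fun Z hZ h1 => by
    by_contra h2
    exact h ⟨Z, .inl ⟨h1, h2⟩, hZ⟩
  obtain ⟨p, U, U', s, hm, rfl, -⟩ := ho
  obtain ⟨u, u', hu, rfl, rfl⟩ := d_mvw hm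
  obtain ⟨P1, P3, -, e2, e3⟩ := d_sync c (P := P) (p := a ++ p) (s := s ++ b) (d_ne hl hu)
    (by simpa using hP)
  obtain ⟨q, P1', rfl, h1, h2⟩ := d_suf c P1 a p e2
  obtain ⟨P3', t, rfl, h3, P4, h4⟩ := d_pre c P3 s b e3
  exact ⟨q, t, P1' ++ u ++ P3', ⟨h1, h3, h2, b, P4, h4⟩, by simp⟩

end

theorem loc_code {Γ : Type} (c : Cd Γ) {Mv : Set (List Γ × List Γ)} {Kl : Set (List Γ)} {B : ℕ}
    (h : Loc Mv Kl B) : Loc (codeMv c Mv) (codeKl c Kl) ((B + 2) * c.ℓ) := by
  have ne : ∀ z : List Γ, z ≠ [] → c.κ z ≠ [] := fun z hz h0 => by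
    obtain ⟨r, hr⟩ := c.κ_rr hz []
    rw [h0] at hr
    simp at hr
  have le : ∀ i j : ℕ, i ≤ j + B → i * c.ℓ ≤ j * c.ℓ + (B + 2) * c.ℓ := fun i j hij => by
    rw [← Nat.add_mul]
    exact Nat.mul_le_mul_right _ (by omega)
  refine ⟨?_, ?_, fun w i j hw hi hj => ?_, fun w w' i j hw hr hi hj => ?_⟩
  · rintro _ ⟨m, hm, rfl⟩
    obtain ⟨h1, h2, h3⟩ := h.mv m hm
    refine ⟨by simp only [c.length_κ, h1], ne _ h2, ?_⟩
    simp only [c.length_κ]
    exact Nat.mul_le_mul_right _ (by omega)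
  · rintro Z (⟨h1, h2⟩ | ⟨z, hz, rfl⟩)
    · exact ⟨fun h0 => h2 ⟨[], by rw [h0]; exact nil_infix⟩,
        h1.trans (Nat.mul_le_mul_right _ (by omega))⟩
    · refine ⟨ne _ (h.kl z hz).1, ?_⟩
      rw [c.length_κ]
      exact Nat.mul_le_mul_right _ (by have := (h.kl z hz).2; omega)
  · obtain ⟨q, t, P, hf, rfl⟩ := d_frame h hw hi
    obtain ⟨i', h1, rfl⟩ := d_occ h hf hi
    obtain ⟨j', h2, rfl⟩ := d_occ h hf hj
    have := le _ _ (h.h1 P i' j' (fun hk => hw (d_kld hk q t)) h1 h2)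
    omega
  · obtain ⟨q, t, P, hf, rfl⟩ := d_frame h (fun hk => hw (ded_of_kld hk)) hi
    obtain ⟨P', h0, rfl⟩ := d_rch h hf hr
    obtain ⟨i', h1, rfl⟩ := d_occ h hf hi
    obtain ⟨j', h2, rfl⟩ := d_occ h hf hj
    have h3 := h.h2 P P' i' j' (fun hk => hw (d_ded hk q t)) h0 h1 h2
    have h4 := le _ _ h3.1
    have h5 := le _ _ h3.2
    omega

end Pool.Agent.Lib.MP_038c09_al.Pi
end

-- part PiS
section

/-!
Long unmarked words next to a head vanish, and the passage from locality to closedness.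
-/

namespace Pool.Agent.Lib.MP_038c09_al.Pi

open List G0 Y

section aux

variable {F : Type} [Field F] {X Γ : Type}

theorem s_move (s : CS Γ) {u u' : List Γ} (h : MvW s.mv u u') {w : List (Bool × X)}
    (hw : shp w = s.κ u) : ∃ w' : List (Bool × X), shp w' = s.κ u' ∧ ∀ g p t,
      bw F g (p ++ (w' ++ t)) ∈ RelG F s.Rl → bw F g (p ++ (w ++ t)) ∈ RelG F s.Rl := by
  have hl : (s.κ u').length = (arg w).length := by
    have h1 : u.length = u'.length := h.elim (s.hmv _) fun h => (s.hmv _ h).symm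
    rw [length_map, ← length_map (f := Prod.fst), show map Prod.fst w = _ from hw, s.length_κ,
      s.length_κ, h1]
  have h1 : shp (zip (s.κ u') (arg w)) = s.κ u' := map_fst_zip hl.le
  have h2 : arg (zip (s.κ u') (arg w)) = arg w := map_snd_zip hl.ge
  refine ⟨_, h1, fun g p t hm => ?_⟩
  rcases h with h | h
  · have := relG_mem (F := F) (CS.Rl.move u u' _ _ h hw h1 h2.symm) g p t
    rw [Int.cast_one, one_smul] at this
    simpa using add_mem this hm
  · have := relG_mem (F := F) (CS.Rl.move u' u _ _ h h1 hw h2) g p t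
    rw [Int.cast_one, one_smul] at this
    simpa using sub_mem hm this

theorem s_split {w : List (Bool × X)} {P Z T : List Bool} (h : shp w = P ++ Z ++ T) :
    ∃ a b c, w = a ++ (b ++ c) ∧ shp a = P ∧ shp b = Z ∧ shp c = T := by
  obtain ⟨d, c, rfl, h1, h2⟩ := map_eq_append_iff.1 h
  obtain ⟨a, b, rfl, h3, h4⟩ := map_eq_append_iff.1 h1
  exact ⟨a, b, c, append_assoc _ _ _, h3, h4, h2⟩

/-- blocks given by their tails and their first arguments -/
def s_wd : List (List (Bool × X)) → List X → List (Bool × X)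
  | v :: l, a :: xs => (true, a) :: (v ++ s_wd l xs)
  | _, _ => []

/-- the tail of the block of an unmarked letter that the head can cross -/
def s_Tl (M : Mach) (v : List (Bool × X)) : Prop :=
  ∃ y, Tk y ∧ true :: shp v = (cdM M).cd (R y, false)

theorem s_dec (M : Mach) (ys : List (Y M.m)) (h : ∀ y ∈ ys, Tk y) {w : List (Bool × X)}
    (hw : shp w = (cdM M).κ (ys.map fun y => (R y, false))) :
    ∃ l xs, (∀ v ∈ l, s_Tl M v) ∧ xs.length = l.length ∧ l.length = ys.length ∧ w = s_wd l xs := by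
  induction ys generalizing w with
  | nil => exact ⟨[], [], by simp, rfl, rfl, map_eq_nil_iff.1 hw⟩
  | cons y ys ih =>
    rw [map_cons, Cd.κ_cons] at hw
    obtain ⟨a, b, rfl, h1, h2⟩ := map_eq_append_iff.1 hw
    obtain ⟨l, xs, g1, g2, g3, rfl⟩ := ih (fun y hy => h y (mem_cons_of_mem _ hy)) h2
    rw [← true_tail_cd] at h1
    obtain ⟨⟨_, x⟩, v, rfl, rfl, h3⟩ := map_eq_cons_iff.1 h1
    refine ⟨v :: l, x :: xs, forall_mem_cons.2 ⟨⟨y, h y mem_cons_self, ?_⟩, g1⟩, by simp [g2],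
      by simp [g3], rfl⟩
    rw [show shp v = _ from h3, true_tail_cd]

theorem s_step (M : Mach) (e : ℕ) {q : M.Q} {x : Fin (M.m + 1)} {μ : Bool}
    {w0 v : List (Bool × X)} (h0 : shp w0 = (cdM M).cd (H q x, μ)) (hv : s_Tl M v) (a : X) :
    ∃ v0 v1 : List (Bool × X), shp v1 = (cdM M).cd (H q x, false) ∧ ∀ g p t,
      bw F g (p ++ v0 ++ (v1 ++ t)) ∈ RelG F (csM M e).Rl →
      bw F g (p ++ (w0 ++ (true, a) :: (v ++ t))) ∈ RelG F (csM M e).Rl := by
  obtain ⟨y, hy, hv⟩ := hv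
  obtain ⟨w', h1, h2⟩ := s_move (F := F) (csM M e) (w := w0 ++ (true, a) :: v)
    (Or.inl (Or.inl (Rule.comm q x y μ false hy))) (by
      rw [shp, map_append, map_cons, show map Prod.fst w0 = _ from h0, hv, Cd.κ_cons, Cd.κ_cons,
        Cd.κ_nil, append_nil]
      rfl)
  rw [Cd.κ_cons, Cd.κ_cons, Cd.κ_nil, append_nil] at h1
  obtain ⟨v0, v1, rfl, -, h3⟩ := map_eq_append_iff.1 h1
  refine ⟨v0, v1, h3, fun g p t hm => ?_⟩
  simpa only [append_assoc, cons_append] using h2 g p t (by simpa only [append_assoc] using hm)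

theorem s_rep [CharZero F] (M : Mach) (e : ℕ) {q : M.Q} {x : Fin (M.m + 1)} (g : X × X)
    (l : List (List (Bool × X))) (hl : ∀ v ∈ l, s_Tl M v) (xs : List X)
    (hx : xs.length = l.length) (hn : ¬xs.Nodup) {μ : Bool} {w0 : List (Bool × X)}
    (h0 : shp w0 = (cdM M).cd (H q x, μ)) (p : List (Bool × X)) :
    bw F g (p ++ (w0 ++ s_wd l xs)) ∈ RelG F (csM M e).Rl := by
  induction l generalizing xs μ w0 p with
  | nil => exact absurd (length_eq_zero_iff.1 hx ▸ nodup_nil) hn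
  | cons v l ih =>
    obtain ⟨hv, hl⟩ := forall_mem_cons.1 hl
    have key : ∀ (a : X) (xs : List X), xs.length = l.length → ¬xs.Nodup →
        bw F g (p ++ (w0 ++ (true, a) :: (v ++ s_wd l xs))) ∈ RelG F (csM M e).Rl :=
      fun a xs h1 h2 => by
        obtain ⟨v0, v1, h3, h4⟩ := s_step (F := F) M e h0 hv a
        exact h4 g p _ (ih hl xs h1 h2 h3 _)
    obtain _ | ⟨a, xs⟩ := xs
    · exact absurd nodup_nil hn
    replace hx : xs.length = l.length := Nat.succ_injective hx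
    by_cases h1 : xs.Nodup
    swap
    · exact key a xs hx h1
    have ha : a ∈ xs := by
      by_contra h2
      exact hn (nodup_cons.2 ⟨h2, h1⟩)
    obtain _ | ⟨b, xs⟩ := xs
    · cases ha
    obtain _ | ⟨v', l⟩ := l
    · cases hx
    obtain ⟨y, hy, e1⟩ := hv
    obtain ⟨y', hy', e2⟩ := hl v' mem_cons_self
    have sw := relG_mem (F := F) (CS.Rl.swap (s := csM M e) _ _ _ w0 a v b v'
      ⟨q, x, μ, y, y', hy, hy', rfl⟩ h0 e1 e2) g p (s_wd l xs)
    simp only [append_assoc, cons_append, Int.cast_neg, Int.cast_one, neg_smul, one_smul,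
      sub_neg_eq_add] at sw
    rcases mem_cons.1 ha with rfl | ha
    · rw [← two_smul F] at sw
      exact (Submodule.smul_mem_iff _ two_ne_zero).1 sw
    · have := key b (a :: xs) hx fun h => (nodup_cons.1 h).1 ha
      exact (Submodule.add_mem_iff_left _ this).1 sw

end aux

theorem big_mem {F : Type} [Field F] [CharZero F] {X : Type} [Fintype X] (M : Mach) (e n : ℕ)
    (hn : Fintype.card X ≤ n) {z : List M.Γ} (hz : z ∈ bigM M n) (w : List (Bool × X))
    (hw : shp w = (csM M e).κ z) (g : X × X) (p : List (Bool × X)) :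
    bw F g (p ++ w) ∈ RelG F (csM M e).Rl := by
  obtain ⟨q, x, μ, ys, h1, h2, rfl⟩ := hz
  rw [Cd.κ_cons] at hw
  obtain ⟨w0, b, rfl, h3, h4⟩ := map_eq_append_iff.1 hw
  obtain ⟨l, xs, g1, g2, g3, rfl⟩ := s_dec M ys h2 h4
  refine s_rep M e g l g1 xs g2 (fun h => ?_) h3 p
  have := h.length_le_card
  omega

theorem ded_mem {F : Type} [Field F] {X Γ : Type} (s : CS Γ) (Big : Set (List Γ))
    (hBig : ∀ z ∈ Big, ∀ w : List (Bool × X), shp w = s.κ z → ∀ g p,
      bw F g (p ++ w) ∈ RelG F s.Rl) (w : List (Bool × X))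
    (hw : Ded (codeMv s.toCd s.allMv) (codeKl s.toCd (s.kl ∪ Big)) (shp w)) (g : X × X)
    (p : List (Bool × X)) : bw F g (p ++ w) ∈ RelG F s.Rl := by
  obtain ⟨Z', hr, z, hz, P, T, rfl⟩ := hw
  generalize hZ : shp w = Z at hr
  induction hr using Relation.ReflTransGen.head_induction_on generalizing w with
  | refl =>
    obtain ⟨a, b, c, rfl, -, rfl, -⟩ := s_split hZ
    have k : shp b ∈ codeKl s.toCd s.kl → bw F g (p ++ (a ++ (b ++ c))) ∈ RelG F s.Rl := fun h => by
      simpa using relG_mem (F := F) (CS.Rl.kill b h) g (p ++ a) c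
    rcases hz with h | ⟨u, h | h, hu⟩
    · exact k (Or.inl h)
    · exact k (Or.inr ⟨u, h, hu⟩)
    · simpa using (stable_relD _).ρ_mem c (hBig u h b hu.symm g (p ++ a))
  | head h _ ih =>
    obtain ⟨P', U, U', T', hU, rfl, rfl⟩ := h
    obtain ⟨u, u', rfl, rfl, h⟩ : ∃ u u', U = s.κ u ∧ U' = s.κ u' ∧ (MvW s.mv u u' ∨ u = u') := by
      rcases hU with ⟨⟨u, u'⟩, h, e⟩ | ⟨⟨u, u'⟩, h, e⟩ <;> obtain ⟨rfl, rfl⟩ := Prod.mk.inj e
      · refine ⟨u, u', rfl, rfl, h.imp Or.inl ?_⟩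
        rintro ⟨a, b, c, -, e⟩
        exact (Prod.mk.inj e).1.trans (Prod.mk.inj e).2.symm
      · refine ⟨u', u, rfl, rfl, h.imp Or.inr ?_⟩
        rintro ⟨a, b, c, -, e⟩
        exact (Prod.mk.inj e).2.trans (Prod.mk.inj e).1.symm
    rcases h with h | rfl
    · obtain ⟨a, b, c, rfl, rfl, hb, rfl⟩ := s_split hZ
      obtain ⟨b', h1, h2⟩ := s_move (F := F) s h hb
      have := ih (a ++ (b' ++ c)) (by rw [← h1]; simp)
      rw [← append_assoc] at this ⊢
      exact h2 g _ c this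
    · exact ih w hZ

end Pool.Agent.Lib.MP_038c09_al.Pi
end

-- part PiF1
section

/-!
For a total function, a head in a long tank is dead.
-/

namespace Pool.Agent.Lib.MP_038c09_al.Pi

open List G0 Y

/-- a long sorted list of tank letters contains a long run of units -/
theorem f1_run {m : ℕ} (N : ℕ) (ys : List (Y m)) (h : ∀ y ∈ ys, Tk y) :
    ∀ (j : Fin (m + 1)) (d c : ℕ), (j : ℕ) + d = m →
      IsChain (fun a b : Y m => a.out = b.inn) (r j :: ys) → d * (N + 1) + N ≤ c + ys.length →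
      ∃ u v y, replicate c (r j) ++ ys = u ++ (replicate N (r y) ++ v) := by
  induction ys with
  | nil =>
    intro j d c _ _ hc
    obtain ⟨k, rfl⟩ : ∃ k, c = N + k := ⟨c - N, by simp at hc; omega⟩
    exact ⟨[], replicate k (r j), j, by simp⟩
  | cons z zs ih =>
    intro j d c hj hch hc
    by_cases hN : N ≤ c
    · obtain ⟨k, rfl⟩ : ∃ k, c = N + k := ⟨c - N, by omega⟩
      exact ⟨[], replicate k (r j) ++ z :: zs, j, by
        rw [replicate_add]; simp only [append_assoc, nil_append]⟩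
    have hz := h z (by simp)
    have hzs : ∀ y ∈ zs, Tk y := fun y hy => h y (by simp [hy])
    obtain ⟨h1, h2⟩ := isChain_cons_cons.1 hch
    rw [length_cons] at hc
    cases z with
    | o => exact hz.elim
    | r i =>
      obtain rfl : j = i := Fin.ext h1
      obtain ⟨u, v, y, hy⟩ := ih hzs j d (c + 1) hj h2 (by omega)
      exact ⟨u, v, y, by rw [← hy, replicate_succ']; simp⟩
    | s i =>
      obtain rfl : j = i := Fin.ext h1
      have hlt : (j : ℕ) < m := by
        have h3 : (j : ℕ) ≠ m := fun h3 => hz (Fin.ext h3)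
        omega
      obtain ⟨d, rfl⟩ : ∃ d', d = d' + 1 := ⟨d - 1, by omega⟩
      rw [Nat.succ_mul] at hc
      obtain ⟨u, v, y, hy⟩ := ih hzs ⟨j + 1, by omega⟩ d 0 (by simp only; omega)
        (h2.imp_head (by intro _ hb; exact hb)) (by omega)
      exact ⟨replicate c (r j) ++ s j :: u, v, y, by simpa using hy⟩

theorem f1_long {m : ℕ} (N : ℕ) (ys : List (Y m)) (h : ∀ y ∈ ys, Tk y)
    (hch : IsChain (fun a b : Y m => a.out = b.inn) ys) (hl : (m + 1) * (N + 1) ≤ ys.length) :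
    ∃ u v y, ys = u ++ (replicate N (r y) ++ v) := by
  cases ys with
  | nil => simp at hl
  | cons z zs =>
    have hz := h z (by simp)
    have hle : z.out ≤ m := by
      cases z with
      | o => exact hz.elim
      | r i => exact i.is_le
      | s i =>
        have h3 : (i : ℕ) ≠ m := fun h3 => hz (Fin.ext h3)
        have := i.is_le
        simp only [out]
        omega
    obtain ⟨d, hd⟩ : ∃ d, z.out + d = m := ⟨m - z.out, by omega⟩
    have h1 : d * (N + 1) ≤ m * (N + 1) := Nat.mul_le_mul_right _ (by omega)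
    rw [length_cons, Nat.succ_mul] at hl
    obtain ⟨u, v, y, hy⟩ := f1_run N zs (fun y hy => h y (by simp [hy])) ⟨z.out, by omega⟩ d 0 hd
      (hch.imp_head (by intro _ hb; exact hb)) (by omega)
    exact ⟨z :: u, v, y, by simpa using hy⟩

variable (M : Mach) (e n : ℕ)

theorem f1_move (mk : ℕ → Bool) (p t : List M.Γ0) (q : M.Q) (x y : Fin (M.m + 1)) (k K : ℕ)
    (hk : k ≤ K) {Kl : Set (List M.Γ)}
    (h : Ded (amvM M e) Kl (mkw mk 0 ((p ++ replicate k (L (r y))) ++
      H q x :: (replicate (K - k) (R (r y)) ++ t)))) :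
    Ded (amvM M e) Kl (mkw mk 0 (p ++ H q x :: (replicate K (R (r y)) ++ t))) := by
  obtain ⟨K, rfl⟩ : ∃ K', K = k + K' := ⟨K - k, by omega⟩
  have h1 := rch_head M e mk p (replicate K (R (r y)) ++ t) q x (replicate k (r y))
    (fun z hz => by rw [(mem_replicate.1 hz).2]; trivial)
  rw [Nat.add_sub_cancel_left, append_assoc] at h
  rw [map_replicate, map_replicate] at h1
  rw [replicate_add, append_assoc]
  exact ded_of_rch h1 h

theorem f1_big (mk : ℕ → Bool) (p t : List M.Γ0) (q : M.Q) (x y : Fin (M.m + 1)) (K : ℕ)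
    (hK : n + 1 ≤ K) (h : ∀ k < n + 1, mk (p.length + 1 + k) = false) :
    Ded (amvM M e) (klM M e ∪ bigM M n)
      (mkw mk 0 (p ++ H q x :: (replicate K (R (r y)) ++ t))) := by
  obtain ⟨K, rfl⟩ : ∃ K', K = (n + 1) + K' := ⟨K - (n + 1), by omega⟩
  refine ded_of_kld ⟨_, Or.inr ⟨q, x, mk p.length, replicate (n + 1) (r y), by simp,
    fun z hz => by rw [(mem_replicate.1 hz).2]; trivial, rfl⟩, mkw mk 0 p,
    mkw mk (p.length + 1 + (n + 1)) (replicate K (R (r y)) ++ t), ?_⟩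
  have h1 : mkw mk (p.length + 1) (replicate (n + 1) (R (r y) : M.Γ0)) =
      (replicate (n + 1) (R (r y) : M.Γ0)).map fun a => (a, false) :=
    mkw_const fun k hk => h k (by simpa using hk)
  rw [replicate_add (n + 1) K, append_assoc (replicate (n + 1) _), mkw_append mk 0 p, mkw_cons,
    mkw_append mk _ (replicate (n + 1) _), zero_add, h1]
  simp

theorem f1_gap (mk : ℕ → Bool) (p t : List M.Γ0) (q : M.Q) (x y : Fin (M.m + 1)) (K j : ℕ)
    (hj : j < e + M.m + 2) (hK : j + 2 ≤ K) (h0 : mk (p.length + 1) = true)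
    (h : ∀ k < j, mk (p.length + 2 + k) = false) (h2 : mk (p.length + 2 + j) = true) :
    Ded (amvM M e) (klM M e ∪ bigM M n)
      (mkw mk 0 (p ++ H q x :: (replicate K (R (r y)) ++ t))) := by
  obtain ⟨K, rfl⟩ : ∃ K', K = (j + (K' + 1)) + 1 := ⟨K - (j + 2), by omega⟩
  refine ded_of_kld ⟨_, Or.inl (Or.inr ⟨j, q, x, y, mk p.length, hj, rfl⟩), mkw mk 0 p,
    mkw mk (p.length + 2 + j + 1) (replicate K (R (r y)) ++ t), ?_⟩
  have h1 : mkw mk (p.length + 1 + 1) (replicate j (R (r y) : M.Γ0)) =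
      (replicate j (R (r y) : M.Γ0)).map fun a => (a, false) :=
    mkw_const fun k hk => h k (by simpa using hk)
  rw [replicate_succ, replicate_add, replicate_succ, cons_append, append_assoc (replicate j _),
    mkw_append mk 0 p, mkw_cons, mkw_cons, mkw_append mk _ (replicate j _), zero_add, h1,
    cons_append, mkw_cons, length_replicate, h0, h2]
  simp [gapW]

theorem f1_spawn (mk : ℕ → Bool) (p t : List M.Γ0) (q : M.Q) (x y : Fin (M.m + 1))
    (h0 : mk (p.length + 1) = true) (h : ∀ k < e + M.m + 2, mk (p.length + 2 + k) = false) :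
    Rch (amvM M e) (mkw mk 0 (p ++ H q x :: (replicate (e + M.m + 3) (R (r y)) ++ t)))
      (mkw mk 0 ((p ++ [B q x]) ++ tank M M.q0 y (Pi.single 0 e) ++ t)) := by
  refine Relation.ReflTransGen.single ⟨mkw mk 0 p, _, _, mkw mk (p.length + 2 + (e + M.m + 2)) t,
    Or.inl (Or.inl (Or.inr ⟨q, x, y, mk p.length, rfl⟩)), ?_, ?_⟩
  · have h1 : mkw mk (p.length + 1 + 1) (replicate (e + M.m + 2) (R (r y) : M.Γ0)) =
        (replicate (e + M.m + 2) (R (r y) : M.Γ0)).map fun a => (a, false) :=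
      mkw_const fun k hk => h k (by simpa using hk)
    rw [replicate_succ, cons_append, mkw_append mk 0 p, mkw_cons, mkw_cons, mkw_append, zero_add,
      h1, h0, length_replicate]
    simp [spL]
  · have hl : (H M.q0 y :: (lay (Pi.single 0 e : Fin (M.m + 1) → ℕ)).map R :
        List M.Γ0).length = e + M.m + 2 := by
      simp [length_lay, tot_single]
    have h1 : mkw mk (p.length + 1 + 1)
        (H M.q0 y :: (lay (Pi.single 0 e : Fin (M.m + 1) → ℕ)).map R : List M.Γ0) =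
        (H M.q0 y :: (lay (Pi.single 0 e : Fin (M.m + 1) → ℕ)).map R : List M.Γ0).map
          fun a => (a, false) :=
      mkw_const fun k hk => h k (by rwa [hl] at hk)
    rw [tank, append_assoc, append_assoc, singleton_append, cons_append, mkw_append mk 0 p,
      mkw_cons, mkw_cons, mkw_append, zero_add, h1, h0, hl]
    simp [spR]

theorem f1_mark (N : ℕ)
    (hN : ∀ i ≤ n, ∀ mk, Gap mk (e + M.m + 3) i → HaltsB M mk N M.q0 (Pi.single 0 e))
    (mk : ℕ → Bool) (p t : List M.Γ0) (q : M.Q) (x y : Fin (M.m + 1)) (K : ℕ)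
    (hK : e + M.m + 3 + (n + 1) + N ≤ K) (h0 : mk (p.length + 1) = true) :
    Ded (amvM M e) (klM M e ∪ bigM M n)
      (mkw mk 0 (p ++ H q x :: (replicate K (R (r y)) ++ t))) := by
  by_cases h1 : ∃ j, j < e + M.m + 2 ∧ mk (p.length + 2 + j) = true
  · have h2 := Nat.find_spec h1
    refine f1_gap M e n mk p t q x y K (Nat.find h1) h2.1 (by omega) h0 (fun k hk => ?_) h2.2
    have := Nat.find_min h1 hk
    rw [not_and, Bool.not_eq_true] at this
    exact this (by omega)
  have h2 : ∀ k < e + M.m + 2, mk (p.length + 2 + k) = false := fun k hk => by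
    by_contra h3
    exact h1 ⟨k, hk, by simpa using h3⟩
  by_cases h3 : ∃ i, i ≤ n ∧ mk (p.length + 1 + (e + M.m + 3 + i)) = true
  · have h4 := Nat.find_spec h3
    have hg : Gap (fun a => mk ((p ++ [B q x]).length + a)) (e + M.m + 3) (Nat.find h3) := by
      simp only [length_append, length_singleton]
      refine ⟨fun a ha hb => ?_, h4.2⟩
      obtain ⟨k, rfl⟩ : ∃ k, a = e + M.m + 3 + k := ⟨a - (e + M.m + 3), by omega⟩
      have := Nat.find_min h3 (show k < Nat.find h3 by omega)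
      rw [not_and, Bool.not_eq_true] at this
      exact this (by omega)
    obtain ⟨K, rfl⟩ : ∃ K', K = (e + M.m + 3) + ((N - e) + K') :=
      ⟨K - (e + M.m + 3) - (N - e), by omega⟩
    have h5 := ded_of_halts M e mk (p ++ [B q x]) (replicate K (R (r y)) ++ t) y N
      (hN _ h4.1 _ hg)
    rw [tot_single] at h5
    rw [replicate_add (e + M.m + 3), replicate_add (N - e), append_assoc, append_assoc]
    exact ded_of_rch (f1_spawn M e mk p _ q x y h0 h2) (ded_mono Set.subset_union_left h5)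
  refine f1_move M e mk p t q x y (e + M.m + 3) K (by omega)
    (f1_big M e n mk _ t q x y _ (by omega) fun k hk => ?_)
  by_contra h4
  refine h3 ⟨k, by omega, ?_⟩
  rw [length_append, length_replicate, Bool.not_eq_false] at h4
  rw [← h4]
  congr 1
  omega

theorem f1_bound (hU : Univ M) (he : ∀ i, DomAt e i) :
    ∃ N, ∀ i ≤ n, ∀ mk, Gap mk (e + M.m + 3) i → HaltsB M mk N M.q0 (Pi.single 0 e) := by
  choose f hf using fun i => (hU e i).1 (he i)
  exact ⟨(Finset.range (n + 1)).sup f, fun i hi mk hg =>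
    (hf i mk hg).mono (Finset.le_sup (f := f) (Finset.mem_range.2 (by omega)))⟩

theorem tank_bound (M : Mach) (hU : Univ M) (e : ℕ) (he : ∀ i, DomAt e i) (n : ℕ) :
    ∃ B0 : ℕ, ∀ (mk : ℕ → Bool) (p t : List M.Γ0) (l1 r1 : List (Y M.m)) (q : M.Q)
      (x : Fin (M.m + 1)), (∀ y ∈ l1, Tk y) → (∀ y ∈ r1, Tk y) → B0 ≤ l1.length + r1.length →
      Ded (amvM M e) (klM M e ∪ bigM M n)
        (mkw mk 0 (p ++ (l1.map L ++ H q x :: (r1.map R ++ t)))) := by
  obtain ⟨N, hN⟩ := f1_bound M e n hU he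
  refine ⟨(M.m + 1) * (n + (e + M.m + 3 + (n + 1) + N) + 1), fun mk p t l1 r1 q x h1 h2 hl => ?_⟩
  refine ded_of_rch (rch_symm (rch_head M e mk p (r1.map R ++ t) q x l1 h1)) ?_
  rw [← append_assoc, ← map_append]
  rw [← length_append] at hl
  have h3 : ∀ y ∈ l1 ++ r1, Tk y := fun y hy => (mem_append.1 hy).elim (h1 y) (h2 y)
  generalize l1 ++ r1 = ys at hl h3
  by_cases hch : IsChain (fun a b : Y M.m => a.out = b.inn) ys
  · obtain ⟨u, v, y, rfl⟩ := f1_long _ ys h3 hch hl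
    rw [map_append, append_assoc]
    refine ded_of_rch (rch_head M e mk p _ q x u fun z hz => h3 z (by simp [hz])) ?_
    rw [← append_assoc, map_append, map_replicate, append_assoc (replicate _ _)]
    generalize p ++ u.map L = p'
    by_cases h4 : ∃ k, k < n + 1 ∧ mk (p'.length + 1 + k) = true
    · obtain ⟨k, hk, h4⟩ := h4
      refine f1_move M e mk p' _ q x y k _ (by omega)
        (f1_mark M e n N hN mk _ _ q x y _ (by omega) ?_)
      rw [length_append, length_replicate, ← h4]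
      congr 1
      omega
    · refine f1_big M e n mk p' _ q x y _ (by omega) fun k hk => ?_
      by_contra h5
      exact h4 ⟨k, hk, by simpa using h5⟩
  · rw [isChain_iff_forall_rel_of_append_cons_cons] at hch
    push Not at hch
    obtain ⟨a, b, u, v, rfl, hab⟩ := hch
    refine ded_of_kld ⟨_, Or.inl (Or.inl (Kill.srtR a b (mk (p.length + 1 + u.length))
      (mk (p.length + 1 + u.length + 1)) (h3 a (by simp)) (h3 b (by simp)) hab)),
      mkw mk 0 (p ++ H q x :: u.map R), mkw mk (p.length + 1 + u.length + 2) (v.map R ++ t), ?_⟩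
    simp [mkw_append, add_assoc]

end Pool.Agent.Lib.MP_038c09_al.Pi
end

-- part PiF2
section

/-!
Bounded tanks give locality.
-/

namespace Pool.Agent.Lib.MP_038c09_al.Pi

open List G0 Y

/-- a word split at a head; the left part is reversed -/
structure F2Cf (M : Mach) where
  A : List M.Γ0
  q : M.Q
  x : Fin (M.m + 1)
  C : List M.Γ0

variable {M : Mach}

/-- the word of a configuration -/
def f2_wd (c : F2Cf M) : List M.Γ0 := c.A.reverse ++ H c.q c.x :: c.C

/-- moves that do not start or remove a machine -/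
inductive F2Mv : F2Cf M → F2Cf M → Prop
  | fwd (A q x y C) : Tk y → F2Mv ⟨A, q, x, R y :: C⟩ ⟨L y :: A, q, x, C⟩
  | bwd (A q x y C) : Tk y → F2Mv ⟨L y :: A, q, x, C⟩ ⟨A, q, x, R y :: C⟩
  | st (A q q' x C) : F2Mv ⟨A, q, x, C⟩ ⟨A, q', x, C⟩
  | pull (A q q' x C) : F2Mv ⟨A, q, x, R (s (Fin.last _)) :: R (r x) :: C⟩
      ⟨A, q', x, R (r (Fin.last _)) :: R (s (Fin.last _)) :: C⟩
  | push (A q q' x C) : F2Mv ⟨A, q, x, R (r (Fin.last _)) :: R (s (Fin.last _)) :: C⟩
      ⟨A, q', x, R (s (Fin.last _)) :: R (r x) :: C⟩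
  | sh (A q q' x y1 y2 z1 z2 C) : Tk y1 → Tk y2 → Tk z1 → Tk z2 →
      F2Mv ⟨A, q, x, R y1 :: R y2 :: C⟩ ⟨A, q', x, R z1 :: R z2 :: C⟩

theorem F2Mv.symm {c c' : F2Cf M} (h : F2Mv c c') : F2Mv c' c := by
  cases h with
  | fwd A q x y C h => exact .bwd A q x y C h
  | bwd A q x y C h => exact .fwd A q x y C h
  | st A q q' x C => exact .st A q' q x C
  | pull A q q' x C => exact .push A q' q x C
  | push A q q' x C => exact .pull A q' q x C
  | sh A q q' x y1 y2 z1 z2 C a b c d => exact .sh A q' q x z1 z2 y1 y2 C c d a b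

/-- removal of the innermost machine -/
def F2Col (c c1 : F2Cf M) : Prop :=
  ∃ (l1 r1 : List (Y M.m)) (C : List M.Γ0), (∀ y ∈ l1, Tk y) ∧ (∀ y ∈ r1, Tk y) ∧
    c.A = l1.map L ++ L o :: B c1.q c1.x :: c1.A ∧ c.C = r1.map R ++ R (s (Fin.last _)) :: C ∧
    c1.C = replicate (l1.length + r1.length + 3) (R (r c.x)) ++ C

theorem f2_not_tk : ¬ Tk (s (Fin.last M.m)) := fun h => h rfl

theorem f2_tk_cast (j : Fin M.m) : Tk (s j.castSucc) := (Fin.castSucc_lt_last j).ne

theorem f2_uniq {β : Type} {f : Y M.m → β} (hf : Function.Injective f) {z z' : Y M.m}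
    (hz : ¬ Tk z) (hz' : ¬ Tk z') {X X' : List β} {l l' : List (Y M.m)} (hl : ∀ y ∈ l, Tk y)
    (hl' : ∀ y ∈ l', Tk y) (h : l.map f ++ f z :: X = l'.map f ++ f z' :: X') :
    l = l' ∧ X = X' := by
  induction l generalizing l' with
  | nil =>
    cases l' with
    | nil => exact ⟨rfl, (cons.inj h).2⟩
    | cons b l' => exact absurd (hf (cons.inj h).1 ▸ hl' b (by simp)) hz
  | cons a l ih =>
    cases l' with
    | nil => exact absurd (hf (cons.inj h).1 ▸ hl a (by simp)) hz'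
    | cons b l' =>
      obtain ⟨h1, h2⟩ := cons.inj h
      obtain ⟨h3, h4⟩ := ih (fun y hy => hl y (by simp [hy])) (fun y hy => hl' y (by simp [hy])) h2
      exact ⟨by rw [hf h1, h3], h4⟩

theorem f2_injL : Function.Injective (L : Y M.m → M.Γ0) := fun _ _ h => G0.L.inj h

theorem f2_injR : Function.Injective (R : Y M.m → M.Γ0) := fun _ _ h => G0.R.inj h

theorem F2Col.uniq {c c1 c2 : F2Cf M} (h1 : F2Col c c1) (h2 : F2Col c c2) : c1 = c2 := by
  obtain ⟨l1, r1, C, a1, a2, a3, a4, a5⟩ := h1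
  obtain ⟨l2, r2, C', b1, b2, b3, b4, b5⟩ := h2
  obtain ⟨rfl, e1⟩ := f2_uniq f2_injL (z := o) (z' := o) id id a1 b1 (a3.symm.trans b3)
  obtain ⟨rfl, rfl⟩ := f2_uniq f2_injR f2_not_tk f2_not_tk a2 b2 (a4.symm.trans b4)
  obtain ⟨A1, q1, x1, C1⟩ := c1
  obtain ⟨A2, q2, x2, C2⟩ := c2
  simp only [cons.injEq, G0.B.injEq] at e1 a5 b5
  obtain ⟨⟨rfl, rfl⟩, rfl⟩ := e1
  rw [a5, b5]

/-- the first letter of a block of tank letters followed by another letter -/
theorem f2_head {β : Type} {f : Y M.m → β} (hf : Function.Injective f) {y z : Y M.m} (hy : Tk y)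
    (hz : ¬ Tk z) {X X' : List β} {l : List (Y M.m)} (h : f y :: X = l.map f ++ f z :: X') :
    ∃ l', l = y :: l' ∧ X = l'.map f ++ f z :: X' := by
  cases l with
  | nil => exact absurd (hf (cons.inj h).1 ▸ hy) hz
  | cons b l => exact ⟨l, by rw [hf (cons.inj h).1], (cons.inj h).2⟩

theorem f2_head' {β : Type} {f : Y M.m → β} (hf : Function.Injective f) {y z : Y M.m}
    (hy : ¬ Tk y) {X X' : List β} {l : List (Y M.m)} (hl : ∀ y ∈ l, Tk y)
    (h : f y :: X = l.map f ++ f z :: X') : l = [] ∧ X = X' := by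
  cases l with
  | nil => exact ⟨rfl, (cons.inj h).2⟩
  | cons b l => exact absurd (hf (cons.inj h).1 ▸ hl b (by simp)) hy

theorem F2Col.mv {c c' c1 : F2Cf M} (h : F2Col c c1) (hm : F2Mv c c') : F2Col c' c1 := by
  obtain ⟨l1, r1, C1, a1, a2, a3, a4, a5⟩ := h
  cases hm with
  | fwd A q x y C hy =>
    obtain ⟨r2, rfl, e⟩ := f2_head f2_injR hy f2_not_tk a4
    refine ⟨y :: l1, r2, C1, forall_mem_cons.2 ⟨hy, a1⟩, (forall_mem_cons.1 a2).2, ?_, e, ?_⟩
    · exact congrArg (L y :: ·) a3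
    · rw [a5, length_cons, length_cons, add_right_comm l1.length 1]; rfl
  | bwd A q x y C hy =>
    obtain ⟨l2, rfl, e⟩ := f2_head f2_injL hy (z := o) id a3
    refine ⟨l2, y :: r1, C1, (forall_mem_cons.1 a1).2, forall_mem_cons.2 ⟨hy, a2⟩, e, ?_, ?_⟩
    · exact congrArg (R y :: ·) a4
    · rw [a5, length_cons, length_cons, add_right_comm l2.length 1]; rfl
  | st A q q' x C => exact ⟨l1, r1, C1, a1, a2, a3, a4, a5⟩
  | pull A q q' x C =>
    obtain ⟨rfl, rfl⟩ := f2_head' f2_injR f2_not_tk a2 a4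
    refine ⟨l1, [r (Fin.last _)], C, a1, by simp [Tk], a3, rfl, ?_⟩
    rw [a5, show l1.length + [r (Fin.last M.m)].length + 3 =
      (l1.length + ([] : List (Y M.m)).length + 3) + 1 from rfl,
      replicate_succ' (n := l1.length + ([] : List (Y M.m)).length + 3), append_assoc]
    rfl
  | push A q q' x C =>
    obtain ⟨r2, rfl, e⟩ := f2_head f2_injR (y := r _) trivial f2_not_tk a4
    obtain ⟨rfl, rfl⟩ := f2_head' f2_injR f2_not_tk (forall_mem_cons.1 a2).2 e
    refine ⟨l1, [], R (r x) :: C, a1, by simp, a3, rfl, ?_⟩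
    rw [a5, show l1.length + [r (Fin.last M.m)].length + 3 =
      (l1.length + ([] : List (Y M.m)).length + 3) + 1 from rfl,
      replicate_succ' (n := l1.length + ([] : List (Y M.m)).length + 3), append_assoc]
    rfl
  | sh A q q' x y1 y2 z1 z2 C h1 h2 h3 h4 =>
    obtain ⟨r2, rfl, e⟩ := f2_head f2_injR h1 f2_not_tk a4
    obtain ⟨r3, rfl, e'⟩ := f2_head f2_injR h2 f2_not_tk e
    refine ⟨l1, z1 :: z2 :: r3, C1, a1, forall_mem_cons.2 ⟨h3, forall_mem_cons.2
      ⟨h4, (forall_mem_cons.1 (forall_mem_cons.1 a2).2).2⟩⟩, a3, ?_, a5⟩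
    exact congrArg (fun X => R z1 :: R z2 :: X) e'

/-- the left part is `A0` preceded by tank letters -/
def F2Base (A A0 : List M.Γ0) : Prop :=
  ∃ l1 : List (Y M.m), (∀ y ∈ l1, Tk y) ∧ A = l1.map L ++ A0

theorem f2_exists_base (A : List M.Γ0) :
    ∃ A0, F2Base A A0 ∧ ∀ y A1, A0 = L y :: A1 → ¬ Tk y := by
  induction A with
  | nil => exact ⟨[], ⟨[], by simp, rfl⟩, by simp⟩
  | cons a A ih =>
    by_cases h : ∃ y, a = L y ∧ Tk y
    · obtain ⟨y, rfl, hy⟩ := h
      obtain ⟨A0, ⟨l1, h1, rfl⟩, h2⟩ := ih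
      exact ⟨A0, ⟨y :: l1, forall_mem_cons.2 ⟨hy, h1⟩, rfl⟩, h2⟩
    · exact ⟨a :: A, ⟨[], by simp, rfl⟩, fun y A1 e hy => h ⟨y, (cons.inj e).1, hy⟩⟩

theorem F2Base.mv {c c' : F2Cf M} {A0 : List M.Γ0} (h0 : ∀ y A1, A0 = L y :: A1 → ¬ Tk y)
    (h : F2Base c.A A0) (hm : F2Mv c c') : F2Base c'.A A0 := by
  cases hm with
  | fwd A q x y C hy =>
    obtain ⟨l1, h1, e⟩ := h
    exact ⟨y :: l1, forall_mem_cons.2 ⟨hy, h1⟩, congrArg (L y :: ·) e⟩
  | bwd A q x y C hy =>
    obtain ⟨l1, h1, e⟩ := h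
    cases l1 with
    | nil => exact absurd hy (h0 y A e.symm)
    | cons b l1 => exact ⟨l1, (forall_mem_cons.1 h1).2, (cons.inj e).2⟩
  | _ => exact h

/-- the number of frozen heads -/
def f2_nb : List M.Γ0 → ℕ
  | [] => 0
  | B _ _ :: A => f2_nb A + 1
  | L _ :: A => f2_nb A
  | R _ :: A => f2_nb A
  | H _ _ :: A => f2_nb A

theorem f2_nb_map (l : List (Y M.m)) (A : List M.Γ0) : f2_nb (l.map L ++ A) = f2_nb A := by
  induction l with
  | nil => rfl
  | cons a l ih => exact ih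

theorem F2Base.nb {A A0 : List M.Γ0} (h : F2Base A A0) : f2_nb A = f2_nb A0 := by
  obtain ⟨l1, -, rfl⟩ := h
  exact f2_nb_map _ _

theorem F2Col.nb {c c1 : F2Cf M} (h : F2Col c c1) : f2_nb c.A = f2_nb c1.A + 1 := by
  obtain ⟨l1, r1, C1, -, -, a3, -⟩ := h
  rw [a3, f2_nb_map]
  rfl

/-- the tank letters right of the head reach position `b` -/
def F2Ext (c : F2Cf M) (b : ℕ) : Prop :=
  ∃ (r1 : List (Y M.m)) (C : List M.Γ0), (∀ y ∈ r1, Tk y) ∧ c.C = r1.map R ++ C ∧
    b ≤ c.A.length + r1.length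

theorem f2_len_le {z : Y M.m} (hz : ¬ Tk z) {X X' : List M.Γ0} {l l' : List (Y M.m)}
    (hl : ∀ y ∈ l, Tk y) (h : l.map R ++ X = l'.map R ++ R z :: X') : l.length ≤ l'.length := by
  induction l generalizing l' with
  | nil => exact Nat.zero_le _
  | cons a l ih =>
    obtain ⟨l2, rfl, e⟩ := f2_head f2_injR (hl a (by simp)) hz h
    exact Nat.succ_le_succ (ih (forall_mem_cons.1 hl).2 e)

theorem F2Col.ext {c c1 : F2Cf M} (h : F2Col c c1) {b : ℕ} (hb : F2Ext c b) : F2Ext c1 b := by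
  obtain ⟨l1, r1, C1, -, -, a3, a4, a5⟩ := h
  obtain ⟨r2, C2, b1, b2, b3⟩ := hb
  have := f2_len_le f2_not_tk b1 (b2.symm.trans a4)
  refine ⟨replicate (l1.length + r1.length + 3) (r c.x), C1, fun y hy => ?_, by simpa using a5, ?_⟩
  · rw [(mem_replicate.1 hy).2]; trivial
  · rw [a3] at b3
    simp only [length_append, length_map, length_cons, length_replicate] at b3 ⊢
    omega

theorem F2Col.len {c c1 : F2Cf M} (h : F2Col c c1) : c1.A.length ≤ c.A.length := by
  obtain ⟨l1, r1, C1, -, -, a3, -⟩ := h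
  rw [a3]
  simp only [length_append, length_map, length_cons]
  omega

theorem f2_chain {c c1 : F2Cf M} (h : Relation.ReflTransGen F2Col c c1) :
    c1.A.length ≤ c.A.length ∧ F2Ext c1 c.A.length := by
  induction h with
  | refl => exact ⟨le_rfl, [], c.C, by simp, rfl, le_rfl⟩
  | tail _ h2 ih => exact ⟨h2.len.trans ih.1, h2.ext ih.2⟩

/-- every rule acts at a head -/
theorem f2_rule {e : ℕ} {u u' : List M.Γ} (h : (u, u') ∈ amvM M e) (p t : List M.Γ) :
    ∃ c c' : F2Cf M, (p ++ u ++ t).map Prod.fst = f2_wd c ∧ (p ++ u' ++ t).map Prod.fst = f2_wd c' ∧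
      (F2Mv c c' ∨ F2Col c' c) ∧ p.length ≤ c.A.length ∧ c.A.length ≤ p.length + 2 ∧
      p.length ≤ c'.A.length ∧ c'.A.length ≤ p.length + 2 := by
  rcases h with (h | ⟨q, x, y, μ, h⟩) | ⟨a, b, c, ⟨q, x, μ, y, y', -, -, h⟩, h'⟩
  · cases h with
    | comm q x y μ ν hy =>
      exact ⟨_, _, by simp [f2_wd], by simp [f2_wd],
        .inl (.fwd (p.map Prod.fst).reverse q x y (t.map Prod.fst) hy), by simp⟩
    | pull q q1 q2 x μ ν ξ _ =>
      exact ⟨_, _, by simp [f2_wd], by simp [f2_wd],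
        .inl (.pull (p.map Prod.fst).reverse q (if ξ then q2 else q1) x (t.map Prod.fst)), by simp⟩
    | push q q1 q2 x μ ν ξ _ =>
      exact ⟨_, _, by simp [f2_wd], by simp [f2_wd],
        .inl (.push (p.map Prod.fst).reverse q q1 x (t.map Prod.fst)), by simp⟩
    | push0 q q1 q2 x μ ν ξ _ =>
      exact ⟨_, _, by simp [f2_wd], by simp [f2_wd],
        .inl (.st (L (opn (Fin.last _)) :: (p.map Prod.fst).reverse) q q2 x
          (R (s (Fin.last _)) :: t.map Prod.fst)), by simp⟩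
    | shl q j q1 x μ ν ξ _ =>
      exact ⟨_, _, by simp [f2_wd], by simp [f2_wd],
        .inl (.sh (p.map Prod.fst).reverse q q1 x (s j.castSucc) (r j.succ) (r j.castSucc)
          (s j.castSucc) (t.map Prod.fst) (f2_tk_cast j) trivial trivial (f2_tk_cast j)), by simp⟩
    | shr q j q1 q2 x μ ν ξ _ =>
      exact ⟨_, _, by simp [f2_wd], by simp [f2_wd],
        .inl (.sh (p.map Prod.fst).reverse q q1 x (r j.castSucc) (s j.castSucc) (s j.castSucc)
          (r j.succ) (t.map Prod.fst) trivial (f2_tk_cast j) (f2_tk_cast j) trivial), by simp⟩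
    | shr0 q j q1 q2 x μ ν ξ _ =>
      exact ⟨_, _, by simp [f2_wd], by simp [f2_wd],
        .inl (.st (L (opn j.castSucc) :: (p.map Prod.fst).reverse) q q2 x
          (R (s j.castSucc) :: t.map Prod.fst)), by simp⟩
  · obtain ⟨rfl, rfl⟩ := Prod.mk.inj h
    refine ⟨⟨(p.map Prod.fst).reverse, q, x,
        replicate (e + M.m + 3) (R (r y)) ++ t.map Prod.fst⟩,
      ⟨L o :: B q x :: (p.map Prod.fst).reverse, M.q0, y,
        (lay (Pi.single 0 e : Fin (M.m + 1) → ℕ)).map R ++ t.map Prod.fst⟩,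
      by simp [f2_wd, spL, replicate_succ], by simp [f2_wd, spR, Function.comp_def], .inr ?_,
      by simp; omega⟩
    refine ⟨[], (lay (Pi.single 0 e : Fin (M.m + 1) → ℕ)).dropLast, t.map Prod.fst, by simp,
      fun z hz => tk_dropLast_lay hz, rfl, ?_, ?_⟩
    · conv_lhs => rw [lay_eq_dropLast]
      simp
    · simp [length_lay, tot_single]
  · obtain ⟨rfl, rfl⟩ := Prod.mk.inj h'
    simp only [Prod.mk.injEq] at h
    obtain ⟨rfl, rfl, rfl⟩ := h
    exact ⟨_, _, by simp [f2_wd], by simp [f2_wd],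
      .inl (.st (p.map Prod.fst).reverse q q x (R y :: R y' :: t.map Prod.fst)), by simp⟩

theorem f2_stp {e : ℕ} {W W' : List M.Γ} (h : Stp (amvM M e) W W') :
    ∃ c c' : F2Cf M, W.map Prod.fst = f2_wd c ∧ W'.map Prod.fst = f2_wd c' ∧
      (F2Mv c c' ∨ F2Col c' c ∨ F2Col c c') := by
  obtain ⟨p, u, u', t, h | h, rfl, rfl⟩ := h
  · obtain ⟨c, c', h1, h2, h3, -⟩ := f2_rule h p t
    exact ⟨c, c', h1, h2, h3.imp_right .inl⟩
  · obtain ⟨c, c', h1, h2, h3, -⟩ := f2_rule h p t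
    exact ⟨c', c, h2, h1, h3.imp F2Mv.symm .inr⟩

theorem f2_occ {e : ℕ} {W : List M.Γ} {i : ℕ} (h : Occ (amvM M e) W i) :
    ∃ c : F2Cf M, W.map Prod.fst = f2_wd c ∧ i ≤ c.A.length ∧ c.A.length ≤ i + 2 := by
  obtain ⟨p, u, u', t, h | h, rfl, rfl⟩ := h
  · obtain ⟨c, c', h1, -, -, h2, h3, -⟩ := f2_rule h p t
    exact ⟨c, h1, h2, h3⟩
  · obtain ⟨c, c', -, h1, -, -, -, h2, h3⟩ := f2_rule h p t
    exact ⟨c', h1, h2, h3⟩

theorem f2_right {Kl : Set (List M.Γ)} (hK : ∀ z, Kill M z → z ∈ Kl) (C : List M.Γ) :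
    ∀ (A : List M.Γ) (a : M.Γ), ¬ Kld Kl (A ++ a :: C) → ¬ a.1.isL → ∀ b ∈ C, b.1.isR := by
  induction C with
  | nil => simp
  | cons b C ih =>
    intro A a h ha
    have hb : b.1.isR := by
      by_contra hb
      exact h ⟨_, hK _ (.ord a.1 b.1 a.2 b.2 ha hb), A, C, by simp⟩
    refine forall_mem_cons.2 ⟨hb, ih (A ++ [a]) b (by simpa using h) ?_⟩
    obtain ⟨b, ν⟩ := b
    cases b <;> simp_all [isL, isR]

theorem f2_allR {Kl : Set (List M.Γ)} (hK : ∀ z, Kill M z → z ∈ Kl) {W : List M.Γ}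
    (h : ¬ Kld Kl W) {c : F2Cf M} (hc : W.map Prod.fst = f2_wd c) : ∀ b ∈ c.C, b.isR := by
  obtain ⟨A, W2, rfl, -, h2⟩ := map_eq_append_iff.1 hc
  obtain ⟨a, C, rfl, ha, hC⟩ := map_eq_cons_iff.1 h2
  intro b hb
  rw [← hC] at hb
  obtain ⟨b', hb', rfl⟩ := mem_map.1 hb
  exact f2_right hK C A a h (by rw [ha]; exact id) b' hb'

/-- a word without forbidden factors has at most one head -/
theorem f2_one {Kl : Set (List M.Γ)} (hK : ∀ z, Kill M z → z ∈ Kl) {W : List M.Γ}
    (h : ¬ Kld Kl W) {c c' : F2Cf M} (hc : W.map Prod.fst = f2_wd c)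
    (hc' : W.map Prod.fst = f2_wd c') : c = c' := by
  have h1 := f2_allR hK h hc
  have h2 := f2_allR hK h hc'
  obtain ⟨A, q, x, C⟩ := c
  obtain ⟨A', q', x', C'⟩ := c'
  have e := hc.symm.trans hc'
  simp only [f2_wd] at e h1 h2
  have key : A.reverse = A'.reverse := by
    rcases append_eq_append_iff.1 e with ⟨a, e1, e2⟩ | ⟨a, e1, e2⟩
    · cases a with
      | nil => simpa using e1.symm
      | cons b a => exact absurd (h1 (H q' x') (by rw [(cons.inj e2).2]; simp)) id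
    · cases a with
      | nil => simpa using e1
      | cons b a => exact absurd (h2 (H q x) (by rw [(cons.inj e2).2]; simp)) id
  rw [key, append_cancel_left_eq] at e
  simp only [cons.injEq, G0.H.injEq] at e
  obtain ⟨⟨rfl, rfl⟩, rfl⟩ := e
  rw [reverse_injective key]

/-- the heads of a living class stay in a window -/
theorem f2_window {e B0 : ℕ} {Kl : Set (List M.Γ)} (hK : ∀ z, Kill M z → z ∈ Kl)
    (hB : ∀ (mk : ℕ → Bool) (p t : List M.Γ0) (l1 r1 : List (Y M.m)) (q : M.Q)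
      (x : Fin (M.m + 1)), (∀ y ∈ l1, Tk y) → (∀ y ∈ r1, Tk y) → B0 ≤ l1.length + r1.length →
      Ded (amvM M e) Kl (mkw mk 0 (p ++ (l1.map L ++ H q x :: (r1.map R ++ t)))))
    {w : List M.Γ} (hw : ¬ Ded (amvM M e) Kl w) {c0 : F2Cf M} (h0 : w.map Prod.fst = f2_wd c0) :
    ∃ a, ∀ W (c : F2Cf M), Rch (amvM M e) w W → W.map Prod.fst = f2_wd c →
      a ≤ c.A.length ∧ c.A.length ≤ a + B0 := by
  classical
  have hex : ∃ k, ∃ W, ∃ c : F2Cf M, Rch (amvM M e) w W ∧ W.map Prod.fst = f2_wd c ∧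
      f2_nb c.A = k := ⟨_, w, c0, .refl, h0, rfl⟩
  obtain ⟨W0, c1, r0, e0, k0⟩ := Nat.find_spec hex
  have hmin : ∀ W (c : F2Cf M), Rch (amvM M e) w W → W.map Prod.fst = f2_wd c →
      f2_nb c1.A ≤ f2_nb c.A := fun W c a b => k0 ▸ Nat.find_min' hex ⟨W, c, a, b, rfl⟩
  obtain ⟨A0, hA0, hmax⟩ := f2_exists_base c1.A
  have alive : ∀ W, Rch (amvM M e) w W → ¬ Kld Kl W := fun W a b => hw ⟨W, a, b⟩
  have inv : ∀ W, Rch (amvM M e) W0 W → ∀ c : F2Cf M, W.map Prod.fst = f2_wd c →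
      ∃ U, ∃ cu : F2Cf M, Rch (amvM M e) w U ∧ U.map Prod.fst = f2_wd cu ∧ F2Base cu.A A0 ∧
        Relation.ReflTransGen F2Col c cu := by
    intro W hW
    induction hW with
    | refl =>
      intro c hc
      obtain rfl := f2_one hK (alive _ r0) hc e0
      exact ⟨W0, c, r0, hc, hA0, .refl⟩
    | @tail W W' h1 h2 ih =>
      intro c' hc'
      have r1 : Rch (amvM M e) w W' := (r0.trans h1).tail h2
      obtain ⟨c, c2, a1, a2, a3⟩ := f2_stp h2
      obtain rfl := f2_one hK (alive _ r1) hc' a2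
      obtain ⟨U, cu, b1, b2, b3, b4⟩ := ih c a1
      rcases a3 with a3 | a3 | a3
      · rcases b4.cases_head with rfl | ⟨c3, b5, b6⟩
        · exact ⟨W', c', r1, hc', b3.mv hmax a3, .refl⟩
        · exact ⟨U, cu, b1, b2, b3, .head (b5.mv a3) b6⟩
      · exact ⟨U, cu, b1, b2, b3, .head a3 b4⟩
      · rcases b4.cases_head with rfl | ⟨c3, b5, b6⟩
        · have := hmin W' c' r1 hc'
          have := a3.nb
          have := b3.nb
          have := hA0.nb
          omega
        · obtain rfl := a3.uniq b5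
          exact ⟨U, cu, b1, b2, b3, b6⟩
  refine ⟨A0.length, fun W c hW hc => ?_⟩
  obtain ⟨U, cu, b1, b2, ⟨l1, b3, b4⟩, b5⟩ := inv W ((rch_symm r0).trans hW) c hc
  obtain ⟨d1, r1, C, d2, d3, d4⟩ := f2_chain b5
  rw [b4, length_append, length_map] at d1 d4
  refine ⟨by omega, ?_⟩
  by_contra hlt
  obtain ⟨mk, hmk⟩ := exists_mkw U
  refine hw (ded_of_rch b1 ?_)
  have := hB mk A0.reverse C l1.reverse r1 cu.q cu.x (fun y hy => b3 y (mem_reverse.1 hy)) d2
    (by rw [length_reverse]; omega)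
  rw [hmk, b2, f2_wd, b4, d3]
  simpa using this

theorem loc_of_tank (M : Mach) (e n B0 : ℕ)
    (hB : ∀ (mk : ℕ → Bool) (p t : List M.Γ0) (l1 r1 : List (Y M.m)) (q : M.Q)
      (x : Fin (M.m + 1)), (∀ y ∈ l1, Tk y) → (∀ y ∈ r1, Tk y) → B0 ≤ l1.length + r1.length →
      Ded (amvM M e) (klM M e ∪ bigM M n)
        (mkw mk 0 (p ++ (l1.map L ++ H q x :: (r1.map R ++ t))))) :
    ∃ B, Loc (amvM M e) (klM M e ∪ bigM M n) B := by
  have hK : ∀ z, Kill M z → z ∈ klM M e ∪ bigM M n := fun z hz => .inl (.inl hz)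
  refine ⟨B0 + e + M.m + n + 6, ?_, ?_, ?_, ?_⟩
  · rintro ⟨u, u'⟩ (h | ⟨a, b, c, -, h⟩)
    · refine ⟨mvM_len M e _ h, ?_⟩
      rcases h with h | ⟨q, x, y, μ, h⟩
      · cases h <;> simp
      · obtain ⟨rfl, rfl⟩ := Prod.mk.inj h
        simp [spL]
        omega
    · obtain ⟨rfl, rfl⟩ := Prod.mk.inj h
      simp
  · rintro z ((h | ⟨j, q, x, y, μ, hj, rfl⟩) | ⟨q, x, μ, ys, h, -, rfl⟩)
    · cases h <;> simp
    · simp [gapW]
      omega
    · simp [h]
      omega
  · intro w i j hw hi hj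
    obtain ⟨c, h1, h2, h3⟩ := f2_occ hi
    obtain ⟨c', h4, h5, h6⟩ := f2_occ hj
    obtain rfl := f2_one hK hw h1 h4
    omega
  · intro w w' i j hw hr hi hj
    obtain ⟨c, h1, h2, h3⟩ := f2_occ hi
    obtain ⟨c', h4, h5, h6⟩ := f2_occ hj
    obtain ⟨a, ha⟩ := f2_window hK hB hw h1
    have := ha w c .refl h1
    have := ha w' c' hr h4
    omega

end Pool.Agent.Lib.MP_038c09_al.Pi
end
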