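import Pool.Agent.Lib.MP_038c09_al.Pi1

-- part PiG1
section

/-!
The good words form an invariant family: moves.
-/

namespace Pool.Agent.Lib.MP_038c09_al.Pi

open List G0 Y

section lists

theorem g_mkw_of_snd {β : Type} {mk : ℕ → Bool} {W : List (β × Bool)} :
    ∀ {i : ℕ} {P : List β}, W.map Prod.snd = (mkw mk i P).map Prod.snd →
      W = mkw mk i (W.map Prod.fst) := by
  induction W with
  | nil => intro i P _; rfl
  | cons a W ih =>
    intro i P h
    cases P with
    | nil => simp at h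
    | cons b P =>
      simp only [map_cons, mkw_cons, cons.injEq] at h ⊢
      exact ⟨by rw [← h.1], ih h.2⟩

theorem g_first {β : Type} {a : β} {A A' C C' : List β} (h : A ++ a :: C = A' ++ a :: C')
    (h1 : a ∉ A) (h2 : a ∉ A') : A = A' ∧ C = C' := by
  rcases append_eq_append_iff.1 h with ⟨b, rfl, h3⟩ | ⟨b, rfl, h3⟩
  · cases b with
    | nil => simpa using h3
    | cons b0 b =>
      obtain ⟨rfl, -⟩ := cons.inj h3
      exact absurd (by simp) h2
  · cases b with
    | nil => simpa using h3.symm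
    | cons b0 b =>
      obtain ⟨rfl, -⟩ := cons.inj h3
      exact absurd (by simp) h1

variable {m : ℕ} {Q : Type}

theorem g_head {A C A' C' : List (G0 m Q)} {q q' : Q} {x x' : Fin (m + 1)}
    (hA : ∀ a ∈ A, a.isL) (hC : ∀ a ∈ C, a.isR) (h : A ++ H q x :: C = A' ++ H q' x' :: C') :
    A = A' ∧ q = q' ∧ x = x' ∧ C = C' := by
  have k1 : H q' x' ∉ A := fun h => hA _ h
  have k2 : H q' x' ∉ C := fun h => hC _ h
  obtain ⟨h1, h2, h3⟩ := (append_cons_inj_of_notMem k1 k2).1 h
  cases h2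
  exact ⟨h1, rfl, rfl, h3⟩

theorem g_lay_ne (n : Fin (m + 1) → ℕ) : lay n ≠ [] := by
  rw [lay_last]
  simp

theorem g_inc_r {n : Fin (m + 1) → ℕ} {l1 l2 : List (Y m)} {j : Fin (m + 1)}
    (h : lay n = l1 ++ s j :: l2) : lay (inc n j) = l1 ++ r j :: s j :: l2 := by
  obtain ⟨rfl, rfl⟩ := lay_eq_s h
  rw [lay_split _ j, inc_self, pre_congr (n := inc n j) (n' := n) fun i hi => inc_of_ne n hi.ne,
    post_congr (n := inc n j) (n' := n) fun i hi => inc_of_ne n hi.ne', replicate_succ']
  simp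

theorem g_dec_r {n : Fin (m + 1) → ℕ} {l1 l2 : List (Y m)} {j : Fin (m + 1)}
    (h : lay n = l1 ++ r j :: s j :: l2) : ∃ n', n = inc n' j ∧ lay n' = l1 ++ s j :: l2 := by
  have h1 := lay_eq_s (l1 := l1 ++ [r j]) (l2 := l2) (j := j) (n := n) (by simpa using h)
  have h2 : n j ≠ 0 := by
    intro h0
    have h3 : r j ∈ pre n j := by
      have h4 := h1.1
      rw [h0, replicate_zero, append_nil] at h4
      exact h4 ▸ by simp
    obtain ⟨i, hi, h4 | h4⟩ := mem_pre h3
    · cases h4
      exact lt_irrefl _ hi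
    · cases h4
  obtain ⟨n', rfl⟩ := exists_inc h2
  refine ⟨n', rfl, ?_⟩
  have h3 := g_inc_r (l1 := pre n' j ++ replicate (n' j) (r j)) (l2 := post n' j) (n := n') (j := j)
    (by rw [lay_split n' j]; simp)
  have h4 := lay_eq_s (l1 := pre n' j ++ replicate (n' j) (r j) ++ [r j]) (l2 := post n' j)
    (j := j) (n := inc n' j) (by simpa using h3)
  have h5 := append_cancel_right (h1.1.trans h4.1.symm)
  rw [h5, h1.2, ← h4.2, lay_split n' j]
  simp

theorem g_inc_l {n : Fin (m + 1) → ℕ} {l1 l2 : List (Y m)} {j : Fin m}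
    (h : lay n = l1 ++ s j.castSucc :: l2) :
    lay (inc n j.succ) = l1 ++ s j.castSucc :: r j.succ :: l2 := by
  obtain ⟨rfl, rfl⟩ := lay_eq_s h
  rw [lay_split _ j.castSucc, inc_of_ne n j.castSucc_lt_succ.ne,
    pre_congr (n := inc n j.succ) (n' := n) fun i hi =>
      inc_of_ne n (hi.trans j.castSucc_lt_succ).ne, post_castSucc, post_castSucc, inc_self,
    post_congr (n := inc n j.succ) (n' := n) fun i hi => inc_of_ne n hi.ne', replicate_succ]
  simp

theorem g_dec_l {n : Fin (m + 1) → ℕ} {l1 l2 : List (Y m)} {j : Fin m}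
    (h : lay n = l1 ++ s j.castSucc :: r j.succ :: l2) :
    ∃ n', n = inc n' j.succ ∧ lay n' = l1 ++ s j.castSucc :: l2 := by
  have h1 := lay_eq_s h
  have h2 : n j.succ ≠ 0 := by
    intro h0
    have h3 := h1.2
    rw [post_castSucc, h0] at h3
    simp at h3
  obtain ⟨n', rfl⟩ := exists_inc h2
  refine ⟨n', rfl, ?_⟩
  have h3 := g_inc_l (l1 := pre n' j.castSucc ++ replicate (n' j.castSucc) (r j.castSucc))
    (l2 := post n' j.castSucc) (n := n') (j := j) (by rw [lay_split n' j.castSucc]; simp)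
  have h4 := lay_eq_s h3
  have h5 := (cons.inj (h1.2.trans h4.2.symm)).2
  rw [h1.1, ← h4.1, h5, lay_split n' j.castSucc]
  simp

variable {n : Fin (m + 1) → ℕ} {l1 r1 : List (Y m)} {t0 c : List (G0 m Q)}

theorem g_cons (hr : r1 ≠ []) {y : Y m} (hc : r1.map R ++ t0 = R y :: c) :
    ∃ r2, r1 = y :: r2 ∧ c = r2.map R ++ t0 := by
  cases r1 with
  | nil => exact absurd rfl hr
  | cons z r2 =>
    simp only [map_cons, cons_append, cons.injEq, R.injEq] at hc
    exact ⟨r2, by rw [hc.1], hc.2.symm⟩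

theorem g_tk {y : Y m} {r2 : List (Y m)} (h : lay n = l1 ++ y :: r2) (hy : Tk y) : r2 ≠ [] := by
  rintro rfl
  rw [lay_last] at h
  obtain rfl : s (Fin.last m) = y := by simpa using (append_inj' h rfl).2
  exact hy rfl

theorem g_snoc {p0 a : List (G0 m Q)} {y : Y m} (h : p0 ++ L o :: l1.map L = a ++ [L y]) :
    (y = o ∧ l1 = [] ∧ a = p0) ∨ ∃ l2, l1 = l2 ++ [y] ∧ a = p0 ++ L o :: l2.map L := by
  rcases eq_nil_or_concat' l1 with rfl | ⟨l2, z, rfl⟩
  · obtain ⟨h1, h2⟩ := append_inj' h rfl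
    exact Or.inl ⟨by simpa using h2.symm, rfl, h1.symm⟩
  · have h1 : (p0 ++ L o :: l2.map L) ++ [L z] = a ++ [L y] := by simpa using h
    obtain ⟨h2, h3⟩ := append_inj' h1 rfl
    obtain rfl : z = y := by simpa using h3
    exact Or.inr ⟨l2, rfl, h2.symm⟩

theorem g_pull (h : lay n = l1 ++ r1) (hr : r1 ≠ []) {z : G0 m Q}
    (hc : r1.map R ++ t0 = R (s (Fin.last m)) :: z :: c) :
    t0 = z :: c ∧ lay (inc n (Fin.last m)) = l1 ++ [r (Fin.last m), s (Fin.last m)] ∧
      l1.length = tot n + m := by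
  obtain ⟨r2, rfl, h1⟩ := g_cons hr hc
  obtain rfl : r2 = [] := by simpa using (lay_eq_s h).2
  refine ⟨by simpa using h1.symm, g_inc_r h, ?_⟩
  have h2 := length_lay n
  rw [h] at h2
  simpa using h2

theorem g_push (h : lay n = l1 ++ r1) (hr : r1 ≠ [])
    (hc : r1.map R ++ t0 = R (r (Fin.last m)) :: R (s (Fin.last m)) :: c) :
    t0 = c ∧ ∃ n', n = inc n' (Fin.last m) ∧ lay n' = l1 ++ [s (Fin.last m)] ∧
      l1.length = tot n' + m := by
  obtain ⟨r2, rfl, h1⟩ := g_cons hr hc
  obtain ⟨r3, rfl, h2⟩ := g_cons (g_tk h trivial) h1.symm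
  obtain ⟨n', rfl, h3⟩ := g_dec_r h
  obtain rfl : r3 = [] := by simpa using (lay_eq_s h3).2
  refine ⟨by simpa using h2.symm, n', rfl, h3, ?_⟩
  have h4 := length_lay n'
  rw [h3] at h4
  simpa using h4

theorem g_shl (h : lay n = l1 ++ r1) (hr : r1 ≠ []) {j : Fin m}
    (hc : r1.map R ++ t0 = R (s j.castSucc) :: R (r j.succ) :: c) :
    ∃ n0 r2, n = inc n0 j.succ ∧ c = r2.map R ++ t0 ∧
      lay (inc n0 j.castSucc) = l1 ++ r j.castSucc :: s j.castSucc :: r2 := by
  obtain ⟨r2, rfl, h1⟩ := g_cons hr hc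
  obtain ⟨r3, rfl, h2⟩ := g_cons (g_tk h j.castSucc_ne_last) h1.symm
  obtain ⟨n', rfl, h3⟩ := g_dec_l h
  exact ⟨n', r3, rfl, h2, g_inc_r h3⟩

theorem g_shr (h : lay n = l1 ++ r1) (hr : r1 ≠ []) {j : Fin m}
    (hc : r1.map R ++ t0 = R (r j.castSucc) :: R (s j.castSucc) :: c) :
    ∃ n0 r2, n = inc n0 j.castSucc ∧ c = r2.map R ++ t0 ∧
      lay (inc n0 j.succ) = l1 ++ s j.castSucc :: r j.succ :: r2 := by
  obtain ⟨r2, rfl, h1⟩ := g_cons hr hc
  obtain ⟨r3, rfl, h2⟩ := g_cons (g_tk h trivial) h1.symm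
  obtain ⟨n', rfl, h3⟩ := g_dec_r h
  exact ⟨n', r3, rfl, h2, g_inc_l h3⟩

theorem g_zero (h : lay n = l1 ++ r1) (hr : r1 ≠ []) {p0 a : List (G0 m Q)} {j : Fin (m + 1)}
    (ha : p0 ++ L o :: l1.map L = a ++ [L (opn j)]) (hc : r1.map R ++ t0 = R (s j) :: c) :
    n j = 0 := by
  obtain ⟨r2, rfl, -⟩ := g_cons hr hc
  have h1 := (lay_eq_s h).1
  by_contra h0
  obtain ⟨k, hk⟩ := Nat.exists_eq_succ_of_ne_zero h0
  rw [hk, replicate_succ', ← append_assoc] at h1
  rcases g_snoc ha with ⟨-, h2, -⟩ | ⟨l2, h2, -⟩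
  · rw [h2] at h1
    simp at h1
  · have h3 := (append_inj' (h2.symm.trans h1) rfl).2
    exact opn_ne_r j j (by simpa using h3)

end lists

variable {M : Mach}

theorem g_types {T : ℕ} {P : List M.Γ0} (hP : Good M T P) :
    ∃ A q x C, P = A ++ H q x :: C ∧ (∀ a ∈ A, a.isL) ∧ ∀ a ∈ C, a.isR := by
  induction hP with
  | top q n l1 r1 j _ _ _ =>
    refine ⟨L o :: l1.map L, q, 0, _, rfl, fun a ha => ?_, fun a ha => ?_⟩
    · rcases mem_cons.1 ha with rfl | ha
      · trivial
      · obtain ⟨y, -, rfl⟩ := mem_map.1 ha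
        trivial
    · rcases mem_append.1 ha with ha | ha
      · obtain ⟨y, -, rfl⟩ := mem_map.1 ha
        trivial
      · rw [(mem_replicate.1 ha).2]
        trivial
  | nest p t q' x' q y n l1 r1 _ _ _ _ _ ih =>
    obtain ⟨A, q2, x2, C, h1, h2, h3⟩ := ih
    obtain ⟨rfl, -, -, rfl⟩ := g_head h2 h3 h1.symm
    refine ⟨A ++ B q' x' :: L o :: l1.map L, q, y, r1.map R ++ t, by simp, fun a ha => ?_,
      fun a ha => ?_⟩
    · rcases mem_append.1 ha with ha | ha
      · exact h2 a ha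
      · rcases mem_cons.1 ha with rfl | ha
        · trivial
        · rcases mem_cons.1 ha with rfl | ha
          · trivial
          · obtain ⟨y, -, rfl⟩ := mem_map.1 ha
            trivial
    · rcases mem_append.1 ha with ha | ha
      · obtain ⟨y, -, rfl⟩ := mem_map.1 ha
        trivial
      · exact h3 a (mem_append_right _ ha)

theorem g_uniq {T : ℕ} {P : List M.Γ0} (hP : Good M T P) {A C A' C' : List M.Γ0} {q q' : M.Q}
    {x x' : Fin (M.m + 1)} (h : P = A ++ H q x :: C) (h' : P = A' ++ H q' x' :: C') :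
    A = A' ∧ q = q' ∧ x = x' ∧ C = C' := by
  obtain ⟨A0, q0, x0, C0, h1, h2, h3⟩ := g_types hP
  obtain ⟨rfl, rfl, rfl, rfl⟩ := g_head h2 h3 (h1.symm.trans h)
  exact g_head h2 h3 (h1.symm.trans h')

/-- the result of a rule applied to the innermost tank -/
def GOut (M : Mach) (mk : ℕ → Bool) (p0 : List M.Γ0) (x : Fin (M.m + 1)) (q : M.Q)
    (n : Fin (M.m + 1) → ℕ) (t0 P' : List M.Γ0) : Prop :=
  ∃ q' n' l1' r1' t0', lay n' = l1' ++ r1' ∧ r1' ≠ [] ∧
    P' = p0 ++ L o :: (l1'.map L ++ H q' x :: (r1'.map R ++ t0')) ∧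
    ((q' = q ∧ n' = n) ∨ AStep M mk q n q' n' ∨ AStep M mk q' n' q n) ∧
    replicate (tot n') (R (r x)) ++ t0' = replicate (tot n) (R (r x)) ++ t0

theorem g_local {mk : ℕ → Bool} {p0 t0 : List M.Γ0} {q : M.Q} {x : Fin (M.m + 1)}
    {n : Fin (M.m + 1) → ℕ} {l1 r1 : List (Y M.m)} (h : lay n = l1 ++ r1) (hr : r1 ≠ [])
    {P : List M.Γ0}
    (hh : ∀ A q' x' C, P = A ++ H q' x' :: C →
      p0 ++ L o :: l1.map L = A ∧ q = q' ∧ x = x' ∧ r1.map R ++ t0 = C)
    {a c : List M.Γ0} {u u' : List M.Γ} (hu : Rule M u u' ∨ Rule M u' u)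
    (he : P = a ++ (u.map Prod.fst ++ c)) (hm : u = mkw mk a.length (u.map Prod.fst)) :
    GOut M (fun i => mk (p0.length + i)) p0 x q n t0 (a ++ (u'.map Prod.fst ++ c)) := by
  rcases hu with hu | hu
  · cases hu with
    | comm q1 x1 y μ ν hy =>
      obtain ⟨rfl, rfl, rfl, h1⟩ := hh a _ _ _ he
      obtain ⟨r2, rfl, rfl⟩ := g_cons hr h1
      exact ⟨q, n, l1 ++ [y], r2, t0, by simpa using h, g_tk h hy, by simp, Or.inl ⟨rfl, rfl⟩, rfl⟩
    | pull q1 q2 q3 x1 μ ν ξ hq =>
      obtain ⟨rfl, rfl, rfl, h1⟩ := hh a _ _ _ he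
      obtain ⟨rfl, h2, h3⟩ := g_pull h hr h1
      have h4 : ξ = mk (p0.length + (tot n + M.m + 3)) := by
        simp only [map_cons, map_nil, mkw_cons, cons.injEq, Prod.mk.injEq, length_append,
          length_cons, length_map, h3] at hm
        rw [hm.2.2.1.2]
        congr 1
      refine ⟨if ξ then q3 else q2, _, l1, _, c, h2, by simp, by simp, Or.inr (Or.inl ?_), ?_⟩
      · rw [h4]
        exact AStep.pull (mk := fun i => mk (p0.length + i)) q q2 q3 n hq
      · simp [tot_inc, replicate_succ']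
    | push q1 q2 q3 x1 μ ν ξ hq =>
      obtain ⟨rfl, rfl, rfl, h1⟩ := hh a _ _ _ he
      obtain ⟨rfl, n', rfl, h2, -⟩ := g_push h hr h1
      refine ⟨q2, n', l1, _, R (r x) :: t0, h2, by simp, by simp,
        Or.inr (Or.inl (AStep.push q q2 q3 n' hq)), ?_⟩
      simp [tot_inc, replicate_succ']
    | push0 q1 q2 q3 x1 μ ν ξ hq =>
      obtain ⟨h0, rfl, rfl, h1⟩ := hh (a ++ [L (opn (Fin.last _))]) q1 x1
        (R (s (Fin.last _)) :: c) (by simpa using he)
      refine ⟨q3, n, l1, r1, t0, h, hr, ?_,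
        Or.inr (Or.inl (AStep.push0 q q2 q3 n hq (g_zero h hr h0 h1))), rfl⟩
      rw [h1, ← cons_append, ← append_assoc p0, h0]
      simp
    | shl q1 j q2 x1 μ ν ξ hq =>
      obtain ⟨rfl, rfl, rfl, h1⟩ := hh a _ _ _ he
      obtain ⟨n0, r2, rfl, rfl, h2⟩ := g_shl h hr h1
      exact ⟨q2, _, l1, _, t0, h2, by simp, by simp, Or.inr (Or.inl (AStep.shl q j q2 n0 hq)),
        by simp [tot_inc]⟩
    | shr q1 j q2 q3 x1 μ ν ξ hq =>
      obtain ⟨rfl, rfl, rfl, h1⟩ := hh a _ _ _ he
      obtain ⟨n0, r2, rfl, rfl, h2⟩ := g_shr h hr h1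
      exact ⟨q2, _, l1, _, t0, h2, by simp, by simp, Or.inr (Or.inl (AStep.shr q j q2 q3 n0 hq)),
        by simp [tot_inc]⟩
    | shr0 q1 j q2 q3 x1 μ ν ξ hq =>
      obtain ⟨h0, rfl, rfl, h1⟩ := hh (a ++ [L (opn j.castSucc)]) q1 x1
        (R (s j.castSucc) :: c) (by simpa using he)
      refine ⟨q3, n, l1, r1, t0, h, hr, ?_,
        Or.inr (Or.inl (AStep.shr0 q j q2 q3 n hq (g_zero h hr h0 h1))), rfl⟩
      rw [h1, ← cons_append, ← append_assoc p0, h0]
      simp
  · cases hu with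
    | comm q1 x1 y μ ν hy =>
      obtain ⟨h0, rfl, rfl, rfl⟩ := hh (a ++ [L y]) q1 x1 c (by simpa using he)
      rcases g_snoc h0 with ⟨rfl, -, -⟩ | ⟨l2, rfl, rfl⟩
      · exact hy.elim
      · exact ⟨q, n, l2, y :: r1, t0, by simpa using h, by simp, by simp, Or.inl ⟨rfl, rfl⟩, rfl⟩
    | pull q1 q2 q3 x1 μ ν ξ hq =>
      obtain ⟨rfl, rfl, rfl, h1⟩ := hh a _ _ _ he
      obtain ⟨rfl, n', rfl, h2, h3⟩ := g_push h hr h1
      have h4 : ξ = mk (p0.length + (tot n' + M.m + 3)) := by
        simp only [map_cons, map_nil, mkw_cons, cons.injEq, Prod.mk.injEq, length_append,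
          length_cons, length_map, h3] at hm
        rw [hm.2.2.1.2]
        congr 1
      refine ⟨q1, n', l1, _, R (r x) :: t0, h2, by simp, by simp, Or.inr (Or.inr ?_), ?_⟩
      · rw [h4]
        exact AStep.pull (mk := fun i => mk (p0.length + i)) q1 q2 q3 n' hq
      · simp [tot_inc, replicate_succ']
    | push q1 q2 q3 x1 μ ν ξ hq =>
      obtain ⟨rfl, rfl, rfl, h1⟩ := hh a _ _ _ he
      obtain ⟨rfl, h2, -⟩ := g_pull h hr h1
      refine ⟨q1, _, l1, _, c, h2, by simp, by simp,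
        Or.inr (Or.inr (AStep.push q1 q q3 n hq)), ?_⟩
      simp [tot_inc, replicate_succ']
    | push0 q1 q2 q3 x1 μ ν ξ hq =>
      obtain ⟨h0, rfl, rfl, h1⟩ := hh (a ++ [L (opn (Fin.last _))]) q3 x1
        (R (s (Fin.last _)) :: c) (by simpa using he)
      refine ⟨q1, n, l1, r1, t0, h, hr, ?_,
        Or.inr (Or.inr (AStep.push0 q1 q2 q n hq (g_zero h hr h0 h1))), rfl⟩
      rw [h1, ← cons_append, ← append_assoc p0, h0]
      simp
    | shl q1 j q2 x1 μ ν ξ hq =>
      obtain ⟨rfl, rfl, rfl, h1⟩ := hh a _ _ _ he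
      obtain ⟨n0, r2, rfl, rfl, h2⟩ := g_shr h hr h1
      exact ⟨q1, _, l1, _, t0, h2, by simp, by simp, Or.inr (Or.inr (AStep.shl q1 j q n0 hq)),
        by simp [tot_inc]⟩
    | shr q1 j q2 q3 x1 μ ν ξ hq =>
      obtain ⟨rfl, rfl, rfl, h1⟩ := hh a _ _ _ he
      obtain ⟨n0, r2, rfl, rfl, h2⟩ := g_shl h hr h1
      exact ⟨q1, _, l1, _, t0, h2, by simp, by simp, Or.inr (Or.inr (AStep.shr q1 j q q3 n0 hq)),
        by simp [tot_inc]⟩
    | shr0 q1 j q2 q3 x1 μ ν ξ hq =>
      obtain ⟨h0, rfl, rfl, h1⟩ := hh (a ++ [L (opn j.castSucc)]) q3 x1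
        (R (s j.castSucc) :: c) (by simpa using he)
      refine ⟨q1, n, l1, r1, t0, h, hr, ?_,
        Or.inr (Or.inr (AStep.shr0 q1 j q2 q n hq (g_zero h hr h0 h1))), rfl⟩
      rw [h1, ← cons_append, ← append_assoc p0, h0]
      simp

theorem g_tgt {mk : ℕ → Bool} {q q' : M.Q} {n n' : Fin (M.m + 1) → ℕ}
    (h : AStep M mk q n q' n') : q' ∈ (M.ins q).tgt := by
  cases h with
  | pull a b _ hq => rw [hq]; split_ifs <;> simp [Ins.tgt]
  | _ => simp [*, Ins.tgt]

theorem g_g0 {mk : ℕ → Bool} {q' : M.Q} {n n' : Fin (M.m + 1) → ℕ}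
    (h : AStep M mk M.g0 n q' n') :
    q' = (if mk (tot n + M.m + 3) then M.g1 else M.g0) ∧ n' = inc n (Fin.last _) :=
  h.det (AStep.pull _ _ _ n M.hg0)

theorem g_g1 {mk : ℕ → Bool} {q' : M.Q} {n n' : Fin (M.m + 1) → ℕ}
    (h : AStep M mk M.g1 n q' n') : False := by
  have h1 := g_tgt h
  rw [M.hg1] at h1
  simp [Ins.tgt] at h1

/-- the condition of the outermost tank -/
def GTop (M : Mach) (T : ℕ) (q : M.Q) (n : Fin (M.m + 1) → ℕ) (S : ℕ) : Prop :=
  (q = M.g0 ∧ n 0 + T * ((tot n + M.m + 2) / T) = T * (S / T)) ∨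
    (q = M.g1 ∧ n 0 + T * ((tot n + M.m + 2) / T) = T * (S / T + 1))

theorem g_top_pull {T : ℕ} {n : Fin (M.m + 1) → ℕ} {S : ℕ} :
    GTop M T M.g0 n S ↔
      GTop M T (if per T (tot n + M.m + 3) then M.g1 else M.g0) (inc n (Fin.last _)) S := by
  have h1 : inc n (Fin.last _) 0 = n 0 := inc_of_ne n fun h => by
    have := M.hm
    have h2 := congrArg Fin.val h
    simp at h2
    omega
  have h2 := g0_ne_g1 M
  have h3 : tot n + 1 + M.m + 2 = tot n + M.m + 3 := by ring
  have h5 : (tot n + M.m + 3) / T =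
      (tot n + M.m + 2) / T + if (tot n + M.m + 3) % T = 0 then 1 else 0 := by
    simp only [← Nat.dvd_iff_mod_eq_zero]
    exact Nat.succ_div
  simp only [GTop, h1, tot_inc, h3, h5, per, decide_eq_true_eq]
  split_ifs with h4
  · simp only [h2, h2.symm, true_and, false_and, or_false, false_or, mul_add]
    omega
  · simp [h2]

theorem g_top {T : ℕ} {q q' : M.Q} {n n' : Fin (M.m + 1) → ℕ} {S : ℕ} (h : GTop M T q n S)
    (hs : (q' = q ∧ n' = n) ∨ AStep M (per T) q n q' n' ∨ AStep M (per T) q' n' q n) :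
    GTop M T q' n' S := by
  rcases hs with ⟨rfl, rfl⟩ | hs | hs
  · exact h
  · obtain rfl : q = M.g0 := by
      rcases h with ⟨h, -⟩ | ⟨rfl, -⟩
      · exact h
      · exact (g_g1 hs).elim
    obtain ⟨rfl, rfl⟩ := g_g0 hs
    exact g_top_pull.1 h
  · obtain rfl : q' = M.g0 := M.hin _ _ (g_tgt hs) (h.imp And.left And.left)
    obtain ⟨rfl, rfl⟩ := g_g0 hs
    exact g_top_pull.2 h

theorem g_rule {T : ℕ} {P : List M.Γ0} (hP : Good M T P) {a c : List M.Γ0} {u u' : List M.Γ}
    (hu : Rule M u u' ∨ Rule M u' u) (he : P = a ++ (u.map Prod.fst ++ c))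
    (hm : u = mkw (per T) a.length (u.map Prod.fst)) :
    Good M T (a ++ (u'.map Prod.fst ++ c)) := by
  have hq := @g_uniq M T P hP
  cases hP with
  | top q n l1 r1 j h1 h2 h3 =>
    obtain ⟨q', n', l1', r1', t0', k1, k2, k3, k4, k5⟩ := g_local (p0 := []) (q := q) (x := 0)
      (t0 := replicate j (R (r 0))) h1 h2 (fun A q' x' C h => hq (by simp) h) hu he hm
    rw [← replicate_add] at k5
    obtain ⟨k6, -, k7⟩ := append_eq_replicate_iff.1 k5
    rw [k3, k7]
    have k8 : tot n' + M.m + 2 + t0'.length = tot n + M.m + 2 + j := by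
      rw [length_replicate] at k6
      omega
    refine Good.top q' n' l1' r1' _ k1 k2 ?_
    rw [k8]
    exact g_top h3 (by simpa using k4)
  | nest p t q1 x1 q y n l1 r1 h1 h2 h3 h4 h5 =>
    obtain ⟨q', n', l1', r1', t0', k1, k2, k3, k4, k5⟩ := g_local (p0 := p ++ [B q1 x1]) (q := q)
      (x := y) (t0 := t) h1 h2 (fun A q' x' C h => hq (by simp) h) hu he hm
    have k6 : (fun i => per T ((p ++ [B q1 x1]).length + i)) = per T := by
      funext i
      simp only [per, length_append, length_singleton]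
      rw [Nat.add_mod, h4, zero_add, Nat.mod_mod]
    rw [k6] at k4
    rw [k3, append_assoc, singleton_append]
    refine Good.nest p t0' q1 x1 q' y n' l1' r1' k1 k2 ?_ h4 ?_
    · rcases k4 with ⟨rfl, rfl⟩ | k4 | k4
      · exact h3
      · rwa [← k4.halts_iff]
      · rwa [k4.halts_iff]
    · have k7 : ∀ k, k + M.m + 3 = M.m + 3 + k := fun k => by ring
      rw [k7, replicate_add, append_assoc] at h5 ⊢
      rwa [k5]

theorem g_spawn_back {T e : ℕ} {P : List M.Γ0} (hP : Good M T P) {a c : List M.Γ0} {q : M.Q}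
    {x y : Fin (M.m + 1)} (he : P = a ++ B q x :: L o :: H M.q0 y ::
      ((lay (Pi.single 0 e : Fin (M.m + 1) → ℕ)).map R ++ c)) :
    Good M T (a ++ H q x :: (replicate (e + M.m + 3) (R (r y)) ++ c)) := by
  have hq := @g_uniq M T P hP
  cases hP with
  | top q' n l1 r1 j h1 h2 h3 =>
    exfalso
    have k1 := (hq (A := [] ++ L o :: l1.map L) (A' := a ++ [B q x] ++ [L o]) (q' := M.q0) (x' := y)
      (C' := (lay (Pi.single 0 e : Fin (M.m + 1) → ℕ)).map R ++ c) rfl (by simpa using he)).1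
    rcases g_snoc k1 with ⟨-, -, k2⟩ | ⟨l2, rfl, -⟩
    · simp at k2
    · exact o_notMem_lay n (h1 ▸ by simp)
  | nest p t q1 x1 q' y' n l1 r1 h1 h2 h3 h4 h5 =>
    obtain ⟨k1, -, rfl, k3⟩ := hq (A := p ++ [B q1 x1] ++ L o :: l1.map L)
      (A' := a ++ [B q x] ++ [L o]) (q := q') (q' := M.q0) (x := y') (x' := y) (C := r1.map R ++ t)
      (C' := (lay (Pi.single 0 e : Fin (M.m + 1) → ℕ)).map R ++ c) (by simp) (by simpa using he)
    rcases g_snoc k1 with ⟨-, rfl, k2⟩ | ⟨l2, rfl, -⟩
    · obtain ⟨rfl, k4⟩ := append_inj' k2 rfl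
      obtain ⟨rfl, rfl⟩ : q = q1 ∧ x = x1 := by simpa using k4
      rw [nil_append] at h1
      subst h1
      have k5 : ∀ n : Fin (M.m + 1) → ℕ,
          (R (s (Fin.last _)) : M.Γ0) ∉ (lay n).dropLast.map R := fun n hn => by
        obtain ⟨z, hz, k6⟩ := mem_map.1 hn
        cases k6
        exact tk_dropLast_lay hz rfl
      rw [lay_eq_dropLast n, lay_eq_dropLast (Pi.single 0 e), map_append, map_append, append_assoc,
        append_assoc] at k3
      obtain ⟨k6, k7⟩ := g_first k3 (k5 _) (k5 _)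
      have k8 := congrArg length k6
      simp only [length_map, length_dropLast, length_lay, tot_single] at k8
      obtain rfl : e = tot n := by omega
      obtain rfl : t = c := k7
      exact h5
    · exact (o_notMem_lay n (h1 ▸ by simp)).elim

theorem good_step (M : Mach) (e T : ℕ) (hT : 0 < T)
    (h0 : ¬ Halts M (per T) M.q0 (Pi.single 0 e)) {P : List M.Γ0} (hP : Good M T P)
    {W : List M.Γ} (h : Stp (amvM M e) (mkw (per T) 0 P) W) :
    ∃ P', W = mkw (per T) 0 P' ∧ Good M T P' := by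
  have _ := hT
  obtain ⟨p, u, u', t, hm, h1, rfl⟩ := h
  obtain ⟨h2, h3, -⟩ := mkw_eq_append h1
  obtain ⟨-, -, h4⟩ := mkw_eq_append h3.symm
  rw [map_append, append_assoc] at h2
  rw [zero_add, ← length_map (f := Prod.fst)] at h4
  have key : u'.map Prod.snd = u.map Prod.snd →
      Good M T (p.map Prod.fst ++ (u'.map Prod.fst ++ t.map Prod.fst)) →
      ∃ P', p ++ u' ++ t = mkw (per T) 0 P' ∧ Good M T P' := fun k1 k2 =>
    ⟨_, g_mkw_of_snd (P := P) (by rw [h1]; simp [k1]), by simpa using k2⟩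
  rcases hm with (hm | ⟨a, b, c, -, hm⟩) | (hm | ⟨a, b, c, -, hm⟩)
  · rcases hm with hm | ⟨q, x, y, μ, hm⟩
    · exact key (by cases hm <;> rfl) (g_rule hP (Or.inl hm) h2 h4)
    · obtain ⟨rfl, rfl⟩ := Prod.mk.inj hm
      refine key (by simp [spL, spR, length_lay, tot_single, Function.comp_def, replicate_succ]) ?_
      have k1 : ((p.map Prod.fst).length + 1) % T = 0 := by
        simp only [spL, map_cons, mkw_cons, cons.injEq, Prod.mk.injEq] at h4
        simpa [per] using h4.2.1.2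
      have k2 := Good.nest (T := T) (p.map Prod.fst) (t.map Prod.fst) q x M.q0 y (Pi.single 0 e) []
        (lay (Pi.single 0 e)) rfl (g_lay_ne _) h0 k1 (by
          rw [h2] at hP
          simpa [spL, tot_single, replicate_succ] using hP)
      simpa [spR, Function.comp_def] using k2
  · obtain ⟨rfl, rfl⟩ := Prod.mk.inj hm
    exact ⟨P, h1.symm, hP⟩
  · rcases hm with hm | ⟨q, x, y, μ, hm⟩
    · exact key (by cases hm <;> rfl) (g_rule hP (Or.inr hm) h2 h4)
    · obtain ⟨rfl, rfl⟩ := Prod.mk.inj hm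
      refine key (by simp [spL, spR, length_lay, tot_single, Function.comp_def, replicate_succ]) ?_
      have k2 := g_spawn_back (e := e) (a := p.map Prod.fst) (c := t.map Prod.fst) (q := q) (x := x)
        (y := y) hP (by simpa [spR, Function.comp_def] using h2)
      simpa [spL, replicate_succ] using k2
  · obtain ⟨rfl, rfl⟩ := Prod.mk.inj hm
    exact ⟨P, h1.symm, hP⟩

end Pool.Agent.Lib.MP_038c09_al.Pi
end

-- part PiG1b
section

/-!
The good words form an invariant family: forbidden words and the finite presentation.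
-/

namespace Pool.Agent.Lib.MP_038c09_al.Pi

open List G0 Y

section lists

variable {β : Type}

theorem gb_pre {A t p u : List β} {c : β} (h : A ++ t = p ++ c :: u) (hc : c ∉ A) :
    ∃ p', p = A ++ p' ∧ t = p' ++ c :: u := by
  rcases append_eq_append_iff.1 h with ⟨a, h1, h2⟩ | ⟨a, h1, h2⟩
  · exact ⟨a, h1, h2⟩
  · cases a with
    | nil => exact ⟨[], by simpa using h1.symm, by simpa using h2.symm⟩
    | cons b a =>
      obtain ⟨rfl, -⟩ := cons.inj h2
      exact absurd (h1 ▸ by simp) hc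

theorem gb_rep {x y : β} (hy : y ≠ x) {a b : ℕ} {u v : List β}
    (h : replicate a x ++ u = replicate b x ++ y :: v) :
    ∃ c, b = c + a ∧ u = replicate c x ++ y :: v := by
  obtain ⟨p', h1, h2⟩ := gb_pre h fun h' => hy (mem_replicate.1 h').2
  refine ⟨p'.length, ?_, ?_⟩
  · simpa [add_comm] using congrArg length h1
  · rw [h2, ← eq_replicate_of_mem fun z hz =>
      (mem_replicate.1 (h1 ▸ mem_append_right _ hz : z ∈ replicate b x)).2]

theorem gb_glue {S : β → β → Prop} {c : β} (h1 : ∀ a, S a c) (h2 : ∀ a, S c a) {l l' : List β}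
    (hl : IsChain S l) (hl' : IsChain S l') : IsChain S (l ++ c :: l') :=
  isChain_append.2 ⟨hl, isChain_cons.2 ⟨fun y _ => h2 y, hl'⟩, fun x _ y hy => by
    obtain rfl : c = y := by simpa using hy
    exact h1 x⟩

theorem gb_mark {mk : ℕ → Bool} {P : List β} {A C : List (β × Bool)} {a : β} {b : Bool}
    (h : mkw mk 0 P = A ++ (a, b) :: C) : mk A.length = b := by
  have := (mkw_eq_append h).2.2
  simp only [map_cons, mkw_cons, zero_add, cons.injEq, Prod.mk.injEq, true_and] at this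
  exact this.1.symm

theorem gb_fac {mk : ℕ → Bool} {P : List β} {z : List (β × Bool)} (h : z <:+: mkw mk 0 P) :
    z.map Prod.fst <:+: P := by
  simpa using h.map Prod.fst

theorem gb_pair {S : β → β → Prop} {a b : β} {l : List β} (h : IsChain S l) (h' : [a, b] <:+: l) :
    S a b := by
  obtain ⟨A, C, rfl⟩ := h'
  exact isChain_pair.1 h.left_of_append.right_of_append

end lists

section lay

variable {m : ℕ}

theorem gb_run (k : ℕ) (j : Fin (m + 1)) {a : Y m} (ha : a.out = j) :
    IsChain (fun y y' : Y m => y.out = y'.inn) (a :: (replicate k (r j) ++ [s j])) := by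
  induction k generalizing a with
  | zero => simpa [inn] using ha
  | succ k ih => exact isChain_cons_cons.2 ⟨ha, ih rfl⟩

theorem gb_chain (n : Fin (m + 1) → ℕ) :
    IsChain (fun y y' : Y m => y.out = y'.inn) (lay n) := by
  have : ∀ j, IsChain (fun y y' : Y m => y.out = y'.inn)
      (pre n j ++ (replicate (n j) (r j) ++ [s j])) := by
    intro j
    induction j using Fin.induction with
    | zero => exact (gb_run (a := o) _ 0 rfl).tail
    | succ j ih =>
      rw [pre_succ, ← append_assoc (pre n _), append_assoc, singleton_append, isChain_split]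
      exact ⟨by rwa [append_assoc], gb_run _ _ rfl⟩
  rw [lay_last, append_assoc]
  exact this _

theorem gb_lay_add (n : Fin (m + 1) → ℕ) (j : Fin (m + 1)) (k : ℕ) :
    lay (n + Pi.single j k : Fin (m + 1) → ℕ) =
      pre n j ++ (replicate k (r j) ++ (replicate (n j) (r j) ++ s j :: post n j)) := by
  rw [lay_split _ j, pre_congr (n' := n) fun i hi => by simp [hi.ne],
    post_congr (n' := n) fun i hi => by simp [hi.ne'], Pi.add_apply, Pi.single_eq_same, add_comm,
    replicate_add, append_assoc]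

theorem gb_tot_add (n : Fin (m + 1) → ℕ) (j : Fin (m + 1)) (k : ℕ) :
    tot (n + Pi.single j k : Fin (m + 1) → ℕ) = tot n + k := by
  simp [tot, Finset.sum_add_distrib]

theorem gb_sub {n : Fin (m + 1) → ℕ} {j : Fin (m + 1)} {c k : ℕ} (h : n j = c + k) :
    ∃ n0, n = n0 + Pi.single j k ∧ n0 j = c ∧ pre n0 j = pre n j ∧ post n0 j = post n j := by
  refine ⟨Function.update n j c, funext fun i => ?_, by simp,
    pre_congr fun i hi => by simp [hi.ne], post_congr fun i hi => by simp [hi.ne']⟩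
  by_cases hi : i = j
  · subst hi; simpa using h
  · simp [hi]

theorem gb_seps {n : Fin (m + 1) → ℕ} {j : Fin (m + 1)} {w : List (Y m)}
    (h : lay n = pre 0 j ++ w) : pre n j = pre 0 j := by
  induction j using Fin.cases with
  | zero => simp
  | succ j =>
    rw [pre_succ] at h
    simp only [Pi.zero_apply, replicate_zero, nil_append, append_assoc, singleton_append] at h
    rw [pre_succ, pre_succ, (lay_eq_s h).1]
    simp

end lay

variable {M : Mach} {T : ℕ}

theorem gb_head {p p0 t t0 : List M.Γ0} {q q0 : M.Q} {x x0 : Fin (M.m + 1)}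
    (h : p ++ H q x :: t = p0 ++ H q0 x0 :: t0) (h1 : ∀ a ∈ p0, a.isL) (h2 : ∀ a ∈ t0, a.isR) :
    p = p0 ∧ t = t0 := by
  obtain ⟨p', rfl, h3⟩ := gb_pre h.symm (h1 _)
  cases p' with
  | nil => exact ⟨by simp, (cons.inj h3).2.symm⟩
  | cons b p' => exact (h2 (H q x) ((cons.inj h3).2 ▸ by simp)).elim

/-- a good word has one head, which does not halt -/
theorem gb_shape {P : List M.Γ0} (hP : Good M T P) : ∃ p q x t, P = p ++ H q x :: t ∧
    (∀ a ∈ p, a.isL) ∧ (∀ a ∈ t, a.isR) ∧ M.ins q ≠ .halt := by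
  induction hP with
  | top q n l1 r1 j _ _ h =>
    refine ⟨L o :: l1.map L, q, 0, _, rfl, fun a ha => ?_, fun a ha => ?_, ?_⟩
    · rcases mem_cons.1 ha with rfl | ha
      · trivial
      · obtain ⟨y, -, rfl⟩ := mem_map.1 ha
        trivial
    · rcases mem_append.1 ha with ha | ha
      · obtain ⟨y, -, rfl⟩ := mem_map.1 ha
        trivial
      · rw [(mem_replicate.1 ha).2]; trivial
    · rcases h with ⟨rfl, -⟩ | ⟨rfl, -⟩
      · simp [M.hg0]
      · simp [M.hg1]
  | nest p t q' x' q y n l1 r1 _ _ h _ _ ih =>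
    obtain ⟨p0, q0, x0, t0, e, h1, h2, -⟩ := ih
    obtain ⟨rfl, rfl⟩ := gb_head e h1 h2
    refine ⟨p ++ B q' x' :: L o :: l1.map L, q, y, r1.map R ++ t, by simp, fun a ha => ?_,
      fun a ha => ?_, fun hq => h (halts_of_halt hq n)⟩
    · simp only [mem_append, mem_cons, mem_map] at ha
      rcases ha with ha | rfl | rfl | ⟨y, -, rfl⟩
      · exact h1 a ha
      all_goals trivial
    · rcases mem_append.1 ha with ha | ha
      · obtain ⟨y, -, rfl⟩ := mem_map.1 ha
        trivial
      · exact h2 a (mem_append_right _ ha)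

theorem gb_ord {p t : List M.Γ0} (c : M.Γ0) (h1 : ∀ a ∈ p, a.isL) (h2 : ∀ a ∈ t, a.isR) :
    IsChain (fun a b : M.Γ0 => a.isL ∨ b.isR) (p ++ c :: t) := by
  induction p with
  | nil =>
    induction t generalizing c with
    | nil => simp
    | cons b t ih =>
      exact isChain_cons_cons.2 ⟨.inr (h2 b (by simp)), ih b fun a ha => h2 a (by simp [ha])⟩
  | cons b p ih =>
    exact isChain_cons.2 ⟨fun _ _ => .inl (h1 b (by simp)), ih fun a ha => h1 a (by simp [ha])⟩

/-- neighbours inside a tank fit together -/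
def gbS (a b : M.Γ0) : Prop := ∀ y y', (a = L y ∧ b = L y') ∨ (a = R y ∧ b = R y') →
  Tk y → Tk y' → y.out = y'.inn

theorem gb_neutral {c : M.Γ0} (h : ∀ y, c = L y ∨ c = R y → ¬ Tk y) {l l' : List M.Γ0}
    (hl : IsChain gbS l) (hl' : IsChain gbS l') : IsChain gbS (l ++ c :: l') :=
  gb_glue (fun _ _ y' e _ h2 => (h y' (e.imp And.right And.right) h2).elim)
    (fun _ y _ e h1 _ => (h y (e.imp And.left And.left) h1).elim) hl hl'

theorem gb_tank {n : Fin (M.m + 1) → ℕ} {l1 r1 : List (Y M.m)} (h : lay n = l1 ++ r1)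
    (hr : r1 ≠ []) (q : M.Q) (y : Fin (M.m + 1)) {t : List M.Γ0} (ht : IsChain gbS t) :
    IsChain gbS (L o :: (l1.map L ++ H q y :: (r1.map R ++ t))) := by
  obtain ⟨r2, rfl, -, -⟩ := lay_head h hr
  have hc := gb_chain n
  rw [h] at hc
  rw [map_append, append_assoc, map_singleton, singleton_append]
  refine gb_neutral (l := []) ?_ .nil (gb_neutral (by simp) ?_ (gb_neutral ?_ ?_ ht))
  · rintro y (e | e) <;> cases e
    exact id
  · refine (isChain_map _).2 (hc.left_of_append.imp ?_)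
    rintro a b hab y y' (⟨e, e'⟩ | ⟨e, e'⟩) - - <;> cases e
    cases e'
    exact hab
  · rintro y (e | e) <;> cases e
    exact fun h => h rfl
  · refine (isChain_map _).2 (hc.right_of_append.left_of_append.imp ?_)
    rintro a b hab y y' (⟨e, e'⟩ | ⟨e, e'⟩) - - <;> cases e
    cases e'
    exact hab

theorem gb_srt {P : List M.Γ0} (hP : Good M T P) : IsChain gbS P := by
  induction hP with
  | top q n l1 r1 j h1 h2 _ =>
    refine gb_tank h1 h2 q 0 (isChain_replicate_of_rel _ ?_)
    rintro y y' (⟨e, e'⟩ | ⟨e, e'⟩) - - <;> cases e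
    cases e'
    rfl
  | nest p t q' x' q y n l1 r1 h1 h2 _ _ _ ih =>
    exact gb_neutral (by simp) ih.left_of_append
      (gb_tank h1 h2 q y ih.right_of_append.tail.right_of_append)

theorem good_not_kld (M : Mach) (e T : ℕ) (hT : e + M.m + 3 ≤ T) {P : List M.Γ0}
    (hP : Good M T P) : ¬ Kld (klM M e) (mkw (per T) 0 P) := by
  rintro ⟨z, hz | ⟨j, q, x, y, μ, hj, rfl⟩, h⟩
  · have h' := gb_fac h
    obtain ⟨p, q, x, t, rfl, h1, h2, h3⟩ := gb_shape hP
    cases hz with
    | ord a b μ ν ha hb =>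
      exact (gb_pair (gb_ord _ h1 h2) h').elim ha hb
    | srtL y y' μ ν hy hy' hn =>
      exact hn (gb_pair (gb_srt hP) h' y y' (.inl ⟨rfl, rfl⟩) hy hy')
    | srtR y y' μ ν hy hy' hn =>
      exact hn (gb_pair (gb_srt hP) h' y y' (.inr ⟨rfl, rfl⟩) hy hy')
    | hlt q' x' μ hq =>
      have := h'.subset (a := H q' x') (by simp)
      simp only [mem_append, mem_cons] at this
      rcases this with h4 | h4 | h4
      · exact h1 _ h4
      · cases h4
        exact h3 hq
      · exact h2 _ h4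
  · obtain ⟨A, C, h⟩ := h
    have h1 := gb_mark (mk := per T) (P := P) (A := A ++ [(H q x, μ)]) (a := R (r y)) (b := true)
      (C := replicate j (R (r y), false) ++ (R (r y), true) :: C) (by simp [← h, gapW])
    have h2 := gb_mark (mk := per T) (P := P) (a := R (r y)) (b := true) (C := C)
      (A := A ++ (H q x, μ) :: (R (r y), true) :: replicate j (R (r y), false))
      (by simp [← h, gapW])
    simp only [per, length_append, length_cons, length_nil, length_replicate,
      decide_eq_true_eq] at h1 h2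
    have := Nat.le_of_dvd (by omega) (Nat.dvd_sub (Nat.dvd_of_mod_eq_zero h2)
      (Nat.dvd_of_mod_eq_zero h1))
    omega

/-- the condition on the outermost tank -/
def gbC (M : Mach) (T : ℕ) (q : M.Q) (a b j : ℕ) : Prop :=
  (q = M.g0 ∧ a + T * ((b + M.m + 2) / T) = T * ((b + M.m + 2 + j) / T)) ∨
    (q = M.g1 ∧ a + T * ((b + M.m + 2) / T) = T * ((b + M.m + 2 + j) / T + 1))

theorem gbC_add (hT : 0 < T) (q : M.Q) (a b j u : ℕ) :
    gbC M T q a (b + T * u) j ↔ gbC M T q a b j := by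
  rw [gbC, gbC, show b + T * u + M.m + 2 + j = b + M.m + 2 + j + T * u by ring,
    show b + T * u + M.m + 2 = b + M.m + 2 + T * u by ring, Nat.add_mul_div_left _ _ hT,
    Nat.add_mul_div_left _ _ hT]
  simp only [mul_add]
  exact or_congr (and_congr_right' (by omega)) (and_congr_right' (by omega))

theorem gb_inv {q : M.Q} {x : Fin (M.m + 1)} {u : List M.Γ0} (h : Good M T (L o :: H q x :: u)) :
    ∃ n j, u = (lay n).map R ++ replicate j (R (r 0)) ∧ gbC M T q (n 0) (tot n) j := by
  generalize e : (L o :: H q x :: u : List M.Γ0) = P at h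
  cases h with
  | top q' n l1 r1 j h1 _ h3 =>
    cases l1 with
    | nil =>
      simp only [map_nil, nil_append, cons.injEq, H.injEq, true_and] at e h1
      obtain ⟨⟨rfl, -⟩, rfl⟩ := e
      exact ⟨n, j, by rw [h1], h3⟩
    | cons a l1 => simp at e
  | nest p t q' x' q1 y n l1 r1 _ _ _ _ h =>
    obtain ⟨p0, q0, x0, t0, e', h1, h2, -⟩ := gb_shape h
    obtain ⟨rfl, -⟩ := gb_head e' h1 h2
    obtain ⟨p', rfl, -⟩ := gb_pre (A := [L o, H q x]) e (by simp)
    exact (h1 (H q x) (by simp)).elim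

theorem gb_top {q : M.Q} {n : Fin (M.m + 1) → ℕ} {j : ℕ} (h : gbC M T q (n 0) (tot n) j) :
    Good M T (L o :: H q 0 :: ((lay n).map R ++ replicate j (R (r 0)))) :=
  Good.top q n [] (lay n) j rfl (by rw [lay_last]; simp) h

theorem gbC_d1 (hT : 0 < T) (a b j : ℕ) :
    gbC M T M.g1 (a + T) (b + T) j ↔ gbC M T M.g0 a b j := by
  have := gbC_add hT M.g1 (a + T) b j 1
  rw [mul_one] at this
  rw [this]
  simp only [gbC, g0_ne_g1 M, (g0_ne_g1 M).symm, false_and, true_and, false_or, or_false, mul_add]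
  omega

theorem good_d1 (M : Mach) (T : ℕ) (hT : 0 < T) (t : List M.Γ0) :
    Good M T (d1L M T ++ t) ↔ Good M T (d1R M ++ t) := by
  constructor
  · intro h
    obtain ⟨n, j, h1, h2⟩ := gb_inv h
    rw [lay_split n 0, pre_zero, nil_append, map_append, map_replicate, map_cons,
      append_assoc] at h1
    obtain ⟨c, h3, rfl⟩ := gb_rep (by simp) h1
    obtain ⟨n0, rfl, rfl, -, h4⟩ := gb_sub h3
    rw [h3, gb_tot_add, gbC_d1 hT] at h2
    have := gb_top h2
    rwa [lay_split n0 0, pre_zero, nil_append, map_append, map_replicate, map_cons,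
      append_assoc, h4] at this
  · intro h
    obtain ⟨n, j, rfl, h2⟩ := gb_inv h
    have := gb_top (q := M.g1) (n := n + Pi.single 0 T) (T := T) (j := j) (by
      rwa [gb_tot_add, Pi.add_apply, Pi.single_eq_same, gbC_d1 hT])
    rw [gb_lay_add, pre_zero, nil_append, map_append, map_replicate, append_assoc] at this
    rwa [lay_split n 0, pre_zero, nil_append]

theorem gb_d2 (hT : 0 < T) (u u' : ℕ) {P : List M.Γ0} (hP : Good M T P) : ∀ t,
    P = L o :: ((seps M.m ++ replicate (T * u) (r (Fin.last _))).map L ++ t) →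
    Good M T (L o :: ((seps M.m ++ replicate (T * u') (r (Fin.last _))).map L ++ t)) := by
  induction hP with
  | top q n l1 r1 j h1 h2 h3 =>
    intro t e
    obtain ⟨p', e1, rfl⟩ := gb_pre (cons.inj e).2.symm (by simp)
    obtain ⟨l2, l3, rfl, e2, rfl⟩ := map_eq_append_iff.1 e1
    obtain rfl := map_injective_iff.2 (fun _ _ => L.inj) e2
    rw [seps_eq, append_assoc, append_assoc] at h1
    have h4 := gb_seps h1
    rw [lay_split n (Fin.last _), h4, append_cancel_left_eq] at h1
    obtain ⟨c, h5, h6⟩ := gb_rep (by simp) h1.symm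
    obtain ⟨n0, rfl, rfl, h7, h8⟩ := gb_sub h5
    have h0 : ∀ k, (n0 + Pi.single (Fin.last _) k : Fin (M.m + 1) → ℕ) 0 = n0 0 := fun k => by
      have : (0 : Fin (M.m + 1)) ≠ Fin.last _ := fun h => M.hm.ne (congrArg Fin.val h)
      simp [this]
    have := Good.top (T := T) q (n0 + Pi.single (Fin.last _) (T * u'))
      (seps M.m ++ replicate (T * u') (r (Fin.last _)) ++ l3) r1 j (by
        rw [gb_lay_add, h7, h4, h8, ← h6, seps_eq]
        simp) h2 (by
        change gbC M T q _ _ j at h3 ⊢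
        rwa [h0, gb_tot_add, gbC_add hT] at h3 ⊢)
    rwa [map_append, append_assoc] at this
  | nest p t q' x' q y n l1 r1 h1 h2 h3 h4 _ ih =>
    intro t' e
    obtain ⟨p', rfl, rfl⟩ := gb_pre (A := L o :: _) e.symm (by simp)
    have := Good.nest (T := T)
      (L o :: ((seps M.m ++ replicate (T * u') (r (Fin.last _))).map L ++ p')) t q' x' q y n l1 r1
      h1 h2 h3 (by
        simp only [length_cons, length_append, length_map, length_replicate] at h4 ⊢
        rw [show (seps M.m).length + T * u + 1 + p'.length + 1 =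
          (seps M.m).length + p'.length + 2 + T * u by ring, Nat.add_mul_mod_self_left] at h4
        rwa [show (seps M.m).length + T * u' + p'.length + 1 + 1 =
          (seps M.m).length + p'.length + 2 + T * u' by ring, Nat.add_mul_mod_self_left])
      (by simpa only [cons_append, append_assoc] using ih _ (by
        simp only [cons_append, append_assoc]))
    simpa only [cons_append, append_assoc] using this

theorem good_d2 (M : Mach) (T : ℕ) (hT : 0 < T) (t : List M.Γ0) :
    Good M T (d2L M T ++ t) ↔ Good M T (d2R M ++ t) :=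
  ⟨fun h => by simpa [d2R] using gb_d2 hT 1 0 h t (by simp [d2L]),
    fun h => by simpa [d2L] using gb_d2 hT 0 1 h t (by simp [d2R])⟩

theorem good_d0 (M : Mach) (T : ℕ) (hT : 0 < T) (t : List M.Γ0) : ¬ Good M T (d0 M ++ t) := by
  intro h
  obtain ⟨n, j, h1, h2⟩ := gb_inv h
  rw [lay_split n 0, pre_zero, nil_append, map_append, map_replicate] at h1
  have h3 : n 0 = 0 := by
    rcases h0 : n 0 with _ | k
    · rfl
    · simp [h0, replicate_succ] at h1
  rcases h2 with ⟨h2, -⟩ | ⟨-, h2⟩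
  · exact g0_ne_g1 M h2.symm
  · rw [h3, zero_add] at h2
    have h4 := Nat.eq_of_mul_eq_mul_left hT h2
    have h5 := Nat.div_le_div_right (c := T) (Nat.le_add_right (tot n + M.m + 2) j)
    omega

theorem good_wC (M : Mach) (T : ℕ) : Good M T (wC M) :=
  Good.top M.g0 0 (seps M.m) [s (Fin.last _)] 0 (lay_eq_dropLast 0) (by simp)
    (.inl ⟨rfl, by simp⟩)

end Pool.Agent.Lib.MP_038c09_al.Pi
end

-- part PiG2
section

/-!
The test words.
-/

namespace Pool.Agent.Lib.MP_038c09_al.Pi

open List G0 Y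

/-- contents of the first and of the last region -/
def g2st (m a b : ℕ) : Fin (m + 1) → ℕ := Pi.single 0 a + Pi.single (Fin.last m) b

theorem g2_ne {m : ℕ} (hm : 0 < m) : Fin.last m ≠ 0 := fun h => by
  have := congrArg Fin.val h
  simp only [Fin.val_last, Fin.val_zero] at this
  omega

theorem g2_tot (m a b : ℕ) : tot (g2st m a b) = a + b := by
  simp [tot, g2st, Finset.sum_add_distrib]

theorem g2_inc (m a b : ℕ) : inc (g2st m a b) (Fin.last m) = g2st m a (b + 1) := by
  rw [inc_eq_add, g2st, g2st, Pi.single_add, add_assoc]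

theorem g2_lay0 {m : ℕ} (a : ℕ) :
    lay (Pi.single 0 a : Fin (m + 1) → ℕ) = replicate a (r 0) ++ lay 0 := by
  rw [lay_split _ 0, lay_split 0 0, post_congr (n' := 0) fun i hi => by simp [hi.ne']]
  simp

theorem g2_lay {m : ℕ} (hm : 0 < m) (a b : ℕ) : lay (g2st m a b) =
    replicate a (r 0) ++ (seps m ++ (replicate b (r (Fin.last m)) ++ [s (Fin.last m)])) := by
  have h1 : pre (Pi.single 0 a : Fin (m + 1) → ℕ) (Fin.last m) = replicate a (r 0) ++ seps m := by
    have h2 := g2_lay0 (m := m) a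
    rw [lay_last, lay_last 0, Pi.single_eq_of_ne (g2_ne hm), ← seps_eq] at h2
    simpa [← append_assoc] using h2
  have h3 : g2st m a b (Fin.last m) = b := by simp [g2st, g2_ne hm]
  rw [lay_last, h3, pre_congr (n' := Pi.single 0 a) fun i hi => by simp [g2st, hi.ne], h1]
  simp

theorem g2_seps {m : ℕ} : ∀ y ∈ seps m, Tk y := fun _ hy => tk_dropLast_lay hy

theorem g2_zero {m : ℕ} (hm : 0 < m) (b : ℕ) : ∃ l, lay (g2st m 0 b) = s 0 :: l := by
  have h : g2st m 0 b 0 = 0 := by simp [g2st, (g2_ne hm).symm]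
  exact ⟨post (g2st m 0 b) 0, by rw [lay_split _ 0, h]; simp⟩

/-- the states of the gadget -/
def g2W (M : Mach) (q : M.Q) (a b j : ℕ) : List M.Γ0 :=
  tank M q 0 (g2st M.m a b) ++ replicate j (R (r 0))

theorem g2_mod {T x i : ℕ} (h0 : 0 < i) (h1 : i < T) : (x * T + i) % T ≠ 0 := by
  rw [Nat.mul_add_mod_self_right, Nat.mod_eq_of_lt h1]
  omega

section

variable {V : Type} {M : Mach} {e T : ℕ} {val : List M.Γ0 → V}
  (h1 : ∀ P P', Rch (amvM M e) (mkw (per T) 0 P) (mkw (per T) 0 P') → val P = val P')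
include h1

theorem g2_pull (a b j : ℕ) : val (g2W M M.g0 a b (j + 1)) =
    val (g2W M (if (a + b + M.m + 3) % T = 0 then M.g1 else M.g0) a (b + 1) j) := by
  have h := rch_step M e (per T) [] [] 0 (a + b + j + 1)
    (AStep.pull M.g0 M.g0 M.g1 (g2st M.m a b) M.hg0) (by rw [g2_tot]; omega)
    (by rw [tot_inc, g2_tot]; omega)
  rw [g2_inc, g2_tot, g2_tot, show a + b + j + 1 - (a + b) = j + 1 by omega,
    show a + b + j + 1 - (a + (b + 1)) = j by omega] at h
  simpa [g2W, per] using h1 _ _ h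

theorem g2_pulls (a b j N : ℕ) (h : ∀ i < N, (a + b + i + M.m + 3) % T ≠ 0) :
    val (g2W M M.g0 a b (j + N)) = val (g2W M M.g0 a (b + N) j) := by
  induction N generalizing j with
  | zero => rfl
  | succ N ih =>
    rw [show j + (N + 1) = j + 1 + N by ring, ih _ fun i hi => h i (by omega), g2_pull h1,
      if_neg (by rw [← add_assoc a]; exact h N (Nat.lt_succ_self N)), add_assoc]

theorem g2_first (hT : M.m + 3 ≤ T) (a b k : ℕ) :
    val (g2W M M.g0 (a * T) (b * T) ((k + 1) * T)) =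
      val (g2W M M.g1 (a * T) (b * T + (T - M.m - 3) + 1) (k * T + (M.m + 2))) := by
  rw [show (k + 1) * T = k * T + (M.m + 2) + 1 + (T - M.m - 3) by rw [add_mul]; omega,
    g2_pulls h1 _ _ _ _ fun i hi => ?_, g2_pull h1, if_pos]
  · rw [show a * T + (b * T + (T - M.m - 3)) + M.m + 3 = (a + b + 1) * T by
      rw [add_mul, add_mul]; omega]
    exact Nat.mul_mod_left _ _
  · rw [show a * T + b * T + i + M.m + 3 = (a + b) * T + (i + M.m + 3) by ring]
    exact g2_mod (by omega) (by omega)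

theorem g2_second (hT : M.m + 3 ≤ T) (a b k : ℕ) :
    val (g2W M M.g0 (a * T) (b * T + (T - M.m - 3) + 1) (k * T + (M.m + 2))) =
      val (g2W M M.g0 (a * T) ((b + 1) * T) (k * T)) := by
  rw [g2_pulls h1 _ _ _ _ fun i hi => ?_,
    show b * T + (T - M.m - 3) + 1 + (M.m + 2) = (b + 1) * T by rw [add_mul]; omega]
  rw [show a * T + (b * T + (T - M.m - 3) + 1) + i + M.m + 3 = (a + b + 1) * T + (i + 1) by
    rw [add_mul, add_mul]; omega]
  exact g2_mod (by omega) (by omega)

theorem g2_start (i k : ℕ) : val (wV M T i ++ wW M T k) = val (g2W M M.g0 (i * T) 0 (k * T)) := by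
  have h := rch_head M e (per T) [L o] (R (s (Fin.last _)) :: replicate (k * T) (R (r 0))) M.g0 0
    (replicate (i * T) (r 0) ++ seps M.m) fun y hy => by
      rcases mem_append.1 hy with hy | hy
      · rw [(mem_replicate.1 hy).2]; trivial
      · exact g2_seps y hy
  simpa [wV, wW, g2W, tank, g2_lay M.hm] using (h1 _ _ h).symm

theorem g2_end (b : ℕ) : val (g2W M M.g0 0 b 0) = val (d2R M ++
    (replicate b (L (r (Fin.last _))) ++ [H M.g0 0, R (s (Fin.last _))])) := by
  have h := rch_head M e (per T) [L o] [R (s (Fin.last _))] M.g0 0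
    (seps M.m ++ replicate b (r (Fin.last _))) fun y hy => by
      rcases mem_append.1 hy with hy | hy
      · exact g2_seps y hy
      · rw [(mem_replicate.1 hy).2]; trivial
  simpa [d2R, g2W, tank, g2_lay M.hm] using h1 _ _ h

end

theorem val_test {F V : Type} [Field F] [AddCommGroup V] [Module F V] (M : Mach) (e T : ℕ)
    (hT : M.m + 3 ≤ T) (val : List M.Γ0 → V) (c0 : F)
    (h1 : ∀ P P', Rch (amvM M e) (mkw (per T) 0 P) (mkw (per T) 0 P') → val P = val P')
    (h2 : ∀ t, val (d1L M T ++ t) = c0 • val (d1R M ++ t))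
    (h3 : ∀ t, val (d2L M T ++ t) = c0 • val (d2R M ++ t))
    (h4 : ∀ t, val (d0 M ++ t) = 0) :
    (∀ k, val (wV M T k ++ wW M T k) = c0 ^ (2 * k) • val (wC M)) ∧
      ∀ i k, i < k → val (wV M T i ++ wW M T k) = 0 := by
  have s1 : ∀ a b k, val (g2W M M.g0 ((a + 1) * T) (b * T) ((k + 1) * T)) =
      c0 • val (g2W M M.g0 (a * T) ((b + 1) * T) (k * T)) := fun a b k => by
    rw [g2_first h1 hT, ← g2_second h1 hT]
    have := h2 ((lay (g2st M.m (a * T) (b * T + (T - M.m - 3) + 1))).map R ++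
      replicate (k * T + (M.m + 2)) (R (r 0)))
    rw [show (a + 1) * T = T + a * T by ring]
    simpa [d1L, d1R, g2W, tank, g2_lay M.hm, replicate_add, -replicate_append_replicate]
      using this
  have s2 : ∀ b k, val (g2W M M.g0 (0 * T) (b * T) ((k + 1) * T)) = 0 := fun b k => by
    rw [g2_first h1 hT, zero_mul]
    obtain ⟨l, hl⟩ := g2_zero M.hm (b * T + (T - M.m - 3) + 1)
    have := h4 (l.map R ++ replicate (k * T + (M.m + 2)) (R (r 0)))
    simpa [d0, g2W, tank, hl] using this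
  have s3 : ∀ b, val (g2W M M.g0 0 (b * T) 0) = c0 ^ b • val (wC M) := fun b => by
    rw [g2_end h1]
    induction b with
    | zero => simp [d2R, wC]
    | succ b ih =>
      have := h3 (replicate (b * T) (L (r (Fin.last _))) ++ [H M.g0 0, R (s (Fin.last _))])
      rw [pow_succ', mul_smul, ← ih, ← this, show (b + 1) * T = T + b * T by ring]
      simp [d2L, d2R, replicate_add, -replicate_append_replicate]
  have s4 : ∀ k b, val (g2W M M.g0 (k * T) (b * T) (k * T)) = c0 ^ (2 * k + b) • val (wC M) := by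
    intro k
    induction k with
    | zero => exact fun b => by simpa using s3 b
    | succ k ih =>
      intro b
      rw [s1, ih, ← mul_smul, ← pow_succ']
      congr 2
      ring
  have s5 : ∀ i k b, i < k → val (g2W M M.g0 (i * T) (b * T) (k * T)) = 0 := by
    intro i
    induction i with
    | zero =>
      intro k b hk
      obtain ⟨k, rfl⟩ := Nat.exists_eq_succ_of_ne_zero hk.ne'
      exact s2 b k
    | succ i ih =>
      intro k b hk
      obtain ⟨k, rfl⟩ := Nat.exists_eq_succ_of_ne_zero (show k ≠ 0 by omega)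
      rw [s1, ih k _ (by omega), smul_zero]
  refine ⟨fun k => ?_, fun i k hik => ?_⟩
  · rw [g2_start h1]
    simpa using s4 k 0
  · rw [g2_start h1]
    simpa using s5 i k 0 hik

end Pool.Agent.Lib.MP_038c09_al.Pi
end

-- part PiG3
section

/-!
A divergent input gives a finitely presented algebra that is not residually finite-dimensional.
-/

namespace Pool.Agent.Lib.MP_038c09_al.Pi

open List G0 Y

/-- product of the differences inside the periods -/
def g3alt (T : ℕ) : List ℤ → ℕ → List ℤ → ℤ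
  | _, _, [] => 1
  | S, i, x :: xs => if i % T = 0 then g3alt T [] (i + 1) xs
      else (S.map (x - ·)).prod * g3alt T (x :: S) (i + 1) xs

theorem g3alt_congr {T : ℕ} (xs : List ℤ) : ∀ {S S' : List ℤ} {i i' : ℕ}, i % T = i' % T →
    (S ~ S' ∨ i % T = 0) → g3alt T S i xs = g3alt T S' i' xs := by
  induction xs with
  | nil => intros; rfl
  | cons x xs ih =>
    intro S S' i i' h hS
    have h1 : (i + 1) % T = (i' + 1) % T := by rw [Nat.add_mod, h, ← Nat.add_mod]
    rw [g3alt, g3alt, ← h]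
    split_ifs with h0
    · exact ih h1 (Or.inl (Perm.refl _))
    · have h2 := hS.resolve_right h0
      rw [(h2.map _).prod_eq, ih h1 (Or.inl (h2.cons x))]

theorem g3alt_append {T : ℕ} (A B : List ℤ) : ∀ {S : List ℤ} {i : ℕ}, (i + A.length) % T = 0 →
    g3alt T S i (A ++ B) = g3alt T S i A * g3alt T [] 0 B := by
  induction A with
  | nil =>
    intro S i h
    rw [nil_append, g3alt, one_mul]
    exact g3alt_congr B (by simpa using h) (Or.inr (by simpa using h))
  | cons x A ih =>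
    intro S i h
    have h1 : (i + 1 + A.length) % T = 0 := by rwa [add_assoc, add_comm 1, ← length_cons]
    rw [cons_append, g3alt, g3alt]
    split_ifs
    · exact ih h1
    · rw [ih h1, mul_assoc]

theorem g3alt_swap {T : ℕ} (A : List ℤ) (x y : ℤ) (B : List ℤ) : ∀ {S : List ℤ} {i : ℕ},
    (i + A.length) % T ≠ 0 → (i + A.length + 1) % T ≠ 0 →
    g3alt T S i (A ++ x :: y :: B) = -g3alt T S i (A ++ y :: x :: B) := by
  induction A with
  | nil =>
    intro S i h1 h2
    simp only [length_nil, add_zero] at h1 h2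
    simp only [nil_append, g3alt, if_neg h1, if_neg h2, map_cons, prod_cons]
    rw [g3alt_congr B rfl (Or.inl (Perm.swap x y S))]
    ring
  | cons a A ih =>
    intro S i h1 h2
    rw [length_cons, add_comm A.length, ← add_assoc] at h1 h2
    rw [cons_append, cons_append, g3alt, g3alt]
    split_ifs
    · exact ih h1 h2
    · rw [ih h1 h2, mul_neg]

/-- the standard arguments -/
def g3std (T i n : ℕ) : List ℤ := (range' i n).map fun j => ((j % T : ℕ) : ℤ)

theorem g3alt_ne {T : ℕ} (hT : 0 < T) (n : ℕ) : ∀ {S : List ℤ} {i : ℕ},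
    (i % T = 0 ∨ ∀ s ∈ S, s < (i % T : ℕ)) → g3alt T S i (g3std T i n) ≠ 0 := by
  induction n with
  | zero => intros; exact one_ne_zero
  | succ n ih =>
    intro S i h
    rw [g3std, range'_succ, map_cons, g3alt]
    split_ifs with h0
    · exact ih (Or.inr (by simp))
    · have h1 := h.resolve_left h0
      refine mul_ne_zero (prod_ne_zero fun hm => ?_) (ih ?_)
      · obtain ⟨s, hs, e⟩ := mem_map.1 hm
        have := h1 s hs
        omega
      · have h2 := Nat.mod_lt i hT
        have h3 : (i + 1) % T = (i % T + 1) % T := by simp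
        by_cases h4 : i % T + 1 = T
        · exact Or.inl (by rw [h3, h4, Nat.mod_self])
        · rw [Nat.mod_eq_of_lt (by omega : i % T + 1 < T)] at h3
          refine Or.inr fun s hs => ?_
          rcases mem_cons.1 hs with rfl | hs
          · omega
          · have := h1 s hs
            omega

theorem g3std_add (T n : ℕ) : g3std T 0 (T + n) = g3std T 0 T ++ g3std T 0 n := by
  have : ∀ n i, g3std T (T + i) n = g3std T i n := fun n => by
    induction n with
    | zero => intro; rfl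
    | succ n ih =>
      intro i
      have := ih (i + 1)
      simp only [g3std, range'_succ, map_cons, Nat.add_mod_left] at this ⊢
      rw [add_assoc, this]
  rw [← this n 0, g3std, ← range'_append_1, map_append, zero_add]
  rfl

/-- the first entries of the blocks of length `l + 1` -/
def g3fst (l : ℕ) : ℕ → List ℤ → List ℤ
  | _, [] => []
  | 0, x :: xs => x :: g3fst l l xs
  | k + 1, _ :: xs => g3fst l k xs

theorem g3fst_skip (l : ℕ) (A B : List ℤ) : g3fst l A.length (A ++ B) = g3fst l 0 B := by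
  induction A with
  | nil => rfl
  | cons x A ih => exact ih

theorem g3fst_blocks (l n : ℕ) : ∀ A : List ℤ, A.length = n * (l + 1) →
    ∃ A' : List ℤ, A'.length = n ∧ ∀ B, g3fst l 0 (A ++ B) = A' ++ g3fst l 0 B := by
  induction n with
  | zero =>
    intro A h
    obtain rfl : A = [] := by simpa using h
    exact ⟨[], rfl, fun _ => rfl⟩
  | succ n ih =>
    intro A h
    rw [add_mul, one_mul] at h
    cases A with
    | nil => simp at h
    | cons x A =>
      rw [length_cons] at h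
      obtain ⟨A', h1, h2⟩ := ih (A.drop l) (by rw [length_drop]; omega)
      refine ⟨x :: A', by simp [h1], fun B => ?_⟩
      have := g3fst_skip l (A.take l) (A.drop l ++ B)
      rw [← append_assoc, take_append_drop, length_take, min_eq_left (by omega), h2] at this
      rw [cons_append, g3fst, this, cons_append]

section std

variable {Γ : Type} (c : Cd Γ) (T : ℕ) [NeZero T]

/-- coded word with the standard arguments -/
def g3w : ℕ → List Γ → List (Bool × Fin T)
  | _, [] => []
  | i, γ :: P => (c.cd γ).map (fun b => (b, Fin.ofNat T i)) ++ g3w (i + 1) P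

/-- arguments as integers -/
def g3arg {T : ℕ} (w : List (Bool × Fin T)) : List ℤ :=
  (arg w).map fun x : Fin T => ((x : ℕ) : ℤ)

theorem g3w_shp (P : List Γ) : ∀ i, shp (g3w c T i P) = c.κ P := by
  induction P with
  | nil => intro; rfl
  | cons γ P ih => intro i; simp [g3w, ih, Function.comp_def]

theorem g3w_append (P Q : List Γ) :
    ∀ i, g3w c T i (P ++ Q) = g3w c T i P ++ g3w c T (i + P.length) Q := by
  induction P with
  | nil => intro; rfl
  | cons γ P ih => intro i; simp [g3w, ih, add_assoc, add_comm 1]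

theorem g3w_congr (P : List Γ) : ∀ {i i'}, i % T = i' % T → g3w c T i P = g3w c T i' P := by
  induction P with
  | nil => intros; rfl
  | cons γ P ih =>
    intro i i' h
    rw [g3w, g3w, ih (i' := i' + 1) (by rw [Nat.add_mod, h, ← Nat.add_mod]),
      show Fin.ofNat T i = Fin.ofNat T i' from Fin.ext h]

theorem g3w_arg (P : List Γ) : ∀ (P' : List Γ) i, P.length = P'.length →
    arg (g3w c T i P) = arg (g3w c T i P') := by
  induction P with
  | nil =>
    intro P' i h
    rw [length_eq_zero_iff.1 h.symm]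
  | cons γ P ih =>
    intro P' i h
    cases P' with
    | nil => simp at h
    | cons γ' P' =>
      have := ih P' (i + 1) (by simpa using h)
      simp only [g3w, arg, map_append, map_map, Function.comp_def, map_const', c.length_cd] at this ⊢
      rw [this]

theorem g3w_fst (P : List Γ) (B : List ℤ) : ∀ i, g3fst (c.K + 3) 0 (g3arg (g3w c T i P) ++ B) =
    g3std T i P.length ++ g3fst (c.K + 3) 0 B := by
  induction P with
  | nil => intro; rfl
  | cons γ P ih =>
    intro i
    have h1 := g3fst_skip (c.K + 3) (replicate (c.K + 3) ((i % T : ℕ) : ℤ))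
      (g3arg (g3w c T (i + 1) P) ++ B)
    rw [length_replicate, ih] at h1
    have h2 : g3arg (g3w c T i (γ :: P)) = ((i % T : ℕ) : ℤ) ::
        (replicate (c.K + 3) ((i % T : ℕ) : ℤ) ++ g3arg (g3w c T (i + 1) P)) := by
      simp only [g3w, g3arg, arg, map_append, map_map, Function.comp_def, map_const', c.length_cd,
        map_replicate]
      rfl
    rw [h2, cons_append, g3fst, append_assoc, h1]
    rfl

end std

section fn

variable (M : Mach) (T : ℕ)

/-- codes of good words -/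
def g3ok (Z : List Bool) : Prop := ∃ P, Z = (cdM M).κ (mkw (per T) 0 P) ∧ Good M T P

open Classical in
/-- the functional on words -/
noncomputable def g3φ (w : List (Bool × Fin T)) : ℤ :=
  if g3ok M T (shp w) then g3alt T [] 0 (g3fst ((cdM M).K + 3) 0 (g3arg w)) else 0

/-- marked, coded word with the standard arguments -/
noncomputable def g3s [NeZero T] (i : ℕ) (P : List M.Γ0) : List (Bool × Fin T) :=
  g3w (cdM M) T i (mkw (per T) i P)

variable {M T}

theorem g3mkw {β : Type} {i i' : ℕ} (h : i % T = i' % T) (P : List β) :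
    mkw (per T) i P = mkw (per T) i' P :=
  mkw_congr fun k _ => by simp only [per]; rw [Nat.add_mod, h, ← Nat.add_mod]

theorem g3s_append [NeZero T] (P Q : List M.Γ0) {j : ℕ} (h : P.length % T = j % T) :
    g3s M T 0 (P ++ Q) = g3s M T 0 P ++ g3s M T j Q := by
  rw [g3s, mkw_append, g3w_append, zero_add, zero_add, length_mkw, g3mkw h, g3w_congr _ _ _ h]
  rfl

theorem g3sync {z : List M.Γ} (hz : z ≠ []) {p t : List Bool}
    (h : g3ok M T (p ++ ((cdM M).κ z ++ t))) : ∃ P P1 P3, Good M T P ∧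
      mkw (per T) 0 P = P1 ++ z ++ P3 ∧ p = (cdM M).κ P1 ∧ t = (cdM M).κ P3 := by
  obtain ⟨P, h1, h2⟩ := h
  obtain ⟨P1, P3, e1, e2, e3⟩ := (cdM M).sync_κ (m := 0) (n := 0) (P := mkw (per T) 0 P) hz
    (by simpa using h1)
  exact ⟨P, P1, P3, h2, e1, by simpa using e2, by simpa using e3⟩

theorem g3pre {Q : List M.Γ0} {t : List Bool} : g3ok M T ((cdM M).κ (mkw (per T) 0 Q) ++ t) ↔
    ∃ Q', t = (cdM M).κ (mkw (per T) Q.length Q') ∧ Good M T (Q ++ Q') := by
  constructor
  · rintro ⟨P, h1, h2⟩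
    obtain ⟨P3, e1, e2⟩ := (cdM M).κ_prefix (n := 0) (P := mkw (per T) 0 P) _ (by simpa using h1)
    obtain ⟨e3, -, e4⟩ := mkw_eq_append e1
    rw [map_fst_mkw] at e3
    rw [zero_add, length_mkw] at e4
    exact ⟨_, by rw [← e4]; simpa using e2, e3 ▸ h2⟩
  · rintro ⟨Q', rfl, h⟩
    exact ⟨_, by rw [mkw_append, Cd.κ_append, zero_add], h⟩

theorem g3mv_ne {e : ℕ} {u u' : List M.Γ} (h : (u, u') ∈ mvM M e) : u ≠ [] ∧ u' ≠ [] := by
  rcases h with h | ⟨q, x, y, μ, h⟩
  · cases h <;> simp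
  · obtain ⟨rfl, rfl⟩ := Prod.mk.inj h
    simp [spL, spR]

theorem g3kl_ne {e : ℕ} {z : List M.Γ} (h : z ∈ klM M e) : z ≠ [] := by
  rcases h with h | ⟨j, q, x, y, μ, -, rfl⟩
  · cases h <;> simp
  · simp [gapW]

theorem g3rel {e : ℕ} (hT : e + M.m + 3 ≤ T) (h0 : ¬ Halts M (per T) M.q0 (Pi.single 0 e))
    {w w' : List (Bool × Fin T)} {a : ℤ} (h : (csM M e).Rl w a w') (p t : List (Bool × Fin T)) :
    g3φ M T (p ++ (w ++ t)) = a * g3φ M T (p ++ (w' ++ t)) := by
  have mv : ∀ {u u' : List M.Γ} {p t : List Bool}, MvW (amvM M e) u u' → u ≠ [] →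
      g3ok M T (p ++ ((cdM M).κ u ++ t)) → g3ok M T (p ++ ((cdM M).κ u' ++ t)) := by
    intro u u' p t hm hu h
    obtain ⟨P, P1, P3, hP, e1, rfl, rfl⟩ := g3sync hu h
    obtain ⟨P', e2, hP'⟩ := good_step M e T (by omega) h0 hP ⟨P1, u, u', P3, hm, e1, rfl⟩
    exact ⟨P', by rw [← e2]; simp, hP'⟩
  cases h with
  | kill _ hk =>
    rw [zero_mul, g3φ, if_neg]
    intro h
    rw [shp, map_append, map_append] at h
    rcases hk with hk | ⟨z, hz, hk⟩
    · obtain ⟨P, h1, -⟩ := h
      exact hk.2 ⟨_, _, _, (append_assoc _ _ _).trans h1⟩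
    · rw [show map Prod.fst w = (cdM M).κ z from hk.symm] at h
      obtain ⟨P, P1, P3, hP, e1, -, -⟩ := g3sync (g3kl_ne hz) h
      exact good_not_kld M e T hT hP ⟨z, hz, P1, P3, e1.symm⟩
  | move u u' _ _ hu h1 h2 h3 =>
    have e1 : g3ok M T (shp (p ++ (w ++ t))) ↔ g3ok M T (shp (p ++ (w' ++ t))) := by
      rw [shp, shp, map_append, map_append, map_append, map_append,
        show map Prod.fst w = (cdM M).κ u from h1, show map Prod.fst w' = (cdM M).κ u' from h2]
      exact ⟨mv (Or.inl (Or.inl hu)) (g3mv_ne hu).1, mv (Or.inr (Or.inl hu)) (g3mv_ne hu).2⟩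
    have e2 : g3arg (p ++ (w ++ t)) = g3arg (p ++ (w' ++ t)) := by
      simp only [g3arg, arg, map_append] at h3 ⊢
      rw [h3]
    rw [one_mul, g3φ, g3φ, e1, e2]
  | swap a b d w0 x w1 y w2 hs h1 h2 h3 =>
    have e1 : ∀ x y : Fin T, shp (p ++ (w0 ++ (true, x) :: (w1 ++ (true, y) :: w2) ++ t)) =
        shp p ++ ((cdM M).κ [a, b, d] ++ shp t) := by
      intro x y
      simp only [Cd.κ_cons, Cd.κ_nil, append_nil]
      rw [← show shp w0 = (cdM M).cd a from h1, ← show true :: shp w1 = (cdM M).cd b from h2,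
        ← show true :: shp w2 = (cdM M).cd d from h3]
      simp
    rw [g3φ, g3φ, e1, e1]
    split_ifs with h
    swap
    · simp
    obtain ⟨P, P1, P3, -, e2, e3, -⟩ := g3sync (by simp) h
    obtain ⟨q, x', μ, y1, y2, -, -, e4⟩ := hs
    obtain ⟨rfl, rfl, rfl⟩ : a = (H q x', μ) ∧ b = (R y1, false) ∧ d = (R y2, false) := by
      simpa using e4
    rw [append_assoc] at e2
    have e5 := (mkw_eq_append e2).2.2
    simp only [cons_append, map_cons, mkw_cons, cons.injEq, Prod.mk.injEq, true_and, per, zero_add,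
      false_eq_decide_iff] at e5
    have l0 := congrArg length h1
    have l1 := congrArg length h2
    have l2 := congrArg length e3
    rw [Cd.length_cd] at l0 l1
    rw [Cd.length_κ] at l2
    simp only [length_map, length_cons, Cd.ℓ] at l0 l1 l2
    have l3 : (csM M e).K = (cdM M).K := rfl
    obtain ⟨A, a1, a2⟩ := g3fst_blocks ((cdM M).K + 3) (P1.length + 1) (g3arg p ++ g3arg w0) (by
      simp only [g3arg, length_append, length_map, l0, l2, l3]
      ring)
    have e6 : ∀ x y : Fin T, g3fst ((cdM M).K + 3) 0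
        (g3arg (p ++ (w0 ++ (true, x) :: (w1 ++ (true, y) :: w2) ++ t))) =
        A ++ ((x : ℕ) : ℤ) :: ((y : ℕ) : ℤ) ::
          g3fst ((cdM M).K + 3) ((cdM M).K + 3) (g3arg w2 ++ g3arg t) := by
      intro x y
      have := g3fst_skip ((cdM M).K + 3) (g3arg w1) (((y : ℕ) : ℤ) :: (g3arg w2 ++ g3arg t))
      rw [show (g3arg w1).length = (cdM M).K + 3 by
        simp only [g3arg, length_map]; omega, g3fst] at this
      rw [← this, ← g3fst, ← a2]
      simp [g3arg]
    rw [e6, e6, neg_one_mul]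
    exact g3alt_swap _ _ _ _ (by rw [a1, zero_add]; exact e5.2.1) (by rw [a1, zero_add]; exact e5.2.2.1)

variable [NeZero T]

theorem g3φ_std (Q : List M.Γ0) (t : List (Bool × Fin T)) (h : g3ok M T (shp (g3s M T 0 Q ++ t))) :
    g3φ M T (g3s M T 0 Q ++ t) =
      g3alt T [] 0 (g3std T 0 Q.length ++ g3fst ((cdM M).K + 3) 0 (g3arg t)) := by
  rw [g3φ, if_pos h, ← length_mkw (per T) 0 Q, ← g3w_fst (cdM M), g3s]
  simp [g3arg]

theorem g3ok_std (Q : List M.Γ0) (t : List (Bool × Fin T)) : g3ok M T (shp (g3s M T 0 Q ++ t)) ↔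
    ∃ Q', shp t = (cdM M).κ (mkw (per T) Q.length Q') ∧ Good M T (Q ++ Q') := by
  rw [← g3pre, ← g3w_shp (cdM M) T _ 0, shp, map_append]
  rfl

theorem g3gen {Q Q' : List M.Γ0} (hl : Q.length = T + Q'.length)
    (h : ∀ t, Good M T (Q ++ t) ↔ Good M T (Q' ++ t)) (t : List (Bool × Fin T)) :
    g3φ M T (g3s M T 0 Q ++ t) = g3alt T [] 0 (g3std T 0 T) * g3φ M T (g3s M T 0 Q' ++ t) := by
  have e : g3ok M T (shp (g3s M T 0 Q ++ t)) ↔ g3ok M T (shp (g3s M T 0 Q' ++ t)) := by
    simp only [g3ok_std, h, g3mkw (show Q.length % T = Q'.length % T by simp [hl])]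
  by_cases hk : g3ok M T (shp (g3s M T 0 Q ++ t))
  · rw [g3φ_std _ _ hk, g3φ_std _ _ (e.1 hk), hl, g3std_add, append_assoc,
      g3alt_append _ _ (by simp [g3std])]
  · rw [g3φ, g3φ, if_neg hk, if_neg (mt e.2 hk), mul_zero]

end fn

theorem g3fin {F V : Type} [Field F] [AddCommGroup V] [Module F V] [Module.Finite F V]
    (v : ℕ → V) (θ : ℕ → V →ₗ[F] V) (h : ∀ i k, i < k → θ k (v i) = 0) : ∃ k, θ k (v k) = 0 := by
  obtain ⟨k, hk⟩ := monotone_stabilizes_iff_noetherian.2 (inferInstance : IsNoetherian F V)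
    ⟨fun k => Submodule.span F (v '' Set.Iio k), fun a b hab =>
      Submodule.span_mono (Set.image_mono (Set.Iio_subset_Iio hab))⟩
  have h1 : v k ∈ Submodule.span F (v '' Set.Iio k) :=
    (hk (k + 1) (by omega)).ge (Submodule.subset_span ⟨k, Nat.lt_succ_self k, rfl⟩)
  refine ⟨k, (Submodule.span_le (p := LinearMap.ker (θ k))).2 ?_ h1⟩
  rintro _ ⟨i, hi, rfl⟩
  exact h i k hi

theorem not_rfd_of_div (F : Type) [Field F] [CharZero F] (M : Mach) (e T : ℕ)
    (hT : e + M.m + 3 ≤ T) (h0 : ¬ Halts M (per T) M.q0 (Pi.single 0 e)) :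
    ¬ IsRFDVariety (polysD F (csM M e).Ids) := by
  classical
  have hT0 : 0 < T := by omega
  have : NeZero T := ⟨hT0.ne'⟩
  let Φ : PP F (Fin T) →ₗ[F] F := Finsupp.linearCombination F fun gw => (g3φ M T gw.2 : F)
  have hΦ : ∀ g w, Φ (bw F g w) = g3φ M T w := fun g w => by simp [Φ, bw]
  let c0 : F := g3alt T [] 0 (g3std T 0 T)
  let b : List M.Γ0 → PP F (Fin T) := fun P => bw F (0, 0) (g3s M T 0 P)
  have l1 : (d1L M T).length = T + (d1R M).length := by simp [d1L, d1R]
  have l2 : (d2L M T).length = T + (d2R M).length := by simp [d2L, d2R]; ring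
  have hm : ∀ x, x ∈ (⨅ t, LinearMap.ker (Φ ∘ₗ ρ t) : Submodule F (PP F (Fin T))) ↔
      ∀ t, Φ (ρ t x) = 0 := fun x => by simp [Submodule.mem_iInf]
  refine not_rfd_ofD _ (csM M e).good_ids
    {b (d1L M T) - c0 • b (d1R M), b (d2L M T) - c0 • b (d2R M), b (d0 M)} (b (wC M))
    (⨅ t, LinearMap.ker (Φ ∘ₗ ρ t)) (fun u x hx => ?_) ?_ (fun x hx => ?_) (fun ha => ?_)
    fun J hJ hR hG hF => ?_
  · rw [hm] at hx ⊢
    intro t
    rw [← ρ_append, hx]
  · rw [CS.relG_ids]
    refine Submodule.span_le.2 ?_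
    rintro _ ⟨g, p, w, a, w', t, hr, rfl⟩
    refine (hm _).2 fun t' => ?_
    rw [map_sub, map_smul, ρ_bw, ρ_bw, map_sub, map_smul, hΦ, hΦ, append_assoc, append_assoc,
      append_assoc, append_assoc, g3rel hT h0 hr]
    simp
  · refine (hm _).2 fun t => ?_
    simp only [Finset.coe_insert, Finset.coe_singleton, Set.mem_insert_iff,
      Set.mem_singleton_iff] at hx
    rcases hx with rfl | rfl | rfl
    · simp only [b, c0, map_sub, map_smul, ρ_bw, hΦ, g3gen l1 (good_d1 M T hT0)]
      simp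
    · simp only [b, c0, map_sub, map_smul, ρ_bw, hΦ, g3gen l2 (good_d2 M T hT0)]
      simp
    · rw [ρ_bw, hΦ, g3φ, if_neg, Int.cast_zero]
      rw [g3ok_std]
      rintro ⟨Q', -, h⟩
      exact good_d0 M T hT0 Q' h
  · have := (hm _).1 ha []
    rw [ρ_bw, hΦ, g3φ_std _ _ ((g3ok_std _ _).2 ⟨[], rfl, by simpa using good_wC M T⟩)] at this
    exact g3alt_ne hT0 (wC M).length (S := []) (i := 0) (Or.inr (by simp))
      (by simpa [g3arg, g3fst] using this)
  · rw [CS.relG_ids] at hR
    have st : ∀ {W W' : List M.Γ}, Stp (amvM M e) W W' →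
        J.mkQ (bw F (0, 0) (g3w (cdM M) T 0 W)) = J.mkQ (bw F (0, 0) (g3w (cdM M) T 0 W')) := by
      have : ∀ p u u' t : List M.Γ, (u, u') ∈ amvM M e →
          J.mkQ (bw F (0, 0) (g3w (cdM M) T 0 (p ++ u ++ t))) =
            J.mkQ (bw F (0, 0) (g3w (cdM M) T 0 (p ++ u' ++ t))) := by
        rintro p u u' t (hu | ⟨a, b, d, -, hu⟩)
        · have hl : u.length = u'.length := mvM_len M e _ hu
          have := hR (relG_mem (F := F) (CS.Rl.move (s := csM M e) u u'
            (g3w (cdM M) T (0 + p.length) u) (g3w (cdM M) T (0 + p.length) u') hu (g3w_shp _ _ _ _)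
            (g3w_shp _ _ _ _) (g3w_arg _ _ _ _ _ hl)) (0, 0) (g3w (cdM M) T 0 p)
            (g3w (cdM M) T (0 + p.length + u.length) t))
          rw [Int.cast_one, one_smul] at this
          rw [append_assoc, append_assoc, g3w_append, g3w_append, g3w_append, g3w_append, ← hl]
          exact (Submodule.Quotient.eq J).2 this
        · obtain ⟨rfl, rfl⟩ := Prod.mk.inj hu
          rfl
      rintro _ _ ⟨p, u, u', t, hu | hu, rfl, rfl⟩
      exacts [this p u u' t hu, (this p u' u t hu).symm]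
    have gn : ∀ {Q Q' : List M.Γ0}, Q.length = T + Q'.length → b Q - c0 • b Q' ∈ J → ∀ t,
        J.mkQ (b (Q ++ t)) = c0 • J.mkQ (b (Q' ++ t)) := fun {Q Q'} hl h t => by
      have := hJ.ρ_mem (g3s M T Q'.length t) h
      rw [map_sub, map_smul, ρ_bw, ρ_bw, ← g3s_append _ _ rfl,
        ← g3s_append _ _ (by simp [hl])] at this
      rw [← map_smul]
      exact (Submodule.Quotient.eq J).2 this
    obtain ⟨v1, v2⟩ := val_test M e T (by omega) (fun P => J.mkQ (b P)) c0
      (fun P P' h => by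
        simp only [b, g3s]
        generalize mkw (per T) 0 P' = W' at h
        induction h with
        | refl => rfl
        | tail _ h2 ih => exact ih.trans (st h2))
      (gn l1 (hG (by simp))) (gn l2 (hG (by simp))) fun t => by
        have := hJ.ρ_mem (g3s M T (d0 M).length t) (hG (show b (d0 M) ∈ _ by simp))
        rw [ρ_bw, ← g3s_append _ _ rfl] at this
        exact (Submodule.Quotient.mk_eq_zero J).2 this
    have hθ : ∀ i k, J.mapQ J (ρ (g3s M T 1 (wW M T k))) (fun _ hx => hJ.ρ_mem _ hx)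
        (J.mkQ (b (wV M T i))) = J.mkQ (b (wV M T i ++ wW M T k)) := fun i k => by
      rw [Submodule.mkQ_apply, Submodule.mapQ_apply, ρ_bw,
        ← g3s_append _ _ (by simp [wV, Nat.add_mod])]
      rfl
    have : Module.Finite F (PP F (Fin T) ⧸ J) := hF
    obtain ⟨k, hk⟩ := g3fin (fun i => J.mkQ (b (wV M T i)))
      (fun k => J.mapQ J (ρ (g3s M T 1 (wW M T k))) fun _ hx => hJ.ρ_mem _ hx)
      fun i k hik => (hθ i k).trans (v2 i k hik)
    rw [hθ, v1, smul_eq_zero] at hk
    exact (Submodule.Quotient.mk_eq_zero J).1 (hk.resolve_left (pow_ne_zero _ (Int.cast_ne_zero.2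
      (g3alt_ne hT0 T (S := []) (i := 0) (Or.inr (by simp))))))

end Pool.Agent.Lib.MP_038c09_al.Pi
end
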