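import Mathlib

-- part Pool.Agent.Lib.MP_038c09_al.Mach
section

/-!
Row systems (one-way cellular automata run by sweeps) and length-preserving rewriting systems
with forbidden factors.
-/

namespace Pool.Agent.Lib.MP_038c09_al

section Row

variable {C : Type}

/-- One sweep over a row, remembering the two previous old cells `x`, `y`. -/
def nx (f : C → C → C → C) (b : C) : C → C → List C → List C
  | x, y, [] => [f x y b, f y b b]
  | x, y, z :: r => f x y z :: nx f b y z r

/-- The next row: two cells longer, cell `i` is `f old[i-2] old[i-1] old[i]`. -/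
def nextRow (f : C → C → C → C) (b : C) (w : List C) : List C := nx f b b b w

/-- Some iterated row contains a halting cell. -/
def HaltsRow (f : C → C → C → C) (b : C) (hl : C → Prop) (w : List C) : Prop :=
  ∃ t : ℕ, ∃ z ∈ (nextRow f b)^[t] w, hl z

end Row

section Thue

variable {Γ : Type}

/-- One rewriting step. -/
def Step (mv : Set (List Γ × List Γ)) (P P' : List Γ) : Prop :=
  ∃ p s u u', (u, u') ∈ mv ∧ P = p ++ u ++ s ∧ P' = p ++ u' ++ s

/-- The word has a forbidden factor. -/
def Killed (kl : Set (List Γ)) (P : List Γ) : Prop := ∃ z ∈ kl, z <:+: P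

/-- Some sequence of steps reaches a forbidden factor. -/
inductive Dead (mv : Set (List Γ × List Γ)) (kl : Set (List Γ)) : List Γ → Prop
  | kill {P : List Γ} : Killed kl P → Dead mv kl P
  | step {P P' : List Γ} : Step mv P P' → Dead mv kl P' → Dead mv kl P

/-- The word starts with `lb` and ends with `rb`. -/
def Complete (lb rb : Γ) (P : List Γ) : Prop := P.head? = some lb ∧ P.getLast? = some rb

/-- There is a nonempty family of complete words of one length, without forbidden factors and
closed under steps in both directions. -/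
def Alive (mv : Set (List Γ × List Γ)) (kl : Set (List Γ)) (lb rb : Γ) : Prop :=
  ∃ (A : Set (List Γ)) (N : ℕ), A.Nonempty ∧
    (∀ P ∈ A, P.length = N ∧ Complete lb rb P ∧ ¬ Killed kl P) ∧
    ∀ P P', Step mv P P' → (P ∈ A ↔ P' ∈ A)

/-- Every complete word is dead. -/
def AllDead (mv : Set (List Γ × List Γ)) (kl : Set (List Γ)) (lb rb : Γ) : Prop :=
  ∀ P, Complete lb rb P → Dead mv kl P

/-- The restart move that writes the input `w`. -/
def mvOf (lb h s g : Γ) (w : List Γ) : List Γ × List Γ :=
  (lb :: h :: List.replicate w.length g, lb :: s :: w)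

/-- The forbidden words saying that there is no room to write an input of length `N`. -/
def klOf (lb h g : Γ) (N : ℕ) : Set (List Γ) :=
  {z | ∃ j < N, ∃ γ, γ ≠ g ∧ z = lb :: h :: (List.replicate j g ++ [γ])}

end Thue

end Pool.Agent.Lib.MP_038c09_al
end

-- part Pool.Agent.Lib.MP_038c09_al.Row
section

/-!
A row system whose halting problem on the rows `c0 c1 ... c1` is the halting problem.
-/

namespace Pool.Agent.Lib.MP_038c09_al

open Turing

namespace RowSim

section Sim

variable {Γ Λ : Type} [Inhabited Γ] [Inhabited Λ] (M : TM0.Machine Γ Λ) (S : Finset Λ)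

/-- A cell without head. -/
def pl (a : Γ) : Γ × Option S := (a, none)

open scoped Classical in
/-- A state as an element of the finite support. -/
noncomputable def res (q : Λ) : Option S := if h : q ∈ S then some ⟨q, h⟩ else none

/-- The action of the machine at a cell. -/
def act (c : Γ × Option S) : Option (Λ × TM0.Stmt Γ) := c.2.bind fun q => M q c.1

/-- The new symbol. -/
def sym (y : Γ × Option S) : Γ :=
  match act M S y with
  | some (_, TM0.Stmt.write a) => a
  | _ => y.1

/-- The new state after a write. -/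
noncomputable def wr (y : Γ × Option S) : Option S :=
  match act M S y with
  | some (q, TM0.Stmt.write _) => res S q
  | _ => none

/-- The new state after a move to the right. -/
noncomputable def mr (y : Γ × Option S) : Option S :=
  match act M S y with
  | some (q, TM0.Stmt.move Dir.right) => res S q
  | _ => none

/-- The new state after a move to the left. -/
noncomputable def ml (y : Γ × Option S) : Option S :=
  match act M S y with
  | some (q, TM0.Stmt.move Dir.left) => res S q
  | _ => none

/-- The local rule. -/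
noncomputable def rule (x y z : Γ × Option S) : Γ × Option S :=
  (sym M S y, (wr M S y).or ((mr M S x).or (ml M S z)))

/-- Halting cells. -/
def hlt (c : Γ × Option S) : Prop := ∃ q : S, c.2 = some q ∧ M q c.1 = none

omit [Inhabited Γ] in
theorem rule_l (a e : Γ) (z : Γ × Option S) :
    rule M S (pl S a) (pl S e) z = (e, ml M S z) := by
  simp [rule, sym, wr, mr, act, pl]

omit [Inhabited Γ] in
theorem rule_m (a e : Γ) (y : Γ × Option S) :
    rule M S (pl S a) y (pl S e) = (sym M S y, wr M S y) := by
  simp [rule, mr, ml, act, pl]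

omit [Inhabited Γ] in
theorem rule_r (a e : Γ) (x : Γ × Option S) :
    rule M S x (pl S a) (pl S e) = (a, mr M S x) := by
  simp [rule, sym, wr, ml, act, pl]

omit [Inhabited Γ] in
theorem mr_pl (a : Γ) : mr M S (pl S a) = none := by
  simp [mr, act, pl]

theorem nx_right (r : List Γ) : ∀ (x : Γ × Option S) (a : Γ),
    nx (rule M S) (pl S default) x (pl S a) (r.map (pl S)) =
      (a, mr M S x) :: (r ++ [default]).map (pl S) := by
  induction r with
  | nil => intro x a; simp only [List.map, nx, rule_r, mr_pl, List.nil_append]; rfl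
  | cons z r ih =>
    intro x a
    simp only [List.map, nx, rule_r, ih, mr_pl, List.cons_append]; rfl

theorem nx_left (l : List Γ) (w : List (Γ × Option S)) : ∀ a e : Γ, ∃ a' e' L,
    e :: l = L ++ [e'] ∧ nx (rule M S) (pl S default) (pl S a) (pl S e) (l.map (pl S) ++ w) =
      L.map (pl S) ++ nx (rule M S) (pl S default) (pl S a') (pl S e') w := by
  induction l with
  | nil => intro a e; exact ⟨a, e, [], rfl, rfl⟩
  | cons z l ih =>
    intro a e
    obtain ⟨a', e', L, h1, h2⟩ := ih e z
    refine ⟨a', e', e :: L, by rw [h1]; rfl, ?_⟩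
    simp only [List.map, List.cons_append, nx, rule_r, mr_pl, h2]; rfl

theorem next_eq (l r : List Γ) (h : Γ × Option S) : ∃ e L c R,
    default :: l = L ++ [e] ∧ r ++ [default] = c :: R ∧
    nextRow (rule M S) (pl S default) (l.map (pl S) ++ h :: r.map (pl S)) =
      L.map (pl S) ++ (e, ml M S h) :: (sym M S h, wr M S h) :: (c, mr M S h) :: R.map (pl S) := by
  obtain ⟨a', e, L, h1, h2⟩ := nx_left M S l (h :: r.map (pl S)) default default
  cases r with
  | nil =>
    refine ⟨e, L, default, [], h1, rfl, ?_⟩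
    rw [nextRow, h2]
    simp only [List.map, nx, rule_l, rule_m, rule_r]
  | cons c r =>
    refine ⟨e, L, c, r ++ [default], h1, rfl, ?_⟩
    rw [nextRow, h2]
    simp only [List.map, nx, rule_l, rule_m, nx_right]

/-- The row represents the configuration. -/
def Rep (w : List (Γ × Option S)) (c : TM0.Cfg Γ Λ) : Prop :=
  ∃ (l r : List Γ) (hq : c.q ∈ S),
    w = l.map (pl S) ++ (c.Tape.head, some ⟨c.q, hq⟩) :: r.map (pl S) ∧
    c.Tape.left = ListBlank.mk l.reverse ∧ c.Tape.right = ListBlank.mk r

theorem mk_pad (l : List Γ) : ListBlank.mk (l ++ [default]) = ListBlank.mk l :=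
  Quotient.sound' (Or.inr ⟨1, rfl⟩)

variable {M S}

theorem Rep.step (ss : TM0.Supports M (S : Set Λ)) {w : List (Γ × Option S)}
    {c c' : TM0.Cfg Γ Λ} (h : Rep S w c) (hs : c' ∈ TM0.step M c) :
    Rep S (nextRow (rule M S) (pl S default) w) c' := by
  have hq' : c'.q ∈ S := TM0.step_supports M ss hs h.choose_spec.choose_spec.choose
  obtain ⟨q, a, TL, TR⟩ := c
  obtain ⟨l, r, hq, rfl, hl, hr⟩ := h
  dsimp only at hq hl hr ⊢
  obtain ⟨⟨q', s⟩, hm, rfl⟩ := Option.map_eq_some_iff.1 hs
  dsimp only at hm hq'
  obtain ⟨e, L, c, R, h1, h2, h3⟩ := next_eq M S l r (a, some ⟨q, hq⟩)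
  have ha : act M S (a, some ⟨q, hq⟩) = some (q', s) := hm
  have hres : res S q' = some ⟨q', hq'⟩ := by simp [res, hq']
  have hL : TL = ListBlank.mk (e :: L.reverse) := by
    rw [hl, ← mk_pad, ← List.reverse_cons, h1]; simp
  have hR : TR = ListBlank.mk (c :: R) := by rw [hr, ← mk_pad, h2]
  rw [h3]
  subst hL hR
  rcases s with (_ | _) | a'
  · refine ⟨L, a :: c :: R, hq', ?_, ?_, ?_⟩
    · simp [ml, sym, wr, mr, ha, hres, Tape.move, pl]
    · simp [Tape.move]
    · simp [Tape.move]
  · refine ⟨L ++ [e, a], R, hq', ?_, ?_, ?_⟩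
    · simp [ml, sym, wr, mr, ha, hres, Tape.move, pl]
    · simp [Tape.move]
    · simp [Tape.move]
  · refine ⟨L ++ [e], c :: R, hq', ?_, ?_, ?_⟩
    · simp [ml, sym, wr, mr, ha, hres, Tape.write, pl]
    · simp [Tape.write]
    · simp [Tape.write]

theorem Rep.halt {w : List (Γ × Option S)} {c : TM0.Cfg Γ Λ} (h : Rep S w c) :
    (∃ z ∈ w, hlt M S z) ↔ TM0.step M c = none := by
  obtain ⟨q, T⟩ := c
  obtain ⟨l, r, hq, rfl, -, -⟩ := h
  simp only [TM0.step, Option.map_eq_none_iff]
  constructor
  · rintro ⟨z, hz, q', h1, h2⟩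
    simp only [List.mem_append, List.mem_map, List.mem_cons] at hz
    rcases hz with ⟨a, -, rfl⟩ | rfl | ⟨a, -, rfl⟩
    · simp [pl] at h1
    · obtain rfl := Option.some.inj h1
      exact h2
    · simp [pl] at h1
  · intro h
    exact ⟨_, List.mem_append_right _ List.mem_cons_self, ⟨q, hq⟩, rfl, h⟩

theorem sim (ss : TM0.Supports M (S : Set Λ)) (a : Γ) (w : List Γ) :
    HaltsRow (rule M S) (pl S default) (hlt M S) ((a, some ⟨default, ss.1⟩) :: w.map (pl S)) ↔
      (TM0.eval M (a :: w)).Dom := by
  have h0 : Rep S ((a, some ⟨default, ss.1⟩) :: w.map (pl S)) (TM0.init (a :: w)) :=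
    ⟨[], w, ss.1, rfl, rfl, rfl⟩
  generalize ((a, some ⟨default, ss.1⟩) :: w.map (pl S) : List (Γ × Option S)) = w0 at h0
  change _ ↔ (StateTransition.eval (TM0.step M) (TM0.init (a :: w))).Dom
  generalize (TM0.init (a :: w) : TM0.Cfg Γ Λ) = c0 at h0
  constructor
  · rintro ⟨t, ht⟩
    by_contra hn
    have key : ∀ t : ℕ, ∃ c, StateTransition.Reaches (TM0.step M) c0 c ∧
        Rep S ((nextRow (rule M S) (pl S default))^[t] w0) c := by
      intro t
      induction t with
      | zero => exact ⟨c0, Relation.ReflTransGen.refl, h0⟩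
      | succ t ih =>
        obtain ⟨c, h1, h2⟩ := ih
        rcases e : TM0.step M c with - | c'
        · exact absurd (Part.dom_iff_mem.2 ⟨c, StateTransition.mem_eval.2 ⟨h1, e⟩⟩) hn
        · refine ⟨c', Relation.ReflTransGen.tail h1 e, ?_⟩
          rw [Function.iterate_succ_apply']
          exact h2.step ss e
    obtain ⟨c, h1, h2⟩ := key t
    exact hn (Part.dom_iff_mem.2 ⟨c, StateTransition.mem_eval.2 ⟨h1, h2.halt.1 ht⟩⟩)
  · intro hd
    obtain ⟨c, hc⟩ := Part.dom_iff_mem.1 hd
    obtain ⟨h1, h2⟩ := StateTransition.mem_eval.1 hc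
    have key : ∃ t : ℕ, Rep S ((nextRow (rule M S) (pl S default))^[t] w0) c := by
      clear h2 hc
      induction h1 with
      | refl => exact ⟨0, h0⟩
      | tail _ e ih =>
        obtain ⟨t, ht⟩ := ih
        refine ⟨t + 1, ?_⟩
        rw [Function.iterate_succ_apply']
        exact ht.step ss e
    obtain ⟨t, ht⟩ := key
    exact ⟨t, ht.halt.2 h2⟩

theorem sim_rep [Fintype Γ] (ss : TM0.Supports M (S : Set Λ)) (a0 a1 : Γ) :
    ∃ (C : Type) (_ : Fintype C) (b c0 c1 : C) (f : C → C → C → C) (hl : C → Prop), ∀ n : ℕ,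
      HaltsRow f b hl (c0 :: List.replicate n c1) ↔
        (TM0.eval M (a0 :: List.replicate n a1)).Dom :=
  ⟨Γ × Option S, inferInstance, pl S default, (a0, some ⟨default, ss.1⟩), pl S a1, rule M S,
    hlt M S, fun n => by rw [← List.map_replicate, sim ss]⟩

end Sim

/-- The number with `n` binary digits `1`. -/
def ones (n : ℕ) : ℕ := (fun x => 2 * x + 1)^[n] 0

theorem ones_succ (n : ℕ) : ones (n + 1) = 2 * ones n + 1 := Function.iterate_succ_apply' _ _ _

theorem ones_mono : StrictMono ones :=
  strictMono_nat_of_lt_succ fun n => by rw [ones_succ]; omega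

theorem exists_code : ∃ c : ToPartrec.Code, ∀ n : ℕ, (c.eval [ones n]).Dom ↔
    (Nat.Partrec.Code.eval (Denumerable.ofNat Nat.Partrec.Code n) 0).Dom := by
  have h1 : Primrec ones :=
    Primrec.nat_iterate Primrec.id (Primrec.const 0)
      (Primrec.nat_double_succ.comp Primrec.snd).to₂
  have h2 : Primrec fun m : ℕ => Nat.findGreatest (fun k => ones k = m) m :=
    Primrec.nat_findGreatest Primrec.id
      (PrimrecRel.comp₂ Primrec.eq (h1.comp Primrec.snd).to₂ Primrec.fst.to₂)
  have h3 : Partrec fun m : ℕ => Nat.Partrec.Code.eval (Denumerable.ofNat Nat.Partrec.Code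
      (Nat.findGreatest (fun k => ones k = m) m)) 0 :=
    Nat.Partrec.Code.eval_part.comp ((Primrec.ofNat _).comp h2).to_comp (Computable.const 0)
  obtain ⟨c, hc⟩ := ToPartrec.Code.exists_code (Nat.Partrec'.part_iff₁.2 h3)
  refine ⟨c, fun n => ?_⟩
  have h4 : Nat.findGreatest (fun k => ones k = ones n) (ones n) = n := by
    rw [Nat.findGreatest_eq_iff]
    refine ⟨ones_mono.le_apply, fun _ => rfl, fun k hk _ h => ?_⟩
    exact hk.ne' (ones_mono.injective h)
  have h5 := hc ⟨[ones n], rfl⟩
  change c.eval [ones n] = pure <$> Nat.Partrec.Code.eval (Denumerable.ofNat Nat.Partrec.Code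
      (Nat.findGreatest (fun k => ones k = ones n) (ones n))) 0 at h5
  rw [h5, h4]
  rfl

theorem trNat_ones (n : ℕ) :
    PartrecToTM2.trNat (ones n) = List.replicate n PartrecToTM2.Γ'.bit1 := by
  induction n with
  | zero => exact PartrecToTM2.trNat_zero
  | succ n ih =>
    have h : ((ones (n + 1) : ℕ) : Num) = Num.bit1 (ones n : ℕ) := by
      rw [ones_succ, ← Num.ofNat'_eq, ← Num.ofNat'_eq]
      exact Num.ofNat'_bit true (ones n)
    rw [List.replicate_succ, ← ih, PartrecToTM2.trNat, PartrecToTM2.trNat, h]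
    cases ((ones n : ℕ) : Num) <;> rfl

end RowSim

open RowSim PartrecToTM2 in
theorem exists_row : ∃ (C : Type) (_ : Fintype C) (b c0 c1 : C) (f : C → C → C → C)
    (hl : C → Prop), ∀ n : ℕ, HaltsRow f b hl (c0 :: List.replicate n c1) ↔
      (Nat.Partrec.Code.eval (Denumerable.ofNat Nat.Partrec.Code n) 0).Dom := by
  classical
  obtain ⟨c, hc⟩ := RowSim.exists_code
  let _ : Inhabited Λ' := ⟨trNormal c Cont'.halt⟩
  let _ : Fintype K' := ⟨{K'.main, K'.rev, K'.aux, K'.stack}, fun k => by cases k <;> simp⟩
  have s2 : TM2.Supports tr (codeSupp c Cont'.halt) := tr_supports c Cont'.halt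
  have s0 := TM1to0.tr_supports _ (TM2to1.tr_supports tr s2)
  obtain ⟨C, iC, b, c0, c1, f, hl, h⟩ := sim_rep s0
    (true, Function.update (fun _ => none) K'.main (some Γ'.cons))
    (false, Function.update (fun _ => none) K'.main (some Γ'.bit1))
  refine ⟨C, iC, b, c0, c1, f, hl, fun n => ?_⟩
  rw [h, TM1to0.tr_eval, ← hc]
  have h1 : TM2to1.trInit (Γ := fun _ : K' => Γ') K'.main (trList [ones n]) =
      (true, Function.update (fun _ => none) K'.main (some Γ'.cons)) ::
        List.replicate n (false, Function.update (fun _ => none) K'.main (some Γ'.bit1)) := by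
    have h3 : (trList [ones n]).reverse = Γ'.cons :: List.replicate n Γ'.bit1 := by
      simp [trNat_ones]
    unfold TM2to1.trInit
    rw [h3]
    exact congrArg _ List.map_replicate
  refine Iff.trans (Iff.of_eq (congrArg (fun l => (TM1.eval (TM2to1.tr tr) l).Dom) h1.symm)) ?_
  refine (TM2to1.tr_eval_dom tr K'.main (trList [ones n])).trans ?_
  have h2 : TM2.init (Γ := fun _ : K' => Γ') (Λ := Λ') (σ := Option Γ') K'.main (trList [ones n])
      = init c [ones n] := by
    unfold TM2.init init
    congr 1
    funext k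
    cases k <;> rfl
  change (StateTransition.eval (TM2.step tr) (TM2.init K'.main (trList [ones n]))).Dom ↔ _
  rw [h2, tr_eval]
  rfl

end Pool.Agent.Lib.MP_038c09_al
end
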