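import Pool.Agent.Lib.MP_038c09_al.Row

/-! A length-preserving rewriting system with forbidden factors simulating a row system. -/

namespace Pool.Agent.Lib.MP_038c09_al

namespace Th

inductive St (C : Type) where
  | Sw : C → C → St C
  | En : C → St C
  | Bk : St C
  | H1 : St C
  | H2 : St C
  | H3 : St C

inductive Lt (C : Type) where
  | lb : Lt C
  | rb : Lt C
  | Lf : Option C → Lt C
  | Rt : Option C → Lt C
  | Hd : St C → Lt C

open St Lt

variable {C : Type}

instance [Finite C] : Finite (St C) := by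
  refine Finite.of_surjective (fun x : (C × C) ⊕ C ⊕ Option (Option Bool) => match x with
    | .inl (x, y) => Sw x y
    | .inr (.inl y) => En y
    | .inr (.inr none) => Bk
    | .inr (.inr (some none)) => H1
    | .inr (.inr (some (some true))) => H2
    | .inr (.inr (some (some false))) => H3) fun q => ?_
  cases q with
  | Sw x y => exact ⟨.inl (x, y), rfl⟩
  | En y => exact ⟨.inr (.inl y), rfl⟩
  | Bk => exact ⟨.inr (.inr none), rfl⟩
  | H1 => exact ⟨.inr (.inr (some none)), rfl⟩
  | H2 => exact ⟨.inr (.inr (some (some true))), rfl⟩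
  | H3 => exact ⟨.inr (.inr (some (some false))), rfl⟩

instance [Finite C] : Finite (Lt C) := by
  refine Finite.of_surjective (fun x : Bool ⊕ Option C ⊕ Option C ⊕ St C => match x with
    | .inl true => lb
    | .inl false => rb
    | .inr (.inl c) => Lf c
    | .inr (.inr (.inl c)) => Rt c
    | .inr (.inr (.inr q)) => Hd q) fun q => ?_
  cases q with
  | lb => exact ⟨.inl true, rfl⟩
  | rb => exact ⟨.inl false, rfl⟩
  | Lf c => exact ⟨.inr (.inl c), rfl⟩
  | Rt c => exact ⟨.inr (.inr (.inl c)), rfl⟩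
  | Hd q => exact ⟨.inr (.inr (.inr q)), rfl⟩

abbrev Cfg (C : Type) := List (Option C) × St C × List (Option C)

def win (fl fr : Bool) (c : Cfg C) : List (Lt C) :=
  ((bif fl then [lb] else []) ++ c.1.reverse.map Lf) ++
    Hd c.2.1 :: (c.2.2.map Rt ++ bif fr then [rb] else [])

def cw (c : Cfg C) : List (Lt C) := win true true c

def ext (c : Cfg C) (l r : List (Option C)) : Cfg C := (c.1 ++ l, c.2.1, c.2.2 ++ r)

theorem win_ext {fl fr : Bool} {l r : List (Option C)} (hl : fl = true → l = [])
    (hr : fr = true → r = []) : ∃ p s, ∀ c, cw (ext c l r) = p ++ win fl fr c ++ s := by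
  refine ⟨bif fl then [] else lb :: l.reverse.map Lf, bif fr then [] else r.map Rt ++ [rb],
    fun c => ?_⟩
  cases fl <;> cases fr <;> simp_all [cw, win, ext]

theorem split_unique {α : Type} {P : α → Prop} {a b a' b' : List α} {x x' : α} (hx : P x)
    (ha : ∀ y ∈ a', ¬ P y) (hb : ∀ y ∈ b', ¬ P y) (h : a' ++ x' :: b' = a ++ x :: b) :
    a' = a ∧ x' = x ∧ b' = b := by
  induction a' generalizing a with
  | nil =>
    cases a with
    | nil => simpa using h
    | cons y a =>
      simp only [List.nil_append, List.cons_append, List.cons.injEq] at h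
      exact absurd hx (hb x (by simp [h.2]))
  | cons z a' ih =>
    cases a with
    | nil =>
      simp only [List.nil_append, List.cons_append, List.cons.injEq] at h
      exact absurd hx (h.1 ▸ ha z (by simp))
    | cons y a =>
      simp only [List.cons_append, List.cons.injEq] at h
      obtain ⟨h1, h2⟩ := ih (fun y hy => ha y (by simp [hy])) h.2
      exact ⟨by rw [h.1, h1], h2⟩

theorem side_inv {α β : Type} {F : α → β} {e : β} (hF : Function.Injective F) (he : ∀ a, F a ≠ e)
    {r u : List α} {t : List β} (h : r.map F ++ [e] = u.map F ++ t) :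
    ∃ r0, r = u ++ r0 ∧ t = r0.map F ++ [e] := by
  induction u generalizing r with
  | nil => exact ⟨r, rfl, h.symm⟩
  | cons a u ih =>
    cases r with
    | nil =>
      simp only [List.map_nil, List.nil_append, List.map_cons, List.cons_append,
        List.cons.injEq] at h
      exact absurd h.1.symm (he a)
    | cons c r =>
      simp only [List.map_cons, List.cons_append, List.cons.injEq] at h
      obtain ⟨r0, h1, h2⟩ := ih h.2
      exact ⟨r0, by rw [h1, hF h.1]; rfl, h2⟩

theorem win_inv {fl fr : Bool} {c1 c : Cfg C} {p s : List (Lt C)}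
    (h : cw c1 = p ++ win fl fr c ++ s) :
    ∃ l r, (fl = true → l = []) ∧ (fr = true → r = []) ∧ c1 = ext c l r ∧
      (fr = false → s = r.map Rt ++ [rb]) ∧ ∀ c', p ++ win fl fr c' ++ s = cw (ext c' l r) := by
  obtain ⟨l1, q1, r1⟩ := c1
  obtain ⟨l, q, r⟩ := c
  have h1 : ([lb] ++ l1.reverse.map Lf) ++ Hd q1 :: (r1.map Rt ++ [rb]) =
      (p ++ ((bif fl then [lb] else []) ++ l.reverse.map Lf)) ++
        Hd q :: (r.map Rt ++ ((bif fr then [rb] else []) ++ s)) := by
    simpa [cw, win] using h
  obtain ⟨h2, h3, h4⟩ := split_unique (P := fun y => ∃ q, y = Hd q) ⟨q, rfl⟩ (by simp)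
    (by rintro y hy ⟨q, rfl⟩; simp at hy) h1
  obtain ⟨r0, rfl, h5⟩ := side_inv (fun _ _ h => Lt.Rt.inj h) (by simp) h4
  have h6 : l1.map Lf ++ [lb] = l.map Lf ++ (p ++ bif fl then [lb] else []).reverse := by
    simpa [List.map_reverse] using congrArg List.reverse h2
  obtain ⟨l0, rfl, h7⟩ := side_inv (fun _ _ h => Lt.Lf.inj h) (by simp) h6
  have h8 : p ++ (bif fl then [lb] else []) = lb :: l0.reverse.map Lf := by
    simpa [List.map_reverse] using congrArg List.reverse h7
  refine ⟨l0, r0, ?_, ?_, by rw [Lt.Hd.inj h3]; rfl, ?_, fun c' => ?_⟩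
  · rintro rfl
    cases l0 with
    | nil => rfl
    | cons a l0 => simp at h7
  · rintro rfl
    cases r0 with
    | nil => rfl
    | cons a r0 => simp at h5
  · rintro rfl
    simpa using h5
  · have h9 : p ++ win fl fr c' ++ s = (p ++ (bif fl then [lb] else [])) ++
        (c'.1.reverse.map Lf ++ Hd c'.2.1 :: (c'.2.2.map Rt ++
          ((bif fr then [rb] else []) ++ s))) := by simp [win]
    rw [h9, h8, h5]
    simp [cw, win, ext]

def ok : Lt C → Lt C → Prop
  | lb, Lf _ => True
  | lb, Hd _ => True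
  | Lf _, Lf _ => True
  | Lf _, Hd _ => True
  | Hd _, Rt _ => True
  | Hd _, rb => True
  | Rt _, Rt _ => True
  | Rt _, rb => True
  | _, _ => False

theorem chain_cw (c : Cfg C) : List.IsChain ok (cw c) := by
  have h1 : ∀ (r : List (Option C)) (x : Lt C), ok x rb → (∀ a, ok x (Rt a)) →
      List.IsChain ok (x :: (r.map Rt ++ [rb])) := fun r => by
    induction r with
    | nil => intro x h _; simpa using h
    | cons a r ih =>
      intro x _ h
      exact List.isChain_cons_cons.2 ⟨h a, ih _ trivial fun _ => trivial⟩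
  have h2 : ∀ (l : List (Option C)) (x : Lt C), (∀ q, ok x (Hd q)) → (∀ a, ok x (Lf a)) →
      List.IsChain ok (x :: (l.map Lf ++ Hd c.2.1 :: (c.2.2.map Rt ++ [rb]))) := fun l => by
    induction l with
    | nil =>
      intro x h _
      exact List.isChain_cons_cons.2 ⟨h _, h1 _ _ trivial fun _ => trivial⟩
    | cons a r ih =>
      intro x _ h
      exact List.isChain_cons_cons.2 ⟨h a, ih _ (fun _ => trivial) fun _ => trivial⟩
  exact h2 c.1.reverse lb (fun _ => trivial) fun _ => trivial

theorem cw_of_chain {P : List (Lt C)} (h : List.IsChain ok P) (hP : Complete lb rb P) :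
    ∃ c, P = cw c := by
  have h1 : ∀ (t : List (Lt C)) (x : Lt C), ((∃ q, x = Hd q) ∨ ∃ a, x = Rt a) →
      List.IsChain ok (x :: t) → (x :: t).getLast? = some rb →
      ∃ r : List (Option C), t = r.map Rt ++ [rb] := fun t => by
    induction t with
    | nil => rintro x (⟨q, rfl⟩ | ⟨a, rfl⟩) _ h <;> simp at h
    | cons y t ih =>
      intro x hx h1 h2
      obtain ⟨h3, h4⟩ := List.isChain_cons_cons.1 h1
      rw [List.getLast?_cons_cons] at h2
      cases y with
      | Rt a =>
        obtain ⟨r, rfl⟩ := ih _ (.inr ⟨a, rfl⟩) h4 h2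
        exact ⟨a :: r, rfl⟩
      | rb =>
        cases t with
        | nil => exact ⟨[], rfl⟩
        | cons z t => exact (show False from (List.isChain_cons_cons.1 h4).1).elim
      | lb => rcases hx with ⟨q, rfl⟩ | ⟨a, rfl⟩ <;> exact (show False from h3).elim
      | Lf a => rcases hx with ⟨q, rfl⟩ | ⟨a, rfl⟩ <;> exact (show False from h3).elim
      | Hd a => rcases hx with ⟨q, rfl⟩ | ⟨a, rfl⟩ <;> exact (show False from h3).elim
  have h2 : ∀ (t : List (Lt C)) (x : Lt C), (x = lb ∨ ∃ a, x = Lf a) →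
      List.IsChain ok (x :: t) → (x :: t).getLast? = some rb →
      ∃ (l : List (Option C)) (q : St C) (r : List (Option C)),
        t = l.map Lf ++ Hd q :: (r.map Rt ++ [rb]) := fun t => by
    induction t with
    | nil => rintro x (rfl | ⟨a, rfl⟩) _ h <;> simp at h
    | cons y t ih =>
      intro x hx h3 h2
      obtain ⟨h3, h4⟩ := List.isChain_cons_cons.1 h3
      rw [List.getLast?_cons_cons] at h2
      cases y with
      | Lf a =>
        obtain ⟨l, q, r, rfl⟩ := ih _ (.inr ⟨a, rfl⟩) h4 h2
        exact ⟨a :: l, q, r, rfl⟩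
      | Hd q =>
        obtain ⟨r, rfl⟩ := h1 _ _ (.inl ⟨q, rfl⟩) h4 h2
        exact ⟨[], q, r, rfl⟩
      | lb => rcases hx with rfl | ⟨a, rfl⟩ <;> exact (show False from h3).elim
      | rb => rcases hx with rfl | ⟨a, rfl⟩ <;> exact (show False from h3).elim
      | Rt a => rcases hx with rfl | ⟨a, rfl⟩ <;> exact (show False from h3).elim
  cases P with
  | nil => simp [Complete] at hP
  | cons x t =>
    obtain rfl : x = lb := by simpa using hP.1
    obtain ⟨l, q, r, rfl⟩ := h2 _ _ (.inl rfl) h hP.2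
    exact ⟨(l.reverse, q, r), by simp [cw, win]⟩

section

variable (f : C → C → C → C) (b : C) (hl : C → Prop) (w : List C)

inductive Mv : Bool → Bool → Cfg C → Cfg C → Prop
  | m1 (x y z : C) : hl z → Mv false false ([], Sw x y, [some z]) ([], H1, [some z])
  | m2 (x y z : C) : ¬ hl z → Mv false false ([], Sw x y, [some z]) ([some (f x y z)], Sw y z, [])
  | m3 (x y : C) : Mv false false ([], Sw x y, [none]) ([some (f x y b)], En y, [])
  | m4 (y : C) : Mv false false ([], En y, [none]) ([some (f y b b)], Bk, [])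
  | m5 (c : Option C) : Mv false false ([c], Bk, []) ([], Bk, [c])
  | m6 : Mv true false ([], Bk, []) ([], Sw b b, [])
  | m7 (c : Option C) : Mv false false ([], H1, [c]) ([none], H1, [])
  | m8 : Mv false true ([], H1, []) ([], H2, [])
  | m9 (c : Option C) : Mv false false ([c], H2, []) ([], H2, [none])
  | m10 : Mv true false ([], H2, []) ([], H3, [])

inductive Kl : Bool → Cfg C → Prop
  | k1 (x y : C) : Kl true ([], Sw x y, [])
  | k2 (y z : C) : Kl false ([], En y, [some z])
  | k3 (y : C) : Kl true ([], En y, [])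
  | k4 (c : Option C) : Kl false ([c], H3, [])

def M0 : Set (List (Lt C) × List (Lt C)) :=
  {m | ∃ fl fr c c', Mv f b hl fl fr c c' ∧ m = (win fl fr c, win fl fr c')}

def K0 : Set (List (Lt C)) :=
  {z | (∃ fr c, Kl fr c ∧ z = win false fr c) ∨ ∃ x y, ¬ ok x y ∧ z = [x, y]}

def mv : Set (List (Lt C) × List (Lt C)) :=
  insert (mvOf lb (Hd H3) (Hd (Sw b b)) (Rt none) (w.map fun c => Rt (some c))) (M0 f b hl)

def kl : Set (List (Lt C)) := K0 ∪ klOf lb (Hd H3) (Rt none) w.length

def MvA (fl fr : Bool) (c c' : Cfg C) : Prop :=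
  Mv f b hl fl fr c c' ∨ (fl = true ∧ fr = false ∧ c = ([], H3, List.replicate w.length none) ∧
    c' = ([], Sw b b, w.map some))

theorem mem_mv {u u' : List (Lt C)} : (u, u') ∈ mv f b hl w ↔
    ∃ fl fr c c', MvA f b hl w fl fr c c' ∧ u = win fl fr c ∧ u' = win fl fr c' := by
  have h : mvOf lb (Hd H3) (Hd (Sw b b)) (Rt none) (w.map fun c => Rt (some c)) =
      (win true false ([], H3, List.replicate w.length none),
        win true false ([], Sw b b, w.map some)) := by
    simp [mvOf, win, Function.comp_def]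
  rw [mv, h]
  constructor
  · rintro (h | ⟨fl, fr, c, c', h1, h2⟩)
    · exact ⟨_, _, _, _, .inr ⟨rfl, rfl, rfl, rfl⟩, Prod.mk.inj h⟩
    · exact ⟨_, _, _, _, .inl h1, Prod.mk.inj h2⟩
  · rintro ⟨fl, fr, c, c', h1 | ⟨rfl, rfl, rfl, rfl⟩, rfl, rfl⟩
    · exact .inr ⟨_, _, _, _, h1, rfl⟩
    · exact .inl rfl

open Classical in
noncomputable def st : List (Option C) → St C → List (Option C) → Option (Cfg C)
  | l, Sw x y, some z :: r =>
    if hl z then some (l, H1, some z :: r) else some (some (f x y z) :: l, Sw y z, r)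
  | l, Sw x y, none :: r => some (some (f x y b) :: l, En y, r)
  | _, Sw _ _, [] => none
  | l, En y, none :: r => some (some (f y b b) :: l, Bk, r)
  | _, En _, some _ :: _ => none
  | _, En _, [] => none
  | c :: l, Bk, r => some (l, Bk, c :: r)
  | [], Bk, r => some ([], Sw b b, r)
  | l, H1, _ :: r => some (none :: l, H1, r)
  | l, H1, [] => some (l, H2, [])
  | _ :: l, H2, r => some (l, H2, none :: r)
  | [], H2, r => some ([], H3, r)
  | [], H3, r => if List.replicate w.length none <+: r then
      some ([], Sw b b, w.map some ++ r.drop w.length) else none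
  | _ :: _, H3, _ => none

noncomputable def sc (c : Cfg C) : Option (Cfg C) := st f b hl w c.1 c.2.1 c.2.2

variable {f b hl w}

theorem mv_sound {fl fr : Bool} {c c' : Cfg C} {l r : List (Option C)}
    (h : MvA f b hl w fl fr c c') (h1 : fl = true → l = []) (h2 : fr = true → r = []) :
    sc f b hl w (ext c l r) = some (ext c' l r) := by
  rcases h with h | ⟨rfl, rfl, rfl, rfl⟩
  · cases h <;> simp_all [sc, ext, st]
  · simp_all [sc, ext, st]

theorem mv_compl {c c' : Cfg C} (h : sc f b hl w c = some c') :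
    ∃ fl fr c0 c0' l r, MvA f b hl w fl fr c0 c0' ∧ (fl = true → l = []) ∧ (fr = true → r = []) ∧
      c = ext c0 l r ∧ c' = ext c0' l r := by
  obtain ⟨l, q, r⟩ := c
  simp only [sc] at h
  unfold st at h
  split at h
  · split_ifs at h with h1
    · exact ⟨_, _, _, _, _, _, .inl (.m1 _ _ _ h1), by simp, by simp, rfl, (Option.some.inj h).symm⟩
    · exact ⟨_, _, _, _, _, _, .inl (.m2 _ _ _ h1), by simp, by simp, rfl, (Option.some.inj h).symm⟩
  · exact ⟨_, _, _, _, _, _, .inl (.m3 _ _), by simp, by simp, rfl, (Option.some.inj h).symm⟩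
  · simp at h
  · exact ⟨_, _, _, _, _, _, .inl (.m4 _), by simp, by simp, rfl, (Option.some.inj h).symm⟩
  · simp at h
  · simp at h
  · exact ⟨_, _, _, _, _, _, .inl (.m5 _), by simp, by simp, rfl, (Option.some.inj h).symm⟩
  · exact ⟨_, _, _, _, [], _, .inl .m6, by simp, by simp, rfl, (Option.some.inj h).symm⟩
  · exact ⟨_, _, _, _, _, _, .inl (.m7 _), by simp, by simp, rfl, (Option.some.inj h).symm⟩
  · exact ⟨_, _, _, _, _, [], .inl .m8, by simp, by simp, rfl, (Option.some.inj h).symm⟩
  · exact ⟨_, _, _, _, _, _, .inl (.m9 _), by simp, by simp, rfl, (Option.some.inj h).symm⟩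
  · exact ⟨_, _, _, _, [], _, .inl .m10, by simp, by simp, rfl, (Option.some.inj h).symm⟩
  · split_ifs at h with h1
    obtain ⟨t, rfl⟩ := h1
    exact ⟨_, _, _, _, [], t, .inr ⟨rfl, rfl, rfl, rfl⟩, by simp, by simp, rfl,
      by simpa [ext] using (Option.some.inj h).symm⟩
  · simp at h

theorem step_of_sc {c c' : Cfg C} (h : sc f b hl w c = some c') :
    Step (mv f b hl w) (cw c) (cw c') := by
  obtain ⟨fl, fr, c0, c0', l, r, h1, h2, h3, rfl, rfl⟩ := mv_compl h
  obtain ⟨p, s, h4⟩ := win_ext h2 h3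
  exact ⟨p, s, _, _, (mem_mv ..).2 ⟨_, _, _, _, h1, rfl, rfl⟩, h4 _, h4 _⟩

theorem sc_of_step {c : Cfg C} {P : List (Lt C)} (h : Step (mv f b hl w) (cw c) P) :
    ∃ c', sc f b hl w c = some c' ∧ P = cw c' := by
  obtain ⟨p, s, u, u', h1, h2, rfl⟩ := h
  obtain ⟨fl, fr, c0, c0', h3, rfl, rfl⟩ := (mem_mv ..).1 h1
  obtain ⟨l, r, h4, h5, rfl, -, h6⟩ := win_inv h2
  exact ⟨_, mv_sound h3 h4 h5, h6 _⟩

theorem back_step {c : Cfg C} {P : List (Lt C)} (h : Step (mv f b hl w) P (cw c)) :
    ∃ c', P = cw c' := by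
  obtain ⟨p, s, u, u', h1, rfl, h2⟩ := h
  obtain ⟨fl, fr, c0, c0', h3, rfl, rfl⟩ := (mem_mv ..).1 h1
  obtain ⟨l, r, -, -, -, -, h6⟩ := win_inv h2
  exact ⟨_, h6 _⟩

theorem sc_of_killed {c : Cfg C} (h : Killed (kl w) (cw c)) : sc f b hl w c = none := by
  obtain ⟨z, (⟨fr, c0, h1, rfl⟩ | ⟨x, y, h1, rfl⟩) | ⟨j, hj, γ, h1, rfl⟩, p, s, h2⟩ := h
  · obtain ⟨l, r, -, h5, rfl, -, -⟩ := win_inv h2.symm
    cases h1 <;> simp_all [sc, ext, st]
  · have h3 := chain_cw c
    rw [← h2] at h3
    exact absurd (List.isChain_iff_forall_rel_of_append_cons_cons.1 h3 (l₁ := p) (l₂ := s)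
      (by simp)) h1
  · have h3 : cw c = p ++ win true false ([], H3, List.replicate j none) ++ γ :: s := by
      rw [← h2]; simp [win]
    obtain ⟨l, r, h4, -, rfl, h5, -⟩ := win_inv h3
    obtain rfl := h4 rfl
    simp only [sc, ext, st, List.append_nil, ite_eq_right_iff, reduceCtorEq, imp_false]
    rintro ⟨t, ht⟩
    obtain ⟨k, hk⟩ := Nat.exists_eq_add_of_lt hj
    rw [hk, add_assoc, List.replicate_add, List.append_assoc, List.append_cancel_left_eq] at ht
    subst ht
    have h6 := h5 rfl
    simp only [List.replicate_succ, List.cons_append, List.map_cons, List.cons.injEq] at h6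
    exact h1 h6.1

theorem no_room (n : ℕ) (r : List (Option C)) (h : ¬ List.replicate n none <+: r) :
    ∃ j < n, ∃ γ s, γ ≠ Rt none ∧ r.map Rt ++ [rb] = List.replicate j (Rt none) ++ γ :: s := by
  induction n generalizing r with
  | zero => simp at h
  | succ n ih =>
    rcases r with _ | ⟨_ | a, r⟩
    · exact ⟨0, by omega, rb, [], by simp, rfl⟩
    · obtain ⟨j, hj, γ, s, h1, h2⟩ := ih r (by simpa [List.replicate_succ] using h)
      exact ⟨j + 1, by omega, γ, s, h1, by simp [List.replicate_succ, h2]⟩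
    · exact ⟨0, by omega, Rt (some a), _, by simp, rfl⟩

theorem killed_of_sc {c : Cfg C} (h : sc f b hl w c = none) : Killed (kl w) (cw c) := by
  have h0 : ∀ fr c0 l r, Kl fr c0 → (fr = true → r = []) → Killed (kl w) (cw (ext c0 l r)) :=
    fun fr c0 l r h1 h2 => by
      obtain ⟨p, s, h4⟩ := win_ext (fl := false) (l := l) (by simp) h2
      exact ⟨_, .inl (.inl ⟨fr, c0, h1, rfl⟩), p, s, (h4 _).symm⟩
  obtain ⟨l, q, r⟩ := c
  simp only [sc] at h
  unfold st at h
  split at h
  · split_ifs at h
  · simp at h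
  · exact h0 _ _ _ [] (.k1 _ _) (by simp)
  · simp at h
  · exact h0 _ _ _ _ (.k2 _ _) (by simp)
  · exact h0 _ _ _ [] (.k3 _) (by simp)
  any_goals simp at h
  · obtain ⟨j, hj, γ, s, h1, h2⟩ := no_room _ _ h
    exact ⟨_, .inr ⟨j, hj, γ, h1, rfl⟩, [], s, by simp [cw, win, h2]⟩
  · exact h0 _ _ _ _ (.k4 _) (by simp)

variable (f b hl w) in
def D (c : Cfg C) : Prop := Dead (mv f b hl w) (kl w) (cw c)

variable (f b hl w) in
def S (c c' : Cfg C) : Prop := sc f b hl w c = some c'

variable (f b hl w) in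
abbrev R : Cfg C → Cfg C → Prop := Relation.ReflTransGen (S f b hl w)

theorem D.of_none {c : Cfg C} (h : sc f b hl w c = none) : D f b hl w c := .kill (killed_of_sc h)

theorem D.of_R {c c' : Cfg C} (h : R f b hl w c c') (h' : D f b hl w c') : D f b hl w c := by
  induction h using Relation.ReflTransGen.head_induction_on with
  | refl => exact h'
  | head h1 _ ih => exact .step (step_of_sc h1) ih

theorem D.next {c c' : Cfg C} (h : D f b hl w c) (h' : S f b hl w c c') : D f b hl w c' := by
  unfold D at h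
  generalize hP : cw c = P at h
  cases h with
  | kill h1 => subst hP; rw [S, sc_of_killed h1] at h'; simp at h'
  | step h1 h2 =>
    subst hP
    obtain ⟨c'', h3, rfl⟩ := sc_of_step h1
    rw [S, h3] at h'
    obtain rfl := Option.some.inj h'
    exact h2

theorem no_cycle {P : List (Lt C)} (h : Dead (mv f b hl w) (kl w) P) :
    ∀ c c', P = cw c → S f b hl w c c' → ¬ R f b hl w c' c := by
  induction h with
  | kill h1 => rintro c c' rfl h' -; rw [S, sc_of_killed h1] at h'; simp at h'
  | step h1 _ ih =>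
    rintro c c' rfl h' h2
    obtain ⟨c'', h3, rfl⟩ := sc_of_step h1
    have h4 := h'
    rw [S, h3] at h4
    obtain rfl := Option.some.inj h4
    rcases h2.cases_head with rfl | ⟨c1, h5, h6⟩
    · exact ih _ _ rfl h' .refl
    · exact ih _ _ rfl h5 (h6.tail h')

def sz (c : Cfg C) : ℕ := c.1.length + c.2.2.length

theorem len_cw (c : Cfg C) : (cw c).length = sz c + 3 := by simp [cw, win, sz]; ring

theorem S.sz {c c' : Cfg C} (h : S f b hl w c c') : sz c' = sz c := by
  obtain ⟨fl, fr, c0, c0', l, r, h1 | ⟨-, -, rfl, rfl⟩, -, -, rfl, rfl⟩ := mv_compl h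
  · cases h1 <;> simp [Th.sz, ext] <;> omega
  · simp [Th.sz, ext]

theorem R.sz {c c' : Cfg C} (h : R f b hl w c c') : sz c' = sz c := by
  induction h with
  | refl => rfl
  | tail _ h1 ih => rw [h1.sz, ih]

theorem run_H2 (l r : List (Option C)) :
    R f b hl w (l, H2, r) ([], H3, List.replicate l.length none ++ r) := by
  induction l generalizing r with
  | nil => exact .single rfl
  | cons c l ih =>
    refine .head (b := (l, H2, none :: r)) rfl ?_
    simpa [List.replicate_succ'] using ih (none :: r)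

theorem run_H1 (l r : List (Option C)) :
    ∃ m, R f b hl w (l, H1, r) ([], H3, List.replicate m none) := by
  induction r generalizing l with
  | nil => exact ⟨l.length, .head (b := (l, H2, [])) rfl (by simpa using run_H2 l [])⟩
  | cons c r ih =>
    obtain ⟨m, h⟩ := ih (none :: l)
    exact ⟨m, .head rfl h⟩

theorem run_Bk (l r : List (Option C)) :
    R f b hl w (l, Bk, r) ([], Sw b b, l.reverse ++ r) := by
  induction l generalizing r with
  | nil => exact .single rfl
  | cons c l ih =>
    refine .head (b := (l, Bk, c :: r)) rfl ?_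
    simpa using ih (c :: r)

theorem S_hl {l r : List (Option C)} {x y z : C} (h : hl z) :
    S f b hl w (l, Sw x y, some z :: r) (l, H1, some z :: r) := by simp [S, sc, st, h]

theorem S_nhl {l r : List (Option C)} {x y z : C} (h : ¬ hl z) :
    S f b hl w (l, Sw x y, some z :: r) (some (f x y z) :: l, Sw y z, r) := by simp [S, sc, st, h]

theorem sweep (v : List C) (hv : ∀ z ∈ v, ¬ hl z) (l r : List (Option C)) (x y : C) :
    R f b hl w (l, Sw x y, v.map some ++ none :: none :: r)
      (((nx f b x y v).map some).reverse ++ l, Bk, r) := by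
  induction v generalizing l x y with
  | nil => exact .head rfl (.single rfl)
  | cons z v ih =>
    refine .head (S_nhl (hv z (by simp))) ?_
    simpa [nx] using ih (fun z hz => hv z (by simp [hz])) (some (f x y z) :: l) y z

theorem round (v : List C) (hv : ∀ z ∈ v, ¬ hl z) (r : List (Option C)) :
    R f b hl w ([], Sw b b, v.map some ++ none :: none :: r)
      ([], Sw b b, (nextRow f b v).map some ++ r) :=
  (sweep v hv [] r b b).trans
    (by simpa [nextRow] using run_Bk ((nx f b b b v).map some).reverse r)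

theorem hit (v : List C) (hv : ∃ z ∈ v, hl z) (l r : List (Option C)) (x y : C) :
    ∃ m, R f b hl w (l, Sw x y, v.map some ++ r) ([], H3, List.replicate m none) := by
  induction v generalizing l x y with
  | nil => simp at hv
  | cons z v ih =>
    by_cases h : hl z
    · obtain ⟨m, h1⟩ := run_H1 (f := f) (b := b) (hl := hl) (w := w) l (some z :: (v.map some ++ r))
      exact ⟨m, .head (S_hl h) h1⟩
    · obtain ⟨m, h1⟩ := ih (by simpa [h] using hv) (some (f x y z) :: l) y z
      exact ⟨m, .head (S_nhl h) h1⟩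

theorem run (T : ℕ) (v : List C) (hv : ∃ z ∈ (nextRow f b)^[T] v, hl z) :
    ∃ m, R f b hl w ([], Sw b b, v.map some ++ List.replicate (2 * T) none)
      ([], H3, List.replicate m none) := by
  induction T generalizing v with
  | zero => exact hit v hv _ _ _ _
  | succ T ih =>
    by_cases h : ∃ z ∈ v, hl z
    · exact hit v h _ _ _ _
    · obtain ⟨m, h1⟩ := ih (nextRow f b v) hv
      exact ⟨m, (round v (by simpa using h) _).trans h1⟩

theorem S_restart (r : List (Option C)) : S f b hl w ([], H3, List.replicate w.length none ++ r)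
    ([], Sw b b, w.map some ++ r) := by simp [S, sc, st]

theorem alive (h : HaltsRow f b hl w) : Alive (mv f b hl w) (kl w) lb rb := by
  obtain ⟨T, hT⟩ := h
  obtain ⟨m, h1⟩ := run (w := w) T w hT
  have h2 : m = w.length + 2 * T := by simpa [sz] using h1.sz
  have h3 : ¬ D f b hl w ([], H3, List.replicate m none) := fun h =>
    no_cycle h _ _ rfl (by rw [h2, List.replicate_add]; exact S_restart _) h1
  refine ⟨{P | ∃ c, P = cw c ∧ sz c = m ∧ ¬ D f b hl w c}, m + 3, ⟨_, _, rfl, by simp [sz], h3⟩,
    ?_, fun P P' h => ⟨?_, ?_⟩⟩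
  · rintro P ⟨c, rfl, h4, h5⟩
    refine ⟨by rw [len_cw, h4], ⟨by simp [cw, win], ?_⟩, fun h => h5 (.kill h)⟩
    have h6 : cw c = ([lb] ++ c.1.reverse.map Lf ++ Hd c.2.1 :: c.2.2.map Rt) ++ [rb] := by
      simp [cw, win]
    rw [h6, List.getLast?_concat]
  · rintro ⟨c, rfl, h4, h5⟩
    obtain ⟨c', h6, rfl⟩ := sc_of_step h
    exact ⟨c', rfl, (S.sz h6).trans h4, fun h7 => h5 (.step h h7)⟩
  · rintro ⟨c', rfl, h4, h5⟩
    obtain ⟨c, rfl⟩ := back_step h
    obtain ⟨c'', h6, h7⟩ := sc_of_step h
    refine ⟨c, rfl, ?_, fun h8 => h5 ?_⟩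
    · have h8 := congrArg List.length h7
      rw [len_cw, len_cw, S.sz h6] at h8
      omega
    · rw [D, h7]
      exact h8.next h6

theorem short (v : List C) (hv : ∀ z ∈ v, ¬ hl z) (l : List (Option C)) (x y : C) (k : ℕ)
    (hk : k < 2) : D f b hl w (l, Sw x y, v.map some ++ List.replicate k none) := by
  induction v generalizing l x y with
  | nil =>
    interval_cases k
    · exact .of_none rfl
    · exact .of_R (.single rfl) (.of_none rfl)
  | cons z v ih =>
    exact .of_R (.single (S_nhl (hv z (by simp)))) (ih (fun z hz => hv z (by simp [hz])) _ _ _)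

theorem honest (k : ℕ) (v : List C) (hv : ¬ HaltsRow f b hl v) :
    D f b hl w ([], Sw b b, v.map some ++ List.replicate k none) := by
  induction k using Nat.strong_induction_on generalizing v with
  | _ k ih =>
    have h0 : ∀ z ∈ v, ¬ hl z := fun z h1 h2 => hv ⟨0, z, h1, h2⟩
    by_cases hk : k < 2
    · exact short v h0 _ _ _ k hk
    · obtain ⟨k, rfl⟩ : ∃ j, k = j + 2 := ⟨k - 2, by omega⟩
      exact .of_R (round v h0 _) (ih k (by omega) _ fun ⟨t, h⟩ => hv ⟨t + 1, h⟩)

theorem restart (r : List (Option C))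
    (h : ∀ t, r = List.replicate w.length none ++ t → D f b hl w ([], Sw b b, w.map some ++ t)) :
    D f b hl w ([], H3, r) := by
  by_cases h1 : List.replicate w.length none <+: r
  · obtain ⟨t, rfl⟩ := h1
    exact .of_R (.single (S_restart t)) (h t rfl)
  · exact .of_none (by simp [sc, st, h1])

theorem dead_blank (h : ¬ HaltsRow f b hl w) (m : ℕ) :
    D f b hl w ([], H3, List.replicate m none) :=
  restart _ fun t ht => by
    have h1 : t = List.replicate t.length none := List.eq_replicate_of_mem fun a ha =>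
      List.eq_of_mem_replicate (n := m) (by rw [ht]; simp [ha])
    rw [h1]
    exact honest _ _ h

def fuel (r : List (Option C)) : ℕ := r.countP Option.isNone

theorem dead_Sw (h : ¬ HaltsRow f b hl w) (k : ℕ) (r l : List (Option C)) (x y : C)
    (hk : fuel l + fuel r < k) : D f b hl w (l, Sw x y, r) := by
  induction k generalizing l r x y with
  | zero => omega
  | succ k ihk =>
    induction r generalizing l x y with
    | nil => exact .of_none rfl
    | cons c r ih =>
      cases c with
      | some z =>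
        by_cases h1 : hl z
        · obtain ⟨m, h2⟩ := run_H1 (f := f) (b := b) (hl := hl) (w := w) l (some z :: r)
          exact .of_R (.head (S_hl h1) h2) (dead_blank h m)
        · exact .of_R (.single (S_nhl h1)) (ih _ _ _ (by simpa [fuel] using hk))
      | none =>
        refine .of_R (.single rfl) ?_
        rcases r with _ | ⟨_ | z, r⟩
        · exact .of_none rfl
        · refine .of_R (.head rfl (run_Bk _ _)) (ihk _ _ _ _ ?_)
          simp [fuel] at hk ⊢
          omega
        · exact .of_none rfl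

theorem dead_all (h : ¬ HaltsRow f b hl w) (c : Cfg C) : D f b hl w c := by
  have h1 := fun r l x y => dead_Sw h _ r l x y (Nat.lt_succ_self _)
  have h2 : ∀ r, D f b hl w ([], H3, r) := fun r => restart r fun t _ => h1 _ _ _ _
  obtain ⟨l, q, r⟩ := c
  cases q with
  | Sw x y => exact h1 _ _ _ _
  | En y =>
    rcases r with _ | ⟨_ | z, r⟩
    · exact .of_none rfl
    · exact .of_R (.head rfl (run_Bk _ _)) (h1 _ _ _ _)
    · exact .of_none rfl
  | Bk => exact .of_R (run_Bk _ _) (h1 _ _ _ _)
  | H1 =>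
    obtain ⟨m, h3⟩ := run_H1 (f := f) (b := b) (hl := hl) (w := w) l r
    exact .of_R h3 (h2 _)
  | H2 => exact .of_R (run_H2 _ _) (h2 _)
  | H3 =>
    cases l with
    | nil => exact h2 _
    | cons c l => exact .of_none rfl

theorem allDead (h : ¬ HaltsRow f b hl w) : AllDead (mv f b hl w) (kl w) lb rb := fun P hP => by
  by_cases h1 : List.IsChain ok P
  · obtain ⟨c, rfl⟩ := cw_of_chain h1 hP
    exact dead_all h c
  · rw [List.isChain_iff_forall_rel_of_append_cons_cons] at h1
    push Not at h1
    obtain ⟨x, y, p, s, rfl, h2⟩ := h1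
    exact .kill ⟨_, .inl (.inr ⟨x, y, h2, rfl⟩), p, s, by simp⟩

theorem M0_len {m : List (Lt C) × List (Lt C)} (h : m ∈ M0 f b hl) :
    m.1.length = 2 ∧ m.2.length = 2 := by
  obtain ⟨fl, fr, c, c', h1, rfl⟩ := h
  cases h1 <;> exact ⟨rfl, rfl⟩

theorem K0_len {z : List (Lt C)} (h : z ∈ K0) : z.length = 2 := by
  obtain ⟨fr, c, h1, rfl⟩ | ⟨x, y, -, rfl⟩ := h
  · cases h1 <;> rfl
  · rfl

end

end Th

open Th in
theorem exists_thue {C : Type} [Fintype C] (f : C → C → C → C) (b : C) (hl : C → Prop) :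
    ∃ (Γ : Type) (_ : Fintype Γ) (lb rb h s g : Γ) (ι : C → Γ) (M0 : Set (List Γ × List Γ))
      (K0 : Set (List Γ)), M0.Finite ∧ K0.Finite ∧
      (∀ m ∈ M0, m.1.length = m.2.length ∧ m.1 ≠ []) ∧ (∀ z ∈ K0, z ≠ []) ∧
      ∀ w : List C,
        (HaltsRow f b hl w →
          Alive (insert (mvOf lb h s g (w.map ι)) M0) (K0 ∪ klOf lb h g w.length) lb rb) ∧
        (¬ HaltsRow f b hl w →
          AllDead (insert (mvOf lb h s g (w.map ι)) M0) (K0 ∪ klOf lb h g w.length) lb rb) := by
  have h := List.finite_length_eq (Lt C) 2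
  refine ⟨Lt C, Fintype.ofFinite _, .lb, .rb, .Hd .H3, .Hd (.Sw b b), .Rt none,
    fun c => .Rt (some c), M0 f b hl, K0, (h.prod h).subset fun m hm => M0_len hm,
    h.subset fun z hz => K0_len hz, fun m hm => ?_, fun z hz => ?_,
    fun w => ⟨alive, allDead⟩⟩
  · obtain ⟨h1, h2⟩ := M0_len hm
    exact ⟨h1.trans h2.symm, List.ne_nil_of_length_eq_add_one h1⟩
  · exact List.ne_nil_of_length_eq_add_one (K0_len hz)

end Pool.Agent.Lib.MP_038c09_al
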