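import Pool.Agent.Lib.MP_038c09_al.Alive2

import Pool.Agent.Lib.MP_038c09_al.Row
import Pool.Agent.Lib.MP_038c09_al.Thue

/-!
The reduction from the halting problem.
-/

namespace Pool.Agent.Lib.MP_038c09_al

open List

variable {Γ : Type}

theorem Sys.finite_ids [Fintype Γ] (s : Sys Γ) (h1 : s.mv.Finite) (h2 : s.kl.Finite) :
    s.Ids.Finite := by
  have k1 : (kD '' ({Z : List Bool | Z.length ≤ s.W} ∪ s.κ '' s.kl)).Finite :=
    ((List.finite_length_le Bool s.W).union (h2.image _)).image _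
  have k2 : ((fun m : List Γ × List Γ => mD (s.κ m.1) (s.κ m.2)) '' s.mv).Finite := h1.image _
  have k3 : (({sD true [] true [] 1, sD false [] false [false] 1, sD false [false] true [] 1} :
      Set IdData) ∪ Set.range (fun γ => sD true (s.cd γ).tail true [] 1) ∪
      Set.range (fun γ => sD false (s.bd γ) false [true, true] (-1))).Finite :=
    ((Set.toFinite _).union (Set.finite_range _)).union (Set.finite_range _)
  refine ((k1.union k2).union k3).subset ?_
  rintro d (⟨Z, h, rfl⟩ | ⟨u, u', h, rfl⟩ | ⟨b1, Z1, b2, Z2, e, h, rfl⟩)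
  · rcases h with ⟨h, -⟩ | ⟨z, hz, rfl⟩
    · exact Or.inl (Or.inl ⟨Z, Or.inl h, rfl⟩)
    · exact Or.inl (Or.inl ⟨_, Or.inr ⟨z, hz, rfl⟩, rfl⟩)
  · exact Or.inl (Or.inr ⟨(u, u'), h, rfl⟩)
  · right
    cases h with
    | rr => exact Or.inl (Or.inl (Or.inl rfl))
    | lll => exact Or.inl (Or.inl (Or.inr (Or.inl rfl)))
    | llr => exact Or.inl (Or.inl (Or.inr (Or.inr rfl)))
    | blk γ => exact Or.inl (Or.inr ⟨γ, rfl⟩)
    | skew γ => exact Or.inr ⟨γ, rfl⟩

theorem primrec_zipIdx : Primrec fun l : List Bool => l.zipIdx 2 := by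
  have h : Primrec fun l : List Bool =>
      (List.range l.length).map fun i => (l.getD i false, i + 2) :=
    Primrec.list_map (Primrec.list_range.comp Primrec.list_length)
      (Primrec.pair ((Primrec.list_getD false).comp Primrec.fst Primrec.snd)
        (Primrec.nat_add.comp Primrec.snd (Primrec.const 2))).to₂
  refine h.of_eq fun l => ?_
  apply ext_getElem
  · simp
  · intro i h1 h2
    simp at h1
    simp [h1, add_comm]

theorem primrec_kD : Primrec kD :=
  Primrec.pair primrec_zipIdx (Primrec.pair (Primrec.const 0) primrec_zipIdx)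

theorem primrec_mD : Primrec₂ mD :=
  Primrec.pair (primrec_zipIdx.comp Primrec.fst)
    (Primrec.pair (Primrec.const 1) (primrec_zipIdx.comp Primrec.snd))

theorem primrec_pow (c : Cd Γ) (γ : Γ) : Primrec fun n : ℕ => c.κ (replicate n γ) := by
  have h : Primrec fun n : ℕ => (List.range n).flatMap fun _ => c.cd γ :=
    Primrec.list_flatMap Primrec.list_range (Primrec.const (c.cd γ)).to₂
  refine h.of_eq fun n => ?_
  induction n with
  | zero => rfl
  | succ n ih => rw [range_succ, flatMap_append, ih, replicate_succ']; simp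

theorem exists_reduction (F : Type) [Field F] [CharZero F] :
    ∃ I : ℕ → List IdData, Computable I ∧ ∀ n, IsRFDVariety (idSet F (I n)) ↔
      ¬ (Nat.Partrec.Code.eval (Denumerable.ofNat Nat.Partrec.Code n) 0).Dom := by
  classical
  obtain ⟨C, _, b, c0, c1, f, hl, hrow⟩ := exists_row
  obtain ⟨Γ, _, lb, rb, h, s, g, ι, M0, K0, hM, hK, hM', hK', H⟩ := exists_thue f b hl
  let c : Cd Γ := ⟨Fintype.card Γ, fun γ => Fintype.equivFin Γ γ, fun γ => (Fintype.equivFin Γ γ).2,
    fun _ _ e => (Fintype.equivFin Γ).injective (Fin.ext e), lb, rb⟩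
  let s0 : Sys Γ := ⟨c, M0, K0, hM', hK'⟩
  let sn : ℕ → Sys Γ := fun n => ⟨c, insert (mvOf lb h s g ((c0 :: replicate n c1).map ι)) M0,
    K0 ∪ klOf lb h g (c0 :: replicate n c1).length, by
      rintro m (rfl | hm)
      · simp [mvOf]
      · exact hM' m hm, by
      rintro z (hz | ⟨j, -, γ, -, rfl⟩)
      · exact hK' z hz
      · simp⟩
  let I0 := (s0.finite_ids hM hK).toFinset.toList
  let Gl : List Γ := (Finset.univ.filter (· ≠ g)).toList
  let I : ℕ → List IdData := fun n => I0 ++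
    (mD (c.κ [lb, h, g] ++ c.κ (replicate n g)) (c.κ [lb, s, ι c0] ++ c.κ (replicate n (ι c1))) ::
      (List.range (n + 1)).flatMap fun j =>
        (Gl.map c.cd).map fun Z => kD (c.κ [lb, h] ++ (c.κ (replicate j g) ++ Z)))
  have hI : ∀ n, {d | d ∈ I n} = (sn n).Ids := by
    intro n
    ext d
    simp only [I, I0, Gl, Set.mem_ofPred_eq, mem_append, Finset.mem_toList, Set.Finite.mem_toFinset,
      mem_cons, mem_flatMap, mem_range, map_map, mem_map, Finset.mem_filter, Finset.mem_univ,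
      true_and, Function.comp_apply]
    constructor
    · rintro ((⟨Z, hZ, rfl⟩ | ⟨u, u', hu, rfl⟩ | hd) | rfl | ⟨j, hj, γ, hγ, rfl⟩)
      · exact Or.inl ⟨Z, hZ.imp id fun ⟨z, hz, e⟩ => ⟨z, Or.inl hz, e⟩, rfl⟩
      · exact Or.inr (Or.inl ⟨u, u', Or.inr hu, rfl⟩)
      · exact Or.inr (Or.inr hd)
      · refine Or.inr (Or.inl ⟨_, _, Or.inl rfl, ?_⟩)
        simp [sn, replicate_succ]
      · refine Or.inl ⟨_, Or.inr ⟨_, Or.inr ⟨j, by simpa using hj, γ, hγ, rfl⟩, rfl⟩, ?_⟩
        simp [sn]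
    · rintro (⟨Z, hZ | ⟨z, hz | ⟨j, hj, γ, hγ, rfl⟩, rfl⟩, rfl⟩ | ⟨u, u', hu | hu, rfl⟩ | hd)
      · exact Or.inl (Or.inl ⟨Z, Or.inl hZ, rfl⟩)
      · exact Or.inl (Or.inl ⟨_, Or.inr ⟨z, hz, rfl⟩, rfl⟩)
      · exact Or.inr (Or.inr ⟨j, by simpa using hj, γ, hγ, by simp [sn]⟩)
      · obtain ⟨rfl, rfl⟩ := Prod.mk.inj hu
        exact Or.inr (Or.inl (by simp [sn, replicate_succ]))
      · exact Or.inl (Or.inr (Or.inl ⟨u, u', hu, rfl⟩))
      · exact Or.inl (Or.inr (Or.inr hd))
  refine ⟨I, Primrec.to_comp ?_, fun n => ?_⟩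
  · refine Primrec.list_append.comp (Primrec.const _) (Primrec.list_cons.comp
      (primrec_mD.comp (Primrec.list_append.comp (Primrec.const _) (primrec_pow c g))
        (Primrec.list_append.comp (Primrec.const _) (primrec_pow c (ι c1))))
      (Primrec.list_flatMap (Primrec.list_range.comp Primrec.succ) ?_))
    have : Primrec fun j : ℕ =>
        (Gl.map c.cd).map fun Z => kD (c.κ [lb, h] ++ (c.κ (replicate j g) ++ Z)) :=
      Primrec.list_map (Primrec.const _) (primrec_kD.comp (Primrec.list_append.comp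
        (Primrec.const _) (Primrec.list_append.comp ((primrec_pow c g).comp Primrec.fst)
          Primrec.snd))).to₂
    exact (this.comp Primrec.snd).to₂
  · have e : idSet F (I n) = (sn n).polys F := by rw [idSet, hI, Sys.polys]
    rw [e, ← hrow n]
    exact ⟨fun h1 h2 => not_rfd_of_alive (sn n) ((H _).1 h2) h1,
      fun h1 => rfd_of_dead (sn n) ((H _).2 h1)⟩

theorem not_re_rfd (F : Type) [Field F] [CharZero F] :
    ¬ REPred fun I : List IdData => IsRFDVariety (idSet F I) := by
  intro h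
  obtain ⟨I, hI, H⟩ := exists_reduction F
  refine ComputablePred.halting_problem_not_re 0 ?_
  have h1 : REPred fun c : Nat.Partrec.Code => IsRFDVariety (idSet F (I (Encodable.encode c))) :=
    Partrec.comp h (hI.comp Computable.encode)
  exact h1.of_eq fun c => by rw [H, Denumerable.ofNat_encode]

end Pool.Agent.Lib.MP_038c09_al
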