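import Pool.Agent.Lib.MP_038c09_al.Pi1
import Pool.Agent.Lib.MP_038c09_al.UndMain

-- part PiH1
section

/-!
A universal register machine.

Programs with registers indexed by the natural numbers and one exit are closed under sequencing
and loops, so they compute all primitive recursive functions; an unbounded search over the step
bounded evaluation of codes gives the universal machine.
-/

namespace Pool.Agent.Lib.MP_038c09_al.Pi

open Function

/-- instructions with registers indexed by the natural numbers -/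
inductive H1I (Q : Type) : Type
  | inc (j : ℕ) (q : Q) : H1I Q
  | dec (j : ℕ) (q1 q2 : Q) : H1I Q

namespace H1I

variable {Q Q' : Type}

/-- one step -/
def stp : H1I Q → (ℕ → ℕ) → Q × (ℕ → ℕ)
  | inc j q, s => (q, update s j (s j + 1))
  | dec j q1 q2, s => if s j = 0 then (q2, s) else (q1, update s j (s j - 1))

/-- renaming of the states -/
def map (φ : Q → Q') : H1I Q → H1I Q'
  | inc j q => inc j (φ q)
  | dec j q1 q2 => dec j (φ q1) (φ q2)

/-- the register of an instruction -/
def reg : H1I Q → ℕ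
  | inc j _ => j
  | dec j _ _ => j

theorem stp_map (φ : Q → Q') (I : H1I Q) (s : ℕ → ℕ) :
    (I.map φ).stp s = (φ (I.stp s).1, (I.stp s).2) := by
  cases I with
  | inc j q => rfl
  | dec j q1 q2 =>
    simp only [map, stp]
    split_ifs <;> rfl

end H1I

/-- runs from a state to the exit -/
inductive H1Run {Q : Type} (prog : Q → H1I (Option Q)) : Option Q → (ℕ → ℕ) → (ℕ → ℕ) → Prop
  | stop (s : ℕ → ℕ) : H1Run prog none s s
  | step (q : Q) (s s' : ℕ → ℕ) : H1Run prog ((prog q).stp s).1 ((prog q).stp s).2 s' →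
      H1Run prog (some q) s s'

section run

variable {Q Q' : Type} {prog : Q → H1I (Option Q)} {prog' : Q' → H1I (Option Q')}

theorem h1_run_none {s s' : ℕ → ℕ} : H1Run prog none s s' ↔ s' = s := by
  refine ⟨fun h => ?_, fun h => h ▸ H1Run.stop _⟩
  cases h
  rfl

theorem h1_run_some {q : Q} {s s' : ℕ → ℕ} :
    H1Run prog (some q) s s' ↔ H1Run prog ((prog q).stp s).1 ((prog q).stp s).2 s' := by
  refine ⟨fun h => ?_, fun h => H1Run.step _ _ _ h⟩
  cases h with
  | step _ _ _ h => exact h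

/-- a program embedded in a larger one -/
theorem h1_embed (φ : Option Q → Option Q')
    (hφ : ∀ q, ∃ q', φ (some q) = some q' ∧ prog' q' = (prog q).map φ) (a : Option Q)
    (s s'' : ℕ → ℕ) :
    H1Run prog' (φ a) s s'' ↔ ∃ s', H1Run prog a s s' ∧ H1Run prog' (φ none) s' s'' := by
  constructor
  · intro h
    generalize ha : φ a = a' at h
    induction h generalizing a with
    | stop s =>
      cases a with
      | none => exact ⟨s, H1Run.stop s, ha ▸ H1Run.stop s⟩
      | some q =>
        obtain ⟨q', h1, -⟩ := hφ q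
        rw [h1] at ha
        cases ha
    | step q' s s'' h ih =>
      cases a with
      | none => exact ⟨s, H1Run.stop s, ha ▸ H1Run.step q' s s'' h⟩
      | some q =>
        obtain ⟨q1, h1, h2⟩ := hφ q
        rw [h1] at ha
        cases ha
        obtain ⟨s', h3, h4⟩ := ih ((prog q).stp s).1 (by rw [h2, H1I.stp_map])
        rw [h2, H1I.stp_map] at h3
        exact ⟨s', H1Run.step q s s' h3, h4⟩
  · rintro ⟨s', h1, h2⟩
    induction h1 with
    | stop s => exact h2
    | step q s s' _ ih =>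
      obtain ⟨q1, h3, h4⟩ := hφ q
      rw [h3, h1_run_some, h4, H1I.stp_map]
      exact ih h2

end run

/-- relations given by finite programs -/
def H1Real (R : (ℕ → ℕ) → (ℕ → ℕ) → Prop) : Prop :=
  ∃ (Q : Type) (_ : Finite Q) (prog : Q → H1I (Option Q)) (q0 : Option Q),
    ∀ s s', H1Run prog q0 s s' ↔ R s s'

/-- the loop over a register -/
inductive H1Lp (j : ℕ) (R : (ℕ → ℕ) → (ℕ → ℕ) → Prop) : (ℕ → ℕ) → (ℕ → ℕ) → Prop
  | done (s : ℕ → ℕ) : s j = 0 → H1Lp j R s s
  | more (s s1 s' : ℕ → ℕ) : s j ≠ 0 → R (update s j (s j - 1)) s1 → H1Lp j R s1 s' →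
      H1Lp j R s s'

theorem H1Real.seq {R R' : (ℕ → ℕ) → (ℕ → ℕ) → Prop} (h : H1Real R) (h' : H1Real R') :
    H1Real fun s s'' => ∃ s', R s s' ∧ R' s' s'' := by
  obtain ⟨Q1, _, p1, a1, h1⟩ := h
  obtain ⟨Q2, _, p2, a2, h2⟩ := h'
  let φ2 : Option Q2 → Option (Q1 ⊕ Q2) := Option.map Sum.inr
  let φ1 : Option Q1 → Option (Q1 ⊕ Q2) := fun a => a.elim (φ2 a2) fun q => some (Sum.inl q)
  let p : Q1 ⊕ Q2 → H1I (Option (Q1 ⊕ Q2)) :=
    Sum.elim (fun q => (p1 q).map φ1) fun q => (p2 q).map φ2
  refine ⟨Q1 ⊕ Q2, inferInstance, p, φ1 a1, fun s s'' => ?_⟩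
  rw [h1_embed (prog := p1) (prog' := p) φ1 (fun q => ⟨Sum.inl q, rfl, rfl⟩)]
  refine exists_congr fun s' => and_congr (h1 s s') ?_
  change H1Run p (φ2 a2) s' s'' ↔ _
  rw [h1_embed (prog := p2) (prog' := p) φ2 (fun q => ⟨Sum.inr q, rfl, rfl⟩), ← h2]
  constructor
  · rintro ⟨s3, h3, h4⟩
    rwa [h1_run_none.1 h4]
  · exact fun h3 => ⟨s'', h3, H1Run.stop _⟩

theorem H1Real.loop {R : (ℕ → ℕ) → (ℕ → ℕ) → Prop} (h : H1Real R) (j : ℕ) :
    H1Real (H1Lp j R) := by
  obtain ⟨Q, _, p1, a1, h1⟩ := h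
  let p : Option Q → H1I (Option (Option Q)) := fun a =>
    a.elim (.dec j (some a1) none) fun q => (p1 q).map some
  refine ⟨Option Q, inferInstance, p, some none, fun s s' => ⟨fun h => ?_, fun h => ?_⟩⟩
  · have key : ∀ a' s s'', H1Run p a' s s'' → ∀ a, a' = some a →
        ∃ s', H1Run p1 a s s' ∧ H1Lp j R s' s'' := by
      intro a' s s'' h
      induction h with
      | stop s => intro a ha; cases ha
      | step a s s'' h ih =>
        intro a' ha
        cases ha
        cases a with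
        | none =>
          refine ⟨s, H1Run.stop s, ?_⟩
          by_cases hs : s j = 0
          · have e : (p none).stp s = (none, s) := if_pos hs
            rw [e] at h
            rw [h1_run_none.1 h]
            exact H1Lp.done s hs
          · have e : (p none).stp s = (some a1, update s j (s j - 1)) := if_neg hs
            rw [e] at ih
            obtain ⟨s', h3, h4⟩ := ih a1 rfl
            exact H1Lp.more s s' s'' hs ((h1 _ _).1 h3) h4
        | some q =>
          have e : (p (some q)).stp s = (some ((p1 q).stp s).1, ((p1 q).stp s).2) :=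
            H1I.stp_map some (p1 q) s
          rw [e] at ih
          obtain ⟨s', h3, h4⟩ := ih _ rfl
          exact ⟨s', H1Run.step q s s' h3, h4⟩
    obtain ⟨s1, h3, h4⟩ := key _ _ _ h none rfl
    rwa [h1_run_none.1 h3] at h4
  · induction h with
    | done s hs =>
      have e : (p none).stp s = (none, s) := if_pos hs
      rw [h1_run_some, e]
      exact H1Run.stop s
    | more s s1 s' hs hR _ ih =>
      have e : (p none).stp s = (some a1, update s j (s j - 1)) := if_neg hs
      rw [h1_run_some, e]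
      exact (h1_embed (prog := p1) (prog' := p) some (fun q => ⟨some q, rfl, rfl⟩) a1 _ _).2
        ⟨s1, (h1 _ _).2 hR, ih⟩

/-- total maps given by finite programs -/
def H1Comp (F : (ℕ → ℕ) → ℕ → ℕ) : Prop := H1Real fun s s' => s' = F s

theorem H1Real.congr {R R' : (ℕ → ℕ) → (ℕ → ℕ) → Prop} (h : H1Real R)
    (e : ∀ s s', R s s' ↔ R' s s') : H1Real R' := by
  obtain ⟨Q, i, p, a, h1⟩ := h
  exact ⟨Q, i, p, a, fun s s' => (h1 s s').trans (e s s')⟩

theorem h1_comp_id : H1Comp id :=
  ⟨Empty, inferInstance, Empty.elim, none, fun _ _ => h1_run_none⟩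

theorem h1_comp_inc (j : ℕ) : H1Comp fun s => update s j (s j + 1) :=
  ⟨Unit, inferInstance, fun _ => .inc j none, some (), fun _ _ => h1_run_some.trans h1_run_none⟩

theorem H1Comp.comp {F G : (ℕ → ℕ) → ℕ → ℕ} (hF : H1Comp F) (hG : H1Comp G) :
    H1Comp fun s => G (F s) :=
  (H1Real.seq hF hG).congr fun s s' => by simp

theorem H1Comp.loop {F : (ℕ → ℕ) → ℕ → ℕ} (hF : H1Comp F) (j : ℕ) (hj : ∀ s, F s j = s j)
    (G : (ℕ → ℕ) → ℕ → ℕ) (h0 : ∀ s, s j = 0 → G s = s)
    (h1 : ∀ s, s j ≠ 0 → G s = G (F (update s j (s j - 1)))) : H1Comp G := by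
  refine (H1Real.loop hF j).congr fun s s' => ⟨fun h => ?_, fun h => ?_⟩
  · induction h with
    | done s hs => exact (h0 s hs).symm
    | more s s1 s' hs hR _ ih => rw [ih, hR, ← h1 s hs]
  · subst h
    generalize hn : s j = n
    induction n generalizing s with
    | zero =>
      rw [h0 s hn]
      exact H1Lp.done s hn
    | succ n ih =>
      have hs : s j ≠ 0 := by omega
      rw [h1 s hs]
      exact H1Lp.more s _ _ hs rfl (ih _ (by rw [hj, update_self]; omega))

theorem H1Comp.iter {F : (ℕ → ℕ) → ℕ → ℕ} (hF : H1Comp F) (j : ℕ) (hj : ∀ s, F s j = s j) :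
    H1Comp fun s => (fun t => F (update t j (t j - 1)))^[s j] s := by
  refine hF.loop j hj _ (fun s hs => by rw [hs]; rfl) fun s hs => ?_
  obtain ⟨n, hn⟩ := Nat.exists_eq_succ_of_ne_zero hs
  have e : F (update s j (s j - 1)) j = n := by rw [hj, update_self]; omega
  rw [e]
  conv_lhs => rw [hn]
  rfl

theorem h1_comp_clr (j : ℕ) : H1Comp fun s => update s j 0 :=
  h1_comp_id.loop j (fun _ => rfl) _ (fun s hs => by rw [← hs, update_eq_self])
    fun s _ => by simp

theorem h1_comp_mv {c a : ℕ} (h : a ≠ c) :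
    H1Comp fun s => update (update s c 0) a (s a + s c) := by
  refine (h1_comp_inc a).loop c (fun s => update_of_ne h.symm _ _) _ (fun s hs => ?_)
    fun s hs => ?_
  · funext k
    simp only [update_apply]
    split_ifs <;> simp_all
  · funext k
    simp only [update_apply, h, h.symm, if_true, if_false]
    split_ifs <;> omega

theorem h1_comp_mv2 {c a d : ℕ} (h : a ≠ c) (h' : d ≠ c) (h'' : a ≠ d) :
    H1Comp fun s => update (update (update s c 0) a (s a + s c)) d (s d + s c) := by
  refine ((h1_comp_inc a).comp (h1_comp_inc d)).loop c (fun s => ?_) _ (fun s hs => ?_)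
    fun s hs => ?_
  · rw [update_of_ne h'.symm, update_of_ne h.symm]
  · funext k
    simp only [update_apply]
    split_ifs <;> simp_all
  · funext k
    simp only [update_apply, h, h.symm, h', h'.symm, h'', h''.symm, if_true, if_false]
    split_ifs <;> omega

theorem h1_comp_asg {c a : ℕ} (h : a ≠ c) : H1Comp fun s => update (update s c 0) a (s c) := by
  have h1 := (h1_comp_clr a).comp (h1_comp_mv h)
  refine (congrArg H1Comp (funext fun s => funext fun k => ?_)).mp h1
  simp only [update_apply, h.symm, if_true, if_false]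
  split_ifs <;> omega

/-- `f` can be computed into register `b` without changing the registers below `b` -/
def H1Calc (b : ℕ) (f : (ℕ → ℕ) → ℕ) : Prop :=
  ∃ F, H1Comp F ∧ ∀ s, F s b = f s ∧ ∀ j < b, F s j = s j

theorem h1_calc_of {b c : ℕ} {f : (ℕ → ℕ) → ℕ} {F : (ℕ → ℕ) → ℕ → ℕ} (hF : H1Comp F)
    (hbc : b < c) (h : ∀ s, F s c = f s ∧ ∀ j < b, F s j = s j) : H1Calc b f := by
  refine ⟨_, hF.comp (h1_comp_asg hbc.ne), fun s => ⟨by simp [(h s).1], fun j hj => ?_⟩⟩
  rw [update_of_ne hj.ne, update_of_ne (hj.trans hbc).ne, (h s).2 j hj]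

theorem h1_calc_copy {b i : ℕ} (hi : i < b) : H1Calc b fun s => s i := by
  have h1 := (((h1_comp_clr b).comp (h1_comp_clr (b + 1))).comp
    (h1_comp_mv2 (c := i) (a := b) (d := b + 1) (by omega) (by omega) (by omega))).comp
    (h1_comp_mv (c := b + 1) (a := i) (by omega))
  have e1 : i ≠ b := by omega
  have e2 : i ≠ b + 1 := by omega
  have e3 : b ≠ b + 1 := by omega
  refine ⟨_, h1, fun s => ⟨?_, fun j hj => ?_⟩⟩
  · simp only [update_apply, e1, e2, e3, e1.symm, e2.symm, e3.symm, if_true, if_false]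
    omega
  · have e4 : j ≠ b := by omega
    have e5 : j ≠ b + 1 := by omega
    simp only [update_apply, e1, e2, e3, e2.symm, e3.symm, e4, e5, if_true, if_false]
    split_ifs with h
    · rw [h]; omega
    · rfl

/-- every entry of the argument vector is a register below `b` -/
def H1Args {n : ℕ} (b : ℕ) (A : (ℕ → ℕ) → List.Vector ℕ n) : Prop :=
  ∀ i, ∃ j < b, ∀ s, (A s).get i = s j

section args

variable {n b : ℕ} {A : (ℕ → ℕ) → List.Vector ℕ n}

theorem H1Args.mono (h : H1Args b A) {b' : ℕ} (hb : b ≤ b') : H1Args b' A := fun i => by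
  obtain ⟨j, h1, h2⟩ := h i
  exact ⟨j, h1.trans_le hb, h2⟩

theorem H1Args.congr (h : H1Args b A) {s s' : ℕ → ℕ} (e : ∀ j < b, s j = s' j) : A s = A s' := by
  refine List.Vector.ext fun i => ?_
  obtain ⟨j, h1, h2⟩ := h i
  rw [h2, h2, e j h1]

theorem H1Args.cons (h : H1Args b A) {j : ℕ} (hj : j < b) :
    H1Args b fun s => s j ::ᵥ A s := by
  intro i
  refine Fin.cases ⟨j, hj, fun s => by simp⟩ (fun i => ?_) i
  obtain ⟨k, h1, h2⟩ := h i
  exact ⟨k, h1, fun s => by simp [h2]⟩

theorem H1Args.tail {A : (ℕ → ℕ) → List.Vector ℕ (n + 1)} (h : H1Args b A) :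
    H1Args (n := n) b fun s => (A s).tail := by
  intro i
  obtain ⟨k, h1, h2⟩ := h i.succ
  exact ⟨k, h1, fun s => by rw [← h2 s]; exact List.Vector.get_tail_succ _ _⟩

theorem H1Args.head {A : (ℕ → ℕ) → List.Vector ℕ (n + 1)} (h : H1Args b A) :
    ∃ j < b, ∀ s, (A s).head = s j := by
  obtain ⟨k, h1, h2⟩ := h 0
  exact ⟨k, h1, fun s => by rw [← h2 s, List.Vector.get_zero]⟩

end args

theorem h1_prim {n : ℕ} {f : List.Vector ℕ n → ℕ} (hf : Nat.Primrec' f) :
    ∀ (b : ℕ) (A : (ℕ → ℕ) → List.Vector ℕ n), H1Args b A → H1Calc b fun s => f (A s) := by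
  induction hf with
  | zero =>
    intro b A _
    exact ⟨_, h1_comp_clr b, fun s => ⟨by simp, fun j hj => update_of_ne hj.ne _ _⟩⟩
  | succ =>
    intro b A hA
    obtain ⟨j, hj, h1⟩ := hA.head
    obtain ⟨F, hF, h2⟩ := h1_calc_copy hj
    refine ⟨_, hF.comp (h1_comp_inc b), fun s => ⟨?_, fun k hk => ?_⟩⟩
    · simp only [update_self, (h2 s).1, h1]
    · rw [update_of_ne hk.ne, (h2 s).2 k hk]
  | get i =>
    intro b A hA
    obtain ⟨j, hj, h1⟩ := hA i
    simpa only [h1] using h1_calc_copy hj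
  | @comp m n f g _ _ ihf ihg =>
    intro b A hA
    have key : ∀ t ≤ n, ∃ F, H1Comp F ∧ ∀ s, (∀ j < b, F s j = s j) ∧
        ∀ i : Fin n, (i : ℕ) < t → F s (b + i) = g i (A s) := by
      intro t
      induction t with
      | zero => exact fun _ => ⟨id, h1_comp_id, fun s => ⟨fun _ _ => rfl, fun i hi => by omega⟩⟩
      | succ t ih =>
        intro ht
        obtain ⟨F, hF, h1⟩ := ih (by omega)
        obtain ⟨G, hG, h2⟩ := ihg ⟨t, ht⟩ (b + t) A (hA.mono (by omega))
        refine ⟨_, hF.comp hG, fun s => ⟨fun j hj => ?_, fun i hi => ?_⟩⟩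
        · rw [(h2 _).2 j (by omega), (h1 s).1 j hj]
        · by_cases hit : (i : ℕ) < t
          · rw [(h2 _).2 _ (by omega), (h1 s).2 i hit]
          · have e : i = ⟨t, ht⟩ := Fin.ext (by simp only; omega)
            subst e
            exact (h2 _).1.trans (congrArg (g _) (hA.congr (h1 s).1))
    obtain ⟨F, hF, h1⟩ := key n le_rfl
    obtain ⟨G, hG, h2⟩ := ihf (b + n + 1) (fun s => List.Vector.ofFn fun i => s (b + i))
      fun i => ⟨b + i, by omega, fun s => by simp⟩
    refine h1_calc_of (c := b + n + 1) (hF.comp hG) (by omega) fun s => ⟨?_, fun j hj => ?_⟩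
    · rw [(h2 _).1]
      exact congrArg (fun x => f (List.Vector.ofFn x)) (funext fun i => (h1 s).2 i i.2)
    · rw [(h2 _).2 j (by omega), (h1 s).1 j hj]
  | @prec n f g _ _ ihf ihg =>
    intro b A hA
    obtain ⟨j0, hj0, h0⟩ := hA.head
    have hT := hA.tail
    obtain ⟨F1, hF1, h1⟩ := ihf b _ hT
    obtain ⟨F2, hF2, h2⟩ := h1_calc_copy (b := b + 2) (i := j0) (by omega)
    obtain ⟨F3, hF3, h3⟩ := ihg (b + 3) _
      (((hT.mono (b' := b + 3) (by omega)).cons (j := b) (by omega)).cons (j := b + 1) (by omega))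
    have hB := (hF3.comp (h1_comp_asg (c := b + 3) (a := b) (by omega))).comp (h1_comp_inc (b + 1))
    obtain ⟨B, hB, hb⟩ : ∃ B, H1Comp B ∧ ∀ s, B s (b + 2) = s (b + 2) ∧
        B s (b + 1) = s (b + 1) + 1 ∧ B s b = g (s (b + 1) ::ᵥ s b ::ᵥ (A s).tail) ∧
        ∀ j < b, B s j = s j := by
      refine ⟨_, hB, fun s => ⟨?_, ?_, ?_, fun j hj => ?_⟩⟩
      · rw [update_of_ne (by omega), update_of_ne (by omega), update_of_ne (by omega),
          (h3 s).2 _ (by omega)]
      · rw [update_self, update_of_ne (by omega), update_of_ne (by omega), (h3 s).2 _ (by omega)]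
      · rw [update_of_ne (by omega), update_self, (h3 s).1]
      · rw [update_of_ne (by omega), update_of_ne (by omega), update_of_ne (by omega),
          (h3 s).2 _ (by omega)]
    have inv : ∀ (s0 : ℕ → ℕ) (x : ℕ) (v : List.Vector ℕ n), s0 (b + 1) = 0 → s0 b = x →
        (A s0).tail = v → ∀ t : ℕ,
        (fun u => B (update u (b + 2) (u (b + 2) - 1)))^[t] s0 (b + 1) = t ∧
        (fun u => B (update u (b + 2) (u (b + 2) - 1)))^[t] s0 b =
          (Nat.rec x (fun y IH => g (y ::ᵥ IH ::ᵥ v)) t : ℕ) ∧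
        ∀ j < b, (fun u => B (update u (b + 2) (u (b + 2) - 1)))^[t] s0 j = s0 j := by
      intro s0 x v e1 e2 e3 t
      induction t with
      | zero => exact ⟨e1, e2, fun _ _ => rfl⟩
      | succ t ih =>
        obtain ⟨i1, i2, i3⟩ := ih
        rw [iterate_succ_apply']
        generalize (fun u => B (update u (b + 2) (u (b + 2) - 1)))^[t] s0 = u at i1 i2 i3 ⊢
        have e4 : ∀ j < b + 2, update u (b + 2) (u (b + 2) - 1) j = u j := fun j hj =>
          update_of_ne hj.ne _ _
        refine ⟨?_, ?_, fun j hj => ?_⟩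
        · rw [(hb _).2.1, e4 _ (by omega), i1]
        · have e5 : (A (update u (b + 2) (u (b + 2) - 1))).tail = v := by
            rw [← e3]
            exact hT.congr fun j hj => by rw [e4 j (by omega), i3 j hj]
          rw [(hb _).2.2.1, e4 _ (by omega), e4 _ (by omega), i1, i2, e5]
        · rw [(hb _).2.2.2 j hj, e4 _ (by omega), i3 j hj]
    have hP := (hF1.comp (h1_comp_clr (b + 1))).comp hF2
    obtain ⟨P, hP, hp⟩ : ∃ P, H1Comp P ∧ ∀ s, P s (b + 2) = s j0 ∧ P s (b + 1) = 0 ∧
        P s b = f (A s).tail ∧ ∀ j < b, P s j = s j := by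
      refine ⟨_, hP, fun s => ⟨?_, ?_, ?_, fun j hj => ?_⟩⟩
      · exact (h2 _).1.trans ((update_of_ne (by omega) _ _).trans ((h1 s).2 _ hj0))
      · rw [(h2 _).2 _ (by omega), update_self]
      · rw [(h2 _).2 _ (by omega), update_of_ne (by omega), (h1 s).1]
      · rw [(h2 _).2 _ (by omega), update_of_ne (by omega), (h1 s).2 _ hj]
    refine ⟨_, hP.comp (hB.iter (b + 2) fun s => (hb s).1), fun s => ?_⟩
    obtain ⟨-, i2, i3⟩ := inv (P s) _ _ (hp s).2.1 (hp s).2.2.1 (hT.congr (hp s).2.2.2)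
      (P s (b + 2))
    refine ⟨?_, fun j hj => (i3 j hj).trans ((hp s).2.2.2 j hj)⟩
    rw [i2, (hp s).1, ← h0 s]

/-- the test of the unbounded search -/
def h1g (k e i : ℕ) : ℕ :=
  cond (Nat.Partrec.Code.evaln k (Denumerable.ofNat Nat.Partrec.Code e) (i - 1)).isSome 0 1

theorem h1g_iff (e i : ℕ) : (∃ k, h1g k e (i + 1) = 0) ↔ DomAt e i := by
  unfold DomAt h1g
  rw [Part.dom_iff_mem]
  simp only [Nat.Partrec.Code.evaln_complete, Nat.add_sub_cancel]
  constructor
  · rintro ⟨k, hk⟩
    cases h : Nat.Partrec.Code.evaln k (Denumerable.ofNat Nat.Partrec.Code e) i with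
    | none => simp [h] at hk
    | some x => exact ⟨x, k, h⟩
  · rintro ⟨x, k, hk⟩
    exact ⟨k, by rw [Option.mem_def.1 hk]; rfl⟩

theorem h1g_calc : H1Calc 3 fun s => h1g (s 2) (s 0) (s 1) := by
  have h1 : Primrec fun v : List.Vector ℕ 3 => h1g v.head v.tail.head v.tail.tail.head := by
    have a0 : Primrec fun v : List.Vector ℕ 3 => v.head := Primrec.vector_head
    have a1 : Primrec fun v : List.Vector ℕ 3 => v.tail.head :=
      Primrec.vector_head.comp Primrec.vector_tail
    have a2 : Primrec fun v : List.Vector ℕ 3 => v.tail.tail.head :=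
      Primrec.vector_head.comp (Primrec.vector_tail.comp Primrec.vector_tail)
    exact Primrec.cond (Primrec.option_isSome.comp (Nat.Partrec.Code.primrec_evaln.comp
      ((a0.pair ((Primrec.ofNat Nat.Partrec.Code).comp a1)).pair
        (Primrec.nat_sub.comp a2 (Primrec.const 1))))) (Primrec.const 0) (Primrec.const 1)
  have h0 : H1Args (n := 0) 3 fun _ => List.Vector.nil := fun i => i.elim0
  exact h1_prim (Nat.Primrec'.prim_iff.2 h1) 3 _
    (((h0.cons (j := 1) (by omega)).cons (j := 0) (by omega)).cons (j := 2) (by omega))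

theorem h1_search : ∃ R, H1Real R ∧ ∀ s : ℕ → ℕ, s 2 = 0 →
    ((∃ s', R s s') ↔ ∃ k, h1g k (s 0) (s 1) = 0) := by
  obtain ⟨F, hF, h1⟩ := h1g_calc
  obtain ⟨B, hB, hb⟩ : ∃ B, H1Comp B ∧ ∀ s, B s 3 = h1g (s 2) (s 0) (s 1) ∧ B s 2 = s 2 + 1 ∧
      B s 0 = s 0 ∧ B s 1 = s 1 := by
    refine ⟨_, hF.comp (h1_comp_inc 2), fun s => ⟨?_, ?_, ?_, ?_⟩⟩
    · rw [update_of_ne (by omega), (h1 s).1]
    · rw [update_self, (h1 s).2 _ (by omega)]
    · rw [update_of_ne (by omega), (h1 s).2 _ (by omega)]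
    · rw [update_of_ne (by omega), (h1 s).2 _ (by omega)]
  have hb' : ∀ s x, B (update s 3 x) 3 = h1g (s 2) (s 0) (s 1) ∧ B (update s 3 x) 2 = s 2 + 1 ∧
      B (update s 3 x) 0 = s 0 ∧ B (update s 3 x) 1 = s 1 := fun s x => by
    simpa using hb (update s 3 x)
  have k1 : ∀ s s', H1Lp 3 (fun s s' => s' = B s) s s' → s 3 ≠ 0 →
      ∃ k, h1g k (s 0) (s 1) = 0 := by
    intro s s' h
    induction h with
    | done s hs => exact fun h => absurd hs h
    | more s s1 s' _ hR _ ih =>
      intro _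
      obtain ⟨e1, -, e3, e4⟩ := hb' s (s 3 - 1)
      rw [← hR] at e1 e3 e4
      by_cases h3 : s1 3 = 0
      · exact ⟨s 2, by rw [← e1, h3]⟩
      · rw [← e3, ← e4]
        exact ih h3
  have k2 : ∀ d s, h1g (s 2 + d) (s 0) (s 1) = 0 →
      ∃ s', H1Lp 3 (fun s s' => s' = B s) s s' := by
    intro d
    induction d with
    | zero =>
      intro s h
      by_cases h3 : s 3 = 0
      · exact ⟨s, H1Lp.done s h3⟩
      · exact ⟨_, H1Lp.more s _ _ h3 rfl (H1Lp.done _ ((hb' s _).1.trans h))⟩
    | succ d ih =>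
      intro s h
      by_cases h3 : s 3 = 0
      · exact ⟨s, H1Lp.done s h3⟩
      · obtain ⟨-, e2, e3, e4⟩ := hb' s (s 3 - 1)
        obtain ⟨s', h4⟩ := ih (B (update s 3 (s 3 - 1)))
          (by rw [e2, e3, e4, add_right_comm, add_assoc]; exact h)
        exact ⟨s', H1Lp.more s _ _ h3 rfl h4⟩
  refine ⟨_, H1Real.seq (h1_comp_inc 3) (H1Real.loop hB 3), fun s hs => ⟨?_, ?_⟩⟩
  · rintro ⟨s', s1, rfl, h⟩
    simpa using k1 _ _ h (by simp)
  · rintro ⟨k, hk⟩
    obtain ⟨s', h⟩ := k2 k (update s 3 (s 3 + 1)) (by simpa [hs] using hk)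
    exact ⟨s', _, rfl, h⟩

/-- translation to a machine with finitely many registers -/
def h1tr {Q : Type} {k : ℕ} (ρ : ℕ → Fin k) (prog : Q → H1I (Option Q)) :
    Option Q → RIns k (Option Q)
  | none => .halt
  | some q =>
    match prog q with
    | .inc j q1 => .inc (ρ j) q1
    | .dec j q1 q2 => .dec (ρ j) q1 q2

theorem h1_transfer {Q : Type} {k M : ℕ} (ρ : ℕ → Fin k) (prog : Q → H1I (Option Q))
    (hM : ∀ q, (prog q).reg ≤ M) (hρ : ∀ i ≤ M, ∀ j ≤ M, ρ i = ρ j → i = j) (a : Option Q)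
    (n : Fin k → ℕ) (s : ℕ → ℕ) (hs : ∀ j ≤ M, s j = n (ρ j)) :
    RHalts (h1tr ρ prog) a n ↔ ∃ s', H1Run prog a s s' := by
  have up : ∀ (s : ℕ → ℕ) (n : Fin k → ℕ) (j : ℕ), j ≤ M → (∀ i ≤ M, s i = n (ρ i)) →
      ∀ i ≤ M, update s j (s j + 1) i = inc n (ρ j) (ρ i) := by
    intro s n j hj h i hi
    by_cases e : i = j
    · subst e
      rw [update_self, inc_self, h i hi]
    · rw [update_of_ne e, inc_of_ne _ (fun h' => e (hρ i hi j hj h')), h i hi]
  have dn : ∀ (s : ℕ → ℕ) (n : Fin k → ℕ) (j : ℕ), j ≤ M → (∀ i ≤ M, s i = inc n (ρ j) (ρ i)) →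
      s j ≠ 0 ∧ ∀ i ≤ M, update s j (s j - 1) i = n (ρ i) := by
    intro s n j hj h
    have h0 := h j hj
    rw [inc_self] at h0
    refine ⟨by omega, fun i hi => ?_⟩
    by_cases e : i = j
    · subst e
      rw [update_self]
      omega
    · rw [update_of_ne e, h i hi, inc_of_ne _ fun h' => e (hρ i hi j hj h')]
  constructor
  · intro h
    induction h generalizing s with
    | halt a n h =>
      cases a with
      | none => exact ⟨s, H1Run.stop s⟩
      | some q =>
        simp only [h1tr] at h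
        split at h <;> cases h
    | inc a n j q1 h _ ih =>
      cases a with
      | none => cases h
      | some q =>
        have hq := hM q
        simp only [h1tr] at h
        split at h
        · rename_i j' q' e
          cases h
          rw [e] at hq
          obtain ⟨s', h2⟩ := ih _ (up s n j' hq hs)
          exact ⟨s', H1Run.step q s s' (by rw [e]; exact h2)⟩
        · cases h
    | dec a n j q1 q2 h _ ih =>
      cases a with
      | none => cases h
      | some q =>
        have hq := hM q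
        simp only [h1tr] at h
        split at h
        · cases h
        · rename_i j' q' q'' e
          cases h
          rw [e] at hq
          obtain ⟨h3, h4⟩ := dn s n j' hq hs
          obtain ⟨s', h2⟩ := ih _ h4
          refine ⟨s', H1Run.step q s s' ?_⟩
          rw [e]
          simp only [H1I.stp, if_neg h3]
          exact h2
    | zero a n j q1 q2 h h0 _ ih =>
      cases a with
      | none => cases h
      | some q =>
        have hq := hM q
        simp only [h1tr] at h
        split at h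
        · cases h
        · rename_i j' q' q'' e
          cases h
          rw [e] at hq
          have h3 : s j' = 0 := (hs j' hq).trans h0
          obtain ⟨s', h2⟩ := ih _ hs
          refine ⟨s', H1Run.step q s s' ?_⟩
          rw [e]
          simp only [H1I.stp, if_pos h3]
          exact h2
  · rintro ⟨s', h⟩
    induction h generalizing n with
    | stop s => exact RHalts.halt _ _ rfl
    | step q s s' _ ih =>
      have hq := hM q
      cases e : prog q with
      | inc j q1 =>
        rw [e] at ih hq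
        exact RHalts.inc _ _ (ρ j) q1 (by simp only [h1tr, e]) (ih _ (up s n j hq hs))
      | dec j q1 q2 =>
        rw [e] at ih hq
        by_cases h0 : s j = 0
        · simp only [H1I.stp, if_pos h0] at ih
          exact RHalts.zero _ _ (ρ j) q1 q2 (by simp only [h1tr, e]) ((hs j hq).symm.trans h0)
            (ih _ hs)
        · simp only [H1I.stp, if_neg h0] at ih
          obtain ⟨n', rfl⟩ := exists_inc (n := n) (j := ρ j) (by rw [← hs j hq]; exact h0)
          exact RHalts.dec _ _ (ρ j) q1 q2 (by simp only [h1tr, e]) (ih _ (dn s n' j hq hs).2)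

theorem exists_regMachine : ∃ (m : ℕ) (Q : Type) (_ : Fintype Q) (prog : Q → RIns (m + 1) Q)
    (q0 : Q), 0 < m ∧ ∀ e i : ℕ,
      RHalts prog q0 (Pi.single 0 e + Pi.single (Fin.last m) (i + 1)) ↔ DomAt e i := by
  obtain ⟨R, ⟨Q, _, prog, q0, h1⟩, h2⟩ := h1_search
  obtain ⟨M, hM⟩ := (Set.finite_range fun q => (prog q).reg).bddAbove
  let ρ : ℕ → Fin (M + 1 + 1) := fun j =>
    if j = 1 then Fin.last (M + 1) else ⟨min j M, by omega⟩
  have hv : ∀ j ≤ M, (ρ j : ℕ) = if j = 1 then M + 1 else j := by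
    intro j hj
    simp only [ρ]
    split_ifs
    · rfl
    · exact min_eq_left hj
  refine ⟨M + 1, Option Q, Fintype.ofFinite _, h1tr ρ prog, q0, by omega, fun e i => ?_⟩
  rw [h1_transfer (M := M) ρ prog (fun q => hM ⟨q, rfl⟩) ?_ q0 _
    (fun j => if j = 0 then e else if j = 1 then i + 1 else 0) ?_]
  · simp only [h1]
    rw [h2 _ (by simp), ← h1g_iff]
    simp
  · intro i hi j hj h
    have h3 := congrArg Fin.val h
    rw [hv i hi, hv j hj] at h3
    split_ifs at h3 <;> omega
  · intro j hj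
    have h3 := hv j hj
    simp only [Pi.add_apply, Pi.single_apply, Fin.ext_iff, Fin.val_zero, Fin.val_last]
    generalize (ρ j : ℕ) = r at h3 ⊢
    split_ifs at h3 ⊢ <;> omega

end Pool.Agent.Lib.MP_038c09_al.Pi
end

-- part PiH2
section

/-!
From register machines to tank machines.
-/

namespace Pool.Agent.Lib.MP_038c09_al.Pi

/-- states of the compiled machine -/
inductive H2St (m : ℕ) (Q : Type) : Type
  | main (q : Q) : H2St m Q
  | mvL (j : Fin (m + 1)) (q : Q) (k : Fin (m + 1)) : H2St m Q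
  | mvR (q : Q) (k : Fin (m + 1)) : H2St m Q
  | ms : H2St m Q
  | g0 : H2St m Q
  | g1 : H2St m Q

instance (m : ℕ) (Q : Type) [Fintype Q] : Fintype (H2St m Q) := derive_fintype% _

section

open H2St

variable {m : ℕ} {Q : Type}

/-- a unit is in region `k` and has to go to region `j` -/
def h2go (j : Fin (m + 1)) (q : Q) (k : Fin (m + 1)) : H2St m Q :=
  if k = j then main q else mvL j q k

/-- remove a unit from region `k` -/
def h2dec (q1 q2 : Q) (k : Fin (m + 1)) : Ins m (H2St m Q) :=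
  Fin.lastCases (.push (main q1) (main q2)) (fun i => .shr i (mvR q1 i.succ) (main q2)) k

/-- move a unit one region to the left -/
def h2shl (j : Fin (m + 1)) (q : Q) (k : Fin (m + 1)) : Ins m (H2St m Q) :=
  Fin.cases .stop (fun i => .shl i (h2go j q i.castSucc)) k

/-- the translation of an instruction -/
def h2tr : RIns (m + 1) Q → Ins m (H2St m Q)
  | .halt => .halt
  | .inc j q1 => .pull (h2go j q1 (Fin.last m)) (h2go j q1 (Fin.last m))
  | .dec j q1 q2 => h2dec q1 q2 j

/-- the program of the compiled machine -/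
def h2ins (prog : Q → RIns (m + 1) Q) (q0 : Q) : H2St m Q → Ins m (H2St m Q)
  | main q => h2tr (prog q)
  | mvL j q k => h2shl j q k
  | mvR q k => h2dec q q k
  | ms => .pull ms (main q0)
  | g0 => .pull g0 g1
  | g1 => .stop

theorem h2dec_last (q1 q2 : Q) : h2dec q1 q2 (Fin.last m) = .push (main q1) (main q2) := by
  simp [h2dec]

theorem h2dec_cast (q1 q2 : Q) (i : Fin m) :
    h2dec q1 q2 i.castSucc = .shr i (mvR q1 i.succ) (main q2) := by
  simp [h2dec]

theorem h2go_ne (j : Fin (m + 1)) (q : Q) (k : Fin (m + 1)) :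
    h2go j q k ≠ g0 ∧ h2go j q k ≠ g1 := by
  unfold h2go
  split_ifs <;> simp

theorem h2dec_tgt (q1 q2 : Q) (k : Fin (m + 1)) :
    g0 ∉ (h2dec q1 q2 k).tgt ∧ g1 ∉ (h2dec q1 q2 k).tgt := by
  induction k using Fin.lastCases with
  | last => simp [h2dec_last, Ins.tgt]
  | cast i => simp [h2dec_cast, Ins.tgt]

theorem h2ins_tgt (prog : Q → RIns (m + 1) Q) (q0 : Q) (s : H2St m Q) (hs : s ≠ g0) :
    g0 ∉ (h2ins prog q0 s).tgt ∧ g1 ∉ (h2ins prog q0 s).tgt := by
  cases s with
  | main q =>
    rw [h2ins]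
    cases prog q with
    | halt => simp [h2tr, Ins.tgt]
    | inc j q1 => simp [h2tr, Ins.tgt, (h2go_ne _ _ _).1.symm, (h2go_ne _ _ _).2.symm]
    | dec j q1 q2 => exact h2dec_tgt _ _ _
  | mvL j q k =>
    induction k using Fin.cases with
    | zero => simp [h2ins, h2shl, Ins.tgt]
    | succ i => simp [h2ins, h2shl, Ins.tgt, (h2go_ne _ _ _).1.symm, (h2go_ne _ _ _).2.symm]
  | mvR q k => exact h2dec_tgt _ _ _
  | ms => simp [h2ins, Ins.tgt]
  | g0 => exact absurd rfl hs
  | g1 => simp [h2ins, Ins.tgt]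

/-- the compiled machine -/
abbrev h2M [Fintype Q] (prog : Q → RIns (m + 1) Q) (q0 : Q) (hm : 0 < m) : Mach where
  m := m
  Q := H2St m Q
  fin := inferInstance
  ins := h2ins prog q0
  q0 := ms
  g0 := g0
  g1 := g1
  hm := hm
  hg0 := rfl
  hg1 := rfl
  hin q q' h1 h2 := by
    by_contra h
    rcases h2 with rfl | rfl
    exacts [(h2ins_tgt prog q0 q h).1 h1, (h2ins_tgt prog q0 q h).2 h1]

variable [Fintype Q] {prog : Q → RIns (m + 1) Q} {q0 : Q} {hm : 0 < m} {mk : ℕ → Bool} {N : ℕ}

theorem h2_left {j : Fin (m + 1)} {q : Q} {n : Fin (m + 1) → ℕ}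
    (h : HaltsB (h2M prog q0 hm) mk N (main q) (inc n j)) (k : Fin (m + 1)) (hk : j ≤ k) :
    HaltsB (h2M prog q0 hm) mk N (h2go j q k) (inc n k) := by
  induction k using Fin.induction with
  | zero =>
    obtain rfl : j = 0 := le_antisymm hk (Fin.zero_le _)
    rwa [h2go, if_pos rfl]
  | succ i ih =>
    rcases hk.eq_or_lt with rfl | hk
    · rwa [h2go, if_pos rfl]
    · rw [h2go, if_neg hk.ne']
      refine .step _ _ _ _ (.shl (M := h2M prog q0 hm) _ i _ n rfl) ?_ (ih (Fin.le_castSucc_iff.2 hk))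
      have := h.tot_le
      rwa [tot_inc] at this ⊢

theorem h2_right {q : Q} {n : Fin (m + 1) → ℕ}
    (h : HaltsB (h2M prog q0 hm) mk N (main q) n) (k : Fin (m + 1)) :
    ∀ s q2, h2ins prog q0 s = h2dec q q2 k →
      HaltsB (h2M prog q0 hm) mk (N + 1) s (inc n k) := by
  have ht : ∀ k, tot (inc n k) ≤ N + 1 := fun k => by
    rw [tot_inc]; exact Nat.succ_le_succ h.tot_le
  induction k using Fin.reverseInduction with
  | last =>
    exact fun s q2 hs => .step _ _ _ _
      (.push (M := h2M prog q0 hm) s _ _ n (hs.trans (h2dec_last _ _))) (ht _) (h.mono N.le_succ)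
  | cast i ih =>
    exact fun s q2 hs => .step _ _ _ _
      (.shr (M := h2M prog q0 hm) s i _ _ n (hs.trans (h2dec_cast _ _ _))) (ht _) (ih _ q rfl)

theorem h2_fwd {q : Q} {n : Fin (m + 1) → ℕ} (h : RHalts prog q n) :
    ∃ N, ∀ mk, HaltsB (h2M prog q0 hm) mk N (main q) n := by
  induction h with
  | halt q n h1 =>
    exact ⟨_, fun mk => .halt (M := h2M prog q0 hm) _ n (congrArg h2tr h1) le_rfl⟩
  | inc q n j q1 h1 _ ih =>
    obtain ⟨N, hN⟩ := ih
    refine ⟨N, fun mk => .step _ _ _ _
      (.pull (M := h2M prog q0 hm) _ _ _ n (congrArg h2tr h1)) ?_ ?_⟩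
    · have := (hN mk).tot_le
      rw [tot_inc] at this
      exact Nat.le_of_succ_le this
    · rw [ite_self]
      exact h2_left (hN mk) _ (Fin.le_last j)
  | dec q n j q1 q2 h1 _ ih =>
    obtain ⟨N, hN⟩ := ih
    exact ⟨N + 1, fun mk => h2_right (hN mk) j _ q2 (congrArg h2tr h1)⟩
  | zero q n j q1 q2 h1 h2 _ ih =>
    obtain ⟨N, hN⟩ := ih
    refine ⟨N, fun mk => .step _ _ _ _ ?_ (hN mk).tot_le (hN mk)⟩
    have h3 : h2ins prog q0 (main q) = h2dec q1 q2 j := congrArg h2tr h1
    induction j using Fin.lastCases with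
    | last => exact .push0 (M := h2M prog q0 hm) _ _ _ n (h3.trans (h2dec_last _ _)) h2
    | cast i => exact .shr0 (M := h2M prog q0 hm) _ i _ _ n (h3.trans (h2dec_cast _ _ _)) h2

/-- what halting from a state means for the register machine -/
def h2Sem (prog : Q → RIns (m + 1) Q) : H2St m Q → (Fin (m + 1) → ℕ) → Prop
  | main q, n => RHalts prog q n
  | mvL j q k, n => ∀ n', n = inc n' k → RHalts prog q (inc n' j)
  | mvR q k, n => ∀ n', n = inc n' k → RHalts prog q n'
  | _, _ => True

omit [Fintype Q] in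
theorem h2Sem_go {j k : Fin (m + 1)} {q : Q} {n : Fin (m + 1) → ℕ}
    (h : h2Sem prog (h2go j q k) (inc n k)) : RHalts prog q (inc n j) := by
  unfold h2go at h
  split_ifs at h with h1
  · exact h1 ▸ h
  · exact h n rfl

theorem h2_dec {s s' : H2St m Q} {n n' : Fin (m + 1) → ℕ} {q1 q2 : Q} {k : Fin (m + 1)}
    (h : AStep (h2M prog q0 hm) mk s n s' n') (hs : h2ins prog q0 s = h2dec q1 q2 k)
    (ih : h2Sem prog s' n') :
    (∀ n0, n = inc n0 k → RHalts prog q1 n0) ∧ (n k = 0 → RHalts prog q2 n) := by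
  induction k using Fin.lastCases with
  | last =>
    rw [h2dec_last] at hs
    constructor
    · rintro n0 rfl
      obtain ⟨rfl, rfl⟩ := h.det (.push (M := h2M prog q0 hm) s _ _ n0 hs)
      exact ih
    · intro h0
      obtain ⟨rfl, rfl⟩ := h.det (.push0 (M := h2M prog q0 hm) s _ _ n hs h0)
      exact ih
  | cast i =>
    rw [h2dec_cast] at hs
    constructor
    · rintro n0 rfl
      obtain ⟨rfl, rfl⟩ := h.det (.shr (M := h2M prog q0 hm) s i _ _ n0 hs)
      exact ih n0 rfl
    · intro h0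
      obtain ⟨rfl, rfl⟩ := h.det (.shr0 (M := h2M prog q0 hm) s i _ _ n hs h0)
      exact ih

theorem h2_ne_stop {M : Mach} {q q' : M.Q} {n n' : Fin (M.m + 1) → ℕ} (h : AStep M mk q n q' n') :
    M.ins q ≠ .stop := by
  cases h <;> simp [*]

theorem h2_bwd {s : (h2M prog q0 hm).Q} {n : Fin ((h2M prog q0 hm).m + 1) → ℕ}
    (h : HaltsB (h2M prog q0 hm) mk N s n) : h2Sem prog s n := by
  have nd : ∀ (q1 q2 : Q) (k : Fin (m + 1)), h2dec q1 q2 k ≠ .halt := fun q1 q2 k => by
    induction k using Fin.lastCases with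
    | last => simp [h2dec_last]
    | cast i => simp [h2dec_cast]
  induction h with
  | halt s n h1 _ =>
    change h2ins prog q0 s = .halt at h1
    cases s with
    | main q =>
      rw [h2ins] at h1
      cases hq : prog q with
      | halt => exact .halt q n hq
      | inc j q1 => simp [hq, h2tr] at h1
      | dec j q1 q2 => exact absurd (hq ▸ h1 :) (nd q1 q2 j)
    | mvL j q k =>
      induction k using Fin.cases with
      | zero => simp [h2ins, h2shl] at h1
      | succ i => simp [h2ins, h2shl] at h1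
    | mvR q k => exact absurd h1 (nd q q k)
    | _ => trivial
  | step s n s' n' h1 _ _ ih =>
    cases s with
    | main q =>
      cases hq : prog q with
      | halt => exact .halt q n hq
      | inc j q1 =>
        obtain ⟨rfl, rfl⟩ := h1.det (.pull (M := h2M prog q0 hm) _ _ _ n (congrArg h2tr hq))
        rw [ite_self] at ih
        exact .inc q n j q1 hq (h2Sem_go ih)
      | dec j q1 q2 =>
        obtain ⟨a1, a2⟩ := h2_dec h1 (congrArg h2tr hq) ih
        by_cases h0 : n j = 0
        · exact .zero q n j q1 q2 hq h0 (a2 h0)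
        · obtain ⟨n0, rfl⟩ := exists_inc h0
          exact .dec q n0 j q1 q2 hq (a1 n0 rfl)
    | mvL j q k =>
      rintro n0 rfl
      induction k using Fin.cases with
      | zero => exact absurd rfl (h2_ne_stop h1)
      | succ i =>
        obtain ⟨rfl, rfl⟩ := h1.det (.shl (M := h2M prog q0 hm) _ i _ n0 rfl)
        exact h2Sem_go ih
    | mvR q k => exact (h2_dec h1 rfl ih).1
    | _ => trivial

theorem h2_ms {e i : ℕ} (hg : Gap mk (e + m + 3) i) (t : ℕ) (ht : t ≤ i) :
    AStep (h2M prog q0 hm) mk ms (Pi.single 0 e + Pi.single (Fin.last m) t)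
      (if t = i then main q0 else ms) (Pi.single 0 e + Pi.single (Fin.last m) (t + 1)) := by
  have h2 : tot (Pi.single 0 e + Pi.single (Fin.last m) t : Fin (m + 1) → ℕ) + m + 3 =
      e + m + 3 + t := by
    simp only [tot, Pi.add_apply, Finset.sum_add_distrib, Finset.sum_pi_single', Finset.mem_univ,
      if_true]
    ring
  have h3 : inc (Pi.single 0 e + Pi.single (Fin.last m) t : Fin (m + 1) → ℕ) (Fin.last m) =
      Pi.single 0 e + Pi.single (Fin.last m) (t + 1) := by
    rw [inc_eq_add, add_assoc, ← Pi.single_add]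
  have h1 : AStep (h2M prog q0 hm) mk ms (Pi.single 0 e + Pi.single (Fin.last m) t)
      (if mk (e + m + 3 + t) then main q0 else ms)
      (Pi.single 0 e + Pi.single (Fin.last m) (t + 1)) := by
    rw [← h2, ← h3]
    exact AStep.pull (M := h2M prog q0 hm) ms ms (main q0) _ rfl
  rcases ht.eq_or_lt with rfl | ht
  · rw [hg.2] at h1
    simpa using h1
  · rw [hg.1 _ (Nat.le_add_right _ _) (by omega)] at h1
    simpa [ht.ne] using h1

end

theorem univ_of_reg (m : ℕ) (Q : Type) [Fintype Q] (prog : Q → RIns (m + 1) Q) (q0 : Q)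
    (hm : 0 < m) (h : ∀ e i : ℕ,
      RHalts prog q0 (Pi.single 0 e + Pi.single (Fin.last m) (i + 1)) ↔ DomAt e i) :
    ∃ M : Mach, Univ M := by
  refine ⟨h2M prog q0 hm, fun e i => ⟨fun hd => ?_, fun hd mk hg hh => hd ((h e i).1 ?_)⟩⟩
  · obtain ⟨N, hN⟩ := h2_fwd (q0 := q0) (hm := hm) ((h e i).2 hd)
    refine ⟨N, fun mk hg => ?_⟩
    have key : ∀ d t, t + d = i → HaltsB (h2M prog q0 hm) mk N .ms
        (Pi.single 0 e + Pi.single (Fin.last m) t) := by
      have h2 : ∀ t, t ≤ i →
          tot (Pi.single 0 e + Pi.single (Fin.last m) t : Fin (m + 1) → ℕ) ≤ N := fun t ht => by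
        have := (hN mk).tot_le
        simp only [tot, Pi.add_apply, Finset.sum_add_distrib, Finset.sum_pi_single',
          Finset.mem_univ, if_true] at this ⊢
        omega
      intro d
      induction d with
      | zero =>
        intro t ht
        obtain rfl : t = i := ht
        exact .step _ _ _ _ (h2_ms hg t le_rfl) (h2 t le_rfl) (by rw [if_pos rfl]; exact hN mk)
      | succ d ih =>
        intro t ht
        exact .step _ _ _ _ (h2_ms hg t (by omega)) (h2 t (by omega))
          (by rw [if_neg (by omega)]; exact ih (t + 1) (by omega))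
    simpa using key i 0 (zero_add i)
  · have key : ∀ t, t ≤ i → Halts (h2M prog q0 hm) mk .ms
        (Pi.single 0 e + Pi.single (Fin.last m) t) := by
      intro t
      induction t with
      | zero => intro _; simpa using hh
      | succ t ih =>
        intro ht
        have := (h2_ms (prog := prog) (q0 := q0) (hm := hm) hg t (by omega)).halts_iff.1
          (ih (by omega))
        rwa [if_neg (by omega)] at this
    obtain ⟨N, hN⟩ := (h2_ms hg i le_rfl).halts_iff.1 (key i le_rfl)
    rw [if_pos rfl] at hN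
    exact h2_bwd hN

end Pool.Agent.Lib.MP_038c09_al.Pi
end

-- part PiI
section

/-!
The list of identities is computable from the program number.
-/

namespace Pool.Agent.Lib.MP_038c09_al.Pi

open List

theorem i_flat {ι β : Type} [Primcodable β] (l : List ι) {f : ι → ℕ → List β}
    (hf : ∀ i, Primrec (f i)) : Primrec fun e => l.flatMap fun i => f i e := by
  induction l with
  | nil => exact Primrec.const []
  | cons a l ih => exact (Primrec.list_append.comp (hf a) ih).of_eq fun e => by simp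

theorem i_lay {m : ℕ} (e : ℕ) :
    lay (Pi.single 0 e : Fin (m + 1) → ℕ) = replicate e (.r 0) ++ lay 0 := by
  rw [lay_split _ 0, lay_split 0 0, post_congr (n' := 0) fun i hi => Pi.single_eq_of_ne hi.ne' _]
  simp

/-- the identities that do not depend on the program number -/
def i_fix (M : Mach) : Set IdData :=
  kD '' (Junk (cdM M) ∪ (cdM M).κ '' {z | Kill M z}) ∪
    ((fun w : List M.Γ × List M.Γ => mD ((cdM M).κ w.1) ((cdM M).κ w.2)) '' {w | Rule M w.1 w.2} ∪
      (fun w : M.Γ × M.Γ × M.Γ =>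
        swD ((cdM M).cd w.1) ((cdM M).cd w.2.1).tail ((cdM M).cd w.2.2).tail) '' swM M)

theorem i_fix_finite (M : Mach) : (i_fix M).Finite := by
  have h1 : (Junk (cdM M)).Finite :=
    (List.finite_length_le Bool (2 * (cdM M).ℓ)).subset fun _ h => h.1
  have h2 : {z | Kill M z}.Finite :=
    (List.finite_length_le M.Γ 2).subset fun z h => by cases h <;> simp
  have h3 : {w : List M.Γ × List M.Γ | Rule M w.1 w.2}.Finite :=
    ((List.finite_length_le M.Γ 3).prod (List.finite_length_le M.Γ 3)).subset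
      fun ⟨u, u'⟩ h => by cases h <;> simp
  exact ((h1.union (h2.image _)).image _).union ((h3.image _).union ((Set.toFinite _).image _))

theorem i_spawn (M : Mach) (q : M.Q) (x y : Fin (M.m + 1)) (μ : Bool) :
    Primrec fun e => mD ((cdM M).κ (spL M e q x y μ)) ((cdM M).κ (spR M e q x y μ)) := by
  refine (primrec_mD.comp
    (Primrec.list_append.comp (Primrec.const ((cdM M).κ [(.H q x, μ), (.R (.r y), true)]))
      ((primrec_pow (cdM M) (.R (.r y), false)).comp
        (Primrec.nat_add.comp Primrec.id (Primrec.const (M.m + 2)))))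
    (Primrec.list_append.comp
      (Primrec.const ((cdM M).κ [(.B q x, μ), (.L .o, true), (.H M.q0 y, false)]))
      (Primrec.list_append.comp (primrec_pow (cdM M) (.R (.r 0), false))
        (Primrec.const ((cdM M).κ ((lay 0).map fun z => (.R z, false))))))).of_eq fun e => ?_
  simp [spL, spR, i_lay, add_assoc]

theorem i_gap (M : Mach) (q : M.Q) (x y : Fin (M.m + 1)) (μ : Bool) :
    Primrec fun e => (List.range (e + M.m + 2)).map fun j => kD ((cdM M).κ (gapW M j q x y μ)) := by
  have h : Primrec fun j => kD ((cdM M).κ (gapW M j q x y μ)) := by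
    refine (primrec_kD.comp
      (Primrec.list_append.comp (Primrec.const ((cdM M).κ [(.H q x, μ), (.R (.r y), true)]))
        (Primrec.list_append.comp (primrec_pow (cdM M) (.R (.r y), false))
          (Primrec.const ((cdM M).κ [(.R (.r y), true)]))))).of_eq fun j => ?_
    simp [gapW]
  have h2 : Primrec fun e : ℕ => e + M.m + 2 :=
    (Primrec.nat_add.comp Primrec.id (Primrec.const (M.m + 2))).of_eq fun e => rfl
  exact Primrec.list_map (Primrec.list_range.comp h2) (h.comp Primrec.snd).to₂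

theorem exists_list (M : Mach) : ∃ I : ℕ → List IdData, Computable I ∧
    ∀ e, {d | d ∈ I e} = (csM M e).Ids := by
  classical
  have := M.fin
  let l : List (M.Q × Fin (M.m + 1) × Fin (M.m + 1) × Bool) := Finset.univ.toList
  refine ⟨fun e => (i_fix_finite M).toFinset.toList ++ l.flatMap fun i =>
    mD ((cdM M).κ (spL M e i.1 i.2.1 i.2.2.1 i.2.2.2))
        ((cdM M).κ (spR M e i.1 i.2.1 i.2.2.1 i.2.2.2)) ::
      (List.range (e + M.m + 2)).map fun j =>
        kD ((cdM M).κ (gapW M j i.1 i.2.1 i.2.2.1 i.2.2.2)), Primrec.to_comp ?_, fun e => ?_⟩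
  · exact Primrec.list_append.comp (Primrec.const _) (i_flat l fun i =>
      Primrec.list_cons.comp (i_spawn M _ _ _ _) (i_gap M _ _ _ _))
  · ext d
    simp only [l, Set.mem_ofPred_eq, mem_append, Finset.mem_toList, Set.Finite.mem_toFinset,
      mem_cons, mem_flatMap, mem_range, mem_map, Finset.mem_univ, true_and]
    constructor
    · rintro ((⟨Z, hZ, rfl⟩ | ⟨w, hw, rfl⟩ | ⟨w, hw, rfl⟩) | ⟨i, rfl | ⟨j, hj, rfl⟩⟩)
      · exact .inl ⟨Z, hZ.imp id fun ⟨z, hz, h⟩ => ⟨z, .inl hz, h⟩, rfl⟩
      · exact .inr (.inl ⟨w.1, w.2, .inl hw, rfl⟩)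
      · exact .inr (.inr ⟨w.1, w.2.1, w.2.2, hw, rfl⟩)
      · exact .inr (.inl ⟨_, _, .inr ⟨_, _, _, _, rfl⟩, rfl⟩)
      · exact .inl ⟨_, .inr ⟨_, .inr ⟨j, _, _, _, _, hj, rfl⟩, rfl⟩, rfl⟩
    · rintro (⟨Z, hZ | ⟨z, hz | ⟨j, q, x, y, μ, hj, rfl⟩, rfl⟩, rfl⟩ |
        ⟨u, u', hu | ⟨q, x, y, μ, hu⟩, rfl⟩ | ⟨a, b, c, h, rfl⟩)
      · exact .inl (.inl ⟨Z, .inl hZ, rfl⟩)
      · exact .inl (.inl ⟨_, .inr ⟨z, hz, rfl⟩, rfl⟩)
      · exact .inr ⟨(q, x, y, μ), .inr ⟨j, hj, rfl⟩⟩
      · exact .inl (.inr (.inl ⟨(u, u'), hu, rfl⟩))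
      · obtain ⟨rfl, rfl⟩ := Prod.mk.inj hu
        exact .inr ⟨(q, x, y, μ), .inl rfl⟩
      · exact .inl (.inr (.inr ⟨(a, b, c), h, rfl⟩))

end Pool.Agent.Lib.MP_038c09_al.Pi
end
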