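import Pool.Agent.Lib.MP_038c09_al.PiCodeDefs
import Pool.Agent.Lib.MP_038c09_al.Eval

-- part PiUDefs
section

/-!
Certificates for ideal membership and for separation by a finite-dimensional algebra.
-/

namespace Pool.Agent.Lib.MP_038c09_al.Pi

open List

theorem enc_injective : Function.Injective enc := by
  intro s
  induction s using FreeMagma.rec with
  | of i =>
    intro t h
    cases t with
    | of j => simp only [enc] at h; congr 1; omega
    | mul a b => simp only [enc] at h; omega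
  | mul a b iha ihb =>
    intro t h
    cases t with
    | of j => simp only [enc] at h; omega
    | mul c d =>
      simp only [enc] at h
      obtain ⟨h1, h2⟩ := Nat.pair_eq_pair.1 (show Nat.pair (enc a) (enc b) =
        Nat.pair (enc c) (enc d) by omega)
      rw [iha h1, ihb h2]

theorem enc_surjective : Function.Surjective enc := by
  intro m
  induction m using Nat.strong_induction_on with
  | _ m ih =>
    rcases Nat.even_or_odd' m with ⟨k, rfl | rfl⟩
    · exact ⟨.of k, rfl⟩
    · obtain ⟨a, ha⟩ := ih k.unpair.1 (by have := Nat.unpair_left_le k; omega)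
      obtain ⟨b, hb⟩ := ih k.unpair.2 (by have := Nat.unpair_right_le k; omega)
      exact ⟨.mul a b, by simp only [enc, ha, hb, Nat.pair_unpair]⟩

@[simp] theorem dec_enc (w : FreeMagma ℕ) : dec (enc w) = w :=
  Function.leftInverse_invFun enc_injective w

@[simp] theorem enc_dec (m : ℕ) : enc (dec m) = m :=
  Function.rightInverse_invFun enc_surjective m

/-- formal sums of signed basis elements; the sign `true` is minus -/
abbrev VC := List (Bool × ℕ)

/-- the sign as a rational number -/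
def sg (b : Bool) : ℚ := if b then -1 else 1

/-- the vector given by a formal sum -/
noncomputable def vec (p : VC) : ℕ →₀ ℚ := (p.map fun q => Finsupp.single q.2 (sg q.1)).sum

/-- the polynomial given by a formal sum of numbers of monomials -/
noncomputable def polyV (p : VC) : FA ℚ ℕ := (p.map fun q => sg q.1 • mon ℚ (dec q.2)).sum

/-- the formal sum of a polynomial with integer coefficients -/
def toV (p : PCode) : VC := p.flatMap fun q => replicate q.1.natAbs (decide (q.1 < 0), q.2)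

/-- test for zero -/
def IsZ (p : VC) : Prop := ∀ q ∈ p, p.count (true, q.2) = p.count (false, q.2)

/-- multiply by a sign -/
def sgn (b : Bool) (p : VC) : VC := p.map fun q => (xor b q.1, q.2)

/-- multiply by a natural number -/
def smulN (k : ℕ) (p : VC) : VC := (List.range k).flatMap fun _ => p

/-- product given by a table -/
def mulT (t : ℕ → ℕ → VC) (p q : VC) : VC :=
  p.flatMap fun a => q.flatMap fun b => sgn (xor a.1 b.1) (t a.2 b.2)

/-- the bilinear product given by a table -/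
noncomputable def μT (t : ℕ → ℕ → VC) : (ℕ →₀ ℚ) →ₗ[ℚ] (ℕ →₀ ℚ) →ₗ[ℚ] (ℕ →₀ ℚ) :=
  Finsupp.linearCombination ℚ fun i => Finsupp.linearCombination ℚ fun j => vec (t i j)

/-- value of a monomial for a binary operation -/
def evG {β : Type} (μ : β → β → β) (v : ℕ → β) : FreeMagma ℕ → β
  | .of i => v i
  | .mul a b => μ (evG μ v a) (evG μ v b)

/-- value of a formal polynomial -/
noncomputable def evP (t : ℕ → ℕ → VC) (v : ℕ → VC) (p : VC) : VC :=
  p.flatMap fun q => sgn q.1 (evG (mulT t) v (dec q.2))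

/-- degree of a monomial -/
def dg (w : FreeMagma ℕ) : ℕ := evG (· + ·) (fun _ => 1) w

/-- a bound for the degrees and the variables of a formal polynomial -/
def sz (p : VC) : ℕ := (p.map Prod.snd).sum + 1

/-- value of a formal polynomial at arguments with the common denominator `D`, times a power
of `D` -/
noncomputable def evH (t : ℕ → ℕ → VC) (v : ℕ → VC) (D : ℕ) (p : VC) : VC :=
  p.flatMap fun q => smulN (D ^ (sz p - dg (dec q.2))) (sgn q.1 (evG (mulT t) v (dec q.2)))

/-- the table of the free algebra -/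
def tF (i j : ℕ) : VC := [(false, 2 * Nat.pair i j + 1)]

/-- identify the variables modulo `n + 1` -/
noncomputable def red (n : ℕ) (p : VC) : VC := evP tF (fun i => [(false, 2 * (i % (n + 1)))]) p

/-- the polynomial in `n + 1` variables given by a formal sum -/
noncomputable def polyN (n : ℕ) (p : VC) : FA ℚ (Fin (n + 1)) :=
  FreeNonUnitalNonAssocAlgebra.lift ℚ (fun i => mon ℚ (.of (Fin.ofNat (n + 1) i))) (polyV p)

/-- sign, context, and a relator or a value of an identity -/
abbrev Term := Bool × List (Bool × ℕ) × (ℕ ⊕ (ℕ × List VC))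

/-- a relator or a value of an identity -/
noncomputable def genV (I Rl : List VC) : ℕ ⊕ (ℕ × List VC) → VC
  | .inl j => Rl.getD j []
  | .inr (j, φ) => evP tF (fun i => φ.getD i []) (I.getD j [])

/-- multiply by monomials on the right (`true`) or on the left (`false`) -/
def ctxV (c : List (Bool × ℕ)) (p : VC) : VC :=
  c.foldl (fun p u => if u.1 then mulT tF p [(false, u.2)] else mulT tF [(false, u.2)] p) p

/-- value of a term -/
noncomputable def termV (I Rl : List VC) (τ : Term) : VC :=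
  sgn τ.1 (ctxV τ.2.1 (genV I Rl τ.2.2))

/-- certificate for membership in the ideal -/
def Cert1 (I : List VC) (n : ℕ) (Rl : List VC) (a : VC) (w : ℕ × List Term) : Prop :=
  IsZ (red n (smulN (w.1 + 1) a ++ w.2.flatMap (termV I Rl)))

/-- the table given by a list of rows -/
def tab (T : List (List VC)) (i j : ℕ) : VC := (T.getD i []).getD j []

/-- a point of the grid -/
def grid (N d z : ℕ) (i : ℕ) : VC :=
  (List.range d).flatMap fun k => replicate (z / (N + 1) ^ (i * d + k) % (N + 1)) (false, k)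

/-- certificate for separation: dimension, denominator, table, images of the generators -/
def Cert2 (I : List VC) (n : ℕ) (Rl : List VC) (a : VC)
    (w : ℕ × ℕ × List (List VC) × List VC) : Prop :=
  (∀ row ∈ w.2.2.1, ∀ p ∈ row, ∀ q ∈ p, q.2 < w.1) ∧ (∀ p ∈ w.2.2.2, ∀ q ∈ p, q.2 < w.1) ∧
  (∀ p ∈ I, ∀ z < (sz p + 1) ^ (sz p * w.1), IsZ (evP (tab w.2.2.1) (grid (sz p) w.1 z) p)) ∧
  (∀ p ∈ Rl, IsZ (evH (tab w.2.2.1) (fun i => w.2.2.2.getD (i % (n + 1)) []) (w.2.1 + 1) p)) ∧
  ¬ IsZ (evH (tab w.2.2.1) (fun i => w.2.2.2.getD (i % (n + 1)) []) (w.2.1 + 1) a)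

/-- the ideal of the presentation -/
noncomputable def idK (I : List VC) (n : ℕ) (Rl : List VC) : Submodule ℚ (FA ℚ (Fin (n + 1))) :=
  idealGen (TVal {g | ∃ p ∈ I, g = polyV p} (Fin (n + 1)) ∪ {g | ∃ p ∈ Rl, g = polyN n p})

end Pool.Agent.Lib.MP_038c09_al.Pi
end

-- part PiU1
section

/-!
Meaning of the operations on formal sums.
-/

namespace Pool.Agent.Lib.MP_038c09_al.Pi

open List

theorem vec_nil : vec [] = 0 := rfl

theorem polyV_nil : polyV [] = 0 := rfl

theorem vec_append (p q : VC) : vec (p ++ q) = vec p + vec q := by simp [vec]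

theorem polyV_append (p q : VC) : polyV (p ++ q) = polyV p + polyV q := by simp [polyV]

theorem vec_cons (q : Bool × ℕ) (p : VC) :
    vec (q :: p) = Finsupp.single q.2 (sg q.1) + vec p := by simp [vec]

theorem polyV_cons (q : Bool × ℕ) (p : VC) :
    polyV (q :: p) = sg q.1 • mon ℚ (dec q.2) + polyV p := by simp [polyV]

theorem sg_xor (a b : Bool) : sg (xor a b) = sg a * sg b := by
  cases a <;> cases b <;> simp [sg]

theorem vec_sgn (b : Bool) (p : VC) : vec (sgn b p) = sg b • vec p := by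
  induction p with
  | nil => simp [sgn, vec]
  | cons q p ih =>
    rw [show sgn b (q :: p) = (xor b q.1, q.2) :: sgn b p from rfl, vec_cons, vec_cons, ih,
      sg_xor, smul_add, Finsupp.smul_single, smul_eq_mul]

theorem polyV_sgn (b : Bool) (p : VC) : polyV (sgn b p) = sg b • polyV p := by
  induction p with
  | nil => simp [sgn, polyV]
  | cons q p ih =>
    rw [show sgn b (q :: p) = (xor b q.1, q.2) :: sgn b p from rfl, polyV_cons, polyV_cons, ih,
      sg_xor, smul_add, smul_smul]

theorem smulN_succ (k : ℕ) (p : VC) : smulN (k + 1) p = smulN k p ++ p := by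
  simp [smulN, range_succ]

theorem vec_smulN (k : ℕ) (p : VC) : vec (smulN k p) = (k : ℚ) • vec p := by
  induction k with
  | zero => simp [smulN, vec]
  | succ k ih => rw [smulN_succ, vec_append, ih, Nat.cast_succ, add_smul, one_smul]

theorem polyV_smulN (k : ℕ) (p : VC) : polyV (smulN k p) = (k : ℚ) • polyV p := by
  induction k with
  | zero => simp [smulN, polyV]
  | succ k ih => rw [smulN_succ, polyV_append, ih, Nat.cast_succ, add_smul, one_smul]

theorem vec_apply (p : VC) (m : ℕ) :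
    vec p m = (p.count (false, m) : ℚ) - (p.count (true, m) : ℚ) := by
  induction p with
  | nil => simp [vec]
  | cons q p ih =>
    obtain ⟨b, k⟩ := q
    rw [vec_cons, Finsupp.add_apply, ih, Finsupp.single_apply]
    by_cases h : k = m
    · subst h
      cases b <;> simp [sg] <;> ring
    · cases b <;> simp [h]

theorem isZ_iff (p : VC) : IsZ p ↔ vec p = 0 := by
  constructor
  · intro h
    ext m
    rw [vec_apply, Finsupp.zero_apply, sub_eq_zero, Nat.cast_inj]
    by_cases h1 : (true, m) ∈ p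
    · exact (h _ h1).symm
    by_cases h2 : (false, m) ∈ p
    · exact (h _ h2).symm
    rw [count_eq_zero_of_not_mem h1, count_eq_zero_of_not_mem h2]
  · intro h q _
    have := vec_apply p q.2
    rw [h, Finsupp.zero_apply, eq_comm, sub_eq_zero, Nat.cast_inj] at this
    exact this.symm

theorem μT_single (t : ℕ → ℕ → VC) (i j : ℕ) (a b : ℚ) :
    μT t (Finsupp.single i a) (Finsupp.single j b) = (a * b) • vec (t i j) := by
  simp [μT, mul_smul]

theorem vec_mulT (t : ℕ → ℕ → VC) (p q : VC) : vec (mulT t p q) = μT t (vec p) (vec q) := by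
  induction p with
  | nil => simp [mulT, vec]
  | cons a p ih =>
    rw [show mulT t (a :: p) q = (q.flatMap fun b => sgn (xor a.1 b.1) (t a.2 b.2)) ++ mulT t p q
      from rfl, vec_append, ih, vec_cons, map_add, LinearMap.add_apply]
    congr 1
    clear ih
    induction q with
    | nil => simp [vec]
    | cons b q ih => rw [flatMap_cons, vec_append, ih, vec_cons, map_add, vec_sgn, sg_xor, μT_single]

theorem vec_evG (t : ℕ → ℕ → VC) (v : ℕ → VC) (w : FreeMagma ℕ) :
    vec (evG (mulT t) v w) = evm (μT t) (fun i => vec (v i)) w := by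
  induction w using FreeMagma.rec with
  | of i => rfl
  | mul a b ha hb => simp only [evG, evm, vec_mulT, ha, hb]

theorem vec_evP (t : ℕ → ℕ → VC) (v : ℕ → VC) (p : VC) :
    vec (evP t v p) = evL (μT t) (fun i => vec (v i)) (polyV p) := by
  induction p with
  | nil => simp [evP, vec, polyV]
  | cons q p ih =>
    rw [show evP t v (q :: p) = sgn q.1 (evG (mulT t) v (dec q.2)) ++ evP t v p from rfl,
      vec_append, ih, vec_sgn, vec_evG, polyV_cons, map_add, map_smul, evL_mon]

theorem dg_le_enc (w : FreeMagma ℕ) : dg w ≤ enc w + 1 := by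
  induction w using FreeMagma.rec with
  | of i => simp [dg, evG]
  | mul a b ha hb =>
    have h1 := Nat.left_le_pair (enc a) (enc b)
    have h2 := Nat.right_le_pair (enc a) (enc b)
    simp only [dg, evG, enc] at ha hb ⊢
    omega

theorem leaves_le_enc (w : FreeMagma ℕ) : ∀ i ∈ leaves w, i ≤ enc w := by
  induction w using FreeMagma.rec with
  | of i => simp [leaves, enc]; omega
  | mul a b ha hb =>
    intro i hi
    have h1 := Nat.left_le_pair (enc a) (enc b)
    have h2 := Nat.right_le_pair (enc a) (enc b)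
    simp only [leaves, mem_append] at hi
    simp only [enc]
    rcases hi with hi | hi
    · have := ha i hi; omega
    · have := hb i hi; omega

theorem lt_sz {p : VC} {q : Bool × ℕ} (h : q ∈ p) : q.2 < sz p :=
  Nat.lt_succ_of_le (List.single_le_sum (fun _ _ => Nat.zero_le _) _ (mem_map_of_mem h))

theorem dg_le_sz {p : VC} {q : Bool × ℕ} (h : q ∈ p) : dg (dec q.2) ≤ sz p := by
  have h1 := dg_le_enc (dec q.2)
  have h2 := lt_sz h
  rw [enc_dec] at h1
  omega

theorem leaves_lt_sz {p : VC} {q : Bool × ℕ} (h : q ∈ p) : ∀ i ∈ leaves (dec q.2), i < sz p := by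
  intro i hi
  have h1 := leaves_le_enc _ i hi
  have h2 := lt_sz h
  rw [enc_dec] at h1
  omega

theorem evm_smul {A : Type} [AddCommGroup A] [Module ℚ A] (μ : A →ₗ[ℚ] A →ₗ[ℚ] A) (c : ℚ)
    (v : ℕ → A) (w : FreeMagma ℕ) : evm μ (fun i => c • v i) w = c ^ dg w • evm μ v w := by
  induction w using FreeMagma.rec with
  | of i => simp [evm, dg, evG]
  | mul a b ha hb =>
    simp only [evm, ha, hb, map_smul, LinearMap.smul_apply, smul_smul]
    rw [show dg (a.mul b) = dg a + dg b from rfl, pow_add, mul_comm]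

theorem vec_evH (t : ℕ → ℕ → VC) (v : ℕ → VC) {D : ℕ} (hD : D ≠ 0) (p : VC) :
    vec (evH t v D p) =
      (D : ℚ) ^ sz p • evL (μT t) (fun i => (D : ℚ)⁻¹ • vec (v i)) (polyV p) := by
  have key : ∀ (N : ℕ) (p : VC), (∀ q ∈ p, dg (dec q.2) ≤ N) →
      vec (p.flatMap fun q => smulN (D ^ (N - dg (dec q.2)))
        (sgn q.1 (evG (mulT t) v (dec q.2)))) =
      (D : ℚ) ^ N • evL (μT t) (fun i => (D : ℚ)⁻¹ • vec (v i)) (polyV p) := by
    intro N p hp
    induction p with
    | nil => simp [vec, polyV]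
    | cons q p ih =>
      have hD' : (D : ℚ) ≠ 0 := Nat.cast_ne_zero.2 hD
      rw [flatMap_cons, vec_append, ih fun q hq => hp q (mem_cons_of_mem _ hq), vec_smulN,
        vec_sgn, vec_evG, polyV_cons, map_add, map_smul, evL_mon, evm_smul, smul_add]
      congr 1
      simp only [smul_smul]
      congr 1
      rw [Nat.cast_pow, pow_sub₀ _ hD' (hp q mem_cons_self), inv_pow]
      ring
  exact key _ p fun q hq => dg_le_sz hq

/-- coordinates of a polynomial -/
noncomputable def u1E : FA ℚ ℕ →ₗ[ℚ] (ℕ →₀ ℚ) :=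
  (MonoidAlgebra.basis (FreeMagma ℕ) ℚ).constr ℚ fun w => Finsupp.single (enc w) 1

/-- polynomial with given coordinates -/
noncomputable def u1G : (ℕ →₀ ℚ) →ₗ[ℚ] FA ℚ ℕ :=
  Finsupp.linearCombination ℚ fun m => mon ℚ (dec m)

theorem u1E_mon (w : FreeMagma ℕ) : u1E (mon ℚ w) = Finsupp.single (enc w) 1 := by
  rw [mon_eq, ← MonoidAlgebra.basis_apply, u1E, Module.Basis.constr_basis]

theorem u1E_polyV (p : VC) : u1E (polyV p) = vec p := by
  induction p with
  | nil => simp [polyV, vec]
  | cons q p ih =>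
    rw [polyV_cons, vec_cons, map_add, map_smul, ih, u1E_mon, enc_dec, Finsupp.smul_single,
      smul_eq_mul, mul_one]

theorem u1G_vec (p : VC) : u1G (vec p) = polyV p := by
  induction p with
  | nil => simp [polyV, vec]
  | cons q p ih => rw [polyV_cons, vec_cons, map_add, ih]; simp [u1G]

theorem polyV_eq_zero (p : VC) : polyV p = 0 ↔ vec p = 0 :=
  ⟨fun h => by rw [← u1E_polyV, h, map_zero], fun h => by rw [← u1G_vec, h, map_zero]⟩

theorem dec_pair (i j : ℕ) : dec (2 * Nat.pair i j + 1) = dec i * dec j := by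
  conv_lhs => rw [← enc_dec i, ← enc_dec j]
  exact dec_enc (.mul (dec i) (dec j))

theorem dec_two_mul (i : ℕ) : dec (2 * i) = .of i := dec_enc (.of i)

theorem polyV_mulT (p q : VC) : polyV (mulT tF p q) = polyV p * polyV q := by
  induction p with
  | nil => simp [mulT, polyV]
  | cons a p ih =>
    rw [show mulT tF (a :: p) q =
      (q.flatMap fun b => sgn (xor a.1 b.1) (tF a.2 b.2)) ++ mulT tF p q from rfl,
      polyV_append, ih, polyV_cons, add_mul]
    congr 1
    clear ih
    induction q with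
    | nil => simp [polyV]
    | cons b q ih =>
      rw [flatMap_cons, polyV_append, ih, polyV_cons, mul_add, polyV_sgn, sg_xor, tF, polyV_cons,
        dec_pair, mon_mul, smul_mul_assoc, mul_smul_comm]
      rw [show sg false = 1 from rfl, one_smul, polyV_nil, add_zero, smul_mul_assoc, smul_smul,
        mul_comm (sg b.1)]

theorem polyV_evG (v : ℕ → VC) (w : FreeMagma ℕ) : polyV (evG (mulT tF) v w) =
    FreeNonUnitalNonAssocAlgebra.lift ℚ (fun i => polyV (v i)) (mon ℚ w) := by
  induction w using FreeMagma.rec with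
  | of i => rw [mon_of, FreeNonUnitalNonAssocAlgebra.lift_of_apply]; rfl
  | mul a b ha hb =>
    rw [show (a.mul b) = a * b from rfl, mon_mul, map_mul, ← ha, ← hb, ← polyV_mulT]
    rfl

theorem polyV_evP (v : ℕ → VC) (p : VC) : polyV (evP tF v p) =
    FreeNonUnitalNonAssocAlgebra.lift ℚ (fun i => polyV (v i)) (polyV p) := by
  induction p with
  | nil => simp [evP, polyV]
  | cons q p ih =>
    rw [show evP tF v (q :: p) = sgn q.1 (evG (mulT tF) v (dec q.2)) ++ evP tF v p from rfl,
      polyV_append, ih, polyV_sgn, polyV_evG, polyV_cons, map_add, map_smul]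

theorem lift_lift {X Y Z : Type} (φ : X → FA ℚ Y) (ψ : Y → FA ℚ Z) (f : FA ℚ X) :
    FreeNonUnitalNonAssocAlgebra.lift ℚ ψ (FreeNonUnitalNonAssocAlgebra.lift ℚ φ f) =
      FreeNonUnitalNonAssocAlgebra.lift ℚ
        (fun i => FreeNonUnitalNonAssocAlgebra.lift ℚ ψ (φ i)) f := by
  have : (FreeNonUnitalNonAssocAlgebra.lift ℚ ψ).comp (FreeNonUnitalNonAssocAlgebra.lift ℚ φ) =
      FreeNonUnitalNonAssocAlgebra.lift ℚ
        (fun i => FreeNonUnitalNonAssocAlgebra.lift ℚ ψ (φ i)) := by
    refine FreeNonUnitalNonAssocAlgebra.hom_ext ℚ fun x => ?_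
    simp
  exact DFunLike.congr_fun this f

theorem isZ_red (n : ℕ) (p : VC) : IsZ (red n p) ↔ polyN n p = 0 := by
  have e : ∀ i, polyV [(false, 2 * (i % (n + 1)))] = mon ℚ (.of (i % (n + 1))) := fun i => by
    simp [polyV, sg, dec_two_mul]
  rw [isZ_iff, ← polyV_eq_zero, red, polyV_evP]
  simp only [e]
  constructor
  · intro h
    have := congrArg (FreeNonUnitalNonAssocAlgebra.lift ℚ
      (fun i => mon ℚ (.of (Fin.ofNat (n + 1) i)))) h
    rw [map_zero, lift_lift] at this
    rw [← this, polyN]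
    congr 2
    funext i
    rw [mon_of (F := ℚ) (i % (n + 1)), FreeNonUnitalNonAssocAlgebra.lift_of_apply]
    congr 2
    ext
    simp
  · intro h
    have := congrArg (FreeNonUnitalNonAssocAlgebra.lift ℚ
      (fun i : Fin (n + 1) => mon ℚ (.of (i : ℕ)))) h
    rw [map_zero, polyN, lift_lift] at this
    rw [← this]
    congr 2
    funext i
    rw [mon_of (F := ℚ) (Fin.ofNat (n + 1) i), FreeNonUnitalNonAssocAlgebra.lift_of_apply]
    rfl

theorem polyV_replicate (k : ℕ) (q : Bool × ℕ) :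
    polyV (replicate k q) = ((k : ℚ) * sg q.1) • mon ℚ (dec q.2) := by
  induction k with
  | zero => simp [polyV]
  | succ k ih => rw [replicate_succ, polyV_cons, ih, ← add_smul]; congr 1; push_cast; ring

theorem vec_replicate (k : ℕ) (q : Bool × ℕ) :
    vec (replicate k q) = Finsupp.single q.2 ((k : ℚ) * sg q.1) := by
  induction k with
  | zero => simp [vec]
  | succ k ih =>
    rw [replicate_succ, vec_cons, ih, ← Finsupp.single_add]; congr 1; push_cast; ring

theorem natAbs_sg (c : ℤ) : (c.natAbs : ℚ) * sg (decide (c < 0)) = c := by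
  by_cases h : c < 0
  · simp [sg, h, abs_of_neg (show (c : ℚ) < 0 by exact_mod_cast h)]
  · simp [sg, h, abs_of_nonneg (show (0 : ℚ) ≤ c by exact_mod_cast not_lt.1 h)]

theorem polyV_toV (p : PCode) : polyV (toV p) = poly ℚ p := by
  induction p with
  | nil => rfl
  | cons q p ih =>
    rw [show toV (q :: p) = replicate q.1.natAbs (decide (q.1 < 0), q.2) ++ toV p from rfl,
      polyV_append, ih, polyV_replicate, natAbs_sg]
    simp [poly]

theorem polyN_mon (n : ℕ) (w : FreeMagma (Fin (n + 1))) :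
    polyN n [(false, enc (w.map Fin.val))] = mon ℚ w := by
  have : polyV [(false, enc (w.map Fin.val))] = mon ℚ (w.map Fin.val) := by simp [polyV, sg]
  rw [polyN, this]
  clear this
  induction w using FreeMagma.rec with
  | of x =>
    rw [show FreeMagma.map Fin.val (FreeMagma.of x) = .of (x : ℕ) from rfl,
      mon_of (F := ℚ) (x : ℕ), FreeNonUnitalNonAssocAlgebra.lift_of_apply]
    congr 2
    ext
    simp
  | mul a b ha hb =>
    rw [show (a.mul b) = a * b from rfl, map_mul, mon_mul, map_mul, ha, hb, mon_mul]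

theorem exists_polyN (n : ℕ) (f : FA ℚ (Fin (n + 1))) :
    ∃ (c : ℕ) (p : VC), ((c : ℚ) + 1) • f = polyN n p := by
  induction f using MonoidAlgebra.induction_linear with
  | zero => exact ⟨0, [], by simp [polyN, polyV]⟩
  | add f g hf hg =>
    obtain ⟨c, p, hp⟩ := hf
    obtain ⟨d, q, hq⟩ := hg
    refine ⟨c * d + c + d, smulN (d + 1) p ++ smulN (c + 1) q, ?_⟩
    simp only [polyN] at hp hq ⊢
    rw [polyV_append, polyV_smulN, polyV_smulN, map_add, map_smul, map_smul, ← hp, ← hq,
      smul_smul, smul_smul, smul_add]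
    congr 2 <;> push_cast <;> ring
  | single w c =>
    refine ⟨c.den - 1, smulN c.num.natAbs (sgn (decide (c.num < 0))
      [(false, enc (w.map Fin.val))]), ?_⟩
    have h := polyN_mon n w
    simp only [polyN] at h ⊢
    rw [polyV_smulN, polyV_sgn, map_smul, map_smul, h, single_eq, smul_smul, smul_smul,
      natAbs_sg]
    congr 1
    rw [Nat.cast_pred c.den_pos, sub_add_cancel, mul_comm, Rat.mul_den_eq_num]

/-- an integer vector supported below `d` is a formal sum -/
theorem exists_vec (d : ℕ) (c : ℕ → ℤ) : ∃ p : VC, (∀ q ∈ p, q.2 < d) ∧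
    vec p = ∑ k ∈ Finset.range d, Finsupp.single k (c k : ℚ) := by
  induction d with
  | zero => exact ⟨[], by simp, by simp [vec]⟩
  | succ d ih =>
    obtain ⟨p, h1, h2⟩ := ih
    refine ⟨p ++ replicate (c d).natAbs (decide (c d < 0), d), fun q hq => ?_, ?_⟩
    · rcases mem_append.1 hq with hq | hq
      · exact (h1 q hq).trans (Nat.lt_succ_self d)
      · rw [(mem_replicate.1 hq).2]; exact Nat.lt_succ_self d
    · rw [vec_append, h2, Finset.sum_range_succ, vec_replicate, natAbs_sg]

end Pool.Agent.Lib.MP_038c09_al.Pi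
end

-- part PiU2
section

/-!
Membership in the ideal of a finite presentation has certificates.
-/

namespace Pool.Agent.Lib.MP_038c09_al.Pi

open List

theorem u2_polyN_append (n : ℕ) (p q : VC) : polyN n (p ++ q) = polyN n p + polyN n q := by
  simp only [polyN, polyV_append, map_add]

theorem u2_polyN_sgn (n : ℕ) (b : Bool) (p : VC) : polyN n (sgn b p) = sg b • polyN n p := by
  simp only [polyN, polyV_sgn, map_smul]

theorem u2_polyN_smulN (n k : ℕ) (p : VC) : polyN n (smulN k p) = (k : ℚ) • polyN n p := by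
  simp only [polyN, polyV_smulN, map_smul]

theorem u2_polyN_mulT (n : ℕ) (p q : VC) :
    polyN n (mulT tF p q) = polyN n p * polyN n q := by
  simp only [polyN, polyV_mulT, map_mul]

theorem u2_polyN_nil (n : ℕ) : polyN n [] = 0 := by simp only [polyN, polyV_nil, map_zero]

theorem u2_polyN_evP (n : ℕ) (v : ℕ → VC) (p : VC) : polyN n (evP tF v p) =
    FreeNonUnitalNonAssocAlgebra.lift ℚ (fun i => polyN n (v i)) (polyV p) := by
  simp only [polyN, polyV_evP, lift_lift]

theorem u2_ctx_mem {n : ℕ} {K : Submodule ℚ (FA ℚ (Fin (n + 1)))} (hK : IsIdeal K)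
    (c : List (Bool × ℕ)) {p : VC} (hp : polyN n p ∈ K) : polyN n (ctxV c p) ∈ K := by
  induction c generalizing p with
  | nil => exact hp
  | cons u c ih =>
    refine ih ?_
    beta_reduce
    split_ifs
    · rw [u2_polyN_mulT]; exact (hK _ _ hp).2
    · rw [u2_polyN_mulT]; exact (hK _ _ hp).1

theorem u2_getD {α : Type} (l : List α) (j : ℕ) (d : α) : l.getD j d ∈ l ∨ l.getD j d = d := by
  by_cases h : j < l.length
  · left; simp [h]
  · right; simp [not_lt.1 h]

theorem u2_term_mem (I : List VC) (n : ℕ) (Rl : List VC) (τ : Term) :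
    polyN n (termV I Rl τ) ∈ idK I n Rl := by
  obtain ⟨b, c, g⟩ := τ
  rw [termV, u2_polyN_sgn]
  refine Submodule.smul_mem _ _ (u2_ctx_mem (isIdeal_idealGen _) _ ?_)
  rcases g with j | ⟨j, φ⟩
  · rcases u2_getD Rl j [] with h | h
    · exact subset_idealGen _ (Or.inr ⟨_, h, rfl⟩)
    · simp only [genV, h, u2_polyN_nil]; exact zero_mem _
  · simp only [genV, u2_polyN_evP]
    rcases u2_getD I j [] with h | h
    · exact subset_idealGen _ (Or.inl ⟨_, ⟨_, h, rfl⟩, _, rfl⟩)
    · rw [h, polyV_nil, map_zero]; exact zero_mem _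

theorem u2_terms_mem (I : List VC) (n : ℕ) (Rl : List VC) (ts : List Term) :
    polyN n (ts.flatMap (termV I Rl)) ∈ idK I n Rl := by
  induction ts with
  | nil => rw [flatMap_nil, u2_polyN_nil]; exact zero_mem _
  | cons τ ts ih =>
    rw [flatMap_cons, u2_polyN_append]
    exact add_mem (u2_term_mem I n Rl τ) ih

/-- span of the values of terms -/
noncomputable def u2S (I : List VC) (n : ℕ) (Rl : List VC) : Submodule ℚ (FA ℚ (Fin (n + 1))) :=
  Submodule.span ℚ (Set.range fun τ : Term => polyN n (termV I Rl τ))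

theorem u2_ctx_concat (c : List (Bool × ℕ)) (u : Bool × ℕ) (p : VC) : ctxV (c ++ [u]) p =
    if u.1 then mulT tF (ctxV c p) [(false, u.2)] else mulT tF [(false, u.2)] (ctxV c p) := by
  simp [ctxV]

theorem u2_ideal (I : List VC) (n : ℕ) (Rl : List VC) : IsIdeal (u2S I n Rl) := by
  intro x y hy
  induction x using MonoidAlgebra.induction_linear with
  | zero => simp
  | add f g hf hg =>
    rw [add_mul, mul_add]
    exact ⟨add_mem hf.1 hg.1, add_mem hf.2 hg.2⟩
  | single w c =>
    rw [single_eq, smul_mul_assoc, mul_smul_comm]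
    refine ⟨Submodule.smul_mem _ _ ?_, Submodule.smul_mem _ _ ?_⟩
    · induction hy using Submodule.span_induction with
      | mem x hx =>
        obtain ⟨⟨b, c, g⟩, rfl⟩ := hx
        refine Submodule.subset_span ⟨(b, c ++ [(false, enc (w.map Fin.val))], g), ?_⟩
        simp only [termV, u2_polyN_sgn, u2_ctx_concat, Bool.false_eq_true, if_false,
          u2_polyN_mulT, polyN_mon, mul_smul_comm]
      | zero => simp
      | add x y _ _ hx hy => rw [mul_add]; exact add_mem hx hy
      | smul a x _ hx => rw [mul_smul_comm]; exact Submodule.smul_mem _ _ hx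
    · induction hy using Submodule.span_induction with
      | mem x hx =>
        obtain ⟨⟨b, c, g⟩, rfl⟩ := hx
        refine Submodule.subset_span ⟨(b, c ++ [(true, enc (w.map Fin.val))], g), ?_⟩
        simp only [termV, u2_polyN_sgn, u2_ctx_concat, if_true, u2_polyN_mulT, polyN_mon,
          smul_mul_assoc]
      | zero => simp
      | add x y _ _ hx hy => rw [add_mul]; exact add_mem hx hy
      | smul a x _ hx => rw [smul_mul_assoc]; exact Submodule.smul_mem _ _ hx

theorem u2_gen_mem (I : List VC) (n : ℕ) (Rl : List VC) (g : ℕ ⊕ (ℕ × List VC)) :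
    polyN n (genV I Rl g) ∈ u2S I n Rl :=
  Submodule.subset_span ⟨(false, [], g), by simp [termV, u2_polyN_sgn, sg, ctxV]⟩

theorem u2_lift_mon {X : Type} (φ : ℕ → FA ℚ X) (w : FreeMagma ℕ) :
    FreeNonUnitalNonAssocAlgebra.lift ℚ φ (mon ℚ w) = evm (LinearMap.mul ℚ (FA ℚ X)) φ w :=
  hom_lift_mon (LinearMap.mul ℚ (FA ℚ X)) LinearMap.id (fun _ _ => rfl) φ w

theorem u2_lift_congr {X : Type} (φ ψ : ℕ → FA ℚ X) (p : VC)
    (h : ∀ q ∈ p, ∀ i ∈ leaves (dec q.2), φ i = ψ i) :
    FreeNonUnitalNonAssocAlgebra.lift ℚ φ (polyV p) =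
      FreeNonUnitalNonAssocAlgebra.lift ℚ ψ (polyV p) := by
  induction p with
  | nil => simp [polyV]
  | cons q p ih =>
    rw [polyV_cons, map_add, map_add, map_smul, map_smul,
      ih fun q hq => h q (mem_cons_of_mem _ hq), u2_lift_mon, u2_lift_mon,
      evm_congr _ _ (h q mem_cons_self)]

theorem u2_poly {X : Type} (φ : ℕ → FA ℚ X) (l : FA ℚ X →ₗ[ℚ] ℚ) (p : VC) :
    ∃ P : Polynomial ℚ, ∀ x : ℚ,
      P.eval x = l (FreeNonUnitalNonAssocAlgebra.lift ℚ (fun i => x • φ i) (polyV p)) := by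
  induction p with
  | nil => exact ⟨0, fun x => by simp [polyV]⟩
  | cons q p ih =>
    obtain ⟨P, hP⟩ := ih
    refine ⟨Polynomial.C (sg q.1 * l (evm (LinearMap.mul ℚ (FA ℚ X)) φ (dec q.2))) *
      Polynomial.X ^ dg (dec q.2) + P, fun x => ?_⟩
    rw [polyV_cons, map_add, map_smul, u2_lift_mon, evm_smul, map_add, ← hP]
    simp only [Polynomial.eval_add, Polynomial.eval_mul, Polynomial.eval_C, Polynomial.eval_pow,
      Polynomial.eval_X, map_smul, smul_eq_mul]
    ring

theorem u2_common (n : ℕ) (φ : ℕ → FA ℚ (Fin (n + 1))) (N : ℕ) :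
    ∃ (c : ℕ) (ψ : List VC), ∀ i < N, ((c : ℚ) + 1) • φ i = polyN n (ψ.getD i []) := by
  choose c p hp using exists_polyN n
  let C := ∏ i ∈ Finset.range N, (c (φ i) + 1)
  have hC : 0 < C := Finset.prod_pos fun i _ => Nat.succ_pos _
  refine ⟨C - 1, (List.range N).map fun i => smulN (C / (c (φ i) + 1)) (p (φ i)),
    fun i hi => ?_⟩
  obtain ⟨k, hk⟩ : (c (φ i) + 1) ∣ C := Finset.dvd_prod_of_mem _ (Finset.mem_range.2 hi)
  rw [getD_eq_getElem _ _ (by simpa using hi), getElem_map, getElem_range, u2_polyN_smulN, ← hp,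
    smul_smul, Nat.cast_pred hC, sub_add_cancel, hk, Nat.mul_div_cancel_left _ (Nat.succ_pos _)]
  congr 1
  push_cast
  ring

theorem u2_tval (I : List VC) (n : ℕ) (Rl : List VC) {p : VC} (hp : p ∈ I)
    (φ : ℕ → FA ℚ (Fin (n + 1))) :
    FreeNonUnitalNonAssocAlgebra.lift ℚ φ (polyV p) ∈ u2S I n Rl := by
  by_contra hn
  obtain ⟨l, hl, hl'⟩ := Submodule.exists_dual_map_eq_bot_of_notMem hn inferInstance
  obtain ⟨c, ψ, hψ⟩ := u2_common n φ (sz p)
  obtain ⟨j, hj, rfl⟩ := getElem_of_mem hp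
  obtain ⟨P, hP⟩ := u2_poly φ l I[j]
  have h0 : P = 0 := by
    refine Polynomial.eq_zero_of_infinite_isRoot P (Set.infinite_of_injective_forall_mem
      (f := fun k : ℕ => (k : ℚ) * ((c : ℚ) + 1)) (fun a b h => ?_) fun k => ?_)
    · have : ((c : ℚ) + 1) ≠ 0 := by positivity
      exact_mod_cast mul_right_cancel₀ this h
    · have h1 := u2_gen_mem I n Rl (.inr (j, ψ.map (smulN k)))
      simp only [genV, u2_polyN_evP] at h1
      rw [getD_eq_getElem _ _ hj] at h1
      have h2 : l _ ∈ (⊥ : Submodule ℚ ℚ) := hl' ▸ Submodule.mem_map_of_mem h1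
      rw [Set.mem_ofPred_eq, Polynomial.IsRoot, hP, ← (Submodule.mem_bot ℚ).1 h2]
      congr 1
      refine u2_lift_congr _ _ _ fun q hq i hi => ?_
      have h3 : (ψ.map (smulN k)).getD i [] = smulN k (ψ.getD i []) := by
        by_cases h : i < ψ.length
        · simp [h]
        · simp [not_lt.1 h, smulN]
      rw [h3, u2_polyN_smulN, ← hψ i (leaves_lt_sz hq i hi), smul_smul]
  have := hP 1
  simp only [h0, Polynomial.eval_zero, one_smul] at this
  exact hl this.symm

theorem u2_le (I : List VC) (n : ℕ) (Rl : List VC) : idK I n Rl ≤ u2S I n Rl := by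
  refine idealGen_le (u2_ideal I n Rl) ?_
  rintro g (⟨_, ⟨p, hp, rfl⟩, φ, rfl⟩ | ⟨p, hp, rfl⟩)
  · exact u2_tval I n Rl hp φ
  · obtain ⟨j, hj, rfl⟩ := getElem_of_mem hp
    have := u2_gen_mem I n Rl (.inl j)
    simp only [genV] at this
    rwa [getD_eq_getElem _ _ hj] at this

theorem u2_rep (I : List VC) (n : ℕ) (Rl : List VC) (k : ℕ) (b : Bool) (ts : List Term) :
    ∃ ts' : List Term, polyN n (ts'.flatMap (termV I Rl)) =
      ((k : ℚ) * sg b) • polyN n (ts.flatMap (termV I Rl)) := by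
  have h1 : ∃ ts' : List Term, polyN n (ts'.flatMap (termV I Rl)) =
      sg b • polyN n (ts.flatMap (termV I Rl)) := by
    induction ts with
    | nil => exact ⟨[], by simp [u2_polyN_nil]⟩
    | cons τ ts ih =>
      obtain ⟨ts', h⟩ := ih
      refine ⟨(xor b τ.1, τ.2) :: ts', ?_⟩
      simp only [flatMap_cons, u2_polyN_append, h, termV, u2_polyN_sgn, sg_xor, smul_add,
        smul_smul]
  obtain ⟨ts1, h1⟩ := h1
  induction k with
  | zero => exact ⟨[], by simp [u2_polyN_nil]⟩
  | succ k ih =>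
    obtain ⟨ts', h⟩ := ih
    refine ⟨ts' ++ ts1, ?_⟩
    rw [flatMap_append, u2_polyN_append, h, h1, ← add_smul]
    congr 1
    push_cast
    ring

theorem u2_span (I : List VC) (n : ℕ) (Rl : List VC) {x : FA ℚ (Fin (n + 1))}
    (hx : x ∈ u2S I n Rl) : ∃ (c : ℕ) (ts : List Term),
      ((c : ℚ) + 1) • x = polyN n (ts.flatMap (termV I Rl)) := by
  induction hx using Submodule.span_induction with
  | mem x hx =>
    obtain ⟨τ, rfl⟩ := hx
    exact ⟨0, [τ], by simp⟩
  | zero => exact ⟨0, [], by simp [u2_polyN_nil]⟩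
  | add x y _ _ hx hy =>
    obtain ⟨c, ts, h⟩ := hx
    obtain ⟨d, us, h'⟩ := hy
    obtain ⟨ts', k⟩ := u2_rep I n Rl (d + 1) false ts
    obtain ⟨us', k'⟩ := u2_rep I n Rl (c + 1) false us
    refine ⟨c * d + c + d, ts' ++ us', ?_⟩
    rw [flatMap_append, u2_polyN_append, k, k', ← h, ← h', smul_smul, smul_smul, smul_add]
    congr 2 <;> simp only [sg] <;> push_cast <;> simp <;> ring
  | smul a x _ hx =>
    obtain ⟨c, ts, h⟩ := hx
    obtain ⟨ts', k⟩ := u2_rep I n Rl a.num.natAbs (decide (a.num < 0)) ts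
    refine ⟨a.den * (c + 1) - 1, ts', ?_⟩
    rw [k, natAbs_sg, ← h, smul_smul, smul_smul,
      Nat.cast_pred (Nat.mul_pos a.den_pos (Nat.succ_pos _)), sub_add_cancel,
      ← Rat.mul_den_eq_num]
    congr 1
    push_cast
    ring

theorem cert1_iff (I : List VC) (n : ℕ) (Rl : List VC) (a : VC) :
    (∃ w, Cert1 I n Rl a w) ↔ polyN n a ∈ idK I n Rl := by
  constructor
  · rintro ⟨⟨c, ts⟩, h⟩
    rw [Cert1, isZ_red, u2_polyN_append, u2_polyN_smulN, add_eq_zero_iff_eq_neg] at h
    have h1 : ((c + 1 : ℕ) : ℚ) • polyN n a ∈ idK I n Rl := by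
      rw [h]; exact neg_mem (u2_terms_mem I n Rl ts)
    rwa [Submodule.smul_mem_iff _ (by positivity)] at h1
  · intro h
    obtain ⟨c, ts, h1⟩ := u2_span I n Rl (u2_le I n Rl h)
    obtain ⟨ts', h2⟩ := u2_rep I n Rl 1 true ts
    refine ⟨(c, ts'), ?_⟩
    rw [Cert1, isZ_red, u2_polyN_append, u2_polyN_smulN, h2, ← h1]
    simp [sg]

end Pool.Agent.Lib.MP_038c09_al.Pi
end

-- part PiU3
section

/-!
A certificate of separation gives an ideal of finite codimension.
-/

namespace Pool.Agent.Lib.MP_038c09_al.Pi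

open List

/-- the span of the first `d` basis vectors -/
noncomputable def u3W (d : ℕ) : Submodule ℚ (ℕ →₀ ℚ) :=
  Submodule.span ℚ (Set.range fun k : Fin d => Finsupp.single (k : ℕ) (1 : ℚ))

theorem u3_mem_iff {d : ℕ} {u : ℕ →₀ ℚ} :
    u ∈ u3W d ↔ ∃ c : Fin d → ℚ, ∑ k, c k • Finsupp.single (k : ℕ) (1 : ℚ) = u :=
  Submodule.mem_span_range_iff_exists_fun ℚ

theorem u3_vec_mem {d : ℕ} {p : VC} (h : ∀ q ∈ p, q.2 < d) : vec p ∈ u3W d := by
  induction p with
  | nil => exact zero_mem _
  | cons q p ih =>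
    rw [vec_cons]
    refine add_mem ?_ (ih fun r hr => h r (mem_cons_of_mem _ hr))
    have : Finsupp.single q.2 (sg q.1) = sg q.1 • Finsupp.single q.2 (1 : ℚ) := by simp
    rw [this]
    exact Submodule.smul_mem _ _ (Submodule.subset_span ⟨⟨q.2, h q mem_cons_self⟩, rfl⟩)

theorem u3_mul_mem {d : ℕ} {t : ℕ → ℕ → VC} (ht : ∀ i j, vec (t i j) ∈ u3W d) (u v : ℕ →₀ ℚ) :
    μT t u v ∈ u3W d := by
  induction u using Finsupp.induction_linear with
  | zero => simp
  | add u u' h h' => rw [map_add, LinearMap.add_apply]; exact add_mem h h'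
  | single i a =>
    induction v using Finsupp.induction_linear with
    | zero => simp
    | add v v' h h' => rw [map_add]; exact add_mem h h'
    | single j b => rw [μT_single]; exact Submodule.smul_mem _ _ (ht i j)

theorem u3_evL_mem {X : Type} {d : ℕ} {t : ℕ → ℕ → VC} (ht : ∀ i j, vec (t i j) ∈ u3W d)
    {v : X → ℕ →₀ ℚ} (hv : ∀ i, v i ∈ u3W d) (f : FA ℚ X) : evL (μT t) v f ∈ u3W d := by
  induction f using MonoidAlgebra.induction_linear with
  | zero => simp
  | add f g h h' => rw [map_add]; exact add_mem h h'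
  | single w c =>
    rw [single_eq, map_smul, evL_mon]
    refine Submodule.smul_mem _ _ ?_
    cases w with
    | of x => exact hv x
    | mul a b => exact u3_mul_mem ht _ _

theorem u3_hom_lift {X : Type} {A : Type} [AddCommGroup A] [Module ℚ A]
    (μ : A →ₗ[ℚ] A →ₗ[ℚ] A) (h : FA ℚ X →ₗ[ℚ] A) (hmul : ∀ f g, h (f * g) = μ (h f) (h g))
    (φ : ℕ → FA ℚ X) (p : VC) :
    h (FreeNonUnitalNonAssocAlgebra.lift ℚ φ (polyV p)) = evL μ (fun i => h (φ i)) (polyV p) := by
  induction p with
  | nil => simp [polyV]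
  | cons q p ih =>
    rw [polyV_cons, map_add, map_add, map_add, ih, map_smul, map_smul, map_smul,
      hom_lift_mon μ h hmul, evL_mon]

theorem u3_evL_congr {A : Type} [AddCommGroup A] [Module ℚ A] (μ : A →ₗ[ℚ] A →ₗ[ℚ] A)
    {v v' : ℕ → A} {N : ℕ} (hv : ∀ i, i < N → v i = v' i) (p : VC)
    (hp : ∀ q ∈ p, ∀ i ∈ leaves (dec q.2), i < N) :
    evL μ v (polyV p) = evL μ v' (polyV p) := by
  induction p with
  | nil => simp [polyV]
  | cons q p ih =>
    rw [polyV_cons, map_add, map_add, ih fun r hr => hp r (mem_cons_of_mem _ hr), map_smul,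
      map_smul, evL_mon, evL_mon, evm_congr μ _ fun i hi => hv i (hp q mem_cons_self i hi)]

section poly

variable {A : Type} [AddCommGroup A] [Module ℚ A] {N d : ℕ}

/-- the arguments with given coordinates -/
noncomputable def u3pt (e : Fin d → A) (x : Fin N × Fin d → ℚ) (i : ℕ) : A :=
  if h : i < N then ∑ k, x (⟨i, h⟩, k) • e k else 0

theorem u3_poly_mon (μ : A →ₗ[ℚ] A →ₗ[ℚ] A) (e : Fin d → A) (c : Fin d → Fin d → Fin d → ℚ)
    (hc : ∀ k l, ∑ m, c k l m • e m = μ (e k) (e l)) (w : FreeMagma ℕ) :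
    ∃ P : Fin d → MvPolynomial (Fin N × Fin d) ℚ, (∀ k, (P k).totalDegree ≤ dg w) ∧
      ∀ x, evm μ (u3pt e x) w = ∑ k, MvPolynomial.eval x (P k) • e k := by
  induction w using FreeMagma.rec with
  | of i =>
    by_cases h : i < N
    · refine ⟨fun k => MvPolynomial.X (⟨i, h⟩, k), fun k => ?_, fun x => ?_⟩
      · rw [MvPolynomial.totalDegree_X]; exact le_rfl
      · simp [evm, u3pt, h]
    · exact ⟨fun _ => 0, fun k => by simp, fun x => by simp [evm, u3pt, h]⟩
  | mul a b ha hb =>
    obtain ⟨P, hP, hP'⟩ := ha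
    obtain ⟨Q, hQ, hQ'⟩ := hb
    refine ⟨fun m => ∑ k, ∑ l, c k l m • (P k * Q l), fun m => ?_, fun x => ?_⟩
    · refine MvPolynomial.totalDegree_finsetSum_le fun k _ =>
        MvPolynomial.totalDegree_finsetSum_le fun l _ => ?_
      exact (MvPolynomial.totalDegree_smul_le _ _).trans
        ((MvPolynomial.totalDegree_mul _ _).trans (add_le_add (hP k) (hQ l)))
    · simp only [evm, hP', hQ', map_sum, map_smul, LinearMap.sum_apply, LinearMap.smul_apply,
        ← hc, MvPolynomial.smul_eval, map_mul, Finset.sum_smul, Finset.smul_sum, smul_smul]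
      rw [Finset.sum_comm]
      refine (Finset.sum_congr rfl fun k _ => Finset.sum_comm).trans ?_
      rw [Finset.sum_comm]
      refine Finset.sum_congr rfl fun m _ => Finset.sum_congr rfl fun k _ =>
        Finset.sum_congr rfl fun l _ => ?_
      congr 1
      ring

theorem u3_poly (μ : A →ₗ[ℚ] A →ₗ[ℚ] A) (e : Fin d → A) (c : Fin d → Fin d → Fin d → ℚ)
    (hc : ∀ k l, ∑ m, c k l m • e m = μ (e k) (e l)) (M : ℕ) (p : VC)
    (hp : ∀ q ∈ p, dg (dec q.2) ≤ M) :
    ∃ P : Fin d → MvPolynomial (Fin N × Fin d) ℚ, (∀ k, (P k).totalDegree ≤ M) ∧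
      ∀ x, evL μ (u3pt e x) (polyV p) = ∑ k, MvPolynomial.eval x (P k) • e k := by
  induction p with
  | nil => exact ⟨fun _ => 0, fun k => by simp, fun x => by simp [polyV]⟩
  | cons q p ih =>
    obtain ⟨P, hP, hP'⟩ := ih fun r hr => hp r (mem_cons_of_mem _ hr)
    obtain ⟨Q, hQ, hQ'⟩ := u3_poly_mon (N := N) μ e c hc (dec q.2)
    refine ⟨fun k => sg q.1 • Q k + P k, fun k => ?_, fun x => ?_⟩
    · refine (MvPolynomial.totalDegree_add _ _).trans (max_le ?_ (hP k))
      exact (MvPolynomial.totalDegree_smul_le _ _).trans ((hQ k).trans (hp q mem_cons_self))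
    · rw [polyV_cons, map_add, map_smul, evL_mon, hP', hQ']
      simp only [map_add, MvPolynomial.smul_eval, add_smul, Finset.sum_add_distrib,
        Finset.smul_sum, smul_smul]

end poly

theorem u3_vec_grid (N d z i : ℕ) : vec (grid N d z i) =
    ∑ k : Fin d, ((z / (N + 1) ^ (i * d + k) % (N + 1) : ℕ) : ℚ) •
      Finsupp.single (k : ℕ) (1 : ℚ) := by
  have key : ∀ (g : ℕ → ℕ) (m : ℕ),
      vec ((List.range m).flatMap fun k => replicate (g k) (false, k)) =
        ∑ k ∈ Finset.range m, (g k : ℚ) • Finsupp.single k (1 : ℚ) := by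
    intro g m
    induction m with
    | zero => simp [vec]
    | succ m ih =>
      rw [range_succ, flatMap_append, vec_append, ih, Finset.sum_range_succ]
      simp [vec_replicate, sg]
  rw [grid, key, Finset.sum_range]

theorem u3_digits {N d : ℕ} (y : Fin N × Fin d → Fin (N + 1)) :
    ∃ z, z < (N + 1) ^ (N * d) ∧ ∀ (i : Fin N) (k : Fin d),
      z / (N + 1) ^ (i * d + k) % (N + 1) = y (i, k) := by
  refine ⟨finFunctionFinEquiv (y ∘ finProdFinEquiv.symm), Fin.is_lt _, fun i k => ?_⟩
  have h := finFunctionFinEquiv_symm_apply_val (finFunctionFinEquiv (y ∘ finProdFinEquiv.symm))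
    (finProdFinEquiv (i, k))
  rw [Equiv.symm_apply_apply, Function.comp_apply, Equiv.symm_apply_apply,
    finProdFinEquiv_apply_val] at h
  rw [h, mul_comm (i : ℕ) d, add_comm (d * i)]

/-- a polynomial that vanishes on the grid is an identity -/
theorem u3_grid {d : ℕ} {t : ℕ → ℕ → VC} (ht : ∀ i j, vec (t i j) ∈ u3W d) (p : VC)
    (hz : ∀ z < (sz p + 1) ^ (sz p * d), IsZ (evP t (grid (sz p) d z) p))
    {v : ℕ → ℕ →₀ ℚ} (hv : ∀ i, v i ∈ u3W d) : evL (μT t) v (polyV p) = 0 := by
  choose c hc using fun k l : Fin d => u3_mem_iff.1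
    (u3_mul_mem ht (Finsupp.single (k : ℕ) (1 : ℚ)) (Finsupp.single (l : ℕ) (1 : ℚ)))
  obtain ⟨P, hP, hP'⟩ := u3_poly (N := sz p) (μT t)
    (fun k : Fin d => Finsupp.single (k : ℕ) (1 : ℚ)) c hc (sz p) p fun q hq => dg_le_sz hq
  have h0 : ∀ k, P k = 0 := by
    intro k
    refine MvPolynomial.eq_zero_of_eval_zero_at_prod_finset (P k)
      (fun _ => (Finset.range (sz p + 1)).image Nat.cast) (fun i => ?_) fun x hx => ?_
    · rw [Finset.card_image_of_injective _ Nat.cast_injective, Finset.card_range]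
      exact Nat.lt_succ_of_le ((MvPolynomial.degreeOf_le_totalDegree _ _).trans (hP k))
    · choose y hy hy' using fun i => Finset.mem_image.1 (hx i)
      obtain ⟨z, hz1, hz2⟩ := u3_digits fun i => (⟨y i, Finset.mem_range.1 (hy i)⟩ : Fin (sz p + 1))
      have h1 := (isZ_iff _).1 (hz z hz1)
      rw [vec_evP, u3_evL_congr (μT t) (v' := u3pt
        (fun k : Fin d => Finsupp.single (k : ℕ) (1 : ℚ)) x) (N := sz p) ?_ p
        (fun q hq => leaves_lt_sz hq), hP'] at h1
      · have h2 := DFunLike.congr_fun h1 (k : ℕ)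
        rw [Finset.sum_apply', Finset.sum_eq_single k] at h2
        · simpa using h2
        · intro l _ hl
          simp [Fin.val_inj, hl]
        · simp
      · intro i hi
        rw [u3_vec_grid, u3pt, dif_pos hi]
        refine Finset.sum_congr rfl fun l _ => ?_
        rw [← hy', hz2 ⟨i, hi⟩ l]
  choose x hx using fun i => u3_mem_iff.1 (hv i)
  rw [u3_evL_congr (μT t) (v' := u3pt (fun k : Fin d => Finsupp.single (k : ℕ) (1 : ℚ))
    fun j : Fin (sz p) × Fin d => x j.1 j.2) (N := sz p) ?_ p (fun q hq => leaves_lt_sz hq), hP']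
  · simp [h0]
  · intro i hi
    rw [u3pt, dif_pos hi, hx]

theorem u3_getD {α : Type} (l : List (List α)) (i : ℕ) : l.getD i [] ∈ l ∨ l.getD i [] = [] := by
  by_cases h : i < l.length
  · left; rw [getD_eq_getElem _ _ h]; exact getElem_mem h
  · right; exact getD_eq_default _ _ (not_lt.1 h)

theorem cert2_sound (I : List VC) (n : ℕ) (Rl : List VC) (a : VC)
    (w : ℕ × ℕ × List (List VC) × List VC) (h : Cert2 I n Rl a w) :
    ∃ J : Submodule ℚ (FA ℚ (Fin (n + 1))), IsIdeal J ∧ idK I n Rl ≤ J ∧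
      Module.Finite ℚ (FA ℚ (Fin (n + 1)) ⧸ J) ∧ polyN n a ∉ J := by
  obtain ⟨d, D, T, β⟩ := w
  obtain ⟨h1, h2, h3, h4, h5⟩ := h
  simp only at h1 h2 h3 h4 h5
  have ht : ∀ i j, vec (tab T i j) ∈ u3W d := by
    intro i j
    refine u3_vec_mem ?_
    rcases u3_getD (T.getD i []) j with hj | hj
    · rcases u3_getD T i with hi | hi
      · exact h1 _ hi _ hj
      · rw [hi] at hj; simp at hj
    · intro q hq; rw [tab, hj] at hq; simp at hq
  have hβ : ∀ i, vec (β.getD i []) ∈ u3W d := by
    intro i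
    refine u3_vec_mem ?_
    rcases u3_getD β i with hi | hi
    · exact h2 _ hi
    · intro q hq; rw [hi] at hq; simp at hq
  set H : FA ℚ (Fin (n + 1)) →ₗ[ℚ] (ℕ →₀ ℚ) := evL (μT (tab T))
    fun x : Fin (n + 1) => ((D + 1 : ℕ) : ℚ)⁻¹ • vec (β.getD x []) with hH
  have hmul : ∀ f g, H (f * g) = μT (tab T) (H f) (H g) := evL_mul _ _
  have hW : ∀ f, H f ∈ u3W d := u3_evL_mem ht fun x => Submodule.smul_mem _ _ (hβ x)
  have hN : ∀ p, H (polyN n p) = 0 ↔
      IsZ (evH (tab T) (fun i => β.getD (i % (n + 1)) []) (D + 1) p) := by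
    intro p
    rw [isZ_iff, vec_evH _ _ (Nat.succ_ne_zero D), smul_eq_zero_iff_right
      (pow_ne_zero _ (Nat.cast_ne_zero.2 (Nat.succ_ne_zero D))), polyN,
      u3_hom_lift _ H hmul]
    simp only [hH, evL_mon, evm, Fin.val_ofNat]
  refine ⟨LinearMap.ker H, isIdeal_ker _ H hmul, idealGen_le (isIdeal_ker _ H hmul) ?_, ?_,
    fun ha => h5 ((hN a).1 ha)⟩
  · rintro g (⟨f, ⟨p, hp, rfl⟩, φ, rfl⟩ | ⟨p, hp, rfl⟩)
    · show H _ = 0
      rw [u3_hom_lift _ H hmul]
      exact u3_grid ht p (h3 p hp) fun i => hW _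
    · exact (hN p).2 (h4 p hp)
  · have : Module.Finite ℚ (u3W d) := Module.Finite.span_of_finite ℚ (Set.finite_range _)
    have : Module.Finite ℚ (LinearMap.range H) :=
      Submodule.finiteDimensional_of_le (S₂ := u3W d) (by rintro _ ⟨f, rfl⟩; exact hW f)
    exact Module.Finite.equiv (LinearMap.quotKerEquivRange H).symm

end Pool.Agent.Lib.MP_038c09_al.Pi
end

-- part PiU4
section

/-!
An ideal of finite codimension gives a certificate of separation.
-/

namespace Pool.Agent.Lib.MP_038c09_al.Pi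

open List

theorem u4_den {ι : Type} [Fintype ι] (c : ι → ℚ) :
    ∃ D : ℕ, ∀ i, ∃ z : ℤ, ((D + 1 : ℕ) : ℚ) * c i = z := by
  classical
  obtain ⟨D, hD⟩ := Nat.exists_eq_succ_of_ne_zero
    (Finset.prod_ne_zero_iff.2 fun i (_ : i ∈ Finset.univ) => (c i).den_ne_zero)
  refine ⟨D, fun i => ?_⟩
  obtain ⟨k, hk⟩ := Finset.dvd_prod_of_mem (fun i => (c i).den) (Finset.mem_univ i)
  refine ⟨k * (c i).num, ?_⟩
  rw [← Nat.succ_eq_add_one, ← hD, hk, Int.cast_mul, ← Rat.den_mul_eq_num]
  push_cast
  ring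

theorem u4_vec_mem {d : ℕ} {p : VC} (h : ∀ q ∈ p, q.2 < d) :
    vec p ∈ Finsupp.supported ℚ ℚ (Set.Iio d) := by
  induction p with
  | nil => exact Submodule.zero_mem _
  | cons q p ih =>
    rw [vec_cons]
    exact Submodule.add_mem _ (Finsupp.single_mem_supported ℚ _ (h q mem_cons_self))
      (ih fun r hr => h r (mem_cons_of_mem _ hr))

theorem u4_getD {α : Type} {P : α → Prop} {l : List α} {a : α} (h : ∀ x ∈ l, P x) (ha : P a)
    (i : ℕ) : P (l.getD i a) := by
  rcases lt_or_ge i l.length with hi | hi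
  · rw [getD_eq_getElem _ _ hi]
    exact h _ (getElem_mem hi)
  · rwa [getD_eq_default _ _ hi]

theorem u4_getD_ofFn {α : Type} {d : ℕ} (f : Fin d → α) (a : α) (i : ℕ) :
    (List.ofFn f).getD i a = if h : i < d then f ⟨i, h⟩ else a := by
  split_ifs with h
  · rw [getD_eq_getElem _ _ (by simpa using h), List.getElem_ofFn]
  · exact getD_eq_default _ _ (by simpa using h)

theorem u4_ev_mem {W : Submodule ℚ (ℕ →₀ ℚ)} {t : ℕ → ℕ → VC} (ht : ∀ i j, vec (t i j) ∈ W)
    {v : ℕ → ℕ →₀ ℚ} (hv : ∀ i, v i ∈ W) (f : FA ℚ ℕ) : evL (μT t) v f ∈ W := by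
  induction f using MonoidAlgebra.induction_linear with
  | zero => simp
  | add f g hf hg => rw [map_add]; exact W.add_mem hf hg
  | single w c =>
    rw [single_eq, map_smul, evL_mon]
    refine W.smul_mem _ ?_
    cases w with
    | of i => exact hv i
    | mul a b =>
      simp only [evm]
      generalize evm (μT t) v a = x
      generalize evm (μT t) v b = y
      induction x using Finsupp.induction_linear with
      | zero => simp
      | add x x' h h' => rw [map_add, LinearMap.add_apply]; exact W.add_mem h h'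
      | single i r =>
        induction y using Finsupp.induction_linear with
        | zero => simp
        | add y y' h h' => rw [map_add]; exact W.add_mem h h'
        | single j s => rw [μT_single]; exact W.smul_mem _ (ht i j)

section B

variable {B : Type} [AddCommGroup B] [Module ℚ B] (μ : B →ₗ[ℚ] B →ₗ[ℚ] B)

theorem u4_hom {A : Type} [AddCommGroup A] [Module ℚ A] (ν : A →ₗ[ℚ] A →ₗ[ℚ] A) (Ψ : A →ₗ[ℚ] B)
    (h : ∀ x y, Ψ (ν x y) = μ (Ψ x) (Ψ y)) (v : ℕ → A) (f : FA ℚ ℕ) :
    Ψ (evL ν v f) = evL μ (fun i => Ψ (v i)) f := by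
  induction f using MonoidAlgebra.induction_linear with
  | zero => simp
  | add f g hf hg => simp only [map_add, hf, hg]
  | single w c =>
    rw [single_eq, map_smul, map_smul, map_smul, evL_mon, evL_mon]
    congr 1
    induction w using FreeMagma.rec with
    | of i => rfl
    | mul a b ha hb => simp only [evm, h, ha, hb]

theorem u4_lift {X : Type} (h : FA ℚ X →ₗ[ℚ] B) (hm : ∀ f g, h (f * g) = μ (h f) (h g))
    (φ : ℕ → FA ℚ X) (f : FA ℚ ℕ) :
    h (FreeNonUnitalNonAssocAlgebra.lift ℚ φ f) = evL μ (fun i => h (φ i)) f := by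
  induction f using MonoidAlgebra.induction_linear with
  | zero => simp
  | add f g hf hg => simp only [map_add, hf, hg]
  | single w c => rw [single_eq, map_smul, map_smul, map_smul, evL_mon, hom_lift_mon μ h hm]

theorem u4_basis [Module.Finite ℚ B] : ∃ (d : ℕ) (b : Module.Basis (Fin d) ℚ B),
    ∀ i j k, ∃ z : ℤ, b.repr (μ (b i) (b j)) k = z := by
  let b := Module.finBasis ℚ B
  obtain ⟨D, hD⟩ := u4_den fun x : _ × _ × _ => b.repr (μ (b x.1) (b x.2.1)) x.2.2
  have h0 : ((D + 1 : ℕ) : ℚ) ≠ 0 := Nat.cast_ne_zero.2 D.succ_ne_zero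
  refine ⟨_, b.unitsSMul fun _ => Units.mk0 _ h0, fun i j k => ?_⟩
  obtain ⟨z, hz⟩ := hD (i, j, k)
  refine ⟨z, ?_⟩
  rw [← hz, Module.Basis.repr_unitsSMul, Module.Basis.unitsSMul_apply,
    Module.Basis.unitsSMul_apply]
  simp only [Units.smul_def, Units.val_mk0, map_smul, LinearMap.smul_apply, Finsupp.smul_apply,
    smul_eq_mul, Units.val_inv_eq_inv_val]
  field_simp

variable {d : ℕ} (b : Module.Basis (Fin d) ℚ B)

/-- the vector with given coordinates -/
noncomputable def u4Psi : (ℕ →₀ ℚ) →ₗ[ℚ] B :=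
  Finsupp.linearCombination ℚ fun k => if h : k < d then b ⟨k, h⟩ else 0

theorem u4Psi_single (k : ℕ) (c : ℚ) :
    u4Psi b (Finsupp.single k c) = c • if h : k < d then b ⟨k, h⟩ else 0 :=
  Finsupp.linearCombination_single _ _ _

theorem u4_repr (u : ℕ →₀ ℚ) (k : Fin d) : b.repr (u4Psi b u) k = u k := by
  induction u using Finsupp.induction_linear with
  | zero => simp
  | add x y h h' => simp only [map_add, Finsupp.add_apply, h, h']
  | single i r =>
    rw [u4Psi_single]
    split_ifs with h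
    · simp [Finsupp.single_apply, Fin.ext_iff]
    · rw [smul_zero, map_zero, Finsupp.zero_apply, Finsupp.single_eq_of_ne]
      exact fun e => h (e ▸ k.2)

theorem u4_inj {u : ℕ →₀ ℚ} (hu : u ∈ Finsupp.supported ℚ ℚ (Set.Iio d)) (h : u4Psi b u = 0) :
    u = 0 := by
  ext k
  by_cases hk : k < d
  · simpa [h] using (u4_repr b u ⟨k, hk⟩).symm
  · exact (Finsupp.mem_supported' ℚ u).1 hu k hk

theorem u4_vec {x : B} (hx : ∀ k, ∃ z : ℤ, b.repr x k = z) :
    ∃ p : VC, (∀ q ∈ p, q.2 < d) ∧ u4Psi b (vec p) = x := by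
  choose z hz using hx
  obtain ⟨p, h1, h2⟩ := exists_vec d fun k => if h : k < d then z ⟨k, h⟩ else 0
  refine ⟨p, h1, b.ext_elem fun k => ?_⟩
  rw [u4_repr, h2, hz, Finsupp.finsetSum_apply, Finset.sum_eq_single_of_mem k.1
    (Finset.mem_range.2 k.2) fun j _ hj => Finsupp.single_eq_of_ne hj.symm]
  simp

end B

theorem cert2_complete (I : List VC) (n : ℕ) (Rl : List VC) (a : VC)
    (J : Submodule ℚ (FA ℚ (Fin (n + 1)))) (h1 : IsIdeal J) (h2 : idK I n Rl ≤ J)
    (h3 : Module.Finite ℚ (FA ℚ (Fin (n + 1)) ⧸ J)) (h4 : polyN n a ∉ J) :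
    ∃ w, Cert2 I n Rl a w := by
  obtain ⟨d, b, hb⟩ := u4_basis (quotMul J h1)
  choose t t1 t2 using fun i j => u4_vec b (hb i j)
  obtain ⟨D, hD⟩ := u4_den fun x : Fin (n + 1) × Fin d => b.repr (J.mkQ (mon ℚ (.of x.1))) x.2
  have D0 : ((D + 1 : ℕ) : ℚ) ≠ 0 := Nat.cast_ne_zero.2 D.succ_ne_zero
  choose β β1 β2 using fun i : Fin (n + 1) =>
    u4_vec b (x := ((D + 1 : ℕ) : ℚ) • J.mkQ (mon ℚ (.of i))) fun k => by
      simpa only [map_smul, Finsupp.smul_apply, smul_eq_mul] using hD (i, k)
  set T : List (List VC) := List.ofFn fun i => List.ofFn fun j => t i j with hT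
  have c1 : ∀ row ∈ T, ∀ p ∈ row, ∀ q ∈ p, q.2 < d := by
    simp only [hT, List.forall_mem_ofFn_iff]
    exact t1
  have c2 : ∀ p ∈ List.ofFn β, ∀ q ∈ p, q.2 < d := List.forall_mem_ofFn_iff.2 β1
  have c3 : ∀ i j, vec (tab T i j) ∈ Finsupp.supported ℚ ℚ (Set.Iio d) := fun i j =>
    u4_vec_mem (u4_getD (P := fun p : VC => ∀ q ∈ p, q.2 < d)
      (u4_getD (P := fun row : List VC => ∀ p ∈ row, ∀ q ∈ p, q.2 < d) c1 (by simp) i) (by simp) j)
  have c4 : ∀ x y, u4Psi b (μT (tab T) x y) = quotMul J h1 (u4Psi b x) (u4Psi b y) := by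
    intro x y
    induction x using Finsupp.induction_linear with
    | zero => simp
    | add x x' h h' => simp only [map_add, LinearMap.add_apply, h, h']
    | single i r =>
      induction y using Finsupp.induction_linear with
      | zero => simp
      | add y y' h h' => simp only [map_add, h, h']
      | single j s =>
        rw [μT_single, u4Psi_single, u4Psi_single, tab, hT, u4_getD_ofFn]
        simp only [map_smul, LinearMap.smul_apply, smul_smul, mul_comm s]
        congr 1
        split_ifs with hi hj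
        · rw [u4_getD_ofFn, dif_pos hj, t2]
        · rw [u4_getD_ofFn, dif_neg hj, vec_nil, map_zero, map_zero]
        all_goals simp [vec_nil]
  have key : ∀ (v : ℕ → ℕ →₀ ℚ) (φ : ℕ → FA ℚ (Fin (n + 1))) (f : FA ℚ ℕ),
      (∀ i, v i ∈ Finsupp.supported ℚ ℚ (Set.Iio d)) → (∀ i, J.mkQ (φ i) = u4Psi b (v i)) →
      (evL (μT (tab T)) v f = 0 ↔ FreeNonUnitalNonAssocAlgebra.lift ℚ φ f ∈ J) := by
    intro v φ f hv hφ
    rw [← Submodule.Quotient.mk_eq_zero, ← Submodule.mkQ_apply,
      u4_lift (quotMul J h1) J.mkQ (mkQ_mul J h1)]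
    simp only [hφ]
    rw [← u4_hom _ _ _ c4]
    exact ⟨fun h => by rw [h, map_zero], u4_inj b (u4_ev_mem c3 hv f)⟩
  have k2 : ∀ p, IsZ (evH (tab T) (fun i => (List.ofFn β).getD (i % (n + 1)) []) (D + 1) p) ↔
      polyN n p ∈ J := by
    intro p
    rw [isZ_iff, vec_evH _ _ D.succ_ne_zero, smul_eq_zero_iff_right (pow_ne_zero _ D0)]
    refine key _ _ _ (fun i => Submodule.smul_mem _ _
      (u4_vec_mem (u4_getD (P := fun p : VC => ∀ q ∈ p, q.2 < d) c2 (by simp) _))) fun i => ?_
    rw [u4_getD_ofFn, dif_pos (Nat.mod_lt _ n.succ_pos), map_smul, β2, smul_smul,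
      inv_mul_cancel₀ D0, one_smul]
    rfl
  refine ⟨(d, D, T, List.ofFn β), c1, c2, fun p hp z _ => ?_, fun p hp => (k2 p).2
    (h2 (subset_idealGen _ (.inr ⟨p, hp, rfl⟩))), fun h => h4 ((k2 a).1 h)⟩
  choose φ hφ using fun i => J.mkQ_surjective (u4Psi b (vec (grid (sz p) d z i)))
  rw [isZ_iff, vec_evP]
  refine (key _ φ _ (fun i => u4_vec_mem fun q hq => ?_) hφ).2
    (h2 (subset_idealGen _ (.inl ⟨_, ⟨p, hp, rfl⟩, φ, rfl⟩)))
  obtain ⟨k, hk, hq⟩ := mem_flatMap.1 hq
  rw [eq_of_mem_replicate hq]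
  exact mem_range.1 hk

end Pool.Agent.Lib.MP_038c09_al.Pi
end

-- part PiU5
section

/-!
The certificates are checked by primitive recursive predicates.
-/

namespace Pool.Agent.Lib.MP_038c09_al.Pi

open List

section U5

variable {α β γ : Type} [Primcodable α] [Primcodable β] [Primcodable γ]

theorem u5_enc_ofNat (n : ℕ) : Encodable.encode (Int.ofNat n) = 2 * n := by
  change Equiv.natSumNatEquivNat (Sum.inl n) = _
  simp [Equiv.natSumNatEquivNat_apply]

theorem u5_enc_negSucc (n : ℕ) : Encodable.encode (Int.negSucc n) = 2 * n + 1 := by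
  change Equiv.intEquivNat (Int.negSucc n) = _
  simp [Equiv.intEquivNat, Equiv.intEquivNatSumNat, Equiv.natSumNatEquivNat_apply]

theorem u5_natAbs : Primrec Int.natAbs := by
  have h : Primrec fun z : ℤ => (Encodable.encode z + 1) / 2 :=
    Primrec.nat_div.comp (Primrec.succ.comp Primrec.encode) (Primrec.const 2)
  refine h.of_eq fun z => ?_
  cases z with
  | ofNat n => rw [u5_enc_ofNat]; simp only [Int.ofNat_eq_natCast, Int.natAbs_natCast]; omega
  | negSucc n => rw [u5_enc_negSucc, Int.natAbs_negSucc]; omega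

theorem u5_neg : Primrec fun z : ℤ => decide (z < 0) := by
  have h : PrimrecPred fun z : ℤ => Encodable.encode z % 2 = 1 :=
    Primrec.eq.comp (Primrec.nat_mod.comp Primrec.encode (Primrec.const 2)) (Primrec.const 1)
  refine (h.of_eq (q := fun z : ℤ => z < 0) fun z => ?_).decide
  cases z with
  | ofNat n =>
    rw [u5_enc_ofNat]
    simp only [Int.ofNat_eq_natCast]
    omega
  | negSucc n =>
    rw [u5_enc_negSucc]
    have := Int.negSucc_lt_zero n
    omega

theorem u5_replicate : Primrec₂ fun (k : ℕ) (b : β) => replicate k b := by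
  have h : Primrec fun x : ℕ × β => (List.range x.1).map fun _ => x.2 :=
    Primrec.list_map (Primrec.list_range.comp Primrec.fst) (Primrec.snd.comp Primrec.fst).to₂
  exact h.of_eq fun x => by simp

theorem u5_pow : Primrec₂ ((· ^ ·) : ℕ → ℕ → ℕ) := Primrec₂.unpaired'.1 Nat.Primrec.pow

theorem u5_xor : Primrec₂ xor := Primrec.dom_bool₂ _

theorem u5_sgn : Primrec₂ sgn :=
  Primrec.list_map Primrec.snd ((u5_xor.comp (Primrec.fst.comp Primrec.fst)
    (Primrec.fst.comp Primrec.snd)).pair (Primrec.snd.comp Primrec.snd)).to₂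

theorem u5_smulN : Primrec₂ smulN :=
  Primrec.list_flatMap (Primrec.list_range.comp Primrec.fst) (Primrec.snd.comp Primrec.fst).to₂

theorem u5_mulT {t : α → ℕ → ℕ → VC} {p q : α → VC}
    (ht : Primrec fun x : α × ℕ × ℕ => t x.1 x.2.1 x.2.2) (hp : Primrec p) (hq : Primrec q) :
    Primrec fun a => mulT (t a) (p a) (q a) := by
  have h1 : Primrec fun x : (α × (Bool × ℕ)) × (Bool × ℕ) => t x.1.1 x.1.2.2 x.2.2 :=
    ht.comp ((Primrec.fst.comp Primrec.fst).pair
      ((Primrec.snd.comp (Primrec.snd.comp Primrec.fst)).pair (Primrec.snd.comp Primrec.snd)))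
  have h2 : Primrec fun x : (α × (Bool × ℕ)) × (Bool × ℕ) => xor x.1.2.1 x.2.1 :=
    u5_xor.comp (Primrec.fst.comp (Primrec.snd.comp Primrec.fst)) (Primrec.fst.comp Primrec.snd)
  have h3 : Primrec fun x : α × (Bool × ℕ) =>
      (q x.1).flatMap fun b => sgn (xor x.2.1 b.1) (t x.1 x.2.2 b.2) :=
    Primrec.list_flatMap (hq.comp Primrec.fst) (u5_sgn.comp h2 h1).to₂
  exact Primrec.list_flatMap hp h3.to₂

theorem u5_dec_even (i : ℕ) : dec (2 * i) = .of i := dec_enc (.of i)

theorem u5_dec_odd (k : ℕ) : dec (2 * k + 1) = .mul (dec k.unpair.1) (dec k.unpair.2) := by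
  apply enc_injective
  simp only [enc, enc_dec, Nat.pair_unpair]

theorem u5_evG {μ : α → β → β → β} {v : α → ℕ → β}
    (hμ : Primrec fun x : α × β × β => μ x.1 x.2.1 x.2.2) (hv : Primrec₂ v) :
    Primrec₂ fun a m => evG (μ a) (v a) (dec m) := by
  have hl : Primrec fun x : α × List β => x.2.length / 2 :=
    Primrec.nat_div.comp (Primrec.list_length.comp Primrec.snd) (Primrec.const 2)
  have h1 : Primrec fun x : α × List β => x.2[(x.2.length / 2).unpair.1]? :=
    Primrec.list_getElem?.comp Primrec.snd (Primrec.fst.comp (Primrec.unpair.comp hl))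
  have h2 : Primrec fun x : α × List β => x.2[(x.2.length / 2).unpair.2]? :=
    Primrec.list_getElem?.comp Primrec.snd (Primrec.snd.comp (Primrec.unpair.comp hl))
  have h3 : Primrec fun x : ((α × List β) × β) × β => μ x.1.1.1 x.1.2 x.2 :=
    hμ.comp ((Primrec.fst.comp (Primrec.fst.comp Primrec.fst)).pair
      ((Primrec.snd.comp Primrec.fst).pair Primrec.snd))
  have h4 : Primrec fun x : (α × List β) × β =>
      (x.1.2[(x.1.2.length / 2).unpair.2]?).map fun y => μ x.1.1 x.2 y :=
    Primrec.option_map (h2.comp Primrec.fst) h3.to₂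
  have h5 : Primrec fun x : α × List β => (x.2[(x.2.length / 2).unpair.1]?).bind fun y =>
      (x.2[(x.2.length / 2).unpair.2]?).map fun z => μ x.1 y z :=
    Primrec.option_bind h1 h4.to₂
  have h6 : PrimrecPred fun x : α × List β => x.2.length % 2 = 0 :=
    Primrec.eq.comp (Primrec.nat_mod.comp (Primrec.list_length.comp Primrec.snd) (Primrec.const 2))
      (Primrec.const 0)
  have h7 : Primrec fun x : α × List β => some (v x.1 (x.2.length / 2)) :=
    Primrec.option_some.comp (hv.comp Primrec.fst hl)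
  refine Primrec.nat_strong_rec _ (Primrec.ite h6 h7 h5).to₂ fun a n => ?_
  simp only [List.length_map, List.length_range]
  rcases Nat.even_or_odd' n with ⟨k, rfl | rfl⟩
  · rw [if_pos (by omega), u5_dec_even, show 2 * k / 2 = k by omega]
    rfl
  · have e1 := Nat.unpair_left_le k
    have e2 := Nat.unpair_right_le k
    rw [if_neg (by omega), u5_dec_odd, show (2 * k + 1) / 2 = k by omega, List.getElem?_map,
      List.getElem?_map, List.getElem?_range (by omega), List.getElem?_range (by omega)]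
    rfl

theorem u5_evM {t : α → ℕ → ℕ → VC} {v : α → ℕ → VC}
    (ht : Primrec fun x : α × ℕ × ℕ => t x.1 x.2.1 x.2.2) (hv : Primrec₂ v) :
    Primrec fun x : α × (Bool × ℕ) => sgn x.2.1 (evG (mulT (t x.1)) (v x.1) (dec x.2.2)) := by
  have h0 : Primrec fun x : (α × VC × VC) × ℕ × ℕ => t x.1.1 x.2.1 x.2.2 :=
    ht.comp ((Primrec.fst.comp Primrec.fst).pair Primrec.snd)
  have h1 : Primrec fun x : α × VC × VC => mulT (t x.1) x.2.1 x.2.2 :=
    u5_mulT (t := fun x : α × VC × VC => t x.1) h0 (Primrec.fst.comp Primrec.snd)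
      (Primrec.snd.comp Primrec.snd)
  have h2 := u5_evG (μ := fun a => mulT (t a)) h1 hv
  exact u5_sgn.comp (Primrec.fst.comp Primrec.snd)
    (h2.comp Primrec.fst (Primrec.snd.comp Primrec.snd))

theorem u5_evP {t : α → ℕ → ℕ → VC} {v : α → ℕ → VC} {p : α → VC}
    (ht : Primrec fun x : α × ℕ × ℕ => t x.1 x.2.1 x.2.2) (hv : Primrec₂ v) (hp : Primrec p) :
    Primrec fun a => evP (t a) (v a) (p a) :=
  Primrec.list_flatMap hp (u5_evM ht hv).to₂

theorem u5_dg : Primrec fun m => dg (dec m) := by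
  have h1 : Primrec fun x : Unit × ℕ × ℕ => x.2.1 + x.2.2 :=
    Primrec.nat_add.comp (Primrec.fst.comp Primrec.snd) (Primrec.snd.comp Primrec.snd)
  have h2 := u5_evG (μ := fun (_ : Unit) (a b : ℕ) => a + b) (v := fun _ _ => 1) h1
    (Primrec.const 1).to₂
  exact h2.comp (Primrec.const ()) Primrec.id

theorem u5_sz : Primrec sz := by
  have h : Primrec fun p : VC => p.foldr (fun b s => b.2 + s) 0 :=
    Primrec.list_foldr (h := fun _ (x : (Bool × ℕ) × ℕ) => x.1.2 + x.2) Primrec.id (Primrec.const 0)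
      (Primrec.nat_add.comp (Primrec.snd.comp (Primrec.fst.comp Primrec.snd))
        (Primrec.snd.comp Primrec.snd)).to₂
  refine (Primrec.succ.comp h).of_eq fun p => ?_
  unfold sz
  induction p with
  | nil => rfl
  | cons a p ih =>
    simp only [List.foldr_cons, List.map_cons, List.sum_cons, Nat.succ_eq_add_one] at ih ⊢
    omega

theorem u5_evH {t : α → ℕ → ℕ → VC} {v : α → ℕ → VC} {D : α → ℕ} {p : α → VC}
    (ht : Primrec fun x : α × ℕ × ℕ => t x.1 x.2.1 x.2.2) (hv : Primrec₂ v) (hD : Primrec D)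
    (hp : Primrec p) : Primrec fun a => evH (t a) (v a) (D a) (p a) := by
  have h1 : Primrec fun x : α × (Bool × ℕ) => D x.1 ^ (sz (p x.1) - dg (dec x.2.2)) :=
    u5_pow.comp (hD.comp Primrec.fst) (Primrec.nat_sub.comp (u5_sz.comp (hp.comp Primrec.fst))
      (u5_dg.comp (Primrec.snd.comp Primrec.snd)))
  exact Primrec.list_flatMap hp (u5_smulN.comp h1 (u5_evM ht hv)).to₂

attribute [local irreducible] evP evH evG mulT smulN sgn sz dg

theorem u5_single {b : α → Bool} {k : α → ℕ} (hb : Primrec b) (hk : Primrec k) :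
    Primrec fun a => ([(b a, k a)] : VC) :=
  Primrec.list_cons.comp (hb.pair hk) (Primrec.const [])

theorem u5_tF : Primrec fun x : α × ℕ × ℕ => tF x.2.1 x.2.2 :=
  u5_single (Primrec.const false) (Primrec.succ.comp (Primrec.nat_double.comp
    (Primrec₂.natPair.comp (Primrec.fst.comp Primrec.snd) (Primrec.snd.comp Primrec.snd))))

theorem u5_red : Primrec₂ red := by
  have h1 : Primrec fun x : (ℕ × VC) × ℕ => ([(false, 2 * (x.2 % (x.1.1 + 1)))] : VC) :=
    u5_single (Primrec.const false) (Primrec.nat_double.comp (Primrec.nat_mod.comp Primrec.snd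
      (Primrec.succ.comp (Primrec.fst.comp Primrec.fst))))
  exact u5_evP (t := fun _ : ℕ × VC => tF) (v := fun x i => [(false, 2 * (i % (x.1 + 1)))])
    u5_tF h1.to₂ Primrec.snd

theorem u5_genV : Primrec fun x : (List VC × List VC) × (ℕ ⊕ (ℕ × List VC)) =>
    genV x.1.1 x.1.2 x.2 := by
  have h1 : Primrec fun y : ((List VC × List VC) × (ℕ ⊕ (ℕ × List VC))) × ℕ =>
      y.1.1.2.getD y.2 [] :=
    (Primrec.list_getD []).comp (Primrec.snd.comp (Primrec.fst.comp Primrec.fst)) Primrec.snd
  have h2 : Primrec fun y : (((List VC × List VC) × (ℕ ⊕ (ℕ × List VC))) × (ℕ × List VC)) × ℕ =>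
      y.1.2.2.getD y.2 [] :=
    (Primrec.list_getD []).comp (Primrec.snd.comp (Primrec.snd.comp Primrec.fst)) Primrec.snd
  have h3 : Primrec fun y : ((List VC × List VC) × (ℕ ⊕ (ℕ × List VC))) × (ℕ × List VC) =>
      y.1.1.1.getD y.2.1 [] :=
    (Primrec.list_getD []).comp (Primrec.fst.comp (Primrec.fst.comp Primrec.fst))
      (Primrec.fst.comp Primrec.snd)
  have h4 : Primrec fun y : ((List VC × List VC) × (ℕ ⊕ (ℕ × List VC))) × (ℕ × List VC) =>
      evP tF (fun i => y.2.2.getD i []) (y.1.1.1.getD y.2.1 []) :=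
    u5_evP (α := ((List VC × List VC) × (ℕ ⊕ (ℕ × List VC))) × (ℕ × List VC)) (t := fun _ => tF)
      (v := fun y i => y.2.2.getD i []) (p := fun y => y.1.1.1.getD y.2.1 []) u5_tF h2.to₂ h3
  refine (Primrec.sumCasesOn Primrec.snd h1.to₂ h4.to₂).of_eq fun x => ?_
  rcases x with ⟨x, j | ⟨j, φ⟩⟩ <;> rfl

theorem u5_ctxV : Primrec₂ ctxV := by
  have h0 : Primrec fun y : (List (Bool × ℕ) × VC) × VC × (Bool × ℕ) =>
      ([(false, y.2.2.2)] : VC) :=
    u5_single (Primrec.const false) (Primrec.snd.comp (Primrec.snd.comp Primrec.snd))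
  have h1 : Primrec fun y : (List (Bool × ℕ) × VC) × VC × (Bool × ℕ) =>
      mulT tF y.2.1 [(false, y.2.2.2)] :=
    u5_mulT (t := fun _ => tF) u5_tF (Primrec.fst.comp Primrec.snd) h0
  have h2 : Primrec fun y : (List (Bool × ℕ) × VC) × VC × (Bool × ℕ) =>
      mulT tF [(false, y.2.2.2)] y.2.1 :=
    u5_mulT (t := fun _ => tF) u5_tF h0 (Primrec.fst.comp Primrec.snd)
  have h3 : PrimrecPred fun y : (List (Bool × ℕ) × VC) × VC × (Bool × ℕ) => y.2.2.1 = true :=
    Primrec.eq.comp (Primrec.fst.comp (Primrec.snd.comp Primrec.snd)) (Primrec.const true)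
  exact Primrec.list_foldl (h := fun (_ : List (Bool × ℕ) × VC) (y : VC × (Bool × ℕ)) =>
    if y.2.1 = true then mulT tF y.1 [(false, y.2.2)] else mulT tF [(false, y.2.2)] y.1)
    Primrec.fst Primrec.snd (Primrec.ite h3 h1 h2).to₂

theorem u5_termV : Primrec fun x : (List VC × List VC) × Term => termV x.1.1 x.1.2 x.2 :=
  u5_sgn.comp (Primrec.fst.comp Primrec.snd)
    (u5_ctxV.comp (Primrec.fst.comp (Primrec.snd.comp Primrec.snd))
      (u5_genV.comp (Primrec.fst.pair (Primrec.snd.comp (Primrec.snd.comp Primrec.snd)))))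

theorem u5_count : Primrec₂ fun (p : VC) (q : Bool × ℕ) => p.count q := by
  have h := PrimrecRel.listFilter (R := fun a b : Bool × ℕ => a = b) Primrec.eq
  refine (Primrec.list_length.comp h).of_eq fun x => ?_
  change (x.1.filter fun a => decide (a = x.2)).length = List.count x.2 x.1
  rw [List.count_eq_countP, List.countP_eq_length_filter]
  exact congrArg List.length (List.filter_congr fun a _ => (Bool.beq_eq_decide_eq a x.2).symm)

theorem u5_isZ : PrimrecPred IsZ := by
  have h1 : PrimrecRel fun (q : Bool × ℕ) (p : VC) =>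
      p.count (true, q.2) = p.count (false, q.2) :=
    Primrec.eq.comp
      (u5_count.comp Primrec.snd ((Primrec.const true).pair (Primrec.snd.comp Primrec.fst)))
      (u5_count.comp Primrec.snd ((Primrec.const false).pair (Primrec.snd.comp Primrec.fst)))
  exact h1.forall_mem_list.comp Primrec.id Primrec.id

attribute [local irreducible] IsZ

theorem u5_all {l : α → List β} {R : α → β → Prop} (hl : Primrec l)
    (hR : PrimrecPred fun x : α × β => R x.1 x.2) : PrimrecPred fun a => ∀ b ∈ l a, R a b := by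
  have h1 : PrimrecRel fun (b : β) (a : α) => R a b := hR.comp (Primrec.snd.pair Primrec.fst)
  exact h1.forall_mem_list.comp hl Primrec.id

theorem u5_all_lt {l : α → ℕ} {R : α → ℕ → Prop} (hl : Primrec l)
    (hR : PrimrecPred fun x : α × ℕ => R x.1 x.2) : PrimrecPred fun a => ∀ b < l a, R a b :=
  (u5_all (Primrec.list_range.comp hl) hR).of_eq fun a => by simp

theorem u5_tab {T : α → List (List VC)} (hT : Primrec T) :
    Primrec fun x : α × ℕ × ℕ => tab (T x.1) x.2.1 x.2.2 :=
  (Primrec.list_getD []).comp ((Primrec.list_getD []).comp (hT.comp Primrec.fst)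
    (Primrec.fst.comp Primrec.snd)) (Primrec.snd.comp Primrec.snd)

theorem u5_grid {N d z : α → ℕ} (hN : Primrec N) (hd : Primrec d) (hz : Primrec z) :
    Primrec₂ fun a i => grid (N a) (d a) (z a) i := by
  have h1 : Primrec fun x : (α × ℕ) × ℕ => N x.1.1 + 1 :=
    Primrec.succ.comp (hN.comp (Primrec.fst.comp Primrec.fst))
  have h2 : Primrec fun x : (α × ℕ) × ℕ => x.1.2 * d x.1.1 + x.2 :=
    Primrec.nat_add.comp (Primrec.nat_mul.comp (Primrec.snd.comp Primrec.fst)
      (hd.comp (Primrec.fst.comp Primrec.fst))) Primrec.snd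
  have h3 : Primrec fun x : (α × ℕ) × ℕ =>
      z x.1.1 / (N x.1.1 + 1) ^ (x.1.2 * d x.1.1 + x.2) % (N x.1.1 + 1) :=
    Primrec.nat_mod.comp (Primrec.nat_div.comp (hz.comp (Primrec.fst.comp Primrec.fst))
      (u5_pow.comp h1 h2)) h1
  exact Primrec.list_flatMap (Primrec.list_range.comp (hd.comp Primrec.fst))
    (u5_replicate.comp h3 ((Primrec.const false).pair Primrec.snd)).to₂

attribute [local irreducible] grid tab

theorem u5_bd : PrimrecPred fun x : ℕ × List VC => ∀ p ∈ x.2, ∀ q ∈ p, q.2 < x.1 :=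
  u5_all (R := fun (x : ℕ × List VC) (p : VC) => ∀ q ∈ p, q.2 < x.1) Primrec.snd
    (u5_all (R := fun (y : (ℕ × List VC) × VC) (q : Bool × ℕ) => q.2 < y.1.1) Primrec.snd
      (Primrec.nat_lt.comp (Primrec.snd.comp Primrec.snd)
        (Primrec.fst.comp (Primrec.fst.comp Primrec.fst))))

theorem u5_ids : PrimrecPred fun x : (ℕ × List (List VC)) × VC =>
    ∀ z < (sz x.2 + 1) ^ (sz x.2 * x.1.1), IsZ (evP (tab x.1.2) (grid (sz x.2) x.1.1 z) x.2) := by
  have h1 : Primrec fun x : (ℕ × List (List VC)) × VC => (sz x.2 + 1) ^ (sz x.2 * x.1.1) :=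
    u5_pow.comp (Primrec.succ.comp (u5_sz.comp Primrec.snd))
      (Primrec.nat_mul.comp (u5_sz.comp Primrec.snd) (Primrec.fst.comp Primrec.fst))
  have h2 : Primrec₂ fun (y : ((ℕ × List (List VC)) × VC) × ℕ) i =>
      grid (sz y.1.2) y.1.1.1 y.2 i :=
    u5_grid (u5_sz.comp (Primrec.snd.comp Primrec.fst))
      (Primrec.fst.comp (Primrec.fst.comp Primrec.fst)) Primrec.snd
  have h3 : Primrec fun y : ((ℕ × List (List VC)) × VC) × ℕ =>
      evP (tab y.1.1.2) (grid (sz y.1.2) y.1.1.1 y.2) y.1.2 :=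
    u5_evP (t := fun y : ((ℕ × List (List VC)) × VC) × ℕ => tab y.1.1.2)
      (v := fun y => grid (sz y.1.2) y.1.1.1 y.2)
      (u5_tab (Primrec.snd.comp (Primrec.fst.comp Primrec.fst))) h2
      (Primrec.snd.comp Primrec.fst)
  exact u5_all_lt (R := fun (x : (ℕ × List (List VC)) × VC) z =>
    IsZ (evP (tab x.1.2) (grid (sz x.2) x.1.1 z) x.2)) h1 (u5_isZ.comp h3)

theorem u5_getMod {l : α → List VC} {n : α → ℕ} (hl : Primrec l) (hn : Primrec n) :
    Primrec₂ fun a i => (l a).getD (i % (n a + 1)) [] :=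
  (Primrec.list_getD []).comp (hl.comp Primrec.fst)
    (Primrec.nat_mod.comp Primrec.snd (Primrec.succ.comp (hn.comp Primrec.fst)))

theorem u5_val' {T : α → List (List VC)} {l : α → List VC} {n D : α → ℕ} {p : α → VC}
    (hT : Primrec T) (hl : Primrec l) (hn : Primrec n) (hD : Primrec D) (hp : Primrec p) :
    PrimrecPred fun a =>
      IsZ (evH (tab (T a)) (fun i => (l a).getD (i % (n a + 1)) []) (D a + 1) (p a)) :=
  u5_isZ.comp (u5_evH (t := fun a => tab (T a)) (v := fun a i => (l a).getD (i % (n a + 1)) [])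
    (D := fun a => D a + 1) (u5_tab hT) (u5_getMod hl hn) (Primrec.succ.comp hD) hp)

theorem u5_val : PrimrecPred fun x : (ℕ × ℕ × List (List VC) × List VC) × VC =>
    IsZ (evH (tab x.1.2.2.1) (fun i => x.1.2.2.2.getD (i % (x.1.1 + 1)) []) (x.1.2.1 + 1) x.2) :=
  u5_val' (α := (ℕ × ℕ × List (List VC) × List VC) × VC) (T := fun x => x.1.2.2.1)
    (l := fun x => x.1.2.2.2) (n := fun x => x.1.1) (D := fun x => x.1.2.1) (p := fun x => x.2)
    (Primrec.fst.comp (Primrec.snd.comp (Primrec.snd.comp Primrec.fst)))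
    (Primrec.snd.comp (Primrec.snd.comp (Primrec.snd.comp Primrec.fst)))
    (Primrec.fst.comp Primrec.fst) (Primrec.fst.comp (Primrec.snd.comp Primrec.fst)) Primrec.snd

end U5

attribute [local irreducible] evP evH evG mulT smulN sgn sz dg IsZ grid tab

theorem primrec_toV : Primrec toV :=
  Primrec.list_flatMap Primrec.id (u5_replicate.comp
    (u5_natAbs.comp (Primrec.fst.comp Primrec.snd))
    ((u5_neg.comp (Primrec.fst.comp Primrec.snd)).pair (Primrec.snd.comp Primrec.snd))).to₂

theorem primrec_cert1 : PrimrecPred fun x : (List VC × ℕ × List VC × VC) × (ℕ × List Term) =>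
    Cert1 x.1.1 x.1.2.1 x.1.2.2.1 x.1.2.2.2 x.2 := by
  have h1 : Primrec fun y : ((List VC × ℕ × List VC × VC) × (ℕ × List Term)) × Term =>
      termV y.1.1.1 y.1.1.2.2.1 y.2 :=
    u5_termV.comp (((Primrec.fst.comp (Primrec.fst.comp Primrec.fst)).pair
      (Primrec.fst.comp (Primrec.snd.comp (Primrec.snd.comp (Primrec.fst.comp Primrec.fst))))).pair
      Primrec.snd)
  have h2 : Primrec fun x : (List VC × ℕ × List VC × VC) × (ℕ × List Term) =>
      x.2.2.flatMap (termV x.1.1 x.1.2.2.1) :=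
    Primrec.list_flatMap (Primrec.snd.comp Primrec.snd) h1.to₂
  have h3 : Primrec fun x : (List VC × ℕ × List VC × VC) × (ℕ × List Term) =>
      smulN (x.2.1 + 1) x.1.2.2.2 :=
    u5_smulN.comp (Primrec.succ.comp (Primrec.fst.comp Primrec.snd))
      (Primrec.snd.comp (Primrec.snd.comp (Primrec.snd.comp Primrec.fst)))
  exact u5_isZ.comp (u5_red.comp (Primrec.fst.comp (Primrec.snd.comp Primrec.fst))
    (Primrec.list_append.comp h3 h2))

theorem primrec_cert2 : PrimrecPred
    fun x : (List VC × ℕ × List VC × VC) × (ℕ × ℕ × List (List VC) × List VC) =>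
      Cert2 x.1.1 x.1.2.1 x.1.2.2.1 x.1.2.2.2 x.2 := by
  have pd : Primrec fun x : (List VC × ℕ × List VC × VC) × (ℕ × ℕ × List (List VC) × List VC) =>
      x.2.1 := Primrec.fst.comp Primrec.snd
  have pT : Primrec fun x : (List VC × ℕ × List VC × VC) × (ℕ × ℕ × List (List VC) × List VC) =>
      x.2.2.2.1 := Primrec.fst.comp (Primrec.snd.comp (Primrec.snd.comp Primrec.snd))
  have pw : Primrec fun x : (List VC × ℕ × List VC × VC) × (ℕ × ℕ × List (List VC) × List VC) =>
      (x.1.2.1, x.2.2) :=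
    (Primrec.fst.comp (Primrec.snd.comp Primrec.fst)).pair (Primrec.snd.comp Primrec.snd)
  have h1 := u5_all
    (R := fun (x : (List VC × ℕ × List VC × VC) × (ℕ × ℕ × List (List VC) × List VC))
      (row : List VC) => ∀ p ∈ row, ∀ q ∈ p, q.2 < x.2.1) pT
    (u5_bd.comp ((pd.comp Primrec.fst).pair Primrec.snd))
  have h2 := u5_bd.comp (pd.pair
    (Primrec.snd.comp (Primrec.snd.comp (Primrec.snd.comp Primrec.snd))))
  have h3 := u5_all
    (R := fun (x : (List VC × ℕ × List VC × VC) × (ℕ × ℕ × List (List VC) × List VC)) (p : VC) =>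
      ∀ z < (sz p + 1) ^ (sz p * x.2.1), IsZ (evP (tab x.2.2.2.1) (grid (sz p) x.2.1 z) p))
    (Primrec.fst.comp Primrec.fst)
    (u5_ids.comp (((pd.pair pT).comp Primrec.fst).pair Primrec.snd))
  have h4 := u5_all
    (R := fun (x : (List VC × ℕ × List VC × VC) × (ℕ × ℕ × List (List VC) × List VC)) (p : VC) =>
      IsZ (evH (tab x.2.2.2.1) (fun i => x.2.2.2.2.getD (i % (x.1.2.1 + 1)) []) (x.2.2.1 + 1) p))
    (Primrec.fst.comp (Primrec.snd.comp (Primrec.snd.comp Primrec.fst)))
    (u5_val.comp ((pw.comp Primrec.fst).pair Primrec.snd))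
  have h5 := (u5_val.comp (pw.pair
    (Primrec.snd.comp (Primrec.snd.comp (Primrec.snd.comp Primrec.fst))))).not
  exact h1.and (h2.and (h3.and (h4.and h5)))

end Pool.Agent.Lib.MP_038c09_al.Pi
end

-- part PiU6
section

/-!
Translation of operator identities into lists of monomials.
-/

namespace Pool.Agent.Lib.MP_038c09_al.Pi

open List

theorem u6_encode_ofNat (n : ℕ) : Encodable.encode (Int.ofNat n) = 2 * n := by
  change Equiv.intEquivNat (Int.ofNat n) = 2 * n
  simp [Equiv.intEquivNat, Equiv.intEquivNatSumNat]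
  rfl

theorem u6_encode_negSucc (n : ℕ) : Encodable.encode (Int.negSucc n) = 2 * n + 1 := by
  change Equiv.intEquivNat (Int.negSucc n) = 2 * n + 1
  simp [Equiv.intEquivNat, Equiv.intEquivNatSumNat]

theorem u6_primrec_neg : Primrec fun c : ℤ => -c := by
  have h : Primrec fun c : ℤ => if Encodable.encode c % 2 = 1 then Encodable.encode c + 1
      else Encodable.encode c - 1 :=
    Primrec.ite (Primrec.eq.comp (Primrec.nat_mod.comp Primrec.encode (Primrec.const 2))
      (Primrec.const 1)) (Primrec.succ.comp Primrec.encode)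
      (Primrec.nat_sub.comp Primrec.encode (Primrec.const 1))
  refine Primrec.encode_iff.1 (h.of_eq fun c => ?_)
  cases c with
  | ofNat n =>
    cases n with
    | zero => rfl
    | succ n =>
      rw [show -Int.ofNat (n + 1) = Int.negSucc n from rfl, u6_encode_ofNat, u6_encode_negSucc,
        if_neg (by omega)]
      omega
  | negSucc n =>
    rw [show -Int.negSucc n = Int.ofNat (n + 1) from rfl, u6_encode_ofNat, u6_encode_negSucc,
      if_pos (by omega)]
    omega

/-- number of a monomial obtained by multiplications -/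
def u6code (c : ℕ) (U : List (Bool × ℕ)) : ℕ :=
  U.foldl (fun s p => if p.1 then 2 * Nat.pair s (2 * p.2) + 1 else 2 * Nat.pair (2 * p.2) s + 1) c

theorem u6code_eq (t : FreeMagma ℕ) (U : List (Bool × ℕ)) :
    u6code (enc t) U = enc (act t U) := by
  induction U generalizing t with
  | nil => rfl
  | cons p U ih =>
    obtain ⟨b, x⟩ := p
    cases b
    · exact ih (.of x * t)
    · exact ih (t * .of x)

theorem u6_primrec_code (c : ℕ) : Primrec (u6code c) := by
  have h2 : Primrec fun x : List (Bool × ℕ) × ℕ × Bool × ℕ => 2 * x.2.2.2 :=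
    Primrec.nat_mul.comp (Primrec.const 2) (Primrec.snd.comp (Primrec.snd.comp Primrec.snd))
  have h1 : Primrec fun x : List (Bool × ℕ) × ℕ × Bool × ℕ => x.2.1 :=
    Primrec.fst.comp Primrec.snd
  exact Primrec.list_foldl Primrec.id (Primrec.const c) (Primrec.ite
    (Primrec.eq.comp (Primrec.fst.comp (Primrec.snd.comp Primrec.snd)) (Primrec.const true))
    (Primrec.succ.comp (Primrec.nat_mul.comp (Primrec.const 2) (Primrec₂.natPair.comp h1 h2)))
    (Primrec.succ.comp (Primrec.nat_mul.comp (Primrec.const 2)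
      (Primrec₂.natPair.comp h2 h1)))).to₂

/-- the polynomial of one identity -/
def u6one (d : IdData) : PCode :=
  [(1, u6code (enc (.of 0 * .of 1)) d.1), (-d.2.1, u6code (enc (.of 0 * .of 1)) d.2.2)]

theorem u6_primrec_one : Primrec u6one :=
  Primrec.list_cons.comp
    (Primrec.pair (Primrec.const 1) ((u6_primrec_code _).comp Primrec.fst))
    (Primrec.list_cons.comp (Primrec.pair (u6_primrec_neg.comp (Primrec.fst.comp Primrec.snd))
      ((u6_primrec_code _).comp (Primrec.snd.comp Primrec.snd))) (Primrec.const []))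

theorem u6_poly_one (F : Type) [Field F] (d : IdData) : poly F (u6one d) = opId F d := by
  simp [poly, u6one, u6code_eq, opId, sub_eq_add_neg]

theorem exists_trans : ∃ tr : List IdData → List PCode, Computable tr ∧
    ∀ (F : Type) [Field F] (I : List IdData), polySet F (tr I) = idSet F I := by
  refine ⟨fun I => [(1, enc ((.of 0 * .of 1) * (.of 2 * .of 3)))] :: I.map u6one,
    (Primrec.list_cons.comp (Primrec.const _)
      (Primrec.list_map Primrec.id (u6_primrec_one.comp Primrec.snd).to₂)).to_comp,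
    fun F _ I => ?_⟩
  ext g
  simp only [polySet, idSet, mem_cons, mem_map, Set.mem_ofPred_eq, Set.mem_insert_iff,
    Set.mem_image]
  constructor
  · rintro ⟨p, rfl | ⟨d, hd, rfl⟩, rfl⟩
    · left; simp [poly, metab]
    · exact Or.inr ⟨d, hd, (u6_poly_one F d).symm⟩
  · rintro (rfl | ⟨d, hd, rfl⟩)
    · exact ⟨_, Or.inl rfl, by simp [poly, metab]⟩
    · exact ⟨_, Or.inr ⟨d, hd, rfl⟩, (u6_poly_one F d).symm⟩

end Pool.Agent.Lib.MP_038c09_al.Pi
end
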