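import Pool.Agent.Lib.MP_038c09_al.Pi2
import Pool.Agent.Lib.MP_038c09_al.Pi3
import Pool.Agent.Lib.MP_038c09_al.Pi4
import Pool.Agent.Lib.MP_038c09_al.Pi5

-- part PiMain
section

/-!
The reduction from totality.
-/

namespace Pool.Agent.Lib.MP_038c09_al.Pi

open List

theorem closed_of_loc {F : Type} [Field F] {X Γ : Type} [Fintype X] [DecidableEq X] (s : CS Γ)
    (Big : Set (List Γ))
    (hBig : ∀ z ∈ Big, ∀ w : List (Bool × X), shp w = s.κ z → ∀ g p,
      bw F g (p ++ w) ∈ RelG F s.Rl) {B : ℕ} (h : Loc s.allMv (s.kl ∪ Big) B) :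
    ClosedG F (X := X) s.Rl := by
  obtain ⟨c, N, hc, hseg, hdense, hinv⟩ := cuts_of_loc (loc_code s.toCd h)
  have key : ∀ u u' : List Bool, (u, u') ∈ codeMv s.toCd s.allMv → u.length = u'.length →
      ∀ p t : List Bool,
      (Seg c (Ded (codeMv s.toCd s.allMv) (codeKl s.toCd (s.kl ∪ Big))) (p ++ u ++ t) ∧
        Seg c (Ded (codeMv s.toCd s.allMv) (codeKl s.toCd (s.kl ∪ Big))) (p ++ u' ++ t)) ∨
      (SameCuts c (p ++ u ++ t) (p ++ u' ++ t) ∧ NoCut c p u t) := by
    intro u u' hu _ p t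
    by_cases hd : Ded (codeMv s.toCd s.allMv) (codeKl s.toCd (s.kl ∪ Big)) (p ++ u ++ t)
    · refine Or.inl ⟨hseg _ hd, hseg _ ?_⟩
      obtain ⟨w', h1, h2⟩ := hd
      exact ⟨w', Relation.ReflTransGen.head ⟨p, u', u, t, Or.inr hu, rfl, rfl⟩ h1, h2⟩
    · exact Or.inr (hinv p u u' t hu hd)
  refine closed_of_cuts _ c N _ hc (ded_mem s Big hBig) (fun w hw => ?_) ?_
  · by_cases hd : Ded (codeMv s.toCd s.allMv) (codeKl s.toCd (s.kl ∪ Big)) w
    · exact Or.inl fun t => hseg _ (by simpa using ded_ctx hd [] t)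
    · exact Or.inr (hdense w hw hd)
  · intro w e w' hr p t
    cases hr with
    | kill _ hk =>
      refine Or.inl ⟨hseg _ ⟨_, Relation.ReflTransGen.refl, shp w, ?_, p, t, rfl⟩, Or.inl rfl⟩
      rcases hk with hk | ⟨z, hz, hk⟩
      · exact Or.inl hk
      · exact Or.inr ⟨z, Or.inl hz, hk⟩
    | move u u' _ _ hu h1 h2 h3 =>
      have hl : w.length = w'.length := by simpa using congrArg length h3
      rcases key (shp w) (shp w') ⟨(u, u'), Or.inl hu, by rw [h1, h2]⟩ (by simpa using hl) p t with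
        hk | hk
      · exact Or.inl ⟨hk.1, Or.inr hk.2⟩
      · exact Or.inr ⟨hl, hk⟩
    | swap a b d w0 x w1 y w2 hs h0 h1 h2 =>
      have e1 : ∀ x y : X, shp (w0 ++ (true, x) :: (w1 ++ (true, y) :: w2)) = s.κ [a, b, d] := by
        intro x y
        simp only [Cd.κ_cons, Cd.κ_nil, append_nil, ← h0, ← h1, ← h2]
        simp
      rw [e1, e1]
      rcases key (s.κ [a, b, d]) (s.κ [a, b, d])
        ⟨([a, b, d], [a, b, d]), Or.inr ⟨a, b, d, hs, rfl⟩, rfl⟩ rfl p t with hk | hk
      · exact Or.inl ⟨hk.1, Or.inr hk.2⟩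
      · exact Or.inr ⟨by simp, hk⟩

theorem rfd_of_total (F : Type) [Field F] [CharZero F] (M : Mach) (hU : Univ M) (e : ℕ)
    (he : ∀ i, DomAt e i) : IsRFDVariety (polysD F (csM M e).Ids) := by
  refine rfd_of_closedD _ (csM M e).good_ids fun n => ?_
  obtain ⟨B0, hB0⟩ := tank_bound M hU e he n
  obtain ⟨B, hB⟩ := loc_of_tank M e n B0 hB0
  have h := closed_of_loc (F := F) (X := Fin n) (csM M e) (bigM M n)
    (fun z hz w hw g p => big_mem M e n (by simp) hz w hw g p) hB
  unfold ClosedG RelLG at h ⊢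
  rwa [CS.relG_ids]

theorem rfd_iff_total (F : Type) [Field F] [CharZero F] (M : Mach) (hU : Univ M) (e : ℕ) :
    IsRFDVariety (polysD F (csM M e).Ids) ↔ ∀ i, DomAt e i := by
  refine ⟨fun h i => ?_, rfd_of_total F M hU e⟩
  by_contra hi
  refine not_rfd_of_div F M e (e + M.m + 3 + i) (by omega) ((hU e i).2 hi _ ⟨?_, ?_⟩) h
  · intro s h1 h2
    simp only [per, decide_eq_false_iff_not]
    rw [Nat.mod_eq_of_lt h2]
    omega
  · simp [per]

theorem pi2_hard (F : Type) [Field F] [CharZero F] (R : ℕ × ℕ → Prop) (hR : REPred R) :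
    (fun a => ∀ b, R (a, b)) ≤₀ fun I : List IdData => IsRFDVariety (idSet F I) := by
  obtain ⟨m, Q, _, prog, q0, hm, h⟩ := exists_regMachine
  obtain ⟨M, hU⟩ := univ_of_reg m Q prog q0 hm h
  obtain ⟨I, hI, hI'⟩ := exists_list M
  have h1 : Partrec fun k : ℕ => (Part.assert (R k.unpair) fun _ => Part.some ()).map fun _ => 0 :=
    (Partrec.comp hR Primrec.unpair.to_comp).map (Computable.const 0).to₂
  obtain ⟨c, hc⟩ := Nat.Partrec.Code.exists_code.1 (Partrec.nat_iff.1 h1)
  refine ⟨fun a => I (Encodable.encode (c.curry a)), hI.comp (Computable.encode.comp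
    (Nat.Partrec.Code.primrec₂_curry.to_comp.comp (Computable.const c) Computable.id)),
    fun a => ?_⟩
  have e1 : idSet F (I (Encodable.encode (c.curry a))) =
      polysD F (csM M (Encodable.encode (c.curry a))).Ids := by rw [idSet, hI', polysD]
  simp only [e1, rfd_iff_total F M hU, DomAt, Denumerable.ofNat_encode,
    Nat.Partrec.Code.eval_curry, hc]
  simp [Part.assert]

end Pool.Agent.Lib.MP_038c09_al.Pi
end

-- part PiUMain
section

/-!
Both bounds for the complexity of the RFD property.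
-/

namespace Pool.Agent.Lib.MP_038c09_al.Pi

open List

theorem re_exists {α β : Type} [Primcodable α] [Primcodable β] {p : α × β → Prop}
    (hp : PrimrecPred p) : REPred fun a => ∃ b, p (a, b) := by
  classical
  have h1 : PrimrecPred fun x : α × ℕ => ∃ b ∈ (Encodable.decode (α := β) x.2).toList, p (x.1, b) :=
    (PrimrecRel.exists_mem_list (R := fun (b : β) (x : α × ℕ) => p (x.1, b))
      (hp.comp (Primrec.pair (Primrec.fst.comp Primrec.snd) Primrec.fst))).comp
      (Primrec.optionToList.comp (Primrec.decode.comp Primrec.snd)) Primrec.id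
  have h2 := h1.decide
  have h3 := Partrec.rfind (p := fun (a : α) (k : ℕ) => (Part.some (decide
    (∃ b ∈ (Encodable.decode (α := β) k).toList, p (a, b))) : Part Bool)) h2.to_comp.partrec
  refine h3.dom_re.of_eq fun a => ?_
  rw [Nat.rfind_dom]
  constructor
  · rintro ⟨k, hk, -⟩
    obtain ⟨b, -, hb⟩ := of_decide_eq_true (Part.mem_some_iff.1 hk).symm
    exact ⟨b, hb⟩
  · rintro ⟨b, hb⟩
    exact ⟨Encodable.encode b, Part.mem_some_iff.2 (decide_eq_true ⟨b, by simp, hb⟩).symm,
      fun _ => trivial⟩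

theorem idealGen_congr {X : Type} {S S' : Set (FA ℚ X)}
    (h : ∀ f ∈ S, ∃ c : ℚ, ∃ g ∈ S', f = c • g) : idealGen S ≤ idealGen S' := by
  refine idealGen_le (isIdeal_idealGen _) fun f hf => ?_
  obtain ⟨c, g, hg, rfl⟩ := h f hf
  exact Submodule.smul_mem _ _ (subset_idealGen _ hg)

theorem rfd_iff_cert (I : List VC) : IsRFDVariety {g | ∃ p ∈ I, g = polyV p} ↔
    ∀ (n : ℕ) (Rl : List VC) (a : VC), (∃ w, Cert1 I n Rl a w) ∨ ∃ w, Cert2 I n Rl a w := by
  classical
  constructor
  · intro h n Rl a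
    by_cases ha : polyN n a ∈ idK I n Rl
    · exact Or.inl ((cert1_iff I n Rl a).2 ha)
    · have e : ({g | ∃ p ∈ Rl, g = polyN n p} : Set (FA ℚ (Fin (n + 1)))) =
          ↑(Rl.map (polyN n)).toFinset := by
        ext g
        simp [eq_comm]
      rw [idK, e] at ha
      obtain ⟨J, h1, h2, h3, h4⟩ := h (n + 1) _ _ ha
      exact Or.inr (cert2_complete I n Rl a J h1 (by rw [idK, e]; exact h2) h3 h4)
  · intro h n R a ha
    cases n with
    | zero =>
      exfalso
      apply ha
      have hE : IsEmpty (FreeMagma (Fin 0)) := ⟨fun w => by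
        induction w using FreeMagma.rec with
        | of x => exact x.elim0
        | mul _ _ h _ => exact h⟩
      have h0 : ∀ x : FA ℚ (Fin 0), x = 0 := fun x => by
        induction x using MonoidAlgebra.induction_linear with
        | zero => rfl
        | add f g hf hg => rw [hf, hg, add_zero]
        | single w c => exact hE.elim w
      have := h0 a
      rw [this]
      exact zero_mem _
    | succ n =>
      choose c p hp using exists_polyN n
      have hc : ∀ f, ((c f : ℚ) + 1) ≠ 0 := fun f => by positivity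
      have e : idK I n (R.toList.map p) =
          idealGen (TVal {g | ∃ p ∈ I, g = polyV p} (Fin (n + 1)) ∪ ↑R) := by
        refine le_antisymm (idealGen_congr ?_) (idealGen_congr ?_)
        · rintro f (hf | ⟨q, hq, rfl⟩)
          · exact ⟨1, f, Or.inl hf, (one_smul _ _).symm⟩
          · obtain ⟨r, hr, rfl⟩ := mem_map.1 hq
            exact ⟨_, r, Or.inr (Finset.mem_toList.1 hr), (hp r).symm⟩
        · rintro f (hf | hf)
          · exact ⟨1, f, Or.inl hf, (one_smul _ _).symm⟩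
          · refine ⟨((c f : ℚ) + 1)⁻¹, _, Or.inr ⟨p f, mem_map_of_mem (Finset.mem_toList.2 hf),
              rfl⟩, ?_⟩
            rw [← hp, smul_smul, inv_mul_cancel₀ (hc f), one_smul]
      rcases h n (R.toList.map p) (p a) with h | ⟨w, hw⟩
      · rw [cert1_iff, e, ← hp, Submodule.smul_mem_iff _ (hc a)] at h
        exact absurd h ha
      · obtain ⟨J, h1, h2, h3, h4⟩ := cert2_sound _ _ _ _ w hw
        rw [← hp, Submodule.smul_mem_iff _ (hc a)] at h4
        exact ⟨J, h1, e ▸ h2, h3, h4⟩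

theorem pi2_upper : ∃ R : List PCode × ℕ → Prop, REPred R ∧
    ∀ I, IsRFDVariety (polySet ℚ I) ↔ ∀ b, R (I, b) := by
  classical
  let β := (ℕ × List Term) ⊕ (ℕ × ℕ × List (List VC) × List VC)
  let P : (List VC × ℕ × List VC × VC) × β → Prop := fun x =>
    (∃ w ∈ x.2.getLeft?.toList, Cert1 x.1.1 x.1.2.1 x.1.2.2.1 x.1.2.2.2 w) ∨
      ∃ w ∈ x.2.getRight?.toList, Cert2 x.1.1 x.1.2.1 x.1.2.2.1 x.1.2.2.2 w
  have hl : Primrec fun x : β => x.getLeft? :=
    (Primrec.sumCasesOn Primrec.id (Primrec.option_some.comp Primrec.snd).to₂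
      (Primrec.const none).to₂).of_eq fun x => by cases x <;> rfl
  have hr : Primrec fun x : β => x.getRight? :=
    (Primrec.sumCasesOn Primrec.id (Primrec.const none).to₂
      (Primrec.option_some.comp Primrec.snd).to₂).of_eq fun x => by cases x <;> rfl
  have hP : PrimrecPred P := by
    refine PrimrecPred.or ?_ ?_
    · exact (PrimrecRel.exists_mem_list
        (R := fun w (x : (List VC × ℕ × List VC × VC) × β) =>
          Cert1 x.1.1 x.1.2.1 x.1.2.2.1 x.1.2.2.2 w)
        (primrec_cert1.comp (Primrec.pair (Primrec.fst.comp Primrec.snd) Primrec.fst))).comp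
        (Primrec.optionToList.comp (hl.comp Primrec.snd)) Primrec.id
    · exact (PrimrecRel.exists_mem_list
        (R := fun w (x : (List VC × ℕ × List VC × VC) × β) =>
          Cert2 x.1.1 x.1.2.1 x.1.2.2.1 x.1.2.2.2 w)
        (primrec_cert2.comp (Primrec.pair (Primrec.fst.comp Primrec.snd) Primrec.fst))).comp
        (Primrec.optionToList.comp (hr.comp Primrec.snd)) Primrec.id
  let f : List PCode × ℕ → List VC × ℕ × List VC × VC := fun x =>
    (x.1.map toV, (Encodable.decode (α := ℕ × List VC × VC) x.2).getD (0, [], []))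
  have hf : Primrec f := Primrec.pair
    (Primrec.list_map Primrec.fst (primrec_toV.comp Primrec.snd).to₂)
    (Primrec.option_getD.comp (Primrec.decode.comp Primrec.snd) (Primrec.const _))
  refine ⟨fun x => ∃ w, P (f x, w), Partrec.comp (re_exists hP) hf.to_comp, fun I => ?_⟩
  have e : polySet ℚ I = {g | ∃ p ∈ I.map toV, g = polyV p} := by
    ext g
    simp [polySet, polyV_toV]
  have k : ∀ y : List VC × ℕ × List VC × VC, (∃ w, P (y, w)) ↔
      (∃ w, Cert1 y.1 y.2.1 y.2.2.1 y.2.2.2 w) ∨ ∃ w, Cert2 y.1 y.2.1 y.2.2.1 y.2.2.2 w := by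
    intro y
    constructor
    · rintro ⟨w, ⟨u, -, h⟩ | ⟨u, -, h⟩⟩
      · exact Or.inl ⟨u, h⟩
      · exact Or.inr ⟨u, h⟩
    · rintro (⟨u, h⟩ | ⟨u, h⟩)
      · exact ⟨.inl u, Or.inl ⟨u, by simp, h⟩⟩
      · exact ⟨.inr u, Or.inr ⟨u, by simp, h⟩⟩
  rw [e, rfd_iff_cert]
  simp only [k]
  constructor
  · exact fun h b => h _ _ _
  · intro h n Rl a
    simpa [f] using h (Encodable.encode (n, Rl, a))

theorem pi2_hard' (F : Type) [Field F] [CharZero F] (R : ℕ × ℕ → Prop) (hR : REPred R) :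
    ∃ f : ℕ → List PCode, Computable f ∧ ∀ a, metab F ∈ polySet F (f a) ∧
      ((∀ b, R (a, b)) ↔ IsRFDVariety (polySet F (f a))) := by
  obtain ⟨g, hg, h⟩ := pi2_hard F R hR
  obtain ⟨tr, htr, h'⟩ := exists_trans
  exact ⟨fun a => tr (g a), htr.comp hg, fun a => by
    rw [h']; exact ⟨Or.inl rfl, h a⟩⟩

end Pool.Agent.Lib.MP_038c09_al.Pi
end
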