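import Pool.Agent.Lib.MP_038c09_al.UndDefs

/-!
Finite lists of identities with integer coefficients, as data for computability statements.
-/

namespace Pool.Agent.Lib.MP_038c09_al

/-- The number of a monomial in the variables `x_0, x_1, ...`: the variable `x_i` has number
`2 i`, and the product `s t` has number `2 * pair (enc s) (enc t) + 1`.  This is a bijection
onto the natural numbers. -/
def enc : FreeMagma ℕ → ℕ
  | .of i => 2 * i
  | .mul s t => 2 * Nat.pair (enc s) (enc t) + 1

/-- The monomial with a given number. -/
noncomputable def dec : ℕ → FreeMagma ℕ := Function.invFun enc

/-- A polynomial with integer coefficients, as a list of pairs (coefficient, number of a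
monomial). -/
abbrev PCode := List (ℤ × ℕ)

/-- The polynomial given by a list of pairs (coefficient, number of a monomial). -/
noncomputable def poly (F : Type) [Field F] (p : PCode) : FA F ℕ :=
  (p.map fun q => (q.1 : F) • mon F (dec q.2)).sum

/-- The finite set of identities given by a list of polynomials. -/
def polySet (F : Type) [Field F] (I : List PCode) : Set (FA F ℕ) := {g | ∃ p ∈ I, g = poly F p}

end Pool.Agent.Lib.MP_038c09_al
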