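import Mathlib
import Pool.Agent.Lib.MP_038c09_al.Eval

-- part Pool.Agent.Lib.MP_038c09_al.Proj
section

/-!
Finite rank projections preserving two chains of subspaces.
-/

namespace Pool.Agent.Lib.MP_038c09_al

variable {F : Type} [Field F] {A : Type} [AddCommGroup A] [Module F A]

theorem exists_greatest {Y : Finset (Submodule F A)} (hne : Y.Nonempty)
    (hc : ∀ s ∈ Y, ∀ t ∈ Y, s ≤ t ∨ t ≤ s) : ∃ m ∈ Y, ∀ s ∈ Y, s ≤ m := by
  obtain ⟨m, hm⟩ := Y.exists_maximal hne
  refine ⟨m, hm.1, fun s hs => ?_⟩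
  rcases hc s hs m hm.1 with h | h
  · exact h
  · exact hm.2 hs h

theorem exists_compl_chain (X0 : Submodule F A) (k : ℕ) :
    ∀ (Y : Finset (Submodule F A)), Y.card = k → (∀ s ∈ Y, ∀ t ∈ Y, s ≤ t ∨ t ≤ s) →
      ∀ T : Submodule F A, (∀ s ∈ Y, s ≤ T) →
        ∃ W : Submodule F A, W ≤ T ∧ Disjoint W X0 ∧ T ≤ W ⊔ (X0 ⊓ T) ∧
          ∀ s ∈ Y, s ≤ (W ⊓ s) ⊔ (X0 ⊓ s) := by
  classical
  have ext : ∀ (W' T : Submodule F A), W' ≤ T → Disjoint W' X0 →
      ∃ W : Submodule F A, W' ≤ W ∧ W ≤ T ∧ Disjoint W X0 ∧ T ≤ W ⊔ (X0 ⊓ T) := by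
    intro W' T hWT hd
    obtain ⟨Z, hZd, hZs⟩ := IsModularLattice.exists_disjoint_and_sup_eq
      (a := W' ⊔ (X0 ⊓ T)) (b := T) (sup_le hWT inf_le_right)
    have hZT : Z ≤ T := hZs ▸ le_sup_right
    refine ⟨W' ⊔ Z, le_sup_left, sup_le hWT hZT, ?_, ?_⟩
    · rw [Submodule.disjoint_def]
      intro x hx hx0
      obtain ⟨w, hw, z, hz, rfl⟩ := Submodule.mem_sup.1 hx
      have hz0 : z = 0 := by
        refine Submodule.disjoint_def.1 hZd z ?_ hz
        have : z = -w + (w + z) := by abel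
        rw [this]
        exact Submodule.add_mem_sup (W'.neg_mem hw) ⟨hx0, T.add_mem (hWT hw) (hZT hz)⟩
      subst hz0
      rw [add_zero] at hx0 ⊢
      exact Submodule.disjoint_def.1 hd w hw hx0
    · rw [← hZs]
      refine sup_le (sup_le (le_sup_of_le_left le_sup_left) ?_) (le_sup_of_le_left le_sup_right)
      rw [hZs]
      exact le_sup_right
  induction k with
  | zero =>
    intro Y hY _ T _
    obtain ⟨W, -, h2, h3, h4⟩ := ext ⊥ T bot_le disjoint_bot_left
    refine ⟨W, h2, h3, h4, fun s hs => ?_⟩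
    rw [Finset.card_eq_zero.1 hY] at hs
    simp at hs
  | succ k ih =>
    intro Y hY hc T hT
    obtain ⟨m, hm, hmax⟩ := exists_greatest (Finset.card_pos.1 (by omega)) hc
    obtain ⟨W', h1, h2, h3, h4⟩ := ih (Y.erase m) (by rw [Finset.card_erase_of_mem hm]; omega)
      (fun s hs t ht => hc s (Finset.mem_of_mem_erase hs) t (Finset.mem_of_mem_erase ht)) m
      (fun s hs => hmax s (Finset.mem_of_mem_erase hs))
    obtain ⟨W, g1, g2, g3, g4⟩ := ext W' T (h1.trans (hT m hm)) h2
    refine ⟨W, g2, g3, g4, fun s hs => ?_⟩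
    by_cases hsm : s = m
    · subst hsm
      exact h3.trans (sup_le_sup_right (le_inf g1 h1) _)
    · exact (h4 s (Finset.mem_erase.2 ⟨hsm, hs⟩)).trans
        (sup_le_sup_right (inf_le_inf_right _ g1) _)

/-- A projection onto `X0` preserving every member of a finite chain. -/
theorem exists_proj_chain (X0 : Submodule F A) (Y : Finset (Submodule F A))
    (hc : ∀ s ∈ Y, ∀ t ∈ Y, s ≤ t ∨ t ≤ s) :
    ∃ p : A →ₗ[F] A, (∀ x, p x ∈ X0) ∧ (∀ x ∈ X0, p x = x) ∧ ∀ s ∈ Y, ∀ x ∈ s, p x ∈ s := by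
  obtain ⟨W, -, h2, h3, h4⟩ := exists_compl_chain X0 _ Y rfl hc ⊤ (fun _ _ => le_top)
  have hcomp : IsCompl X0 W := ⟨h2.symm, codisjoint_iff.2 (by
    rw [eq_top_iff, sup_comm]; simpa using h3)⟩
  refine ⟨X0.subtype ∘ₗ X0.projectionOnto W hcomp, fun x => (_ : X0).2, fun x hx => ?_,
    fun s hs x hx => ?_⟩
  · exact congrArg Subtype.val (Submodule.projectionOnto_apply_left hcomp ⟨x, hx⟩)
  · obtain ⟨w, hw, z, hz, rfl⟩ := Submodule.mem_sup.1 (h4 s hs hx)
    have e1 := Submodule.projectionOnto_apply_left hcomp ⟨z, hz.1⟩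
    have e2 := Submodule.projectionOnto_apply_right hcomp ⟨w, hw.1⟩
    simp only [LinearMap.comp_apply, map_add]
    simp only at e1 e2
    rw [e1, e2]
    simpa using hz.2

/-- A finite rank map fixing a finite-dimensional subspace and preserving two finite chains. -/
theorem exists_finite_rank (Y : Finset (Submodule F A))
    (hcY : ∀ s ∈ Y, ∀ t ∈ Y, s ≤ t ∨ t ≤ s) (k : ℕ) :
    ∀ (X : Finset (Submodule F A)), X.card = k → (∀ s ∈ X, ∀ t ∈ X, s ≤ t ∨ t ≤ s) →
      ∀ U : Submodule F A, Module.Finite F U →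
        ∃ π : A →ₗ[F] A, Module.Finite F (LinearMap.range π) ∧ (∀ x ∈ U, π x = x) ∧
          (∀ s ∈ X, ∀ x ∈ s, π x ∈ s) ∧ ∀ s ∈ Y, ∀ x ∈ s, π x ∈ s := by
  classical
  have base : ∀ U : Submodule F A, Module.Finite F U →
      ∃ π : A →ₗ[F] A, Module.Finite F (LinearMap.range π) ∧ (∀ x ∈ U, π x = x) ∧
          ∀ s ∈ Y, ∀ x ∈ s, π x ∈ s := by
    intro U hU
    obtain ⟨p, h1, h2, h3⟩ := exists_proj_chain U Y hcY
    exact ⟨p, Submodule.finiteDimensional_of_le (S₂ := U) (by rintro _ ⟨x, rfl⟩; exact h1 x),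
      h2, h3⟩
  induction k with
  | zero =>
    intro X hX _ U hU
    obtain ⟨π, h1, h2, h3⟩ := base U hU
    refine ⟨π, h1, h2, fun s hs => ?_, h3⟩
    rw [Finset.card_eq_zero.1 hX] at hs
    simp at hs
  | succ k ih =>
    intro X hX hc U hU
    obtain ⟨m, hm, hmax⟩ := exists_greatest (Finset.card_pos.1 (by omega)) hc
    obtain ⟨p, p1, p2, p3⟩ := exists_proj_chain m Y hcY
    obtain ⟨π1, a1, a2, a3, a4⟩ := ih (X.erase m) (by rw [Finset.card_erase_of_mem hm]; omega)
      (fun s hs t ht => hc s (Finset.mem_of_mem_erase hs) t (Finset.mem_of_mem_erase ht))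
      (U.map p) inferInstance
    obtain ⟨π2, b1, b2, b3⟩ := base (U.map (LinearMap.id - p)) inferInstance
    refine ⟨p ∘ₗ π1 ∘ₗ p + π2 ∘ₗ (LinearMap.id - p), ?_, fun x hx => ?_, fun s hs x hx => ?_,
      fun s hs x hx => ?_⟩
    · refine Submodule.finiteDimensional_of_le
        (S₂ := (LinearMap.range π1).map p ⊔ LinearMap.range π2) ?_
      rintro _ ⟨x, rfl⟩
      exact Submodule.add_mem_sup ⟨_, ⟨_, rfl⟩, rfl⟩ ⟨_, rfl⟩
    · have e1 := a2 (p x) ⟨x, hx, rfl⟩
      have e2 := b2 _ ⟨x, hx, rfl⟩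
      simp only [LinearMap.add_apply, LinearMap.comp_apply]
      rw [e1, e2, p2 _ (p1 x)]
      simp
    · have hxm : p x = x := p2 x (hmax s hs hx)
      simp only [LinearMap.add_apply, LinearMap.comp_apply, LinearMap.sub_apply,
        LinearMap.id_apply, hxm, sub_self, map_zero, add_zero]
      by_cases hsm : s = m
      · subst hsm
        exact p1 _
      · have := a3 s (Finset.mem_erase.2 ⟨hsm, hs⟩) x hx
        rw [p2 _ (hmax s hs this)]
        exact this
    · simp only [LinearMap.add_apply, LinearMap.comp_apply, LinearMap.sub_apply,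
        LinearMap.id_apply]
      exact s.add_mem (p3 s hs _ (a4 s hs _ (p3 s hs x hx)))
        (b3 s hs _ (s.sub_mem hx (p3 s hs x hx)))

end Pool.Agent.Lib.MP_038c09_al
end

-- part Pool.Agent.Lib.MP_038c09_al.Pos
section

/-!
The positive criterion.
-/

namespace Pool.Agent.Lib.MP_038c09_al

variable {F : Type} [Field F]

/-- the identities attached to a finite set of data -/
abbrev ids (D : Finset (F × F × FreeMagma ℕ × FreeMagma ℕ)) : Set (FA F ℕ) :=
  binId '' (D : Set (F × F × FreeMagma ℕ × FreeMagma ℕ))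

/-- all subterms, variables included -/
def allsub {X : Type} : FreeMagma X → List (FreeMagma X)
  | .of x => [.of x]
  | .mul s t => .mul s t :: (allsub s ++ allsub t)

theorem hom_binId {X A : Type} [AddCommGroup A] [Module F A] (μ : A →ₗ[F] A →ₗ[F] A)
    (h : FA F X →ₗ[F] A) (hmul : ∀ f g, h (f * g) = μ (h f) (h g)) (φ : ℕ → FA F X)
    (d : F × F × FreeMagma ℕ × FreeMagma ℕ) :
    h (FreeNonUnitalNonAssocAlgebra.lift F φ (binId d)) =
      (d.1 • μ + d.2.1 • μ.flip) (evm μ (fun i => h (φ i)) d.2.2.1)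
        (evm μ (fun i => h (φ i)) d.2.2.2) := by
  rw [binId, map_add, map_smul, map_smul, map_add, map_smul, map_smul, hom_lift_mon μ h hmul,
    hom_lift_mon μ h hmul, evm_mul, evm_mul]
  simp

theorem rfd_of_maps (D : Finset (F × F × FreeMagma ℕ × FreeMagma ℕ))
    (hD : ∀ d ∈ D, Multilinear (d.2.2.1 * d.2.2.2))
    (H : ∀ (n : ℕ) (K : Submodule F (FA F (Fin n))) (hK : IsIdeal K),
      TVal (ids D) (Fin n) ⊆ K → ∀ U : Submodule F (FA F (Fin n) ⧸ K),
      Module.Finite F U → ∃ π : (FA F (Fin n) ⧸ K) →ₗ[F] (FA F (Fin n) ⧸ K),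
        Module.Finite F (LinearMap.range π) ∧ (∀ x ∈ U, π x = x) ∧
          ∀ r, Psub D r → ∀ x ∈ val (quotMul K hK) r, π x ∈ val (quotMul K hK) r) :
    IsRFDVariety (ids D) := by
  classical
  intro n R a ha
  set K := idealGen (TVal (ids D) (Fin n) ∪ ↑R) with hKdef
  have hK : IsIdeal K := isIdeal_idealGen _
  have hT : TVal (ids D) (Fin n) ⊆ K := fun x hx => subset_idealGen _ (Or.inl hx)
  have hR : ∀ r ∈ R, r ∈ K := fun x hx => subset_idealGen _ (Or.inr hx)
  set μ := quotMul K hK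
  let S : Finset (FreeMagma (Fin n)) :=
    (insert a R).biUnion fun f => f.coeff.support.biUnion fun m => (allsub m).toFinset
  let U : Submodule F (FA F (Fin n) ⧸ K) :=
    Submodule.span F ↑(S.image fun m => K.mkQ (mon F m))
  obtain ⟨π, hfin, hid, hpres⟩ := H n K hK hT U inferInstance
  let v : Fin n → FA F (Fin n) ⧸ K := fun i => K.mkQ (mon F (.of i))
  let μ' := μ.compr₂ π
  let ev := evL μ' v
  have hmul : ∀ f g, ev (f * g) = μ' (ev f) (ev g) := evL_mul μ' v
  have key : ∀ m : FreeMagma (Fin n), (∀ r ∈ allsub m, r ∈ S) →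
      evm μ' v m = K.mkQ (mon F m) := by
    intro m
    induction m using FreeMagma.rec with
    | of x => intro _; rfl
    | mul s t hs ht =>
      intro h
      have e : evm μ' v (.mul s t) = π (μ (evm μ' v s) (evm μ' v t)) := rfl
      rw [e, hs (fun r hr => h r (by simp [allsub, hr])),
        ht (fun r hr => h r (by simp [allsub, hr])), ← mkQ_mul, ← mon_mul]
      refine hid _ (Submodule.subset_span ?_)
      simp only [Finset.coe_image]
      exact ⟨_, h _ (by simp [allsub]), rfl⟩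
  have key2 : ∀ f ∈ insert a R, ev f = K.mkQ f := by
    intro f hf
    conv_lhs => rw [← f.sum_coeff_single]
    conv_rhs => rw [← f.sum_coeff_single]
    rw [Finsupp.sum, map_sum, map_sum]
    refine Finset.sum_congr rfl fun m hm => ?_
    rw [single_eq, map_smul, map_smul, evL_mon, key]
    intro r hr
    simp only [S, Finset.mem_biUnion, List.mem_toFinset]
    exact ⟨f, hf, m, hm, hr⟩
  refine ⟨LinearMap.ker ev, isIdeal_ker μ' ev hmul, idealGen_le (isIdeal_ker μ' ev hmul) ?_, ?_, ?_⟩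
  · rintro g (⟨_, ⟨d, hd, rfl⟩, φ, rfl⟩ | hg)
    · have hdm := hD d hd
      obtain ⟨h1, h2, h3⟩ := disj_of_multilinear hdm
      rw [SetLike.mem_coe, LinearMap.mem_ker, hom_binId μ' ev hmul]
      have hu := evm_comp_mem μ π (fun i => ev (φ i)) d.2.2.1 h1
        (fun r hr => hpres r ⟨d, hd, Or.inl hr⟩)
      have hv := evm_comp_mem μ π (fun i => ev (φ i)) d.2.2.2 h2
        (fun r hr => hpres r ⟨d, hd, Or.inr hr⟩)
      have hz := bilin_ext μ (d.1 • μ + d.2.1 • μ.flip) ⊥ h3 (fun ψ => by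
        choose ψ' hψ' using fun i => K.mkQ_surjective (ψ i)
        have := hom_binId μ K.mkQ (mkQ_mul K hK) ψ' d
        simp only [hψ'] at this
        rw [← this, Submodule.mem_bot, Submodule.mkQ_apply, Submodule.Quotient.mk_eq_zero]
        exact hT ⟨_, ⟨d, hd, rfl⟩, ψ', rfl⟩) hu hv
      rw [Submodule.mem_bot] at hz
      have := congrArg π hz
      simpa [μ'] using this
    · rw [SetLike.mem_coe, LinearMap.mem_ker, key2 g (Finset.mem_insert_of_mem hg),
        Submodule.mkQ_apply, Submodule.Quotient.mk_eq_zero]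
      exact hR g hg
  · have hr : Module.Finite F (LinearMap.range ev) := by
      have : Module.Finite F (Submodule.span F (Set.range v)) :=
        Module.Finite.span_of_finite F (Set.finite_range v)
      refine Submodule.finiteDimensional_of_le
        (S₂ := LinearMap.range π ⊔ Submodule.span F (Set.range v)) ?_
      rintro _ ⟨f, rfl⟩
      induction f using MonoidAlgebra.induction_linear with
      | zero => simp
      | add f g hf hg => rw [map_add]; exact Submodule.add_mem _ hf hg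
      | single m c =>
        rw [single_eq, map_smul, evL_mon]
        refine Submodule.smul_mem _ _ ?_
        cases m with
        | of x => exact Submodule.mem_sup_right (Submodule.subset_span ⟨x, rfl⟩)
        | mul s t => exact Submodule.mem_sup_left ⟨_, rfl⟩
    exact Module.Finite.equiv ev.quotKerEquivRange.symm
  · rw [LinearMap.mem_ker, key2 a (Finset.mem_insert_self _ _), Submodule.mkQ_apply,
      Submodule.Quotient.mk_eq_zero]
    exact ha

omit [Field F] in
theorem psub_finite (D : Finset (F × F × FreeMagma ℕ × FreeMagma ℕ)) :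
    ∃ P : Finset (FreeMagma ℕ), ∀ r, r ∈ P ↔ Psub D r := by
  classical
  refine ⟨D.biUnion fun d => (subterms d.2.2.1).toFinset ∪ (subterms d.2.2.2).toFinset, fun r => ?_⟩
  simp [Psub]

theorem rfd_of_two_chains (D : Finset (F × F × FreeMagma ℕ × FreeMagma ℕ))
    (hD : ∀ d ∈ D, Multilinear (d.2.2.1 * d.2.2.2)) (col : FreeMagma ℕ → Bool)
    (H : ∀ (n : ℕ) (K : Submodule F (FA F (Fin n))) (hK : IsIdeal K),
      TVal (ids D) (Fin n) ⊆ K → ∀ s t, Psub D s → Psub D t → col s = col t →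
        val (quotMul K hK) s ≤ val (quotMul K hK) t ∨ val (quotMul K hK) t ≤ val (quotMul K hK) s) :
    IsRFDVariety (ids D) := by
  classical
  refine rfd_of_maps D hD fun n K hK hT U hU => ?_
  obtain ⟨P, hP⟩ := psub_finite D
  have hc : ∀ b : Bool, ∀ s ∈ (P.filter fun r => col r = b).image (val (quotMul K hK)),
      ∀ t ∈ (P.filter fun r => col r = b).image (val (quotMul K hK)), s ≤ t ∨ t ≤ s := by
    intro b s hs t ht
    obtain ⟨s, hs', rfl⟩ := Finset.mem_image.1 hs
    obtain ⟨t, ht', rfl⟩ := Finset.mem_image.1 ht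
    rw [Finset.mem_filter] at hs' ht'
    exact H n K hK hT s t ((hP s).1 hs'.1) ((hP t).1 ht'.1) (hs'.2.trans ht'.2.symm)
  obtain ⟨π, h1, h2, h3, h4⟩ := exists_finite_rank _ (hc true) _ _ rfl (hc false) U hU
  refine ⟨π, h1, h2, fun r hr => ?_⟩
  cases hcr : col r
  · exact h3 _ (Finset.mem_image_of_mem _ (Finset.mem_filter.2 ⟨(hP r).2 hr, hcr⟩))
  · exact h4 _ (Finset.mem_image_of_mem _ (Finset.mem_filter.2 ⟨(hP r).2 hr, hcr⟩))

theorem lift_lift {X Y Z : Type} (ψ : Y → FA F Z) (φ : X → FA F Y) (f : FA F X) :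
    FreeNonUnitalNonAssocAlgebra.lift F ψ (FreeNonUnitalNonAssocAlgebra.lift F φ f) =
      FreeNonUnitalNonAssocAlgebra.lift F
        (fun i => FreeNonUnitalNonAssocAlgebra.lift F ψ (φ i)) f := by
  have : (FreeNonUnitalNonAssocAlgebra.lift F ψ).comp (FreeNonUnitalNonAssocAlgebra.lift F φ) =
      FreeNonUnitalNonAssocAlgebra.lift F
        (fun i => FreeNonUnitalNonAssocAlgebra.lift F ψ (φ i)) := by
    apply FreeNonUnitalNonAssocAlgebra.hom_ext
    intro x
    simp
  exact DFunLike.congr_fun this f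

theorem val_le_of_below {X : Type} (I : Set (FA F ℕ)) (K : Submodule F (FA F X)) (hK : IsIdeal K)
    (hT : TVal I X ⊆ K) {s t : FreeMagma ℕ} (h : Below I s t) :
    val (quotMul K hK) s ≤ val (quotMul K hK) t := by
  rw [val, Submodule.span_le]
  rintro _ ⟨ψ, rfl⟩
  choose ψ' hψ' using fun i => K.mkQ_surjective (ψ i)
  let L : FA F ℕ →ₗ[F] FA F X :=
    { toFun := FreeNonUnitalNonAssocAlgebra.lift F ψ'
      map_add' := map_add _
      map_smul' := map_smul _ }
  have hL : ∀ f, L f = FreeNonUnitalNonAssocAlgebra.lift F ψ' f := fun _ => rfl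
  have e : evm (quotMul K hK) ψ s = (K.mkQ ∘ₗ L) (mon F s) := by
    rw [LinearMap.comp_apply, hL, hom_lift_mon _ _ (mkQ_mul K hK)]
    simp only [hψ']
  have hle : Submodule.span F (Set.range fun φ : ℕ → FA F ℕ =>
      FreeNonUnitalNonAssocAlgebra.lift F φ (mon F t)) ⊔ idealGen (TVal I ℕ) ≤
      (val (quotMul K hK) t).comap (K.mkQ ∘ₗ L) := by
    refine sup_le (Submodule.span_le.2 ?_) ?_
    · rintro _ ⟨φ, rfl⟩
      rw [SetLike.mem_coe, Submodule.mem_comap, LinearMap.comp_apply, hL, lift_lift,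
        hom_lift_mon _ _ (mkQ_mul K hK)]
      exact evm_mem_val _ _ _
    · refine (idealGen_le (J := LinearMap.ker (K.mkQ ∘ₗ L))
        (isIdeal_ker (quotMul K hK) _ fun f g => ?_) ?_).trans ?_
      · rw [LinearMap.comp_apply, hL, map_mul, mkQ_mul]; rfl
      · rintro _ ⟨f, hf, φ, rfl⟩
        rw [SetLike.mem_coe, LinearMap.mem_ker, LinearMap.comp_apply, hL, lift_lift,
          Submodule.mkQ_apply, Submodule.Quotient.mk_eq_zero]
        exact hT ⟨f, hf, _, rfl⟩
      · intro x hx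
        rw [Submodule.mem_comap, LinearMap.mem_ker.1 hx]
        exact zero_mem _
  change evm (quotMul K hK) ψ s ∈ _
  rw [e]
  exact hle h

theorem multilinear_of_subterm {X : Type} (w : FreeMagma X) (hw : Multilinear w) :
    ∀ r ∈ subterms w, Multilinear r := by
  induction w using FreeMagma.rec with
  | of x => simp [subterms]
  | mul s t hs ht =>
    obtain ⟨h1, h2, -⟩ := disj_of_multilinear (s := s) (t := t) hw
    intro r hr
    simp only [subterms, List.mem_cons, List.mem_append] at hr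
    rcases hr with rfl | hr | hr
    · exact hw
    · exact hs h1 r hr
    · exact ht h2 r hr

theorem rfd_of_ref (D : Finset (F × F × FreeMagma ℕ × FreeMagma ℕ))
    (hD : ∀ d ∈ D, Multilinear (d.2.2.1 * d.2.2.2)) (col : FreeMagma ℕ → Bool)
    (H : ∀ s t, Psub D s → Psub D t → col s = col t → Ref s t = true ∨ Ref t s = true) :
    IsRFDVariety (ids D) := by
  have hm : ∀ r, Psub D r → Multilinear r := by
    rintro r ⟨d, hd, h | h⟩
    · exact multilinear_of_subterm _ (disj_of_multilinear (hD d hd)).1 r h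
    · exact multilinear_of_subterm _ (disj_of_multilinear (hD d hd)).2.1 r h
  refine rfd_of_two_chains D hD col fun n K hK _ s t hs ht hc => ?_
  rcases H s t hs ht hc with h | h
  · exact Or.inr (val_le_of_ref _ s (hm s hs) t h)
  · exact Or.inl (val_le_of_ref _ t (hm t ht) s h)

end Pool.Agent.Lib.MP_038c09_al
end
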