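import Pool.Agent.Lib.MP_038c09_al.Row
import Pool.Agent.Lib.MP_038c09_al.UndDefs
import Pool.Agent.Lib.MP_038c09_al.Eval

-- part Pool.Agent.Lib.MP_038c09_al.Code
section

/-!
A synchronising block code in the two letters `true` (right) and `false` (left).
-/

namespace Pool.Agent.Lib.MP_038c09_al

open List

/-- Coding data for an alphabet. -/
structure Cd (Γ : Type) where
  K : ℕ
  ix : Γ → ℕ
  hix : ∀ γ, ix γ < K
  inj : Function.Injective ix
  lb : Γ
  rb : Γ

variable {Γ : Type}

theorem suf_rep {α : Type} {x : α} : ∀ (a : ℕ) {t1 t r : List α}, t1 ++ t = replicate a x ++ r →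
    (∃ a' ≤ a, t = replicate a' x ++ r ∧ t1 = replicate (a - a') x) ∨
      ∃ t2, t2 ≠ [] ∧ t1 = replicate a x ++ t2 ∧ t2 ++ t = r
  | 0, t1, t, r, h => by
    by_cases h1 : t1 = []
    · subst h1; exact Or.inl ⟨0, le_rfl, by simpa using h, by simp⟩
    · exact Or.inr ⟨t1, h1, by simp, by simpa using h⟩
  | a + 1, [], t, r, h => Or.inl ⟨a + 1, le_rfl, by simpa using h, by simp⟩
  | a + 1, y :: t1, t, r, h => by
    rw [replicate_succ, cons_append, cons_append, cons.injEq] at h
    obtain ⟨rfl, h⟩ := h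
    rcases suf_rep a h with ⟨a', ha, h1, h2⟩ | ⟨t2, h1, h2, h3⟩
    · refine Or.inl ⟨a', by omega, h1, ?_⟩
      rw [h2, show a + 1 - a' = (a - a') + 1 by omega, replicate_succ]
    · exact Or.inr ⟨t2, h1, by rw [h2, replicate_succ, cons_append], h3⟩

namespace Cd

variable (c : Cd Γ)

/-- block without its last letter -/
def bd (γ : Γ) : List Bool :=
  true :: true :: (replicate (c.ix γ + 1) false ++ true :: replicate (c.K - 1 - c.ix γ) false)

/-- block -/
def cd (γ : Γ) : List Bool := c.bd γ ++ [false]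

/-- code of a word -/
def κ (P : List Γ) : List Bool := P.flatMap c.cd

/-- block length -/
def ℓ : ℕ := c.K + 4

theorem length_bd (γ : Γ) : (c.bd γ).length = c.K + 3 := by
  have := c.hix γ
  simp [bd]; omega

theorem length_cd (γ : Γ) : (c.cd γ).length = c.ℓ := by simp [cd, length_bd, ℓ]

@[simp] theorem κ_nil : c.κ [] = [] := rfl

@[simp] theorem κ_cons (γ : Γ) (P : List Γ) : c.κ (γ :: P) = c.cd γ ++ c.κ P := by simp [κ]

@[simp] theorem κ_append (P Q : List Γ) : c.κ (P ++ Q) = c.κ P ++ c.κ Q := by simp [κ]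

theorem length_κ (P : List Γ) : (c.κ P).length = P.length * c.ℓ := by
  induction P with
  | nil => simp
  | cons γ P ih => simp [ih, length_cd]; ring

theorem cd_eq (γ : Γ) : c.cd γ = true :: true :: (replicate (c.ix γ + 1) false ++
    true :: replicate (c.K - 1 - c.ix γ + 1) false) := by
  simp [cd, bd, replicate_succ']

theorem cd_eq' (γ : Γ) : ∃ r, c.cd γ = true :: true :: false :: r :=
  ⟨_, by rw [cd_eq, replicate_succ, cons_append]⟩

theorem cd_inj {γ γ' : Γ} (h : c.cd γ = c.cd γ') : γ = γ' := by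
  apply c.inj
  rw [cd_eq, cd_eq] at h
  simp only [cons.injEq, true_and] at h
  have h1 := congrArg (fun l => (l.takeWhile (fun b => !b)).length) h
  simpa [takeWhile_append, takeWhile_replicate] using h1

/-- proper suffixes of a block -/
theorem suf_cd {γ : Γ} {t1 t : List Bool} (h : c.cd γ = t1 ++ t) (h1 : t1 ≠ []) (h2 : t ≠ []) :
    (∃ r, t = true :: false :: r) ∨ (∃ a ≤ c.K, ∃ r, 0 < a ∧ t = replicate a false ++ true :: r) ∨
      ∃ a ≤ c.K, 0 < a ∧ t = replicate a false := by
  have hk := c.hix γ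
  rw [cd_eq] at h
  obtain ⟨x, t1, rfl⟩ := exists_cons_of_ne_nil h1
  rw [cons_append, cons.injEq] at h
  obtain ⟨-, h⟩ := h
  cases t1 with
  | nil => exact Or.inl ⟨_, by rw [nil_append] at h; rw [← h, replicate_succ, cons_append]⟩
  | cons y t1 =>
    rw [cons_append, cons.injEq] at h
    obtain ⟨-, h⟩ := h
    rcases suf_rep _ h.symm with ⟨a, ha, h3, -⟩ | ⟨t2, h3, -, h4⟩
    · rcases Nat.eq_zero_or_pos a with rfl | h0
      · exact Or.inl ⟨_, by rw [h3, replicate_succ]; rfl⟩
      · exact Or.inr (Or.inl ⟨a, by omega, _, h0, h3⟩)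
    · obtain ⟨z, t2, rfl⟩ := exists_cons_of_ne_nil h3
      rw [cons_append, cons.injEq] at h4
      obtain ⟨-, h4⟩ := h4
      rcases suf_rep (r := []) _ (by simpa using h4) with ⟨a, ha, h5, -⟩ | ⟨t3, h5, -, h6⟩
      · refine Or.inr (Or.inr ⟨a, by omega, ?_, by simpa using h5⟩)
        rcases Nat.eq_zero_or_pos a with rfl | h0
        · exact absurd (by simpa using h5) h2
        · exact h0
      · simp at h6; exact absurd h6.1 h5

/-- suffixes of `κ P ++ R^n` -/
theorem suf_κ {n : ℕ} : ∀ (P : List Γ) {p z : List Bool}, p ++ z = c.κ P ++ replicate n true →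
    (∃ P1 P2, P = P1 ++ P2 ∧ p = c.κ P1 ∧ z = c.κ P2 ++ replicate n true) ∨
    (∃ P1 γ P2 t1 t, P = P1 ++ γ :: P2 ∧ c.cd γ = t1 ++ t ∧ t1 ≠ [] ∧ t ≠ [] ∧
      z = t ++ (c.κ P2 ++ replicate n true)) ∨ ∃ n', z = replicate n' true
  | [], p, z, h => by
    rcases suf_rep (r := []) n (by simpa using h) with ⟨a, -, h5, -⟩ | ⟨t3, h5, -, h6⟩
    · exact Or.inr (Or.inr ⟨a, by simpa using h5⟩)
    · simp at h6; exact absurd h6.1 h5
  | γ :: P, p, z, h => by
    rw [κ_cons, append_assoc, append_eq_append_iff] at h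
    rcases h with ⟨a, h1, h2⟩ | ⟨a, h1, h2⟩
    · by_cases hp : p = []
      · subst hp
        exact Or.inl ⟨[], γ :: P, rfl, rfl, by rw [h2, κ_cons, h1]; simp⟩
      by_cases ha : a = []
      · subst ha
        exact Or.inl ⟨[γ], P, rfl, by simpa using h1.symm, by simpa using h2⟩
      exact Or.inr (Or.inl ⟨[], γ, P, p, a, rfl, h1, hp, ha, h2⟩)
    · rcases suf_κ P h2.symm with ⟨P1, P2, e1, e2, e3⟩ | ⟨P1, δ, P2, t1, t, e1, e2⟩ | e
      · exact Or.inl ⟨γ :: P1, P2, by simp [e1], by simp [h1, e2], e3⟩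
      · exact Or.inr (Or.inl ⟨γ :: P1, δ, P2, t1, t, by simp [e1], e2⟩)
      · exact Or.inr (Or.inr e)

/-- a tail starts with a right letter or is empty -/
theorem tail_head (P : List Γ) (n : ℕ) :
    c.κ P ++ replicate n true = [] ∨ ∃ r, c.κ P ++ replicate n true = true :: r := by
  cases P with
  | nil => cases n with
    | zero => simp
    | succ n => exact Or.inr ⟨_, by simp [replicate_succ]; rfl⟩
  | cons γ P =>
    obtain ⟨r, hr⟩ := c.cd_eq' γ
    exact Or.inr ⟨_, by rw [κ_cons, hr]; rfl⟩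

theorem tail_rr (P : List Γ) (n : ℕ) {v : List Bool} (hv : v <+: c.κ P ++ replicate n true)
    (h2 : 2 ≤ v.length) : [true, true] <+: v := by
  obtain ⟨s, hs⟩ := hv
  match v, h2 with
  | a :: b :: v, _ =>
    cases P with
    | nil =>
      have h1 : a ∈ replicate n true := by rw [κ_nil, nil_append] at hs; rw [← hs]; simp
      have h3 : b ∈ replicate n true := by rw [κ_nil, nil_append] at hs; rw [← hs]; simp
      rw [(mem_replicate.1 h1).2, (mem_replicate.1 h3).2]
      exact ⟨v, rfl⟩
    | cons γ P =>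
      obtain ⟨r, hr⟩ := c.cd_eq' γ
      rw [κ_cons, hr] at hs
      simp only [cons_append, cons.injEq] at hs
      rw [hs.1, hs.2.1]
      exact ⟨v, rfl⟩

/-- synchronisation at a double right letter -/
theorem sync_rr {m n : ℕ} {P : List Γ} {p z : List Bool}
    (h : p ++ z = replicate m false ++ (c.κ P ++ replicate n true)) (hz : [true, true] <+: z) :
    (∃ P1 P2, P = P1 ++ P2 ∧ p = replicate m false ++ c.κ P1 ∧ z = c.κ P2 ++ replicate n true) ∨
      ∃ n', z = replicate n' true := by
  obtain ⟨s, rfl⟩ := hz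
  rcases suf_rep _ h with ⟨a, ha, h1, h2⟩ | ⟨t2, -, h2, h3⟩
  · cases a with
    | zero => exact Or.inl ⟨[], P, rfl, by simpa using h2, by simpa using h1⟩
    | succ a => simp [replicate_succ] at h1
  · rcases c.suf_κ P h3 with ⟨P1, P2, e1, e2, e3⟩ | ⟨P1, δ, P2, t1, t, e1, e2, e3, e4, e5⟩ | e
    · exact Or.inl ⟨P1, P2, e1, by rw [h2, e2], e3⟩
    · exfalso
      rcases c.suf_cd e2 e3 e4 with ⟨r, rfl⟩ | ⟨a, -, r, h0, rfl⟩ | ⟨a, -, h0, rfl⟩
      · simp at e5
      · obtain ⟨a, rfl⟩ := Nat.exists_eq_succ_of_ne_zero h0.ne'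
        simp [replicate_succ] at e5
      · obtain ⟨a, rfl⟩ := Nat.exists_eq_succ_of_ne_zero h0.ne'
        simp [replicate_succ] at e5
    · exact Or.inr e

theorem rep_prefix_le {a b : ℕ} {r : List Bool} (hr : r = [] ∨ ∃ r', r = true :: r')
    (h : replicate b false <+: replicate a false ++ r) : b ≤ a := by
  induction a generalizing b with
  | zero =>
    cases b with
    | zero => exact le_rfl
    | succ b =>
      rcases hr with rfl | ⟨r', rfl⟩
      · simp [replicate_succ] at h
      · simp [replicate_succ, cons_prefix_cons] at h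
  | succ a ih =>
    cases b with
    | zero => omega
    | succ b =>
      rw [replicate_succ, replicate_succ, cons_append, cons_prefix_cons] at h
      exact Nat.succ_le_succ (ih h.2)

/-- synchronisation at a long run of left letters -/
theorem sync_ll {m n : ℕ} {P : List Γ} {p z : List Bool}
    (h : p ++ z = replicate m false ++ (c.κ P ++ replicate n true))
    (hz : replicate (c.K + 1) false <+: z) :
    ∃ a ≤ m, z = replicate a false ++ (c.κ P ++ replicate n true) ∧ p = replicate (m - a) false := by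
  rcases suf_rep _ h with h1 | ⟨t2, -, h2, h3⟩
  · exact h1
  · exfalso
    rcases c.suf_κ P h3 with ⟨P1, P2, e1, e2, e3⟩ | ⟨P1, δ, P2, t1, t, e1, e2, e3, e4, e5⟩ | ⟨n', e⟩
    · have := rep_prefix_le (a := 0) (c.tail_head P2 n) (by simpa [e3] using hz)
      omega
    · rcases c.suf_cd e2 e3 e4 with ⟨r, rfl⟩ | ⟨a, ha, r, h0, rfl⟩ | ⟨a, ha, h0, rfl⟩
      · simp [e5, replicate_succ, cons_prefix_cons] at hz
      · have := rep_prefix_le (a := a) (Or.inr ⟨_, rfl⟩) (by simpa [e5] using hz)
        omega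
      · have := rep_prefix_le (a := a) (c.tail_head P2 n) (by simpa [e5] using hz)
        omega
    · have := rep_prefix_le (a := 0) (c.tail_head [] n') (by simpa [e] using hz)
      omega

/-- from a right letter a tail is reached within one block -/
theorem sync_r {m n : ℕ} {P : List Γ} {p z : List Bool}
    (h : p ++ true :: z = replicate m false ++ (c.κ P ++ replicate n true)) :
    ∃ t P2 n', t.length < c.ℓ ∧ true :: z = t ++ (c.κ P2 ++ replicate n' true) := by
  have hl : 0 < c.ℓ := by simp [ℓ]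
  rcases suf_rep _ h with ⟨a, ha, h1, h2⟩ | ⟨t2, -, h2, h3⟩
  · cases a with
    | zero => exact ⟨[], P, n, hl, by simpa using h1⟩
    | succ a => simp [replicate_succ] at h1
  · rcases c.suf_κ P h3 with ⟨P1, P2, e1, e2, e3⟩ | ⟨P1, δ, P2, t1, t, e1, e2, e3, e4, e5⟩ | ⟨n', e⟩
    · exact ⟨[], P2, n, hl, by simpa using e3⟩
    · refine ⟨t, P2, n, ?_, e5⟩
      have := congrArg length e2
      rw [length_cd, length_append] at this
      have := length_pos_iff.2 e3
      omega
    · exact ⟨[], [], n', hl, by simpa using e⟩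

/-- the code is a prefix code -/
theorem κ_prefix {n : ℕ} : ∀ (z : List Γ) {P : List Γ} {s : List Bool},
    c.κ z ++ s = c.κ P ++ replicate n true → ∃ P3, P = z ++ P3 ∧ s = c.κ P3 ++ replicate n true
  | [], P, s, h => ⟨P, rfl, by simpa using h⟩
  | γ :: z, [], s, h => by
    obtain ⟨r, hr⟩ := c.cd_eq' γ
    have : false ∈ replicate n true := by
      rw [κ_nil, nil_append] at h; rw [← h, κ_cons, hr]; simp
    simp at this
  | γ :: z, δ :: P, s, h => by
    rw [κ_cons, κ_cons, append_assoc, append_assoc] at h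
    obtain ⟨h1, h2⟩ := append_inj h (by rw [length_cd, length_cd])
    obtain ⟨P3, e1, e2⟩ := κ_prefix z h2
    exact ⟨P3, by rw [c.cd_inj h1, e1]; rfl, e2⟩

theorem κ_rr {z : List Γ} (hz : z ≠ []) (s : List Bool) :
    ∃ r, c.κ z ++ s = true :: true :: false :: r := by
  obtain ⟨γ, z, rfl⟩ := exists_cons_of_ne_nil hz
  obtain ⟨r, hr⟩ := c.cd_eq' γ
  exact ⟨_, by rw [κ_cons, hr]; rfl⟩

/-- an occurrence of a coded word is aligned with the blocks -/
theorem sync_κ {m n : ℕ} {P z : List Γ} {p s : List Bool} (hz : z ≠ [])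
    (h : p ++ (c.κ z ++ s) = replicate m false ++ (c.κ P ++ replicate n true)) :
    ∃ P1 P3, P = P1 ++ z ++ P3 ∧ p = replicate m false ++ c.κ P1 ∧
      s = c.κ P3 ++ replicate n true := by
  obtain ⟨r, hr⟩ := c.κ_rr hz s
  rcases c.sync_rr h (by rw [hr]; exact ⟨_, rfl⟩) with ⟨P1, P2, e1, e2, e3⟩ | ⟨n', e⟩
  · obtain ⟨P3, e4, e5⟩ := c.κ_prefix z e3
    exact ⟨P1, P3, by rw [e1, e4, append_assoc], e2, e5⟩
  · have : false ∈ replicate n' true := by rw [← e, hr]; simp
    simp at this

end Cd

end Pool.Agent.Lib.MP_038c09_al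
end

-- part Pool.Agent.Lib.MP_038c09_al.Parse
section

/-!
Words all of whose short factors are factors of coded complete words.
-/

namespace Pool.Agent.Lib.MP_038c09_al

open List

variable {Γ : Type}

namespace Cd

variable (c : Cd Γ)

/-- factor of a coded complete word with paddings -/
def Fac (Z : List Bool) : Prop :=
  ∃ m n P, Complete c.lb c.rb P ∧ Z <:+: replicate m false ++ (c.κ P ++ replicate n true)

/-- window length -/
def W : ℕ := 2 * c.K + 10

/-- all short factors are allowed -/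
def NoKill (w : List Bool) : Prop := ∀ Z, Z <:+: w → Z.length ≤ c.W → c.Fac Z

variable {c}

theorem complete_ne_nil {lb rb : Γ} {P : List Γ} (h : Complete lb rb P) : P ≠ [] := by
  rintro rfl
  simp [Complete] at h

theorem NoKill.sub {w w' : List Bool} (h : c.NoKill w) (hw : w' <:+: w) : c.NoKill w' :=
  fun Z hZ => h Z (hZ.trans hw)

theorem fac_rr {Z : List Bool} (h : c.Fac Z) (hz : [true, true] <+: Z) :
    ∃ P2 n, (P2 = [] ∨ P2.getLast? = some c.rb) ∧ Z <+: c.κ P2 ++ replicate n true := by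
  obtain ⟨m, n, P, hP, p, s, e⟩ := h
  rw [append_assoc] at e
  rcases c.sync_rr e (hz.trans (prefix_append _ _)) with ⟨P1, P2, e1, -, e3⟩ | ⟨n', e3⟩
  · refine ⟨P2, n, ?_, e3 ▸ prefix_append _ _⟩
    by_cases h2 : P2 = []
    · exact Or.inl h2
    · right
      have := hP.2
      rwa [e1, getLast?_append_of_ne_nil _ h2] at this
  · exact ⟨[], n', Or.inl rfl, by rw [κ_nil, nil_append, ← e3]; exact prefix_append _ _⟩

theorem not_fac_rrrl : ¬ c.Fac [true, true, true, false] := by
  intro h
  obtain ⟨P2, n, -, s, hs⟩ := fac_rr h ⟨_, rfl⟩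
  by_cases h2 : P2 = []
  · subst h2
    have : false ∈ replicate n true := by rw [κ_nil, nil_append] at hs; rw [← hs]; simp
    simp at this
  · obtain ⟨r, hr⟩ := c.κ_rr h2 (replicate n true)
    rw [hr] at hs
    simp at hs

theorem not_fac_rl : ¬ c.Fac (true :: replicate (c.K + 1) false) := by
  rintro ⟨m, n, P, -, p, s, e⟩
  have e' : (p ++ [true]) ++ (replicate (c.K + 1) false ++ s) =
      replicate m false ++ (c.κ P ++ replicate n true) := by rw [← e]; simp
  obtain ⟨a, -, -, h⟩ := c.sync_ll e' (prefix_append _ _)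
  have : true ∈ replicate (m - a) false := by rw [← h]; simp
  simp at this

theorem all_r {w : List Bool} (hw : c.NoKill (true :: true :: true :: w)) :
    w = replicate w.length true := by
  induction w with
  | nil => rfl
  | cons b w ih =>
    cases b with
    | false => exact absurd (hw _ ⟨[], w, rfl⟩ (by simp [W])) not_fac_rrrl
    | true =>
      rw [length_cons, replicate_succ, ← ih (hw.sub ⟨[true], [], by simp⟩)]

theorem prefix_of_take {α : Type} {w y : List α} {k : ℕ} {u r : List α} (h : w.take k <+: y)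
    (e : y = u ++ r) (hu : u.length ≤ k) (hw : u.length ≤ w.length) :
    ∃ w2, w = u ++ w2 ∧ w2.take (k - u.length) <+: r := by
  have h1 : u <+: w.take k := by
    refine prefix_of_prefix_length_le (e ▸ prefix_append _ _) h ?_
    simp; omega
  obtain ⟨w2, rfl⟩ := h1.trans (take_prefix _ _)
  refine ⟨w2, rfl, ?_⟩
  rw [take_append, take_of_length_le hu, e, prefix_append_right_inj] at h
  exact h

theorem parse_rr (N : ℕ) : ∀ w : List Bool, w.length ≤ N → c.NoKill w →
    (w.length < 2 ∨ [true, true] <+: w) → ∃ P t, w = c.κ P ++ t ∧ (t.length < c.ℓ ∨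
      ∃ n, 3 ≤ n ∧ t = replicate n true ∧ (P = [] ∨ P.getLast? = some c.rb)) := by
  induction N with
  | zero => exact fun w h _ _ => ⟨[], w, rfl, Or.inl (by simp [ℓ]; omega)⟩
  | succ N ih =>
    intro w hN hw h2
    by_cases hl : w.length < c.ℓ
    · exact ⟨[], w, rfl, Or.inl hl⟩
    have hl4 : 4 ≤ c.ℓ := by simp [ℓ]
    have h2' : [true, true] <+: w := h2.resolve_left (by omega)
    have hZ : c.Fac (w.take (c.ℓ + 3)) :=
      hw _ (take_prefix _ _).isInfix (by simp [W, ℓ]; omega)
    obtain ⟨P2, n, hP2, hp⟩ := fac_rr hZ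
      (prefix_of_prefix_length_le h2' (take_prefix _ _) (by simp; omega))
    cases P2 with
    | nil =>
      match w, hl with
      | a :: b :: d :: w, hl =>
        have hm : ∀ x ∈ (a :: b :: d :: w).take (c.ℓ + 3), x = true := fun x hx =>
          (mem_replicate.1 (by simpa using hp.subset hx)).2
        obtain rfl := hm a (by simp)
        obtain rfl := hm b (by simp)
        obtain rfl := hm d (by simp)
        refine ⟨[], _, rfl, Or.inr ⟨w.length + 3, by omega, ?_, Or.inl rfl⟩⟩
        conv_lhs => rw [all_r hw]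
        rfl
      | [], hl => simp at hl; omega
      | [_], hl => simp at hl; omega
      | [_, _], hl => simp at hl; omega
    | cons γ P3 =>
      obtain ⟨w2, rfl, h3⟩ := prefix_of_take hp (u := c.cd γ) (by rw [κ_cons, append_assoc])
        (by rw [length_cd]; omega) (by rw [length_cd]; omega)
      rw [length_cd, Nat.add_sub_cancel_left] at h3
      have h4 : w2.length < 2 ∨ [true, true] <+: w2 := by
        by_cases h5 : w2.length < 2
        · exact Or.inl h5
        · exact Or.inr ((c.tail_rr P3 n h3 (by simp; omega)).trans (take_prefix _ _))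
      obtain ⟨P, t, e, ht⟩ := ih w2 (by rw [length_append, length_cd] at hN; omega)
        (hw.sub (suffix_append _ _).isInfix) h4
      refine ⟨γ :: P, t, by rw [κ_cons, e, append_assoc], ht.imp id ?_⟩
      rintro ⟨n', hn', rfl, hP⟩
      refine ⟨n', hn', rfl, Or.inr ?_⟩
      cases P with
      | cons δ P => simpa using hP
      | nil =>
        by_cases h6 : P3 = []
        · subst h6; simpa using hP2
        · exfalso
          obtain ⟨r, hr⟩ := c.κ_rr h6 (replicate n true)
          obtain ⟨k, rfl⟩ := Nat.exists_eq_add_of_le' hn'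
          rw [hr, e] at h3
          simp [replicate_succ, cons_prefix_cons] at h3

theorem split_l (w : List Bool) :
    ∃ m w1, w = replicate m false ++ w1 ∧ (w1 = [] ∨ ∃ r, w1 = true :: r) := by
  induction w with
  | nil => exact ⟨0, [], rfl, Or.inl rfl⟩
  | cons b w ih =>
    cases b with
    | true => exact ⟨0, _, rfl, Or.inr ⟨_, rfl⟩⟩
    | false =>
      obtain ⟨m, w1, e, h⟩ := ih
      exact ⟨m + 1, w1, by rw [e]; rfl, h⟩

theorem rep_cancel {a b : ℕ} {r r' s : List Bool}
    (h : replicate a false ++ true :: r ++ s = replicate b false ++ true :: r') :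
    a = b ∧ r ++ s = r' := by
  induction a generalizing b with
  | zero => cases b with
    | zero => simpa using h
    | succ b => simp [replicate_succ] at h
  | succ a ih => cases b with
    | zero => simp [replicate_succ] at h
    | succ b =>
      simp only [replicate_succ, cons_append, cons.injEq, true_and] at h
      have := ih h
      exact ⟨by omega, this.2⟩

/-- words that start with a long run of left letters -/
theorem parse_a {w : List Bool} (hw : c.NoKill w) (h : replicate (c.K + 1) false <+: w) :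
    ∃ m P t, w = replicate m false ++ (c.κ P ++ t) ∧
      (t.length < c.ℓ ∨ Complete c.lb c.rb P) := by
  have hl4 : 4 ≤ c.ℓ := by simp [ℓ]
  obtain ⟨m, w1, rfl, h1⟩ := split_l w
  have hm := rep_prefix_le h1 h
  rcases h1 with rfl | ⟨r, rfl⟩
  · exact ⟨m, [], [], by simp, Or.inl (by simp; omega)⟩
  obtain ⟨k, rfl⟩ := Nat.exists_eq_add_of_le' hm
  have hZ : c.Fac (replicate (c.K + 1) false ++ (true :: r).take (c.ℓ + 3)) := by
    refine hw _ ⟨replicate k false, (true :: r).drop (c.ℓ + 3), ?_⟩ (by simp [W, ℓ]; omega)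
    rw [replicate_add k, append_assoc, append_assoc, append_assoc, take_append_drop]
  obtain ⟨m', n, P0, hP0, p, s, e⟩ := hZ
  rw [append_assoc] at e
  obtain ⟨a, -, e1, -⟩ := c.sync_ll e (by rw [append_assoc]; exact prefix_append _ _)
  obtain ⟨r0, hr0⟩ := c.κ_rr (complete_ne_nil hP0) (replicate n true)
  have hp : (true :: r).take (c.ℓ + 3) <+: c.κ P0 ++ replicate n true := by
    rw [hr0, take_succ_cons] at e1
    rw [hr0, take_succ_cons, ← (rep_cancel e1).2]
    exact ⟨s, rfl⟩
  have h4 : (true :: r).length < 2 ∨ [true, true] <+: true :: r := by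
    by_cases h5 : (true :: r).length < 2
    · exact Or.inl h5
    · exact Or.inr ((c.tail_rr P0 n hp (by rw [length_take]; omega)).trans (take_prefix _ _))
  obtain ⟨P, t, e2, ht⟩ := parse_rr _ _ le_rfl (hw.sub (suffix_append _ _).isInfix) h4
  refine ⟨_, P, t, by rw [e2], ht.imp id ?_⟩
  rintro ⟨n', hn', rfl, hP⟩
  cases P with
  | nil =>
    exfalso
    obtain ⟨j, rfl⟩ := Nat.exists_eq_add_of_le' hn'
    rw [hr0, e2] at hp
    simp [replicate_succ, cons_prefix_cons] at hp
  | cons γ P =>
    refine ⟨?_, by simpa using hP⟩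
    obtain ⟨δ, P0, rfl⟩ := exists_cons_of_ne_nil (complete_ne_nil hP0)
    obtain ⟨w2, e3, -⟩ := prefix_of_take hp (u := c.cd δ) (by rw [κ_cons, append_assoc])
      (by rw [length_cd]; omega) (by rw [e2, length_cd, κ_cons]; simp [length_cd])
    rw [e2, κ_cons, append_assoc] at e3
    have := c.cd_inj (append_inj e3 (by rw [length_cd, length_cd])).1
    have h0 := hP0.1
    simp only [head?_cons] at h0 ⊢
    rw [this, h0]

/-- words that do not start with a long run of left letters -/
theorem parse_b {w : List Bool} (hw : c.NoKill w) (h : ¬ replicate (c.K + 1) false <+: w) :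
    ∃ q P t, w = q ++ (c.κ P ++ t) ∧ q.length ≤ c.K + c.ℓ ∧
      (t.length < c.ℓ ∨ ∃ n, t = replicate n true) := by
  have hl4 : 4 ≤ c.ℓ := by simp [ℓ]
  obtain ⟨m, w1, rfl, h1⟩ := split_l w
  have hm : m ≤ c.K := by
    by_contra hm
    obtain ⟨k, rfl⟩ := Nat.exists_eq_add_of_le (show c.K + 1 ≤ m by omega)
    exact h (by rw [replicate_add (c.K + 1), append_assoc]; exact prefix_append _ _)
  rcases h1 with rfl | ⟨r, rfl⟩
  · exact ⟨replicate m false, [], [], by simp, by simp; omega, Or.inl (by simp; omega)⟩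
  have hw1 : c.NoKill (true :: r) := hw.sub (suffix_append _ _).isInfix
  obtain ⟨m', n, P0, hP0, p, s, e⟩ := hw1 ((true :: r).take (c.ℓ + 2)) (take_prefix _ _).isInfix
    (by simp [W, ℓ]; omega)
  rw [append_assoc, take_succ_cons, cons_append] at e
  obtain ⟨t, P2, n', ht, e1⟩ := c.sync_r e
  by_cases hr : (true :: r).length < t.length
  · exact ⟨replicate m false ++ true :: r, [], [], by simp, by simp at hr ⊢; omega,
      Or.inl (by simp; omega)⟩
  have hp : (true :: r).take (c.ℓ + 2) <+: t ++ (c.κ P2 ++ replicate n' true) := by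
    rw [← e1, take_succ_cons]; exact ⟨s, rfl⟩
  obtain ⟨w2, e2, h3⟩ := prefix_of_take hp rfl (by omega) (by omega)
  have h4 : w2.length < 2 ∨ [true, true] <+: w2 := by
    by_cases h5 : w2.length < 2
    · exact Or.inl h5
    · exact Or.inr ((c.tail_rr P2 n' h3 (by simp; omega)).trans (take_prefix _ _))
  obtain ⟨P, t', e3, ht'⟩ := parse_rr _ _ le_rfl (hw1.sub (e2 ▸ (suffix_append _ _).isInfix)) h4
  refine ⟨replicate m false ++ t, P, t', by rw [e2, e3, append_assoc], by simp; omega,
    ht'.imp id fun ⟨n, _, h, _⟩ => ⟨n, h⟩⟩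

end Cd

end Pool.Agent.Lib.MP_038c09_al
end

-- part Pool.Agent.Lib.MP_038c09_al.Rel
section

/-!
The identities attached to a rewriting system, and their instances on words.
-/

namespace Pool.Agent.Lib.MP_038c09_al

open List

/-- Coding data together with a rewriting system. -/
structure Sys (Γ : Type) extends Cd Γ where
  mv : Set (List Γ × List Γ)
  kl : Set (List Γ)
  hmv : ∀ m ∈ mv, m.1.length = m.2.length ∧ m.1 ≠ []
  hkl : ∀ z ∈ kl, z ≠ []

variable {Γ X Y : Type}

/-- shape of a word -/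
abbrev shp (w : List (Bool × X)) : List Bool := w.map Prod.fst

/-- arguments of a word -/
abbrev arg (w : List (Bool × X)) : List X := w.map Prod.snd

/-- renaming of arguments -/
abbrev inst (a : X → Y) (w : List (Bool × X)) : List (Bool × Y) := w.map fun p => (p.1, a p.2)

theorem shp_inst (a : X → Y) (w : List (Bool × X)) : shp (inst a w) = shp w := by
  simp [Function.comp_def]

theorem arg_inst (a : X → Y) (w : List (Bool × X)) : arg (inst a w) = (arg w).map a := by
  simp [Function.comp_def]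

/-- shapes in which two arguments are exchanged -/
inductive SwapShape (c : Cd Γ) : Bool → List Bool → Bool → List Bool → ℤ → Prop
  | rr : SwapShape c true [] true [] 1
  | lll : SwapShape c false [] false [false] 1
  | llr : SwapShape c false [false] true [] 1
  | blk (γ : Γ) : SwapShape c true (c.cd γ).tail true [] 1
  | skew (γ : Γ) : SwapShape c false (c.bd γ) false [true, true] (-1)

/-- forbidden shapes -/
def Sys.KillShape (s : Sys Γ) (Z : List Bool) : Prop :=
  (Z.length ≤ s.W ∧ ¬ s.Fac Z) ∨ ∃ z ∈ s.kl, Z = s.κ z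

/-- the relations `w = e w'` between words -/
inductive Rl (s : Sys Γ) : List (Bool × X) → ℤ → List (Bool × X) → Prop
  | kill (w : List (Bool × X)) : s.KillShape (shp w) → Rl s w 0 w
  | move (u u' : List Γ) (w w' : List (Bool × X)) : (u, u') ∈ s.mv → shp w = s.κ u →
      shp w' = s.κ u' → arg w = arg w' → Rl s w 1 w'
  | swap (b1 : Bool) (x : X) (w1 : List (Bool × X)) (b2 : Bool) (y : X) (w2 : List (Bool × X))
      (e : ℤ) : SwapShape s.toCd b1 (shp w1) b2 (shp w2) e →
      Rl s ((b1, x) :: (w1 ++ (b2, y) :: w2)) e ((b1, y) :: (w1 ++ (b2, x) :: w2))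

/-- data of a vanishing identity -/
def kD (Z : List Bool) : IdData := (Z.zipIdx 2, 0, Z.zipIdx 2)

/-- data of a rewriting identity -/
def mD (Z Z' : List Bool) : IdData := (Z.zipIdx 2, 1, Z'.zipIdx 2)

/-- data of an exchange identity -/
def sD (b1 : Bool) (Z1 : List Bool) (b2 : Bool) (Z2 : List Bool) (e : ℤ) : IdData :=
  ((b1, 2) :: (Z1.zipIdx 4 ++ (b2, 3) :: Z2.zipIdx (4 + Z1.length)), e,
    (b1, 3) :: (Z1.zipIdx 4 ++ (b2, 2) :: Z2.zipIdx (4 + Z1.length)))

/-- the identities of the system -/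
def Sys.Ids (s : Sys Γ) : Set IdData :=
  {d | (∃ Z, s.KillShape Z ∧ d = kD Z) ∨ (∃ u u', (u, u') ∈ s.mv ∧ d = mD (s.κ u) (s.κ u')) ∨
    ∃ b1 Z1 b2 Z2 e, SwapShape s.toCd b1 Z1 b2 Z2 e ∧ d = sD b1 Z1 b2 Z2 e}

/-- multilinearity conditions -/
def GoodD (d : IdData) : Prop :=
  (arg d.1).Nodup ∧ arg d.2.2 ~ arg d.1 ∧ ∀ i ∈ arg d.1, 2 ≤ i

theorem Sys.κ_len (s : Sys Γ) {u u' : List Γ} (h : (u, u') ∈ s.mv) :
    (s.κ u).length = (s.κ u').length := by
  rw [s.length_κ, s.length_κ, (s.hmv _ h).1]

theorem Sys.good_ids (s : Sys Γ) {d : IdData} (h : d ∈ s.Ids) : GoodD d := by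
  rcases h with ⟨Z, -, rfl⟩ | ⟨u, u', h, rfl⟩ | ⟨b1, Z1, b2, Z2, e, -, rfl⟩
  · refine ⟨?_, Perm.refl _, ?_⟩ <;> simp only [kD, arg, zipIdx_map_snd]
    · exact nodup_range'
    · intro i hi; exact (mem_range'_1.1 hi).1
  · refine ⟨?_, ?_, ?_⟩ <;> simp only [mD, arg, zipIdx_map_snd]
    · exact nodup_range'
    · rw [s.κ_len h]
    · intro i hi; exact (mem_range'_1.1 hi).1
  · refine ⟨?_, ?_, ?_⟩ <;> simp only [sD, arg, map_cons, map_append, zipIdx_map_snd]
    · simp only [nodup_cons, mem_append, mem_cons, mem_range'_1, nodup_append]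
      refine ⟨by omega, nodup_range', ⟨by omega, nodup_range'⟩, ?_⟩
      intro a ha b hb; omega
    · exact ((perm_middle.cons _).trans (Perm.swap _ _ _)).trans (perm_middle.symm.cons _)
    · intro i hi
      simp only [mem_cons, mem_append, mem_range'_1] at hi
      omega

theorem Sys.rl_of_ids (s : Sys Γ) {d : IdData} (h : d ∈ s.Ids) (a : ℕ → X) :
    Rl s (inst a d.1) d.2.1 (inst a d.2.2) := by
  rcases h with ⟨Z, h, rfl⟩ | ⟨u, u', h, rfl⟩ | ⟨b1, Z1, b2, Z2, e, h, rfl⟩
  · exact Rl.kill _ (by rwa [shp_inst, kD, shp, zipIdx_map_fst])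
  · refine Rl.move u u' _ _ h ?_ ?_ ?_
    · rw [shp_inst, mD, shp, zipIdx_map_fst]
    · rw [shp_inst, mD, shp, zipIdx_map_fst]
    · rw [arg_inst, arg_inst, mD, arg, arg, zipIdx_map_snd, zipIdx_map_snd, s.κ_len h]
  · simp only [sD, inst, map_cons, map_append]
    refine Rl.swap _ _ _ _ _ _ _ ?_
    rwa [shp_inst, shp_inst, shp, shp, zipIdx_map_fst, zipIdx_map_fst]

theorem inst_zipIdx (a : ℕ → X) (w : List (Bool × X)) (k : ℕ)
    (h : ∀ i (hi : i < w.length), a (k + i) = w[i].2) : inst a ((shp w).zipIdx k) = w := by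
  apply ext_getElem
  · simp
  · intro i h1 h2
    simp [h i h2]

theorem Sys.ids_of_rl (s : Sys Γ) (x0 : X) {w w' : List (Bool × X)} {e : ℤ} (h : Rl s w e w') :
    ∃ d ∈ s.Ids, ∃ a : ℕ → X, inst a d.1 = w ∧ d.2.1 = e ∧ inst a d.2.2 = w' := by
  cases h with
  | kill _ h =>
    have := inst_zipIdx (fun i => (arg w).getD (i - 2) x0) w 2 (fun i hi => by simp [hi])
    exact ⟨_, Or.inl ⟨_, h, rfl⟩, _, this, rfl, this⟩
  | move u u' _ _ h h1 h2 h3 =>
    have e1 := inst_zipIdx (fun i => (arg w).getD (i - 2) x0) w 2 (fun i hi => by simp [hi])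
    have e2 := inst_zipIdx (fun i => (arg w').getD (i - 2) x0) w' 2 (fun i hi => by simp [hi])
    rw [← h3] at e2
    exact ⟨_, Or.inr (Or.inl ⟨u, u', h, rfl⟩), _, by rw [← h1]; exact e1, rfl,
      by rw [← h2]; exact e2⟩
  | swap b1 x w1 b2 y w2 _ h =>
    let a : ℕ → X := fun i => (x :: y :: (arg w1 ++ arg w2)).getD (i - 2) x0
    have e1 := inst_zipIdx a w1 4 (fun i hi => by
      simp [a, show 4 + i - 2 = i + 1 + 1 by omega, getElem?_append_left, hi])
    have e2 := inst_zipIdx a w2 (4 + (shp w1).length) (fun i hi => by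
      simp [a, show 4 + w1.length + i - 2 = w1.length + i + 1 + 1 by omega, hi])
    refine ⟨_, Or.inr (Or.inr ⟨_, _, _, _, _, h, rfl⟩), a, ?_, rfl, ?_⟩
    · simp only [sD, inst, map_cons, map_append] at e1 e2 ⊢
      rw [e1, e2]; rfl
    · simp only [sD, inst, map_cons, map_append] at e1 e2 ⊢
      rw [e1, e2]; rfl

end Pool.Agent.Lib.MP_038c09_al
end

-- part Pool.Agent.Lib.MP_038c09_al.Model
section

/-!
The free metabelian algebra as a space of words.
-/

namespace Pool.Agent.Lib.MP_038c09_al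

set_option linter.unusedSectionVars false

open List

variable {F : Type} [Field F] {X : Type} {Γ : Type}

/-- formal combinations of words applied to a product of two generators -/
abbrev PP (F : Type) [Field F] (X : Type) := ((X × X) × List (Bool × X)) →₀ F

/-- basis word -/
noncomputable def bw (F : Type) [Field F] (g : X × X) (w : List (Bool × X)) : PP F X :=
  Finsupp.single (g, w) 1

/-- right action of a word -/
noncomputable def ρ (ε : List (Bool × X)) : PP F X →ₗ[F] PP F X :=
  Finsupp.lmapDomain F F fun gw => (gw.1, gw.2 ++ ε)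

@[simp] theorem ρ_bw (ε : List (Bool × X)) (g : X × X) (w : List (Bool × X)) :
    ρ ε (bw F g w) = bw F g (w ++ ε) := by
  simp [ρ, bw, Finsupp.mapDomain_single]

theorem PP_ind {p : PP F X → Prop} (h0 : p 0) (hadd : ∀ a b, p a → p b → p (a + b))
    (hs : ∀ (c : F) g w, p (c • bw F g w)) (m : PP F X) : p m := by
  induction m using Finsupp.induction_linear with
  | zero => exact h0
  | add a b ha hb => exact hadd a b ha hb
  | single gw c => simpa [bw] using hs c gw.1 gw.2

theorem PP_ext {M : Type} [AddCommGroup M] [Module F M] {f f' : PP F X →ₗ[F] M}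
    (h : ∀ g w, f (bw F g w) = f' (bw F g w)) (m : PP F X) : f m = f' m := by
  induction m using PP_ind with
  | h0 => simp
  | hadd a b ha hb => simp [ha, hb]
  | hs c g w => simp [h]

theorem PP_mem {M : Type} [AddCommGroup M] [Module F M] {f : PP F X →ₗ[F] M} {N : Submodule F M}
    (h : ∀ g w, f (bw F g w) ∈ N) (m : PP F X) : f m ∈ N := by
  induction m using PP_ind with
  | h0 => simp
  | hadd a b ha hb => rw [map_add]; exact N.add_mem ha hb
  | hs c g w => rw [map_smul]; exact N.smul_mem _ (h g w)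

theorem ρ_nil (m : PP F X) : ρ [] m = m :=
  PP_ext (f' := LinearMap.id) (fun g w => by simp) m

theorem ρ_append (ε ε' : List (Bool × X)) (m : PP F X) : ρ (ε ++ ε') m = ρ ε' (ρ ε m) :=
  PP_ext (f' := ρ ε' ∘ₗ ρ ε) (fun g w => by simp) m

/-- closed under the right action -/
def Stable (J : Submodule F (PP F X)) : Prop := ∀ t : Bool × X, ∀ x ∈ J, ρ [t] x ∈ J

theorem Stable.ρ_mem {J : Submodule F (PP F X)} (h : Stable J) (ε : List (Bool × X))
    {x : PP F X} (hx : x ∈ J) : ρ ε x ∈ J := by
  induction ε generalizing x with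
  | nil => rwa [ρ_nil]
  | cons t ε ih => rw [show t :: ε = [t] ++ ε from rfl, ρ_append]; exact ih (h t x hx)

/-- span of the relations in all contexts -/
noncomputable def Rel (F : Type) [Field F] (X : Type) (s : Sys Γ) : Submodule F (PP F X) :=
  Submodule.span F {f | ∃ g p w e w' t, Rl s w e w' ∧
    f = bw F g (p ++ (w ++ t)) - (e : F) • bw F g (p ++ (w' ++ t))}

theorem rel_mem {s : Sys Γ} {w w' : List (Bool × X)} {e : ℤ} (h : Rl s w e w') (g : X × X)
    (p t : List (Bool × X)) :
    bw F g (p ++ (w ++ t)) - (e : F) • bw F g (p ++ (w' ++ t)) ∈ Rel F X s :=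
  Submodule.subset_span ⟨g, p, w, e, w', t, h, rfl⟩

theorem rel_le {s : Sys Γ} {M : Type} [AddCommGroup M] [Module F M] (f : PP F X →ₗ[F] M)
    (N : Submodule F M) (h : ∀ g p w e w' t, Rl s w e w' →
      f (bw F g (p ++ (w ++ t))) - (e : F) • f (bw F g (p ++ (w' ++ t))) ∈ N)
    {x : PP F X} (hx : x ∈ Rel F X s) : f x ∈ N := by
  have : Rel F X s ≤ N.comap f := by
    refine Submodule.span_le.2 ?_
    rintro _ ⟨g, p, w, e, w', t, hr, rfl⟩
    simpa using h g p w e w' t hr
  exact this hx

theorem stable_rel (s : Sys Γ) : Stable (Rel F X s) := fun u _ hx =>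
  rel_le _ _ (fun g p w e w' t hr => by
    simpa using rel_mem (F := F) hr g p (t ++ [u])) hx

theorem rel_ρ {s : Sys Γ} {w w' : List (Bool × X)} {e : ℤ} (h : Rl s w e w') (m : PP F X) :
    ρ w m - (e : F) • ρ w' m ∈ Rel F X s := by
  have := PP_mem (f := (ρ w : PP F X →ₗ[F] PP F X) - (e : F) • ρ w') (N := Rel F X s)
    (fun g p => by
      have := rel_mem (F := F) h g p []
      rw [append_nil, append_nil] at this
      rwa [LinearMap.sub_apply, LinearMap.smul_apply, ρ_bw, ρ_bw]) m
  rwa [LinearMap.sub_apply, LinearMap.smul_apply] at this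

section model

variable [Fintype X] [DecidableEq X]

/-- action of a general argument -/
noncomputable def ρh (b : Bool) : (X → F) →ₗ[F] PP F X →ₗ[F] PP F X :=
  Fintype.linearCombination F fun x => ρ [(b, x)]

theorem ρh_apply (b : Bool) (v : X → F) (m : PP F X) :
    ρh b v m = ∑ x, v x • ρ [(b, x)] m := by
  simp [ρh, Fintype.linearCombination_apply, LinearMap.sum_apply]

theorem ρh_single (b : Bool) (x : X) : ρh b (Pi.single x (1 : F)) = ρ [(b, x)] := by
  simp [ρh]

theorem Stable.ρh_mem {J : Submodule F (PP F X)} (h : Stable J) (b : Bool) (v : X → F)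
    {x : PP F X} (hx : x ∈ J) : ρh b v x ∈ J := by
  rw [ρh_apply]
  exact J.sum_mem fun y _ => J.smul_mem _ (h _ _ hx)

/-- product of two linear parts -/
noncomputable def μ0 : (X → F) →ₗ[F] (X → F) →ₗ[F] PP F X :=
  Fintype.linearCombination F fun x => Fintype.linearCombination F fun y => bw F (x, y) []

theorem μ0_single (x y : X) :
    μ0 (Pi.single x (1 : F)) (Pi.single y (1 : F)) = bw F (x, y) [] := by
  simp [μ0]

/-- the model -/
abbrev BB (F : Type) [Field F] (X : Type) := (X → F) × PP F X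

/-- the product of the model -/
noncomputable def μB : BB F X →ₗ[F] BB F X →ₗ[F] BB F X :=
  LinearMap.mk₂ F (fun a b => (0, μ0 a.1 b.1 + ρh true b.1 a.2 + ρh false a.1 b.2))
    (fun a a' b => by simp; abel) (fun c a b => by simp)
    (fun a b b' => by simp; abel) (fun c a b => by simp)

theorem μB_apply (a b : BB F X) :
    μB a b = (0, μ0 a.1 b.1 + ρh true b.1 a.2 + ρh false a.1 b.2) := rfl

/-- the homomorphism to the model -/
noncomputable def h0 : FA F X →ₗ[F] BB F X := evL μB fun x => (Pi.single x 1, 0)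

theorem h0_mul (f g : FA F X) : h0 (f * g) = μB (h0 f) (h0 g) := evL_mul _ _ _ _

theorem h0_lift {Y : Type} (φ : Y → FA F X) (w : FreeMagma Y) :
    h0 (FreeNonUnitalNonAssocAlgebra.lift F φ (mon F w)) = evm μB (fun i => h0 (φ i)) w :=
  hom_lift_mon (A := BB F X) μB h0 h0_mul φ w

/-- action of a word with general arguments -/
noncomputable def evW {Y : Type} (v : Y → X → F) (U : List (Bool × Y)) (m : PP F X) : PP F X :=
  U.foldl (fun m p => ρh p.1 (v p.2) m) m

theorem evW_cons {Y : Type} (v : Y → X → F) (p : Bool × Y) (U : List (Bool × Y)) (m : PP F X) :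
    evW v (p :: U) m = evW v U (ρh p.1 (v p.2) m) := rfl

theorem evm_act {Y : Type} (φ : Y → BB F X) (U : List (Bool × Y)) (t : FreeMagma Y)
    (ht : (evm μB φ t).1 = 0) :
    evm μB φ (act t U) = (0, evW (fun i => (φ i).1) U (evm μB φ t).2) := by
  induction U generalizing t with
  | nil => exact Prod.ext ht rfl
  | cons p U ih =>
    obtain ⟨b, y⟩ := p
    cases b with
    | true =>
      have := ih (t * .of y) rfl
      rw [evW_cons]
      refine this.trans ?_
      simp [μB_apply, ht, evm]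
    | false =>
      have := ih (.of y * t) rfl
      rw [evW_cons]
      refine this.trans ?_
      simp [μB_apply, ht, evm]

theorem evW_basis {Y : Type} (a : Y → X) (v : Y → X → F) (U : List (Bool × Y))
    (h : ∀ i ∈ arg U, v i = Pi.single (a i) 1) (m : PP F X) : evW v U m = ρ (inst a U) m := by
  induction U generalizing m with
  | nil => simp [evW, ρ_nil]
  | cons p U ih =>
    rw [evW_cons, ih (fun i hi => h i (by simp at hi ⊢; exact Or.inr hi)), h p.2 (by simp),
      ρh_single, ← ρ_append]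
    rfl

theorem evW_congr {Y : Type} (v v' : Y → X → F) (U : List (Bool × Y))
    (h : ∀ i ∈ arg U, v i = v' i) (m : PP F X) : evW v U m = evW v' U m := by
  induction U generalizing m with
  | nil => rfl
  | cons p U ih =>
    rw [evW_cons, evW_cons, ih (fun i hi => h i (by simp at hi ⊢; exact Or.inr hi)),
      h p.2 (by simp)]

theorem evW_sum {Y : Type} (v : Y → X → F) (U : List (Bool × Y)) (c : X → F) (m : X → PP F X) :
    evW v U (∑ x, c x • m x) = ∑ x, c x • evW v U (m x) := by
  induction U generalizing m with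
  | nil => rfl
  | cons p U ih => simp only [evW_cons, map_sum, map_smul, ih]

theorem evW_expand (v : ℕ → X → F) (i : ℕ) (U : List (Bool × ℕ)) (hU : (arg U).Nodup)
    (hi : i ∈ arg U) (m : PP F X) :
    evW v U m = ∑ x, v i x • evW (Function.update v i (Pi.single x 1)) U m := by
  induction U generalizing m with
  | nil => simp at hi
  | cons p U ih =>
    simp only [arg, map_cons, nodup_cons, mem_cons] at hU hi
    by_cases hp : i = p.2
    · subst hp
      rw [evW_cons, ρh_apply, evW_sum]
      refine Finset.sum_congr rfl fun x _ => ?_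
      rw [evW_cons, Function.update_self, ρh_single]
      congr 1
      refine evW_congr _ _ _ (fun j hj => ?_) _
      rw [Function.update_of_ne]
      rintro rfl
      exact hU.1 hj
    · rw [evW_cons, ih hU.2 (hi.resolve_left hp)]
      refine Finset.sum_congr rfl fun x _ => ?_
      rw [evW_cons, Function.update_of_ne (Ne.symm hp)]

theorem multilin {d : IdData} (hd : GoodD d) (N : Submodule F (PP F X)) (m : PP F X) (x0 : X)
    (h : ∀ a : ℕ → X, ρ (inst a d.1) m - (d.2.1 : F) • ρ (inst a d.2.2) m ∈ N)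
    (v : ℕ → X → F) : evW v d.1 m - (d.2.1 : F) • evW v d.2.2 m ∈ N := by
  have key : ∀ S : List ℕ, ∀ v : ℕ → X → F,
      (∀ i ∈ arg d.1, i ∉ S → ∃ x, v i = Pi.single x 1) →
      evW v d.1 m - (d.2.1 : F) • evW v d.2.2 m ∈ N := by
    intro S
    induction S with
    | nil =>
      intro v hv
      classical
      let a : ℕ → X := fun i => if hi : i ∈ arg d.1 then (hv i hi (by simp)).choose else x0
      have ha : ∀ i ∈ arg d.1, v i = Pi.single (a i) 1 := fun i hi => by
        simp only [a, dif_pos hi]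
        exact (hv i hi (by simp)).choose_spec
      rw [evW_basis a v _ ha, evW_basis a v _ fun i hi => ha i (hd.2.1.subset hi)]
      exact h a
    | cons i S ih =>
      intro v hv
      by_cases hi : i ∈ arg d.1
      · rw [evW_expand v i _ hd.1 hi, evW_expand v i _ (hd.2.1.nodup_iff.2 hd.1)
          (hd.2.1.symm.subset hi), Finset.smul_sum, ← Finset.sum_sub_distrib]
        refine N.sum_mem fun x _ => ?_
        rw [smul_comm, ← smul_sub]
        refine N.smul_mem _ (ih _ fun j hj hjS => ?_)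
        by_cases hji : j = i
        · subst hji; exact ⟨x, by simp⟩
        · rw [Function.update_of_ne hji]
          exact hv j hj (by simp [hji, hjS])
      · refine ih v fun j hj hjS => hv j hj ?_
        have : j ≠ i := fun e => hi (e ▸ hj)
        simp [this, hjS]
  exact key (arg d.1) v fun i hi hi' => absurd hi hi'

/-- the identities of the system as polynomials -/
def Sys.polys (s : Sys Γ) (F : Type) [Field F] : Set (FA F ℕ) :=
  insert (metab F) (opId F '' s.Ids)

theorem h0_tval (s : Sys Γ) {g : FA F X} (hg : g ∈ TVal (s.polys F) X) :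
    (h0 g).1 = 0 ∧ (h0 g).2 ∈ Rel F X s := by
  obtain ⟨f, hf, φ, rfl⟩ := hg
  rcases hf with rfl | ⟨d, hd, rfl⟩
  · rw [metab, h0_lift]
    simp [evm_mul, μB_apply]
  · rw [opId, map_sub, map_smul, map_sub, map_smul, h0_lift, h0_lift,
      evm_act _ _ _ rfl, evm_act _ _ _ rfl]
    refine ⟨by simp, ?_⟩
    simp only [Prod.snd_sub, Prod.smul_snd]
    rcases isEmpty_or_nonempty X with hX | ⟨⟨x0⟩⟩
    · have : ∀ m : PP F X, m ∈ Rel F X s := fun m => by
        rw [Subsingleton.elim m 0]; exact zero_mem _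
      exact this _
    · exact multilin (s.good_ids hd) _ _ x0 (fun a => rel_ρ (s.rl_of_ids hd a) _) _

end model

end Pool.Agent.Lib.MP_038c09_al
end

-- part Pool.Agent.Lib.MP_038c09_al.Back
section

/-!
Passing between the free algebra and the space of words.
-/

set_option linter.unusedSectionVars false

namespace Pool.Agent.Lib.MP_038c09_al

open List

variable {F : Type} [Field F] {X : Type} {Γ : Type}

/-- words as monomials -/
noncomputable def jP : PP F X →ₗ[F] FA F X :=
  Finsupp.linearCombination F fun gw => mon F (act (.of gw.1.1 * .of gw.1.2) gw.2)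

theorem jP_bw (g : X × X) (w : List (Bool × X)) :
    jP (bw F g w) = mon F (act (.of g.1 * .of g.2) w) := by
  simp [jP, bw]

theorem act_append (t : FreeMagma X) (w w' : List (Bool × X)) :
    act t (w ++ w') = act (act t w) w' := foldl_append

theorem jP_true (x : X) (m : PP F X) : jP (ρ [(true, x)] m) = jP m * mon F (.of x) :=
  PP_ext (f := jP ∘ₗ ρ [(true, x)]) (f' := (LinearMap.mul F _).flip (mon F (.of x)) ∘ₗ jP)
    (fun g w => by
      simp only [LinearMap.comp_apply, ρ_bw, jP_bw, act_append, LinearMap.flip_apply,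
        LinearMap.mul_apply']
      rw [← mon_mul]; rfl) m

theorem jP_false (x : X) (m : PP F X) : jP (ρ [(false, x)] m) = mon F (.of x) * jP m :=
  PP_ext (f := jP ∘ₗ ρ [(false, x)]) (f' := LinearMap.mul F _ (mon F (.of x)) ∘ₗ jP)
    (fun g w => by
      simp only [LinearMap.comp_apply, ρ_bw, jP_bw, act_append, LinearMap.mul_apply']
      rw [← mon_mul]; rfl) m

theorem stable_comap {J : Submodule F (FA F X)} (hJ : IsIdeal J) : Stable (J.comap jP) := by
  rintro ⟨b, x⟩ m hm
  rw [Submodule.mem_comap] at hm ⊢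
  cases b
  · rw [jP_false]; exact (hJ _ _ hm).1
  · rw [jP_true]; exact (hJ _ _ hm).2

theorem act_mul (t t' : FreeMagma X) (w : List (Bool × X)) : ∃ a b, act (t * t') w = a * b := by
  induction w generalizing t t' with
  | nil => exact ⟨t, t', rfl⟩
  | cons p w ih =>
    obtain ⟨b, x⟩ := p
    cases b
    · exact ih (.of x) (t * t')
    · exact ih (t * t') (.of x)

theorem lift_act (φ : ℕ → FA F X) (a : ℕ → X) (U : List (Bool × ℕ))
    (h : ∀ i ∈ arg U, φ i = mon F (.of (a i))) (t : FreeMagma ℕ) (t' : FreeMagma X)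
    (ht : FreeNonUnitalNonAssocAlgebra.lift F φ (mon F t) = mon F t') :
    FreeNonUnitalNonAssocAlgebra.lift F φ (mon F (act t U)) = mon F (act t' (inst a U)) := by
  induction U generalizing t t' with
  | nil => exact ht
  | cons p U ih =>
    obtain ⟨b, i⟩ := p
    have hi : FreeNonUnitalNonAssocAlgebra.lift F φ (mon F (.of i)) = mon F (.of (a i)) := by
      rw [mon_of, FreeNonUnitalNonAssocAlgebra.lift_of_apply, h i (by simp)]
    have hU : ∀ i ∈ arg U, φ i = mon F (.of (a i)) := fun i hi =>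
      h i (by simp at hi ⊢; exact Or.inr hi)
    cases b
    · exact ih hU (.of i * t) (.of (a i) * t') (by rw [mon_mul, map_mul, hi, ht, mon_mul])
    · exact ih hU (t * .of i) (t' * .of (a i)) (by rw [mon_mul, map_mul, hi, ht, mon_mul])

theorem rel_le_comap (s : Sys Γ) {J : Submodule F (FA F X)} (hJ : IsIdeal J)
    (hT : TVal (s.polys F) X ⊆ J) : Rel F X s ≤ J.comap jP := by
  refine Submodule.span_le.2 ?_
  rintro _ ⟨g, p, w, e, w', t, hr, rfl⟩
  have h1 : bw F g (p ++ w) - (e : F) • bw F g (p ++ w') ∈ J.comap jP := by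
    obtain ⟨d, hd, a, rfl, rfl, rfl⟩ := s.ids_of_rl g.1 hr
    obtain ⟨t0, t1, ht⟩ := act_mul (.of g.1) (.of g.2) p
    have hg := s.good_ids hd
    let φ : ℕ → FA F X := fun i =>
      if i = 0 then mon F t0 else if i = 1 then mon F t1 else mon F (.of (a i))
    have hφ : ∀ i ∈ arg d.1, φ i = mon F (.of (a i)) := fun i hi => by
      have := hg.2.2 i hi
      simp only [φ]
      rw [if_neg (by omega), if_neg (by omega)]
    have h01 : FreeNonUnitalNonAssocAlgebra.lift F φ (mon F (.of 0 * .of 1)) = mon F (t0 * t1) := by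
      rw [mon_mul, map_mul, mon_of, mon_of, FreeNonUnitalNonAssocAlgebra.lift_of_apply,
        FreeNonUnitalNonAssocAlgebra.lift_of_apply, mon_mul]
      simp [φ]
    refine hT ⟨opId F d, Or.inr ⟨d, hd, rfl⟩, φ, ?_⟩
    rw [opId, map_sub, map_smul, map_sub, map_smul, jP_bw, jP_bw, act_append, act_append, ht,
      lift_act φ a _ hφ _ _ h01, lift_act φ a _ (fun i hi => hφ i (hg.2.1.subset hi)) _ _ h01]
  have h2 := (stable_comap hJ).ρ_mem t h1
  rwa [map_sub, map_smul, ρ_bw, ρ_bw, append_assoc, append_assoc] at h2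

theorem jP_mul_mem (s : Sys Γ) {J : Submodule F (FA F X)} (hT : TVal (s.polys F) X ⊆ J)
    (m m' : PP F X) : jP m * jP m' ∈ J := by
  refine PP_mem (f := (LinearMap.mul F _).flip (jP m') ∘ₗ jP) (fun g w => ?_) m
  refine PP_mem (f := LinearMap.mul F _ (jP (bw F g w)) ∘ₗ jP) (fun g' w' => ?_) m'
  obtain ⟨t0, t1, ht⟩ := act_mul (.of g.1) (.of g.2) w
  obtain ⟨t2, t3, ht'⟩ := act_mul (.of g'.1) (.of g'.2) w'
  refine hT ⟨metab F, Or.inl rfl, fun i => mon F (![t0, t1, t2, t3] (Fin.ofNat 4 i)), ?_⟩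
  simp only [LinearMap.comp_apply, LinearMap.mul_apply', jP_bw, ht, ht', metab, mon_mul, map_mul,
    mon_of, FreeNonUnitalNonAssocAlgebra.lift_of_apply]
  rfl

variable [Fintype X] [DecidableEq X]

/-- linear parts as polynomials -/
noncomputable def jV : (X → F) →ₗ[F] FA F X := Fintype.linearCombination F fun x => mon F (.of x)

theorem jV_apply (v : X → F) : jV v = ∑ x, v x • mon F (.of x) := by
  simp [jV, Fintype.linearCombination_apply]

theorem jP_ρh_true (v : X → F) (m : PP F X) : jP (ρh true v m) = jP m * jV v := by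
  simp only [ρh_apply, jV_apply, jP_true, Finset.mul_sum, map_sum, map_smul, mul_smul_comm]

theorem jP_ρh_false (v : X → F) (m : PP F X) : jP (ρh false v m) = jV v * jP m := by
  simp only [ρh_apply, jV_apply, jP_false, Finset.sum_mul, map_sum, map_smul, smul_mul_assoc]

theorem jP_μ0 (v v' : X → F) : jP (μ0 v v') = jV v * jV v' := by
  simp only [μ0, Fintype.linearCombination_apply, LinearMap.sum_apply, LinearMap.smul_apply,
    map_sum, map_smul, jP_bw, jV_apply, Finset.sum_mul, Finset.mul_sum, smul_mul_assoc,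
    mul_smul_comm, ← mon_mul, Finset.smul_sum]
  rw [Finset.sum_comm]
  refine Finset.sum_congr rfl fun x _ => Finset.sum_congr rfl fun y _ => ?_
  rw [smul_comm]; rfl

/-- the map back from the model -/
noncomputable def jB : BB F X →ₗ[F] FA F X := jV.coprod jP

theorem jB_apply (b : BB F X) : jB b = jV b.1 + jP b.2 := rfl

theorem jB_mul (a b : BB F X) : jB (μB a b) = jB a * jB b - jP a.2 * jP b.2 := by
  simp only [jB_apply, μB_apply, map_zero, map_add, jP_μ0, jP_ρh_true, jP_ρh_false, add_mul,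
    mul_add]
  abel

theorem sub_jB_mem (s : Sys Γ) {J : Submodule F (FA F X)} (hJ : IsIdeal J)
    (hT : TVal (s.polys F) X ⊆ J) (f : FA F X) : f - jB (h0 f) ∈ J := by
  induction f using MonoidAlgebra.induction_linear with
  | zero => simp
  | add f f' h h' =>
    rw [map_add, map_add, add_sub_add_comm]; exact J.add_mem h h'
  | single w c =>
    rw [single_eq, map_smul, map_smul, ← smul_sub]
    refine J.smul_mem _ ?_
    induction w with
    | ih1 x => simp [h0, evL_mon, evm, jB_apply, jV]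
    | ih2 t t' ht ht' =>
      rw [mon_mul, h0_mul, jB_mul]
      have e : mon F t * mon F t' - (jB (h0 (mon F t)) * jB (h0 (mon F t')) -
          jP (h0 (mon F t)).2 * jP (h0 (mon F t')).2) =
          (mon F t - jB (h0 (mon F t))) * mon F t' +
            jB (h0 (mon F t)) * (mon F t' - jB (h0 (mon F t'))) +
            jP (h0 (mon F t)).2 * jP (h0 (mon F t')).2 := by
        rw [sub_mul, mul_sub]; abel
      rw [e]
      exact J.add_mem (J.add_mem (hJ _ _ ht).2 (hJ _ _ ht').1) (jP_mul_mem s hT _ _)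

theorem h0_jP (m : PP F X) : h0 (jP m) = (0, m) :=
  PP_ext (f := h0 ∘ₗ jP) (f' := LinearMap.inr F _ _) (fun g w => by
    rw [LinearMap.comp_apply, jP_bw, h0, evL_mon, evm_act _ _ _ rfl,
      evW_basis id (fun i => ((Pi.single i 1, 0) : BB F X).1) _ (fun i _ => rfl)]
    simp [evm, μB_apply, μ0_single, inst]) m

/-- the ideal of the model spanned by `S` and a stable subspace -/
theorem ideal_comap (S : Set (BB F X)) (J : Submodule F (PP F X)) (hJ : Stable J)
    (h1 : ∀ r ∈ S, ∀ b m, ρh b r.1 m ∈ J)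
    (h2 : ∀ r ∈ S, ∀ x, (μB r (Pi.single x 1, 0)).2 ∈ J ∧ (μB (Pi.single x 1, 0) r).2 ∈ J) :
    IsIdeal ((Submodule.span F S ⊔ Submodule.prod ⊥ J).comap h0) := by
  have hv : ∀ v : X → F, ((v, 0) : BB F X) = ∑ x, v x • ((Pi.single x 1, 0) : BB F X) := by
    intro v
    refine Prod.ext ?_ (by simp [Prod.snd_sum])
    simp only [Prod.fst_sum, Prod.smul_fst]
    exact pi_eq_sum_univ' v
  have key : ∀ c, ∀ b ∈ Submodule.span F S ⊔ Submodule.prod ⊥ J,
      (μB c b).2 ∈ J ∧ (μB b c).2 ∈ J := by
    intro c b hb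
    have : Submodule.span F S ⊔ Submodule.prod ⊥ J ≤
        (J.comap (LinearMap.snd F _ _ ∘ₗ μB c)) ⊓ J.comap (LinearMap.snd F _ _ ∘ₗ μB.flip c) := by
      refine sup_le (Submodule.span_le.2 fun r hr => ⟨?_, ?_⟩) ?_
      · change (μB c r).2 ∈ J
        have : (μB c r).2 = (μB (c.1, 0) r).2 + ρh true r.1 c.2 := by simp [μB_apply]; abel
        rw [this, hv, map_sum, LinearMap.sum_apply, Prod.snd_sum]
        refine J.add_mem (J.sum_mem fun x _ => ?_) (h1 r hr _ _)
        rw [map_smul, LinearMap.smul_apply, Prod.smul_snd]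
        exact J.smul_mem _ (h2 r hr x).2
      · change (μB r c).2 ∈ J
        have : (μB r c).2 = (μB r (c.1, 0)).2 + ρh false r.1 c.2 := by simp [μB_apply]
        rw [this, hv, map_sum, Prod.snd_sum]
        refine J.add_mem (J.sum_mem fun x _ => ?_) (h1 r hr _ _)
        rw [map_smul, Prod.smul_snd]
        exact J.smul_mem _ (h2 r hr x).1
      · rintro ⟨v, m⟩ ⟨hv, hm⟩
        obtain rfl : v = 0 := hv
        exact ⟨by simpa [μB_apply] using hJ.ρh_mem false c.1 hm,
          by simpa [μB_apply] using hJ.ρh_mem true c.1 hm⟩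
    exact this hb
  intro x y hy
  rw [Submodule.mem_comap] at hy
  simp only [Submodule.mem_comap, h0_mul]
  exact ⟨Submodule.mem_sup_right ⟨rfl, (key _ _ hy).1⟩, Submodule.mem_sup_right ⟨rfl, (key _ _ hy).2⟩⟩

theorem tval_subset (s : Sys Γ) (U : Submodule F (BB F X)) {J : Submodule F (PP F X)}
    (hJ : Rel F X s ≤ J) : TVal (s.polys F) X ⊆ (U ⊔ Submodule.prod ⊥ J).comap h0 := fun _ hg =>
  Submodule.mem_sup_right ⟨(h0_tval s hg).1, hJ (h0_tval s hg).2⟩

end Pool.Agent.Lib.MP_038c09_al
end

-- part Pool.Agent.Lib.MP_038c09_al.Transfer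
section

/-!
The RFD property in terms of the space of words.
-/

set_option linter.unusedSectionVars false

namespace Pool.Agent.Lib.MP_038c09_al

open List

variable {F : Type} [Field F] {X : Type} {Γ : Type}

theorem cofg_comap {M N : Type} [AddCommGroup M] [Module F M] [AddCommGroup N] [Module F N]
    (f : M →ₗ[F] N) {J : Submodule F N} (h : J.CoFG) : (J.comap f).CoFG := by
  have : J.comap f = LinearMap.ker (J.mkQ ∘ₗ f) := by rw [LinearMap.ker_comp, Submodule.ker_mkQ]
  rw [this]
  exact Submodule.CoFG.ker _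

theorem not_rfd_of (s : Sys Γ) {n : ℕ} (G : Finset (PP F (Fin n))) (a : PP F (Fin n))
    (J0 : Submodule F (PP F (Fin n))) (h1 : Stable J0) (h2 : Rel F _ s ≤ J0)
    (h3 : (G : Set (PP F (Fin n))) ⊆ J0) (h4 : a ∉ J0)
    (h : ∀ J : Submodule F (PP F (Fin n)), Stable J → Rel F _ s ≤ J →
      (G : Set (PP F (Fin n))) ⊆ J → J.CoFG → a ∈ J) : ¬ IsRFDVariety (s.polys F) := by
  classical
  intro H
  obtain ⟨J, hJ, hle, hfin, ha⟩ := H n (G.image jP) (jP a) (by
    intro hK
    have hI := ideal_comap (F := F) (X := Fin n) ∅ J0 h1 (by simp) (by simp)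
    have := idealGen_le hI (Set.union_subset (tval_subset s _ h2) (by
      rintro f hf
      obtain ⟨m, hm, rfl⟩ := Finset.mem_image.1 hf
      exact Submodule.mem_sup_right (by rw [h0_jP]; exact ⟨rfl, h3 hm⟩))) hK
    rw [Submodule.mem_comap, h0_jP, Submodule.span_empty, bot_sup_eq] at this
    exact h4 this.2)
  have hsub : TVal (s.polys F) (Fin n) ∪ ↑(G.image jP) ⊆ (J : Set (FA F (Fin n))) :=
    fun x hx => hle (subset_idealGen _ hx)
  exact ha (h (J.comap jP) (stable_comap hJ)
    (rel_le_comap s hJ ((Set.subset_union_left).trans hsub))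
    (fun m hm => hsub (Or.inr (Finset.mem_coe.2 (Finset.mem_image_of_mem _ hm))))
    (cofg_comap _ hfin))

variable [Fintype X] [DecidableEq X]

/-- relations together with the vanishing of some linear arguments -/
noncomputable def RelL (s : Sys Γ) (Λ : Set (X → F)) : Submodule F (PP F X) :=
  Rel F X s ⊔ Submodule.span F {f | ∃ l ∈ Λ, ∃ b g p t, f = ρ t (ρh b l (bw F g p))}

/-- stable subspace generated by a set -/
noncomputable def genS (G : Set (PP F X)) : Submodule F (PP F X) :=
  Submodule.span F {f | ∃ γ ∈ G, ∃ ε, f = ρ ε γ}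

theorem stable_relL (s : Sys Γ) (Λ : Set (X → F)) : Stable (RelL s Λ) := by
  intro u x hx
  have : RelL s Λ ≤ (RelL s Λ).comap (ρ [u]) := by
    refine sup_le (fun y hy => Submodule.mem_sup_left (stable_rel s u y hy))
      (Submodule.span_le.2 ?_)
    rintro _ ⟨l, hl, b, g, p, t, rfl⟩
    exact Submodule.mem_sup_right (Submodule.subset_span ⟨l, hl, b, g, p, t ++ [u],
      (ρ_append _ _ _).symm⟩)
  exact this hx

theorem stable_genS (G : Set (PP F X)) : Stable (genS G) := by
  intro u x hx
  have : genS G ≤ (genS G).comap (ρ [u]) := by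
    refine Submodule.span_le.2 ?_
    rintro _ ⟨γ, hγ, ε, rfl⟩
    exact Submodule.subset_span ⟨γ, hγ, ε ++ [u], (ρ_append _ _ _).symm⟩
  exact this hx

theorem Stable.sup {J J' : Submodule F (PP F X)} (h : Stable J) (h' : Stable J') :
    Stable (J ⊔ J') := by
  intro u x hx
  obtain ⟨y, hy, z, hz, rfl⟩ := Submodule.mem_sup.1 hx
  rw [map_add]
  exact Submodule.add_mem_sup (h u y hy) (h' u z hz)

theorem ρh_mem_relL (s : Sys Γ) {Λ : Set (X → F)} {l : X → F} (hl : l ∈ Λ) (b : Bool)
    (m : PP F X) : ρh b l m ∈ RelL s Λ := by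
  refine PP_mem (f := ρh b l) (fun g p => ?_) m
  exact Submodule.mem_sup_right (Submodule.subset_span ⟨l, hl, b, g, p, [], (ρ_nil _).symm⟩)

/-- finitely generated stable subspaces over the relations are closed -/
def ClosedP (F : Type) [Field F] (X : Type) [Fintype X] [DecidableEq X] (s : Sys Γ) : Prop :=
  ∀ (Λ : Set (X → F)) (G : Set (PP F X)), G.Finite → ∀ K' : Submodule F (PP F X), Stable K' →
    RelL s Λ ⊔ genS G ≤ K' → (∃ U : Submodule F (PP F X), U.FG ∧ K' ≤ RelL s Λ ⊔ genS G ⊔ U) →
    ∀ a, a ∉ K' → ∃ J : Submodule F (PP F X), K' ≤ J ∧ Stable J ∧ J.CoFG ∧ a ∉ J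

theorem rfd_of_closed (s : Sys Γ) (h : ∀ n, ClosedP F (Fin n) s) : IsRFDVariety (s.polys F) := by
  classical
  intro n R a ha
  set K := idealGen (TVal (s.polys F) (Fin n) ∪ ↑R) with hKdef
  have hK : IsIdeal K := isIdeal_idealGen _
  have hT : TVal (s.polys F) (Fin n) ⊆ K := Set.subset_union_left.trans (subset_idealGen _)
  have hR : ∀ r ∈ R, r ∈ K := fun r hr => subset_idealGen _ (Or.inr hr)
  have hj : ∀ f, f - jB (h0 f) ∈ K := sub_jB_mem s hK hT
  have hjK : ∀ f ∈ K, jB (h0 f) ∈ K := fun f hf => by simpa using K.sub_mem hf (hj f)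
  let S : Set (BB F (Fin n)) := h0 '' (R : Set (FA F (Fin n)))
  have hS : S.Finite := R.finite_toSet.image _
  let Λ : Set (Fin n → F) := Prod.fst '' S
  let G : Set (PP F (Fin n)) :=
    (fun q : BB F (Fin n) × Fin n => (μB q.1 (Pi.single q.2 1, 0)).2) '' (S ×ˢ Set.univ) ∪
    (fun q : BB F (Fin n) × Fin n => (μB (Pi.single q.2 1, 0) q.1).2) '' (S ×ˢ Set.univ)
  have hG : G.Finite := ((hS.prod Set.finite_univ).image _).union ((hS.prod Set.finite_univ).image _)
  have hideal : ∀ J : Submodule F (PP F (Fin n)), Stable J → RelL s Λ ⊔ genS G ≤ J →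
      IsIdeal ((Submodule.span F S ⊔ Submodule.prod ⊥ J).comap h0) ∧
      K ≤ (Submodule.span F S ⊔ Submodule.prod ⊥ J).comap h0 := by
    intro J hJ hle
    have hGJ : ∀ γ ∈ G, γ ∈ J := fun γ hγ => hle (Submodule.mem_sup_right
      (Submodule.subset_span ⟨γ, hγ, [], (ρ_nil _).symm⟩))
    have hI := ideal_comap S J hJ
      (fun r hr b m => hle (Submodule.mem_sup_left (ρh_mem_relL s (Λ := Λ) ⟨r, hr, rfl⟩ b m)))
      (fun r hr x => ⟨hGJ _ (Or.inl ⟨(r, x), ⟨hr, trivial⟩, rfl⟩),
        hGJ _ (Or.inr ⟨(r, x), ⟨hr, trivial⟩, rfl⟩)⟩)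
    exact ⟨hI, idealGen_le hI (Set.union_subset
      (tval_subset s _ (le_sup_left.trans (le_sup_left.trans hle)))
      fun r hr => Submodule.mem_sup_left (Submodule.subset_span ⟨r, hr, rfl⟩))⟩
  have hSK : ∀ u ∈ Submodule.span F S, jB u ∈ K := by
    intro u hu
    have : Submodule.span F S ≤ K.comap jB := by
      refine Submodule.span_le.2 ?_
      rintro _ ⟨r, hr, rfl⟩
      exact hjK r (hR r hr)
    exact this hu
  have hof : ∀ x : Fin n, h0 (mon F (.of x)) = ((Pi.single x 1, 0) : BB F (Fin n)) := fun x => by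
    rw [h0, evL_mon]; rfl
  have hK0 : RelL s Λ ⊔ genS G ≤ K.comap jP := by
    have hst := stable_comap hK
    refine sup_le (sup_le (rel_le_comap s hK hT) (Submodule.span_le.2 ?_)) (Submodule.span_le.2 ?_)
    · rintro _ ⟨_, ⟨_, ⟨r, hr, rfl⟩, rfl⟩, b, g, p, t, rfl⟩
      refine hst.ρ_mem t ?_
      have h1 : jV (h0 r).1 = jB (h0 r) - jP (h0 r).2 := by rw [jB_apply]; abel
      rw [Submodule.mem_comap]
      cases b
      · rw [jP_ρh_false, h1, sub_mul]
        exact K.sub_mem (hK _ _ (hjK r (hR r hr))).2 (jP_mul_mem s hT _ _)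
      · rw [jP_ρh_true, h1, mul_sub]
        exact K.sub_mem (hK _ _ (hjK r (hR r hr))).1 (jP_mul_mem s hT _ _)
    · rintro _ ⟨γ, hγ, ε, rfl⟩
      refine hst.ρ_mem ε ?_
      rw [Submodule.mem_comap]
      rcases hγ with ⟨⟨_, x⟩, ⟨⟨r, hr, rfl⟩, -⟩, rfl⟩ | ⟨⟨_, x⟩, ⟨⟨r, hr, rfl⟩, -⟩, rfl⟩
      · have := hjK _ (hK (mon F (.of x)) r (hR r hr)).2
        rw [h0_mul, hof, jB_apply] at this
        simpa [μB_apply] using this
      · have := hjK _ (hK (mon F (.of x)) r (hR r hr)).1
        rw [h0_mul, hof, jB_apply] at this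
        simpa [μB_apply] using this
  have hfin : ∀ J : Submodule F (PP F (Fin n)), J.CoFG →
      ((Submodule.span F S ⊔ Submodule.prod ⊥ J).comap h0).CoFG := by
    intro J hJ
    refine cofg_comap _ (Submodule.CoFG.of_le le_sup_right ?_)
    have : (Submodule.prod ⊥ J : Submodule F (BB F (Fin n))) =
        (⊥ : Submodule F (Fin n → F)).comap (LinearMap.fst F _ _) ⊓ J.comap (LinearMap.snd F _ _) :=
      rfl
    rw [this]
    exact (cofg_comap _ Submodule.CoFG.of_finite).inf (cofg_comap _ hJ)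
  by_cases hu : ∃ u ∈ Submodule.span F S, u.1 = (h0 a).1
  · obtain ⟨u, hu, hu1⟩ := hu
    have ha' : (h0 a).2 - u.2 ∉ K.comap jP := by
      intro h1
      apply ha
      have e : a = (a - jB (h0 a)) + jP ((h0 a).2 - u.2) + jB u := by
        rw [jB_apply, jB_apply, hu1, map_sub]; abel
      rw [e]
      exact K.add_mem (K.add_mem (hj a) h1) (hSK u hu)
    obtain ⟨J, hJ1, hJ2, hJ3, hJ4⟩ := h n Λ G hG (K.comap jP) (stable_comap hK) hK0
      ⟨(Submodule.span F S).map (LinearMap.snd F _ _), (Submodule.fg_span hS).map _, by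
        intro m hm
        have := (hideal _ ((stable_relL s Λ).sup (stable_genS G)) le_rfl).2 hm
        rw [Submodule.mem_comap, h0_jP] at this
        obtain ⟨y, hy, z, hz, e⟩ := Submodule.mem_sup.1 this
        have e2 : m = z.2 + y.2 := by rw [add_comm]; exact (congrArg Prod.snd e).symm
        rw [e2]
        exact Submodule.add_mem_sup hz.2 ⟨y, hy, rfl⟩⟩ _ ha'
    obtain ⟨hI, hle⟩ := hideal J hJ2 (hK0.trans hJ1)
    refine ⟨_, hI, hle, hfin J hJ3, fun hm => hJ4 ?_⟩
    obtain ⟨y, hy, z, hz, e⟩ := Submodule.mem_sup.1 hm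
    have e1 : y.1 = u.1 := by
      have := congrArg Prod.fst e
      rw [Prod.fst_add, show z.1 = 0 from hz.1, add_zero] at this
      rw [this, hu1]
    have e2 : (h0 a).2 - u.2 = z.2 + (y - u).2 := by rw [← e]; simp; abel
    rw [e2]
    refine J.add_mem hz.2 (hJ1 ?_)
    have := hSK _ (Submodule.sub_mem _ hy hu)
    rw [jB_apply, Prod.fst_sub, e1, sub_self, map_zero, zero_add] at this
    exact this
  · obtain ⟨hI, hle⟩ := hideal ⊤ (fun _ _ _ => trivial) le_top
    refine ⟨_, hI, hle, hfin ⊤ Submodule.CoFG.top, fun hm => hu ?_⟩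
    obtain ⟨y, hy, z, hz, e⟩ := Submodule.mem_sup.1 hm
    refine ⟨y, hy, ?_⟩
    have := congrArg Prod.fst e
    rwa [Prod.fst_add, show z.1 = 0 from hz.1, add_zero] at this

end Pool.Agent.Lib.MP_038c09_al
end
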