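import Pool.Agent.Lib.MP_038c09_al.UndMain

namespace Pool.Agent.Results.MP_038c09_al.Undecidable

open Pool.Agent.Lib.MP_038c09_al

/-- The finite lists of identities that define RFD-varieties do not form a recursively enumerable
set, already for metabelian varieties given by binomial identities in left and right
multiplications. -/
theorem result (F : Type) [Field F] [CharZero F] :
    ¬ REPred fun I : List IdData => IsRFDVariety (idSet F I) :=
  not_re_rfd F

end Pool.Agent.Results.MP_038c09_al.Undecidable
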